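import Pool.Agent.Hhelper29.CG.CgCrit2

/-!
CG at the critical accuracy `ε = ε_c(p)`, `p < 1/3`: tightness.
-/

namespace Pool.Agent.Hhelper29.CG

open MeasureTheory Matrix ProbabilityTheory Polynomial Filter
open scoped ENNReal Classical Topology

variable {n : ℕ}

lemma rpow_one_sub_two {m : ℝ} (hm : 0 < m) (s : ℝ) : m ^ (1 - 2 * s) = m * (m ^ (-s)) ^ 2 := by
  have h1 : (m ^ (-s)) ^ 2 = m ^ (-(2 * s)) := by
    rw [← Real.rpow_natCast, ← Real.rpow_mul hm.le]; congr 1; push_cast; ring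
  have h2 : m * m ^ (-(2 * s)) = m ^ (-(2 * s) + 1) := by
    rw [Real.rpow_add_one hm.ne']; ring
  rw [h1, h2]; congr 1; ring

lemma rpow_two_mul' {n : ℝ} (hn : 0 < n) (s : ℝ) : n ^ (2 * s) = (n ^ s) ^ 2 := by
  rw [← Real.rpow_natCast, ← Real.rpow_mul hn.le]; congr 1; push_cast; ring

/-- variance of the critical form -/
lemma cc_sq_sum (hn : 0 < n) {p s ε F : ℝ} (hp0 : 0 < p) (hε : 0 ≤ ε) {d : ℕ}
    (hs : s = (2 * (d : ℝ) + 1) * p) (hs2 : 1 < 2 * s)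
    (a : ℕ → ℝ) (hF : F = (∑ i ∈ Finset.range (d + 1), |a i|) ^ 2 + ε) {m : ℕ} (hm : 1 ≤ m)
    (hmn : m ≤ n) (hB : ε * (n : ℝ) ^ p ≤ F * ((n : ℝ) ^ s * (m : ℝ) ^ (-s))) :
    ∑ k : Fin n, cc n m p d a ε k ^ 2 ≤
      F ^ 2 * ((n : ℝ) ^ (2 * s) * (m : ℝ) ^ (1 - 2 * s)) * (1 + 1 / (2 * s - 1)) := by
  have hn0 : (0:ℝ) < n := by exact_mod_cast hn
  have hm0 : (0:ℝ) < m := by exact_mod_cast hm
  have h2s : 0 < 2 * s - 1 := by linarith
  rw [Fin.sum_univ_eq_sum_range (fun k : ℕ => cc n m p d a ε k ^ 2) n, Finset.range_eq_Ico,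
    ← Finset.sum_Ico_consecutive _ (Nat.zero_le m) hmn, mul_add, mul_one]
  apply add_le_add
  · have h1 : ∀ k ∈ Finset.Ico 0 m, cc n m p d a ε k ^ 2 ≤
        (F * ((n : ℝ) ^ s * (m : ℝ) ^ (-s))) ^ 2 := by
      intro k hk
      rw [Finset.mem_Ico] at hk
      rw [← sq_abs]
      exact pow_le_pow_left₀ (abs_nonneg _) ((cc_abs_lt hn hp0 hε a hk.2).trans hB) 2
    refine (Finset.sum_le_sum h1).trans (le_of_eq ?_)
    rw [Finset.sum_const, Nat.card_Ico, Nat.sub_zero, nsmul_eq_mul]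
    rw [rpow_two_mul' hn0, rpow_one_sub_two hm0]; ring
  · have h1 : ∀ k ∈ Finset.Ico m n, cc n m p d a ε k ^ 2 ≤
        F ^ 2 * (n : ℝ) ^ (2 * s) * ((k : ℝ) + 1) ^ (-(2 * s)) := by
      intro k hk
      rw [Finset.mem_Ico] at hk
      rw [← sq_abs]
      have h2 := cc_abs_le hn hp0 hε hs a hk.2 hk.1
      rw [← hF, sx_rpow hn] at h2
      calc |cc n m p d a ε k| ^ 2 ≤ (F * ((n : ℝ) ^ s * ((k : ℝ) + 1) ^ (-s))) ^ 2 :=
            pow_le_pow_left₀ (abs_nonneg _) h2 2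
        _ = F ^ 2 * ((n : ℝ) ^ s) ^ 2 * (((k : ℝ) + 1) ^ (-s)) ^ 2 := by ring
        _ = _ := by
            have hk0 : (0:ℝ) < (k : ℝ) + 1 := by positivity
            congr 1
            · congr 1
              rw [← Real.rpow_natCast, ← Real.rpow_mul hn0.le]; congr 1; push_cast; ring
            · rw [← Real.rpow_natCast, ← Real.rpow_mul hk0.le]; congr 1; push_cast; ring
    refine (Finset.sum_le_sum h1).trans ?_
    rw [← Finset.mul_sum]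
    have h3 := sum_Ico_rpow_le hs2 hm n
    calc F ^ 2 * (n : ℝ) ^ (2 * s) * ∑ k ∈ Finset.Ico m n, ((k : ℝ) + 1) ^ (-(2 * s))
        ≤ F ^ 2 * (n : ℝ) ^ (2 * s) * ((m : ℝ) ^ (1 - 2 * s) / (2 * s - 1)) := by gcongr
      _ = _ := by ring

/-- energy of the extremal polynomial times the killing polynomial -/
lemma En_crit (hn : 0 < n) {p : ℝ} (hp : 0 ≤ p) (d m : ℕ) (a : ℕ → ℝ) {ε : ℝ} (w : Fin n → ℂ)
    (h : wsq (fun k : Fin n => cc n m p d a ε k) w ≤ 0) :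
    En p w (polyOf p n d a * killP p m) ≤ ε * nsq (y0 p w) := by
  have hn0 : (0:ℝ) < n := by exact_mod_cast hn
  have h1 : En p w (polyOf p n d a * killP p m) ≤
      ∑ k : Fin n, (n : ℝ) ^ (-p) * ((if m ≤ (k : ℕ) then sx n k ^ (-p) * (qv p d a (sx n k)) ^ 2 else 0)
        * ‖w k‖ ^ 2) := by
    unfold En
    apply Finset.sum_le_sum
    intro k _
    rw [eval_mul, mul_pow]
    split_ifs with hk
    · have h2 := killP_abs_le p m (lam_pos p k).le (fun j hj => lam_antitone hp (hj.le.trans hk))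
      have h3 : ((killP p m).eval (lam p k)) ^ 2 ≤ 1 := by
        rw [← sq_abs]; exact pow_le_one₀ (abs_nonneg _) h2
      have h4 : (polyOf p n d a).eval (lam p k) = qv p d a (sx n k) := polyOf_eval hn p d a k
      rw [h4]
      have h5 : 0 ≤ lam p k * (qv p d a (sx n k)) ^ 2 := mul_nonneg (lam_pos p k).le (sq_nonneg _)
      calc lam p k * ((qv p d a (sx n k)) ^ 2 * ((killP p m).eval (lam p k)) ^ 2) * ‖w k‖ ^ 2
          = (lam p k * (qv p d a (sx n k)) ^ 2) * ((killP p m).eval (lam p k)) ^ 2 * ‖w k‖ ^ 2 := by ring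
        _ ≤ (lam p k * (qv p d a (sx n k)) ^ 2) * 1 * ‖w k‖ ^ 2 := by gcongr
        _ = (n : ℝ) ^ (-p) * (sx n k ^ (-p) * (qv p d a (sx n k)) ^ 2 * ‖w k‖ ^ 2) := by
            rw [lam_eq_sx hn]; ring
    · rw [killP_root p (not_le.mp hk)]; simp
  have h2 : ε * nsq (y0 p w) = ∑ k : Fin n, (n : ℝ) ^ (-p) * (ε * sx n k ^ (-p) * ‖w k‖ ^ 2) := by
    rw [nsq_y0, Finset.mul_sum]
    apply Finset.sum_congr rfl; intro k _
    rw [lam_eq_sx hn]; ring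
  rw [h2]
  refine h1.trans ?_
  rw [← sub_nonpos, ← Finset.sum_sub_distrib]
  have h3 : ∑ k : Fin n, ((n : ℝ) ^ (-p) * ((if m ≤ (k : ℕ) then sx n k ^ (-p) * (qv p d a (sx n k)) ^ 2
        else 0) * ‖w k‖ ^ 2) - (n : ℝ) ^ (-p) * (ε * sx n k ^ (-p) * ‖w k‖ ^ 2))
      = (n : ℝ) ^ (-p) * wsq (fun k : Fin n => cc n m p d a ε k) w := by
    rw [wsq, Finset.mul_sum]
    apply Finset.sum_congr rfl; intro k _
    unfold cc; ring
  rw [h3]
  exact mul_nonpos_of_nonneg_of_nonpos (by positivity) h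

theorem cg_crit_tight {p : ℝ} (hp0 : 0 < p) (hp1 : p < 1 / 3) {η : ℝ} (hη : 0 < η) :
    ∃ T n₀ : ℕ, ∀ n ≥ n₀, ∀ {Ω : Type*} [MeasurableSpace Ω] (P : Measure Ω) (m : Model n p P),
      P {ω | (T : ℕ∞) < m.Tcg (epsc p) ω} ≤ ENNReal.ofReal η := by
  have hp1' : p < 1 := by linarith
  set d := dcrit p with hd
  have hd1 : 1 ≤ d := one_le_dcrit hp0 hp1
  have hd1' : (1:ℝ) ≤ d := by exact_mod_cast hd1
  set γ : ℝ := (1 - p) / p with hγ
  set s : ℝ := (2 * (d : ℝ) + 1) * p with hs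
  have hs1 : s < 1 := dcrit_lt' hp0 hp1'
  have hge : 1 ≤ (2 * (d : ℝ) + 3) * p := dcrit_ge hp0 hp1'
  have hs2 : 1 < 2 * s := by
    have : (2 * (d : ℝ) + 3) * p < 2 * s := by
      rw [hs]; nlinarith
    linarith
  have hsp : s - p = 2 * d * p := by rw [hs]; ring
  have hγd : 2 * (d : ℝ) < γ := by
    rw [hγ, lt_div_iff₀ hp0]
    rw [hs] at hs1
    linarith
  set a : ℕ → ℝ := ast γ d with ha
  set ε : ℝ := epsc p with hε
  have hε0 : 0 < ε := epsc_pos hp0 hp1'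
  set S : ℝ := (∑ i ∈ Finset.range (d + 1), |a i|) ^ 2 with hS
  have hS0 : 0 ≤ S := sq_nonneg _
  set F : ℝ := S + ε with hF
  have hF0 : 0 < F := by linarith
  set κ : ℝ := a d ^ 2 / (1 - s) with hκ
  have had : a d ≠ 0 := ast_last_ne_zero hγd
  have h1s : 0 < 1 - s := by linarith
  have h1p : 0 < 1 - p := by linarith
  have hκ0 : 0 < κ := by positivity
  set V : ℝ := 1 + 1 / (2 * s - 1) with hV
  have hV0 : 0 < V := by
    have : 0 < 2 * s - 1 := by linarith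
    positivity
  clear_value V κ F S
  clear_value a ε s
  clear_value γ d
  obtain ⟨κ₂, hκ₂0, hκ₂1, hκ₂2⟩ : ∃ κ₂ : ℝ, 0 < κ₂ ∧ κ₂ ≤ 1 / 2 ∧ κ₂ ≤ κ / (8 * F * V) :=
    ⟨min (1 / 2) (κ / (8 * F * V)), lt_min (by norm_num)
      (div_pos hκ0 (mul_pos (mul_pos (by norm_num) hF0) hV0)), min_le_left _ _, min_le_right _ _⟩
  obtain ⟨ρ, hρ⟩ : ∃ ρ : ℝ, ρ = κ₂ * κ / (4 * F) := ⟨_, rfl⟩
  have hρ0 : 0 < ρ := by rw [hρ]; exact div_pos (mul_pos hκ₂0 hκ0) (by linarith)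
  -- choice of `m`
  have hev : ∀ᶠ m : ℕ in atTop, Real.exp (-(ρ * m)) ≤ η := by
    have h1 : Tendsto (fun m : ℕ => ρ * (m : ℝ)) atTop atTop :=
      tendsto_natCast_atTop_atTop.const_mul_atTop hρ0
    have h2 : Tendsto (fun m : ℕ => Real.exp (-(ρ * (m : ℝ)))) atTop (𝓝 0) :=
      Real.tendsto_exp_neg_atTop_nhds_zero.comp h1
    exact h2.eventually_le_const hη
  obtain ⟨m, hm1, hm2⟩ := (hev.and (eventually_ge_atTop 1)).exists
  have hm0 : (0:ℝ) < m := by exact_mod_cast hm2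
  set Cm : ℝ := S * (((m : ℝ) + 1) / (1 - s)) + ε / (1 - p) with hCm
  have hCm0 : 0 < Cm := by positivity
  have e1 : ∀ᶠ n : ℕ in atTop, ε * (m : ℝ) ^ s / F ≤ (n : ℝ) ^ (s - p) :=
    ((tendsto_rpow_atTop (show 0 < s - p by rw [hsp]; positivity)).comp
      tendsto_natCast_atTop_atTop).eventually_ge_atTop _
  have e2 : ∀ᶠ n : ℕ in atTop, 2 * Cm / (κ * (m : ℝ) ^ (1 - s)) ≤ (n : ℝ) ^ p :=
    ((tendsto_rpow_atTop hp0).comp tendsto_natCast_atTop_atTop).eventually_ge_atTop _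
  obtain ⟨n₀, hn₀⟩ := eventually_atTop.mp ((e1.and e2).and (eventually_ge_atTop m))
  refine ⟨d + m, n₀, fun n hn Ω _ P mo => ?_⟩
  obtain ⟨⟨h1, h2⟩, hmn⟩ := hn₀ n hn
  have hnpos := mo.n_pos
  have hn0 : (0:ℝ) < n := by exact_mod_cast hnpos
  set B : ℝ := F * ((n : ℝ) ^ s * (m : ℝ) ^ (-s)) with hB
  have hB0 : 0 < B := by positivity
  have hεB : ε * (n : ℝ) ^ p ≤ B := by
    have h3 : (n : ℝ) ^ s = (n : ℝ) ^ p * (n : ℝ) ^ (s - p) := by
      rw [← Real.rpow_add hn0]; congr 1; ring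
    have h4 : (m : ℝ) ^ s * (m : ℝ) ^ (-s) = 1 := by
      rw [← Real.rpow_add hm0]; simp
    calc ε * (n : ℝ) ^ p = F * ((n : ℝ) ^ p * (ε * (m : ℝ) ^ s / F) * (m : ℝ) ^ (-s)) := by
          rw [show F * ((n : ℝ) ^ p * (ε * (m : ℝ) ^ s / F) * (m : ℝ) ^ (-s))
            = ε * (n : ℝ) ^ p * ((m : ℝ) ^ s * (m : ℝ) ^ (-s)) by field_simp, h4, mul_one]
      _ ≤ F * ((n : ℝ) ^ p * (n : ℝ) ^ (s - p) * (m : ℝ) ^ (-s)) := by gcongr
      _ = B := by rw [hB, h3]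
  have hmean : ∑ k : Fin n, cc n m p d a ε k ≤ -(κ / 2 * ((m : ℝ) ^ (1 - s) * (n : ℝ) ^ s)) := by
    have h3 := crit_mean hp0 hp1' hd hd1 hs hnpos hmn (by rw [ha, hγ] : a = ast ((1 - p) / p) d)
    rw [← hS, ← hε, ← hCm, ← hκ] at h3
    have h4 : Cm * (n : ℝ) ^ (2 * d * p) ≤ κ / 2 * ((m : ℝ) ^ (1 - s) * (n : ℝ) ^ s) := by
      have h5 : (n : ℝ) ^ s = (n : ℝ) ^ (2 * d * p) * (n : ℝ) ^ p := by
        rw [← Real.rpow_add hn0]; congr 1; rw [hs]; ring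
      have hm1s : 0 < (m : ℝ) ^ (1 - s) := Real.rpow_pos_of_pos hm0 _
      rw [div_le_iff₀ (by positivity)] at h2
      calc Cm * (n : ℝ) ^ (2 * d * p) = (2 * Cm) * (n : ℝ) ^ (2 * d * p) / 2 := by ring
        _ ≤ ((n : ℝ) ^ p * (κ * (m : ℝ) ^ (1 - s))) * (n : ℝ) ^ (2 * d * p) / 2 := by gcongr
        _ = _ := by rw [h5]; ring
    linarith
  have hvar := cc_sq_sum hnpos hp0 hε0.le hs hs2 a (by rw [hF, hS]) hm2 hmn hεB
  rw [← hV] at hvar
  set θ : ℝ := κ₂ / B with hθ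
  have hθ0 : 0 < θ := by positivity
  have hcB : ∀ k : Fin n, |cc n m p d a ε k| ≤ B := by
    intro k
    by_cases hk : m ≤ (k : ℕ)
    · have h3 := cc_abs_le hnpos hp0 hε0.le hs a k.2 hk
      rw [← hS, ← hF, sx_rpow hnpos] at h3
      refine h3.trans ?_
      rw [hB]
      have h4 : (((k : ℕ) : ℝ) + 1) ^ (-s) ≤ (m : ℝ) ^ (-s) := by
        apply Real.rpow_le_rpow_of_nonpos hm0 _ (by linarith)
        have : (m : ℝ) ≤ (k : ℕ) := by exact_mod_cast hk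
        linarith
      gcongr
    · exact (cc_abs_lt hnpos hp0 hε0.le a (not_le.mp hk)).trans hεB
  have hdev := unif_cone_dev mo.haarU mo.unif hnpos (fun k : Fin n => cc n m p d a ε k) hθ0.le (by
    intro k
    calc θ * |cc n m p d a ε k| ≤ θ * B := by gcongr; exact hcB k
      _ = κ₂ := by rw [hθ]; field_simp
      _ ≤ 1 / 2 := hκ₂1)
  have hexp : θ * (∑ k : Fin n, cc n m p d a ε k) + 2 * θ ^ 2 * (∑ k : Fin n, cc n m p d a ε k ^ 2)
      ≤ -(ρ * m) := by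
    have k1 : θ * ((m : ℝ) ^ (1 - s) * (n : ℝ) ^ s) = κ₂ / F * m := by
      rw [hθ, hB]
      have hns : (n : ℝ) ^ s ≠ 0 := by positivity
      have hms : (m : ℝ) ^ (1 - s) = m * (m : ℝ) ^ (-s) := by
        rw [mul_comm, ← Real.rpow_add_one hm0.ne']; congr 1; ring
      have hms' : (m : ℝ) ^ (-s) ≠ 0 := by positivity
      rw [hms]
      field_simp
    have k2 : θ ^ 2 * (F ^ 2 * ((n : ℝ) ^ (2 * s) * (m : ℝ) ^ (1 - 2 * s)) * V) = κ₂ ^ 2 * V * m := by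
      rw [hθ, hB]
      have hns : (n : ℝ) ^ s ≠ 0 := by positivity
      have hms' : (m : ℝ) ^ (-s) ≠ 0 := by positivity
      rw [rpow_two_mul' hn0, rpow_one_sub_two hm0]
      field_simp
    have k3 : θ * (∑ k : Fin n, cc n m p d a ε k) ≤ -(κ / 2 * (κ₂ / F * m)) := by
      calc θ * (∑ k : Fin n, cc n m p d a ε k)
          ≤ θ * (-(κ / 2 * ((m : ℝ) ^ (1 - s) * (n : ℝ) ^ s))) := by gcongr
        _ = -(κ / 2 * (θ * ((m : ℝ) ^ (1 - s) * (n : ℝ) ^ s))) := by ring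
        _ = _ := by rw [k1]
    have k4 : 2 * θ ^ 2 * (∑ k : Fin n, cc n m p d a ε k ^ 2) ≤ 2 * (κ₂ ^ 2 * V * m) := by
      calc 2 * θ ^ 2 * (∑ k : Fin n, cc n m p d a ε k ^ 2)
          ≤ 2 * θ ^ 2 * (F ^ 2 * ((n : ℝ) ^ (2 * s) * (m : ℝ) ^ (1 - 2 * s)) * V) := by gcongr
        _ = 2 * (θ ^ 2 * (F ^ 2 * ((n : ℝ) ^ (2 * s) * (m : ℝ) ^ (1 - 2 * s)) * V)) := by ring
        _ = _ := by rw [k2]
    have k5 : 2 * (κ₂ ^ 2 * V * m) ≤ ρ * m := by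
      have : κ₂ ^ 2 * V ≤ κ₂ * (κ / (8 * F * V)) * V := by
        rw [sq]; gcongr
      have e : κ₂ * (κ / (8 * F * V)) * V = κ₂ * κ / (8 * F) := by field_simp
      rw [e] at this
      have h6 : 2 * (κ₂ ^ 2 * V) ≤ ρ := by
        rw [hρ]
        have : 2 * (κ₂ * κ / (8 * F)) = κ₂ * κ / (4 * F) := by field_simp; ring
        linarith
      calc 2 * (κ₂ ^ 2 * V * m) = (2 * (κ₂ ^ 2 * V)) * m := by ring
        _ ≤ ρ * m := by gcongr
    have k6 : κ / 2 * (κ₂ / F * m) = 2 * (ρ * m) := by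
      rw [hρ]; field_simp; ring
    rw [k6] at k3
    linarith
  have hE : MeasurableSet {w : Fin n → ℂ | 0 < wsq (fun k : Fin n => cc n m p d a ε k) w} :=
    measurableSet_lt measurable_const (measurable_wsq _)
  have hfinal := mo.prob_lt_tcg_le ε (d + m) hE (by
    intro w hw hwE
    have hle : wsq (fun k : Fin n => cc n m p d a ε k) w ≤ 0 := not_lt.mp hwE
    refine ⟨polyOf p n d a * killP p m, ?_, ?_, En_crit hnpos hp0.le d m a w hle⟩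
    · exact natDegree_mul_le.trans (add_le_add (polyOf_natDegree _ _ _ _) (killP_natDegree _ _))
    · rw [eval_mul, polyOf_zero, killP_zero, ha, ast_zero hγd, mul_one])
  refine hfinal.trans (hdev.trans (ENNReal.ofReal_le_ofReal ?_))
  exact (Real.exp_le_exp.mpr hexp).trans hm1

end Pool.Agent.Hhelper29.CG
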