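import Pool.Agent.Hhelper29.CG.CgLtDet

/-!
The CG lower bound for `p < 1`, `ε < ε_c(p)`.
-/

namespace Pool.Agent.Hhelper29.CG

open MeasureTheory Matrix ProbabilityTheory Polynomial Filter
open scoped ENNReal Classical Topology

/-- `⌊(1-p)/(2p)⌋` -/
noncomputable def dfl (p : ℝ) : ℕ := ⌊(1 - p) / (2 * p)⌋₊

lemma dfl_cases {p : ℝ} (hp0 : 0 < p) (hp1 : p < 1) :
    dfl p = dcrit p ∨ (dfl p = dcrit p + 1 ∧ (dfl p : ℝ) = (1 - p) / (2 * p)) := by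
  set x : ℝ := (1 - p) / (2 * p) with hx
  have hx0 : 0 < x := div_pos (by linarith) (by linarith)
  have h1 : (dfl p : ℝ) ≤ x := Nat.floor_le hx0.le
  have h2 : x < dfl p + 1 := Nat.lt_floor_add_one x
  have hd : dcrit p = ⌈x⌉₊ - 1 := rfl
  rcases h1.eq_or_lt with h | h
  · right
    have h3 : ⌈x⌉₊ = dfl p := by rw [← h, Nat.ceil_natCast]
    have h4 : 1 ≤ ⌈x⌉₊ := Nat.one_le_iff_ne_zero.mpr (by
      intro h; exact absurd (Nat.ceil_eq_zero.mp h) (not_le.mpr hx0))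
    refine ⟨?_, h⟩
    rw [hd]; omega
  · left
    have h3 : ⌈x⌉₊ = dfl p + 1 := by
      rw [Nat.ceil_eq_iff (Nat.succ_ne_zero _)]
      constructor
      · simpa using h
      · push_cast; exact h2.le
    rw [hd, h3]; rfl

lemma Vst_dfl {p : ℝ} (hp0 : 0 < p) (hp1 : p < 1) :
    Vst ((1 - p) / p) (dfl p) / p = epsc p / (1 - p) := by
  rcases dfl_cases hp0 hp1 with h | ⟨h, h'⟩
  · rw [h]; exact Vst_epsc hp0 hp1
  · rw [← Vst_epsc hp0 hp1, h]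
    unfold Vst
    rw [Finset.prod_range_succ, ← mul_assoc]
    have h1 : (1 - p) / p = 2 * ((dcrit p : ℝ) + 1) := by
      rw [h] at h'
      push_cast at h'
      rw [h']; field_simp
    have h2 : ((dcrit p : ℝ) + 1) / ((1 - p) / p - ((dcrit p : ℝ) + 1)) = 1 := by
      rw [h1]
      have : (0:ℝ) < (dcrit p : ℝ) + 1 := by positivity
      have h3 : 2 * ((dcrit p : ℝ) + 1) - ((dcrit p : ℝ) + 1) = (dcrit p : ℝ) + 1 := by ring
      rw [h3, div_self this.ne']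
    rw [h2, one_pow, mul_one]

lemma two_p_dfl {p : ℝ} (hp0 : 0 < p) (hp1 : p < 1) : 2 * p * (dfl p : ℝ) ≤ 1 - p := by
  have hx0 : 0 ≤ (1 - p) / (2 * p) := (div_pos (by linarith) (by linarith)).le
  have h1 : (dfl p : ℝ) ≤ (1 - p) / (2 * p) := Nat.floor_le hx0
  rw [le_div_iff₀ (by positivity)] at h1
  linarith

lemma exists_zeta {p ε : ℝ} (hp0 : 0 < p) (hp1 : p < 1) (hε : ε < epsc p) :
    ∃ ζ, 0 < ζ ∧ ζ ≤ p ∧ ε / (1 - p) < Vst ((1 - p + ζ) / p) (dfl p) / p := by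
  have h1p : 0 < 1 - p := by linarith
  have hfl := two_p_dfl hp0 hp1
  have hcont : ContinuousAt (fun ζ : ℝ => Vst ((1 - p + ζ) / p) (dfl p) / p) 0 := by
    unfold Vst
    have hγ : ContinuousAt (fun ζ : ℝ => (1 - p + ζ) / p) 0 := by fun_prop
    have h0 : (1 - p + 0) / p ≠ 0 := by rw [add_zero]; positivity
    apply ContinuousAt.div_const
    apply ContinuousAt.mul
    · exact continuousAt_const.div hγ h0
    · have hfac : ∀ i ∈ Finset.range (dfl p),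
          ContinuousAt (fun ζ : ℝ => (((i : ℝ) + 1) / ((1 - p + ζ) / p - ((i : ℝ) + 1))) ^ 2) 0 := by
        intro i hi
        have hi' : (i : ℝ) + 1 ≤ dfl p := by exact_mod_cast Finset.mem_range.mp hi
        apply ContinuousAt.pow
        apply continuousAt_const.div (hγ.sub continuousAt_const)
        show (1 - p + 0) / p - ((i : ℝ) + 1) ≠ 0
        rw [add_zero]
        have h2 : (i : ℝ) + 1 < (1 - p) / p := by
          rw [lt_div_iff₀ hp0]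
          have h3 : (0:ℝ) ≤ i := Nat.cast_nonneg i
          nlinarith
        linarith
      exact tendsto_finsetProd _ hfac
  have hval : (fun ζ : ℝ => Vst ((1 - p + ζ) / p) (dfl p) / p) 0 = epsc p / (1 - p) := by
    beta_reduce; rw [add_zero]; exact Vst_dfl hp0 hp1
  have hlt : ε / (1 - p) < epsc p / (1 - p) := by gcongr
  have hev : ∀ᶠ ζ : ℝ in 𝓝 0, ε / (1 - p) < Vst ((1 - p + ζ) / p) (dfl p) / p := by
    have h3 : Tendsto (fun ζ : ℝ => Vst ((1 - p + ζ) / p) (dfl p) / p) (𝓝 0) (𝓝 (epsc p / (1 - p))) := by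
      rw [← hval]; exact hcont
    exact h3.eventually_const_lt hlt
  have hev2 : ∀ᶠ ζ : ℝ in 𝓝[>] 0, ε / (1 - p) < Vst ((1 - p + ζ) / p) (dfl p) / p :=
    hev.filter_mono nhdsWithin_le_nhds
  have hev3 : ∀ᶠ ζ : ℝ in 𝓝[>] 0, ζ ∈ Set.Ioc (0:ℝ) p := Ioc_mem_nhdsGT hp0
  obtain ⟨ζ, h1, h2⟩ := (hev2.and hev3).exists
  exact ⟨ζ, h2.1, h2.2, h1⟩

/-- the gap exponent -/
noncomputable def rhoE (p : ℝ) : ℝ := (dfl p : ℝ) + 1 - (1 - p) / (2 * p)

lemma rhoE_pos (p : ℝ) : 0 < rhoE p := by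
  have := Nat.lt_floor_add_one ((1 - p) / (2 * p))
  unfold rhoE dfl; linarith

/-- the power of the logarithm -/
noncomputable def bexp (p : ℝ) : ℕ := ⌈1 / rhoE p⌉₊ + 1

lemma bexp_spec (p : ℝ) : 2 ≤ (2 * (bexp p : ℝ) - 1) * rhoE p := by
  have h0 := rhoE_pos p
  have h1 : 1 / rhoE p ≤ ⌈1 / rhoE p⌉₊ := Nat.le_ceil _
  unfold bexp
  push_cast
  have h2 : 1 ≤ (⌈1 / rhoE p⌉₊ : ℝ) * rhoE p := by
    rw [div_le_iff₀ h0] at h1; exact h1
  nlinarith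

/-- the size of `G = t² (κ+1)^p / n^p` -/
lemma G_bound {p : ℝ} (hp0 : 0 < p) (hp1 : p ≤ 1) {n t ℓ B : ℕ} {L s : ℝ} (hn : 0 < n)
    (hL : 1 ≤ L) (hs : s = (n : ℝ) ^ (p / (p + 2)) / L ^ B) (ht : 1 ≤ t) (hts : (t : ℝ) ≤ s)
    (hℓ1 : 1 ≤ ℓ) (hℓ : (ℓ : ℝ) ≤ 3 * L) :
    (t : ℝ) ^ 2 * (((48 * (cD p * t) * ℓ : ℕ) : ℝ) + 1) ^ p / (n : ℝ) ^ p ≤
      147 * cD p * L ^ (1 - 2 * (B : ℝ)) := by
  have hn0 : (0:ℝ) < n := by exact_mod_cast hn
  have ht1 : (1:ℝ) ≤ t := by exact_mod_cast ht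
  have hcd1 : (1:ℝ) ≤ cD p := by exact_mod_cast one_le_cD p
  have hℓ1' : (1:ℝ) ≤ ℓ := by exact_mod_cast hℓ1
  have hnp : 0 < (n : ℝ) ^ p := Real.rpow_pos_of_pos hn0 p
  have hL0 : 0 < L := by linarith
  have h1 : (((48 * (cD p * t) * ℓ : ℕ) : ℝ) + 1) ≤ t * (147 * cD p * L) := by
    push_cast
    have : (1:ℝ) ≤ cD p * t * ℓ :=
      one_le_mul_of_one_le_of_one_le (one_le_mul_of_one_le_of_one_le hcd1 ht1) hℓ1'
    calc 48 * (cD p * t) * (ℓ : ℝ) + 1 ≤ 49 * (cD p * t * ℓ) := by linarith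
      _ ≤ 49 * (cD p * t * (3 * L)) := by gcongr
      _ = _ := by ring
  have h2 : (1:ℝ) ≤ 147 * cD p * L := by nlinarith
  have h3 : (((48 * (cD p * t) * ℓ : ℕ) : ℝ) + 1) ^ p ≤ (t : ℝ) ^ p * (147 * cD p * L) := by
    calc (((48 * (cD p * t) * ℓ : ℕ) : ℝ) + 1) ^ p ≤ ((t : ℝ) * (147 * cD p * L)) ^ p :=
          Real.rpow_le_rpow (by positivity) h1 hp0.le
      _ = (t : ℝ) ^ p * (147 * cD p * L) ^ p := Real.mul_rpow (by positivity) (by positivity)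
      _ ≤ (t : ℝ) ^ p * (147 * cD p * L) ^ (1:ℝ) := by
          gcongr
      _ = _ := by rw [Real.rpow_one]
  have hs0 : 0 ≤ s := by linarith
  have h4 : (t : ℝ) ^ 2 * (t : ℝ) ^ p ≤ (n : ℝ) ^ p * L ^ (-(2 * (B : ℝ))) := by
    have e1 : (t : ℝ) ^ 2 * (t : ℝ) ^ p = (t : ℝ) ^ (p + 2) := by
      rw [Real.rpow_add (by linarith), mul_comm]; norm_cast
    rw [e1]
    have e2 : ((n : ℝ) ^ (p / (p + 2))) ^ (p + 2) = (n : ℝ) ^ p := by
      rw [← Real.rpow_mul hn0.le]; congr 1; field_simp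
    calc (t : ℝ) ^ (p + 2) ≤ s ^ (p + 2) := Real.rpow_le_rpow (by positivity) hts (by linarith)
      _ = (n : ℝ) ^ p * L ^ (-((B : ℝ) * (p + 2))) := by
          rw [hs, Real.div_rpow (by positivity) (by positivity), e2, Real.rpow_neg hL0.le,
            ← Real.rpow_natCast, ← Real.rpow_mul hL0.le, div_eq_mul_inv]
      _ ≤ (n : ℝ) ^ p * L ^ (-(2 * (B : ℝ))) := by
          apply mul_le_mul_of_nonneg_left _ hnp.le
          apply Real.rpow_le_rpow_of_exponent_le hL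
          have : (0:ℝ) ≤ B := Nat.cast_nonneg B
          nlinarith
  rw [div_le_iff₀ hnp]
  calc (t : ℝ) ^ 2 * (((48 * (cD p * t) * ℓ : ℕ) : ℝ) + 1) ^ p
      ≤ (t : ℝ) ^ 2 * ((t : ℝ) ^ p * (147 * cD p * L)) := by gcongr
    _ = ((t : ℝ) ^ 2 * (t : ℝ) ^ p) * (147 * cD p * L) := by ring
    _ ≤ ((n : ℝ) ^ p * L ^ (-(2 * (B : ℝ)))) * (147 * cD p * L) := by gcongr
    _ = 147 * cD p * (L ^ (-(2 * (B : ℝ))) * L) * (n : ℝ) ^ p := by ring
    _ = _ := by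
        rw [← Real.rpow_add_one hL0.ne']
        congr 3; ring

/-- the size of `M²` -/
lemma M_identity {p : ℝ} (hp0 : 0 < p) {n t κ : ℕ} {c ℓ C₁ G : ℝ} (hn : 0 < n) (ht : 1 ≤ t)
    (hG : G = (t : ℝ) ^ 2 * ((κ : ℝ) + 1) ^ p / (n : ℝ) ^ p) :
    c * (ℓ * ((n : ℝ) ^ (-p) * C₁) / (c0 / n)) * (2 * lam p κ / (t : ℝ) ^ 2) ^ (1 / p - 1)
      = c * ℓ * C₁ / c0 * ((2 / G) ^ ((1 - p) / (2 * p))) ^ 2 := by
  have hn0 : (0:ℝ) < n := by exact_mod_cast hn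
  have ht0 : (0:ℝ) < t := by exact_mod_cast ht
  have hc0 := c0_pos
  have hnp : 0 < (n : ℝ) ^ p := Real.rpow_pos_of_pos hn0 p
  have hκ : 0 < ((κ : ℝ) + 1) ^ p := Real.rpow_pos_of_pos (by positivity) p
  have hG0 : 0 < G := by rw [hG]; positivity
  have e1 : 2 * lam p κ / (t : ℝ) ^ 2 = (2 / G) * (n : ℝ) ^ (-p) := by
    unfold lam
    rw [hG, Real.rpow_neg hn0.le, Real.rpow_neg (by positivity)]
    field_simp
  have e2 : ((2 / G) ^ ((1 - p) / (2 * p))) ^ 2 = (2 / G) ^ (1 / p - 1) := by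
    rw [← Real.rpow_natCast, ← Real.rpow_mul (by positivity)]
    congr 1; push_cast; field_simp
  have e3 : ((n : ℝ) ^ (-p)) ^ (1 / p - 1) = (n : ℝ) ^ p / n := by
    rw [← Real.rpow_mul hn0.le, ← Real.rpow_sub_one hn0.ne']
    congr 1; field_simp; ring
  rw [e1, Real.mul_rpow (by positivity) (by positivity), e2, e3, Real.rpow_neg hn0.le]
  field_simp

lemma cond_of_G {p cd t κ n G : ℝ} (hp0 : 0 < p) (hp1 : p ≤ 1) (hκ : 0 ≤ κ) (hn : 0 < n)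
    (hG : G = t ^ 2 * (κ + 1) ^ p / n ^ p) (hG1 : 288 * cd ^ 2 * G ≤ 1) :
    2 * (144 * (cd * t) ^ 2 * (κ + 1) ^ p) ^ (1 / p) ≤ n := by
  have hnp : 0 < n ^ p := Real.rpow_pos_of_pos hn p
  have hκp : 0 < (κ + 1) ^ p := Real.rpow_pos_of_pos (by linarith) p
  have hG0 : 0 ≤ G := by rw [hG]; positivity
  have h3 : 144 * (cd * t) ^ 2 * (κ + 1) ^ p ≤ (n / 2) ^ p := by
    have h4 : 144 * (cd * t) ^ 2 * (κ + 1) ^ p = 144 * cd ^ 2 * G * n ^ p := by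
      rw [hG]; field_simp
    rw [h4, Real.div_rpow hn.le (by norm_num)]
    have h5 : (2:ℝ) ^ p ≤ 2 := by
      calc (2:ℝ) ^ p ≤ 2 ^ (1:ℝ) := Real.rpow_le_rpow_of_exponent_le (by norm_num) hp1
        _ = 2 := Real.rpow_one 2
    rw [le_div_iff₀ (by positivity)]
    calc 144 * cd ^ 2 * G * n ^ p * 2 ^ p ≤ 144 * cd ^ 2 * G * n ^ p * 2 := by gcongr
      _ = 288 * cd ^ 2 * G * n ^ p := by ring
      _ ≤ 1 * n ^ p := by gcongr
      _ = _ := one_mul _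
  have h4 : (144 * (cd * t) ^ 2 * (κ + 1) ^ p) ^ (1 / p) ≤ n / 2 := by
    calc (144 * (cd * t) ^ 2 * (κ + 1) ^ p) ^ (1 / p) ≤ ((n / 2) ^ p) ^ (1 / p) :=
          Real.rpow_le_rpow (by positivity) h3 (by positivity)
      _ = n / 2 := by
          rw [← Real.rpow_mul (by positivity)]
          have : p * (1 / p) = 1 := by field_simp
          rw [this, Real.rpow_one]
  linarith

lemma small_numeric {c ℓ L G g w xα ρ ι B : ℝ} {D : ℕ} (hc : 0 ≤ c) (hℓ1 : 1 ≤ ℓ)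
    (hℓ : ℓ ≤ 3 * L) (hL : 1 ≤ L) (hG0 : 0 < G) (hg : 0 < g) (hw : 0 ≤ w)
    (hG : G ≤ g * L ^ (1 - 2 * B)) (hρ : 0 < ρ) (hρα : (D : ℝ) + 1 = ρ + xα)
    (hBρ : 2 ≤ (2 * B - 1) * ρ) (hι : 0 < ι)
    (hbig : (2 * (Real.sqrt c * 2 ^ xα) * w ^ (D + 1)) * 3 * g ^ ρ / ι ≤ L) :
    2 * (Real.sqrt (c * ℓ) * (2 / G) ^ xα) * (w * G) ^ (D + 1) ≤ ι := by
  have hL0 : 0 < L := by linarith
  have h3 : Real.sqrt (c * ℓ) ≤ Real.sqrt c * (3 * L) := by
    rw [Real.sqrt_mul hc]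
    have : Real.sqrt ℓ ≤ 3 * L := by
      refine le_trans ?_ hℓ
      apply Real.sqrt_le_iff.mpr
      constructor
      · linarith
      · nlinarith
    gcongr
  have h4 : (2 / G) ^ xα = 2 ^ xα * G ^ (-xα) := by
    rw [Real.div_rpow (by norm_num) hG0.le, Real.rpow_neg hG0.le, div_eq_mul_inv]
  have h5 : (w * G) ^ (D + 1) = w ^ (D + 1) * (G ^ ρ * G ^ xα) := by
    rw [mul_pow]
    congr 1
    rw [← Real.rpow_add hG0, ← hρα, ← Real.rpow_natCast]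
    push_cast; rfl
  have h6 : G ^ (-xα) * G ^ xα = 1 := by rw [← Real.rpow_add hG0]; simp
  have h7 : G ^ ρ ≤ g ^ ρ * L ^ (-2 : ℝ) := by
    calc G ^ ρ ≤ (g * L ^ (1 - 2 * B)) ^ ρ := Real.rpow_le_rpow hG0.le hG hρ.le
      _ = g ^ ρ * L ^ ((1 - 2 * B) * ρ) := by
          rw [Real.mul_rpow hg.le (by positivity), ← Real.rpow_mul hL0.le]
      _ ≤ _ := by
          apply mul_le_mul_of_nonneg_left _ (by positivity)
          apply Real.rpow_le_rpow_of_exponent_le hL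
          linarith
  have hGx : 0 < G ^ xα := Real.rpow_pos_of_pos hG0 _
  have hGx' : 0 < G ^ (-xα) := Real.rpow_pos_of_pos hG0 _
  have hGρ : 0 < G ^ ρ := Real.rpow_pos_of_pos hG0 _
  have h8 : L * L ^ (-2 : ℝ) = L⁻¹ := by
    have e1 : L ^ (-2 : ℝ) = (L ^ (2:ℕ))⁻¹ := by
      rw [Real.rpow_neg hL0.le]; norm_cast
    rw [e1]; field_simp
  calc 2 * (Real.sqrt (c * ℓ) * (2 / G) ^ xα) * (w * G) ^ (D + 1)
      = 2 * (Real.sqrt (c * ℓ) * 2 ^ xα) * w ^ (D + 1) * G ^ ρ * (G ^ (-xα) * G ^ xα) := by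
        rw [h4, h5]; ring
    _ = 2 * (Real.sqrt (c * ℓ) * 2 ^ xα) * w ^ (D + 1) * G ^ ρ := by rw [h6, mul_one]
    _ ≤ 2 * ((Real.sqrt c * (3 * L)) * 2 ^ xα) * w ^ (D + 1) * (g ^ ρ * L ^ (-2 : ℝ)) := by
        gcongr
    _ = ((2 * (Real.sqrt c * 2 ^ xα) * w ^ (D + 1)) * 3 * g ^ ρ) * (L * L ^ (-2 : ℝ)) := by ring
    _ = ((2 * (Real.sqrt c * 2 ^ xα) * w ^ (D + 1)) * 3 * g ^ ρ) / L := by rw [h8]; rfl
    _ ≤ ι := by
        rw [div_le_iff₀ hL0]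
        rw [div_le_iff₀ hι] at hbig
        linarith

theorem cg_lt_lower {p : ℝ} (hp0 : 0 < p) (hp1 : p < 1) {ε : ℝ} (hε0 : 0 < ε) (hε : ε < epsc p)
    {η : ℝ} (hη : 0 < η) :
    ∃ n₀ : ℕ, ∀ n ≥ n₀, ∀ {Ω : Type*} [MeasurableSpace Ω] (P : Measure Ω) (m : Model n p P),
      P {ω | (m.Tcg ε ω : ℝ≥0∞) <
        ENNReal.ofReal ((n : ℝ) ^ (p / (p + 2)) / (Real.log n) ^ (bexp p))} ≤ ENNReal.ofReal η := by
  have h1p : 0 < 1 - p := by linarith
  set D : ℕ := dfl p with hD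
  set B : ℕ := bexp p with hB
  set ρ : ℝ := rhoE p with hρ
  have hρ0 : 0 < ρ := rhoE_pos p
  have hBρ : 2 ≤ (2 * (B : ℝ) - 1) * ρ := bexp_spec p
  set xα : ℝ := (1 - p) / (2 * p) with hxα
  have hxα0 : 0 < xα := div_pos h1p (by positivity)
  have hρα : (D : ℝ) + 1 = ρ + xα := by rw [hρ]; unfold rhoE; rw [← hD]; ring
  obtain ⟨ζ, hζ0, hζp, hζV⟩ := exists_zeta hp0 hp1 hε
  rw [← hD] at hζV
  set γ : ℝ := (1 - p + ζ) / p with hγ
  have hpγ : p * γ = 1 - p + ζ := by rw [hγ]; field_simp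
  have h2D := two_p_dfl hp0 hp1
  rw [← hD] at h2D
  have hγD : 2 * (D : ℝ) < γ := by rw [hγ, lt_div_iff₀ hp0]; linarith
  obtain ⟨κ₀, hκ₀, hpos⟩ := Qf_pos D γ hγD
  set V : ℝ := Vst γ D / p with hV
  have hV0 : 0 < V := div_pos (Vst_pos hγD) hp0
  set C₂ : ℝ := 1 / (1 - p + ζ) + 1 with hC₂
  have hC₂0 : 0 < C₂ := by positivity
  set H : ℝ := 1 + 2 * p * (D + 1) / κ₀ with hH
  have hH1 : 1 ≤ H := by
    rw [hH]
    have : 0 ≤ 2 * p * (D + 1) / κ₀ := by positivity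
    linarith
  set Δ : ℝ := V - ε / (1 - p) with hΔ
  have hΔ0 : 0 < Δ := by rw [hΔ]; linarith
  set ι : ℝ := min (1 / H) (Δ / (2 * (H * V + C₂ + ε))) with hι
  have hHV : 0 < H * V + C₂ + ε := by positivity
  have hι0 : 0 < ι := lt_min (by positivity) (by positivity)
  have hιH : ι * H ≤ 1 := by
    have : ι ≤ 1 / H := min_le_left _ _
    rwa [le_div_iff₀ (by linarith)] at this
  have hι1 : ι ≤ 1 := by nlinarith
  have hιΔ : ι * (H * V + C₂ + ε) < Δ := by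
    have h1 : ι ≤ Δ / (2 * (H * V + C₂ + ε)) := min_le_right _ _
    rw [le_div_iff₀ (by positivity)] at h1
    linarith
  have hfac : 1 - ι - 2 * ι * p * (D + 1) / κ₀ = 1 - ι * H := by rw [hH]; ring
  -- exponents
  set β : ℕ → ℝ := fun r => p * (r + 1) - ζ with hβ
  have hβ01 : ∀ r < 2 * D + 1, 0 ≤ β r ∧ β r < 1 := by
    intro r hr
    have hr' : (r : ℝ) ≤ 2 * D := by
      have : r ≤ 2 * D := by omega
      exact_mod_cast this
    have hr0 : (0:ℝ) ≤ r := Nat.cast_nonneg r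
    simp only [hβ]
    constructor <;> nlinarith
  obtain ⟨hβ1, hβ2⟩ := hβ01 (2 * D) (by omega)
  set βm : ℝ := β (2 * D) with hβm
  have h1β : 0 < 1 - βm := by linarith
  set δ₁ : ℝ := min 1 ((ι * (1 - βm) / 2) ^ (1 / (1 - βm))) with hδ₁
  have hδ₁0 : 0 < δ₁ := lt_min one_pos (Real.rpow_pos_of_pos (by positivity) _)
  have hδ₁1 : δ₁ ≤ 1 := min_le_left _ _
  have hδι : δ₁ ^ (1 - βm) / (1 - βm) ≤ ι / 2 := by
    rw [div_le_iff₀ h1β]
    calc δ₁ ^ (1 - βm) ≤ ((ι * (1 - βm) / 2) ^ (1 / (1 - βm))) ^ (1 - βm) :=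
          Real.rpow_le_rpow hδ₁0.le (min_le_right _ _) h1β.le
      _ = ι * (1 - βm) / 2 := by
          rw [← Real.rpow_mul (by positivity)]
          have : 1 / (1 - βm) * (1 - βm) = 1 := by field_simp
          rw [this, Real.rpow_one]
      _ = ι / 2 * (1 - βm) := by ring
  obtain ⟨n₁, hn₁⟩ := mom_family (β := β) (R := 2 * D + 1) hβ01 hι0 (show 0 < η / 4 by positivity)
  obtain ⟨n₂, hn₂⟩ := mom_family (β := fun _ => p) (R := 1) (fun r _ => ⟨hp0.le, hp1⟩) hι0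
    (show 0 < η / 4 by positivity)
  obtain ⟨n₃, hn₃⟩ := momK_upper hβ1 hβ2 hι0 (show 0 < η / 4 by positivity) hδι
  -- asymptotic conditions
  set cd : ℝ := (cD p : ℝ) with hcd
  have hcd1 : 1 ≤ cd := by rw [hcd]; exact_mod_cast one_le_cD p
  have hc0 := c0_pos
  set C₁ : ℝ := ε * (1 / (1 - p) + 1) with hC₁
  have hC₁0 : 0 < C₁ := by positivity
  set C₃ : ℝ := 2 * (Real.sqrt (272 * cd * C₁ / c0) * 2 ^ xα) * (2 * cd ^ 2 / δ₁ ^ p) ^ (D + 1) with hC₃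
  have hδp : 0 < δ₁ ^ p := Real.rpow_pos_of_pos hδ₁0 p
  have hC₃0 : 0 ≤ C₃ := by positivity
  have hlogt : Tendsto (fun n : ℕ => Real.log (n : ℝ)) atTop atTop :=
    Real.tendsto_log_atTop.comp tendsto_natCast_atTop_atTop
  have hexp0 : 0 < p / (p + 2) := by positivity
  have e1 : ∀ᶠ n : ℕ in atTop, 2 * (Real.log n) ^ (B + 1) ≤ (n : ℝ) ^ (p / (p + 2)) :=
    polylog_le 2 (B + 1) hexp0
  have e2 : ∀ᶠ n : ℕ in atTop, max (max 1 (16 / η)) (max (147 * cd * (288 * cd ^ 2 + 4 * cd ^ 2 / δ₁ ^ p))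
      (C₃ * 3 * (147 * cd) ^ ρ / ι)) ≤ Real.log (n : ℝ) := hlogt.eventually_ge_atTop _
  obtain ⟨n₄, hn₄⟩ := eventually_atTop.mp (e1.and e2)
  refine ⟨max (max n₁ n₂) (max n₃ n₄), fun n hn Ω _ P mo => ?_⟩
  have hnn₁ : n ≥ n₁ := (le_max_left _ _).trans ((le_max_left _ _).trans hn)
  have hnn₂ : n ≥ n₂ := (le_max_right _ _).trans ((le_max_left _ _).trans hn)
  have hnn₃ : n ≥ n₃ := (le_max_left _ _).trans ((le_max_right _ _).trans hn)
  have hnn₄ : n ≥ n₄ := (le_max_right _ _).trans ((le_max_right _ _).trans hn)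
  obtain ⟨h1, h2⟩ := hn₄ n hnn₄
  have hnpos := mo.n_pos
  have hn1 : (1:ℝ) ≤ n := by exact_mod_cast hnpos
  have hn0 : (0:ℝ) < n := by linarith
  set L : ℝ := Real.log n with hL
  have hL1 : 1 ≤ L := (le_max_left _ _).trans ((le_max_left _ _).trans h2)
  have hL2 : 16 / η ≤ L := (le_max_right _ _).trans ((le_max_left _ _).trans h2)
  have hL3 : 147 * cd * (288 * cd ^ 2 + 4 * cd ^ 2 / δ₁ ^ p) ≤ L :=
    (le_max_left _ _).trans ((le_max_right _ _).trans h2)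
  have hL4 : C₃ * 3 * (147 * cd) ^ ρ / ι ≤ L := (le_max_right _ _).trans ((le_max_right _ _).trans h2)
  have hL0 : 0 < L := by linarith
  set s : ℝ := (n : ℝ) ^ (p / (p + 2)) / L ^ B with hs
  set t : ℕ := ⌊s⌋₊ with ht
  have hLB : 1 ≤ L ^ B := one_le_pow₀ hL1
  have hs2 : 2 * L ≤ s := by
    rw [hs, le_div_iff₀ (by positivity)]
    calc 2 * L * L ^ B = 2 * L ^ (B + 1) := by ring
      _ ≤ _ := h1
  have hts : (t : ℝ) ≤ s := Nat.floor_le (by linarith)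
  have hts' : s - 1 < t := Nat.sub_one_lt_floor s
  have htL : L ≤ t := by linarith
  have ht1 : 1 ≤ t := by
    have : (0:ℝ) < t := by linarith
    exact_mod_cast this
  have htn : t ≤ n := by
    have h6 : s ≤ n := by
      calc s ≤ (n : ℝ) ^ (p / (p + 2)) := div_le_self (by positivity) hLB
        _ ≤ (n : ℝ) ^ (1:ℝ) := by
            apply Real.rpow_le_rpow_of_exponent_le hn1
            rw [div_le_one (by positivity)]; linarith
        _ = n := Real.rpow_one _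
    exact_mod_cast hts.trans h6
  set ℓ : ℕ := ⌈2 * L⌉₊ with hℓ
  have hℓ1 : 2 * L ≤ ℓ := Nat.le_ceil _
  have hℓ2 : (ℓ : ℝ) < 2 * L + 1 := Nat.ceil_lt_add_one (by linarith)
  have hℓ3 : (ℓ : ℝ) ≤ 3 * L := by linarith
  have hℓpos : 1 ≤ ℓ := by
    have : (0:ℝ) < ℓ := by linarith
    exact_mod_cast this
  have hℓpos' : (1:ℝ) ≤ ℓ := by exact_mod_cast hℓpos
  set κ : ℕ := 48 * (cD p * t) * ℓ with hκ
  set G : ℝ := (t : ℝ) ^ 2 * ((κ : ℝ) + 1) ^ p / (n : ℝ) ^ p with hG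
  have hnp : 0 < (n : ℝ) ^ p := Real.rpow_pos_of_pos hn0 p
  have ht0 : (0:ℝ) < t := by linarith
  have hκp : 0 < ((κ : ℝ) + 1) ^ p := Real.rpow_pos_of_pos (by positivity) p
  have hG0 : 0 < G := by positivity
  have hGle : G ≤ 147 * cd * L ^ (1 - 2 * (B : ℝ)) :=
    G_bound hp0 hp1.le hnpos hL1 hs ht1 hts hℓpos hℓ3
  have hB1 : (1:ℝ) ≤ B := by rw [hB]; unfold bexp; push_cast; have := Nat.cast_nonneg (α := ℝ) ⌈1 / rhoE p⌉₊; linarith
  have hGL : G * L ≤ 147 * cd := by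
    have h3 : L ^ (1 - 2 * (B : ℝ)) ≤ L ^ (-1 : ℝ) :=
      Real.rpow_le_rpow_of_exponent_le hL1 (by linarith)
    calc G * L ≤ (147 * cd * L ^ (1 - 2 * (B : ℝ))) * L := by gcongr
      _ ≤ (147 * cd * L ^ (-1 : ℝ)) * L := by gcongr
      _ = 147 * cd := by rw [Real.rpow_neg_one]; field_simp
  have hGsmall : G * (288 * cd ^ 2 + 4 * cd ^ 2 / δ₁ ^ p) ≤ 1 := by
    have h3 : 0 < 288 * cd ^ 2 + 4 * cd ^ 2 / δ₁ ^ p := by positivity
    have h4 : 147 * cd * (288 * cd ^ 2 + 4 * cd ^ 2 / δ₁ ^ p) ≤ 1 * L := by linarith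
    have h5 : G * (288 * cd ^ 2 + 4 * cd ^ 2 / δ₁ ^ p) * L ≤ 1 * L := by
      calc G * (288 * cd ^ 2 + 4 * cd ^ 2 / δ₁ ^ p) * L
          = (G * L) * (288 * cd ^ 2 + 4 * cd ^ 2 / δ₁ ^ p) := by ring
        _ ≤ 147 * cd * (288 * cd ^ 2 + 4 * cd ^ 2 / δ₁ ^ p) := by gcongr
        _ ≤ 1 * L := h4
    exact le_of_mul_le_mul_right h5 hL0
  have hcd0 : 0 < cd := by linarith
  have hDt : ((cD p * t : ℕ) : ℝ) = cd * t := by push_cast; rfl
  have hcond : 2 * (144 * ((cD p * t : ℕ) : ℝ) ^ 2 * ((κ : ℝ) + 1) ^ p) ^ (1 / p) ≤ n := by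
    rw [hDt]
    refine cond_of_G hp0 hp1.le (Nat.cast_nonneg κ) hn0 hG ?_
    have : 0 ≤ G * (4 * cd ^ 2 / δ₁ ^ p) := by positivity
    have h3 : G * (288 * cd ^ 2 + 4 * cd ^ 2 / δ₁ ^ p) = 288 * cd ^ 2 * G + G * (4 * cd ^ 2 / δ₁ ^ p) := by
      ring
    rw [h3] at hGsmall
    linarith
  set x₁ : ℝ := δ₁ * n with hx₁
  have hx₁0 : 0 < x₁ := by positivity
  have hWeq : 2 * ((cD p * t : ℕ) : ℝ) ^ 2 * ((κ : ℝ) + 1) ^ p / x₁ ^ p = 2 * cd ^ 2 / δ₁ ^ p * G := by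
    rw [hDt, hx₁, Real.mul_rpow hδ₁0.le hn0.le, hG]; field_simp
  have hx1 : 2 * ((cD p * t : ℕ) : ℝ) ^ 2 * ((κ : ℝ) + 1) ^ p / x₁ ^ p ≤ 1 / 2 := by
    rw [hWeq]
    have : 0 ≤ G * (288 * cd ^ 2) := by positivity
    have h3 : 2 * cd ^ 2 / δ₁ ^ p * G = (G * (4 * cd ^ 2 / δ₁ ^ p)) / 2 := by ring
    rw [h3]; nlinarith
  set M₀ : ℝ := Real.sqrt (272 * cd * ℓ * C₁ / c0) with hM₀
  have hM₀0 : 0 < M₀ := Real.sqrt_pos.mpr (by positivity)
  set Mq : ℝ := M₀ * (2 / G) ^ xα with hMq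
  have hMq0 : 0 < Mq := mul_pos hM₀0 (Real.rpow_pos_of_pos (by positivity) _)
  set E : ℝ := (n : ℝ) ^ (-p) * C₁ with hE
  have hM : 272 * cD p * (ℓ * E / (c0 / n)) * (2 * lam p κ / (t : ℝ) ^ 2) ^ (1 / p - 1) ≤ Mq ^ 2 := by
    rw [hE, M_identity hp0 hnpos ht1 hG, hMq, mul_pow, hM₀, Real.sq_sqrt (by positivity)]
  have hx2 : 2 * Mq * (2 * ((cD p * t : ℕ) : ℝ) ^ 2 * ((κ : ℝ) + 1) ^ p / x₁ ^ p) ^ (D + 1) ≤ ι := by
    rw [hWeq, hMq, hM₀]
    have e3 : 272 * cd * ℓ * C₁ / c0 = (272 * cd * C₁ / c0) * ℓ := by ring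
    rw [e3]
    exact small_numeric (by positivity) hℓpos' hℓ3 hL1 hG0 (by positivity) (by positivity) hGle hρ0
      hρα hBρ hι0 hL4
  set K : ℕ := ⌊x₁⌋₊ with hK
  have hKle : (K : ℝ) ≤ δ₁ * n := Nat.floor_le hx₁0.le
  have hKn : K ≤ n := by
    have : (K : ℝ) ≤ n := hKle.trans (mul_le_of_le_one_left hn0.le hδ₁1)
    exact_mod_cast this
  -- the bad event
  set E1 : Set (Fin n → ℂ) := anyBad n ℓ with hE1
  set E2 : Set (Fin n → ℂ) := momBad n β (2 * D + 1) ι with hE2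
  set E3 : Set (Fin n → ℂ) := momBad n (fun _ => p) 1 ι with hE3
  set E4 : Set (Fin n → ℂ) := {w | ι * nsq w < momK n βm K w} with hE4
  have hm1 : MeasurableSet E1 := measurableSet_anyBad n ℓ
  have hm2 : MeasurableSet E2 := measurableSet_momBad _ _ _ _
  have hm3 : MeasurableSet E3 := measurableSet_momBad _ _ _ _
  have hm4 : MeasurableSet E4 := measurableSet_lt (measurable_nsq.const_mul _) (measurable_momK _ _ _)
  have hP := mo.prob_tcg_le_le ε t ((hm1.union hm2).union (hm3.union hm4)) (by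
    intro w hw hwE q hq hq0
    simp only [Set.mem_union, not_or] at hwE
    obtain ⟨⟨hw1, hw2⟩, hw3, hw4⟩ := hwE
    by_contra hcon
    rw [not_lt] at hcon
    have hgood := good_of_notMem hℓpos hw1
    have hmb : ∀ r < 2 * D + 1, |mom n (p * (r + 1) - ζ) w - 1 / (1 - (p * (r + 1) - ζ))| ≤ ι :=
      fun r hr => mom_of_notMem hw hw2 hr
    have hm0 := mom_of_notMem hw hw3 (show 0 < 1 by norm_num)
    beta_reduce at hm0
    have hm0' := (abs_le.mp hm0).2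
    have hmK : momK n (p * ((2 * D : ℕ) + 1) - ζ) K w ≤ ι := by
      have : momK n βm K w ≤ ι * nsq w := not_lt.mp hw4
      rw [hw, mul_one] at this
      exact this
    have he0 := e0_mom hnpos p w
    have hnnp : 0 < (n : ℝ) ^ (-p) := Real.rpow_pos_of_pos hn0 _
    have hEn : En p w q ≤ E := by
      refine hcon.trans ?_
      rw [he0, hE, hC₁]
      calc ε * ((n : ℝ) ^ (-p) * mom n p w) = (n : ℝ) ^ (-p) * (ε * mom n p w) := by ring
        _ ≤ (n : ℝ) ^ (-p) * (ε * (1 / (1 - p) + 1)) := by gcongr; linarith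
    obtain ⟨F, hF0, hF⟩ := cg_taylor hp0 hp1.le hnpos hgood hq hq0 hEn hℓpos ht1 htL htn hx₁0
      hcond hM hMq0 hx1 D hx2
    set c : ℕ → ℝ := fun j => F.coeff j * (n : ℝ) ^ (-(p * j)) with hc
    have hc00 : c 0 = 1 := by
      rw [hc]; beta_reduce
      rw [coeff_zero_eq_eval_zero, hF0]; simp
    have hcT : ∀ k : ℕ, ∑ j ∈ Finset.range (D + 1), c j * sx n k ^ (-(p * j))
        = ∑ j ∈ Finset.range (D + 1), F.coeff j * (lam p k) ^ j := by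
      intro k
      apply Finset.sum_congr rfl
      intro j _
      have hsk := sx_pos hnpos k
      rw [hc]; beta_reduce
      rw [lam_eq_sx hnpos, mul_pow, ← Real.rpow_natCast, ← Real.rpow_natCast, ← Real.rpow_mul hn0.le,
        ← Real.rpow_mul hsk.le, mul_assoc]
      congr 3 <;> ring
    have hfl := form_lower hp0 hζ0.le hpγ hγD hκ₀ hpos hι0.le hι1 (by rw [hfac]; linarith) hnpos hmb
      hmK (q := q) hc00 (by
        intro k hk1 hk2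
        have hk' : x₁ ≤ (k : ℝ) + 1 := by
          have e6 := Nat.lt_floor_add_one x₁
          have e7 : (K : ℝ) ≤ k := by exact_mod_cast hk1
          linarith
        obtain ⟨h3, h4⟩ := hF k hk'
        rw [hcT k]
        have h5 := abs_sub_abs_le_abs_sub (∑ j ∈ Finset.range (D + 1), F.coeff j * (lam p k) ^ j)
          (F.eval (lam p k))
        rw [abs_sub_comm] at h5
        linarith)
    rw [hfac, ← hV, ← hC₂] at hfl
    have h3 : (n : ℝ) ^ p * En p w q ≤ ε * mom n p w := by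
      calc (n : ℝ) ^ p * En p w q ≤ (n : ℝ) ^ p * (ε * ((n : ℝ) ^ (-p) * mom n p w)) := by
            rw [← he0]; gcongr
        _ = ((n : ℝ) ^ p * (n : ℝ) ^ (-p)) * (ε * mom n p w) := by ring
        _ = ε * mom n p w := by rw [← Real.rpow_add hn0]; simp
    have h4 : ε * mom n p w ≤ ε * (1 / (1 - p) + ι) := by gcongr; linarith
    have h5 : (1 - ι * H) * V - ι * C₂ = V - ι * (H * V + C₂) := by ring
    have h6 : ε * (1 / (1 - p) + ι) = ε / (1 - p) + ε * ι := by ring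
    rw [h5] at hfl
    rw [h6] at h4
    have h7 : ι * (H * V + C₂ + ε) = ι * (H * V + C₂) + ε * ι := by ring
    rw [h7, hΔ] at hιΔ
    linarith)
  have hsub : {ω | (mo.Tcg ε ω : ℝ≥0∞) < ENNReal.ofReal s} ⊆ {ω | mo.Tcg ε ω ≤ t} := by
    intro ω hω
    exact le_natCast_of_lt_ofReal hω
  refine (measure_mono hsub).trans (hP.trans ?_)
  have b1 : Measure.map mo.z P E1 ≤ ENNReal.ofReal (η / 4) := by
    refine (anyBad_le mo.haarU mo.unif hnpos hℓpos hℓ1).trans (ENNReal.ofReal_le_ofReal ?_)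
    have e6 : L ≤ n := (Real.log_le_sub_one_of_pos hn0).trans (by linarith)
    have e7 : 16 ≤ η * L := by rwa [div_le_iff₀ hη, mul_comm] at hL2
    rw [div_le_div_iff₀ hn0 (by norm_num)]
    calc (4:ℝ) * 4 = 16 := by norm_num
      _ ≤ η * L := e7
      _ ≤ η * n := mul_le_mul_of_nonneg_left e6 hη.le
  have b2 := hn₁ n hnn₁ hnpos _ _ mo.haarU mo.unif
  have b3 := hn₂ n hnn₂ hnpos _ _ mo.haarU mo.unif
  have b4 := hn₃ n hnn₃ hnpos _ _ mo.haarU mo.unif K hKle hKn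
  calc Measure.map mo.z P ((E1 ∪ E2) ∪ (E3 ∪ E4))
      ≤ (Measure.map mo.z P E1 + Measure.map mo.z P E2) +
        (Measure.map mo.z P E3 + Measure.map mo.z P E4) :=
        (measure_union_le _ _).trans (add_le_add (measure_union_le _ _) (measure_union_le _ _))
    _ ≤ (ENNReal.ofReal (η / 4) + ENNReal.ofReal (η / 4)) +
        (ENNReal.ofReal (η / 4) + ENNReal.ofReal (η / 4)) :=
        add_le_add (add_le_add b1 b2) (add_le_add b3 b4)
    _ = ENNReal.ofReal η := by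
        rw [← ENNReal.ofReal_add (by positivity) (by positivity),
          ← ENNReal.ofReal_add (by positivity) (by positivity)]
        congr 1; ring

end Pool.Agent.Hhelper29.CG
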