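import Pool.Agent.Hhelper29.CG.CgOneLower

/-!
The lower bound for the CG stopping time at `p = 1`: final statement.
-/

namespace Pool.Agent.Hhelper29.CG

open MeasureTheory Matrix ProbabilityTheory Polynomial Filter
open scoped ENNReal Classical Topology

lemma one_sub_eighth_sq {δ ι : ℝ} (hι : ι = δ / 8) : 1 - δ / 4 ≤ (1 - ι) ^ 2 := by
  subst hι
  have : (1 - δ / 8) ^ 2 = 1 - δ / 4 + (δ / 8) ^ 2 := by ring
  rw [this]
  have := sq_nonneg (δ / 8)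
  linarith

lemma numeric_one {ε δ L b X : ℝ} (hε0 : 0 ≤ ε) (hε1 : ε ≤ 1) (hδ : 0 < δ) (hδ1 : δ ≤ 1)
    (hL : 0 ≤ L) (hb : 1 - δ / 4 ≤ b) (hb1 : b ≤ 1) (hX : (ε + δ) * L - 1 ≤ X) :
    (ε * (1 + L) - b * X) / 2 + 1 ≤ -(δ / 4 * L) + 2 := by
  have hb0 : 0 ≤ b := by linarith
  have h1 : b * ((ε + δ) * L - 1) ≤ b * X := mul_le_mul_of_nonneg_left hX hb0
  have h2 : 0 ≤ (ε + δ) * L := mul_nonneg (by linarith) hL
  have h3 : (1 - δ / 4) * ((ε + δ) * L) ≤ b * ((ε + δ) * L) := mul_le_mul_of_nonneg_right hb h2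
  have h4 : (ε + δ / 2) ≤ (1 - δ / 4) * (ε + δ) := by
    have : (1 - δ / 4) * (ε + δ) = ε + δ - δ / 4 * (ε + δ) := by ring
    rw [this]
    have h5 : δ / 4 * (ε + δ) ≤ δ / 4 * 2 := by
      apply mul_le_mul_of_nonneg_left <;> linarith
    linarith
  have h6 : (ε + δ / 2) * L ≤ (1 - δ / 4) * (ε + δ) * L := mul_le_mul_of_nonneg_right h4 hL
  have h7 : b * ((ε + δ) * L - 1) = b * ((ε + δ) * L) - b := by ring
  have h8 : (1 - δ / 4) * ((ε + δ) * L) = (1 - δ / 4) * (ε + δ) * L := by ring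
  rw [h7] at h1
  rw [h8] at h3
  have h9 : ε * (1 + L) = ε + ε * L := by ring
  have h10 : (ε + δ / 2) * L = ε * L + δ / 2 * L := by ring
  rw [h9]
  linarith

theorem cg_one_lower_aux {ε : ℝ} (hε : 0 < ε) (hε1 : ε < 1) {δ : ℝ} (hδ : 0 < δ)
    (hδε : δ ≤ (1 - ε) / 6) {η : ℝ} (hη : 0 < η) :
    ∃ n₀ : ℕ, ∀ n ≥ n₀, ∀ {Ω : Type*} [MeasurableSpace Ω] (P : Measure Ω) (m : Model n 1 P),
      P {ω | (m.Tcg ε ω : ℝ≥0∞) < ENNReal.ofReal ((n : ℝ) ^ ((1 - ε) / 3 - δ))} ≤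
        ENNReal.ofReal η := by
  set θ : ℝ := (1 - ε) / 3 - δ with hθ
  have hθ0 : 0 < θ := by rw [hθ]; linarith
  have hθ1 : θ ≤ 1 := by rw [hθ]; linarith
  set cd : ℝ := (cD 1 : ℝ) with hcd
  have hcd1 : 1 ≤ cd := by rw [hcd]; exact_mod_cast one_le_cD 1
  have hc0 := c0_pos
  have hc0' : c0 ≤ 1 := by
    unfold c0
    have : Real.exp (-2) ≤ 1 := Real.exp_le_one_iff.mpr (by norm_num)
    linarith
  set CM : ℝ := 816 * cd / c0 with hCM
  have hCM1 : 1 ≤ CM := by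
    rw [hCM, le_div_iff₀ hc0]; linarith
  set ι : ℝ := δ / 8 with hι
  have hι0 : 0 < ι := by positivity
  have hι1 : ι ≤ 1 := by rw [hι]; linarith
  set A₁ : ℝ := 144 * (294 * cd ^ 3) + 2 * CM * (294 * cd ^ 3) / ι with hA₁
  have e1 : ∀ᶠ n : ℕ in atTop, A₁ * (Real.log n) ^ 3 ≤ (n : ℝ) ^ (2 * δ) := polylog_le A₁ 3 (by positivity)
  have e2 : ∀ᶠ n : ℕ in atTop, 2 * (Real.log n) ^ 1 ≤ (n : ℝ) ^ θ := polylog_le 2 1 hθ0
  have hlogt : Tendsto (fun n : ℕ => Real.log (n : ℝ)) atTop atTop :=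
    Real.tendsto_log_atTop.comp tendsto_natCast_atTop_atTop
  have e3 : ∀ᶠ n : ℕ in atTop, max 1 (24 / η) ≤ Real.log (n : ℝ) :=
    hlogt.eventually_ge_atTop _
  have e4 : ∀ᶠ n : ℕ in atTop, (2:ℝ) ≤ (n : ℝ) ^ θ :=
    ((tendsto_rpow_atTop hθ0).comp tendsto_natCast_atTop_atTop).eventually_ge_atTop 2
  have e5 : ∀ᶠ n : ℕ in atTop, Real.exp (-(δ / 4 * Real.log n) + 2) ≤ η / 4 := by
    have h1 : Tendsto (fun n : ℕ => δ / 4 * Real.log (n : ℝ)) atTop atTop :=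
      hlogt.const_mul_atTop (by linarith)
    have h2 : Tendsto (fun n : ℕ => Real.exp (-(δ / 4 * Real.log (n : ℝ))) * Real.exp 2) atTop (𝓝 (0 * Real.exp 2)) :=
      (Real.tendsto_exp_neg_atTop_nhds_zero.comp h1).mul_const _
    rw [zero_mul] at h2
    filter_upwards [h2.eventually_le_const (show 0 < η / 4 by positivity)] with n hn
    rw [Real.exp_add]; exact hn
  obtain ⟨n₀, hn₀⟩ := eventually_atTop.mp (e1.and (e2.and (e3.and (e4.and e5))))
  refine ⟨n₀, fun n hn Ω _ P mo => ?_⟩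
  obtain ⟨h1, h2, h3, h4, h5⟩ := hn₀ n hn
  have hnpos := mo.n_pos
  have hn1 : (1:ℝ) ≤ n := by exact_mod_cast hnpos
  have hn0 : (0:ℝ) < n := by linarith
  rw [pow_one] at h2
  set L : ℝ := Real.log n with hL
  have hL1 : 1 ≤ L := (le_max_left _ _).trans h3
  have hL2 : 24 / η ≤ L := (le_max_right _ _).trans h3
  have hL0 : 0 < L := by linarith
  set s : ℝ := (n : ℝ) ^ θ with hs
  set t : ℕ := ⌊s⌋₊ with ht
  have hts : (t : ℝ) ≤ s := Nat.floor_le (by linarith)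
  have hts' : s - 1 < t := Nat.sub_one_lt_floor s
  have ht1 : 1 ≤ t := by
    have : (0:ℝ) < t := by linarith
    exact_mod_cast this
  have ht1' : (1:ℝ) ≤ t := by exact_mod_cast ht1
  have htlog : L ≤ t := by linarith
  have htn : t ≤ n := by
    have h6 : s ≤ n := by
      calc s ≤ (n : ℝ) ^ (1:ℝ) := Real.rpow_le_rpow_of_exponent_le hn1 hθ1
        _ = n := Real.rpow_one _
    exact_mod_cast hts.trans h6
  set ℓ : ℕ := ⌈2 * L⌉₊ with hℓ
  have hℓ1 : 2 * L ≤ ℓ := Nat.le_ceil _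
  have hℓ2 : (ℓ : ℝ) < 2 * L + 1 := Nat.ceil_lt_add_one (by linarith)
  have hℓ3 : (ℓ : ℝ) ≤ 3 * L := by linarith
  have hℓpos : 1 ≤ ℓ := by
    have : (0:ℝ) < ℓ := by linarith
    exact_mod_cast this
  have hℓpos' : (1:ℝ) ≤ ℓ := by exact_mod_cast hℓpos
  set E : ℝ := L ^ 2 / n with hE
  set Mq : ℝ := CM * L ^ 2 with hMq
  have hMq0 : 0 < Mq := by positivity
  have hM : 272 * cD 1 * (ℓ * E / (c0 / n)) ≤ Mq ^ 2 := by
    have e6 : 272 * (cD 1 : ℝ) * (ℓ * E / (c0 / n)) = 272 * cd * ℓ * L ^ 2 / c0 := by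
      rw [hE, ← hcd]; field_simp
    rw [e6]
    calc 272 * cd * ℓ * L ^ 2 / c0 ≤ 272 * cd * (3 * L) * L ^ 2 / c0 := by gcongr
      _ = CM * L ^ 3 := by rw [hCM]; ring
      _ ≤ CM ^ 2 * L ^ 4 := by
          have e7 : CM ≤ CM ^ 2 := by nlinarith
          have e8 : L ^ 3 ≤ L ^ 4 := pow_le_pow_right₀ hL1 (by norm_num)
          gcongr
      _ = Mq ^ 2 := by rw [hMq]; ring
  set W : ℝ := 2 * ((cD 1 * t : ℕ) : ℝ) ^ 2 * (((48 * (cD 1 * t) * ℓ : ℕ) : ℝ) + 1) with hW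
  set x₁ : ℝ := (n : ℝ) ^ (1 - ε - δ) with hx₁
  have hx10 : 0 < x₁ := Real.rpow_pos_of_pos hn0 _
  have hWle : W ≤ 294 * cd ^ 3 * (n : ℝ) ^ (1 - ε - 3 * δ) * L := by
    have e6 : ((cD 1 * t : ℕ) : ℝ) = cd * t := by push_cast; rfl
    have e7 : ((48 * (cD 1 * t) * ℓ : ℕ) : ℝ) = 48 * (cd * t) * ℓ := by push_cast; rfl
    rw [hW, e6, e7]
    have e8 : (1:ℝ) ≤ cd * t * ℓ := by
      have : (1:ℝ) ≤ cd * t := one_le_mul_of_one_le_of_one_le hcd1 ht1'
      exact one_le_mul_of_one_le_of_one_le this hℓpos'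
    have e9 : (t : ℝ) ^ 3 ≤ (n : ℝ) ^ (1 - ε - 3 * δ) := by
      calc (t : ℝ) ^ 3 ≤ s ^ 3 := by gcongr
        _ = (n : ℝ) ^ (1 - ε - 3 * δ) := by
            rw [hs, ← Real.rpow_natCast, ← Real.rpow_mul hn0.le]
            congr 1; rw [hθ]; push_cast; ring
    have hcd0 : 0 < cd := by linarith
    calc 2 * (cd * t) ^ 2 * (48 * (cd * t) * ℓ + 1) ≤ 2 * (cd * t) ^ 2 * (49 * (cd * t * ℓ)) := by
          gcongr; linarith
      _ = 98 * cd ^ 3 * (t : ℝ) ^ 3 * ℓ := by ring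
      _ ≤ 98 * cd ^ 3 * (n : ℝ) ^ (1 - ε - 3 * δ) * (3 * L) := by gcongr
      _ = _ := by ring
  have hxx : (n : ℝ) ^ (1 - ε - 3 * δ) * (n : ℝ) ^ (2 * δ) = x₁ := by
    rw [hx₁, ← Real.rpow_add hn0]; congr 1; ring
  have hn3 : 0 < (n : ℝ) ^ (1 - ε - 3 * δ) := Real.rpow_pos_of_pos hn0 _
  have hcd0 : 0 < cd := by linarith
  have hCM0 : 0 < CM := by linarith
  have hx1 : W ≤ x₁ / 144 := by
    rw [le_div_iff₀ (by norm_num)]
    calc W * 144 ≤ 294 * cd ^ 3 * (n : ℝ) ^ (1 - ε - 3 * δ) * L * 144 := by gcongr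
      _ = (n : ℝ) ^ (1 - ε - 3 * δ) * (144 * (294 * cd ^ 3) * L) := by ring
      _ ≤ (n : ℝ) ^ (1 - ε - 3 * δ) * (A₁ * L ^ 3) := by
          have e6 : L ≤ L ^ 3 := by
            calc L = L ^ 1 := (pow_one L).symm
              _ ≤ L ^ 3 := pow_le_pow_right₀ hL1 (by norm_num)
          have e7 : 144 * (294 * cd ^ 3) ≤ A₁ := by
            rw [hA₁]
            have : 0 ≤ 2 * CM * (294 * cd ^ 3) / ι := by positivity
            linarith
          gcongr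
      _ ≤ (n : ℝ) ^ (1 - ε - 3 * δ) * (n : ℝ) ^ (2 * δ) := by gcongr
      _ = x₁ := hxx
  have hx2 : 2 * Mq * W ≤ ι * x₁ := by
    calc 2 * Mq * W ≤ 2 * Mq * (294 * cd ^ 3 * (n : ℝ) ^ (1 - ε - 3 * δ) * L) := by gcongr
      _ = ι * ((n : ℝ) ^ (1 - ε - 3 * δ) * ((2 * CM * (294 * cd ^ 3) / ι) * L ^ 3)) := by
          rw [hMq]; field_simp
      _ ≤ ι * ((n : ℝ) ^ (1 - ε - 3 * δ) * (A₁ * L ^ 3)) := by
          have e7 : 2 * CM * (294 * cd ^ 3) / ι ≤ A₁ := by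
            rw [hA₁]
            have : 0 ≤ 144 * (294 * cd ^ 3) := by positivity
            linarith
          gcongr
      _ ≤ ι * ((n : ℝ) ^ (1 - ε - 3 * δ) * (n : ℝ) ^ (2 * δ)) := by gcongr
      _ = ι * x₁ := by rw [hxx]
  have hx3 : x₁ ≤ n := by
    calc x₁ ≤ (n : ℝ) ^ (1:ℝ) := Real.rpow_le_rpow_of_exponent_le hn1 (by linarith)
      _ = n := Real.rpow_one _
  set J : ℕ := ⌊x₁⌋₊ with hJ
  have hJn : J ≤ n := by
    have : (J : ℝ) ≤ n := (Nat.floor_le hx10.le).trans hx3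
    exact_mod_cast this
  set b : ℝ := (1 - ι) ^ 2 with hb
  have hb0 : 0 ≤ b := sq_nonneg _
  have hb1 : b ≤ 1 := by rw [hb]; nlinarith
  -- bad events
  set E1 : Set (Fin n → ℂ) := anyBad n ℓ with hE1
  set E2 : Set (Fin n → ℂ) := {w | L ^ 2 / n < wsq (fun k : Fin n => lam 1 k) w} with hE2
  set E3 : Set (Fin n → ℂ) := {w | b * ∑ k : Fin n, (if J ≤ (k : ℕ) then 1 else 0) * lam 1 k * ‖w k‖ ^ 2 ≤ ε * nsq (y0 1 w)} with hE3
  have hmy : Measurable (fun w : Fin n → ℂ => nsq (y0 1 w)) := by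
    have : (fun w : Fin n → ℂ => nsq (y0 1 w)) = fun w => ∑ k : Fin n, lam 1 k * ‖w k‖ ^ 2 := by
      funext w; exact nsq_y0 1 w
    rw [this]; fun_prop
  have hm1 : MeasurableSet E1 := measurableSet_anyBad n ℓ
  have hm2 : MeasurableSet E2 := measurableSet_lt measurable_const (measurable_wsq _)
  have hm3 : MeasurableSet E3 := measurableSet_le (by fun_prop) (hmy.const_mul _)
  have hP := mo.prob_tcg_le_le ε t ((hm1.union hm2).union hm3) (by
    intro w hw hwE q hq hq0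
    simp only [Set.mem_union, not_or] at hwE
    obtain ⟨⟨hw1, hw2⟩, hw3⟩ := hwE
    have hw2' : wsq (fun k : Fin n => lam 1 k) w ≤ E := not_lt.mp hw2
    have hw3' : ε * nsq (y0 1 w) < b * ∑ k : Fin n, (if J ≤ (k : ℕ) then 1 else 0) * lam 1 k * ‖w k‖ ^ 2 :=
      not_le.mp hw3
    by_contra hcon
    rw [not_lt] at hcon
    have hgood := good_of_notMem hℓpos hw1
    have he0 : nsq (y0 1 w) ≤ E := by rw [nsq_y0]; exact hw2'
    have hEn : En 1 w q ≤ E := by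
      have : 0 ≤ nsq (y0 1 w) := nsq_nonneg _
      nlinarith
    have key : b * ∑ k : Fin n, (if J ≤ (k : ℕ) then 1 else 0) * lam 1 k * ‖w k‖ ^ 2 ≤ En 1 w q := by
      unfold En
      rw [Finset.mul_sum]
      apply Finset.sum_le_sum
      intro k _
      have hlk := lam_pos 1 k
      split_ifs with hk
      · have hk' : x₁ ≤ ((k : ℕ) : ℝ) + 1 := by
          have e6 := Nat.lt_floor_add_one x₁
          have e7 : (J : ℝ) ≤ (k : ℕ) := by exact_mod_cast hk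
          linarith
        have := cg_one_det hnpos hgood hq hq0 hEn hℓpos ht1 htlog htn hM hMq0 hι1 hx1 hx2 hx3 hk'
        rw [← hb] at this
        calc b * (1 * lam 1 k * ‖w k‖ ^ 2) = lam 1 k * b * ‖w k‖ ^ 2 := by ring
          _ ≤ _ := by gcongr
      · rw [zero_mul, zero_mul, mul_zero]; positivity
    linarith)
  have hsub : {ω | (mo.Tcg ε ω : ℝ≥0∞) < ENNReal.ofReal s} ⊆ {ω | mo.Tcg ε ω ≤ t} := by
    intro ω hω
    exact le_natCast_of_lt_ofReal hω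
  refine (measure_mono hsub).trans (hP.trans ?_)
  refine (measure_union_le _ _).trans ((add_le_add_left (measure_union_le _ _) _).trans ?_)
  have hη24 : 24 / L ≤ η := by
    rw [div_le_iff₀ hL0]
    rwa [div_le_iff₀ hη, mul_comm] at hL2
  have b1 : Measure.map mo.z P E1 ≤ ENNReal.ofReal (η / 4) := by
    refine (anyBad_le mo.haarU mo.unif hnpos hℓpos hℓ1).trans (ENNReal.ofReal_le_ofReal ?_)
    have e6 : L ≤ n := (Real.log_le_sub_one_of_pos hn0).trans (by linarith)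
    calc 4 / (n : ℝ) ≤ 4 / L := by gcongr
      _ ≤ η / 4 := by
          have : 4 / L = (24 / L) / 6 := by ring
          rw [this]; linarith
  have b2 : Measure.map mo.z P E2 ≤ ENNReal.ofReal (η / 4) := by
    refine (unif_markov mo.unif hnpos (fun k => (lam_pos 1 k).le) (s := L ^ 2) (by positivity)).trans
      (ENNReal.ofReal_le_ofReal ?_)
    have e6 := tau_one_le hnpos
    calc (∑ k : Fin n, lam 1 k) / L ^ 2 ≤ (1 + L) / L ^ 2 := by gcongr
      _ ≤ (2 * L) / L ^ 2 := by gcongr; linarith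
      _ = (24 / L) / 12 := by field_simp; norm_num
      _ ≤ η / 4 := by linarith
  have b3 : Measure.map mo.z P E3 ≤ ENNReal.ofReal (η / 4) := by
    refine (cg_one_prob_lower mo.haarU mo.unif hnpos hJn hε.le hε1.le hb0 hb1).trans
      (ENNReal.ofReal_le_ofReal ?_)
    refine le_trans (Real.exp_le_exp.mpr ?_) h5
    have hx1' : 1 ≤ x₁ := Real.one_le_rpow hn1 (by linarith)
    have e6 : (J : ℝ) + 1 ≤ 2 * x₁ := by
      have := Nat.floor_le hx10.le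
      linarith
    have e7 : (ε + δ) * L - 1 ≤ Real.log (((n : ℝ) + 1) / (J + 1)) := by
      have e8 : (n : ℝ) / (2 * x₁) ≤ ((n : ℝ) + 1) / (J + 1) := by
        gcongr; linarith
      have e9 : Real.log ((n : ℝ) / (2 * x₁)) = (ε + δ) * L - Real.log 2 := by
        rw [Real.log_div hn0.ne' (by positivity), Real.log_mul (by norm_num) hx10.ne', hx₁,
          Real.log_rpow hn0]
        ring
      have e10 := Real.log_le_log (by positivity) e8
      rw [e9] at e10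
      have := Real.log_two_lt_d9
      linarith
    exact numeric_one hε.le hε1.le hδ (by linarith) hL0.le (one_sub_eighth_sq hι) hb1 e7
  calc Measure.map mo.z P E1 + Measure.map mo.z P E2 + Measure.map mo.z P E3
      ≤ ENNReal.ofReal (η / 4) + ENNReal.ofReal (η / 4) + ENNReal.ofReal (η / 4) :=
        add_le_add (add_le_add b1 b2) b3
    _ = ENNReal.ofReal (η / 4 + η / 4 + η / 4) := by
        rw [ENNReal.ofReal_add (by positivity) (by positivity),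
          ENNReal.ofReal_add (by positivity) (by positivity)]
    _ ≤ ENNReal.ofReal η := ENNReal.ofReal_le_ofReal (by linarith)

theorem cg_one_lower {ε : ℝ} (hε : 0 < ε) (hε1 : ε < 1) {δ : ℝ} (hδ : 0 < δ)
    {η : ℝ} (hη : 0 < η) :
    ∃ n₀ : ℕ, ∀ n ≥ n₀, ∀ {Ω : Type*} [MeasurableSpace Ω] (P : Measure Ω) (m : Model n 1 P),
      P {ω | (m.Tcg ε ω : ℝ≥0∞) < ENNReal.ofReal ((n : ℝ) ^ ((1 - ε) / 3 - δ))} ≤
        ENNReal.ofReal η := by
  have h1 : 0 < min δ ((1 - ε) / 6) := lt_min hδ (by linarith)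
  obtain ⟨n₀, h⟩ := cg_one_lower_aux hε hε1 (δ := min δ ((1 - ε) / 6)) h1 (min_le_right _ _) hη
  refine ⟨n₀, fun n hn Ω _ P m => ?_⟩
  refine (measure_mono ?_).trans (h n hn P m)
  intro ω hω
  have hω' : (m.Tcg ε ω : ℝ≥0∞) < ENNReal.ofReal ((n : ℝ) ^ ((1 - ε) / 3 - δ)) := hω
  refine lt_of_lt_of_le hω' (ENNReal.ofReal_le_ofReal ?_)
  have hn1 : (1:ℝ) ≤ n := by exact_mod_cast m.n_pos
  apply Real.rpow_le_rpow_of_exponent_le hn1
  have := min_le_left δ ((1 - ε) / 6)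
  linarith

end Pool.Agent.Hhelper29.CG
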