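import Pool.Agent.Hhelper29.CG.RcdOneUpper
import Pool.Agent.Hhelper29.CG.CgCrit3
import Pool.Agent.Hhelper29.CG.CgLtLower
import Pool.Agent.Hhelper29.CG.CgOneFinal

/-!
Assembly of the results on CG versus RCD.
-/

namespace Pool.Agent.Hhelper29.CG

open MeasureTheory Matrix ProbabilityTheory Filter Polynomial
open scoped ENNReal Classical Topology

variable {n : ℕ} {p : ℝ} {Ω : Type*} [MeasurableSpace Ω] {P : Measure Ω}

lemma prob_not_btw_le (X : Ω → ℝ≥0∞) {lo hi a b : ℝ} (ha : 0 ≤ a) (hb : 0 ≤ b)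
    (h1 : P {ω | X ω < ENNReal.ofReal lo} ≤ ENNReal.ofReal a)
    (h2 : P {ω | ENNReal.ofReal hi < X ω} ≤ ENNReal.ofReal b) :
    P {ω | ¬ Btw lo (X ω) hi} ≤ ENNReal.ofReal (a + b) := by
  rw [ENNReal.ofReal_add ha hb]
  refine le_trans (le_trans (measure_mono ?_) (measure_union_le _ _)) (add_le_add h1 h2)
  intro ω hω
  by_contra hc
  rw [Set.mem_union, not_or] at hc
  exact hω ⟨not_lt.mp hc.1, not_lt.mp hc.2⟩

lemma prob_not_and_le {E₁ E₂ E₃ : Ω → Prop} {a b : ℝ} (ha : 0 ≤ a) (hb : 0 ≤ b)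
    (h : ∀ ω, E₁ ω → E₂ ω → E₃ ω) (h1 : P {ω | ¬ E₁ ω} ≤ ENNReal.ofReal a)
    (h2 : P {ω | ¬ E₂ ω} ≤ ENNReal.ofReal b) :
    P {ω | ¬ (E₁ ω ∧ E₂ ω ∧ E₃ ω)} ≤ ENNReal.ofReal (a + b) := by
  rw [ENNReal.ofReal_add ha hb]
  refine le_trans (le_trans (measure_mono ?_) (measure_union_le _ _)) (add_le_add h1 h2)
  intro ω hω
  by_contra hc
  rw [Set.mem_union, not_or] at hc
  have c1 : E₁ ω := not_not.mp hc.1
  have c2 : E₂ ω := not_not.mp hc.2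
  exact hω ⟨c1, c2, h ω c1 c2⟩

lemma btw_mono {x : ℝ≥0∞} {lo hi lo' hi' : ℝ} (h : Btw lo x hi) (h1 : lo' ≤ lo) (h2 : hi ≤ hi') :
    Btw lo' x hi' :=
  ⟨(ENNReal.ofReal_le_ofReal h1).trans h.1, h.2.trans (ENNReal.ofReal_le_ofReal h2)⟩

/-- bounds for the ratio from bounds for the stopping times -/
lemma Model.ratio_btw (m : Model n p P) {ε : ℝ} {ω : Ω} {a A b B : ℝ} (ha : 0 < a) (hA : 0 < A)
    (h1 : Btw a (m.Tcg ε ω) A) (h2 : Btw b (m.Trcd ε ω) B) :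
    Btw (b / (n * A)) (m.ratio ε ω) (B / (n * a)) := by
  have hn : (0:ℝ) < n := by exact_mod_cast m.n_pos
  unfold Model.ratio
  constructor
  · rw [ENNReal.ofReal_div_of_pos (by positivity), ENNReal.ofReal_mul hn.le,
      ENNReal.ofReal_natCast]
    gcongr
    · exact h2.1
    · exact h1.2
  · rw [ENNReal.ofReal_div_of_pos (by positivity), ENNReal.ofReal_mul hn.le,
      ENNReal.ofReal_natCast]
    gcongr
    · exact h2.2
    · exact h1.1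

lemma Model.tcg_zero (m : Model n p P) {ε : ℝ} (hε : 1 ≤ ε) (ω : Ω) : m.Tcg ε ω = 0 := by
  have h0 : m.Tcg ε ω ≤ ((0 : ℕ) : ℕ∞) := by
    rw [m.tcg_le_iff]
    refine ⟨1, by simp, by simp, ?_⟩
    rw [En_one]
    have := nsq_nonneg (y0 p ((m.U ω)ᴴ *ᵥ m.z ω))
    nlinarith
  simpa using h0

lemma Model.trcd_zero (m : Model n p P) {ε : ℝ} (hε : 1 ≤ ε) (ω : Ω) : m.Trcd ε ω = 0 := by
  have h0 : m.Trcd ε ω ≤ ((0 : ℕ) : ℕ∞) := by
    apply iInf₂_le 0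
    rw [m.trcd_cond]
    simp only [runN]
    have := nsq_nonneg (y0 p ((m.U ω)ᴴ *ᵥ m.z ω))
    nlinarith
  simpa using h0

lemma Model.one_le_tcg' (m : Model n p P) {ε : ℝ} (hε1 : ε < 1) (ω : Ω) :
    ENNReal.ofReal 1 ≤ (m.Tcg ε ω : ℝ≥0∞) := by
  rw [ENNReal.ofReal_one]
  have h := ENat.toENNReal_le.mpr (m.one_le_tcg hε1 ω)
  simpa using h

lemma Model.one_le_trcd' (m : Model n p P) {ε : ℝ} (hε1 : ε < 1) (ω : Ω) :
    ENNReal.ofReal 1 ≤ (m.Trcd ε ω : ℝ≥0∞) := by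
  rw [ENNReal.ofReal_one]
  have h := ENat.toENNReal_le.mpr (m.one_le_trcd hε1 ω)
  simpa using h

lemma prob_empty_le {E : Set Ω} (h : ∀ ω, ω ∉ E) {a : ℝ≥0∞} : P E ≤ a := by
  rw [Set.eq_empty_of_forall_notMem h, measure_empty]; exact zero_le

lemma natCast_lt_of_lt' {C : ℝ} {T : ℕ} (hC : (T : ℝ) ≤ C) {X : ℕ∞}
    (h : ENNReal.ofReal C < (X : ℝ≥0∞)) : (T : ℕ∞) < X := by
  rw [← ENat.toENNReal_lt]
  refine lt_of_le_of_lt ?_ h
  rw [ENat.toENNReal_coe, ← ENNReal.ofReal_natCast]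
  exact ENNReal.ofReal_le_ofReal hC

/-- two sided bound for RCD, `0 < p < 1` -/
theorem rcd_lt_two_sided {p : ℝ} (hp0 : 0 < p) (hp1 : p < 1) {ε : ℝ} (hε : 0 < ε) (hε1 : ε < 1)
    {η : ℝ} (hη : 0 < η) :
    ∃ C₀ : ℝ, 0 < C₀ ∧ ∀ C ≥ C₀, ∀ (n : ℕ) {Ω : Type*} [MeasurableSpace Ω] (P : Measure Ω)
      (m : Model n p P), P {ω | ¬ Btw ((n : ℝ) / C) (m.Trcd ε ω) (C * n)} ≤ ENNReal.ofReal η := by
  have h1p : 0 < 1 - p := by linarith
  set κ : ℝ := (1 - p) / 2 with hκ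
  have hκ0 : 0 < κ := by positivity
  set D : ℝ := (1 - ε) * (1 - p * (1 + κ)) with hD
  have hD0 : 0 < D := by
    apply mul_pos (by linarith)
    rw [hκ]; nlinarith
  -- the constants
  have e1 : ∀ᶠ C : ℝ in atTop, Real.exp (-((1 - p) * (C - 1))) / ε ≤ η / 2 := by
    have h1 : Tendsto (fun C : ℝ => (1 - p) * (C - 1)) atTop atTop :=
      (tendsto_atTop_add_const_right _ (-1) tendsto_id).const_mul_atTop h1p
    have h2 : Tendsto (fun C : ℝ => Real.exp (-((1 - p) * (C - 1))) / ε) atTop (𝓝 (0 / ε)) :=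
      (Real.tendsto_exp_neg_atTop_nhds_zero.comp h1).div_const ε
    rw [zero_div] at h2
    exact h2.eventually_le_const (by positivity)
  have e2 : ∀ᶠ C : ℝ in atTop, (2 / C) ^ κ / D ≤ η / 2 := by
    have h1 : Tendsto (fun C : ℝ => 2 / C) atTop (𝓝 0) := tendsto_const_nhds.div_atTop tendsto_id
    have h2 : Tendsto (fun C : ℝ => (2 / C) ^ κ) atTop (𝓝 (0 ^ κ)) :=
      h1.rpow_const (Or.inr hκ0.le)
    rw [Real.zero_rpow hκ0.ne'] at h2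
    have h3 := h2.div_const D
    rw [zero_div] at h3
    exact h3.eventually_le_const (by positivity)
  obtain ⟨C₁, hC₁⟩ := eventually_atTop.mp (e1.and e2)
  refine ⟨max C₁ 1, by positivity, fun C hC n Ω _ P m => ?_⟩
  obtain ⟨h1, h2⟩ := hC₁ C ((le_max_left _ _).trans hC)
  have hC1 : 1 ≤ C := (le_max_right _ _).trans hC
  have hC0 : 0 < C := by linarith
  have hn : (0:ℝ) < n := by exact_mod_cast m.n_pos
  have hn1 : (1:ℝ) ≤ n := by exact_mod_cast m.n_pos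
  have hfin := prob_not_btw_le (P := P) (fun ω => (m.Trcd ε ω : ℝ≥0∞)) (lo := (n : ℝ) / C)
    (hi := C * n) (a := η / 2) (b := η / 2) (by positivity) (by positivity) ?_ ?_
  · rwa [add_halves] at hfin
  · have h3 : {ω | (m.Trcd ε ω : ℝ≥0∞) < ENNReal.ofReal ((n : ℝ) / C)} ⊆
        {ω | m.Trcd ε ω ≤ ((⌊(n : ℝ) / C⌋₊ : ℕ) : ℕ∞)} := fun ω hω => le_natCast_of_lt_ofReal hω
    refine (measure_mono h3).trans ((m.rcd_lt_lower hp0 hp1 hε1 _).trans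
      (ENNReal.ofReal_le_ofReal (le_trans ?_ h2)))
    rw [← hκ, ← hD]
    have h4 : (⌊(n : ℝ) / C⌋₊ : ℝ) ≤ (n : ℝ) / C := Nat.floor_le (by positivity)
    have h5 : 2 * (⌊(n : ℝ) / C⌋₊ : ℝ) / n ≤ 2 / C := by
      calc 2 * (⌊(n : ℝ) / C⌋₊ : ℝ) / n ≤ 2 * ((n : ℝ) / C) / n := by gcongr
        _ = 2 / C := by field_simp
    have h6 : (2 * (⌊(n : ℝ) / C⌋₊ : ℝ) / n) ^ κ ≤ (2 / C) ^ κ :=
      Real.rpow_le_rpow (by positivity) h5 hκ0.le
    gcongr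
  · have h3 : {ω | ENNReal.ofReal (C * n) < (m.Trcd ε ω : ℝ≥0∞)} ⊆
        {ω | ((⌊C * n⌋₊ : ℕ) : ℕ∞) < m.Trcd ε ω} := fun ω hω => natCast_lt_of_ofReal_lt hω
    refine (measure_mono h3).trans ((m.rcd_lt_upper hp0 hp1 hε _).trans
      (ENNReal.ofReal_le_ofReal (le_trans ?_ h1)))
    have h4 : C * n - 1 < (⌊C * n⌋₊ : ℝ) := Nat.sub_one_lt_floor _
    have h5 : (1 - p) * (C - 1) ≤ (1 - p) * (⌊C * n⌋₊ : ℝ) / n := by
      rw [le_div_iff₀ hn]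
      have : (C - 1) * n ≤ (⌊C * n⌋₊ : ℝ) := by nlinarith
      calc (1 - p) * (C - 1) * n = (1 - p) * ((C - 1) * n) := by ring
        _ ≤ _ := by gcongr
    have h6 : Real.exp (-((1 - p) * (⌊C * n⌋₊ : ℝ) / n)) ≤ Real.exp (-((1 - p) * (C - 1))) :=
      Real.exp_le_exp.mpr (by linarith)
    gcongr

/-- `p > 1` -/
theorem final_gt {p : ℝ} (hp : 1 < p) {ε : ℝ} (hε : 0 < ε) (hε1 : ε < 1) {η : ℝ} (hη : 0 < η) :
    ∃ C : ℝ, 0 < C ∧ ∀ (n : ℕ) {Ω : Type*} [MeasurableSpace Ω] (P : Measure Ω) (m : Model n p P),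
      P {ω | ¬ (Btw 1 (m.Tcg ε ω) C ∧ Btw 1 (m.Trcd ε ω) C ∧
        Btw (1 / (C * n)) (m.ratio ε ω) (C / n))} ≤ ENNReal.ofReal η := by
  obtain ⟨T₁, h1⟩ := cg_gt_tight hp hε (δ := η / 2) (by positivity)
  obtain ⟨T₂, h2⟩ := rcd_gt_tight hp hε (δ := η / 2) (by positivity)
  set C : ℝ := max 1 (max T₁ T₂) with hC
  have hC1 : 1 ≤ C := le_max_left _ _
  have hC0 : 0 < C := by linarith
  have hT₁ : (T₁ : ℝ) ≤ C := (le_max_left _ _).trans (le_max_right _ _)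
  have hT₂ : (T₂ : ℝ) ≤ C := (le_max_right _ _).trans (le_max_right _ _)
  refine ⟨C, hC0, fun n Ω _ P m => ?_⟩
  have hn : (0:ℝ) < n := by exact_mod_cast m.n_pos
  have hfin := prob_not_and_le (P := P) (E₁ := fun ω => Btw 1 (m.Tcg ε ω) C)
    (E₂ := fun ω => Btw 1 (m.Trcd ε ω) C) (E₃ := fun ω => Btw (1 / (C * n)) (m.ratio ε ω) (C / n))
    (a := η / 2) (b := η / 2) (by positivity) (by positivity) ?_ ?_ ?_
  · rwa [add_halves] at hfin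
  · intro ω g1 g2
    have h := m.ratio_btw one_pos hC0 g1 g2
    rwa [mul_comm (n : ℝ) C, mul_one] at h
  · have h := prob_not_btw_le (P := P) (fun ω => (m.Tcg ε ω : ℝ≥0∞)) (lo := 1) (hi := C)
      (a := 0) (b := η / 2) le_rfl (by positivity)
      (prob_empty_le fun ω hω => absurd (m.one_le_tcg' hε1 ω) (not_le.mpr hω))
      ((measure_mono fun ω hω => natCast_lt_of_lt' hT₁ hω).trans (h1 n P m))
    rwa [zero_add] at h
  · have h := prob_not_btw_le (P := P) (fun ω => (m.Trcd ε ω : ℝ≥0∞)) (lo := 1) (hi := C)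
      (a := 0) (b := η / 2) le_rfl (by positivity)
      (prob_empty_le fun ω hω => absurd (m.one_le_trcd' hε1 ω) (not_le.mpr hω))
      ((measure_mono fun ω hω => natCast_lt_of_lt' hT₂ hω).trans (h2 n P m))
    rwa [zero_add] at h

/-- `p = 1` -/
theorem final_one {ε : ℝ} (hε : 0 < ε) (hε1 : ε < 1) {δ : ℝ} (hδ : 0 < δ) {η : ℝ} (hη : 0 < η) :
    ∃ n₀ : ℕ, ∀ n ≥ n₀, ∀ {Ω : Type*} [MeasurableSpace Ω] (P : Measure Ω) (m : Model n 1 P),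
      P {ω | ¬ (Btw ((n : ℝ) ^ ((1 - ε) / 3 - δ)) (m.Tcg ε ω) ((n : ℝ) ^ ((1 - ε) / 3 + δ)) ∧
        Btw ((n : ℝ) ^ (2 * (1 - ε) / (2 - ε) - δ)) (m.Trcd ε ω)
          ((n : ℝ) ^ (2 * (1 - ε) / (2 - ε) + δ)) ∧
        Btw ((n : ℝ) ^ (-(ε / (2 - ε)) - (1 - ε) / 3 - δ)) (m.ratio ε ω)
          ((n : ℝ) ^ (-(ε / (2 - ε)) - (1 - ε) / 3 + δ)))} ≤ ENNReal.ofReal η := by
  have h2ε : 0 < 2 - ε := by linarith
  obtain ⟨n₁, h1⟩ := cg_one_lower hε hε1 (δ := δ / 2) (by positivity) (η := η / 4) (by positivity)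
  obtain ⟨n₂, h2⟩ := cg_one_upper hε hε1 (δ := δ / 2) (by positivity) (η := η / 4) (by positivity)
  obtain ⟨n₃, h3⟩ := rcd_one_lower hε hε1 (δ := δ / 2) (by positivity) (η := η / 4) (by positivity)
  obtain ⟨n₄, h4⟩ := rcd_one_upper hε hε1 (δ := δ / 2) (by positivity) (η := η / 4) (by positivity)
  refine ⟨max (max n₁ n₂) (max n₃ n₄), fun n hn Ω _ P m => ?_⟩
  have hn₁ : n₁ ≤ n := ((le_max_left _ _).trans (le_max_left _ _)).trans hn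
  have hn₂ : n₂ ≤ n := ((le_max_right _ _).trans (le_max_left _ _)).trans hn
  have hn₃ : n₃ ≤ n := ((le_max_left _ _).trans (le_max_right _ _)).trans hn
  have hn₄ : n₄ ≤ n := ((le_max_right _ _).trans (le_max_right _ _)).trans hn
  have hn0 : (0:ℝ) < n := by exact_mod_cast m.n_pos
  have hn1 : (1:ℝ) ≤ n := by exact_mod_cast m.n_pos
  have c1 := prob_not_btw_le (P := P) (fun ω => (m.Tcg ε ω : ℝ≥0∞)) (a := η / 4) (b := η / 4)
    (by positivity) (by positivity) (h1 n hn₁ P m) (h2 n hn₂ P m)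
  have c2 := prob_not_btw_le (P := P) (fun ω => (m.Trcd ε ω : ℝ≥0∞)) (a := η / 4) (b := η / 4)
    (by positivity) (by positivity) (h3 n hn₃ P m) (h4 n hn₄ P m)
  have c3 := prob_not_and_le (P := P)
    (E₃ := fun ω => Btw ((n : ℝ) ^ (-(ε / (2 - ε)) - (1 - ε) / 3 - δ)) (m.ratio ε ω)
          ((n : ℝ) ^ (-(ε / (2 - ε)) - (1 - ε) / 3 + δ))) (by positivity) (by positivity) (by
      intro ω g1 g2
      have h := m.ratio_btw (by positivity) (by positivity) g1 g2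
      have e1 : (n : ℝ) ^ (2 * (1 - ε) / (2 - ε) - δ / 2) / (n * (n : ℝ) ^ ((1 - ε) / 3 + δ / 2))
          = (n : ℝ) ^ (-(ε / (2 - ε)) - (1 - ε) / 3 - δ) := by
        rw [mul_comm (n : ℝ), ← Real.rpow_add_one hn0.ne', ← Real.rpow_sub hn0]
        congr 1; field_simp; ring
      have e2 : (n : ℝ) ^ (2 * (1 - ε) / (2 - ε) + δ / 2) / (n * (n : ℝ) ^ ((1 - ε) / 3 - δ / 2))
          = (n : ℝ) ^ (-(ε / (2 - ε)) - (1 - ε) / 3 + δ) := by
        rw [mul_comm (n : ℝ), ← Real.rpow_add_one hn0.ne', ← Real.rpow_sub hn0]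
        congr 1; field_simp; ring
      rwa [e1, e2] at h) c1 c2
  refine le_trans (measure_mono ?_) (c3.trans (ENNReal.ofReal_le_ofReal (by linarith)))
  intro ω hω
  by_contra hc
  have hc' := not_not.mp hc
  apply hω
  refine ⟨btw_mono hc'.1 ?_ ?_, btw_mono hc'.2.1 ?_ ?_, hc'.2.2⟩ <;>
  · apply Real.rpow_le_rpow_of_exponent_le hn1; linarith

/-- `0 < p < 1`, `ε < ε_c(p)` -/
theorem final_lt_sub {p : ℝ} (hp0 : 0 < p) (hp1 : p < 1) {ε : ℝ} (hε : 0 < ε) (hε1 : ε < epsc p)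
    {η : ℝ} (hη : 0 < η) :
    ∃ C : ℝ, 0 < C ∧ ∃ n₀ : ℕ, ∀ n ≥ n₀, ∀ {Ω : Type*} [MeasurableSpace Ω] (P : Measure Ω)
      (m : Model n p P),
      P {ω | ¬ (Btw ((n : ℝ) ^ (p / (p + 2)) / (Real.log n) ^ (bexp p)) (m.Tcg ε ω)
          (C * (n : ℝ) ^ (p / (p + 2))) ∧
        Btw ((n : ℝ) / C) (m.Trcd ε ω) (C * n) ∧
        Btw ((n : ℝ) ^ (-(p / (p + 2))) / C) (m.ratio ε ω)
          (C * (Real.log n) ^ (bexp p) * (n : ℝ) ^ (-(p / (p + 2)))))} ≤ ENNReal.ofReal η := by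
  have hεlt : ε < 1 := by
    by_cases h3 : p < 1 / 3
    · exact hε1.trans (epsc_lt_one hp0 h3)
    · rwa [epsc_eq_one (not_lt.mp h3) hp1] at hε1
  obtain ⟨n₁, h1⟩ := cg_lt_lower hp0 hp1 hε hε1 (η := η / 2) (by positivity)
  obtain ⟨C₀, hC₀, h2⟩ := rcd_lt_two_sided hp0 hp1 hε hεlt (η := η / 2) (by positivity)
  set A : ℝ := 2 + ε ^ (-(1 / 4 : ℝ)) with hA
  have hA0 : 0 < A := by positivity
  set C₁ : ℝ := max C₀ A with hC₁
  have hC₁0 : 0 < C₁ := lt_of_lt_of_le hC₀ (le_max_left _ _)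
  have hC₁A : A ≤ C₁ := le_max_right _ _
  have hA1 : 1 ≤ A := by
    have : 0 ≤ ε ^ (-(1 / 4 : ℝ)) := by positivity
    linarith
  have hC₁1 : 1 ≤ C₁ := hA1.trans hC₁A
  refine ⟨C₁ ^ 2, by positivity, max n₁ 2, fun n hn Ω _ P m => ?_⟩
  have hn₁ : n₁ ≤ n := (le_max_left _ _).trans hn
  have hn2 : 2 ≤ n := (le_max_right _ _).trans hn
  have hn2' : (2:ℝ) ≤ n := by exact_mod_cast hn2
  have hn0 : (0:ℝ) < n := by linarith
  have hlog : 0 < Real.log n := Real.log_pos (by linarith)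
  set θ : ℝ := p / (p + 2) with hθ
  set L : ℝ := (Real.log n) ^ (bexp p) with hL
  have hL0 : 0 < L := by positivity
  have c1 := prob_not_btw_le (P := P) (fun ω => (m.Tcg ε ω : ℝ≥0∞)) (a := η / 2) (b := 0)
    (hi := A * (n : ℝ) ^ θ) (by positivity) le_rfl (h1 n hn₁ P m)
    (prob_empty_le fun ω hω => absurd (m.tcg_le_det hp0 hε ω) (not_le.mpr hω))
  rw [add_zero] at c1
  have c2 := h2 C₁ (le_max_left _ _) n P m
  have hCC : C₁ ≤ C₁ ^ 2 := by nlinarith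
  have c3 := prob_not_and_le (P := P)
    (E₃ := fun ω => Btw ((n : ℝ) ^ (-θ) / C₁ ^ 2) (m.ratio ε ω)
          (C₁ ^ 2 * L * (n : ℝ) ^ (-θ))) (by positivity) (by positivity) (by
      intro ω g1 g2
      have hnθ : 0 < (n : ℝ) ^ θ := by positivity
      have h := m.ratio_btw (by positivity) (by positivity) g1 g2
      have hneg : (n : ℝ) ^ (-θ) = ((n : ℝ) ^ θ)⁻¹ := Real.rpow_neg hn0.le θ
      refine btw_mono h ?_ ?_
      · rw [hneg]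
        rw [show (n : ℝ) / C₁ / (n * (A * (n : ℝ) ^ θ)) = ((n : ℝ) ^ θ)⁻¹ / (C₁ * A) by field_simp]
        have : C₁ * A ≤ C₁ ^ 2 := by nlinarith
        gcongr
      · rw [hneg]
        rw [show C₁ * (n : ℝ) / (n * ((n : ℝ) ^ θ / L)) = C₁ * L * ((n : ℝ) ^ θ)⁻¹ by field_simp]
        gcongr) c1 c2
  rw [add_halves] at c3
  refine le_trans (measure_mono ?_) c3
  intro ω hω
  by_contra hc
  have hc' := not_not.mp hc
  apply hω
  refine ⟨btw_mono hc'.1 le_rfl ?_, btw_mono hc'.2.1 ?_ ?_, hc'.2.2⟩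
  · gcongr; exact hC₁A.trans hCC
  · gcongr
  · gcongr

/-- `0 < p < 1`, `ε_c(p) ≤ ε < 1` -/
theorem final_lt_sup.{u} {p : ℝ} (hp0 : 0 < p) (hp1 : p < 1) {ε : ℝ} (hε : epsc p ≤ ε) (hε1 : ε < 1)
    {η : ℝ} (hη : 0 < η) :
    ∃ C : ℝ, 0 < C ∧ ∃ n₀ : ℕ, ∀ n ≥ n₀, ∀ {Ω : Type u} [MeasurableSpace Ω] (P : Measure Ω)
      (m : Model n p P),
      P {ω | ¬ (Btw 1 (m.Tcg ε ω) C ∧ Btw ((n : ℝ) / C) (m.Trcd ε ω) (C * n) ∧
        Btw (1 / C) (m.ratio ε ω) C)} ≤ ENNReal.ofReal η := by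
  have hε0 : 0 < ε := lt_of_lt_of_le (epsc_pos hp0 hp1) hε
  have hcg : ∃ T n₀ : ℕ, ∀ n ≥ n₀, ∀ {Ω : Type u} [MeasurableSpace Ω] (P : Measure Ω)
      (m : Model n p P), P {ω | (T : ℕ∞) < m.Tcg ε ω} ≤ ENNReal.ofReal (η / 2) := by
    rcases hε.lt_or_eq with h | h
    · obtain ⟨n₀, h1⟩ := cg_sub_tight hp0 hp1 h (η := η / 2) (by positivity)
      exact ⟨_, n₀, h1⟩
    · have h3 : p < 1 / 3 := by
        by_contra hc
        rw [epsc_eq_one (not_lt.mp hc) hp1] at h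
        linarith
      rw [← h]
      exact cg_crit_tight hp0 h3 (by positivity)
  obtain ⟨T, n₀, h1⟩ := hcg
  obtain ⟨C₀, hC₀, h2⟩ := rcd_lt_two_sided hp0 hp1 hε0 hε1 (η := η / 2) (by positivity)
  set C₁ : ℝ := max (max C₀ T) 1 with hC₁
  have hC₁0 : C₀ ≤ C₁ := (le_max_left _ _).trans (le_max_left _ _)
  have hC₁T : (T : ℝ) ≤ C₁ := (le_max_right _ _).trans (le_max_left _ _)
  have hC₁1 : 1 ≤ C₁ := le_max_right _ _
  have hCpos : 0 < C₁ := by linarith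
  have hCC : C₁ ≤ C₁ ^ 2 := by nlinarith
  refine ⟨C₁ ^ 2, by positivity, n₀, fun n hn Ω _ P m => ?_⟩
  have hn0 : (0:ℝ) < n := by exact_mod_cast m.n_pos
  have c1 := prob_not_btw_le (P := P) (fun ω => (m.Tcg ε ω : ℝ≥0∞)) (lo := 1) (hi := C₁)
      (a := 0) (b := η / 2) le_rfl (by positivity)
      (prob_empty_le fun ω hω => absurd (m.one_le_tcg' hε1 ω) (not_le.mpr hω))
      ((measure_mono fun ω hω => natCast_lt_of_lt' hC₁T hω).trans (h1 n hn P m))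
  rw [zero_add] at c1
  have c2 := h2 C₁ hC₁0 n P m
  have c3 := prob_not_and_le (P := P)
    (E₃ := fun ω => Btw (1 / C₁ ^ 2) (m.ratio ε ω) (C₁ ^ 2)) (by positivity) (by positivity) (by
      intro ω g1 g2
      have h := m.ratio_btw one_pos hCpos g1 g2
      refine btw_mono h ?_ ?_
      · rw [show (n : ℝ) / C₁ / (n * C₁) = 1 / C₁ ^ 2 by field_simp]
      · rw [show C₁ * (n : ℝ) / (n * 1) = C₁ by field_simp]
        exact hCC) c1 c2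
  rw [add_halves] at c3
  refine le_trans (measure_mono ?_) c3
  intro ω hω
  by_contra hc
  have hc' := not_not.mp hc
  apply hω
  refine ⟨btw_mono hc'.1 le_rfl hCC, btw_mono hc'.2.1 ?_ ?_, hc'.2.2⟩
  · gcongr
  · gcongr

end Pool.Agent.Hhelper29.CG
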