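import Mathlib

/-!
Bernstein's inequality for cosine polynomials and the coefficient bound at an end point of an
interval, both deduced from Mathlib's extremal property of Chebyshev polynomials.
-/

namespace Pool.Agent.Hhelper29.CG

open Polynomial

lemma shift_monomial (θ₀ : ℝ) (j : ℕ) :
    ∃ G H : ℝ[X], G.natDegree ≤ j ∧ (X * H).natDegree ≤ j ∧
      ∀ s : ℝ, (Real.cos (θ₀ + s)) ^ j = G.eval (Real.cos s) + Real.sin s * H.eval (Real.cos s) := by
  induction j with
  | zero => exact ⟨1, 0, by simp, by simp, fun s => by simp⟩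
  | succ j ih =>
    obtain ⟨G, H, hG, hH, h⟩ := ih
    refine ⟨C (Real.cos θ₀) * X * G - C (Real.sin θ₀) * (H - X * (X * H)),
      C (Real.cos θ₀) * X * H - C (Real.sin θ₀) * G, ?_, ?_, ?_⟩
    · have hH' : H.natDegree ≤ j + 1 := by
        by_cases h0 : H = 0
        · simp [h0]
        · rw [natDegree_X_mul h0] at hH
          omega
      refine (natDegree_sub_le _ _).trans (max_le ?_ ?_)
      · rw [mul_assoc]
        refine (natDegree_C_mul_le _ _).trans ?_
        refine (natDegree_mul_le).trans ?_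
        have := natDegree_X_le (R := ℝ)
        omega
      · refine (natDegree_C_mul_le _ _).trans ?_
        refine (natDegree_sub_le _ _).trans (max_le hH' ?_)
        refine (natDegree_mul_le).trans ?_
        have := natDegree_X_le (R := ℝ)
        omega
    · have e : X * (C (Real.cos θ₀) * X * H - C (Real.sin θ₀) * G)
          = C (Real.cos θ₀) * (X * (X * H)) - C (Real.sin θ₀) * (X * G) := by ring
      rw [e]
      refine (natDegree_sub_le _ _).trans (max_le ?_ ?_)
      · refine (natDegree_C_mul_le _ _).trans ?_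
        refine (natDegree_mul_le).trans ?_
        have := natDegree_X_le (R := ℝ)
        omega
      · refine (natDegree_C_mul_le _ _).trans ?_
        refine (natDegree_mul_le).trans ?_
        have := natDegree_X_le (R := ℝ)
        omega
    · intro s
      rw [pow_succ, h s, Real.cos_add]
      simp only [eval_sub, eval_mul, eval_C, eval_X]
      have h1 : Real.sin s ^ 2 = 1 - Real.cos s ^ 2 := by
        have := Real.sin_sq_add_cos_sq s; linarith
      linear_combination (-(Real.sin θ₀) * eval (Real.cos s) H) * h1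

lemma exists_shift (F : ℝ[X]) (D : ℕ) (hF : F.natDegree ≤ D) (θ₀ : ℝ) :
    ∃ G H : ℝ[X], G.natDegree ≤ D ∧ (X * H).natDegree ≤ D ∧
      ∀ s : ℝ, F.eval (Real.cos (θ₀ + s)) = G.eval (Real.cos s) + Real.sin s * H.eval (Real.cos s) := by
  refine induction_with_natDegree_le (fun F => ∃ G H : ℝ[X], G.natDegree ≤ D ∧
      (X * H).natDegree ≤ D ∧ ∀ s : ℝ, F.eval (Real.cos (θ₀ + s)) = G.eval (Real.cos s)
        + Real.sin s * H.eval (Real.cos s)) D ?_ ?_ ?_ F hF
  · exact ⟨0, 0, by simp, by simp, fun s => by simp⟩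
  · intro n r _ hn
    obtain ⟨G, H, hG, hH, h⟩ := shift_monomial θ₀ n
    refine ⟨C r * G, C r * H, (natDegree_C_mul_le _ _).trans (hG.trans hn), ?_, fun s => ?_⟩
    · have : X * (C r * H) = C r * (X * H) := by ring
      rw [this]
      exact (natDegree_C_mul_le _ _).trans (hH.trans hn)
    · simp only [eval_mul, eval_C, eval_pow, eval_X, h s]; ring
  · rintro f g _ _ ⟨G₁, H₁, a1, a2, a3⟩ ⟨G₂, H₂, b1, b2, b3⟩
    refine ⟨G₁ + G₂, H₁ + H₂, (natDegree_add_le _ _).trans (max_le a1 b1), ?_, fun s => ?_⟩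
    · rw [mul_add]; exact (natDegree_add_le _ _).trans (max_le a2 b2)
    · simp only [eval_add, a3 s, b3 s]; ring

/-- Derivative bound at `1` for a polynomial bounded on `[-1,1]`. -/
lemma abs_iterate_derivative_one_le (P : ℝ[X]) (D : ℕ) (hP : P.natDegree ≤ D)
    (hb : ∀ x ∈ Set.Icc (-1 : ℝ) 1, |P.eval x| ≤ 1) (k : ℕ) :
    |(derivative^[k] P).eval 1| ≤ (derivative^[k] (Chebyshev.T ℝ D)).eval 1 := by
  have hd : P.degree ≤ D := natDegree_le_iff_degree_le.mp hP
  rw [abs_le]
  constructor
  · have h := Chebyshev.eval_iterate_derivative_le_of_forall_abs_le_one (P := -P) (k := k)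
      (x := 1) le_rfl (n := D) (by rw [degree_neg]; exact hd)
      (fun x hx => by rw [eval_neg, abs_neg]; exact hb x hx)
    rw [iterate_derivative_neg, eval_neg] at h
    linarith
  · exact Chebyshev.eval_iterate_derivative_le_of_forall_abs_le_one le_rfl hd hb

/-- Bernstein's inequality, derivative form. -/
theorem bernstein_deriv (F : ℝ[X]) (D : ℕ) (hF : F.natDegree ≤ D) (M : ℝ) (hM0 : 0 < M)
    (hM : ∀ θ : ℝ, |F.eval (Real.cos θ)| ≤ M) (θ₀ : ℝ) :
    ∃ c : ℝ, HasDerivAt (fun θ => F.eval (Real.cos θ)) c θ₀ ∧ |c| ≤ D * M := by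
  obtain ⟨G, H, hG, hH, h⟩ := exists_shift F D hF θ₀
  refine ⟨H.eval 1, ?_, ?_⟩
  · have h1 : HasDerivAt (fun s : ℝ => G.eval (Real.cos s) + Real.sin s * H.eval (Real.cos s))
        (H.eval 1) 0 := by
      have hc : HasDerivAt (fun s : ℝ => Real.cos s) 0 0 := by
        simpa using Real.hasDerivAt_cos 0
      have hs : HasDerivAt (fun s : ℝ => Real.sin s) 1 0 := by
        simpa using Real.hasDerivAt_sin 0
      have hG' : HasDerivAt (fun s : ℝ => G.eval (Real.cos s)) 0 0 := by
        have := (G.hasDerivAt (Real.cos 0)).comp (0 : ℝ) hc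
        simpa [Function.comp_def] using this
      have hH' : HasDerivAt (fun s : ℝ => H.eval (Real.cos s)) 0 0 := by
        have := (H.hasDerivAt (Real.cos 0)).comp (0 : ℝ) hc
        simpa [Function.comp_def] using this
      have := hG'.fun_add (hs.fun_mul hH')
      simpa using this
    have h2 : (fun θ => F.eval (Real.cos θ)) = fun θ => (fun s : ℝ =>
        G.eval (Real.cos s) + Real.sin s * H.eval (Real.cos s)) (θ - θ₀) := by
      funext θ
      have := h (θ - θ₀)
      simpa using this
    rw [h2]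
    have h3 : HasDerivAt (fun θ : ℝ => θ - θ₀) 1 θ₀ := by
      simpa using (hasDerivAt_id θ₀).sub_const θ₀
    have h4 := HasDerivAt.comp θ₀ (h := fun θ : ℝ => θ - θ₀)
      (h₂ := fun s : ℝ => G.eval (Real.cos s) + Real.sin s * H.eval (Real.cos s))
      (by simpa using h1) h3
    simpa [Function.comp_def] using h4
  · -- bound
    have hsH : ∀ s : ℝ, |Real.sin s * H.eval (Real.cos s)| ≤ M := by
      intro s
      have e1 := h s
      have e2 := h (-s)
      rw [Real.cos_neg, Real.sin_neg] at e2
      have e3 : Real.sin s * H.eval (Real.cos s)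
          = (F.eval (Real.cos (θ₀ + s)) - F.eval (Real.cos (θ₀ + -s))) / 2 := by
        rw [e1, e2]; ring
      rw [e3, abs_div, abs_two, div_le_iff₀ two_pos]
      have := abs_sub (F.eval (Real.cos (θ₀ + s))) (F.eval (Real.cos (θ₀ + -s)))
      have a1 := hM (θ₀ + s)
      have a2 := hM (θ₀ + -s)
      linarith
    set P : ℝ[X] := 1 - C (2 / M ^ 2) * ((H - X * (X * H)) * H) with hPdef
    have hPeval : ∀ x, P.eval x = 1 - 2 / M ^ 2 * ((1 - x ^ 2) * (H.eval x) ^ 2) := by
      intro x
      simp only [hPdef, eval_sub, eval_one, eval_mul, eval_C, eval_X]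
      ring
    have hdeg : P.natDegree ≤ 2 * D := by
      rw [hPdef]
      refine (natDegree_sub_le _ _).trans (max_le (by simp) ?_)
      refine (natDegree_C_mul_le _ _).trans ?_
      by_cases h0 : H = 0
      · simp [h0]
      · have hH2 : H.natDegree + 1 ≤ D := by rwa [natDegree_X_mul h0] at hH
        refine (natDegree_mul_le).trans ?_
        have : (H - X * (X * H)).natDegree ≤ D + 1 := by
          refine (natDegree_sub_le _ _).trans (max_le (by omega) ?_)
          refine (natDegree_mul_le).trans ?_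
          have := natDegree_X_le (R := ℝ)
          omega
        omega
    have hPb : ∀ x ∈ Set.Icc (-1 : ℝ) 1, |P.eval x| ≤ 1 := by
      intro x hx
      have hxc : x = Real.cos (Real.arccos x) := (Real.cos_arccos hx.1 hx.2).symm
      have hs := hsH (Real.arccos x)
      rw [← hxc] at hs
      have hsq : (1 - x ^ 2) * (H.eval x) ^ 2 = (Real.sin (Real.arccos x) * H.eval x) ^ 2 := by
        rw [mul_pow]
        congr 1
        have := Real.sin_sq_add_cos_sq (Real.arccos x)
        rw [← hxc] at this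
        linarith
      rw [hPeval, hsq]
      have hsq2 : (Real.sin (Real.arccos x) * H.eval x) ^ 2 ≤ M ^ 2 := by
        rw [← sq_abs]
        exact pow_le_pow_left₀ (abs_nonneg _) hs 2
      have h0 : 0 ≤ (Real.sin (Real.arccos x) * H.eval x) ^ 2 := sq_nonneg _
      have hM2 : 0 < M ^ 2 := by positivity
      have h1 : 2 / M ^ 2 * (Real.sin (Real.arccos x) * H.eval x) ^ 2 ≤ 2 := by
        rw [div_mul_eq_mul_div, div_le_iff₀ hM2]
        linarith
      have h2 : 0 ≤ 2 / M ^ 2 * (Real.sin (Real.arccos x) * H.eval x) ^ 2 := by positivity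
      rw [abs_le]
      constructor <;> linarith
    have hder := abs_iterate_derivative_one_le P (2 * D) hdeg hPb 1
    simp only [Function.iterate_one] at hder
    have hPd : (derivative P).eval 1 = 4 / M ^ 2 * (H.eval 1) ^ 2 := by
      rw [hPdef]
      simp only [derivative_sub, derivative_one, derivative_mul, derivative_C, derivative_X,
        eval_sub, eval_zero, eval_add, eval_mul, eval_C, eval_X, eval_one]
      ring
    have hT : (derivative (Chebyshev.T ℝ ((2 * D : ℕ) : ℤ))).eval 1 = (2 * D : ℝ) ^ 2 := by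
      have := Chebyshev.derivative_T_eval_one (R := ℝ) ((2 * D : ℕ) : ℤ)
      rw [this]; push_cast; ring
    rw [hPd, hT] at hder
    have hM2 : 0 < M ^ 2 := by positivity
    rw [abs_of_nonneg (by positivity), div_mul_eq_mul_div, div_le_iff₀ hM2] at hder
    have hfin : (H.eval 1) ^ 2 ≤ (D * M) ^ 2 := by nlinarith
    have hDM : 0 ≤ D * M := by positivity
    exact abs_le_of_sq_le_sq' hfin hDM |> abs_le.mpr

/-- Bernstein's inequality, Lipschitz form. -/
theorem bernstein_lip (F : ℝ[X]) (D : ℕ) (hF : F.natDegree ≤ D) (M : ℝ) (hM0 : 0 < M)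
    (hM : ∀ x ∈ Set.Icc (-1 : ℝ) 1, |F.eval x| ≤ M) (θ θ' : ℝ) :
    |F.eval (Real.cos θ) - F.eval (Real.cos θ')| ≤ D * M * |θ - θ'| := by
  have hM' : ∀ θ : ℝ, |F.eval (Real.cos θ)| ≤ M :=
    fun θ => hM _ ⟨Real.neg_one_le_cos θ, Real.cos_le_one θ⟩
  choose c hc1 hc2 using bernstein_deriv F D hF M hM0 hM'
  have := Convex.norm_image_sub_le_of_norm_hasDerivWithin_le
    (f := fun θ => F.eval (Real.cos θ)) (f' := c) (C := D * M) (s := Set.univ) (x := θ') (y := θ)
    (fun x _ => (hc1 x).hasDerivWithinAt) (fun x _ => by rw [Real.norm_eq_abs]; exact hc2 x)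
    convex_univ (Set.mem_univ _) (Set.mem_univ _)
  simpa [Real.norm_eq_abs] using this

/-- Coefficient bound for a polynomial bounded on `[0,a]`. -/
theorem coeff_bound (F : ℝ[X]) (D : ℕ) (hF : F.natDegree ≤ D) (M a : ℝ) (ha : 0 < a)
    (hM0 : 0 < M) (hM : ∀ x ∈ Set.Icc (0 : ℝ) a, |F.eval x| ≤ M) (j : ℕ) :
    |F.coeff j| ≤ M * (2 * (D : ℝ) ^ 2 / a) ^ j := by
  set L : ℝ[X] := C (a / 2) * (1 - X) with hL
  set P : ℝ[X] := C (1 / M) * F.comp L with hP
  have hLd : L.natDegree ≤ 1 := by
    rw [hL]
    refine (natDegree_C_mul_le _ _).trans ?_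
    refine (natDegree_sub_le _ _).trans (max_le (by simp) natDegree_X_le)
  have hPd : P.natDegree ≤ D := by
    rw [hP]
    refine (natDegree_C_mul_le _ _).trans ?_
    rw [natDegree_comp]
    calc F.natDegree * L.natDegree ≤ D * 1 := Nat.mul_le_mul hF hLd
      _ = D := mul_one D
  have hPb : ∀ x ∈ Set.Icc (-1 : ℝ) 1, |P.eval x| ≤ 1 := by
    intro x hx
    have e : P.eval x = 1 / M * F.eval (a / 2 * (1 - x)) := by
      simp [hP, hL, eval_comp]
    rw [e, abs_mul, abs_of_pos (by positivity : (0:ℝ) < 1 / M)]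
    have : |F.eval (a / 2 * (1 - x))| ≤ M := by
      apply hM
      constructor
      · have := hx.2; have : 0 ≤ 1 - x := by linarith
        positivity
      · have := hx.1; nlinarith
    rw [div_mul_eq_mul_div, div_le_iff₀ hM0]; linarith
  have hder : ∀ k, derivative^[k] (F.comp L) = C ((-(a / 2)) ^ k) * (derivative^[k] F).comp L := by
    intro k
    induction k with
    | zero => simp
    | succ k ih =>
      rw [Function.iterate_succ_apply', ih, derivative_C_mul, derivative_comp,
        Function.iterate_succ_apply' (f := derivative)]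
      have : derivative L = C (-(a / 2)) := by
        rw [hL]; simp
      rw [this, pow_succ, C_mul]; ring
  have h1 := abs_iterate_derivative_one_le P D hPd hPb j
  have h2 : (derivative^[j] P).eval 1 = 1 / M * ((-(a / 2)) ^ j * (derivative^[j] F).eval 0) := by
    rw [hP, iterate_derivative_C_mul, hder]
    simp [hL, eval_comp]
  rw [h2] at h1
  have h3 : (derivative^[j] (Chebyshev.T ℝ D)).eval 1 ≤ (D : ℝ) ^ (2 * j) := by
    have h4 := Chebyshev.iterate_derivative_T_eval_one_eq_div (𝔽 := ℝ) (D : ℤ) j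
    have h5 : (derivative^[j] (Chebyshev.T ℝ D)).eval 1
        = (∏ l ∈ Finset.range j, ((D : ℝ) ^ 2 - l ^ 2)) / (∏ l ∈ Finset.range j, (2 * (l : ℝ) + 1)) := by
      have := h4
      push_cast at this
      exact this
    rw [h5]
    have hden : (1 : ℝ) ≤ ∏ l ∈ Finset.range j, (2 * (l : ℝ) + 1) := by
      calc (1 : ℝ) = ∏ _l ∈ Finset.range j, (1 : ℝ) := by simp
        _ ≤ _ := by
          apply Finset.prod_le_prod
          · intro l _; exact zero_le_one
          · intro l _
            have : (0:ℝ) ≤ l := Nat.cast_nonneg l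
            linarith
    by_cases hjD : j ≤ D
    · have hnum : ∏ l ∈ Finset.range j, ((D : ℝ) ^ 2 - l ^ 2) ≤ (D : ℝ) ^ (2 * j) := by
        rw [pow_mul]
        calc ∏ l ∈ Finset.range j, ((D : ℝ) ^ 2 - l ^ 2)
            ≤ ∏ _l ∈ Finset.range j, ((D : ℝ) ^ 2) := by
              apply Finset.prod_le_prod
              · intro l hl
                have hlD : (l : ℝ) ≤ D := by
                  have := Finset.mem_range.mp hl
                  exact_mod_cast (by omega : l ≤ D)
                have : (0:ℝ) ≤ l := Nat.cast_nonneg l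
                nlinarith
              · intro l _
                have : (0:ℝ) ≤ (l:ℝ)^2 := by positivity
                linarith
          _ = ((D : ℝ) ^ 2) ^ j := by simp
      have hnum0 : 0 ≤ ∏ l ∈ Finset.range j, ((D : ℝ) ^ 2 - l ^ 2) := by
        apply Finset.prod_nonneg
        intro l hl
        have hlD : (l : ℝ) ≤ D := by
          have := Finset.mem_range.mp hl
          exact_mod_cast (by omega : l ≤ D)
        have : (0:ℝ) ≤ l := Nat.cast_nonneg l
        nlinarith
      exact (div_le_self hnum0 hden).trans hnum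
    · have : ∏ l ∈ Finset.range j, ((D : ℝ) ^ 2 - l ^ 2) = 0 := by
        apply Finset.prod_eq_zero (Finset.mem_range.mpr (not_le.mp hjD))
        simp
      rw [this]; simp only [zero_div]; positivity
  have h6 : |(derivative^[j] F).eval 0| = (j.factorial : ℝ) * |F.coeff j| := by
    rw [← coeff_zero_eq_eval_zero, coeff_iterate_derivative]
    simp [abs_mul, Nat.descFactorial_self]
  have h7 := h1.trans h3
  rw [abs_mul, abs_mul, abs_pow, abs_neg, abs_of_pos (by positivity : (0:ℝ) < a / 2),
    abs_of_pos (by positivity : (0:ℝ) < 1 / M), h6] at h7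
  have h8 : |F.coeff j| ≤ (j.factorial : ℝ) * |F.coeff j| := by
    have : (1 : ℝ) ≤ j.factorial := by exact_mod_cast Nat.one_le_iff_ne_zero.mpr (Nat.factorial_ne_zero j)
    nlinarith [abs_nonneg (F.coeff j)]
  have h9 : (a / 2) ^ j * |F.coeff j| ≤ M * (D : ℝ) ^ (2 * j) := by
    have h10 : 1 / M * ((a / 2) ^ j * |F.coeff j|) ≤ (D : ℝ) ^ (2 * j) := by
      refine le_trans ?_ h7
      gcongr
    rw [div_mul_eq_mul_div, one_mul, div_le_iff₀ hM0] at h10
    linarith
  have h11 : (2 * (D : ℝ) ^ 2 / a) ^ j = (D : ℝ) ^ (2 * j) / (a / 2) ^ j := by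
    rw [pow_mul, ← div_pow]; congr 1; field_simp
  rw [h11, ← mul_div_assoc, le_div_iff₀ (by positivity)]
  linarith

end Pool.Agent.Hhelper29.CG
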