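import Pool.Agent.Hhelper29.CG.CgSub

/-!
CG at the critical accuracy `ε = ε_c(p)`, `p < 1/3`: the stopping time stays bounded.
-/

namespace Pool.Agent.Hhelper29.CG

open MeasureTheory Matrix ProbabilityTheory Polynomial Filter
open scoped ENNReal Classical Topology

variable {n : ℕ}

lemma dcrit_ge {p : ℝ} (hp0 : 0 < p) (hp1 : p < 1) : 1 ≤ (2 * (dcrit p : ℝ) + 3) * p := by
  unfold dcrit
  have h0 : 0 < (1 - p) / (2 * p) := div_pos (by linarith) (by linarith)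
  have h1 : 1 ≤ ⌈(1 - p) / (2 * p)⌉₊ := Nat.one_le_iff_ne_zero.mpr (by
    intro h; exact absurd (Nat.ceil_eq_zero.mp h) (not_le.mpr h0))
  have h2 := Nat.le_ceil ((1 - p) / (2 * p))
  rw [Nat.cast_sub h1]
  push_cast
  rw [div_le_iff₀ (by positivity)] at h2
  nlinarith

lemma dcrit_lt' {p : ℝ} (hp0 : 0 < p) (hp1 : p < 1) : (2 * (dcrit p : ℝ) + 1) * p < 1 := by
  have h := dcrit_lt hp0 hp1
  rw [lt_div_iff₀ (by positivity)] at h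
  linarith

lemma one_le_dcrit {p : ℝ} (hp0 : 0 < p) (hp1 : p < 1 / 3) : 1 ≤ dcrit p := by
  by_contra hc
  have h0 : dcrit p = 0 := by omega
  have h := dcrit_ge hp0 (by linarith)
  rw [h0] at h
  push_cast at h
  linarith

lemma dcrit_eq_zero {p : ℝ} (hp0 : 1 / 3 ≤ p) (hp1 : p < 1) : dcrit p = 0 := by
  by_contra hc
  have h0 : 1 ≤ dcrit p := by omega
  have h0' : (1:ℝ) ≤ dcrit p := by exact_mod_cast h0
  have h := dcrit_lt' (show 0 < p by linarith) hp1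
  nlinarith

lemma epsc_eq_one {p : ℝ} (hp0 : 1 / 3 ≤ p) (hp1 : p < 1) : epsc p = 1 := by
  unfold epsc
  rw [dcrit_eq_zero hp0 hp1]
  simp

lemma epsc_pos {p : ℝ} (hp0 : 0 < p) (hp1 : p < 1) : 0 < epsc p := by
  unfold epsc
  apply Finset.prod_pos
  intro i hi
  have h2 : (i : ℝ) + 1 ≤ dcrit p := by exact_mod_cast Finset.mem_range.mp hi
  have h0 : (0:ℝ) ≤ i := Nat.cast_nonneg i
  have hd := dcrit_lt' hp0 hp1
  have h4 : 0 < 1 - ((i : ℝ) + 2) * p := by nlinarith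
  positivity

lemma epsc_lt_one {p : ℝ} (hp0 : 0 < p) (hp1 : p < 1 / 3) : epsc p < 1 := by
  unfold epsc
  have hd := dcrit_lt' hp0 (by linarith)
  have h1 : ∀ i ∈ Finset.range (dcrit p),
      0 < (((i : ℝ) + 1) * p / (1 - ((i : ℝ) + 2) * p)) ^ 2 ∧
      (((i : ℝ) + 1) * p / (1 - ((i : ℝ) + 2) * p)) ^ 2 < 1 := by
    intro i hi
    have h2 : (i : ℝ) + 1 ≤ dcrit p := by exact_mod_cast Finset.mem_range.mp hi
    have h0 : (0:ℝ) ≤ i := Nat.cast_nonneg i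
    have h4 : ((i : ℝ) + 1) * p < 1 - ((i : ℝ) + 2) * p := by nlinarith
    have h5 : 0 < ((i : ℝ) + 1) * p := by positivity
    have h6 : 0 < 1 - ((i : ℝ) + 2) * p := by linarith
    have h7 : ((i : ℝ) + 1) * p / (1 - ((i : ℝ) + 2) * p) < 1 := (div_lt_one h6).mpr h4
    have h8 : 0 < ((i : ℝ) + 1) * p / (1 - ((i : ℝ) + 2) * p) := by positivity
    exact ⟨by positivity, by nlinarith⟩
  have h2 := one_le_dcrit hp0 hp1
  calc ∏ i ∈ Finset.range (dcrit p), (((i : ℝ) + 1) * p / (1 - ((i : ℝ) + 2) * p)) ^ 2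
      < ∏ _i ∈ Finset.range (dcrit p), (1:ℝ) := by
        apply Finset.prod_lt_prod (fun i hi => (h1 i hi).1) (fun i hi => (h1 i hi).2.le)
        exact ⟨0, Finset.mem_range.mpr h2, (h1 0 (Finset.mem_range.mpr h2)).2⟩
    _ = 1 := by simp

lemma ast_last_ne_zero {γ : ℝ} {D : ℕ} (hγ : 2 * (D : ℝ) < γ) : ast γ D D ≠ 0 := by
  unfold ast
  have h1 : ∀ i ∈ Finset.range D, ((i : ℝ) + 1) / (γ - (i + 1)) ≠ 0 := by
    intro i hi
    have h2 : (i : ℝ) + 1 ≤ D := by exact_mod_cast Finset.mem_range.mp hi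
    have h0 : (0:ℝ) ≤ i := Nat.cast_nonneg i
    have h3 : 0 < γ - (i + 1) := by linarith
    positivity
  have h2 : ∀ i ∈ Finset.range D, γ - (D : ℝ) - ((i : ℝ) + 1) ≠ 0 := by
    intro i hi
    have h2 : (i : ℝ) + 1 ≤ D := by exact_mod_cast Finset.mem_range.mp hi
    have : 0 < γ - (D : ℝ) - ((i : ℝ) + 1) := by linarith
    exact this.ne'
  have h3 : ∀ l ∈ (Finset.range (D + 1)).erase D, (l : ℝ) - D ≠ 0 := by
    intro l hl
    rw [Finset.mem_erase] at hl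
    intro h
    exact hl.1 (by exact_mod_cast (by linarith : (l : ℝ) = D))
  exact mul_ne_zero (Finset.prod_ne_zero_iff.mpr h1)
    (div_ne_zero (Finset.prod_ne_zero_iff.mpr h2) (Finset.prod_ne_zero_iff.mpr h3))

/-- partial sums from above with the integral comparison -/
lemma sum_Ico_rpow_le' {s : ℝ} (hs0 : 0 ≤ s) (hs1 : s < 1) {m n : ℕ} (hmn : m ≤ n) :
    ∑ k ∈ Finset.Ico m n, ((k : ℝ) + 1) ^ (-s) ≤ ((n : ℝ) ^ (1 - s) - (m : ℝ) ^ (1 - s)) / (1 - s) := by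
  have h1s : 0 < 1 - s := by linarith
  rw [le_div_iff₀ h1s]
  induction n, hmn using Nat.le_induction with
  | base => simp
  | succ n hn ih =>
    rw [Finset.sum_Ico_succ_top hn]
    have h := rpow_step_lt_one hs0 hs1 n
    push_cast
    linarith

lemma le_sum_Ico_rpow' {s : ℝ} (hs0 : 0 ≤ s) (hs1 : s < 1) {m n : ℕ} (hmn : m ≤ n) :
    (((n : ℝ) + 1) ^ (1 - s) - ((m : ℝ) + 1) ^ (1 - s)) / (1 - s) ≤
      ∑ k ∈ Finset.Ico m n, ((k : ℝ) + 1) ^ (-s) := by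
  have h1s : 0 < 1 - s := by linarith
  rw [div_le_iff₀ h1s]
  induction n, hmn using Nat.le_induction with
  | base => simp
  | succ n hn ih =>
    rw [Finset.sum_Ico_succ_top hn]
    have h := rpow_step_lt_one' hs0 hs1 n
    push_cast
    have h2 : (n : ℝ) + 1 + 1 = (n : ℝ) + 2 := by ring
    rw [h2]
    linarith

/-- truncated Riemann sums -/
noncomputable def rs (n m : ℕ) (β : ℝ) : ℝ := (∑ k ∈ Finset.Ico m n, sx n k ^ (-β)) / n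

lemma rs_eq {m : ℕ} {β : ℝ} (hn : 0 < n) :
    rs n m β = (n : ℝ) ^ (β - 1) * ∑ k ∈ Finset.Ico m n, ((k : ℝ) + 1) ^ (-β) := by
  have hn0 : (0:ℝ) < n := by exact_mod_cast hn
  unfold rs
  have h2 : ∑ k ∈ Finset.Ico m n, sx n k ^ (-β)
      = (n : ℝ) ^ β * ∑ k ∈ Finset.Ico m n, ((k : ℝ) + 1) ^ (-β) := by
    rw [Finset.mul_sum]
    apply Finset.sum_congr rfl
    intro k _; exact sx_rpow hn k β
  rw [h2, Real.rpow_sub hn0, Real.rpow_one]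
  ring

lemma rs_le {m : ℕ} {β : ℝ} (h0 : 0 ≤ β) (h1 : β < 1) (hn : 0 < n) (hmn : m ≤ n) :
    rs n m β ≤ 1 / (1 - β) - (m : ℝ) ^ (1 - β) * (n : ℝ) ^ (β - 1) / (1 - β) := by
  have hn0 : (0:ℝ) < n := by exact_mod_cast hn
  rw [rs_eq hn]
  have h3 := sum_Ico_rpow_le' h0 h1 hmn
  have h4 : (n : ℝ) ^ (β - 1) * (n : ℝ) ^ (1 - β) = 1 := by
    rw [← Real.rpow_add hn0]; simp
  calc (n : ℝ) ^ (β - 1) * ∑ k ∈ Finset.Ico m n, ((k : ℝ) + 1) ^ (-β)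
      ≤ (n : ℝ) ^ (β - 1) * (((n : ℝ) ^ (1 - β) - (m : ℝ) ^ (1 - β)) / (1 - β)) := by gcongr
    _ = ((n : ℝ) ^ (β - 1) * (n : ℝ) ^ (1 - β)) / (1 - β)
        - (m : ℝ) ^ (1 - β) * (n : ℝ) ^ (β - 1) / (1 - β) := by ring
    _ = _ := by rw [h4]

lemma rs_ge {m : ℕ} {β : ℝ} (h0 : 0 ≤ β) (h1 : β < 1) (hn : 0 < n) (hmn : m ≤ n) :
    1 / (1 - β) - ((m : ℝ) + 1) ^ (1 - β) * (n : ℝ) ^ (β - 1) / (1 - β) ≤ rs n m β := by
  have hn0 : (0:ℝ) < n := by exact_mod_cast hn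
  have h1b : 0 < 1 - β := by linarith
  rw [rs_eq hn]
  have h3 := le_sum_Ico_rpow' h0 h1 hmn
  have h4 : (n : ℝ) ^ (β - 1) * (n : ℝ) ^ (1 - β) = 1 := by
    rw [← Real.rpow_add hn0]; simp
  have h6 : (n : ℝ) ^ (1 - β) ≤ ((n : ℝ) + 1) ^ (1 - β) := by
    apply Real.rpow_le_rpow hn0.le _ h1b.le; linarith
  calc 1 / (1 - β) - ((m : ℝ) + 1) ^ (1 - β) * (n : ℝ) ^ (β - 1) / (1 - β)
      = ((n : ℝ) ^ (β - 1) * (n : ℝ) ^ (1 - β)) / (1 - β)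
        - ((m : ℝ) + 1) ^ (1 - β) * (n : ℝ) ^ (β - 1) / (1 - β) := by rw [h4]
    _ = (n : ℝ) ^ (β - 1) * (((n : ℝ) ^ (1 - β) - ((m : ℝ) + 1) ^ (1 - β)) / (1 - β)) := by
        ring
    _ ≤ (n : ℝ) ^ (β - 1) * ((((n : ℝ) + 1) ^ (1 - β) - ((m : ℝ) + 1) ^ (1 - β)) / (1 - β)) := by
        gcongr
    _ ≤ _ := by gcongr

lemma rs_abs {m : ℕ} {β : ℝ} (h0 : 0 ≤ β) (h1 : β < 1) (hn : 0 < n) (hmn : m ≤ n) :
    |rs n m β - 1 / (1 - β)| ≤ ((m : ℝ) + 1) / (1 - β) * (n : ℝ) ^ (β - 1) := by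
  have hn0 : (0:ℝ) < n := by exact_mod_cast hn
  have h1b : 0 < 1 - β := by linarith
  have h2 := rs_le h0 h1 hn hmn
  have h3 := rs_ge h0 h1 hn hmn
  have h4 : 0 ≤ (m : ℝ) ^ (1 - β) * (n : ℝ) ^ (β - 1) / (1 - β) := by positivity
  have h5 : ((m : ℝ) + 1) ^ (1 - β) ≤ (m : ℝ) + 1 := by
    have hm : (0:ℝ) ≤ m := Nat.cast_nonneg m
    calc ((m : ℝ) + 1) ^ (1 - β) ≤ ((m : ℝ) + 1) ^ (1:ℝ) :=
          Real.rpow_le_rpow_of_exponent_le (by linarith) (by linarith)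
      _ = _ := Real.rpow_one _
  have h6 : ((m : ℝ) + 1) ^ (1 - β) * (n : ℝ) ^ (β - 1) / (1 - β)
      ≤ ((m : ℝ) + 1) * (n : ℝ) ^ (β - 1) / (1 - β) := by gcongr
  have h7 : ((m : ℝ) + 1) / (1 - β) * (n : ℝ) ^ (β - 1)
      = ((m : ℝ) + 1) * (n : ℝ) ^ (β - 1) / (1 - β) := by ring
  have h8 : 0 ≤ ((m : ℝ) + 1) / (1 - β) * (n : ℝ) ^ (β - 1) := by positivity
  rw [abs_le]
  constructor
  · rw [h7]; linarith
  · linarith

end Pool.Agent.Hhelper29.CG
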