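import Pool.Agent.Hhelper29.CG.CgCrit

/-!
CG at the critical accuracy `ε = ε_c(p)`, `p < 1/3`: mean and variance of the critical form.
-/

namespace Pool.Agent.Hhelper29.CG

open MeasureTheory Matrix ProbabilityTheory Polynomial Filter
open scoped ENNReal Classical Topology

variable {n : ℕ}

/-- value of the polynomial with coefficients `a` at `x = s^{-p}` -/
noncomputable def qv (p : ℝ) (d : ℕ) (a : ℕ → ℝ) (s : ℝ) : ℝ :=
  ∑ j ∈ Finset.range (d + 1), a j * s ^ (-(p * j))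

/-- coefficients of the critical form -/
noncomputable def cc (n m : ℕ) (p : ℝ) (d : ℕ) (a : ℕ → ℝ) (ε : ℝ) (k : ℕ) : ℝ :=
  (if m ≤ k then sx n k ^ (-p) * (qv p d a (sx n k)) ^ 2 else 0) - ε * sx n k ^ (-p)

lemma qv_sq (hn : 0 < n) (p : ℝ) (d : ℕ) (a : ℕ → ℝ) (k : ℕ) :
    sx n k ^ (-p) * (qv p d a (sx n k)) ^ 2 =
      ∑ i ∈ Finset.range (d + 1), ∑ j ∈ Finset.range (d + 1),
        a i * a j * sx n k ^ (-(p * ((i + j : ℕ) + 1))) := by
  have hs := sx_pos hn k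
  rw [qv, sq, Finset.sum_mul_sum, Finset.mul_sum]
  apply Finset.sum_congr rfl; intro i _
  rw [Finset.mul_sum]
  apply Finset.sum_congr rfl; intro j _
  have : sx n k ^ (-(p * ((i + j : ℕ) + 1)))
      = sx n k ^ (-p) * (sx n k ^ (-(p * i)) * sx n k ^ (-(p * j))) := by
    rw [← Real.rpow_add hs, ← Real.rpow_add hs]
    congr 1; push_cast; ring
  rw [this]; ring

lemma sum_cc (hn : 0 < n) {m : ℕ} (hmn : m ≤ n) (p : ℝ) (d : ℕ) (a : ℕ → ℝ) (ε : ℝ) :
    ∑ k : Fin n, cc n m p d a ε k = n * (∑ i ∈ Finset.range (d + 1), ∑ j ∈ Finset.range (d + 1),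
        a i * a j * rs n m (p * ((i + j : ℕ) + 1)) - ε * rs n 0 p) := by
  have hn0 : (n:ℝ) ≠ 0 := by exact_mod_cast hn.ne'
  rw [Fin.sum_univ_eq_sum_range (fun k : ℕ => cc n m p d a ε k) n]
  unfold cc
  rw [Finset.sum_sub_distrib, ← Finset.mul_sum]
  have e1 : ∑ k ∈ Finset.range n, (if m ≤ k then sx n k ^ (-p) * (qv p d a (sx n k)) ^ 2 else 0)
      = n * ∑ i ∈ Finset.range (d + 1), ∑ j ∈ Finset.range (d + 1),
        a i * a j * rs n m (p * ((i + j : ℕ) + 1)) := by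
    rw [Finset.range_eq_Ico, ← Finset.sum_Ico_consecutive _ (Nat.zero_le m) hmn]
    have h2 : ∑ k ∈ Finset.Ico 0 m, (if m ≤ k then sx n k ^ (-p) * (qv p d a (sx n k)) ^ 2 else 0)
        = 0 := by
      apply Finset.sum_eq_zero
      intro k hk
      rw [Finset.mem_Ico] at hk
      rw [if_neg (by omega)]
    rw [h2, zero_add]
    have h3 : ∑ k ∈ Finset.Ico m n, (if m ≤ k then sx n k ^ (-p) * (qv p d a (sx n k)) ^ 2 else 0)
        = ∑ k ∈ Finset.Ico m n, ∑ i ∈ Finset.range (d + 1), ∑ j ∈ Finset.range (d + 1),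
        a i * a j * sx n k ^ (-(p * ((i + j : ℕ) + 1))) := by
      apply Finset.sum_congr rfl
      intro k hk
      rw [Finset.mem_Ico] at hk
      rw [if_pos hk.1, qv_sq hn]
    rw [h3, Finset.sum_comm, Finset.mul_sum]
    apply Finset.sum_congr rfl; intro i _
    rw [Finset.sum_comm, Finset.mul_sum]
    apply Finset.sum_congr rfl; intro j _
    rw [rs, ← Finset.mul_sum]
    field_simp
  rw [e1, mul_sub]
  congr 1
  rw [rs, Finset.range_eq_Ico]
  field_simp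

lemma Qf_div {p γ : ℝ} (hγ : p * γ = 1 - p) (d : ℕ) (a : ℕ → ℝ) :
    Qf γ d a / p = ∑ i ∈ Finset.range (d + 1), ∑ j ∈ Finset.range (d + 1),
      a i * a j * (1 / (1 - (p * ((i + j : ℕ) + 1)))) := by
  unfold Qf
  rw [Finset.sum_div]
  apply Finset.sum_congr rfl; intro i _
  rw [Finset.sum_div]
  apply Finset.sum_congr rfl; intro j _
  have : 1 - (p * (((i + j : ℕ) : ℝ) + 1)) = p * (γ - i - j) := by
    push_cast; linarith
  rw [this, div_div, mul_comm (γ - i - j) p]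
  ring

/-- the double sum of truncated Riemann sums -/
lemma form_upper {p s : ℝ} (hp0 : 0 < p) {d : ℕ} (hs : s = (2 * (d : ℝ) + 1) * p) (hs1 : s < 1)
    (hn : 0 < n) {m : ℕ} (hmn : m ≤ n) (a : ℕ → ℝ) :
    ∑ i ∈ Finset.range (d + 1), ∑ j ∈ Finset.range (d + 1),
        a i * a j * rs n m (p * ((i + j : ℕ) + 1)) ≤
      ∑ i ∈ Finset.range (d + 1), ∑ j ∈ Finset.range (d + 1),
        a i * a j * (1 / (1 - (p * ((i + j : ℕ) + 1)))) +
      (∑ i ∈ Finset.range (d + 1), |a i|) ^ 2 * (((m : ℝ) + 1) / (1 - s) * (n : ℝ) ^ (2 * d * p - 1))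
      - a d ^ 2 * ((m : ℝ) ^ (1 - s) * (n : ℝ) ^ (s - 1) / (1 - s)) := by
  have hn0 : (0:ℝ) < n := by exact_mod_cast hn
  have hn1 : (1:ℝ) ≤ n := by exact_mod_cast hn
  have h1s : 0 < 1 - s := by linarith
  set E : ℝ := ((m : ℝ) + 1) / (1 - s) * (n : ℝ) ^ (2 * d * p - 1) with hE
  have hE0 : 0 ≤ E := by positivity
  set X : ℝ := a d ^ 2 * ((m : ℝ) ^ (1 - s) * (n : ℝ) ^ (s - 1) / (1 - s)) with hX
  have key : ∀ i ∈ Finset.range (d + 1), ∀ j ∈ Finset.range (d + 1),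
      a i * a j * rs n m (p * ((i + j : ℕ) + 1)) ≤
        a i * a j * (1 / (1 - (p * ((i + j : ℕ) + 1)))) + |a i| * |a j| * E
          - (if i = d then (if j = d then X else 0) else 0) := by
    intro i hi j hj
    have hi' := Nat.lt_succ_iff.mp (Finset.mem_range.mp hi)
    have hj' := Nat.lt_succ_iff.mp (Finset.mem_range.mp hj)
    have gen : i + j + 1 ≤ 2 * d → a i * a j * rs n m (p * ((i + j : ℕ) + 1)) ≤
        a i * a j * (1 / (1 - (p * ((i + j : ℕ) + 1)))) + |a i| * |a j| * E := by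
      intro hij
      have hij' : ((i + j : ℕ) : ℝ) + 1 ≤ 2 * d := by exact_mod_cast hij
      set β : ℝ := p * ((i + j : ℕ) + 1) with hβ
      have hβ0 : 0 ≤ β := by positivity
      have hβ2 : β ≤ 2 * d * p := by
        rw [hβ]
        calc p * (((i + j : ℕ) : ℝ) + 1) ≤ p * (2 * d) := by gcongr
          _ = _ := by ring
      have hβs : β ≤ s := by rw [hs]; linarith
      have h1 := rs_abs hβ0 (by linarith) hn hmn
      have h2 : ((m : ℝ) + 1) / (1 - β) * (n : ℝ) ^ (β - 1) ≤ E := by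
        rw [hE]
        have h3 : (n : ℝ) ^ (β - 1) ≤ (n : ℝ) ^ (2 * d * p - 1) :=
          Real.rpow_le_rpow_of_exponent_le hn1 (by linarith)
        gcongr
      have h4 : a i * a j * (rs n m β - 1 / (1 - β)) ≤ |a i| * |a j| * E := by
        calc a i * a j * (rs n m β - 1 / (1 - β)) ≤ |a i * a j * (rs n m β - 1 / (1 - β))| := le_abs_self _
          _ = |a i| * |a j| * |rs n m β - 1 / (1 - β)| := by rw [abs_mul, abs_mul]
          _ ≤ |a i| * |a j| * E := by gcongr; exact h1.trans h2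
      linarith
    by_cases hid : i = d
    · by_cases hjd : j = d
      · rw [if_pos hid, if_pos hjd]
        subst hid
        subst hjd
        have hβ : p * (((j + j : ℕ) : ℝ) + 1) = s := by rw [hs]; push_cast; ring
        rw [hβ]
        have hs0 : 0 ≤ s := by rw [hs]; positivity
        have h1 := rs_le hs0 hs1 hn hmn
        have h2 : a j * a j * rs n m s ≤ a j * a j *
            (1 / (1 - s) - (m : ℝ) ^ (1 - s) * (n : ℝ) ^ (s - 1) / (1 - s)) :=
          mul_le_mul_of_nonneg_left h1 (mul_self_nonneg _)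
        have h3 : 0 ≤ |a j| * |a j| * E := by positivity
        have h4 : a j * a j * (1 / (1 - s) - (m : ℝ) ^ (1 - s) * (n : ℝ) ^ (s - 1) / (1 - s))
            = a j * a j * (1 / (1 - s)) - X := by rw [hX]; ring
        linarith
      · rw [if_pos hid, if_neg hjd, sub_zero]
        exact gen (by omega)
    · rw [if_neg hid, sub_zero]
      exact gen (by omega)
  refine (Finset.sum_le_sum fun i hi => Finset.sum_le_sum fun j hj => key i hi j hj).trans
    (le_of_eq ?_)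
  simp only [Finset.sum_sub_distrib, Finset.sum_add_distrib]
  congr 1
  · congr 1
    rw [sq, Finset.sum_mul_sum, Finset.sum_mul]
    apply Finset.sum_congr rfl; intro i _
    rw [Finset.sum_mul]
  · have e1 : ∀ i ∈ Finset.range (d + 1), ∑ j ∈ Finset.range (d + 1),
        (if i = d then (if j = d then X else 0) else 0) = if i = d then X else 0 := by
      intro i _
      by_cases h : i = d
      · simp [h]
      · simp [h]
    rw [Finset.sum_congr rfl e1]
    simp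

/-- mean of the critical form -/
lemma crit_mean {p s : ℝ} (hp0 : 0 < p) (hp1 : p < 1) {d : ℕ} (hd : d = dcrit p) (hd1 : 1 ≤ d)
    (hs : s = (2 * (d : ℝ) + 1) * p) (hn : 0 < n) {m : ℕ} (hmn : m ≤ n) {a : ℕ → ℝ}
    (ha : a = ast ((1 - p) / p) d) :
    ∑ k : Fin n, cc n m p d a (epsc p) k ≤
      -(a d ^ 2 / (1 - s) * ((m : ℝ) ^ (1 - s) * (n : ℝ) ^ s)) +
      ((∑ i ∈ Finset.range (d + 1), |a i|) ^ 2 * (((m : ℝ) + 1) / (1 - s)) + epsc p / (1 - p))
        * (n : ℝ) ^ (2 * d * p) := by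
  have hn0 : (0:ℝ) < n := by exact_mod_cast hn
  have hn1 : (1:ℝ) ≤ n := by exact_mod_cast hn
  have hs1 : s < 1 := by rw [hs, hd]; exact dcrit_lt' hp0 hp1
  have h1s : 0 < 1 - s := by linarith
  have h1p : 0 < 1 - p := by linarith
  have hγ : p * ((1 - p) / p) = 1 - p := by field_simp
  have hγd : 2 * (d : ℝ) < (1 - p) / p := by
    rw [lt_div_iff₀ hp0]
    rw [hs] at hs1
    linarith
  rw [sum_cc hn hmn]
  have h1 := form_upper hp0 hs hs1 hn hmn a
  rw [← Qf_div hγ] at h1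
  have h2 : Qf ((1 - p) / p) d a / p = epsc p / (1 - p) := by
    rw [ha, Qf_ast hγd, hd, Vst_epsc hp0 hp1]
  rw [h2] at h1
  have h3 := rs_ge (m := 0) hp0.le hp1 hn (Nat.zero_le n)
  simp only [Nat.cast_zero, zero_add, Real.one_rpow, one_mul] at h3
  have hε := epsc_pos hp0 hp1
  have h4 := mul_le_mul_of_nonneg_left h3 hε.le
  have h5 : (n : ℝ) ^ (p - 1) ≤ (n : ℝ) ^ (2 * d * p - 1) := by
    apply Real.rpow_le_rpow_of_exponent_le hn1
    have : (1:ℝ) ≤ d := by exact_mod_cast hd1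
    nlinarith
  have h6 : epsc p * (1 / (1 - p) - (n : ℝ) ^ (p - 1) / (1 - p)) ≥
      epsc p / (1 - p) - epsc p / (1 - p) * (n : ℝ) ^ (2 * d * p - 1) := by
    have : epsc p * (1 / (1 - p) - (n : ℝ) ^ (p - 1) / (1 - p))
        = epsc p / (1 - p) - epsc p / (1 - p) * (n : ℝ) ^ (p - 1) := by ring
    rw [this]
    have : epsc p / (1 - p) * (n : ℝ) ^ (p - 1) ≤ epsc p / (1 - p) * (n : ℝ) ^ (2 * d * p - 1) := by
      gcongr
    linarith
  have h7 : (n : ℝ) * (n : ℝ) ^ (2 * d * p - 1) = (n : ℝ) ^ (2 * d * p) := by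
    rw [mul_comm, ← Real.rpow_add_one hn0.ne']; congr 1; ring
  have h8 : (n : ℝ) * (n : ℝ) ^ (s - 1) = (n : ℝ) ^ s := by
    rw [mul_comm, ← Real.rpow_add_one hn0.ne']; congr 1; ring
  set S : ℝ := (∑ i ∈ Finset.range (d + 1), |a i|) ^ 2 with hS
  calc (n : ℝ) * (∑ i ∈ Finset.range (d + 1), ∑ j ∈ Finset.range (d + 1),
        a i * a j * rs n m (p * ((i + j : ℕ) + 1)) - epsc p * rs n 0 p)
      ≤ n * (S * (((m : ℝ) + 1) / (1 - s) * (n : ℝ) ^ (2 * d * p - 1))
          - a d ^ 2 * ((m : ℝ) ^ (1 - s) * (n : ℝ) ^ (s - 1) / (1 - s))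
          + epsc p / (1 - p) * (n : ℝ) ^ (2 * d * p - 1)) := by
        apply mul_le_mul_of_nonneg_left _ hn0.le
        linarith
    _ = -(a d ^ 2 / (1 - s) * ((m : ℝ) ^ (1 - s) * (n * (n : ℝ) ^ (s - 1)))) +
      (S * (((m : ℝ) + 1) / (1 - s)) + epsc p / (1 - p)) * (n * (n : ℝ) ^ (2 * d * p - 1)) := by ring
    _ = _ := by rw [h7, h8]

/-- size of the coefficients -/
lemma cc_abs_le (hn : 0 < n) {p s ε : ℝ} (hp0 : 0 < p) (hε : 0 ≤ ε) {d : ℕ} (hs : s = (2 * (d : ℝ) + 1) * p)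
    (a : ℕ → ℝ) {m k : ℕ} (hk : k < n) (hmk : m ≤ k) :
    |cc n m p d a ε k| ≤ ((∑ i ∈ Finset.range (d + 1), |a i|) ^ 2 + ε) * sx n k ^ (-s) := by
  have hs0 := sx_pos hn k
  have hs1 := sx_le_one hk
  have hmono : ∀ β : ℝ, β ≤ s → sx n k ^ (-β) ≤ sx n k ^ (-s) := by
    intro β hβ
    exact Real.rpow_le_rpow_of_exponent_ge hs0 hs1 (by linarith)
  unfold cc
  rw [if_pos hmk, qv_sq hn, add_mul]
  refine (abs_sub _ _).trans (add_le_add ?_ ?_)
  · rw [sq, Finset.sum_mul_sum, Finset.sum_mul]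
    refine (Finset.abs_sum_le_sum_abs _ _).trans (Finset.sum_le_sum fun i hi => ?_)
    rw [Finset.sum_mul]
    refine (Finset.abs_sum_le_sum_abs _ _).trans (Finset.sum_le_sum fun j hj => ?_)
    rw [abs_mul, abs_mul, abs_of_pos (Real.rpow_pos_of_pos hs0 _)]
    have hi' : (i : ℝ) ≤ d := by exact_mod_cast Nat.lt_succ_iff.mp (Finset.mem_range.mp hi)
    have hj' : (j : ℝ) ≤ d := by exact_mod_cast Nat.lt_succ_iff.mp (Finset.mem_range.mp hj)
    have := hmono (p * (((i + j : ℕ) : ℝ) + 1)) (by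
      rw [hs]; push_cast
      calc p * ((i : ℝ) + j + 1) ≤ p * (d + d + 1) := by gcongr
        _ = _ := by ring)
    gcongr
  · rw [abs_mul, abs_of_nonneg hε, abs_of_pos (Real.rpow_pos_of_pos hs0 _)]
    have := hmono p (by
      rw [hs]
      have : (0:ℝ) ≤ d := Nat.cast_nonneg d
      nlinarith)
    gcongr

lemma cc_abs_lt (hn : 0 < n) {p ε : ℝ} (hp0 : 0 < p) (hε : 0 ≤ ε) {d : ℕ} (a : ℕ → ℝ) {m k : ℕ}
    (hmk : k < m) : |cc n m p d a ε k| ≤ ε * (n : ℝ) ^ p := by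
  have hn0 : (0:ℝ) < n := by exact_mod_cast hn
  have hs0 := sx_pos hn k
  unfold cc
  rw [if_neg (by omega), zero_sub, abs_neg, abs_mul, abs_of_nonneg hε,
    abs_of_pos (Real.rpow_pos_of_pos hs0 _), sx_rpow hn]
  have h1 : ((k : ℝ) + 1) ^ (-p) ≤ 1 := by
    apply Real.rpow_le_one_of_one_le_of_nonpos _ (by linarith)
    have : (0:ℝ) ≤ k := Nat.cast_nonneg k
    linarith
  have h2 : (n : ℝ) ^ p * ((k : ℝ) + 1) ^ (-p) ≤ (n : ℝ) ^ p * 1 := by gcongr
  rw [mul_one] at h2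
  gcongr

end Pool.Agent.Hhelper29.CG
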