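import Pool.Agent.Hhelper29.CG.RcdBasic

/-!
Polynomial reformulation of the conjugate gradient stopping time.
-/

namespace Pool.Agent.Hhelper29.CG

open MeasureTheory Matrix ProbabilityTheory Polynomial
open scoped ENNReal Classical

variable {n : ℕ} {p : ℝ}

/-- energy of a polynomial: `∑ λ_k q(λ_k)² |w_k|²` -/
noncomputable def En (p : ℝ) (w : Fin n → ℂ) (q : ℝ[X]) : ℝ :=
  ∑ k : Fin n, lam p k * (q.eval (lam p k)) ^ 2 * ‖w k‖ ^ 2

lemma En_one (w : Fin n → ℂ) : En p w 1 = nsq (y0 p w) := by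
  rw [nsq_y0, En]; simp

section det

variable {U : Matrix (Fin n) (Fin n) ℂ}

lemma adj_matA (hU : U ∈ unitaryGroup (Fin n) ℂ) (v : Fin n → ℂ) (k : Fin n) :
    (Uᴴ *ᵥ (matA p U *ᵥ v)) k = ((lam p k : ℝ) : ℂ) * (Uᴴ *ᵥ v) k := by
  have h1 : Uᴴ * U = 1 := mem_unitaryGroup_iff'.mp hU
  rw [matA_mulVec, mulVec_mulVec, h1, one_mulVec]

lemma adj_matA_pow (hU : U ∈ unitaryGroup (Fin n) ℂ) (j : ℕ) (v : Fin n → ℂ) (k : Fin n) :
    (Uᴴ *ᵥ ((matA p U) ^ j *ᵥ v)) k = ((lam p k : ℝ) : ℂ) ^ j * (Uᴴ *ᵥ v) k := by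
  induction j with
  | zero => simp
  | succ j ih => rw [pow_succ', ← mulVec_mulVec, adj_matA hU, ih, pow_succ']; ring

lemma krylov_repr (hU : U ∈ unitaryGroup (Fin n) ℂ) (b : Fin n → ℂ) (t : ℕ) {x : Fin n → ℂ}
    (hx : x ∈ krylov (matA p U) b t) :
    ∃ r : ℕ → ℂ, ∀ k, (Uᴴ *ᵥ x) k
      = (∑ j ∈ Finset.range t, r j * ((lam p k : ℝ) : ℂ) ^ j) * (Uᴴ *ᵥ b) k := by
  unfold krylov at hx
  induction hx using Submodule.span_induction with
  | mem x h =>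
    obtain ⟨j, hj, rfl⟩ := h
    refine ⟨fun i => if i = j then 1 else 0, fun k => ?_⟩
    rw [adj_matA_pow hU, Finset.sum_eq_single j]
    · simp
    · intro i _ hi; simp [hi]
    · intro h; exact absurd (Finset.mem_range.mpr hj) h
  | zero => exact ⟨0, fun k => by simp⟩
  | add x y _ _ hx hy =>
    obtain ⟨r, hr⟩ := hx
    obtain ⟨s, hs⟩ := hy
    refine ⟨r + s, fun k => ?_⟩
    rw [mulVec_add, Pi.add_apply, hr, hs]
    simp only [Pi.add_apply, add_mul, Finset.sum_add_distrib]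
  | smul a x _ hx =>
    obtain ⟨r, hr⟩ := hx
    refine ⟨fun j => a * r j, fun k => ?_⟩
    rw [mulVec_smul, Pi.smul_apply, hr, smul_eq_mul, ← mul_assoc, Finset.mul_sum]
    congr 1
    apply Finset.sum_congr rfl; intro j _; ring

/-- from a Krylov vector to a real polynomial -/
lemma exists_poly_of_krylov (hU : U ∈ unitaryGroup (Fin n) ℂ) (z : Fin n → ℂ) (t : ℕ)
    {x : Fin n → ℂ} (hx : x ∈ krylov (matA p U) (matA p U *ᵥ z) t) :
    ∃ q : ℝ[X], q.natDegree ≤ t ∧ q.eval 0 = 1 ∧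
      En p (Uᴴ *ᵥ z) q ≤ aNormSq (matA p U) (x - (matA p U)⁻¹ *ᵥ (matA p U *ᵥ z)) := by
  obtain ⟨r, hr⟩ := krylov_repr hU _ t hx
  refine ⟨1 - ∑ j ∈ Finset.range t, C (r j).re * X ^ (j + 1), ?_, ?_, ?_⟩
  · refine (natDegree_sub_le _ _).trans (max_le (by simp) ?_)
    apply natDegree_sum_le_of_forall_le
    intro j hj
    refine (natDegree_C_mul_X_pow_le _ _).trans ?_
    have := Finset.mem_range.mp hj
    omega
  · simp [eval_finsetSum]
  · rw [matA_inv_mulVec p hU, aNormSq_eq, nsq_y0, En]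
    apply Finset.sum_le_sum
    intro k _
    have h1 : (Uᴴ *ᵥ (x - z)) k
        = ((∑ j ∈ Finset.range t, r j * ((lam p k : ℝ) : ℂ) ^ (j + 1)) - 1) * (Uᴴ *ᵥ z) k := by
      rw [mulVec_sub, Pi.sub_apply, hr, adj_matA hU, sub_mul, one_mul]
      congr 1
      rw [← mul_assoc, Finset.sum_mul]
      congr 1
      apply Finset.sum_congr rfl; intro j _; ring
    rw [h1, norm_mul, mul_pow, ← mul_assoc]
    apply mul_le_mul_of_nonneg_right _ (by positivity)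
    apply mul_le_mul_of_nonneg_left _ (lam_pos p k).le
    set S : ℂ := ∑ j ∈ Finset.range t, r j * ((lam p k : ℝ) : ℂ) ^ (j + 1) with hS
    have h2 : (1 - ∑ j ∈ Finset.range t, C (r j).re * X ^ (j + 1) : ℝ[X]).eval (lam p k)
        = -(S - 1).re := by
      simp only [eval_sub, eval_one, eval_finsetSum, eval_mul, eval_C, eval_pow, eval_X,
        Complex.sub_re, Complex.one_re]
      have : S.re = ∑ j ∈ Finset.range t, (r j).re * lam p k ^ (j + 1) := by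
        rw [hS, Complex.re_sum]
        apply Finset.sum_congr rfl
        intro j _
        rw [← Complex.ofReal_pow, Complex.re_mul_ofReal]
      rw [this]; ring
    rw [h2, neg_sq]
    have h3 := Complex.abs_re_le_norm (S - 1)
    rw [← sq_abs]
    exact pow_le_pow_left₀ (abs_nonneg _) h3 2

/-- from a real polynomial to a Krylov vector -/
lemma exists_krylov_of_poly (hU : U ∈ unitaryGroup (Fin n) ℂ) (z : Fin n → ℂ) (t : ℕ)
    (q : ℝ[X]) (hq : q.natDegree ≤ t) (hq0 : q.eval 0 = 1) :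
    ∃ x ∈ krylov (matA p U) (matA p U *ᵥ z) t,
      aNormSq (matA p U) (x - (matA p U)⁻¹ *ᵥ (matA p U *ᵥ z)) = En p (Uᴴ *ᵥ z) q := by
  refine ⟨∑ j ∈ Finset.range t, (-(q.coeff (j + 1) : ℂ)) • ((matA p U) ^ j *ᵥ (matA p U *ᵥ z)), ?_, ?_⟩
  · apply Submodule.sum_mem
    intro j hj
    apply Submodule.smul_mem
    exact Submodule.subset_span ⟨j, Finset.mem_range.mp hj, rfl⟩
  · rw [matA_inv_mulVec p hU, aNormSq_eq, nsq_y0, En]
    apply Finset.sum_congr rfl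
    intro k _
    have h0 : q.coeff 0 = 1 := by rw [← hq0, coeff_zero_eq_eval_zero]
    have h1 : (Uᴴ *ᵥ (∑ j ∈ Finset.range t, (-(q.coeff (j + 1) : ℂ)) •
        ((matA p U) ^ j *ᵥ (matA p U *ᵥ z)) - z)) k
        = -((q.eval (lam p k) : ℝ) : ℂ) * (Uᴴ *ᵥ z) k := by
      rw [mulVec_sub, Pi.sub_apply, mulVec_sum, Finset.sum_apply]
      have e1 : ∀ j ∈ Finset.range t, (Uᴴ *ᵥ ((-(q.coeff (j + 1) : ℂ)) •
          ((matA p U) ^ j *ᵥ (matA p U *ᵥ z)))) k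
          = -((q.coeff (j + 1) * lam p k ^ (j + 1) : ℝ) : ℂ) * (Uᴴ *ᵥ z) k := by
        intro j _
        rw [mulVec_smul, Pi.smul_apply, adj_matA_pow hU, adj_matA hU, smul_eq_mul]
        push_cast; ring
      rw [Finset.sum_congr rfl e1, ← Finset.sum_mul, eval_eq_sum_range' (Nat.lt_succ_of_le hq),
        Finset.sum_range_succ', h0]
      push_cast
      rw [Finset.sum_neg_distrib]
      ring
    rw [h1, norm_mul, mul_pow, norm_neg, Complex.norm_real, Real.norm_eq_abs, sq_abs, mul_assoc]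

/-- existence of the CG iterates -/
lemma exists_isCGIterate (p : ℝ) (U : Matrix (Fin n) (Fin n) ℂ) (b : Fin n → ℂ) (t : ℕ) :
    ∃ x, IsCGIterate (matA p U) b t x := by
  set B : (Fin n → ℂ) →ₗ[ℂ] EuclideanSpace ℂ (Fin n) :=
    { toFun := fun v => WithLp.toLp 2 (y0 p (Uᴴ *ᵥ v))
      map_add' := by intro x y; rw [mulVec_add, y0_add]; rfl
      map_smul' := by intro c x; rw [mulVec_smul, y0_smul]; rfl } with hB
  have hnorm : ∀ v, ‖B v‖ ^ 2 = aNormSq (matA p U) v := by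
    intro v
    rw [EuclideanSpace.norm_sq_eq, aNormSq_eq]; rfl
  set K := (krylov (matA p U) b t).map B with hK
  obtain ⟨v, hv, hmin⟩ := K.exists_norm_eq_iInf_of_complete_subspace
    (Submodule.complete_of_finiteDimensional K) (B ((matA p U)⁻¹ *ᵥ b))
  obtain ⟨x, hx, rfl⟩ := Submodule.mem_map.mp hv
  refine ⟨x, hx, fun y hy => ?_⟩
  have h1 : ‖B ((matA p U)⁻¹ *ᵥ b) - B x‖ ≤ ‖B ((matA p U)⁻¹ *ᵥ b) - B y‖ := by
    rw [hmin]
    have hy' : B y ∈ K := Submodule.mem_map_of_mem hy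
    exact ciInf_le (f := fun w : K => ‖B ((matA p U)⁻¹ *ᵥ b) - w‖)
      ⟨0, by rintro _ ⟨w, rfl⟩; exact norm_nonneg _⟩ ⟨B y, hy'⟩
  rw [norm_sub_rev, norm_sub_rev (B ((matA p U)⁻¹ *ᵥ b)) (B y), ← map_sub, ← map_sub] at h1
  rw [← hnorm, ← hnorm]
  exact pow_le_pow_left₀ (norm_nonneg _) h1 2

lemma krylov_mono (A : Matrix (Fin n) (Fin n) ℂ) (b : Fin n → ℂ) {s t : ℕ} (h : s ≤ t) :
    krylov A b s ≤ krylov A b t :=
  Submodule.span_mono (by rintro v ⟨j, hj, rfl⟩; exact ⟨j, hj.trans_le h, rfl⟩)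

theorem tcg_le_iff (hU : U ∈ unitaryGroup (Fin n) ℂ) (z : Fin n → ℂ) (ε : ℝ) (t : ℕ) :
    TCG (matA p U) (matA p U *ᵥ z) ε ≤ t ↔
      ∃ q : ℝ[X], q.natDegree ≤ t ∧ q.eval 0 = 1 ∧
        En p (Uᴴ *ᵥ z) q ≤ ε * nsq (y0 p (Uᴴ *ᵥ z)) := by
  constructor
  · intro h
    by_contra hc
    have h1 : ((t + 1 : ℕ) : ℕ∞) ≤ TCG (matA p U) (matA p U *ᵥ z) ε := by
      unfold TCG
      refine le_iInf₂ fun s hs => ?_
      obtain ⟨x, hx, hxe⟩ := hs
      by_contra hlt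
      rw [not_le] at hlt
      have hst : s ≤ t := by
        have : s < t + 1 := by exact_mod_cast hlt
        omega
      obtain ⟨q, hq1, hq2, hq3⟩ := exists_poly_of_krylov hU z t (krylov_mono _ _ hst hx.1)
      refine hc ⟨q, hq1, hq2, hq3.trans ?_⟩
      rw [aNormSq_zero_sub p hU] at hxe
      exact hxe
    have h2 : ((t + 1 : ℕ) : ℕ∞) ≤ (t : ℕ∞) := h1.trans h
    have h3 : t + 1 ≤ t := by exact_mod_cast h2
    omega
  · rintro ⟨q, hq1, hq2, hq3⟩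
    obtain ⟨x, hx, hxe⟩ := exists_krylov_of_poly (p := p) hU z t q hq1 hq2
    obtain ⟨x', hx'⟩ := exists_isCGIterate p U (matA p U *ᵥ z) t
    unfold TCG
    refine iInf₂_le t ⟨x', hx', ?_⟩
    rw [aNormSq_zero_sub p hU]
    exact (hx'.2 x hx).trans (hxe.le.trans hq3)

end det

variable {Ω : Type*} [MeasurableSpace Ω] {P : Measure Ω}

theorem Model.tcg_le_iff (m : Model n p P) (ε : ℝ) (ω : Ω) (t : ℕ) :
    m.Tcg ε ω ≤ t ↔ ∃ q : ℝ[X], q.natDegree ≤ t ∧ q.eval 0 = 1 ∧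
        En p ((m.U ω)ᴴ *ᵥ m.z ω) q ≤ ε * nsq (y0 p ((m.U ω)ᴴ *ᵥ m.z ω)) :=
  CG.tcg_le_iff (m.unitary ω) (m.z ω) ε t

/-- both methods need at least one step when `ε < 1` -/
lemma nsq_adj (m : Model n p P) (ω : Ω) : nsq ((m.U ω)ᴴ *ᵥ m.z ω) = 1 := by
  rw [nsq_mulVec (conjTranspose_mem_unitary (m.unitary ω))]
  exact m.sphere ω

end Pool.Agent.Hhelper29.CG
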