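import Pool.Agent.Hhelper29.CG.RcdGt

/-!
Tightness of the RCD stopping time for `p > 1`.
-/

namespace Pool.Agent.Hhelper29.CG

open MeasureTheory Matrix ProbabilityTheory Filter
open scoped ENNReal Classical Topology

lemma tendsto_natCast_rpow_neg {b : ℝ} (hb : 0 < b) :
    Tendsto (fun K : ℕ => (K : ℝ) ^ (-b)) atTop (𝓝 0) :=
  (tendsto_rpow_neg_atTop hb).comp tendsto_natCast_atTop_atTop

lemma tendsto_mul_exp_neg_rpow {a : ℝ} (ha : 0 < a) :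
    Tendsto (fun K : ℕ => (K : ℝ) * Real.exp (-((K : ℝ) ^ a / 2))) atTop (𝓝 0) := by
  have h1 := tendsto_rpow_mul_exp_neg_mul_atTop_nhds_zero (1 / a) (1 / 2) (by norm_num)
  have h2 : Tendsto (fun K : ℕ => (K : ℝ) ^ a) atTop atTop :=
    (tendsto_rpow_atTop ha).comp tendsto_natCast_atTop_atTop
  have h3 := h1.comp h2
  refine h3.congr ?_
  intro K
  simp only [Function.comp]
  rw [← Real.rpow_mul (Nat.cast_nonneg K), mul_one_div_cancel ha.ne', Real.rpow_one]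
  congr 2; ring

/-- tightness of the RCD stopping time for `p > 1` -/
theorem rcd_gt_tight {p : ℝ} (hp : 1 < p) {ε : ℝ} (hε : 0 < ε) {δ : ℝ} (hδ : 0 < δ) :
    ∃ T : ℕ, ∀ (n : ℕ) {Ω : Type*} [MeasurableSpace Ω] (P : Measure Ω) (m : Model n p P),
      P {ω | (T : ℕ∞) < m.Trcd ε ω} ≤ ENNReal.ofReal δ := by
  have hp1 : 0 < p - 1 := by linarith
  have he := Real.exp_pos 1
  set κ₁ : ℝ := δ / (16 * Real.exp 1) with hκ₁
  have hκ₁0 : 0 < κ₁ := by positivity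
  set β : ℝ := δ * ε * κ₁ / 2 with hβ
  have hβ0 : 0 < β := by positivity
  set q : ℝ := p / (p - 1) with hq
  have hq0 : 0 < q := by positivity
  set η : ℝ := min 1 (β / (2 * (q ^ 2 + q))) with hη
  have hη0 : 0 < η := by rw [hη]; positivity
  have hη1 : η ≤ 1 := min_le_left _ _
  have hη2 : η * (q ^ 2 + q) ≤ β / 2 := by
    have : η ≤ β / (2 * (q ^ 2 + q)) := min_le_right _ _
    calc η * (q ^ 2 + q) ≤ β / (2 * (q ^ 2 + q)) * (q ^ 2 + q) := by gcongr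
      _ = β / 2 := by field_simp
  set a : ℝ := (p - 1) / 2 with ha
  have ha0 : 0 < a := by positivity
  set k₀ : ℕ := ⌈2 * p / (p - 1)⌉₊ with hk₀
  have hk₀' : 2 * p / (p - 1) ≤ k₀ := Nat.le_ceil _
  have hexp : p - a * (k₀ + 1) ≤ -a := by
    have h1 : p ≤ a * k₀ := by
      rw [div_le_iff₀ hp1] at hk₀'
      rw [ha]; linarith
    linarith
  set Pr₀ : ℝ := ∏ k ∈ Finset.range k₀, ((k : ℝ) + 1) ^ p with hPr
  have hPr0 : 0 < Pr₀ := Finset.prod_pos fun k _ => by positivity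
  set C : ℝ := Real.exp (2 / (p - 1)) with hC
  have hC0 : 0 < C := Real.exp_pos _
  -- the remainder tends to zero
  have hlim : Tendsto (fun K : ℕ => (K : ℝ) ^ (-(p - 1)) / (p - 1)
      + (64 * C / η ^ 2 * ((K : ℝ) * Real.exp (-((K : ℝ) ^ a / 2)))
        + 32 * Real.exp 1 * Pr₀ / η ^ (k₀ + 2) * (K : ℝ) ^ (-a))) atTop (𝓝 0) := by
    have h1 := (tendsto_natCast_rpow_neg hp1).div_const (p - 1)
    have h2 := (tendsto_mul_exp_neg_rpow ha0).const_mul (64 * C / η ^ 2)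
    have h3 := (tendsto_natCast_rpow_neg ha0).const_mul (32 * Real.exp 1 * Pr₀ / η ^ (k₀ + 2))
    have := h1.add (h2.add h3)
    simpa using this
  have hev : ∀ᶠ K : ℕ in atTop, (K : ℝ) ^ (-(p - 1)) / (p - 1)
      + (64 * C / η ^ 2 * ((K : ℝ) * Real.exp (-((K : ℝ) ^ a / 2)))
        + 32 * Real.exp 1 * Pr₀ / η ^ (k₀ + 2) * (K : ℝ) ^ (-a)) < β / 2 :=
    hlim.eventually_lt_const (by positivity)
  obtain ⟨K, hK1, hK2, hK3⟩ := (hev.and ((eventually_ge_atTop 2).and (eventually_ge_atTop k₀))).exists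
  have hKpos : (0:ℝ) < K := by exact_mod_cast (by omega : 0 < K)
  have hK1' : (1:ℝ) ≤ K := by exact_mod_cast (by omega : 1 ≤ K)
  set T : ℕ := ⌈(K : ℝ) ^ p / η⌉₊ with hT
  have hKp : 1 ≤ (K : ℝ) ^ p / η := by
    rw [le_div_iff₀ hη0, one_mul]
    exact hη1.trans (Real.one_le_rpow hK1' (by linarith))
  have hT1 : (K : ℝ) ^ p / η ≤ T := Nat.le_ceil _
  have hT2 : (T : ℝ) ≤ 2 * ((K : ℝ) ^ p / η) := by
    have := Nat.ceil_lt_add_one (show 0 ≤ (K : ℝ) ^ p / η by positivity)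
    linarith
  have hT3 : 1 ≤ T := by exact_mod_cast (hKp.trans hT1)
  refine ⟨T, ?_⟩
  intro n Ω _ P m
  set κ : ℝ := (K : ℝ) ^ (-a) with hκ
  have hκ0 : 0 < κ := Real.rpow_pos_of_pos hKpos _
  have h1 := m.mean_energy_gt hp hK2 hη0 hκ0 k₀ hK3 hT3
  have hTpos : (0:ℝ) < T := by linarith
  have hb : (p / (p - 1)) ^ 2 * (K : ℝ) ^ p / T + (K : ℝ) ^ (1 - p) / (p - 1)
      + η * (p / (p - 1)) + T * (16 * (2 / η * (K : ℝ) ^ (1 - p) * Real.exp (2 / (p - 1))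
          * Real.exp (-((K : ℝ) ^ (p - 1) * κ / 2))
        + (κ / η) * Real.exp 1 * ((κ / η) ^ k₀ * ∏ k ∈ Finset.range k₀, ((k : ℝ) + 1) ^ p))) ≤ β := by
    have e1 : (p / (p - 1)) ^ 2 * (K : ℝ) ^ p / T ≤ η * q ^ 2 := by
      rw [div_le_iff₀ hTpos]
      have : (K : ℝ) ^ p ≤ η * T := by
        rw [div_le_iff₀ hη0] at hT1; linarith
      calc (p / (p - 1)) ^ 2 * (K : ℝ) ^ p ≤ q ^ 2 * (η * T) := by
            rw [← hq]; gcongr
        _ = η * q ^ 2 * T := by ring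
    have e2 : (K : ℝ) ^ (1 - p) = (K : ℝ) ^ (-(p - 1)) := by congr 1; ring
    have e3 : (K : ℝ) ^ (p - 1) * κ = (K : ℝ) ^ a := by
      rw [hκ, ← Real.rpow_add hKpos]; congr 1; rw [ha]; ring
    have e4 : (T : ℝ) * (16 * (2 / η * (K : ℝ) ^ (1 - p) * Real.exp (2 / (p - 1))
          * Real.exp (-((K : ℝ) ^ (p - 1) * κ / 2))
        + (κ / η) * Real.exp 1 * ((κ / η) ^ k₀ * ∏ k ∈ Finset.range k₀, ((k : ℝ) + 1) ^ p)))
        ≤ 64 * C / η ^ 2 * ((K : ℝ) * Real.exp (-((K : ℝ) ^ a / 2)))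
        + 32 * Real.exp 1 * Pr₀ / η ^ (k₀ + 2) * (K : ℝ) ^ (-a) := by
      rw [e3, ← hPr, ← hC]
      have e5 : (K : ℝ) ^ p * (K : ℝ) ^ (1 - p) = K := by
        rw [← Real.rpow_add hKpos]; simp
      have e6 : (K : ℝ) ^ p * κ ^ (k₀ + 1) ≤ (K : ℝ) ^ (-a) := by
        rw [hκ, ← Real.rpow_natCast, ← Real.rpow_mul hKpos.le, ← Real.rpow_add hKpos]
        apply Real.rpow_le_rpow_of_exponent_le hK1'
        push_cast
        linarith
      calc (T : ℝ) * (16 * (2 / η * (K : ℝ) ^ (1 - p) * C * Real.exp (-((K : ℝ) ^ a / 2))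
            + (κ / η) * Real.exp 1 * ((κ / η) ^ k₀ * Pr₀)))
          ≤ (2 * ((K : ℝ) ^ p / η)) * (16 * (2 / η * (K : ℝ) ^ (1 - p) * C * Real.exp (-((K : ℝ) ^ a / 2))
            + (κ / η) * Real.exp 1 * ((κ / η) ^ k₀ * Pr₀))) := by gcongr
        _ = 64 * C / η ^ 2 * (((K : ℝ) ^ p * (K : ℝ) ^ (1 - p)) * Real.exp (-((K : ℝ) ^ a / 2)))
            + 32 * Real.exp 1 * Pr₀ / η ^ (k₀ + 2) * ((K : ℝ) ^ p * κ ^ (k₀ + 1)) := by
            rw [div_pow]; field_simp; ring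
        _ ≤ _ := by
            rw [e5]; gcongr
    rw [← e2] at hK1
    have e7 : η * (p / (p - 1)) = η * q := by rw [hq]
    have e8 : η * (q ^ 2 + q) = η * q ^ 2 + η * q := by ring
    linarith
  have h2 := m.prob_lt_trcd_le' hε hκ₁0 T (h1.trans (ENNReal.ofReal_le_ofReal hb))
  refine h2.trans ?_
  rw [← ENNReal.ofReal_mul (by positivity), ← ENNReal.ofReal_add (by positivity) (by positivity)]
  apply ENNReal.ofReal_le_ofReal
  have e9 : 8 * Real.exp 1 * κ₁ = δ / 2 := by rw [hκ₁]; field_simp; norm_num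
  have e10 : 1 / (ε * κ₁) * β = δ / 2 := by rw [hβ]; field_simp
  rw [e9, e10]; linarith

end Pool.Agent.Hhelper29.CG
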