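import Pool.Agent.Hhelper29.CG.CgDet
import Pool.Agent.Hhelper29.CG.RcdGtFinal

/-!
The polynomial that vanishes at the top eigenvalues, and tightness of the CG stopping time for
`p > 1`.
-/

namespace Pool.Agent.Hhelper29.CG

open MeasureTheory Matrix ProbabilityTheory Polynomial Filter
open scoped ENNReal Classical Topology

variable {n : ℕ} {p : ℝ}

/-- polynomial vanishing at the `m` largest eigenvalues, with value `1` at `0` -/
noncomputable def killP (p : ℝ) (m : ℕ) : ℝ[X] :=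
  ∏ j ∈ Finset.range m, (1 - C (1 / lam p j) * X)

lemma killP_natDegree (p : ℝ) (m : ℕ) : (killP p m).natDegree ≤ m := by
  unfold killP
  refine (natDegree_prod_le _ _).trans ?_
  calc ∑ j ∈ Finset.range m, (1 - C (1 / lam p j) * X : ℝ[X]).natDegree
      ≤ ∑ _j ∈ Finset.range m, 1 := by
        apply Finset.sum_le_sum
        intro j _
        refine (natDegree_sub_le _ _).trans (max_le (by simp) ?_)
        exact (natDegree_C_mul_le _ _).trans natDegree_X_le
    _ = m := by simp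

lemma killP_eval (p : ℝ) (m : ℕ) (x : ℝ) :
    (killP p m).eval x = ∏ j ∈ Finset.range m, (1 - x / lam p j) := by
  unfold killP
  rw [eval_prod]
  apply Finset.prod_congr rfl
  intro j _
  simp; ring

lemma killP_zero (p : ℝ) (m : ℕ) : (killP p m).eval 0 = 1 := by
  rw [killP_eval]; simp

lemma killP_root (p : ℝ) {m j : ℕ} (hj : j < m) : (killP p m).eval (lam p j) = 0 := by
  rw [killP_eval]
  apply Finset.prod_eq_zero (Finset.mem_range.mpr hj)
  rw [div_self (lam_pos p j).ne', sub_self]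

lemma killP_abs_le (p : ℝ) (m : ℕ) {x : ℝ} (hx0 : 0 ≤ x) (hx : ∀ j < m, x ≤ lam p j) :
    |(killP p m).eval x| ≤ 1 := by
  rw [killP_eval, Finset.abs_prod]
  apply Finset.prod_le_one
  · intro j _; exact abs_nonneg _
  · intro j hj
    have h1 := hx j (Finset.mem_range.mp hj)
    have h2 := lam_pos p j
    have h3 : 0 ≤ x / lam p j := by positivity
    have h4 : x / lam p j ≤ 1 := (div_le_one h2).mpr h1
    rw [abs_le]; constructor <;> linarith

lemma lam_antitone (hp : 0 ≤ p) {j k : ℕ} (h : j ≤ k) : lam p k ≤ lam p j := by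
  unfold lam
  apply Real.rpow_le_rpow_of_nonpos (by positivity) _ (by linarith)
  have : (j : ℝ) ≤ k := by exact_mod_cast h
  linarith

lemma En_killP_le (hp : 0 ≤ p) (w : Fin n → ℂ) (m : ℕ) :
    En p w (killP p m) ≤ wsq (lamK n p m) w := by
  unfold En wsq lamK gK
  apply Finset.sum_le_sum
  intro k _
  split_ifs with h
  · rw [one_mul]
    apply mul_le_mul_of_nonneg_right _ (by positivity)
    have h1 := killP_abs_le p m (lam_pos p k).le (fun j hj => lam_antitone hp (hj.le.trans h))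
    have h2 : ((killP p m).eval (lam p k)) ^ 2 ≤ 1 := by
      rw [← sq_abs]; exact pow_le_one₀ (abs_nonneg _) h1
    have := lam_pos p k
    nlinarith
  · rw [killP_root p (not_le.mp h)]; simp

lemma sum_lamK_le (hp : 1 < p) {m : ℕ} (hm : 1 ≤ m) :
    ∑ k, lamK n p m k ≤ (m : ℝ) ^ (1 - p) / (p - 1) := by
  have hp1 : 0 < p - 1 := by linarith
  have hmpos : (0:ℝ) < m := by exact_mod_cast hm
  by_cases hnK : n ≤ m
  · have : ∑ k, lamK n p m k = 0 := by
      apply Finset.sum_eq_zero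
      intro k _
      unfold lamK gK
      have := k.2
      rw [if_neg (by omega), zero_mul]
    rw [this]; positivity
  · have hKn : m < n := not_le.mp hnK
    have h1 : ∑ k, lamK n p m k = ∑ k ∈ Finset.Ico m n, ((k : ℝ) + 1) ^ (-p) := by
      unfold lamK gK lam
      rw [Fin.sum_univ_eq_sum_range (fun k : ℕ => (if m ≤ k then (1:ℝ) else 0) * ((k : ℝ) + 1) ^ (-p)) n]
      rw [Finset.range_eq_Ico, ← Finset.sum_Ico_consecutive _ (Nat.zero_le m) hKn.le]
      have h2 : ∑ k ∈ Finset.Ico 0 m, (if m ≤ k then (1:ℝ) else 0) * ((k : ℝ) + 1) ^ (-p) = 0 := by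
        apply Finset.sum_eq_zero
        intro k hk
        rw [Finset.mem_Ico] at hk
        rw [if_neg (by omega), zero_mul]
      rw [h2, zero_add]
      apply Finset.sum_congr rfl
      intro k hk
      rw [Finset.mem_Ico] at hk
      rw [if_pos hk.1, one_mul]
    rw [h1]
    exact sum_Ico_rpow_le hp hm n

/-- Markov inequality for weighted sums under the uniform law -/
lemma unif_markov {σ : Measure (Fin n → ℂ)} (hσ : IsUnif σ) (hn : 0 < n) {c : Fin n → ℝ}
    (hc : ∀ k, 0 ≤ c k) {s : ℝ} (hs : 0 < s) :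
    σ {w | s / n < wsq c w} ≤ ENNReal.ofReal ((∑ k, c k) / s) := by
  have hn' : (0:ℝ) < n := by exact_mod_cast hn
  have h1 := unif_weighted hσ c hc
  have hm : Measurable (fun w : Fin n → ℂ => ENNReal.ofReal (wsq c w)) :=
    (measurable_wsq c).ennreal_ofReal
  have h2 := mul_meas_ge_le_lintegral (μ := σ) hm (ENNReal.ofReal (s / n))
  have h3 : ∫⁻ w, ENNReal.ofReal (wsq c w) ∂σ = ENNReal.ofReal ((∑ k, c k) / n) := h1
  rw [h3] at h2
  have h4 : σ {w | s / n < wsq c w} ≤ σ {w | ENNReal.ofReal (s / n) ≤ ENNReal.ofReal (wsq c w)} :=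
    measure_mono fun w hw => ENNReal.ofReal_le_ofReal (le_of_lt hw)
  have h5 : ENNReal.ofReal (s / n) * σ {w | s / n < wsq c w} ≤ ENNReal.ofReal ((∑ k, c k) / n) :=
    (mul_le_mul_right h4 _).trans h2
  have hpos : 0 < s / n := by positivity
  have h6 : σ {w | s / n < wsq c w} ≤ ENNReal.ofReal ((∑ k, c k) / n) / ENNReal.ofReal (s / n) := by
    rw [ENNReal.le_div_iff_mul_le (Or.inl (by simpa using hpos)) (Or.inl ENNReal.ofReal_ne_top),
      mul_comm]
    exact h5
  refine h6.trans (le_of_eq ?_)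
  rw [← ENNReal.ofReal_div_of_pos hpos]
  congr 1
  field_simp

section final

variable {Ω : Type*} [MeasurableSpace Ω] {P : Measure Ω}

/-- CG upper tail through a polynomial family -/
lemma Model.prob_lt_tcg_le (m : Model n p P) (ε : ℝ) (t : ℕ) {E : Set (Fin n → ℂ)}
    (hE : MeasurableSet E)
    (h : ∀ w : Fin n → ℂ, nsq w = 1 → w ∉ E → ∃ q : ℝ[X], q.natDegree ≤ t ∧ q.eval 0 = 1 ∧
        En p w q ≤ ε * nsq (y0 p w)) :
    P {ω | (t : ℕ∞) < m.Tcg ε ω} ≤ Measure.map m.z P E := by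
  rw [← m.prob_w hE]
  apply measure_mono
  intro ω hω
  have hω' : (t : ℕ∞) < m.Tcg ε ω := hω
  by_contra hc
  have hc' : (m.U ω)ᴴ *ᵥ m.z ω ∉ E := hc
  have := (m.tcg_le_iff ε ω t).mpr (h _ (nsq_adj m ω) hc')
  exact absurd hω' (not_lt.mpr this)

/-- CG lower tail -/
lemma Model.prob_tcg_le_le (m : Model n p P) (ε : ℝ) (t : ℕ) {E : Set (Fin n → ℂ)}
    (hE : MeasurableSet E)
    (h : ∀ w : Fin n → ℂ, nsq w = 1 → w ∉ E → ∀ q : ℝ[X], q.natDegree ≤ t → q.eval 0 = 1 →
        ε * nsq (y0 p w) < En p w q) :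
    P {ω | m.Tcg ε ω ≤ t} ≤ Measure.map m.z P E := by
  rw [← m.prob_w hE]
  apply measure_mono
  intro ω hω
  have hω' : m.Tcg ε ω ≤ t := hω
  by_contra hc
  have hc' : (m.U ω)ᴴ *ᵥ m.z ω ∉ E := hc
  obtain ⟨q, hq1, hq2, hq3⟩ := (m.tcg_le_iff ε ω t).mp hω'
  exact absurd hq3 (not_le.mpr (h _ (nsq_adj m ω) hc' q hq1 hq2))

lemma nsq_y0_ge_first (hn : 0 < n) (w : Fin n → ℂ) : ‖w ⟨0, hn⟩‖ ^ 2 ≤ nsq (y0 p w) := by
  rw [nsq_y0]
  have := Finset.single_le_sum (f := fun k : Fin n => lam p k * ‖w k‖ ^ 2)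
    (fun k _ => mul_nonneg (lam_pos p k).le (by positivity)) (Finset.mem_univ ⟨0, hn⟩)
  refine le_trans (le_of_eq ?_) this
  simp [lam]

/-- tightness of the CG stopping time for `p > 1` -/
theorem cg_gt_tight {p : ℝ} (hp : 1 < p) {ε : ℝ} (hε : 0 < ε) {δ : ℝ} (hδ : 0 < δ) :
    ∃ T : ℕ, ∀ (n : ℕ) {Ω : Type*} [MeasurableSpace Ω] (P : Measure Ω) (m : Model n p P),
      P {ω | (T : ℕ∞) < m.Tcg ε ω} ≤ ENNReal.ofReal δ := by
  have hp1 : 0 < p - 1 := by linarith
  have he := Real.exp_pos 1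
  set κ : ℝ := δ / (16 * Real.exp 1) with hκ
  have hκ0 : 0 < κ := by positivity
  have hlim := (tendsto_natCast_rpow_neg hp1).div_const ((p - 1) * (ε * κ))
  rw [zero_div] at hlim
  have hev : ∀ᶠ K : ℕ in atTop, (K : ℝ) ^ (-(p - 1)) / ((p - 1) * (ε * κ)) < δ / 2 :=
    hlim.eventually_lt_const (by positivity)
  obtain ⟨T, hT1, hT2⟩ := (hev.and (eventually_ge_atTop 1)).exists
  refine ⟨T, ?_⟩
  intro n Ω _ P m
  have hn := m.n_pos
  have hn' : (0:ℝ) < n := by exact_mod_cast hn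
  have hlK : ∀ k, 0 ≤ lamK n p T k := fun k => mul_nonneg (gK_nonneg n T k) (lam_pos p k).le
  set E1 : Set (Fin n → ℂ) := {w | ‖w ⟨0, hn⟩‖ ^ 2 < κ / n} with hE1
  set E2 : Set (Fin n → ℂ) := {w | (ε * κ) / n < wsq (lamK n p T) w} with hE2
  have hm1 : MeasurableSet E1 := measurableSet_lt (by fun_prop) measurable_const
  have hm2 : MeasurableSet E2 := measurableSet_lt measurable_const (measurable_wsq _)
  have h1 := m.prob_lt_tcg_le ε T (hm1.union hm2) (by
    intro w _ hwE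
    simp only [Set.mem_union, not_or] at hwE
    obtain ⟨hw1, hw2⟩ := hwE
    have hw1' : κ / n ≤ ‖w ⟨0, hn⟩‖ ^ 2 := not_lt.mp hw1
    have hw2' : wsq (lamK n p T) w ≤ (ε * κ) / n := not_lt.mp hw2
    refine ⟨killP p T, killP_natDegree p T, killP_zero p T, ?_⟩
    refine (En_killP_le (by linarith) w T).trans (hw2'.trans ?_)
    have h3 : κ / n ≤ nsq (y0 p w) := hw1'.trans (nsq_y0_ge_first hn w)
    calc (ε * κ) / n = ε * (κ / n) := by ring
      _ ≤ _ := by gcongr)
  refine h1.trans ((measure_union_le _ _).trans ?_)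
  have h2 := small_ball m.haarU m.unif hn hκ0
  have h3 := unif_markov m.unif hn hlK (s := ε * κ) (by positivity)
  have h4 : (∑ k, lamK n p T k) / (ε * κ) ≤ δ / 2 := by
    calc (∑ k, lamK n p T k) / (ε * κ) ≤ ((T : ℝ) ^ (1 - p) / (p - 1)) / (ε * κ) := by
          have := sum_lamK_le (n := n) hp hT2
          gcongr
      _ = (T : ℝ) ^ (-(p - 1)) / ((p - 1) * (ε * κ)) := by
          rw [div_div]; congr 2; ring
      _ ≤ δ / 2 := hT1.le
  calc Measure.map m.z P E1 + Measure.map m.z P E2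
      ≤ ENNReal.ofReal (8 * Real.exp 1 * κ) + ENNReal.ofReal (δ / 2) :=
        add_le_add h2 (h3.trans (ENNReal.ofReal_le_ofReal h4))
    _ = ENNReal.ofReal δ := by
        rw [← ENNReal.ofReal_add (by positivity) (by positivity)]
        congr 1
        rw [hκ]; field_simp; norm_num

/-- CG needs at least one step -/
lemma Model.one_le_tcg (m : Model n p P) {ε : ℝ} (hε1 : ε < 1) (ω : Ω) : 1 ≤ m.Tcg ε ω := by
  by_contra h
  rw [not_le, ENat.lt_one_iff_eq_zero] at h
  have h0 : m.Tcg ε ω ≤ ((0 : ℕ) : ℕ∞) := by rw [h]; rfl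
  obtain ⟨q, hq1, hq2, hq3⟩ := (m.tcg_le_iff ε ω 0).mp h0
  have hq : q = 1 := by
    rw [eq_C_of_natDegree_le_zero hq1] at hq2 ⊢
    simp only [eval_C] at hq2
    rw [hq2, C_1]
  rw [hq, En_one] at hq3
  have hpos := nsq_y0_pos (p := p) (nsq_adj m ω)
  nlinarith

/-- RCD needs at least one step -/
lemma Model.one_le_trcd (m : Model n p P) {ε : ℝ} (hε1 : ε < 1) (ω : Ω) : 1 ≤ m.Trcd ε ω := by
  by_contra h
  rw [not_le, ENat.lt_one_iff_eq_zero] at h
  have h0 : m.Trcd ε ω ≤ ((0 : ℕ) : ℕ∞) := by rw [h]; rfl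
  have h1 := m.cond_of_trcd_le h0
  simp only [runN] at h1
  have hpos := nsq_y0_pos (p := p) (nsq_adj m ω)
  nlinarith

end final

end Pool.Agent.Hhelper29.CG
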