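import Pool.Agent.Hhelper29.CG.CgOneLower

/-!
Deterministic part of the CG lower bound for `p < 1`.
-/

namespace Pool.Agent.Hhelper29.CG

open MeasureTheory Matrix ProbabilityTheory Polynomial Filter
open scoped ENNReal Classical Topology

variable {n : ℕ}

/-- the polynomial `q` dominates a low degree polynomial on the bulk -/
lemma cg_taylor {p : ℝ} (hp0 : 0 < p) (hp1 : p ≤ 1) {n t ℓ : ℕ} {w : Fin n → ℂ} {E Mq x₁ ι : ℝ}
    {q : ℝ[X]} (hn : 0 < n)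
    (hgood : ∀ u, u + ℓ ≤ n → ∃ k, u ≤ k ∧ k < u + ℓ ∧ c0 / n ≤ wn w k)
    (hq : q.natDegree ≤ t) (hq0 : q.eval 0 = 1) (hE : En p w q ≤ E)
    (hℓ : 1 ≤ ℓ) (ht : 1 ≤ t) (htlog : Real.log n ≤ t) (htn : t ≤ n) (hx0 : 0 < x₁)
    (hcond : 2 * (144 * ((cD p * t : ℕ) : ℝ) ^ 2 *
      (((48 * (cD p * t) * ℓ : ℕ) : ℝ) + 1) ^ p) ^ (1 / p) ≤ n)
    (hM : 272 * cD p * (ℓ * E / (c0 / n)) *
      (2 * lam p (48 * (cD p * t) * ℓ) / (t : ℝ) ^ 2) ^ (1 / p - 1) ≤ Mq ^ 2) (hMq : 0 < Mq)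
    (hx1 : 2 * ((cD p * t : ℕ) : ℝ) ^ 2 * (((48 * (cD p * t) * ℓ : ℕ) : ℝ) + 1) ^ p / x₁ ^ p ≤ 1 / 2)
    (d : ℕ)
    (hx2 : 2 * Mq * (2 * ((cD p * t : ℕ) : ℝ) ^ 2 *
      (((48 * (cD p * t) * ℓ : ℕ) : ℝ) + 1) ^ p / x₁ ^ p) ^ (d + 1) ≤ ι) :
    ∃ F : ℝ[X], F.eval 0 = 1 ∧ ∀ k : ℕ, x₁ ≤ (k : ℝ) + 1 →
      |F.eval (lam p k)| ≤ |q.eval (lam p k)| ∧
      |F.eval (lam p k) - ∑ j ∈ Finset.range (d + 1), F.coeff j * (lam p k) ^ j| ≤ ι := by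
  set D : ℕ := cD p * t with hD
  set κ : ℕ := 48 * D * ℓ with hκ
  have hD1 : 1 ≤ D := by
    rw [hD]; exact Nat.one_le_iff_ne_zero.mpr (Nat.mul_ne_zero (by have := one_le_cD p; omega) (by omega))
  have hD1' : (1:ℝ) ≤ D := by exact_mod_cast hD1
  have hD2 : (1:ℝ) ≤ (D : ℝ) ^ 2 := one_le_pow₀ hD1'
  have hκ0 : (0:ℝ) < (κ : ℝ) + 1 := by positivity
  have hκp : 0 < ((κ : ℝ) + 1) ^ p := Real.rpow_pos_of_pos hκ0 p
  have hn0 : (0:ℝ) < n := by exact_mod_cast hn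
  have hE0 : 0 ≤ E := by
    refine le_trans ?_ hE
    unfold En
    apply Finset.sum_nonneg
    intro k _
    have := lam_pos p k
    positivity
  have hκn : 2 * κ ≤ n := by
    have h1 : (κ : ℝ) + 1 ≤ (144 * (D : ℝ) ^ 2 * ((κ : ℝ) + 1) ^ p) ^ (1 / p) := by
      have h2 : ((κ : ℝ) + 1) ^ p ≤ 144 * (D : ℝ) ^ 2 * ((κ : ℝ) + 1) ^ p := by
        nlinarith
      calc (κ : ℝ) + 1 = (((κ : ℝ) + 1) ^ p) ^ (1 / p) := by
            rw [← Real.rpow_mul hκ0.le]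
            have : p * (1 / p) = 1 := by field_simp
            rw [this, Real.rpow_one]
        _ ≤ _ := Real.rpow_le_rpow hκp.le h2 (by positivity)
    have h3 : 2 * (κ : ℝ) ≤ n := by linarith
    exact_mod_cast h3
  obtain ⟨F, hF1, hF2, hF3, hF4⟩ := core (μ := wn w) hp0 hp1 (wn_nonneg w)
    (div_pos c0_pos hn0) hgood (by rw [← En_eq_range]; exact hE) hE0 hq hq0 hℓ ht htlog htn le_rfl
    hcond hκn
  have ha0 := lam_pos p κ
  have hF5 : ∀ x ∈ Set.Icc (0:ℝ) (lam p κ), |F.eval x| ≤ Mq := by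
    intro x hx
    have h2 : (F.eval x) ^ 2 ≤ Mq ^ 2 := (hF4 x hx).trans hM
    exact abs_le_of_sq_le_sq h2 hMq.le
  have hc := coeff_bound F D hF1 Mq (lam p κ) ha0 hMq hF5
  have hla : lam p κ = (((κ : ℝ) + 1) ^ p)⁻¹ := by unfold lam; rw [Real.rpow_neg hκ0.le]
  have hA : 2 * (D : ℝ) ^ 2 / lam p κ = 2 * (D : ℝ) ^ 2 * ((κ : ℝ) + 1) ^ p := by
    rw [hla, div_inv_eq_mul]
  rw [hA] at hc
  set A : ℝ := 2 * (D : ℝ) ^ 2 * ((κ : ℝ) + 1) ^ p with hAdef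
  have hA0 : 0 < A := by positivity
  have hx1p : 0 < x₁ ^ p := Real.rpow_pos_of_pos hx0 p
  refine ⟨F, hF2, fun k hk => ?_⟩
  have hk0 : (0:ℝ) < (k : ℝ) + 1 := by positivity
  have hlk := lam_pos p k
  have hlk1 : lam p k ≤ (x₁ ^ p)⁻¹ := by
    unfold lam
    rw [← Real.rpow_neg hx0.le]
    exact Real.rpow_le_rpow_of_nonpos hx0 hk (by linarith)
  have hAk : A * lam p k ≤ A / x₁ ^ p := by
    rw [div_eq_mul_inv]; gcongr
  have hAk2 : A * lam p k ≤ 1 / 2 := hAk.trans hx1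
  have hκA : ((κ : ℝ) + 1) ^ p ≤ A := by rw [hAdef]; nlinarith
  have hmem : lam p k ≤ lam p κ := by
    rw [hla]
    refine hlk1.trans ?_
    apply inv_anti₀ hκp
    rw [div_le_iff₀ hx1p] at hx1
    nlinarith
  refine ⟨hF3 _ ⟨hlk.le, hmem⟩, ?_⟩
  have htail := coeff_tail hMq.le hA0.le hc hlk.le hAk2 d
  refine htail.trans (le_trans ?_ hx2)
  have : 0 ≤ A * lam p k := by positivity
  gcongr

/-- the quadratic form estimate -/
lemma form_lower {p ζ γ : ℝ} (hp0 : 0 < p) (hζ0 : 0 ≤ ζ) (hγ : p * γ = 1 - p + ζ)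
    {D : ℕ} (hγD : 2 * (D : ℝ) < γ) {κ₀ : ℝ} (hκ₀ : 0 < κ₀)
    (hpos : ∀ c : ℕ → ℝ, κ₀ * ∑ i ∈ Finset.range (D + 1), c i ^ 2 ≤ Qf γ D c)
    {ι : ℝ} (hι : 0 ≤ ι) (hι1 : ι ≤ 1) (hικ : 0 ≤ 1 - ι - 2 * ι * p * (D + 1) / κ₀) {n : ℕ}
    (hn : 0 < n)
    {w : Fin n → ℂ}
    (hm : ∀ r < 2 * D + 1, |mom n (p * (r + 1) - ζ) w - 1 / (1 - (p * (r + 1) - ζ))| ≤ ι)
    {K : ℕ} (hK : momK n (p * ((2 * D : ℕ) + 1) - ζ) K w ≤ ι)
    {q : ℝ[X]} {c : ℕ → ℝ} (hc0 : c 0 = 1)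
    (hq : ∀ k : ℕ, K ≤ k → k < n →
      |∑ j ∈ Finset.range (D + 1), c j * sx n k ^ (-(p * j))| - ι ≤ |q.eval (lam p k)|) :
    (1 - ι - 2 * ι * p * (D + 1) / κ₀) * (Vst γ D / p) - ι * (1 / (1 - p + ζ) + 1)
      ≤ (n : ℝ) ^ p * En p w q := by
  have hn0 : (0:ℝ) < n := by exact_mod_cast hn
  set T : ℕ → ℝ := fun k => ∑ j ∈ Finset.range (D + 1), c j * sx n k ^ (-(p * j)) with hT
  set S : ℝ := ∑ i ∈ Finset.range (D + 1), c i ^ 2 with hS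
  have hS0 : 0 ≤ S := Finset.sum_nonneg fun i _ => sq_nonneg _
  have hQ := hpos c
  have hQV := Qf_ge hγD hc0
  have hV := Vst_pos hγD
  have hfc := (abs_le.mp (form_close hγ hι hm c)).1
  rw [← energy_mom hn p ζ D c w] at hfc
  -- pointwise estimate
  have hpt : ∀ k : Fin n, (1 - ι) * (sx n k ^ (-(p - ζ)) * (T k) ^ 2 * ‖w k‖ ^ 2)
      - (D + 1) * S * ((if (k : ℕ) < K then sx n k ^ (-(p * ((2 * D : ℕ) + 1) - ζ)) else 0) * ‖w k‖ ^ 2)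
      - ι * (sx n k ^ (-(p - ζ)) * ‖w k‖ ^ 2)
      ≤ (n : ℝ) ^ p * (lam p k * (q.eval (lam p k)) ^ 2 * ‖w k‖ ^ 2) := by
    intro k
    have hs := sx_pos hn k
    have hs1 := sx_le_one k.2
    have hsz : 0 < sx n k ^ (-(p - ζ)) := Real.rpow_pos_of_pos hs _
    have hw0 : 0 ≤ ‖w k‖ ^ 2 := by positivity
    have hnl : (n : ℝ) ^ p * lam p k = sx n k ^ (-p) := by
      rw [lam_eq_sx hn, ← mul_assoc, ← Real.rpow_add hn0]; simp
    have hsp : sx n k ^ (-(p - ζ)) ≤ sx n k ^ (-p) :=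
      Real.rpow_le_rpow_of_exponent_ge hs hs1 (by linarith)
    have hrhs : (n : ℝ) ^ p * (lam p k * (q.eval (lam p k)) ^ 2 * ‖w k‖ ^ 2)
        = sx n k ^ (-p) * ((q.eval (lam p k)) ^ 2 * ‖w k‖ ^ 2) := by
      rw [← hnl]; ring
    rw [hrhs]
    by_cases hk : (k : ℕ) < K
    · rw [if_pos hk]
      have hT2 : (T k) ^ 2 ≤ S * ((D + 1) * sx n k ^ (-(2 * p * D))) := by
        have h1 : (T k) ^ 2 ≤ (∑ j ∈ Finset.range (D + 1), c j ^ 2) *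
            (∑ j ∈ Finset.range (D + 1), (sx n k ^ (-(p * j))) ^ 2) :=
          Finset.sum_mul_sq_le_sq_mul_sq _ _ _
        refine h1.trans ?_
        apply mul_le_mul_of_nonneg_left _ hS0
        calc ∑ j ∈ Finset.range (D + 1), (sx n k ^ (-(p * j))) ^ 2
            ≤ ∑ _j ∈ Finset.range (D + 1), sx n k ^ (-(2 * p * D)) := by
              apply Finset.sum_le_sum
              intro j hj
              have hj' : (j : ℝ) ≤ D := by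
                exact_mod_cast Nat.lt_succ_iff.mp (Finset.mem_range.mp hj)
              rw [← Real.rpow_natCast, ← Real.rpow_mul hs.le]
              apply Real.rpow_le_rpow_of_exponent_ge hs hs1
              push_cast
              nlinarith
          _ = (D + 1) * sx n k ^ (-(2 * p * D)) := by
              rw [Finset.sum_const, Finset.card_range, nsmul_eq_mul]; push_cast; ring
      have h2 : sx n k ^ (-(p * ((2 * D : ℕ) + 1) - ζ)) = sx n k ^ (-(p - ζ)) * sx n k ^ (-(2 * p * D)) := by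
        rw [← Real.rpow_add hs]; congr 1; push_cast; ring
      have h3 : (1 - ι) * (sx n k ^ (-(p - ζ)) * (T k) ^ 2 * ‖w k‖ ^ 2)
          ≤ (D + 1) * S * (sx n k ^ (-(p * ((2 * D : ℕ) + 1) - ζ)) * ‖w k‖ ^ 2) := by
        rw [h2]
        calc (1 - ι) * (sx n k ^ (-(p - ζ)) * (T k) ^ 2 * ‖w k‖ ^ 2)
            ≤ 1 * (sx n k ^ (-(p - ζ)) * (T k) ^ 2 * ‖w k‖ ^ 2) := by gcongr; linarith
          _ = (sx n k ^ (-(p - ζ)) * ‖w k‖ ^ 2) * (T k) ^ 2 := by ring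
          _ ≤ (sx n k ^ (-(p - ζ)) * ‖w k‖ ^ 2) * (S * ((D + 1) * sx n k ^ (-(2 * p * D)))) := by
              gcongr
          _ = _ := by ring
      have h4 : 0 ≤ ι * (sx n k ^ (-(p - ζ)) * ‖w k‖ ^ 2) := by positivity
      have h5 : 0 ≤ sx n k ^ (-p) * ((q.eval (lam p k)) ^ 2 * ‖w k‖ ^ 2) := by positivity
      linarith
    · rw [if_neg hk, zero_mul, mul_zero, sub_zero]
      have h1 := hq k (not_lt.mp hk) k.2
      have h2 : (1 - ι) * (T k) ^ 2 - ι ≤ (q.eval (lam p k)) ^ 2 := by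
        rcases le_or_gt ι |T k| with h | h
        · have h3 : (|T k| - ι) ^ 2 ≤ |q.eval (lam p k)| ^ 2 :=
            pow_le_pow_left₀ (by linarith) h1 2
          rw [sq_abs] at h3
          have h4 : (|T k| - ι) ^ 2 = (T k) ^ 2 - 2 * ι * |T k| + ι ^ 2 := by
            rw [← sq_abs (T k)]; ring
          have h5 : 2 * |T k| ≤ (T k) ^ 2 + 1 := by
            rw [← sq_abs (T k)]; nlinarith [sq_nonneg (|T k| - 1)]
          have h6 : ι * (2 * |T k|) ≤ ι * ((T k) ^ 2 + 1) := by gcongr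
          nlinarith [sq_nonneg ι]
        · have h3 : (T k) ^ 2 ≤ ι ^ 2 := by
            rw [← sq_abs (T k)]; exact pow_le_pow_left₀ (abs_nonneg _) h.le 2
          have h4 : ι ^ 2 ≤ ι := by nlinarith
          have h5 : (1 - ι) * (T k) ^ 2 ≤ 1 * (T k) ^ 2 := by
            apply mul_le_mul_of_nonneg_right _ (sq_nonneg _); linarith
          have := sq_nonneg (q.eval (lam p k))
          linarith
      calc (1 - ι) * (sx n k ^ (-(p - ζ)) * (T k) ^ 2 * ‖w k‖ ^ 2)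
            - ι * (sx n k ^ (-(p - ζ)) * ‖w k‖ ^ 2)
          = sx n k ^ (-(p - ζ)) * (((1 - ι) * (T k) ^ 2 - ι) * ‖w k‖ ^ 2) := by ring
        _ ≤ sx n k ^ (-(p - ζ)) * ((q.eval (lam p k)) ^ 2 * ‖w k‖ ^ 2) := by gcongr
        _ ≤ sx n k ^ (-p) * ((q.eval (lam p k)) ^ 2 * ‖w k‖ ^ 2) := by gcongr
  have hsum := Finset.sum_le_sum (fun k (_ : k ∈ (Finset.univ : Finset (Fin n))) => hpt k)
  rw [Finset.sum_sub_distrib, Finset.sum_sub_distrib, ← Finset.mul_sum, ← Finset.mul_sum,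
    ← Finset.mul_sum, ← Finset.mul_sum] at hsum
  have hEn : ∑ k : Fin n, lam p k * (q.eval (lam p k)) ^ 2 * ‖w k‖ ^ 2 = En p w q := rfl
  rw [hEn] at hsum
  have hmK : ∑ k : Fin n, (if (k : ℕ) < K then sx n k ^ (-(p * ((2 * D : ℕ) + 1) - ζ)) else 0) * ‖w k‖ ^ 2
      = momK n (p * ((2 * D : ℕ) + 1) - ζ) K w := rfl
  rw [hmK] at hsum
  have hm0 : ∑ k : Fin n, sx n k ^ (-(p - ζ)) * ‖w k‖ ^ 2 = mom n (p - ζ) w := rfl
  rw [hm0] at hsum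
  have hmom0 : mom n (p - ζ) w ≤ 1 / (1 - p + ζ) + 1 := by
    have h1 := (abs_le.mp (hm 0 (by omega))).2
    have e1 : p * (((0 : ℕ) : ℝ) + 1) - ζ = p - ζ := by push_cast; ring
    have e2 : 1 - (p - ζ) = 1 - p + ζ := by ring
    rw [e1, e2] at h1
    linarith
  set S0 : ℝ := ∑ k : Fin n, sx n k ^ (-(p - ζ)) * (T k) ^ 2 * ‖w k‖ ^ 2 with hS0
  have h1 : (D + 1) * S * momK n (p * ((2 * D : ℕ) + 1) - ζ) K w ≤ (D + 1) * S * ι := by gcongr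
  have h2 : ι * mom n (p - ζ) w ≤ ι * (1 / (1 - p + ζ) + 1) := by gcongr
  have h3 : Qf γ D c / p - ι * ((D + 1) * S) ≤ S0 := by linarith
  have h4 : 0 ≤ 1 - ι := by linarith
  have h5 : (1 - ι) * (Qf γ D c / p - ι * ((D + 1) * S)) ≤ (1 - ι) * S0 :=
    mul_le_mul_of_nonneg_left h3 h4
  have h6 : ι * ((D + 1) * S) ≤ ι * p * (D + 1) / κ₀ * (Qf γ D c / p) := by
    have h7 : S ≤ Qf γ D c / κ₀ := by rw [le_div_iff₀ hκ₀]; linarith
    calc ι * ((D + 1) * S) ≤ ι * ((D + 1) * (Qf γ D c / κ₀)) := by gcongr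
      _ = ι * p * (D + 1) / κ₀ * (Qf γ D c / p) := by field_simp
  have h7 : (1 - ι - 2 * ι * p * (D + 1) / κ₀) * (Vst γ D / p) ≤
      (1 - ι - 2 * ι * p * (D + 1) / κ₀) * (Qf γ D c / p) := by gcongr
  have h8 : (1 - ι - 2 * ι * p * (D + 1) / κ₀) * (Qf γ D c / p)
      = (1 - ι) * (Qf γ D c / p) - 2 * (ι * p * (D + 1) / κ₀ * (Qf γ D c / p)) := by ring
  have h9 : (1 - ι) * (Qf γ D c / p - ι * ((D + 1) * S))
      = (1 - ι) * (Qf γ D c / p) - (1 - ι) * (ι * ((D + 1) * S)) := by ring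
  have h10 : 0 ≤ ι * ((D + 1) * S) := by positivity
  have h11 : (1 - ι) * (ι * ((D + 1) * S)) ≤ ι * ((D + 1) * S) := by nlinarith
  have h12 : (D + 1) * S * ι = ι * ((D + 1) * S) := by ring
  rw [h12] at h1
  linarith

end Pool.Agent.Hhelper29.CG
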