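import Pool.Agent.Hhelper29.CG.GoodNodes

/-!
The lower bound for the CG stopping time at `p = 1`.
-/

namespace Pool.Agent.Hhelper29.CG

open MeasureTheory Matrix ProbabilityTheory Polynomial Filter
open scoped ENNReal Classical Topology

variable {n : ℕ}

/-- tail of a power series with geometric coefficient bounds -/
lemma coeff_tail {F : ℝ[X]} {M A x : ℝ} (hM : 0 ≤ M) (hA : 0 ≤ A)
    (hc : ∀ j, |F.coeff j| ≤ M * A ^ j) (hx : 0 ≤ x) (hAx : A * x ≤ 1 / 2) (d : ℕ) :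
    |F.eval x - ∑ j ∈ Finset.range (d + 1), F.coeff j * x ^ j| ≤ 2 * M * (A * x) ^ (d + 1) := by
  set N := max (F.natDegree + 1) (d + 1) with hN
  have h1 : F.eval x = ∑ j ∈ Finset.range N, F.coeff j * x ^ j :=
    eval_eq_sum_range' (lt_of_lt_of_le (Nat.lt_succ_self _) (le_max_left _ _)) x
  have h2 : ∑ j ∈ Finset.range N, F.coeff j * x ^ j
      = ∑ j ∈ Finset.range (d + 1), F.coeff j * x ^ j + ∑ j ∈ Finset.Ico (d + 1) N, F.coeff j * x ^ j := by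
    rw [Finset.range_eq_Ico, Finset.range_eq_Ico,
      Finset.sum_Ico_consecutive _ (Nat.zero_le _) (le_max_right _ _)]
  rw [h1, h2, add_sub_cancel_left]
  have h0 : 0 ≤ A * x := mul_nonneg hA hx
  calc |∑ j ∈ Finset.Ico (d + 1) N, F.coeff j * x ^ j|
      ≤ ∑ j ∈ Finset.Ico (d + 1) N, M * (A * x) ^ j := by
        refine (Finset.abs_sum_le_sum_abs _ _).trans (Finset.sum_le_sum fun j _ => ?_)
        rw [abs_mul, abs_of_nonneg (pow_nonneg hx j), mul_pow, ← mul_assoc]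
        gcongr
        exact hc j
    _ = M * ((A * x) ^ (d + 1) * ∑ i ∈ Finset.range (N - (d + 1)), (A * x) ^ i) := by
        rw [Finset.sum_Ico_eq_sum_range, Finset.mul_sum, Finset.mul_sum]
        apply Finset.sum_congr rfl
        intro i _
        rw [pow_add]
    _ ≤ M * ((A * x) ^ (d + 1) * 2) := by
        gcongr
        have h3 : ∑ i ∈ Finset.range (N - (d + 1)), (A * x) ^ i ≤
            ∑ i ∈ Finset.range (N - (d + 1)), (1 / 2 : ℝ) ^ i := by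
          apply Finset.sum_le_sum
          intro i _
          exact pow_le_pow_left₀ h0 hAx i
        refine h3.trans ?_
        have h4 := Summable.sum_le_tsum (f := fun i : ℕ => (1 / 2 : ℝ) ^ i)
          (Finset.range (N - (d + 1))) (fun i _ => by positivity) summable_geometric_two
        rw [tsum_geometric_two] at h4
        exact h4
    _ = _ := by ring

lemma polylog_le (C : ℝ) (k : ℕ) {δ : ℝ} (hδ : 0 < δ) :
    ∀ᶠ n : ℕ in atTop, C * (Real.log n) ^ k ≤ (n : ℝ) ^ δ := by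
  have hδ' : 0 < δ / (k + 1) := by positivity
  have h1 : ∀ᶠ x : ℝ in atTop, |Real.log x| ≤ 1 * |x ^ (δ / (k + 1))| :=
    (isLittleO_log_rpow_atTop hδ').bound one_pos
  have h2 : ∀ᶠ n : ℕ in atTop, |Real.log (n : ℝ)| ≤ 1 * |(n : ℝ) ^ (δ / (k + 1))| :=
    tendsto_natCast_atTop_atTop.eventually h1
  have h3 : ∀ᶠ n : ℕ in atTop, |C| ≤ (n : ℝ) ^ (δ / (k + 1)) :=
    ((tendsto_rpow_atTop hδ').comp tendsto_natCast_atTop_atTop).eventually_ge_atTop |C|
  filter_upwards [h2, h3, eventually_gt_atTop 0] with n hn2 hn3 hn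
  have hn0 : (0:ℝ) < n := by exact_mod_cast hn
  have hp : 0 ≤ (n : ℝ) ^ (δ / (k + 1)) := Real.rpow_nonneg hn0.le _
  rw [one_mul, abs_of_nonneg hp] at hn2
  calc C * (Real.log n) ^ k ≤ |C| * |Real.log n| ^ k := by
        calc C * (Real.log n) ^ k ≤ |C * (Real.log n) ^ k| := le_abs_self _
          _ = _ := by rw [abs_mul, abs_pow]
    _ ≤ (n : ℝ) ^ (δ / (k + 1)) * ((n : ℝ) ^ (δ / (k + 1))) ^ k := by gcongr
    _ = (n : ℝ) ^ δ := by
        rw [← pow_succ', ← Real.rpow_natCast, ← Real.rpow_mul hn0.le]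
        congr 1
        push_cast
        field_simp

/-- cone events `0 ≤ wsq c w` under the uniform law -/
lemma unif_cone_dev_le {μ : Measure (Matrix (Fin n) (Fin n) ℂ)} {σ : Measure (Fin n → ℂ)}
    (hμ : IsHaarU μ) (hσ : IsUnif σ) (hn : 0 < n) (c : Fin n → ℝ) {θ : ℝ} (hθ : 0 ≤ θ)
    (hθc : ∀ k, θ * |c k| ≤ 1 / 2) :
    σ {w | 0 ≤ wsq c w} ≤
      ENNReal.ofReal (Real.exp (θ * (∑ k, c k) + 2 * θ ^ 2 * (∑ k, c k ^ 2))) := by
  have hE : MeasurableSet {w : Fin n → ℂ | 0 ≤ wsq c w} :=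
    measurableSet_le measurable_const (measurable_wsq c)
  rw [cone_prob hμ hσ hE (by
    intro x r hr
    show 0 ≤ wsq c ((r : ℂ) • x) ↔ 0 ≤ wsq c x
    rw [wsq_smul]
    constructor
    · intro h; exact nonneg_of_mul_nonneg_right h (by positivity)
    · intro h; positivity) hn]
  exact (gam_dev c hθ hθc 0).trans (le_of_eq (by simp))

/-- deterministic part of the lower bound at `p = 1` -/
lemma cg_one_det {n t ℓ : ℕ} {w : Fin n → ℂ} {E Mq x₁ ι : ℝ} {q : ℝ[X]} (hn : 0 < n)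
    (hgood : ∀ u, u + ℓ ≤ n → ∃ k, u ≤ k ∧ k < u + ℓ ∧ c0 / n ≤ wn w k)
    (hq : q.natDegree ≤ t) (hq0 : q.eval 0 = 1) (hE : En 1 w q ≤ E)
    (hℓ : 1 ≤ ℓ) (ht : 1 ≤ t) (htlog : Real.log n ≤ t) (htn : t ≤ n)
    (hM : 272 * cD 1 * (ℓ * E / (c0 / n)) ≤ Mq ^ 2) (hMq : 0 < Mq) (hι1 : ι ≤ 1)
    (hx1 : 2 * ((cD 1 * t : ℕ) : ℝ) ^ 2 * (((48 * (cD 1 * t) * ℓ : ℕ) : ℝ) + 1) ≤ x₁ / 144)
    (hx2 : 2 * Mq * (2 * ((cD 1 * t : ℕ) : ℝ) ^ 2 * (((48 * (cD 1 * t) * ℓ : ℕ) : ℝ) + 1)) ≤ ι * x₁)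
    (hx3 : x₁ ≤ n) {k : ℕ} (hk : x₁ ≤ (k : ℝ) + 1) :
    (1 - ι) ^ 2 ≤ (q.eval (lam 1 k)) ^ 2 := by
  set D : ℕ := cD 1 * t with hD
  set κ : ℕ := 48 * D * ℓ with hκ
  set W : ℝ := 2 * (D : ℝ) ^ 2 * ((κ : ℝ) + 1) with hW
  have hD1 : 1 ≤ D := by
    rw [hD]; exact Nat.one_le_iff_ne_zero.mpr (Nat.mul_ne_zero (by have := one_le_cD 1; omega) (by omega))
  have hD1' : (1:ℝ) ≤ D := by exact_mod_cast hD1
  have hκ0 : (0:ℝ) ≤ κ := Nat.cast_nonneg κ
  have hκW : (κ : ℝ) + 1 ≤ W := by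
    have hD2 : (1:ℝ) ≤ (D : ℝ) ^ 2 := one_le_pow₀ hD1'
    rw [hW]; nlinarith
  have hW0 : 0 < W := by linarith
  have hn0 : (0:ℝ) < n := by exact_mod_cast hn
  have hx0 : 0 < x₁ := by linarith
  have hE0 : 0 ≤ E := by
    refine le_trans ?_ hE
    unfold En
    apply Finset.sum_nonneg
    intro k _
    have := lam_pos 1 k
    positivity
  have hcond : 2 * (144 * (D : ℝ) ^ 2 * ((κ : ℝ) + 1) ^ (1:ℝ)) ^ (1 / (1:ℝ)) ≤ n := by
    rw [Real.rpow_one, div_one, Real.rpow_one]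
    calc 2 * (144 * (D : ℝ) ^ 2 * ((κ : ℝ) + 1)) = 144 * W := by rw [hW]; ring
      _ ≤ 144 * (x₁ / 144) := by gcongr
      _ ≤ n := by linarith
  have hκn : 2 * κ ≤ n := by
    have h1 : 2 * (κ : ℝ) ≤ n := by linarith
    exact_mod_cast h1
  obtain ⟨F, hF1, hF2, hF3, hF4⟩ := core (μ := wn w) one_pos le_rfl (wn_nonneg w)
    (div_pos c0_pos hn0) hgood (by rw [← En_eq_range]; exact hE) hE0 hq hq0 hℓ ht htlog htn le_rfl
    hcond hκn
  have ha0 := lam_pos 1 κ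
  have hla : lam 1 κ = 1 / ((κ : ℝ) + 1) := lam_one κ
  have hF5 : ∀ x ∈ Set.Icc (0:ℝ) (lam 1 κ), |F.eval x| ≤ Mq := by
    intro x hx
    have h1 := hF4 x hx
    have e1 : (2 * lam 1 κ / (t : ℝ) ^ 2) ^ (1 / (1:ℝ) - 1) = 1 := by norm_num
    rw [e1, mul_one] at h1
    have h2 : (F.eval x) ^ 2 ≤ Mq ^ 2 := h1.trans hM
    exact abs_le_of_sq_le_sq h2 hMq.le
  have hc := coeff_bound F D hF1 Mq (lam 1 κ) ha0 hMq hF5
  have hA : 2 * (D : ℝ) ^ 2 / lam 1 κ = W := by rw [hla, hW]; field_simp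
  rw [hA] at hc
  have hlk := lam_pos 1 k
  have hlk1 : lam 1 k = 1 / ((k : ℝ) + 1) := lam_one k
  have hk0 : (0:ℝ) < (k : ℝ) + 1 := by positivity
  have hWk : W * lam 1 k ≤ 1 / 2 := by
    rw [hlk1, mul_one_div, div_le_iff₀ hk0]; linarith
  have htail := coeff_tail hMq.le hW0.le hc hlk.le hWk 0
  simp only [zero_add, Finset.sum_range_one, pow_zero, mul_one, pow_one] at htail
  rw [coeff_zero_eq_eval_zero, hF2] at htail
  have h1 : 2 * Mq * (W * lam 1 k) ≤ ι := by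
    rw [hlk1]
    have : 2 * Mq * (W * (1 / ((k : ℝ) + 1))) = (2 * Mq * W) / ((k : ℝ) + 1) := by ring
    rw [this, div_le_iff₀ hk0]
    have hι0 : 0 ≤ ι := by
      by_contra hc
      push Not at hc
      have : 0 < 2 * Mq * W := by positivity
      nlinarith
    calc 2 * Mq * W ≤ ι * x₁ := hx2
      _ ≤ ι * ((k : ℝ) + 1) := by gcongr
  have h2 := (abs_le.mp (htail.trans h1)).1
  have hmem : lam 1 k ∈ Set.Icc (0:ℝ) (lam 1 κ) := by
    refine ⟨hlk.le, ?_⟩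
    rw [hlk1, hla]
    apply one_div_le_one_div_of_le (by positivity)
    linarith
  have h3 := hF3 _ hmem
  have h4 : 1 - ι ≤ |q.eval (lam 1 k)| := by
    have h5 := le_abs_self (F.eval (lam 1 k))
    linarith
  rw [← sq_abs (q.eval (lam 1 k))]
  exact pow_le_pow_left₀ (by linarith) h4 2

lemma tau_one_le (hn : 0 < n) : ∑ k : Fin n, lam 1 k ≤ 1 + Real.log n := by
  rw [Fin.sum_univ_eq_sum_range (fun k : ℕ => lam 1 k) n, Finset.range_eq_Ico,
    ← Finset.sum_Ico_consecutive _ (Nat.zero_le 1) hn]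
  have h1 := sum_Ico_inv_le (le_refl 1) hn
  have h2 : ∑ k ∈ Finset.Ico 0 1, lam 1 k = 1 := by simp [lam]
  rw [h2]
  have h3 : ∑ k ∈ Finset.Ico 1 n, lam 1 k = ∑ k ∈ Finset.Ico 1 n, 1 / ((k : ℝ) + 1) := by
    apply Finset.sum_congr rfl; intro k _; exact lam_one k
  rw [h3]
  simp only [Nat.cast_one, div_one] at h1
  linarith

/-- probability estimate for the tail mass -/
lemma cg_one_prob_lower {μ : Measure (Matrix (Fin n) (Fin n) ℂ)} {σ : Measure (Fin n → ℂ)}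
    (hμ : IsHaarU μ) (hσ : IsUnif σ) (hn : 0 < n) {J : ℕ} (hJn : J ≤ n) {ε b : ℝ}
    (hε0 : 0 ≤ ε) (hε1 : ε ≤ 1) (hb0 : 0 ≤ b) (hb1 : b ≤ 1) :
    σ {w | b * ∑ k : Fin n, (if J ≤ (k : ℕ) then 1 else 0) * lam 1 k * ‖w k‖ ^ 2 ≤ ε * nsq (y0 1 w)} ≤
      ENNReal.ofReal (Real.exp ((ε * (1 + Real.log n) - b * Real.log (((n : ℝ) + 1) / (J + 1))) / 2 + 1)) := by
  set c : Fin n → ℝ := fun k => ε * lam 1 k - b * ((if J ≤ (k : ℕ) then 1 else 0) * lam 1 k) with hc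
  have hset : {w : Fin n → ℂ | b * ∑ k : Fin n, (if J ≤ (k : ℕ) then 1 else 0) * lam 1 k * ‖w k‖ ^ 2 ≤ ε * nsq (y0 1 w)}
      = {w | 0 ≤ wsq c w} := by
    ext w
    show b * _ ≤ ε * nsq (y0 1 w) ↔ 0 ≤ wsq c w
    have : wsq c w = ε * nsq (y0 1 w) - b * ∑ k : Fin n, (if J ≤ (k : ℕ) then 1 else 0) * lam 1 k * ‖w k‖ ^ 2 := by
      rw [nsq_y0, wsq, Finset.mul_sum, Finset.mul_sum, ← Finset.sum_sub_distrib]
      apply Finset.sum_congr rfl
      intro k _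
      rw [hc]; ring
    rw [this, sub_nonneg]
  rw [hset]
  have hcabs : ∀ k, |c k| ≤ lam 1 k := by
    intro k
    have h1 := lam_pos 1 k
    rw [hc]; beta_reduce
    split_ifs
    · rw [one_mul, abs_le]; constructor <;> nlinarith
    · rw [zero_mul, mul_zero, sub_zero, abs_of_nonneg (by positivity)]; nlinarith
  have h1 := unif_cone_dev_le hμ hσ hn c (θ := 1 / 2) (by norm_num) (fun k => by
    have := (hcabs k).trans (lam_le_one zero_le_one k)
    linarith)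
  refine h1.trans (ENNReal.ofReal_le_ofReal (Real.exp_le_exp.mpr ?_))
  have h2 : ∑ k, c k ≤ ε * (1 + Real.log n) - b * Real.log (((n : ℝ) + 1) / (J + 1)) := by
    rw [hc, Finset.sum_sub_distrib, ← Finset.mul_sum, ← Finset.mul_sum]
    have h3 := tau_one_le hn
    have h4 : Real.log (((n : ℝ) + 1) / (J + 1)) ≤
        ∑ k : Fin n, (if J ≤ (k : ℕ) then (1:ℝ) else 0) * lam 1 k := by
      rw [Fin.sum_univ_eq_sum_range (fun k : ℕ => (if J ≤ k then (1:ℝ) else 0) * lam 1 k) n,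
        Finset.range_eq_Ico, ← Finset.sum_Ico_consecutive _ (Nat.zero_le J) hJn]
      have h2 : ∑ k ∈ Finset.Ico 0 J, (if J ≤ k then (1:ℝ) else 0) * lam 1 k = 0 := by
        apply Finset.sum_eq_zero
        intro k hk
        rw [Finset.mem_Ico] at hk
        rw [if_neg (by omega), zero_mul]
      rw [h2, zero_add]
      refine (le_sum_Ico_inv hJn).trans (le_of_eq ?_)
      apply Finset.sum_congr rfl
      intro k hk
      rw [Finset.mem_Ico] at hk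
      rw [if_pos hk.1, one_mul, lam_one]
    have h5 := mul_le_mul_of_nonneg_left h3 hε0
    have h6 := mul_le_mul_of_nonneg_left h4 hb0
    linarith
  have h3 : ∑ k, c k ^ 2 ≤ 2 := by
    refine le_trans ?_ (sum_lam_one_sq_le n)
    apply Finset.sum_le_sum
    intro k _
    rw [← sq_abs]
    exact pow_le_pow_left₀ (abs_nonneg _) (hcabs k) 2
  norm_num
  linarith

end Pool.Agent.Hhelper29.CG
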