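import Pool.Agent.Hhelper29.CG.CgUpper

/-!
The upper bound for the CG stopping time at `p = 1`.
-/

namespace Pool.Agent.Hhelper29.CG

open MeasureTheory Matrix ProbabilityTheory Polynomial Filter
open scoped ENNReal Classical Topology

variable {n : ℕ}

lemma lam_one (k : ℕ) : lam 1 k = 1 / ((k : ℝ) + 1) := by
  unfold lam
  rw [Real.rpow_neg_one, one_div]

lemma sum_lam_one_sq_le (n : ℕ) : ∑ k : Fin n, lam 1 k ^ 2 ≤ 2 := by
  have h := sum_range_rpow_le (show (1:ℝ) < 2 by norm_num) n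
  norm_num at h
  refine le_trans (le_of_eq ?_) h
  rw [Fin.sum_univ_eq_sum_range (fun k : ℕ => lam 1 k ^ 2) n]
  apply Finset.sum_congr rfl
  intro k _
  rw [lam_one, div_pow, one_pow, one_div]

/-- the polynomial and its energy -/
lemma cg_one_energy {n : ℕ} (w : Fin n → ℂ) {j J : ℕ} (hj : 1 ≤ j) {b : ℝ} (hb : 0 ≤ b)
    (hJ : (J : ℝ) ≤ (j : ℝ) ^ 3 * b) :
    En 1 w (killP 1 j * fej j (lam 1 j)) ≤
      b ^ 2 * nsq (y0 1 w) + ∑ k : Fin n, (if J ≤ (k : ℕ) then 1 else 0) * lam 1 k * ‖w k‖ ^ 2 := by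
  have hj0 : (0:ℝ) < j := by exact_mod_cast hj
  have hjn : j ≠ 0 := by omega
  set g : ℕ → ℝ := fun k => if J ≤ k then 1 else b with hg
  have key : ∀ k : ℕ, j ≤ k → k < n → |(fej j (lam 1 j)).eval (lam 1 k)| ≤ g k := by
    intro k hjk _
    rw [hg]; beta_reduce
    split_ifs with h
    · exact fej_abs_le_one hjn (lam_pos 1 j) (lam_pos 1 k).le (lam_antitone zero_le_one hjk)
    · refine (fej_abs_le hjn (lam_pos 1 j) (lam_pos 1 k) (lam_antitone zero_le_one hjk)).trans ?_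
      rw [lam_one, lam_one]
      have h1 : (k : ℝ) + 1 ≤ J := by
        have : k + 1 ≤ J := by omega
        exact_mod_cast this
      have hk : (0:ℝ) < (k : ℝ) + 1 := by positivity
      rw [div_le_iff₀ (by positivity), div_le_iff₀ (by positivity)]
      have h2 : (k : ℝ) + 1 ≤ (j : ℝ) ^ 3 * b := h1.trans hJ
      calc (1:ℝ) = ((k : ℝ) + 1) * (1 / ((k : ℝ) + 1)) := by field_simp
        _ ≤ ((j : ℝ) ^ 3 * b) * (1 / ((k : ℝ) + 1)) := by gcongr
        _ = (b * ((j : ℝ) ^ 2 * (1 / ((k : ℝ) + 1)))) * (j : ℝ) := by ring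
        _ ≤ (b * ((j : ℝ) ^ 2 * (1 / ((k : ℝ) + 1)))) * ((j : ℝ) + 1) := by
            gcongr; linarith
  refine (En_kill_mul_le zero_le_one w j _ g key).trans ?_
  rw [nsq_y0, Finset.mul_sum, ← Finset.sum_add_distrib]
  apply Finset.sum_le_sum
  intro k _
  have h5 : 0 ≤ lam 1 k * ‖w k‖ ^ 2 := mul_nonneg (lam_pos 1 k).le (by positivity)
  rw [hg]
  by_cases h1 : j ≤ (k : ℕ)
  · by_cases h2 : J ≤ (k : ℕ)
    · simp only [h1, h2, if_true]; nlinarith [sq_nonneg b]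
    · simp only [h1, h2, if_true, if_false]; nlinarith [sq_nonneg b]
  · simp only [h1, if_false]
    by_cases h2 : J ≤ (k : ℕ)
    · simp only [h2, if_true]; nlinarith [sq_nonneg b]
    · simp only [h2, if_false]; nlinarith [sq_nonneg b]

lemma sum_tail_one_le {n J : ℕ} (hJ : 1 ≤ J) {L : ℝ} (hL : 0 ≤ L)
    (h : J ≤ n → Real.log ((n : ℝ) / J) ≤ L) :
    ∑ k : Fin n, (if J ≤ (k : ℕ) then (1:ℝ) else 0) * lam 1 k ≤ L := by
  rw [Fin.sum_univ_eq_sum_range (fun k : ℕ => (if J ≤ k then (1:ℝ) else 0) * lam 1 k) n]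
  by_cases hJn : J ≤ n
  · rw [Finset.range_eq_Ico, ← Finset.sum_Ico_consecutive _ (Nat.zero_le J) hJn]
    have h2 : ∑ k ∈ Finset.Ico 0 J, (if J ≤ k then (1:ℝ) else 0) * lam 1 k = 0 := by
      apply Finset.sum_eq_zero
      intro k hk
      rw [Finset.mem_Ico] at hk
      rw [if_neg (by omega), zero_mul]
    rw [h2, zero_add]
    refine le_trans (le_of_eq ?_) ((sum_Ico_inv_le hJ hJn).trans (h hJn))
    apply Finset.sum_congr rfl
    intro k hk
    rw [Finset.mem_Ico] at hk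
    rw [if_pos hk.1, one_mul, lam_one]
  · refine le_trans (le_of_eq ?_) hL
    apply Finset.sum_eq_zero
    intro k hk
    rw [Finset.mem_range] at hk
    rw [if_neg (by omega), zero_mul]

lemma log_le_tau_one (n : ℕ) : Real.log ((n : ℝ) + 1) ≤ ∑ k : Fin n, lam 1 k := by
  rw [Fin.sum_univ_eq_sum_range (fun k : ℕ => lam 1 k) n]
  have h := le_sum_Ico_inv (Nat.zero_le n)
  simp only [Nat.cast_zero, zero_add, div_one] at h
  rw [Finset.range_eq_Ico]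
  refine h.trans (le_of_eq ?_)
  apply Finset.sum_congr rfl
  intro k _; rw [lam_one]

/-- the one dimensional probability estimate -/
lemma cg_one_prob {μ : Measure (Matrix (Fin n) (Fin n) ℂ)} {σ : Measure (Fin n → ℂ)}
    (hμ : IsHaarU μ) (hσ : IsUnif σ) (hn : 0 < n) {J : ℕ} (hJ : 1 ≤ J) {L ε' : ℝ} (hL : 0 ≤ L)
    (h : J ≤ n → Real.log ((n : ℝ) / J) ≤ L) (hε0 : 0 ≤ ε') (hε1 : ε' ≤ 1) :
    σ {w | ε' * nsq (y0 1 w) < ∑ k : Fin n, (if J ≤ (k : ℕ) then 1 else 0) * lam 1 k * ‖w k‖ ^ 2} ≤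
      ENNReal.ofReal (Real.exp ((L - ε' * Real.log ((n : ℝ) + 1)) / 2 + 1)) := by
  set c : Fin n → ℝ := fun k => (if J ≤ (k : ℕ) then 1 else 0) * lam 1 k - ε' * lam 1 k with hc
  have hset : {w : Fin n → ℂ | ε' * nsq (y0 1 w) < ∑ k : Fin n, (if J ≤ (k : ℕ) then 1 else 0) * lam 1 k * ‖w k‖ ^ 2}
      = {w | 0 < wsq c w} := by
    ext w
    show ε' * nsq (y0 1 w) < _ ↔ 0 < wsq c w
    have : wsq c w = (∑ k : Fin n, (if J ≤ (k : ℕ) then 1 else 0) * lam 1 k * ‖w k‖ ^ 2)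
        - ε' * nsq (y0 1 w) := by
      rw [nsq_y0, wsq, Finset.mul_sum, ← Finset.sum_sub_distrib]
      apply Finset.sum_congr rfl
      intro k _
      rw [hc]; ring
    rw [this, sub_pos]
  rw [hset]
  have hcabs : ∀ k, |c k| ≤ lam 1 k := by
    intro k
    have h1 := lam_pos 1 k
    rw [hc]; beta_reduce
    split_ifs
    · rw [one_mul, abs_of_nonneg (by nlinarith)]; nlinarith
    · rw [zero_mul, zero_sub, abs_neg, abs_of_nonneg (by positivity)]; nlinarith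
  have h1 := unif_cone_dev hμ hσ hn c (θ := 1 / 2) (by norm_num) (fun k => by
    have := (hcabs k).trans (lam_le_one zero_le_one k)
    linarith)
  refine h1.trans (ENNReal.ofReal_le_ofReal (Real.exp_le_exp.mpr ?_))
  have h2 : ∑ k, c k ≤ L - ε' * Real.log ((n : ℝ) + 1) := by
    rw [hc, Finset.sum_sub_distrib, ← Finset.mul_sum]
    have h3 := sum_tail_one_le hJ hL h
    have h4 := log_le_tau_one n
    have h5 := mul_le_mul_of_nonneg_left h4 hε0
    linarith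
  have h3 : ∑ k, c k ^ 2 ≤ 2 := by
    refine le_trans ?_ (sum_lam_one_sq_le n)
    apply Finset.sum_le_sum
    intro k _
    rw [← sq_abs]
    exact pow_le_pow_left₀ (abs_nonneg _) (hcabs k) 2
  norm_num
  linarith

/-- the upper bound for CG at `p = 1` -/
theorem cg_one_upper_aux {ε : ℝ} (hε1 : ε < 1) {δ : ℝ} (hδ : 0 < δ) (hδε : δ ≤ ε / 2)
    {η : ℝ} (hη : 0 < η) :
    ∃ n₀ : ℕ, ∀ n ≥ n₀, ∀ {Ω : Type*} [MeasurableSpace Ω] (P : Measure Ω) (m : Model n 1 P),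
      P {ω | ENNReal.ofReal ((n : ℝ) ^ ((1 - ε) / 3 + δ)) < (m.Tcg ε ω : ℝ≥0∞)} ≤
        ENNReal.ofReal η := by
  have e1 : ∀ᶠ n : ℕ in atTop, (4:ℝ) ≤ (n : ℝ) ^ ((1 - ε) / 3 + δ) :=
    ((tendsto_rpow_atTop (by linarith)).comp tendsto_natCast_atTop_atTop).eventually_ge_atTop 4
  have e2 : ∀ᶠ n : ℕ in atTop, (128:ℝ) ≤ (n : ℝ) ^ δ :=
    ((tendsto_rpow_atTop hδ).comp tendsto_natCast_atTop_atTop).eventually_ge_atTop 128
  have e3 : ∀ᶠ n : ℕ in atTop, (n : ℝ) ^ (-(2 * δ)) ≤ δ / 2 :=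
    (tendsto_natCast_rpow_neg (by linarith)).eventually_le_const (by linarith)
  have e4 : ∀ᶠ n : ℕ in atTop, Real.exp (-(δ / 4 * Real.log n) + 1) ≤ η := by
    have h1 : Tendsto (fun n : ℕ => δ / 4 * Real.log (n : ℝ)) atTop atTop :=
      (Real.tendsto_log_atTop.comp tendsto_natCast_atTop_atTop).const_mul_atTop (by linarith)
    have h2 : Tendsto (fun n : ℕ => Real.exp (-(δ / 4 * Real.log (n : ℝ))) * Real.exp 1) atTop (𝓝 (0 * Real.exp 1)) :=
      (Real.tendsto_exp_neg_atTop_nhds_zero.comp h1).mul_const _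
    rw [zero_mul] at h2
    filter_upwards [h2.eventually_le_const hη] with n hn
    rw [Real.exp_add]; exact hn
  obtain ⟨n₀, hn₀⟩ := eventually_atTop.mp (e1.and (e2.and (e3.and e4)))
  refine ⟨n₀, fun n hn Ω _ P m => ?_⟩
  obtain ⟨h1, h2, h3, h4⟩ := hn₀ n hn
  have hnpos := m.n_pos
  have hn1 : (1:ℝ) ≤ n := by exact_mod_cast hnpos
  have hn0 : (0:ℝ) < n := by linarith
  set s : ℝ := (n : ℝ) ^ ((1 - ε) / 3 + δ) with hs
  set T : ℕ := ⌊s⌋₊ with hT
  set j : ℕ := T / 2 with hj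
  have hTs : s - 1 < T := Nat.sub_one_lt_floor s
  have hjs : s / 4 ≤ j := by
    have h5 : T ≤ 2 * j + 1 := by omega
    have h6 : (T : ℝ) ≤ 2 * j + 1 := by exact_mod_cast h5
    linarith
  have hj1 : 1 ≤ j := by
    by_contra hc
    have : j = 0 := by omega
    rw [this] at hjs
    norm_num at hjs
    linarith
  set b : ℝ := (n : ℝ) ^ (-δ) with hb
  have hb0 : 0 < b := Real.rpow_pos_of_pos hn0 _
  set J : ℕ := ⌊(j : ℝ) ^ 3 * b⌋₊ with hJ
  have hJle : (J : ℝ) ≤ (j : ℝ) ^ 3 * b := Nat.floor_le (by positivity)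
  have hJge : (n : ℝ) ^ (1 - ε + δ) ≤ J := by
    have h5 : (j : ℝ) ^ 3 * b - 1 < J := Nat.sub_one_lt_floor _
    have h6 : (s / 4) ^ 3 * b ≤ (j : ℝ) ^ 3 * b := by gcongr
    have h7 : s ^ 3 * b = (n : ℝ) ^ δ * (n : ℝ) ^ (1 - ε + δ) := by
      rw [hs, hb, ← Real.rpow_natCast, ← Real.rpow_mul hn0.le, ← Real.rpow_add hn0,
        ← Real.rpow_add hn0]
      congr 1; push_cast; ring
    have h8 : 1 ≤ (n : ℝ) ^ (1 - ε + δ) := Real.one_le_rpow hn1 (by linarith)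
    have h9 : 2 * (n : ℝ) ^ (1 - ε + δ) ≤ (s / 4) ^ 3 * b := by
      have : (s / 4) ^ 3 * b = (s ^ 3 * b) / 64 := by ring
      rw [this, h7, le_div_iff₀ (by norm_num)]
      nlinarith
    linarith
  have hJ1 : 1 ≤ J := by
    have h8 : 1 ≤ (n : ℝ) ^ (1 - ε + δ) := Real.one_le_rpow hn1 (by linarith)
    exact_mod_cast h8.trans hJge
  have hb2 : b ^ 2 ≤ δ / 2 := by
    have : b ^ 2 = (n : ℝ) ^ (-(2 * δ)) := by
      rw [hb, ← Real.rpow_natCast, ← Real.rpow_mul hn0.le]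
      congr 1; push_cast; ring
    rw [this]; exact h3
  set L : ℝ := (ε - δ) * Real.log n with hL
  have hlog : 0 ≤ Real.log n := Real.log_nonneg hn1
  have hL0 : 0 ≤ L := mul_nonneg (by linarith) hlog
  have hLJ : J ≤ n → Real.log ((n : ℝ) / J) ≤ L := by
    intro _
    have hJ0 : (0:ℝ) < J := by exact_mod_cast hJ1
    have h5 : (n : ℝ) / J ≤ (n : ℝ) ^ (ε - δ) := by
      rw [div_le_iff₀ hJ0]
      calc (n : ℝ) = (n : ℝ) ^ (ε - δ) * (n : ℝ) ^ (1 - ε + δ) := by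
            rw [← Real.rpow_add hn0]
            conv_lhs => rw [← Real.rpow_one (n : ℝ)]
            congr 1; ring
        _ ≤ _ := by gcongr
    calc Real.log ((n : ℝ) / J) ≤ Real.log ((n : ℝ) ^ (ε - δ)) :=
          Real.log_le_log (by positivity) h5
      _ = L := by rw [Real.log_rpow hn0]
  set ε' : ℝ := ε - b ^ 2 with hε'
  have hε'0 : 0 ≤ ε' := by rw [hε']; linarith
  have hε'1 : ε' ≤ 1 := by rw [hε']; nlinarith [sq_nonneg b]
  set E : Set (Fin n → ℂ) := {w | ε' * nsq (y0 1 w) < ∑ k : Fin n, (if J ≤ (k : ℕ) then 1 else 0) * lam 1 k * ‖w k‖ ^ 2} with hE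
  have hmy : Measurable (fun w : Fin n → ℂ => nsq (y0 1 w)) := by
    have : (fun w : Fin n → ℂ => nsq (y0 1 w)) = fun w => ∑ k : Fin n, lam 1 k * ‖w k‖ ^ 2 := by
      funext w; exact nsq_y0 1 w
    rw [this]; fun_prop
  have hEm : MeasurableSet E := measurableSet_lt (hmy.const_mul _) (by fun_prop)
  have hP := m.prob_lt_tcg_le ε T hEm (by
    intro w _ hwE
    have hw : ∑ k : Fin n, (if J ≤ (k : ℕ) then 1 else 0) * lam 1 k * ‖w k‖ ^ 2
        ≤ ε' * nsq (y0 1 w) := not_lt.mp hwE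
    refine ⟨killP 1 j * fej j (lam 1 j), ?_, ?_, ?_⟩
    · refine (natDegree_mul_le' (killP_natDegree 1 j) (fej_natDegree j (lam 1 j))).trans ?_
      omega
    · rw [eval_mul, killP_zero, fej_zero (by omega), one_mul]
    · refine (cg_one_energy w hj1 hb0.le hJle).trans ?_
      calc _ ≤ b ^ 2 * nsq (y0 1 w) + ε' * nsq (y0 1 w) := by linarith
        _ = _ := by rw [hε']; ring)
  have hsub : {ω | ENNReal.ofReal s < (m.Tcg ε ω : ℝ≥0∞)} ⊆ {ω | (T : ℕ∞) < m.Tcg ε ω} := by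
    intro ω hω
    exact natCast_lt_of_ofReal_lt hω
  refine (measure_mono hsub).trans (hP.trans ?_)
  refine (cg_one_prob m.haarU m.unif hnpos hJ1 hL0 hLJ hε'0 hε'1).trans
    (ENNReal.ofReal_le_ofReal ?_)
  refine le_trans (Real.exp_le_exp.mpr ?_) h4
  have h5 : Real.log n ≤ Real.log ((n : ℝ) + 1) := Real.log_le_log hn0 (by linarith)
  have h6 : ε' * Real.log n ≤ ε' * Real.log ((n : ℝ) + 1) := mul_le_mul_of_nonneg_left h5 hε'0
  have h7 : b ^ 2 * Real.log n ≤ δ / 2 * Real.log n := by gcongr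
  have h8 : L - ε' * Real.log n = (b ^ 2 - δ) * Real.log n := by rw [hL, hε']; ring
  linarith

theorem cg_one_upper {ε : ℝ} (hε : 0 < ε) (hε1 : ε < 1) {δ : ℝ} (hδ : 0 < δ)
    {η : ℝ} (hη : 0 < η) :
    ∃ n₀ : ℕ, ∀ n ≥ n₀, ∀ {Ω : Type*} [MeasurableSpace Ω] (P : Measure Ω) (m : Model n 1 P),
      P {ω | ENNReal.ofReal ((n : ℝ) ^ ((1 - ε) / 3 + δ)) < (m.Tcg ε ω : ℝ≥0∞)} ≤
        ENNReal.ofReal η := by
  obtain ⟨n₀, h⟩ := cg_one_upper_aux hε1 (δ := min δ (ε / 2)) (by positivity) (min_le_right _ _) hη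
  refine ⟨n₀, fun n hn Ω _ P m => ?_⟩
  refine (measure_mono ?_).trans (h n hn P m)
  intro ω hω
  have hω' : ENNReal.ofReal ((n : ℝ) ^ ((1 - ε) / 3 + δ)) < (m.Tcg ε ω : ℝ≥0∞) := hω
  refine lt_of_le_of_lt (ENNReal.ofReal_le_ofReal ?_) hω'
  have hn1 : (1:ℝ) ≤ n := by exact_mod_cast m.n_pos
  apply Real.rpow_le_rpow_of_exponent_le hn1
  have := min_le_left δ (ε / 2)
  linarith

end Pool.Agent.Hhelper29.CG
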