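import Mathlib

/-!
The extremal problem `min ∑ c_i c_j / (γ - i - j)`, `c_0 = 1`, in closed form.
-/

namespace Pool.Agent.Hhelper29.CG

open Polynomial Finset

/-- the quadratic form -/
noncomputable def Qf (γ : ℝ) (D : ℕ) (c : ℕ → ℝ) : ℝ :=
  ∑ i ∈ range (D + 1), ∑ j ∈ range (D + 1), c i * c j / (γ - i - j)

/-- the bilinear form -/
noncomputable def Bf (γ : ℝ) (D : ℕ) (a c : ℕ → ℝ) : ℝ :=
  ∑ i ∈ range (D + 1), ∑ j ∈ range (D + 1), a i * c j / (γ - i - j)

/-- minimal value -/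
noncomputable def Vst (γ : ℝ) (D : ℕ) : ℝ := 1 / γ * ∏ i ∈ range D, (((i : ℝ) + 1) / (γ - (i + 1))) ^ 2

/-- coefficients of the minimiser -/
noncomputable def ast (γ : ℝ) (D : ℕ) (j : ℕ) : ℝ :=
  (∏ i ∈ range D, (((i : ℝ) + 1) / (γ - (i + 1)))) *
    ((∏ i ∈ range D, (γ - j - (i + 1))) / ∏ l ∈ (range (D + 1)).erase j, ((l : ℝ) - j))

lemma lagrange_pf (γ : ℝ) (D : ℕ) (z : ℝ) (hz : ∀ j ∈ range (D + 1), γ - j ≠ z) :
    ∑ j ∈ range (D + 1), ((∏ i ∈ range D, (γ - j - (i + 1))) /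
      ∏ l ∈ (range (D + 1)).erase j, ((l : ℝ) - j)) / (γ - j - z)
      = -(∏ i ∈ range D, (z - (i + 1))) / ∏ j ∈ range (D + 1), (z - (γ - j)) := by
  set N : ℝ[X] := ∏ i ∈ range D, (X - C ((i : ℝ) + 1)) with hN
  set v : ℕ → ℝ := fun j => γ - j with hv
  have hinj : Set.InjOn v (range (D + 1)) := by
    intro a _ b _ hab
    have : (a : ℝ) = b := by simp only [hv] at hab; linarith
    exact_mod_cast this
  have hdeg : N.degree < (#(range (D + 1)) : ℕ) := by
    rw [card_range, hN, degree_prod]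
    calc ∑ i ∈ range D, (X - C ((i : ℝ) + 1) : ℝ[X]).degree = ∑ i ∈ range D, 1 := by
          apply sum_congr rfl; intro i _; exact degree_X_sub_C _
      _ = ((D : ℕ) : WithBot ℕ) := by simp
      _ < ((D + 1 : ℕ) : WithBot ℕ) := by exact_mod_cast Nat.lt_succ_self D
  have h1 := Lagrange.eq_interpolate hinj hdeg
  have h2 : N.eval z = ∑ j ∈ range (D + 1), N.eval (v j) *
      ∏ l ∈ (range (D + 1)).erase j, ((z - v l) / (v j - v l)) := by
    conv_lhs => rw [h1]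
    rw [Lagrange.interpolate_apply, eval_finsetSum]
    apply sum_congr rfl
    intro j _
    rw [eval_mul, eval_C, Lagrange.basis]
    congr 1
    rw [eval_prod]
    apply prod_congr rfl
    intro l _
    simp only [Lagrange.basisDivisor, eval_mul, eval_C, eval_sub, eval_X]
    rw [mul_comm, div_eq_mul_inv]
  have hNz : ∀ x : ℝ, N.eval x = ∏ i ∈ range D, (x - (i + 1)) := by
    intro x; rw [hN, eval_prod]; apply prod_congr rfl; intro i _; simp
  have hP : ∏ j ∈ range (D + 1), (z - (γ - j)) ≠ 0 := by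
    rw [prod_ne_zero_iff]
    intro j hj h
    exact hz j hj (by linarith)
  rw [eq_div_iff hP, sum_mul]
  rw [← hNz z, h2, ← sum_neg_distrib]
  apply sum_congr rfl
  intro j hj
  have hj' : γ - j - z ≠ 0 := fun h => hz j hj (by linarith)
  rw [← mul_prod_erase _ _ hj, prod_div_distrib, hNz (v j)]
  have h3 : ∏ l ∈ (range (D + 1)).erase j, (v j - v l)
      = ∏ l ∈ (range (D + 1)).erase j, ((l : ℝ) - j) := by
    apply prod_congr rfl
    intro l _
    simp only [hv]; ring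
  rw [h3]
  have h4 : z - (γ - j) = -(γ - j - z) := by ring
  rw [h4]
  have h5 : ∏ l ∈ (range (D + 1)).erase j, ((l : ℝ) - j) ≠ 0 := by
    rw [prod_ne_zero_iff]
    intro l hl h
    rw [mem_erase] at hl
    have : (l : ℝ) = j := by linarith
    exact hl.1 (by exact_mod_cast this)
  simp only [hv]
  field_simp

lemma Vst_pos {γ : ℝ} {D : ℕ} (hγ : 2 * (D : ℝ) < γ) : 0 < Vst γ D := by
  have hD : (0:ℝ) ≤ D := Nat.cast_nonneg D
  unfold Vst
  apply mul_pos (by apply one_div_pos.mpr; linarith)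
  apply prod_pos
  intro i hi
  have h1 : (i : ℝ) + 1 ≤ D := by exact_mod_cast mem_range.mp hi
  have h2 : (0:ℝ) ≤ i := Nat.cast_nonneg i
  have : 0 < γ - (i + 1) := by linarith
  positivity

lemma ast_zero {γ : ℝ} {D : ℕ} (hγ : 2 * (D : ℝ) < γ) : ast γ D 0 = 1 := by
  unfold ast
  have h1 : ∏ l ∈ (range (D + 1)).erase 0, ((l : ℝ) - (0 : ℕ)) = ∏ i ∈ range D, ((i : ℝ) + 1) := by
    have : (range (D + 1)).erase 0 = (range D).image Nat.succ := by
      ext l
      simp only [mem_erase, mem_range, mem_image]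
      constructor
      · rintro ⟨h1, h2⟩
        exact ⟨l - 1, by omega, by omega⟩
      · rintro ⟨a, h1, h2⟩
        subst h2
        exact ⟨by omega, by omega⟩
    rw [this, prod_image (fun a _ b _ h => Nat.succ_injective h)]
    apply prod_congr rfl
    intro i _
    push_cast; ring
  rw [h1, ← prod_div_distrib, ← prod_mul_distrib]
  apply prod_eq_one
  intro i hi
  have hD : (i : ℝ) + 1 ≤ D := by exact_mod_cast mem_range.mp hi
  have h2 : (0:ℝ) ≤ i := Nat.cast_nonneg i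
  have h3 : 0 < γ - (i + 1) := by linarith
  have h4 : (γ - ((0:ℕ) : ℝ) - (i + 1)) = γ - (i + 1) := by push_cast; ring
  rw [h4]
  field_simp

lemma ast_orth {γ : ℝ} {D : ℕ} (hγ : 2 * (D : ℝ) < γ) {i : ℕ} (hi0 : 1 ≤ i) (hi : i ≤ D) :
    ∑ j ∈ range (D + 1), ast γ D j / (γ - i - j) = 0 := by
  have hiD : (i : ℝ) ≤ D := by exact_mod_cast hi
  have hz : ∀ j ∈ range (D + 1), γ - j ≠ (i : ℝ) := by
    intro j hj
    have h1 : (j : ℝ) ≤ D := by exact_mod_cast Nat.lt_succ_iff.mp (mem_range.mp hj)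
    intro h; linarith
  have h := lagrange_pf γ D i hz
  have h0 : ∏ l ∈ range D, ((i : ℝ) - (l + 1)) = 0 := by
    apply prod_eq_zero (i := i - 1) (mem_range.mpr (by omega))
    rw [Nat.cast_sub hi0]; push_cast; ring
  rw [h0, neg_zero, zero_div] at h
  have e1 : ∀ j ∈ range (D + 1), ast γ D j / (γ - i - j)
      = (∏ i ∈ range D, (((i : ℝ) + 1) / (γ - (i + 1)))) * (((∏ i ∈ range D, (γ - j - (i + 1))) /
      ∏ l ∈ (range (D + 1)).erase j, ((l : ℝ) - j)) / (γ - j - i)) := by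
    intro j _
    rw [ast, mul_div_assoc]
    congr 2; ring
  rw [sum_congr rfl e1, ← mul_sum, h, mul_zero]

lemma ast_val {γ : ℝ} {D : ℕ} (hγ : 2 * (D : ℝ) < γ) :
    ∑ j ∈ range (D + 1), ast γ D j / (γ - j) = Vst γ D := by
  have hD0 : (0:ℝ) ≤ D := Nat.cast_nonneg D
  have hz : ∀ j ∈ range (D + 1), γ - j ≠ (0 : ℝ) := by
    intro j hj
    have h1 : (j : ℝ) ≤ D := by exact_mod_cast Nat.lt_succ_iff.mp (mem_range.mp hj)
    intro h; linarith
  have h := lagrange_pf γ D 0 hz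
  have e1 : ∀ j ∈ range (D + 1), ast γ D j / (γ - j)
      = (∏ i ∈ range D, (((i : ℝ) + 1) / (γ - (i + 1)))) * (((∏ i ∈ range D, (γ - j - (i + 1))) /
      ∏ l ∈ (range (D + 1)).erase j, ((l : ℝ) - j)) / (γ - j - 0)) := by
    intro j _
    rw [ast, mul_div_assoc, sub_zero]
  rw [sum_congr rfl e1, ← mul_sum, h, Vst]
  have h1 : ∏ i ∈ range D, ((0:ℝ) - (i + 1)) = (-1) ^ D * ∏ i ∈ range D, ((i : ℝ) + 1) := by
    rw [← card_range D, ← prod_const, card_range, ← prod_mul_distrib]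
    apply prod_congr rfl; intro i _; ring
  have h2 : ∏ j ∈ range (D + 1), ((0:ℝ) - (γ - j)) = (-1) ^ (D + 1) * (γ * ∏ i ∈ range D, (γ - (i + 1))) := by
    rw [prod_range_succ']
    have : ∏ k ∈ range D, ((0:ℝ) - (γ - ((k + 1 : ℕ) : ℝ))) = (-1) ^ D * ∏ i ∈ range D, (γ - (i + 1)) := by
      conv_rhs => rw [← card_range D, ← prod_const, card_range, ← prod_mul_distrib]
      apply prod_congr rfl; intro i _; push_cast; ring
    rw [this, pow_succ]; push_cast; ring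
  rw [h1, h2, prod_pow, prod_div_distrib]
  have h3 : ∏ i ∈ range D, (γ - ((i : ℝ) + 1)) ≠ 0 := by
    rw [prod_ne_zero_iff]
    intro i hi
    have h1 : (i : ℝ) + 1 ≤ D := by exact_mod_cast mem_range.mp hi
    intro h; linarith
  have h4 : γ ≠ 0 := by linarith
  have h5 : ((-1 : ℝ)) ^ D ≠ 0 := by positivity
  rw [pow_succ]
  field_simp

lemma Bf_ast {γ : ℝ} {D : ℕ} (hγ : 2 * (D : ℝ) < γ) (c : ℕ → ℝ) :
    Bf γ D c (ast γ D) = c 0 * Vst γ D := by
  unfold Bf
  have e1 : ∀ i ∈ range (D + 1), ∑ j ∈ range (D + 1), c i * ast γ D j / (γ - i - j)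
      = c i * ∑ j ∈ range (D + 1), ast γ D j / (γ - i - j) := by
    intro i _
    rw [mul_sum]; apply sum_congr rfl; intro j _; rw [mul_div_assoc]
  rw [sum_congr rfl e1, sum_eq_single 0]
  · congr 1
    rw [← ast_val hγ]
    apply sum_congr rfl; intro j _; simp
  · intro i hi hi0
    rw [ast_orth hγ (by omega) (by have := mem_range.mp hi; omega), mul_zero]
  · intro h; exact absurd (mem_range.mpr (Nat.succ_pos D)) h

lemma Qf_ast {γ : ℝ} {D : ℕ} (hγ : 2 * (D : ℝ) < γ) : Qf γ D (ast γ D) = Vst γ D := by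
  have h := Bf_ast hγ (ast γ D)
  rw [ast_zero hγ, one_mul] at h
  exact h

lemma Qf_congr {γ : ℝ} {D : ℕ} {c c' : ℕ → ℝ} (h : ∀ i ≤ D, c i = c' i) : Qf γ D c = Qf γ D c' := by
  unfold Qf
  apply sum_congr rfl; intro i hi
  apply sum_congr rfl; intro j hj
  rw [h i (by have := mem_range.mp hi; omega), h j (by have := mem_range.mp hj; omega)]

lemma Qf_decomp {γ : ℝ} {D : ℕ} (hγ : 2 * (D : ℝ) < γ) (c : ℕ → ℝ) :
    Qf γ D c = c 0 ^ 2 * Vst γ D + Qf γ D (fun i => c i - c 0 * ast γ D i) := by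
  have h1 := Bf_ast hγ c
  have h2 := Qf_ast hγ
  have h3 : Qf γ D (fun i => c i - c 0 * ast γ D i)
      = Qf γ D c - 2 * c 0 * Bf γ D c (ast γ D) + c 0 ^ 2 * Qf γ D (ast γ D) := by
    have hsymm : Bf γ D (ast γ D) c = Bf γ D c (ast γ D) := by
      unfold Bf
      rw [sum_comm]
      apply sum_congr rfl; intro i _
      apply sum_congr rfl; intro j _
      have : γ - (j : ℝ) - i = γ - i - j := by ring
      rw [this]; ring
    have : Qf γ D (fun i => c i - c 0 * ast γ D i)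
        = Qf γ D c - c 0 * Bf γ D c (ast γ D) - c 0 * Bf γ D (ast γ D) c
          + c 0 ^ 2 * Qf γ D (ast γ D) := by
      unfold Qf Bf
      simp only [mul_sum, ← sum_sub_distrib, ← sum_add_distrib]
      apply sum_congr rfl; intro i _
      apply sum_congr rfl; intro j _
      ring
    rw [this, hsymm]; ring
  rw [h3, h1, h2]; ring

lemma Qf_shift {γ : ℝ} {D : ℕ} {e : ℕ → ℝ} (he : e 0 = 0) :
    Qf γ (D + 1) e = Qf (γ - 2) D (fun i => e (i + 1)) := by
  unfold Qf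
  rw [sum_range_succ' _ (D + 1)]
  have h0 : ∑ j ∈ range (D + 1 + 1), e 0 * e j / (γ - (0:ℕ) - j) = 0 := by
    apply sum_eq_zero; intro j _; rw [he]; ring
  rw [h0, add_zero]
  apply sum_congr rfl
  intro i _
  rw [sum_range_succ' _ (D + 1), he, mul_zero, zero_div, add_zero]
  apply sum_congr rfl
  intro j _
  congr 1
  push_cast; ring

/-- quantitative positivity -/
lemma Qf_pos (D : ℕ) : ∀ γ : ℝ, 2 * (D : ℝ) < γ → ∃ κ > 0, ∀ c : ℕ → ℝ,
    κ * ∑ i ∈ range (D + 1), c i ^ 2 ≤ Qf γ D c := by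
  induction D with
  | zero =>
    intro γ hγ
    push_cast at hγ
    refine ⟨1 / γ, one_div_pos.mpr (by linarith), fun c => ?_⟩
    simp only [Qf, zero_add, range_one, sum_singleton, Nat.cast_zero, sub_zero]
    apply le_of_eq; ring
  | succ D ih =>
    intro γ hγ
    have hγ' : 2 * (D : ℝ) < γ - 2 := by push_cast at hγ; linarith
    obtain ⟨κ, hκ, hQ⟩ := ih (γ - 2) hγ'
    have hV := Vst_pos hγ
    set S : ℝ := ∑ i ∈ range (D + 1), ast γ (D + 1) (i + 1) ^ 2 with hS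
    have hS0 : 0 ≤ S := sum_nonneg fun i _ => sq_nonneg _
    set ρ : ℝ := min (κ / 2) (Vst γ (D + 1) / (1 + 2 * S)) with hρ
    have hρ0 : 0 < ρ := by
      apply lt_min <;> positivity
    refine ⟨ρ, hρ0, fun c => ?_⟩
    rw [Qf_decomp hγ c]
    have he : (fun i => c i - c 0 * ast γ (D + 1) i) 0 = 0 := by
      beta_reduce; rw [ast_zero hγ]; ring
    rw [Qf_shift he]
    have h1 := hQ (fun i => c (i + 1) - c 0 * ast γ (D + 1) (i + 1))
    rw [sum_range_succ']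
    have h2 : ∑ i ∈ range (D + 1), c (i + 1) ^ 2 ≤
        2 * ∑ i ∈ range (D + 1), (c (i + 1) - c 0 * ast γ (D + 1) (i + 1)) ^ 2 + 2 * c 0 ^ 2 * S := by
      rw [hS, mul_sum, mul_sum, ← sum_add_distrib]
      apply sum_le_sum
      intro i _
      nlinarith [sq_nonneg (c (i + 1) - 2 * (c 0 * ast γ (D + 1) (i + 1)))]
    set Se : ℝ := ∑ i ∈ range (D + 1), (c (i + 1) - c 0 * ast γ (D + 1) (i + 1)) ^ 2 with hSe
    have hSe0 : 0 ≤ Se := sum_nonneg fun i _ => sq_nonneg _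
    have hρ1 : ρ ≤ κ / 2 := min_le_left _ _
    have hρ2 : ρ * (1 + 2 * S) ≤ Vst γ (D + 1) := by
      have : ρ ≤ Vst γ (D + 1) / (1 + 2 * S) := min_le_right _ _
      rwa [le_div_iff₀ (by positivity)] at this
    calc ρ * (∑ i ∈ range (D + 1), c (i + 1) ^ 2 + c 0 ^ 2)
        ≤ ρ * ((2 * Se + 2 * c 0 ^ 2 * S) + c 0 ^ 2) := by gcongr
      _ = c 0 ^ 2 * (ρ * (1 + 2 * S)) + 2 * ρ * Se := by ring
      _ ≤ c 0 ^ 2 * Vst γ (D + 1) + κ * Se := by
          have h3 := mul_le_mul_of_nonneg_left hρ2 (sq_nonneg (c 0))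
          nlinarith
      _ ≤ _ := by linarith

lemma Qf_ge {γ : ℝ} {D : ℕ} (hγ : 2 * (D : ℝ) < γ) {c : ℕ → ℝ} (hc : c 0 = 1) :
    Vst γ D ≤ Qf γ D c := by
  rw [Qf_decomp hγ c, hc, one_pow, one_mul]
  obtain ⟨κ, hκ, h⟩ := Qf_pos D γ hγ
  have h1 := h (fun i => c i - 1 * ast γ D i)
  have h2 : 0 ≤ ∑ i ∈ range (D + 1), (c i - 1 * ast γ D i) ^ 2 := sum_nonneg fun i _ => sq_nonneg _
  nlinarith

end Pool.Agent.Hhelper29.CG
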