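import Pool.Agent.Hhelper29.CG.Moments
import Pool.Agent.Hhelper29.CG.CritPoly

/-!
CG stops after a bounded number of steps when `p < 1` and `ε > ε_c(p)`.
-/

namespace Pool.Agent.Hhelper29.CG

open MeasureTheory Matrix ProbabilityTheory Polynomial Filter
open scoped ENNReal Classical Topology

variable {n : ℕ}

/-- the bad event for a finite family of moments -/
def momBad (n : ℕ) (β : ℕ → ℝ) (R : ℕ) (ι : ℝ) : Set (Fin n → ℂ) :=
  ⋃ r ∈ Finset.range R, ({w | (1 / (1 - β r) + ι) * nsq w < mom n (β r) w} ∪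
    {w | mom n (β r) w < (1 / (1 - β r) - ι) * nsq w})

lemma measurable_mom (n : ℕ) (β : ℝ) : Measurable (mom n β : (Fin n → ℂ) → ℝ) := by
  unfold mom; fun_prop

lemma measurable_momK (n : ℕ) (β : ℝ) (K : ℕ) : Measurable (momK n β K : (Fin n → ℂ) → ℝ) := by
  unfold momK; fun_prop

lemma measurableSet_momBad (n : ℕ) (β : ℕ → ℝ) (R : ℕ) (ι : ℝ) : MeasurableSet (momBad n β R ι) := by
  unfold momBad
  apply Finset.measurableSet_biUnion
  intro r _
  exact (measurableSet_lt (measurable_nsq.const_mul _) (measurable_mom n _)).union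
    (measurableSet_lt (measurable_mom n _) (measurable_nsq.const_mul _))

lemma mom_of_notMem {β : ℕ → ℝ} {R : ℕ} {ι : ℝ} {w : Fin n → ℂ} (hw : nsq w = 1)
    (h : w ∉ momBad n β R ι) {r : ℕ} (hr : r < R) :
    |mom n (β r) w - 1 / (1 - β r)| ≤ ι := by
  unfold momBad at h
  simp only [Set.mem_iUnion, not_exists, Set.mem_union, not_or] at h
  obtain ⟨h1, h2⟩ := h r (Finset.mem_range.mpr hr)
  have h1' : mom n (β r) w ≤ (1 / (1 - β r) + ι) * nsq w := not_lt.mp h1
  have h2' : (1 / (1 - β r) - ι) * nsq w ≤ mom n (β r) w := not_lt.mp h2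
  rw [hw, mul_one] at h1' h2'
  rw [abs_le]; constructor <;> linarith

lemma mom_family {β : ℕ → ℝ} {R : ℕ} (hβ : ∀ r < R, 0 ≤ β r ∧ β r < 1) {ι η : ℝ} (hι : 0 < ι)
    (hη : 0 < η) :
    ∃ n₀ : ℕ, ∀ n ≥ n₀, 0 < n → ∀ (μ : Measure (Matrix (Fin n) (Fin n) ℂ)) (σ : Measure (Fin n → ℂ)),
      IsHaarU μ → IsUnif σ → σ (momBad n β R ι) ≤ ENNReal.ofReal η := by
  set η' : ℝ := η / (2 * (R + 1)) with hη'
  have hη'0 : 0 < η' := by positivity
  have hex : ∀ r : ℕ, ∃ n₀ : ℕ, r < R → ∀ n ≥ n₀, 0 < n →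
      ∀ (μ : Measure (Matrix (Fin n) (Fin n) ℂ)) (σ : Measure (Fin n → ℂ)),
      IsHaarU μ → IsUnif σ → σ ({w | (1 / (1 - β r) + ι) * nsq w < mom n (β r) w} ∪
    {w | mom n (β r) w < (1 / (1 - β r) - ι) * nsq w}) ≤ ENNReal.ofReal (2 * η') := by
    intro r
    by_cases hr : r < R
    · obtain ⟨n₁, h1⟩ := mom_upper (hβ r hr).1 (hβ r hr).2 hι hη'0
      obtain ⟨n₂, h2⟩ := mom_lower (hβ r hr).1 (hβ r hr).2 hι hη'0
      refine ⟨max n₁ n₂, fun _ n hn hnpos μ σ hμ hσ => ?_⟩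
      refine (measure_union_le _ _).trans ?_
      rw [two_mul, ENNReal.ofReal_add hη'0.le hη'0.le]
      exact add_le_add (h1 n (le_of_max_le_left hn) hnpos μ σ hμ hσ)
        (h2 n (le_of_max_le_right hn) hnpos μ σ hμ hσ)
    · exact ⟨0, fun h => absurd h hr⟩
  choose N hN using hex
  refine ⟨(Finset.range R).sup N, fun n hn hnpos μ σ hμ hσ => ?_⟩
  unfold momBad
  refine (measure_biUnion_finset_le _ _).trans ?_
  calc ∑ r ∈ Finset.range R, σ ({w | (1 / (1 - β r) + ι) * nsq w < mom n (β r) w} ∪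
        {w | mom n (β r) w < (1 / (1 - β r) - ι) * nsq w})
      ≤ ∑ _r ∈ Finset.range R, ENNReal.ofReal (2 * η') := by
        apply Finset.sum_le_sum
        intro r hr
        exact hN r (Finset.mem_range.mp hr) n ((Finset.le_sup hr).trans hn) hnpos μ σ hμ hσ
    _ = ENNReal.ofReal (R * (2 * η')) := by
        rw [Finset.sum_const, Finset.card_range, nsmul_eq_mul,
          ENNReal.ofReal_mul (p := (R : ℝ)) (Nat.cast_nonneg R), ENNReal.ofReal_natCast]
    _ ≤ ENNReal.ofReal η := by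
        apply ENNReal.ofReal_le_ofReal
        rw [hη']
        have hR : (0:ℝ) ≤ R := Nat.cast_nonneg R
        have h1 : (0:ℝ) < R + 1 := by positivity
        calc (R : ℝ) * (2 * (η / (2 * (R + 1)))) = η * (R / (R + 1)) := by field_simp
          _ ≤ η * 1 := by
              gcongr
              rw [div_le_one h1]; linarith
          _ = η := mul_one η

/-- polynomial with coefficients `c j * n^{p j}` -/
noncomputable def polyOf (p : ℝ) (n D : ℕ) (c : ℕ → ℝ) : ℝ[X] :=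
  ∑ j ∈ Finset.range (D + 1), C (c j * (n : ℝ) ^ (p * j)) * X ^ j

lemma polyOf_natDegree (p : ℝ) (n D : ℕ) (c : ℕ → ℝ) : (polyOf p n D c).natDegree ≤ D := by
  unfold polyOf
  apply natDegree_sum_le_of_forall_le
  intro j hj
  refine (natDegree_C_mul_X_pow_le _ _).trans ?_
  have := Finset.mem_range.mp hj
  omega

lemma polyOf_zero (p : ℝ) (n D : ℕ) (c : ℕ → ℝ) : (polyOf p n D c).eval 0 = c 0 := by
  unfold polyOf
  rw [eval_finsetSum, Finset.sum_range_succ']
  simp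

lemma lam_eq_sx {n : ℕ} (hn : 0 < n) (p : ℝ) (k : ℕ) : lam p k = (n : ℝ) ^ (-p) * sx n k ^ (-p) := by
  have hn0 : (0:ℝ) < n := by exact_mod_cast hn
  rw [sx_rpow hn, ← mul_assoc, ← Real.rpow_add hn0]
  simp [lam]

lemma polyOf_eval {n : ℕ} (hn : 0 < n) (p : ℝ) (D : ℕ) (c : ℕ → ℝ) (k : ℕ) :
    (polyOf p n D c).eval (lam p k) = ∑ j ∈ Finset.range (D + 1), c j * sx n k ^ (-(p * j)) := by
  have hn0 : (0:ℝ) < n := by exact_mod_cast hn
  have hs := sx_pos hn k
  unfold polyOf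
  rw [eval_finsetSum]
  apply Finset.sum_congr rfl
  intro j _
  simp only [eval_mul, eval_C, eval_pow, eval_X]
  rw [lam_eq_sx hn, mul_pow, ← Real.rpow_natCast, ← Real.rpow_natCast, ← Real.rpow_mul hn0.le,
    ← Real.rpow_mul hs.le]
  have h1 : (n : ℝ) ^ (p * j) * (n : ℝ) ^ (-p * j) = 1 := by
    rw [← Real.rpow_add hn0]; simp
  calc c j * (n : ℝ) ^ (p * j) * ((n : ℝ) ^ (-p * j) * sx n k ^ (-p * j))
      = c j * ((n : ℝ) ^ (p * j) * (n : ℝ) ^ (-p * j)) * sx n k ^ (-p * j) := by ring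
    _ = _ := by rw [h1, mul_one]; congr 2; ring

/-- weighted energy of `∑ c_j x^j` in terms of moments -/
lemma energy_mom {n : ℕ} (hn : 0 < n) (p ζ : ℝ) (D : ℕ) (c : ℕ → ℝ) (w : Fin n → ℂ) :
    ∑ k : Fin n, sx n k ^ (-(p - ζ)) * (∑ j ∈ Finset.range (D + 1), c j * sx n k ^ (-(p * j))) ^ 2
      * ‖w k‖ ^ 2
    = ∑ i ∈ Finset.range (D + 1), ∑ j ∈ Finset.range (D + 1),
        c i * c j * mom n (p * ((i + j : ℕ) + 1) - ζ) w := by
  have e1 : ∀ k : Fin n, sx n k ^ (-(p - ζ)) *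
      (∑ j ∈ Finset.range (D + 1), c j * sx n k ^ (-(p * j))) ^ 2 * ‖w k‖ ^ 2
      = ∑ i ∈ Finset.range (D + 1), ∑ j ∈ Finset.range (D + 1),
        c i * c j * (sx n k ^ (-(p * ((i + j : ℕ) + 1) - ζ)) * ‖w k‖ ^ 2) := by
    intro k
    have hs := sx_pos hn k
    rw [sq, Finset.sum_mul_sum, Finset.mul_sum, Finset.sum_mul]
    apply Finset.sum_congr rfl; intro i _
    rw [Finset.mul_sum, Finset.sum_mul]
    apply Finset.sum_congr rfl; intro j _
    have : sx n k ^ (-(p * ((i + j : ℕ) + 1) - ζ))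
        = sx n k ^ (-(p - ζ)) * (sx n k ^ (-(p * i)) * sx n k ^ (-(p * j))) := by
      rw [← Real.rpow_add hs, ← Real.rpow_add hs]
      congr 1; push_cast; ring
    rw [this]; ring
  rw [Finset.sum_congr rfl (fun k _ => e1 k), Finset.sum_comm]
  apply Finset.sum_congr rfl; intro i _
  rw [Finset.sum_comm]
  apply Finset.sum_congr rfl; intro j _
  rw [mom, Finset.mul_sum]

lemma e0_mom {n : ℕ} (hn : 0 < n) (p : ℝ) (w : Fin n → ℂ) :
    nsq (y0 p w) = (n : ℝ) ^ (-p) * mom n p w := by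
  rw [nsq_y0, mom, Finset.mul_sum]
  apply Finset.sum_congr rfl; intro k _
  rw [lam_eq_sx hn]; ring

lemma En_polyOf {n : ℕ} (hn : 0 < n) (p : ℝ) (D : ℕ) (c : ℕ → ℝ) (w : Fin n → ℂ) :
    En p w (polyOf p n D c) = (n : ℝ) ^ (-p) * ∑ i ∈ Finset.range (D + 1), ∑ j ∈ Finset.range (D + 1),
        c i * c j * mom n (p * ((i + j : ℕ) + 1)) w := by
  have h := energy_mom hn p 0 D c w
  simp only [sub_zero] at h
  rw [← h, En, Finset.mul_sum]
  apply Finset.sum_congr rfl; intro k _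
  rw [polyOf_eval hn, lam_eq_sx hn]; ring

/-- comparison of the random form with `Qf` -/
lemma form_close {p ζ γ : ℝ} (hγ : p * γ = 1 - p + ζ) {D : ℕ} {ι : ℝ} (hι : 0 ≤ ι)
    {w : Fin n → ℂ}
    (hm : ∀ r < 2 * D + 1, |mom n (p * (r + 1) - ζ) w - 1 / (1 - (p * (r + 1) - ζ))| ≤ ι)
    (c : ℕ → ℝ) :
    |∑ i ∈ Finset.range (D + 1), ∑ j ∈ Finset.range (D + 1),
        c i * c j * mom n (p * ((i + j : ℕ) + 1) - ζ) w - Qf γ D c / p|
      ≤ ι * ((D + 1) * ∑ i ∈ Finset.range (D + 1), c i ^ 2) := by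
  have hQ : Qf γ D c / p = ∑ i ∈ Finset.range (D + 1), ∑ j ∈ Finset.range (D + 1),
      c i * c j * (1 / (1 - (p * ((i + j : ℕ) + 1) - ζ))) := by
    unfold Qf
    rw [Finset.sum_div]
    apply Finset.sum_congr rfl; intro i _
    rw [Finset.sum_div]
    apply Finset.sum_congr rfl; intro j _
    have : 1 - (p * (((i + j : ℕ) : ℝ) + 1) - ζ) = p * (γ - i - j) := by
      push_cast; linarith
    rw [this, div_div, mul_comm (γ - i - j) p]
    ring
  rw [hQ, ← Finset.sum_sub_distrib]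
  simp only [← Finset.sum_sub_distrib, ← mul_sub]
  have h1 : ∀ i ∈ Finset.range (D + 1), ∀ j ∈ Finset.range (D + 1),
      |c i * c j * (mom n (p * ((i + j : ℕ) + 1) - ζ) w - 1 / (1 - (p * ((i + j : ℕ) + 1) - ζ)))|
        ≤ |c i| * |c j| * ι := by
    intro i hi j hj
    rw [abs_mul, abs_mul]
    have := hm (i + j) (by
      have := Finset.mem_range.mp hi; have := Finset.mem_range.mp hj; omega)
    gcongr
  calc |∑ i ∈ Finset.range (D + 1), ∑ j ∈ Finset.range (D + 1),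
        c i * c j * (mom n (p * ((i + j : ℕ) + 1) - ζ) w - 1 / (1 - (p * ((i + j : ℕ) + 1) - ζ)))|
      ≤ ∑ i ∈ Finset.range (D + 1), ∑ j ∈ Finset.range (D + 1), |c i| * |c j| * ι := by
        refine (Finset.abs_sum_le_sum_abs _ _).trans (Finset.sum_le_sum fun i hi => ?_)
        exact (Finset.abs_sum_le_sum_abs _ _).trans (Finset.sum_le_sum fun j hj => h1 i hi j hj)
    _ = ι * (∑ i ∈ Finset.range (D + 1), |c i|) ^ 2 := by
        rw [sq, Finset.sum_mul_sum, Finset.mul_sum]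
        apply Finset.sum_congr rfl; intro i _
        rw [Finset.mul_sum]
        apply Finset.sum_congr rfl; intro j _; ring
    _ ≤ _ := by
        gcongr
        have := sq_sum_le_card_mul_sum_sq (s := Finset.range (D + 1)) (f := fun i => |c i|)
        simp only [Finset.card_range, sq_abs] at this
        push_cast at this
        exact this

lemma dcrit_lt {p : ℝ} (hp0 : 0 < p) (hp1 : p < 1) : (dcrit p : ℝ) < (1 - p) / (2 * p) := by
  unfold dcrit
  have h0 : 0 < (1 - p) / (2 * p) := div_pos (by linarith) (by linarith)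
  have h1 : 1 ≤ ⌈(1 - p) / (2 * p)⌉₊ := Nat.one_le_iff_ne_zero.mpr (by
    intro h; exact absurd (Nat.ceil_eq_zero.mp h) (not_le.mpr h0))
  have h2 := Nat.ceil_lt_add_one h0.le
  rw [Nat.cast_sub h1]; push_cast; linarith

lemma Vst_epsc {p : ℝ} (hp0 : 0 < p) (hp1 : p < 1) :
    Vst ((1 - p) / p) (dcrit p) / p = epsc p / (1 - p) := by
  unfold Vst epsc
  have h1 : (1 - p) ≠ 0 := by linarith
  have hd := dcrit_lt hp0 hp1
  have e1 : ∀ i ∈ Finset.range (dcrit p), (((i : ℝ) + 1) / ((1 - p) / p - (i + 1))) ^ 2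
      = (((i : ℝ) + 1) * p / (1 - ((i : ℝ) + 2) * p)) ^ 2 := by
    intro i hi
    have h2 : (i : ℝ) + 1 ≤ dcrit p := by exact_mod_cast Finset.mem_range.mp hi
    have h3 : ((i : ℝ) + 1) * (2 * p) < 1 - p := by
      rw [lt_div_iff₀ (by positivity)] at hd
      nlinarith
    have h0 : (0:ℝ) ≤ i := Nat.cast_nonneg i
    have h4 : (1 - ((i : ℝ) + 2) * p) ≠ 0 := by nlinarith
    have h5 : (1 - p) / p - (i + 1) = (1 - ((i : ℝ) + 2) * p) / p := by field_simp; ring
    rw [h5, div_div_eq_mul_div]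
  rw [Finset.prod_congr rfl e1]
  field_simp

section final

variable {Ω : Type*} [MeasurableSpace Ω] {P : Measure Ω}

theorem cg_sub_tight {p : ℝ} (hp0 : 0 < p) (hp1 : p < 1) {ε : ℝ} (hε : epsc p < ε)
    {η : ℝ} (hη : 0 < η) :
    ∃ n₀ : ℕ, ∀ n ≥ n₀, ∀ {Ω : Type*} [MeasurableSpace Ω] (P : Measure Ω) (m : Model n p P),
      P {ω | (dcrit p : ℕ∞) < m.Tcg ε ω} ≤ ENNReal.ofReal η := by
  set d := dcrit p with hd
  set γ : ℝ := (1 - p) / p with hγ
  have hdlt := dcrit_lt hp0 hp1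
  rw [← hd] at hdlt
  have hγd : 2 * (d : ℝ) < γ := by
    rw [lt_div_iff₀ (by positivity)] at hdlt
    rw [hγ, lt_div_iff₀ hp0]; linarith
  have hpγ : p * γ = 1 - p + 0 := by rw [hγ]; field_simp; ring
  have h1p : 0 < 1 - p := by linarith
  have hε0 : 0 < ε := lt_of_le_of_lt (Finset.prod_nonneg fun i _ => sq_nonneg _) hε
  set S : ℝ := (d + 1) * ∑ i ∈ Finset.range (d + 1), ast γ d i ^ 2 with hS
  have hS0 : 0 ≤ S := mul_nonneg (by positivity) (Finset.sum_nonneg fun i _ => sq_nonneg _)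
  set ι : ℝ := (ε - epsc p) / (1 - p) / (S + ε) with hι
  have hι0 : 0 < ι := div_pos (div_pos (by linarith) h1p) (by linarith)
  obtain ⟨n₀, hn₀⟩ := mom_family (β := fun r => p * (r + 1) - 0) (R := 2 * d + 1) (by
    intro r hr
    have hr' : (r : ℝ) ≤ 2 * d := by
      have : r ≤ 2 * d := by omega
      exact_mod_cast this
    constructor
    · rw [sub_zero]; positivity
    · rw [lt_div_iff₀ (by positivity)] at hdlt
      nlinarith) hι0 hη
  refine ⟨n₀, fun n hn Ω _ P m => ?_⟩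
  have hnpos := m.n_pos
  have hn0 : (0:ℝ) < n := by exact_mod_cast hnpos
  refine (m.prob_lt_tcg_le ε d (measurableSet_momBad n _ _ ι) ?_).trans
    (hn₀ n hn hnpos _ _ m.haarU m.unif)
  intro w hw hwE
  have hm := fun r (hr : r < 2 * d + 1) => mom_of_notMem hw hwE hr
  beta_reduce at hm
  refine ⟨polyOf p n d (ast γ d), polyOf_natDegree _ _ _ _, ?_, ?_⟩
  · rw [polyOf_zero, ast_zero hγd]
  · rw [En_polyOf hnpos, e0_mom hnpos]
    have h1 := form_close hpγ hι0.le hm (ast γ d)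
    simp only [sub_zero] at h1
    rw [Qf_ast hγd, Vst_epsc hp0 hp1] at h1
    have h2 := hm 0 (by omega)
    simp only [Nat.cast_zero, zero_add, mul_one, sub_zero] at h2
    have h3 := (abs_le.mp h1).2
    have h4 := (abs_le.mp h2).1
    have h5 : (0:ℝ) < (n : ℝ) ^ (-p) := Real.rpow_pos_of_pos hn0 _
    have h6 : epsc p / (1 - p) + ι * S = ε * (1 / (1 - p) - ι) := by
      rw [hι]
      have : S + ε ≠ 0 := by linarith
      field_simp
      ring
    rw [← hS] at h3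
    calc (n : ℝ) ^ (-p) * ∑ i ∈ Finset.range (d + 1), ∑ j ∈ Finset.range (d + 1),
          ast γ d i * ast γ d j * mom n (p * ((i + j : ℕ) + 1)) w
        ≤ (n : ℝ) ^ (-p) * (epsc p / (1 - p) + ι * S) := by
          gcongr; linarith
      _ = (n : ℝ) ^ (-p) * (ε * (1 / (1 - p) - ι)) := by rw [h6]
      _ ≤ (n : ℝ) ^ (-p) * (ε * mom n p w) := by gcongr; linarith
      _ = _ := by ring

end final

end Pool.Agent.Hhelper29.CG
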