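import Mathlib

/-!
Fejér-type polynomials: `fej N a` has degree `< N`, value `1` at `0`, modulus `≤ 1` and
`≤ a / (N² x)` on `(0,a]`.
-/

namespace Pool.Agent.Hhelper29.CG

open Polynomial

noncomputable def dirP : ℕ → ℝ[X]
  | 0 => 1
  | N + 1 => dirP N + 2 * Chebyshev.T ℝ ((N + 1 : ℕ) : ℤ)

noncomputable def fejS : ℕ → ℝ[X]
  | 0 => 0
  | N + 1 => fejS N + dirP N

lemma dirP_mul (N : ℕ) : (1 - X) * dirP N = Chebyshev.T ℝ (N : ℤ) - Chebyshev.T ℝ ((N : ℤ) + 1) := by
  induction N with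
  | zero => simp [dirP]
  | succ N ih =>
    rw [dirP, mul_add, ih]
    have h := Chebyshev.T_add_two ℝ (N : ℤ)
    have e1 : ((N + 1 : ℕ) : ℤ) = (N : ℤ) + 1 := by push_cast; ring
    have e2 : (N : ℤ) + 1 + 1 = (N : ℤ) + 2 := by ring
    rw [e1, e2, h]
    ring

lemma fejS_mul (N : ℕ) : (1 - X) * fejS N = 1 - Chebyshev.T ℝ (N : ℤ) := by
  induction N with
  | zero => simp [fejS]
  | succ N ih =>
    rw [fejS, mul_add, ih, dirP_mul]
    push_cast; ring

lemma dirP_eval_one (N : ℕ) : (dirP N).eval 1 = 2 * N + 1 := by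
  induction N with
  | zero => simp [dirP]
  | succ N ih =>
    rw [dirP, eval_add, ih]
    have : (Chebyshev.T ℝ ((N + 1 : ℕ) : ℤ)).eval 1 = 1 := Chebyshev.T_eval_one ℝ _
    simp only [eval_mul, this]
    have h2 : (2 : ℝ[X]).eval 1 = 2 := by simp
    rw [h2]; push_cast; ring

lemma fejS_eval_one (N : ℕ) : (fejS N).eval 1 = (N : ℝ) ^ 2 := by
  induction N with
  | zero => simp [fejS]
  | succ N ih => rw [fejS, eval_add, ih, dirP_eval_one]; push_cast; ring

lemma dirP_natDegree (N : ℕ) : (dirP N).natDegree ≤ N := by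
  induction N with
  | zero => simp [dirP]
  | succ N ih =>
    rw [dirP]
    refine (natDegree_add_le _ _).trans (max_le (by omega) ?_)
    refine (natDegree_mul_le).trans ?_
    have h1 : (2 : ℝ[X]).natDegree = 0 := natDegree_ofNat 2
    have h2 : (Chebyshev.T ℝ ((N + 1 : ℕ) : ℤ)).natDegree = N + 1 := by
      rw [Chebyshev.natDegree_T]; exact Int.natAbs_natCast (N + 1)
    omega

lemma fejS_natDegree (N : ℕ) : (fejS N).natDegree ≤ N - 1 := by
  induction N with
  | zero => simp [fejS]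
  | succ N ih =>
    rw [fejS]
    refine (natDegree_add_le _ _).trans (max_le (by omega) ?_)
    simpa using dirP_natDegree N

lemma dirP_abs (N : ℕ) {x : ℝ} (hx : |x| ≤ 1) : |(dirP N).eval x| ≤ 2 * N + 1 := by
  induction N with
  | zero => simp [dirP]
  | succ N ih =>
    rw [dirP, eval_add]
    have h := Chebyshev.abs_eval_T_real_le_one ((N + 1 : ℕ) : ℤ) hx
    have h2 : (2 * Chebyshev.T ℝ ((N + 1 : ℕ) : ℤ)).eval x
        = 2 * (Chebyshev.T ℝ ((N + 1 : ℕ) : ℤ)).eval x := by simp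
    rw [h2]
    refine (abs_add_le _ _).trans ?_
    rw [abs_mul, abs_two]
    push_cast
    push_cast at h
    linarith

lemma fejS_abs (N : ℕ) {x : ℝ} (hx : |x| ≤ 1) : |(fejS N).eval x| ≤ (N : ℝ) ^ 2 := by
  induction N with
  | zero => simp [fejS]
  | succ N ih =>
    rw [fejS, eval_add]
    refine (abs_add_le _ _).trans ?_
    have := dirP_abs N hx
    push_cast
    nlinarith

/-- the Fejér-type polynomial on `[0,a]` -/
noncomputable def fej (N : ℕ) (a : ℝ) : ℝ[X] :=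
  C (1 / (N : ℝ) ^ 2) * (fejS N).comp (1 - C (2 / a) * X)

lemma fej_natDegree (N : ℕ) (a : ℝ) : (fej N a).natDegree ≤ N - 1 := by
  rw [fej]
  refine (natDegree_C_mul_le _ _).trans ?_
  rw [natDegree_comp]
  have h1 : (1 - C (2 / a) * X : ℝ[X]).natDegree ≤ 1 := by
    refine (natDegree_sub_le _ _).trans (max_le (by simp) ?_)
    exact (natDegree_C_mul_le _ _).trans natDegree_X_le
  calc (fejS N).natDegree * (1 - C (2 / a) * X : ℝ[X]).natDegree ≤ (N - 1) * 1 :=
        Nat.mul_le_mul (fejS_natDegree N) h1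
    _ = N - 1 := mul_one _

lemma fej_eval (N : ℕ) (a x : ℝ) :
    (fej N a).eval x = (fejS N).eval (1 - 2 / a * x) / (N : ℝ) ^ 2 := by
  simp [fej, eval_comp]; ring

lemma fej_zero {N : ℕ} (hN : N ≠ 0) (a : ℝ) : (fej N a).eval 0 = 1 := by
  rw [fej_eval]
  simp only [mul_zero, sub_zero, fejS_eval_one]
  have : (N : ℝ) ^ 2 ≠ 0 := by positivity
  exact div_self this

lemma fej_abs_le_one {N : ℕ} (hN : N ≠ 0) {a x : ℝ} (ha : 0 < a) (hx0 : 0 ≤ x) (hxa : x ≤ a) :
    |(fej N a).eval x| ≤ 1 := by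
  rw [fej_eval, abs_div, abs_of_pos (by positivity : (0:ℝ) < (N:ℝ)^2), div_le_one (by positivity)]
  apply fejS_abs
  have h1 : 2 / a * x ≤ 2 := by
    rw [div_mul_eq_mul_div, div_le_iff₀ ha]; linarith
  have h2 : 0 ≤ 2 / a * x := by positivity
  rw [abs_le]; constructor <;> linarith

lemma fej_abs_le {N : ℕ} (hN : N ≠ 0) {a x : ℝ} (ha : 0 < a) (hx0 : 0 < x) (hxa : x ≤ a) :
    |(fej N a).eval x| ≤ a / ((N : ℝ) ^ 2 * x) := by
  have h1 : 2 / a * x ≤ 2 := by
    rw [div_mul_eq_mul_div, div_le_iff₀ ha]; linarith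
  have h2 : 0 < 2 / a * x := by positivity
  have habs : |1 - 2 / a * x| ≤ 1 := by rw [abs_le]; constructor <;> linarith
  have hT := Chebyshev.abs_eval_T_real_le_one (N : ℤ) habs
  have hm : (2 / a * x) * (fejS N).eval (1 - 2 / a * x)
      = 1 - (Chebyshev.T ℝ (N : ℤ)).eval (1 - 2 / a * x) := by
    have := congrArg (fun P : ℝ[X] => P.eval (1 - 2 / a * x)) (fejS_mul N)
    simp only [eval_mul, eval_sub, eval_one, eval_X] at this
    rw [← this]; ring
  have h3 : (2 / a * x) * |(fejS N).eval (1 - 2 / a * x)| ≤ 2 := by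
    rw [← abs_of_pos h2, ← abs_mul, abs_of_pos h2, hm]
    have := abs_le.mp hT
    rw [abs_le]; constructor <;> linarith
  rw [fej_eval, abs_div, abs_of_pos (by positivity : (0:ℝ) < (N:ℝ)^2),
    div_le_div_iff₀ (by positivity) (by positivity)]
  have h4 : x * |(fejS N).eval (1 - 2 / a * x)| ≤ a := by
    have : (2 / a * x) * |(fejS N).eval (1 - 2 / a * x)|
      = (2 / a) * (x * |(fejS N).eval (1 - 2 / a * x)|) := by ring
    rw [this, div_mul_eq_mul_div, div_le_iff₀ ha] at h3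
    linarith
  have hN2 : (0:ℝ) < (N:ℝ)^2 := by positivity
  nlinarith

end Pool.Agent.Hhelper29.CG
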