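import Pool.Agent.Hhelper29.CG.CgKill
import Pool.Agent.Hhelper29.CG.Fejer

/-!
Deterministic upper bound `T_CG ≤ C n^{p/(p+2)}` and the two-sided Chernoff bound.
-/

namespace Pool.Agent.Hhelper29.CG

open MeasureTheory Matrix ProbabilityTheory Polynomial Filter
open scoped ENNReal Classical Topology

variable {n : ℕ} {p : ℝ}

lemma natDegree_mul_le' {q r : ℝ[X]} {a b : ℕ} (hq : q.natDegree ≤ a) (hr : r.natDegree ≤ b) :
    (q * r).natDegree ≤ a + b := (natDegree_mul_le).trans (Nat.add_le_add hq hr)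

/-- energy of `killP j * r` when `|r(λ_k)| ≤ g k` for `k ≥ j` -/
lemma En_kill_mul_le (hp : 0 ≤ p) (w : Fin n → ℂ) (j : ℕ) (r : ℝ[X]) (g : ℕ → ℝ)
    (hg : ∀ k : ℕ, j ≤ k → k < n → |r.eval (lam p k)| ≤ g k) :
    En p w (killP p j * r) ≤ ∑ k : Fin n, (if j ≤ (k : ℕ) then g k ^ 2 else 0) * (lam p k * ‖w k‖ ^ 2) := by
  unfold En
  apply Finset.sum_le_sum
  intro k _
  rw [eval_mul]
  split_ifs with h
  · have h1 := killP_abs_le p j (lam_pos p k).le (fun i hi => lam_antitone hp (hi.le.trans h))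
    have h2 := hg k h k.2
    have h3 : ((killP p j).eval (lam p k) * r.eval (lam p k)) ^ 2 ≤ g k ^ 2 := by
      rw [← sq_abs, abs_mul]
      apply pow_le_pow_left₀ (by positivity)
      calc |(killP p j).eval (lam p k)| * |r.eval (lam p k)| ≤ 1 * g k := by
            gcongr
        _ = g k := one_mul _
    have := lam_pos p k
    have h4 : 0 ≤ lam p k * ‖w k‖ ^ 2 := by positivity
    calc lam p k * ((killP p j).eval (lam p k) * r.eval (lam p k)) ^ 2 * ‖w k‖ ^ 2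
        = ((killP p j).eval (lam p k) * r.eval (lam p k)) ^ 2 * (lam p k * ‖w k‖ ^ 2) := by ring
      _ ≤ _ := by gcongr
  · rw [killP_root p (not_le.mp h)]; simp

/-- deterministic upper bound -/
theorem cg_det_upper {p : ℝ} (hp : 0 < p) {ε : ℝ} (hε : 0 < ε) {n : ℕ} (hn : 0 < n)
    (w : Fin n → ℂ) : ∃ q : ℝ[X],
      (q.natDegree : ℝ) ≤ (2 + ε ^ (-(1 / 4 : ℝ))) * (n : ℝ) ^ (p / (p + 2)) ∧ q.eval 0 = 1 ∧
        En p w q ≤ ε * nsq (y0 p w) := by
  have hn1 : (1:ℝ) ≤ n := by exact_mod_cast hn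
  have hn0 : (0:ℝ) < n := by linarith
  set s : ℝ := (n : ℝ) ^ (p / (p + 2)) with hs
  have hs1 : 1 ≤ s := Real.one_le_rpow hn1 (by positivity)
  have hs0 : 0 < s := by linarith
  set j : ℕ := ⌈s⌉₊ with hj
  have hjs : s ≤ j := Nat.le_ceil s
  have hjs' : (j : ℝ) < s + 1 := Nat.ceil_lt_add_one hs0.le
  set e : ℝ := ε ^ (-(1 / 4 : ℝ)) with he
  have he0 : 0 < e := Real.rpow_pos_of_pos hε _
  set N : ℕ := ⌈e * s⌉₊ with hN
  have hNs : e * s ≤ N := Nat.le_ceil _
  have hes : 0 < e * s := by positivity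
  have hNs' : (N : ℝ) < e * s + 1 := Nat.ceil_lt_add_one hes.le
  have hNpos : (0:ℝ) < N := by linarith
  have hN0 : N ≠ 0 := by
    intro h; rw [h] at hNpos; simp at hNpos
  have hN1 : 1 ≤ N := Nat.one_le_iff_ne_zero.mpr hN0
  have ha := lam_pos p j
  refine ⟨killP p j * fej N (lam p j), ?_, ?_, ?_⟩
  · have h1 := natDegree_mul_le' (killP_natDegree p j) (fej_natDegree N (lam p j))
    have h2 : ((killP p j * fej N (lam p j)).natDegree : ℝ) ≤ ((j + (N - 1) : ℕ) : ℝ) := by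
      exact_mod_cast h1
    refine h2.trans ?_
    rw [Nat.cast_add, Nat.cast_sub hN1, Nat.cast_one]
    nlinarith
  · rw [eval_mul, killP_zero, fej_zero hN0, one_mul]
  · have hs2 : s ^ (-p) * (n : ℝ) ^ p = s ^ 2 := by
      rw [hs, ← Real.rpow_mul hn0.le, ← Real.rpow_add hn0, ← Real.rpow_natCast, ← Real.rpow_mul hn0.le]
      congr 1
      have : p + 2 ≠ 0 := by positivity
      push_cast
      field_simp
      ring
    have key : ∀ k : ℕ, j ≤ k → k < n → |(fej N (lam p j)).eval (lam p k)| ≤ Real.sqrt ε := by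
      intro k hjk hkn
      have hk := lam_pos p k
      have h1 := fej_abs_le hN0 ha hk (lam_antitone hp.le hjk)
      refine h1.trans ?_
      have h2 : lam p j ≤ s ^ (-p) := by
        unfold lam
        apply Real.rpow_le_rpow_of_nonpos hs0 _ (by linarith)
        linarith
      have h3 : (n : ℝ) ^ (-p) ≤ lam p k := by
        unfold lam
        apply Real.rpow_le_rpow_of_nonpos (by positivity) _ (by linarith)
        have : k + 1 ≤ n := hkn
        exact_mod_cast this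
      have h4 : (0:ℝ) < (n : ℝ) ^ (-p) := Real.rpow_pos_of_pos hn0 _
      calc lam p j / ((N : ℝ) ^ 2 * lam p k) ≤ s ^ (-p) / ((e * s) ^ 2 * (n : ℝ) ^ (-p)) := by
            gcongr
        _ = (s ^ (-p) * (n : ℝ) ^ p) / (e * s) ^ 2 := by
            rw [Real.rpow_neg hn0.le p]
            field_simp
        _ = 1 / e ^ 2 := by
            rw [hs2]; field_simp
        _ = Real.sqrt ε := by
            rw [he, ← Real.rpow_natCast, ← Real.rpow_mul hε.le, one_div, ← Real.rpow_neg hε.le,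
              Real.sqrt_eq_rpow]
            congr 1; push_cast; norm_num
    refine (En_kill_mul_le hp.le w j _ (fun _ => Real.sqrt ε) key).trans ?_
    rw [nsq_y0, Finset.mul_sum]
    apply Finset.sum_le_sum
    intro k _
    have hk := lam_pos p k
    have h5 : 0 ≤ lam p k * ‖w k‖ ^ 2 := by positivity
    rw [Real.sq_sqrt hε.le]
    split_ifs with h
    · exact le_rfl
    · rw [zero_mul]; positivity

section

variable {Ω : Type*} [MeasurableSpace Ω] {P : Measure Ω}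

theorem Model.tcg_le_det {p : ℝ} (hp : 0 < p) {ε : ℝ} (hε : 0 < ε) {n : ℕ}
    (m : Model n p P) (ω : Ω) :
    (m.Tcg ε ω : ℝ≥0∞) ≤ ENNReal.ofReal ((2 + ε ^ (-(1 / 4 : ℝ))) * (n : ℝ) ^ (p / (p + 2))) := by
  obtain ⟨q, hq1, hq2, hq3⟩ := cg_det_upper hp hε m.n_pos ((m.U ω)ᴴ *ᵥ m.z ω)
  have h := (m.tcg_le_iff ε ω q.natDegree).mpr ⟨q, le_rfl, hq2, hq3⟩
  calc (m.Tcg ε ω : ℝ≥0∞) ≤ ((q.natDegree : ℕ∞) : ℝ≥0∞) := ENat.toENNReal_le.mpr h
    _ = ENNReal.ofReal (q.natDegree : ℝ) := by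
        rw [ENat.toENNReal_coe, ENNReal.ofReal_natCast]
    _ ≤ _ := ENNReal.ofReal_le_ofReal hq1

end

/-- `(1-x)⁻¹ ≤ exp(x+2x²)` for `|x| ≤ 1/2` -/
lemma inv_one_sub_le_exp' {x : ℝ} (h : |x| ≤ 1 / 2) : (1 - x)⁻¹ ≤ Real.exp (x + 2 * x ^ 2) := by
  have hx := abs_le.mp h
  have h1 : 0 < 1 - x := by linarith
  have h2 := Real.abs_log_sub_add_sum_range_le (show |x| < 1 by linarith) 1
  simp only [Finset.sum_range_one, zero_add, pow_one, Nat.cast_zero, div_one] at h2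
  have h3 : |x| ^ (1 + 1) / (1 - |x|) ≤ 2 * x ^ 2 := by
    have : |x| ^ (1 + 1) = x ^ 2 := by norm_num
    rw [this, div_le_iff₀ (by linarith)]
    have h4 : 0 ≤ x ^ 2 := sq_nonneg x
    nlinarith
  have h5 := (abs_le.mp (h2.trans h3)).1
  rw [← Real.exp_log h1, ← Real.exp_neg]
  apply Real.exp_le_exp.mpr
  linarith

/-- Chernoff bound for signed weights -/
lemma gam_dev (c : Fin n → ℝ) {θ : ℝ} (hθ : 0 ≤ θ) (hθc : ∀ k, θ * |c k| ≤ 1 / 2) (v : ℝ) :
    gam n {x | v ≤ wsq c x} ≤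
      ENNReal.ofReal (Real.exp (θ * (∑ k, c k) + 2 * θ ^ 2 * (∑ k, c k ^ 2) - θ * v)) := by
  have habs : ∀ k, |θ * c k| ≤ 1 / 2 := by
    intro k; rw [abs_mul, abs_of_nonneg hθ]; exact hθc k
  have h1 := gam_le_of_le_exp (E := {x | v ≤ wsq c x}) (fun k => θ * c k)
    (fun k => by have := (abs_le.mp (habs k)).2; linarith) (Real.exp (-(θ * v)))
    (Real.exp_pos _).le (by
      intro x hx
      have hx' : v ≤ wsq c x := hx
      rw [← Real.exp_add]
      apply Real.one_le_exp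
      have : wsq (fun k => θ * c k) x = θ * wsq c x := by
        simp only [wsq, Finset.mul_sum, mul_assoc]
      rw [this]
      nlinarith)
  refine h1.trans (ENNReal.ofReal_le_ofReal ?_)
  have h2 : ∏ k, (1 - θ * c k)⁻¹ ≤ Real.exp (θ * (∑ k, c k) + 2 * θ ^ 2 * (∑ k, c k ^ 2)) := by
    rw [Finset.mul_sum, Finset.mul_sum, ← Finset.sum_add_distrib, Real.exp_sum]
    apply Finset.prod_le_prod
    · intro k _; have := (abs_le.mp (habs k)).2; exact inv_nonneg.mpr (by linarith)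
    · intro k _
      refine (inv_one_sub_le_exp' (habs k)).trans (le_of_eq ?_)
      congr 1; ring
  calc Real.exp (-(θ * v)) * ∏ k, (1 - θ * c k)⁻¹
      ≤ Real.exp (-(θ * v)) * Real.exp (θ * (∑ k, c k) + 2 * θ ^ 2 * (∑ k, c k ^ 2)) := by gcongr
    _ = _ := by rw [← Real.exp_add]; congr 1; ring

/-- cone events `0 < wsq c w` under the uniform law -/
lemma unif_cone_dev {μ : Measure (Matrix (Fin n) (Fin n) ℂ)} {σ : Measure (Fin n → ℂ)}
    (hμ : IsHaarU μ) (hσ : IsUnif σ) (hn : 0 < n) (c : Fin n → ℝ) {θ : ℝ} (hθ : 0 ≤ θ)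
    (hθc : ∀ k, θ * |c k| ≤ 1 / 2) :
    σ {w | 0 < wsq c w} ≤
      ENNReal.ofReal (Real.exp (θ * (∑ k, c k) + 2 * θ ^ 2 * (∑ k, c k ^ 2))) := by
  have hE : MeasurableSet {w : Fin n → ℂ | 0 < wsq c w} :=
    measurableSet_lt measurable_const (measurable_wsq c)
  rw [cone_prob hμ hσ hE (by
    intro x r hr
    show 0 < wsq c ((r : ℂ) • x) ↔ 0 < wsq c x
    rw [wsq_smul]
    constructor
    · intro h; exact (pos_iff_pos_of_mul_pos h).mp (by positivity)
    · intro h; positivity) hn]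
  refine (measure_mono ?_).trans ((gam_dev c hθ hθc 0).trans (le_of_eq (by simp)))
  intro x hx
  have hx' : 0 < wsq c x := hx
  exact hx'.le

end Pool.Agent.Hhelper29.CG
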