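import Mathlib

/-!
Finite-state-choice Markov operators: `Pop pw st f s = ∑ i, pw i * f (st i s)` and its iterates.
-/

namespace Pool.Agent.Hhelper29.CG

variable {ι S : Type*} [Fintype ι]

/-- one step expectation operator -/
noncomputable def Pop (pw : ι → ℝ) (st : ι → S → S) (f : S → ℝ) : S → ℝ :=
  fun s => ∑ i, pw i * f (st i s)

/-- `t`-step expectation operator -/
noncomputable def Ex (pw : ι → ℝ) (st : ι → S → S) (t : ℕ) (f : S → ℝ) : S → ℝ :=
  (Pop pw st)^[t] f

variable {pw : ι → ℝ} {st : ι → S → S}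

@[simp] lemma Ex_zero (f : S → ℝ) : Ex pw st 0 f = f := rfl

lemma Ex_succ (t : ℕ) (f : S → ℝ) : Ex pw st (t + 1) f = Ex pw st t (Pop pw st f) := by
  simp [Ex, Function.iterate_succ_apply]

lemma Ex_succ' (t : ℕ) (f : S → ℝ) : Ex pw st (t + 1) f = Pop pw st (Ex pw st t f) := by
  simp [Ex, Function.iterate_succ_apply']

lemma Pop_add (f g : S → ℝ) : Pop pw st (fun s => f s + g s) = fun s => Pop pw st f s + Pop pw st g s := by
  funext s; simp [Pop, mul_add, Finset.sum_add_distrib]

lemma Pop_smul (c : ℝ) (f : S → ℝ) : Pop pw st (fun s => c * f s) = fun s => c * Pop pw st f s := by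
  funext s; simp only [Pop, Finset.mul_sum]; apply Finset.sum_congr rfl; intro i _; ring

lemma Ex_add (t : ℕ) (f g : S → ℝ) :
    Ex pw st t (fun s => f s + g s) = fun s => Ex pw st t f s + Ex pw st t g s := by
  induction t generalizing f g with
  | zero => rfl
  | succ t ih => rw [Ex_succ, Ex_succ, Ex_succ, Pop_add, ih]

lemma Ex_smul (t : ℕ) (c : ℝ) (f : S → ℝ) :
    Ex pw st t (fun s => c * f s) = fun s => c * Ex pw st t f s := by
  induction t generalizing f with
  | zero => rfl
  | succ t ih => rw [Ex_succ, Ex_succ, Pop_smul, ih]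

lemma Ex_sub (t : ℕ) (f g : S → ℝ) :
    Ex pw st t (fun s => f s - g s) = fun s => Ex pw st t f s - Ex pw st t g s := by
  have h : (fun s => f s - g s) = fun s => f s + (-1) * g s := by funext s; ring
  rw [h, Ex_add t f (fun s => (-1) * g s), Ex_smul]
  funext s; ring

lemma Ex_sum {κ : Type*} (K : Finset κ) (t : ℕ) (f : κ → S → ℝ) :
    Ex pw st t (fun s => ∑ k ∈ K, f k s) = fun s => ∑ k ∈ K, Ex pw st t (f k) s := by
  classical
  induction K using Finset.induction_on with
  | empty =>
    simp only [Finset.sum_empty]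
    have := Ex_smul (pw := pw) (st := st) t 0 (fun _ => 0)
    simpa using this
  | insert a K ha ih =>
    simp only [Finset.sum_insert ha]
    rw [Ex_add t (f a) (fun s => ∑ k ∈ K, f k s), ih]

variable (hpw : ∀ i, 0 ≤ pw i)
include hpw

lemma Pop_mono {f g : S → ℝ} (h : ∀ s, f s ≤ g s) (s : S) : Pop pw st f s ≤ Pop pw st g s :=
  Finset.sum_le_sum fun i _ => mul_le_mul_of_nonneg_left (h _) (hpw i)

/-- monotonicity along an invariant set -/
lemma Ex_mono_on {A : Set S} (hA : ∀ i, ∀ s ∈ A, st i s ∈ A) {f g : S → ℝ}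
    (h : ∀ s ∈ A, f s ≤ g s) (t : ℕ) : ∀ s ∈ A, Ex pw st t f s ≤ Ex pw st t g s := by
  induction t with
  | zero => exact h
  | succ t ih =>
    intro s hs
    rw [Ex_succ', Ex_succ']
    exact Finset.sum_le_sum fun i _ => mul_le_mul_of_nonneg_left (ih _ (hA i s hs)) (hpw i)

lemma Ex_mono {f g : S → ℝ} (h : ∀ s, f s ≤ g s) (t : ℕ) (s : S) :
    Ex pw st t f s ≤ Ex pw st t g s :=
  Ex_mono_on hpw (A := Set.univ) (fun _ _ _ => trivial) (fun s _ => h s) t s trivial

lemma Ex_congr_on {A : Set S} (hA : ∀ i, ∀ s ∈ A, st i s ∈ A) {f g : S → ℝ}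
    (h : ∀ s ∈ A, f s = g s) (t : ℕ) : ∀ s ∈ A, Ex pw st t f s = Ex pw st t g s :=
  fun s hs => le_antisymm (Ex_mono_on hpw hA (fun s hs => (h s hs).le) t s hs)
    (Ex_mono_on hpw hA (fun s hs => (h s hs).ge) t s hs)

lemma Ex_nonneg {f : S → ℝ} (h : ∀ s, 0 ≤ f s) (t : ℕ) (s : S) : 0 ≤ Ex pw st t f s := by
  have h1 := Ex_mono (st := st) hpw (f := fun _ => 0) (g := f) h t s
  have h2 := Ex_smul (pw := pw) (st := st) t 0 (fun _ => 0)
  simp only [zero_mul] at h2
  rw [h2] at h1
  exact h1

omit hpw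

lemma Ex_const (h1 : ∑ i, pw i = 1) (c : ℝ) (t : ℕ) : Ex pw st t (fun _ => c) = fun _ => c := by
  induction t with
  | zero => rfl
  | succ t ih =>
    rw [Ex_succ]
    have : Pop pw st (fun _ => c) = fun _ => c := by
      funext s; simp [Pop, ← Finset.sum_mul, h1]
    rw [this, ih]

/-- forward run along a finite index sequence -/
def runF (st : ι → S → S) : (t : ℕ) → (Fin t → ι) → S → S
  | 0, _, s => s
  | t + 1, j, s => st (j (Fin.last t)) (runF st t (fun k => j k.castSucc) s)

omit [Fintype ι] in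
lemma runF_succ (t : ℕ) (j : Fin (t + 1) → ι) (s : S) :
    runF st (t + 1) j s = st (j (Fin.last t)) (runF st t (fun k => j k.castSucc) s) := rfl

/-- the iterated operator as a sum over paths -/
lemma Ex_eq_sum (t : ℕ) (f : S → ℝ) (s : S) :
    Ex pw st t f s = ∑ j : Fin t → ι, (∏ k, pw (j k)) * f (runF st t j s) := by
  induction t generalizing f with
  | zero => simp [runF]
  | succ t ih =>
    rw [Ex_succ, ih]
    simp only [Pop, Finset.mul_sum]
    rw [← (Fin.snocEquiv (fun _ : Fin (t + 1) => ι)).sum_comp, Fintype.sum_prod_type,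
      Finset.sum_comm]
    apply Finset.sum_congr rfl
    intro j _
    apply Finset.sum_congr rfl
    intro i _
    rw [Fin.prod_univ_castSucc, runF_succ]
    simp only [Fin.snocEquiv_apply, Fin.snoc_castSucc, Fin.snoc_last]
    ring

/-- `runF` along the restriction of an infinite index sequence -/
def runN (st : ι → S → S) (i : ℕ → ι) : ℕ → S → S
  | 0, s => s
  | t + 1, s => st (i t) (runN st i t s)

omit [Fintype ι] in
lemma runN_eq_runF (i : ℕ → ι) (t : ℕ) (j : Fin t → ι) (h : ∀ k : Fin t, i k = j k) (s : S) :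
    runN st i t s = runF st t j s := by
  induction t with
  | zero => rfl
  | succ t ih =>
    rw [runN, runF_succ, ih (fun k => j k.castSucc) (fun k => h k.castSucc)]
    have := h (Fin.last t)
    simp only [Fin.val_last] at this
    rw [this]

end Pool.Agent.Hhelper29.CG
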