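import Pool.Agent.Hhelper29.CG.Growth

/-!
The core lemma: a polynomial of degree `t` with small energy gives, after multiplication by
suitable polynomials, a polynomial bounded on a whole interval `[0, λ_κ]`.
-/

namespace Pool.Agent.Hhelper29.CG

open Polynomial Finset

section pigeon

variable {p b E : ℝ} {n ℓ : ℕ} {μ : ℕ → ℝ} {q : ℝ[X]}

/-- pigeonhole over blocks -/
lemma pigeon (hμ : ∀ k, 0 ≤ μ k)
    (hgood : ∀ u, u + ℓ ≤ n → ∃ k, u ≤ k ∧ k < u + ℓ ∧ b ≤ μ k)
    (hE : ∑ k ∈ range n, lam p k * (q.eval (lam p k)) ^ 2 * μ k ≤ E)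
    {u m : ℕ} (hm : 1 ≤ m) (hu : u + m * ℓ ≤ n) :
    ∃ k, u ≤ k ∧ k < u + m * ℓ ∧ b ≤ μ k ∧ lam p k * (q.eval (lam p k)) ^ 2 * (b * m) ≤ E := by
  by_contra hc
  push Not at hc
  have hex : ∀ i : ℕ, ∃ k, i < m → (u + i * ℓ ≤ k ∧ k < u + (i + 1) * ℓ ∧ b ≤ μ k) := by
    intro i
    by_cases hi : i < m
    · obtain ⟨k, h1, h2, h3⟩ := hgood (u + i * ℓ) (by
        have : (i + 1) * ℓ ≤ m * ℓ := Nat.mul_le_mul_right ℓ hi
        rw [add_mul, one_mul] at this
        omega)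
      refine ⟨k, fun _ => ⟨h1, ?_, h3⟩⟩
      rw [add_mul, one_mul]; omega
    · exact ⟨0, fun h => absurd h hi⟩
  choose f hf using hex
  have hinj : Set.InjOn f (range m) := by
    have hlt : ∀ i j, i < m → j < m → i < j → f i < f j := by
      intro i j hi hj hij
      have h1 := (hf i hi).2.1
      have h2 := (hf j hj).1
      have h3 : (i + 1) * ℓ ≤ j * ℓ := Nat.mul_le_mul_right ℓ hij
      omega
    intro i hi j hj hij
    have hi' : i < m := by simpa using hi
    have hj' : j < m := by simpa using hj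
    rcases lt_trichotomy i j with h | h | h
    · exact absurd hij (hlt i j hi' hj' h).ne
    · exact h
    · exact absurd hij (hlt j i hj' hi' h).ne'
  have hmpos : (0:ℝ) < m := by exact_mod_cast hm
  have hbig : ∀ i ∈ range m, E / m < lam p (f i) * (q.eval (lam p (f i))) ^ 2 * μ (f i) := by
    intro i hi
    have hi' : i < m := mem_range.mp hi
    obtain ⟨h1, h2, h3⟩ := hf i hi'
    have h4 : (i + 1) * ℓ ≤ m * ℓ := Nat.mul_le_mul_right ℓ hi'
    have h5 := hc (f i) (by omega) (by omega) h3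
    rw [div_lt_iff₀ hmpos]
    have h6 := lam_pos p (f i)
    calc E < lam p (f i) * (q.eval (lam p (f i))) ^ 2 * (b * m) := h5
      _ = lam p (f i) * (q.eval (lam p (f i))) ^ 2 * b * m := by ring
      _ ≤ lam p (f i) * (q.eval (lam p (f i))) ^ 2 * μ (f i) * m := by gcongr
  have h7 : E < ∑ i ∈ range m, lam p (f i) * (q.eval (lam p (f i))) ^ 2 * μ (f i) := by
    calc E = ∑ _i ∈ range m, E / m := by
          rw [sum_const, card_range, nsmul_eq_mul]; field_simp
      _ < _ := sum_lt_sum_of_nonempty ⟨0, mem_range.mpr hm⟩ hbig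
  have h8 : ∑ i ∈ range m, lam p (f i) * (q.eval (lam p (f i))) ^ 2 * μ (f i)
      ≤ ∑ k ∈ range n, lam p k * (q.eval (lam p k)) ^ 2 * μ k := by
    rw [← sum_image (f := fun k => lam p k * (q.eval (lam p k)) ^ 2 * μ k) hinj]
    apply sum_le_sum_of_subset_of_nonneg
    · intro k hk
      rw [mem_image] at hk
      obtain ⟨i, hi, rfl⟩ := hk
      have hi' : i < m := mem_range.mp hi
      have h1 := (hf i hi').2.1
      have h4 : (i + 1) * ℓ ≤ m * ℓ := Nat.mul_le_mul_right ℓ hi'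
      rw [mem_range]; omega
    · intro k _ _
      have := lam_pos p k
      have := hμ k
      positivity
  linarith

end pigeon

lemma rpow_neg_convex {p x y : ℝ} (hp : 0 < p) (hx : 0 < x) (hxy : x ≤ y) :
    p * y ^ (-p - 1) * (y - x) ≤ x ^ (-p) - y ^ (-p) := by
  have hy : 0 < y := hx.trans_le hxy
  set z : ℝ := x / y with hz
  have hz0 : 0 < z := by positivity
  have h1 : 1 + p * (1 - z) ≤ z ^ (-p) := by
    rw [Real.rpow_def_of_pos hz0]
    have h2 := Real.add_one_le_exp (Real.log z * (-p))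
    have h3 := Real.log_le_sub_one_of_pos hz0
    nlinarith
  rw [hz, Real.div_rpow hx.le hy.le, le_div_iff₀ (Real.rpow_pos_of_pos hy _)] at h1
  have h4 : y ^ (-p - 1) * y = y ^ (-p) := by
    rw [← Real.rpow_add_one hy.ne']; congr 1; ring
  have h5 : (1 + p * (1 - x / y)) * y ^ (-p) = y ^ (-p) + p * y ^ (-p - 1) * (y - x) := by
    rw [← h4]; field_simp
  rw [h5] at h1
  linarith

section crude

variable {p b E : ℝ} {n ℓ t κ : ℕ} {μ : ℕ → ℝ} {q : ℝ[X]}

/-- crude exponential growth bound -/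
lemma crude_growth (hp0 : 0 < p) (hp1 : p ≤ 1) (hμ : ∀ k, 0 ≤ μ k) (hb : 0 < b)
    (hgood : ∀ u, u + ℓ ≤ n → ∃ k, u ≤ k ∧ k < u + ℓ ∧ b ≤ μ k)
    (hE : ∑ k ∈ range n, lam p k * (q.eval (lam p k)) ^ 2 * μ k ≤ E) (hE0 : 0 ≤ E)
    (hq : q.natDegree ≤ t) (hℓ : 1 ≤ ℓ) (hκ : 2 * ℓ * (t + 1) ≤ κ) (hn : 2 * κ ≤ n)
    {x : ℝ} (hx0 : 0 ≤ x) (hx : x ≤ lam p κ) :
    |q.eval x| ≤ Real.sqrt (E / b * n) * (Real.exp 1 * (32 * Real.exp 1 / p) ^ t) := by
  set g : ℕ := κ / (t + 1) with hg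
  have ht1 : 0 < t + 1 := Nat.succ_pos t
  have hg1 : 2 * ℓ ≤ g := (Nat.le_div_iff_mul_le ht1).mpr hκ
  have hg2 : (t + 1) * g ≤ κ := Nat.mul_div_le κ (t + 1)
  have hg3 : κ ≤ 2 * ((t + 1) * g) := by
    have h1 : κ < (t + 1) * (g + 1) := by
      have := Nat.lt_mul_div_succ κ ht1
      exact this
    have h2 : (t + 1) * (g + 1) ≤ (t + 1) * (2 * g) := Nat.mul_le_mul_left _ (by omega)
    calc κ ≤ (t + 1) * (2 * g) := by omega
      _ = 2 * ((t + 1) * g) := by ring
  have hκ1 : 1 ≤ κ := by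
    have : 1 ≤ 2 * ℓ * (t + 1) := Nat.one_le_iff_ne_zero.mpr (by positivity)
    omega
  have hex : ∀ i : ℕ, ∃ k, i ≤ t → (κ + i * g ≤ k ∧ k < κ + i * g + ℓ ∧ b ≤ μ k) := by
    intro i
    by_cases hi : i ≤ t
    · obtain ⟨k, h1, h2, h3⟩ := hgood (κ + i * g) (by
        have h4 : (i + 1) * g ≤ (t + 1) * g := Nat.mul_le_mul_right g (by omega)
        rw [add_mul, one_mul] at h4
        omega)
      exact ⟨k, fun _ => ⟨h1, h2, h3⟩⟩
    · exact ⟨0, fun h => absurd h hi⟩
  choose f hf using hex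
  have hfub : ∀ i ≤ t, f i + 1 ≤ 2 * κ := by
    intro i hi
    have h1 := (hf i hi).2.1
    have h4 : (i + 1) * g ≤ (t + 1) * g := Nat.mul_le_mul_right g (by omega)
    rw [add_mul, one_mul] at h4
    omega
  have hκ0 : (0:ℝ) < κ := by exact_mod_cast hκ1
  have hg0 : (0:ℝ) < g := by
    have : 0 < g := by omega
    exact_mod_cast this
  have hb' : 0 < E / b * n + 1 := by positivity
  -- bound at nodes
  have hM : ∀ i ≤ t, |q.eval (lam p (f i))| ≤ Real.sqrt (E / b * n) := by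
    intro i hi
    obtain ⟨h1, h2, h3⟩ := hf i hi
    have h4 := hfub i hi
    have h5 : lam p (f i) * (q.eval (lam p (f i))) ^ 2 * μ (f i) ≤ E := by
      refine le_trans ?_ hE
      apply single_le_sum (f := fun k => lam p k * (q.eval (lam p k)) ^ 2 * μ k) _
        (mem_range.mpr (by omega))
      intro k _
      have := lam_pos p k
      have := hμ k
      positivity
    have h6 := lam_pos p (f i)
    have h7 : lam p (f i) * (q.eval (lam p (f i))) ^ 2 * b ≤ E := by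
      refine le_trans ?_ h5
      gcongr
    have h8 : 1 / (n : ℝ) ≤ lam p (f i) := by
      unfold lam
      have h9 : (f i : ℝ) + 1 ≤ n := by
        have : f i + 1 ≤ n := by omega
        exact_mod_cast this
      have h10 : (1:ℝ) ≤ (f i : ℝ) + 1 := by
        have : (0:ℝ) ≤ f i := Nat.cast_nonneg _
        linarith
      calc 1 / (n : ℝ) ≤ 1 / ((f i : ℝ) + 1) := by
            apply one_div_le_one_div_of_le (by linarith) h9
        _ = ((f i : ℝ) + 1) ^ (-1 : ℝ) := by rw [Real.rpow_neg_one, one_div]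
        _ ≤ _ := Real.rpow_le_rpow_of_exponent_le h10 (by linarith)
    have hn0 : (0:ℝ) < n := by
      have : 0 < n := by omega
      exact_mod_cast this
    rw [← Real.sqrt_sq_eq_abs]
    apply Real.sqrt_le_sqrt
    have h11 : 1 / (n : ℝ) * (q.eval (lam p (f i))) ^ 2 * b ≤ E := by
      refine le_trans ?_ h7
      gcongr
    rw [div_mul_eq_mul_div, le_div_iff₀ hb]
    calc (q.eval (lam p (f i))) ^ 2 * b = (1 / (n : ℝ) * (q.eval (lam p (f i))) ^ 2 * b) * n := by
          field_simp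
      _ ≤ E * n := by gcongr
  -- separation
  set s : ℝ := p * (2 * (κ : ℝ)) ^ (-p - 1) * (g / 2) with hs
  have hs0 : 0 < s := by positivity
  have hsep1 : ∀ i ≤ t, ∀ j ≤ t, i < j → s * ((j : ℝ) - i) ≤ lam p (f i) - lam p (f j) := by
    intro i hi j hj hij
    obtain ⟨h1, h2, _⟩ := hf i hi
    obtain ⟨h3, h4, _⟩ := hf j hj
    have h5 := hfub j hj
    have hji : (1:ℝ) ≤ (j : ℝ) - i := by
      have : (i : ℝ) + 1 ≤ j := by exact_mod_cast hij
      linarith
    have hlg : 2 * (ℓ : ℝ) ≤ g := by exact_mod_cast hg1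
    have h6 : ((j : ℝ) - i) * (g / 2) ≤ (f j : ℝ) - f i := by
      have h7 : (κ : ℝ) + j * g ≤ f j := by exact_mod_cast h3
      have h8 : (f i : ℝ) ≤ κ + i * g + ℓ := by exact_mod_cast h2.le
      nlinarith
    have h9 : (0:ℝ) < (f i : ℝ) + 1 := by positivity
    have h10 : (f i : ℝ) + 1 ≤ (f j : ℝ) + 1 := by
      have : 0 ≤ ((j : ℝ) - i) * (g / 2) := by positivity
      linarith
    have h11 := rpow_neg_convex hp0 h9 h10
    have h12 : (2 * (κ : ℝ)) ^ (-p - 1) ≤ ((f j : ℝ) + 1) ^ (-p - 1) := by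
      apply Real.rpow_le_rpow_of_nonpos (by positivity) _ (by linarith)
      exact_mod_cast h5
    have h13 : 0 ≤ ((j : ℝ) - i) * (g / 2) := by positivity
    calc s * ((j : ℝ) - i) = p * (2 * (κ : ℝ)) ^ (-p - 1) * (((j : ℝ) - i) * (g / 2)) := by
          rw [hs]; ring
      _ ≤ p * ((f j : ℝ) + 1) ^ (-p - 1) * ((f j : ℝ) - f i) := by gcongr
      _ = p * ((f j : ℝ) + 1) ^ (-p - 1) * (((f j : ℝ) + 1) - ((f i : ℝ) + 1)) := by ring
      _ ≤ _ := h11
  have hsep : ∀ i ≤ t, ∀ j ≤ t, s * |(i : ℝ) - j| ≤ |lam p (f i) - lam p (f j)| := by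
    intro i hi j hj
    rcases lt_trichotomy i j with h | h | h
    · have h1 := hsep1 i hi j hj h
      have h2 : |(i : ℝ) - j| = j - i := by
        rw [abs_sub_comm, abs_of_nonneg]
        have : (i : ℝ) ≤ j := by exact_mod_cast h.le
        linarith
      rw [h2]
      exact h1.trans (le_abs_self _)
    · subst h; simp
    · have h1 := hsep1 j hj i hi h
      have h2 : |(i : ℝ) - j| = i - j := by
        rw [abs_of_nonneg]
        have : (j : ℝ) ≤ i := by exact_mod_cast h.le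
        linarith
      rw [h2, abs_sub_comm]
      exact h1.trans (le_abs_self _)
  have hxv : ∀ i ≤ t, |x - lam p (f i)| ≤ lam p κ := by
    intro i hi
    have h1 := lam_pos p (f i)
    have h2 : lam p (f i) ≤ lam p κ := lam_antitone hp0.le (by
      have := (hf i hi).1; exact le_trans (Nat.le_add_right _ _) this)
    rw [abs_le]; constructor <;> linarith
  have hmain := lagrange_growth hq hs0 (lam_pos p κ).le hsep hM hxv
  refine hmain.trans ?_
  apply mul_le_mul_of_nonneg_left _ (Real.sqrt_nonneg _)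
  -- numeric
  have h1 : lam p κ / s ≤ 16 * (t + 1) / p := by
    have h2 : lam p κ ≤ (κ : ℝ) ^ (-p) := by
      unfold lam
      apply Real.rpow_le_rpow_of_nonpos hκ0 (by linarith) (by linarith)
    have h3 : (2 * (κ : ℝ)) ^ (-p - 1) = 2 ^ (-p - 1) * ((κ : ℝ) ^ (-p) / κ) := by
      rw [Real.mul_rpow (by norm_num) hκ0.le, Real.rpow_sub_one hκ0.ne']
    have h4 : (1:ℝ) / 4 ≤ 2 ^ (-p - 1) := by
      calc (1:ℝ) / 4 = 2 ^ (-2 : ℝ) := by
            rw [Real.rpow_neg (by norm_num)]; norm_num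
        _ ≤ _ := Real.rpow_le_rpow_of_exponent_le (by norm_num) (by linarith)
    have h5 : 0 < (κ : ℝ) ^ (-p) := Real.rpow_pos_of_pos hκ0 _
    have h6 : p * ((1 / 4) * ((κ : ℝ) ^ (-p) / κ)) * (g / 2) ≤ s := by
      rw [hs, h3]; gcongr
    have h7 : (κ : ℝ) ≤ 2 * ((t + 1) * g) := by exact_mod_cast hg3
    rw [div_le_iff₀ hs0]
    calc lam p κ ≤ (κ : ℝ) ^ (-p) := h2
      _ = (κ : ℝ) ^ (-p) / κ * κ := by field_simp
      _ ≤ (κ : ℝ) ^ (-p) / κ * (2 * ((t + 1) * g)) := by gcongr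
      _ = 16 * (t + 1) / p * (p * ((1 / 4) * ((κ : ℝ) ^ (-p) / κ)) * (g / 2)) := by
          field_simp; ring
      _ ≤ _ := by gcongr
  have h2 : ((t : ℝ) + 1) ^ t / t.factorial ≤ Real.exp (t + 1) :=
    Real.pow_div_factorial_le_exp _ (by positivity) t
  have h3 : 0 ≤ lam p κ / s := div_nonneg (lam_pos p κ).le hs0.le
  calc (lam p κ / s) ^ t * (2 ^ t / t.factorial)
      ≤ (16 * (t + 1) / p) ^ t * (2 ^ t / t.factorial) := by gcongr
    _ = (32 / p) ^ t * (((t : ℝ) + 1) ^ t / t.factorial) := by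
        have : (32 / p) ^ t = (16 / p) ^ t * 2 ^ t := by rw [← mul_pow]; congr 1; ring
        rw [this]
        have : (16 * ((t : ℝ) + 1) / p) ^ t = (16 / p) ^ t * ((t : ℝ) + 1) ^ t := by
          rw [← mul_pow]; congr 1; ring
        rw [this]; ring
    _ ≤ (32 / p) ^ t * Real.exp (t + 1) := by gcongr
    _ = Real.exp 1 * (32 * Real.exp 1 / p) ^ t := by
        rw [Real.exp_add, mul_div_right_comm, mul_pow, ← Real.exp_nat_mul, mul_one]
        ring

end crude

end Pool.Agent.Hhelper29.CG
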