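import Pool.Agent.Hhelper29.CG.Core

/-!
The core lemma, second part.
-/

namespace Pool.Agent.Hhelper29.CG

open Polynomial Finset

section arc

variable {p b E : ℝ} {n ℓ κ : ℕ} {μ : ℕ → ℝ} {q : ℝ[X]}

/-- a good node in the arc -/
lemma arc_node (hp0 : 0 < p) (hp1 : p ≤ 1) (hμ : ∀ k, 0 ≤ μ k) (hb : 0 < b)
    (hgood : ∀ u, u + ℓ ≤ n → ∃ k, u ≤ k ∧ k < u + ℓ ∧ b ≤ μ k)
    (hE : ∑ k ∈ range n, lam p k * (q.eval (lam p k)) ^ 2 * μ k ≤ E)
    (hE0 : 0 ≤ E) (hℓ : 1 ≤ ℓ) {D : ℕ} (hD : 1 ≤ D) (hκ : 48 * D * ℓ ≤ κ)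
    (hn : 2 * (144 * (D : ℝ) ^ 2 * ((κ : ℝ) + 1) ^ p) ^ (1 / p) ≤ n)
    {xs : ℝ} (hxs0 : 0 ≤ xs) (hxs : xs ≤ lam p κ / 2) :
    ∃ (R : ℝ) (k : ℕ), 0 < R ∧ R ≤ lam p κ ∧ k < n ∧
      Real.sqrt xs ≤ Real.sqrt (lam p k) ∧
      Real.sqrt (lam p k) ≤ Real.sqrt xs + Real.sqrt (lam p κ) / (12 * D) ∧
      R / 2 ≤ lam p k ∧ lam p k ≤ lam p κ ∧
      (q.eval (lam p k)) ^ 2 ≤
        (4 * ℓ * E / b) * (R ^ (1 / p - 1) * max 1 (12 * D * Real.sqrt (R / lam p κ))) := by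
  set a : ℝ := lam p κ with ha
  have ha0 : 0 < a := lam_pos p κ
  have hD0 : (1:ℝ) ≤ D := by exact_mod_cast hD
  have hℓ0 : (1:ℝ) ≤ ℓ := by exact_mod_cast hℓ
  set sa : ℝ := Real.sqrt a with hsa
  have hsa0 : 0 < sa := Real.sqrt_pos.mpr ha0
  have hsa2 : sa ^ 2 = a := Real.sq_sqrt ha0.le
  set r1 : ℝ := Real.sqrt xs with hr1
  have hr10 : 0 ≤ r1 := Real.sqrt_nonneg _
  have hr1sq : r1 ^ 2 = xs := Real.sq_sqrt hxs0
  set r2 : ℝ := r1 + sa / (12 * D) with hr2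
  have hinc : 0 < sa / (12 * D) := by positivity
  have hr20 : 0 < r2 := by linarith
  have hr2sa : r2 ≤ sa := by
    have h1 : r1 ≤ 3 / 4 * sa := by
      rw [hr1]
      apply Real.sqrt_le_iff.mpr
      refine ⟨by positivity, ?_⟩
      rw [mul_pow, hsa2]; linarith
    have h2 : sa / (12 * D) ≤ sa / 12 := by
      apply div_le_div_of_nonneg_left hsa0.le (by norm_num) (by linarith)
    linarith
  set R : ℝ := r2 ^ 2 with hR
  have hR0 : 0 < R := by positivity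
  have hRa : R ≤ a := by
    rw [← hsa2]; exact pow_le_pow_left₀ hr20.le hr2sa 2
  have hsR : Real.sqrt R = r2 := by rw [hR]; exact Real.sqrt_sq hr20.le
  set x1 : ℝ := R ^ (-(1 / p)) with hx1
  have hx10 : 0 < x1 := Real.rpow_pos_of_pos hR0 _
  have hinvp : 0 < 1 / p := by positivity
  have hx1κ : (κ : ℝ) + 1 ≤ x1 := by
    have h1 : a ^ (-(1 / p)) = (κ : ℝ) + 1 := by
      rw [ha]; unfold lam
      rw [← Real.rpow_mul (by positivity)]
      have : -p * -(1 / p) = 1 := by field_simp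
      rw [this, Real.rpow_one]
    rw [← h1]
    exact Real.rpow_le_rpow_of_nonpos hR0 hRa (by linarith)
  have hx1n : 2 * x1 ≤ n := by
    refine le_trans ?_ hn
    have h1 : a / (144 * (D : ℝ) ^ 2) ≤ R := by
      have h2 : sa / (12 * D) ≤ r2 := by linarith
      calc a / (144 * (D : ℝ) ^ 2) = (sa / (12 * D)) ^ 2 := by
            rw [div_pow, hsa2]; ring
        _ ≤ r2 ^ 2 := pow_le_pow_left₀ hinc.le h2 2
    have h3 : x1 ≤ (a / (144 * (D : ℝ) ^ 2)) ^ (-(1 / p)) :=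
      Real.rpow_le_rpow_of_nonpos (by positivity) h1 (by linarith)
    have h4 : (a / (144 * (D : ℝ) ^ 2)) ^ (-(1 / p)) = (144 * (D : ℝ) ^ 2 * ((κ : ℝ) + 1) ^ p) ^ (1 / p) := by
      rw [Real.rpow_neg (by positivity), ← Real.inv_rpow (by positivity)]
      congr 1
      rw [inv_div, ha]; unfold lam
      rw [Real.rpow_neg (by positivity)]
      field_simp
    rw [h4] at h3
    linarith
  set τ : ℝ := min 1 (sa / (12 * D * r2)) with hτ
  have hτ0 : 0 < τ := lt_min one_pos (by positivity)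
  have hτ1 : τ ≤ 1 := min_le_left _ _
  have hτr : r2 * τ ≤ sa / (12 * D) := by
    have h1 : τ ≤ sa / (12 * D * r2) := min_le_right _ _
    calc r2 * τ ≤ r2 * (sa / (12 * D * r2)) := by gcongr
      _ = sa / (12 * D) := by field_simp
  have hκ' : 48 * (D : ℝ) * ℓ ≤ κ := by exact_mod_cast hκ
  have hx1τ : 4 * (ℓ : ℝ) ≤ x1 * τ := by
    have h1 : 1 / (12 * (D : ℝ)) ≤ τ := by
      rw [hτ]
      apply le_min
      · rw [div_le_one (by positivity)]; linarith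
      · rw [div_le_div_iff₀ (by positivity) (by positivity)]
        nlinarith
    calc 4 * (ℓ : ℝ) = (48 * (D : ℝ) * ℓ) * (1 / (12 * (D : ℝ))) := by field_simp; norm_num
      _ ≤ κ * (1 / (12 * (D : ℝ))) := by gcongr
      _ ≤ x1 * τ := by gcongr; linarith
  have hℓpos : (0:ℝ) < ℓ := by linarith
  set u : ℕ := ⌈x1⌉₊ - 1 with hu
  have hceil1 : 1 ≤ ⌈x1⌉₊ := Nat.one_le_iff_ne_zero.mpr (by
    intro h; exact absurd (Nat.ceil_eq_zero.mp h) (not_le.mpr hx10))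
  have hu1 : x1 ≤ (u : ℝ) + 1 := by
    rw [hu, Nat.cast_sub hceil1]; push_cast
    have := Nat.le_ceil x1
    linarith
  have hu2 : (u : ℝ) < x1 := by
    rw [hu, Nat.cast_sub hceil1]; push_cast
    have := Nat.ceil_lt_add_one hx10.le
    linarith
  set m : ℕ := ⌊(x1 * τ - 1) / ℓ⌋₊ with hm
  have hnn : 0 ≤ (x1 * τ - 1) / ℓ := by
    apply div_nonneg _ hℓpos.le; linarith
  have hm1 : (m : ℝ) * ℓ ≤ x1 * τ - 1 := by
    have := Nat.floor_le hnn
    rwa [← hm, le_div_iff₀ hℓpos] at this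
  have hm2 : x1 * τ / (2 * ℓ) ≤ m := by
    have h1 := Nat.sub_one_lt_floor ((x1 * τ - 1) / ℓ)
    rw [← hm] at h1
    have h2 : 4 ≤ x1 * τ / ℓ := by rw [le_div_iff₀ hℓpos]; exact hx1τ
    have h3 : 1 / (ℓ : ℝ) ≤ 1 := by rw [div_le_one hℓpos]; exact hℓ0
    have h4 : (x1 * τ - 1) / ℓ = x1 * τ / ℓ - 1 / ℓ := by ring
    have h5 : x1 * τ / (2 * ℓ) = x1 * τ / ℓ / 2 := by rw [div_div]; congr 1; ring
    rw [h4] at h1
    rw [h5]; linarith
  have hmpos : (0:ℝ) < m := lt_of_lt_of_le (by positivity) hm2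
  have hm3 : 1 ≤ m := by exact_mod_cast hmpos
  have hfit : u + m * ℓ ≤ n := by
    have h1 : (u : ℝ) + m * ℓ ≤ n := by
      have : x1 * τ ≤ x1 := by nlinarith
      linarith
    exact_mod_cast h1
  obtain ⟨k, hk1, hk2, hk3, hk4⟩ := pigeon hμ hgood hE hm3 hfit
  have hk1' : x1 ≤ (k : ℝ) + 1 := by
    have : (u : ℝ) ≤ k := by exact_mod_cast hk1
    linarith
  have hk2' : (k : ℝ) + 1 ≤ x1 * (1 + τ) := by
    have : (k : ℝ) + 1 ≤ u + m * ℓ := by exact_mod_cast hk2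
    nlinarith
  have hx1p : x1 ^ (-p) = R := by
    rw [hx1, ← Real.rpow_mul hR0.le]
    have : -(1 / p) * -p = 1 := by field_simp
    rw [this, Real.rpow_one]
  have hlk1 : lam p k ≤ R := by
    rw [← hx1p]; unfold lam
    exact Real.rpow_le_rpow_of_nonpos hx10 hk1' (by linarith)
  have hlk2 : R / (1 + τ) ≤ lam p k := by
    calc R / (1 + τ) = R * (1 + τ) ^ (-1 : ℝ) := by rw [Real.rpow_neg_one]; rfl
      _ ≤ R * (1 + τ) ^ (-p) := by
          gcongr
          · linarith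
      _ = (x1 * (1 + τ)) ^ (-p) := by
          rw [Real.mul_rpow hx10.le (by linarith), hx1p]
      _ ≤ lam p k := by
          unfold lam
          exact Real.rpow_le_rpow_of_nonpos (by positivity) hk2' (by linarith)
  have hlk0 := lam_pos p k
  have hkn : k < n := by omega
  have hlk3 : R / 2 ≤ lam p k := by
    refine le_trans ?_ hlk2
    apply div_le_div_of_nonneg_left hR0.le (by linarith) (by linarith)
  refine ⟨R, k, hR0, hRa, hkn, ?_, ?_, hlk3, hlk1.trans hRa, ?_⟩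
  · -- sqrt lower
    apply Real.le_sqrt_of_sq_le
    refine le_trans ?_ hlk2
    have h1 : r1 ≤ r2 * (1 - τ) := by
      have h0 : r2 * (1 - τ) = r2 - r2 * τ := by ring
      rw [h0]; linarith
    have h2 : r1 ^ 2 ≤ (r2 * (1 - τ)) ^ 2 := pow_le_pow_left₀ hr10 h1 2
    rw [le_div_iff₀ (by linarith)]
    have h3 : (1 - τ) ^ 2 * (1 + τ) ≤ 1 := by
      have : (1 - τ) ^ 2 * (1 + τ) = (1 - τ) * (1 - τ ^ 2) := by ring
      rw [this]
      have h4 : 0 ≤ 1 - τ := by linarith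
      have h5 : 0 ≤ τ ^ 2 := sq_nonneg τ
      nlinarith
    calc r1 ^ 2 * (1 + τ) ≤ (r2 * (1 - τ)) ^ 2 * (1 + τ) := by gcongr
      _ = R * ((1 - τ) ^ 2 * (1 + τ)) := by rw [hR]; ring
      _ ≤ R * 1 := by gcongr
      _ = R := mul_one R
  · calc Real.sqrt (lam p k) ≤ Real.sqrt R := Real.sqrt_le_sqrt hlk1
      _ = r2 := hsR
      _ = _ := hr2
  · -- energy bound
    have h1 : (q.eval (lam p k)) ^ 2 ≤ E / (lam p k * (b * m)) := by
      rw [le_div_iff₀ (by positivity)]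
      calc (q.eval (lam p k)) ^ 2 * (lam p k * (b * m))
          = lam p k * (q.eval (lam p k)) ^ 2 * (b * m) := by ring
        _ ≤ E := hk4
    have h2 : E / (lam p k * (b * m)) ≤ E / (R / 2 * (b * (x1 * τ / (2 * ℓ)))) := by
      apply div_le_div_of_nonneg_left hE0 (by positivity)
      gcongr
    have h3 : E / (R / 2 * (b * (x1 * τ / (2 * ℓ)))) = (4 * ℓ * E / b) * ((1 / (R * x1)) * (1 / τ)) := by
      field_simp; ring
    have h4 : 1 / (R * x1) = R ^ (1 / p - 1) := by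
      rw [hx1, one_div, mul_inv, ← Real.rpow_neg hR0.le, neg_neg, ← Real.rpow_neg_one,
        ← Real.rpow_add hR0]
      congr 1; ring
    have h5 : 1 / τ ≤ max 1 (12 * D * Real.sqrt (R / a)) := by
      have h6 : Real.sqrt (R / a) = r2 / sa := by rw [Real.sqrt_div hR0.le, hsR]
      rw [h6, hτ]
      rcases le_total 1 (sa / (12 * D * r2)) with h | h
      · rw [min_eq_left h]; simp
      · rw [min_eq_right h]
        apply le_max_of_le_right
        apply le_of_eq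
        field_simp
    calc (q.eval (lam p k)) ^ 2 ≤ _ := h1
      _ ≤ _ := h2
      _ = _ := h3
      _ ≤ _ := by
          rw [h4]
          have : 0 ≤ R ^ (1 / p - 1) := Real.rpow_nonneg hR0.le _
          gcongr

end arc

/-- the elementary inequality used to combine the bounds -/
lemma combine_ineq {p R Λ c : ℝ} (hp0 : 0 < p) (hp1 : p ≤ 1) (hR : 0 < R) (hΛ : 0 < Λ) (hc : 1 ≤ c)
    {m : ℕ} (hm : 1 / p ≤ m) :
    R ^ (1 / p - 1) * max 1 (c * Real.sqrt (R / Λ)) * min 1 ((Λ / R) ^ (2 * m)) ≤ c * Λ ^ (1 / p - 1) := by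
  have h1p : 0 ≤ 1 / p - 1 := by
    have : 1 ≤ 1 / p := by rw [le_div_iff₀ hp0]; linarith
    linarith
  rcases le_total R Λ with h | h
  · have h1 : R ^ (1 / p - 1) ≤ Λ ^ (1 / p - 1) := Real.rpow_le_rpow hR.le h h1p
    have h2 : max 1 (c * Real.sqrt (R / Λ)) ≤ c := by
      apply max_le hc
      have : Real.sqrt (R / Λ) ≤ 1 := by
        rw [Real.sqrt_le_one]
        rw [div_le_one hΛ]; exact h
      nlinarith
    have h3 : min 1 ((Λ / R) ^ (2 * m)) ≤ 1 := min_le_left _ _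
    have h4 : 0 ≤ R ^ (1 / p - 1) := Real.rpow_nonneg hR.le _
    have h5 : 0 ≤ min 1 ((Λ / R) ^ (2 * m)) := le_min zero_le_one (by positivity)
    calc R ^ (1 / p - 1) * max 1 (c * Real.sqrt (R / Λ)) * min 1 ((Λ / R) ^ (2 * m))
        ≤ Λ ^ (1 / p - 1) * c * 1 := by gcongr
      _ = _ := by ring
  · set y : ℝ := R / Λ with hy
    have hy1 : 1 ≤ y := by rw [hy, le_div_iff₀ hΛ]; linarith
    have hy0 : 0 < y := by linarith
    have hRy : R = Λ * y := by rw [hy]; field_simp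
    have h1 : R ^ (1 / p - 1) = Λ ^ (1 / p - 1) * y ^ (1 / p - 1) := by
      rw [hRy, Real.mul_rpow hΛ.le hy0.le]
    have h2 : max 1 (c * Real.sqrt y) = c * Real.sqrt y := by
      apply max_eq_right
      have : 1 ≤ Real.sqrt y := Real.one_le_sqrt.mpr hy1
      nlinarith
    have h3 : min 1 ((Λ / R) ^ (2 * m)) ≤ y ^ (-(2 * (m : ℝ))) := by
      refine (min_le_right _ _).trans (le_of_eq ?_)
      have : Λ / R = y⁻¹ := by rw [hy, inv_div]
      rw [this, Real.rpow_neg hy0.le, inv_pow]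
      congr 1
      rw [← Real.rpow_natCast]; push_cast; rfl
    rw [h1, h2]
    have h4 : 0 ≤ Λ ^ (1 / p - 1) := Real.rpow_nonneg hΛ.le _
    have h5 : y ^ (1 / p - 1) * Real.sqrt y * y ^ (-(2 * (m : ℝ))) ≤ 1 := by
      rw [Real.sqrt_eq_rpow, ← Real.rpow_add hy0, ← Real.rpow_add hy0]
      apply Real.rpow_le_one_of_one_le_of_nonpos hy1
      have : 0 < 1 / p := by positivity
      linarith
    have h6 : 0 ≤ Real.sqrt y := Real.sqrt_nonneg _
    have h7 : 0 ≤ y ^ (1 / p - 1) := Real.rpow_nonneg hy0.le _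
    calc Λ ^ (1 / p - 1) * y ^ (1 / p - 1) * (c * Real.sqrt y) * min 1 ((Λ / R) ^ (2 * m))
        ≤ Λ ^ (1 / p - 1) * y ^ (1 / p - 1) * (c * Real.sqrt y) * y ^ (-(2 * (m : ℝ))) := by gcongr
      _ = c * Λ ^ (1 / p - 1) * (y ^ (1 / p - 1) * Real.sqrt y * y ^ (-(2 * (m : ℝ)))) := by ring
      _ ≤ c * Λ ^ (1 / p - 1) * 1 := by
          have : 0 ≤ c := by linarith
          gcongr
      _ = _ := mul_one _

end Pool.Agent.Hhelper29.CG
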