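import Pool.Agent.Hhelper29.CG.Core2

/-!
The core lemma.
-/

namespace Pool.Agent.Hhelper29.CG

open Polynomial Finset

/-- the degree constants -/
noncomputable def cM (p : ℝ) : ℕ := ⌈1 / p⌉₊
noncomputable def cP (p : ℝ) : ℕ := ⌈2 + 2 * Real.log (32 * Real.exp 1 / p) + 3 / p⌉₊
noncomputable def cD (p : ℝ) : ℕ := 1 + cM p + cP p

lemma one_le_cD (p : ℝ) : 1 ≤ cD p := by unfold cD; omega

theorem core {p b E : ℝ} {n ℓ κ t : ℕ} {μ : ℕ → ℝ} {q : ℝ[X]}
    (hp0 : 0 < p) (hp1 : p ≤ 1) (hμ : ∀ k, 0 ≤ μ k) (hb : 0 < b)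
    (hgood : ∀ u, u + ℓ ≤ n → ∃ k, u ≤ k ∧ k < u + ℓ ∧ b ≤ μ k)
    (hE : ∑ k ∈ range n, lam p k * (q.eval (lam p k)) ^ 2 * μ k ≤ E)
    (hE0 : 0 ≤ E) (hq : q.natDegree ≤ t) (hq0 : q.eval 0 = 1)
    (hℓ : 1 ≤ ℓ) (ht : 1 ≤ t) (htlog : Real.log n ≤ t) (htn : t ≤ n)
    (hκ : 48 * (cD p * t) * ℓ ≤ κ)
    (hn : 2 * (144 * ((cD p * t : ℕ) : ℝ) ^ 2 * ((κ : ℝ) + 1) ^ p) ^ (1 / p) ≤ n)
    (hκn : 2 * κ ≤ n) :
    ∃ F : ℝ[X], F.natDegree ≤ cD p * t ∧ F.eval 0 = 1 ∧
      (∀ x ∈ Set.Icc (0:ℝ) (lam p κ), |F.eval x| ≤ |q.eval x|) ∧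
      (∀ x ∈ Set.Icc (0:ℝ) (lam p κ), (F.eval x) ^ 2 ≤
        272 * cD p * (ℓ * E / b) * (2 * lam p κ / (t : ℝ) ^ 2) ^ (1 / p - 1)) := by
  set a : ℝ := lam p κ with ha
  have ha0 : 0 < a := lam_pos p κ
  set m : ℕ := cM p with hm
  set N : ℕ := cP p * t with hN
  set D : ℕ := cD p * t with hD
  set G : ℝ[X] := (fej t a) ^ m * (1 - C (1 / a) * X) ^ N with hG
  set F : ℝ[X] := q * G with hF
  have ht0 : (1:ℝ) ≤ t := by exact_mod_cast ht
  have htne : t ≠ 0 := by omega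
  have hcD1 : (1:ℝ) ≤ cD p := by exact_mod_cast one_le_cD p
  have hℓ0 : (1:ℝ) ≤ ℓ := by exact_mod_cast hℓ
  have hD1 : 1 ≤ D := by
    rw [hD]; exact Nat.one_le_iff_ne_zero.mpr (Nat.mul_ne_zero (by have := one_le_cD p; omega) htne)
  have hFd : F.natDegree ≤ D := by
    have h1 : ((fej t a) ^ m).natDegree ≤ m * (t - 1) :=
      natDegree_pow_le_of_le m (fej_natDegree t a)
    have h2 : ((1 - C (1 / a) * X : ℝ[X]) ^ N).natDegree ≤ N * 1 := by
      apply natDegree_pow_le_of_le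
      refine (natDegree_sub_le _ _).trans (max_le (by simp) ?_)
      exact (natDegree_C_mul_le _ _).trans natDegree_X_le
    have h3 : G.natDegree ≤ m * (t - 1) + N * 1 := (natDegree_mul_le).trans (Nat.add_le_add h1 h2)
    have h4 : F.natDegree ≤ t + (m * (t - 1) + N * 1) := (natDegree_mul_le).trans (Nat.add_le_add hq h3)
    refine h4.trans ?_
    have h5 : m * (t - 1) ≤ m * t := Nat.mul_le_mul_left m (Nat.sub_le t 1)
    rw [hD, cD, add_mul, add_mul, one_mul, mul_one, ← hm, ← hN]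
    omega
  have hGeval : ∀ x, G.eval x = ((fej t a).eval x) ^ m * (1 - x / a) ^ N := by
    intro x
    simp only [hG, eval_mul, eval_pow, eval_sub, eval_one, eval_C, eval_X]
    congr 2; ring
  have hF0 : F.eval 0 = 1 := by
    rw [hF, eval_mul, hq0, hGeval, fej_zero htne]; simp
  have hlin : ∀ x ∈ Set.Icc (0:ℝ) a, |1 - x / a| ≤ 1 := by
    intro x hx
    have h1 : 0 ≤ x / a := div_nonneg hx.1 ha0.le
    have h2 : x / a ≤ 1 := (div_le_one ha0).mpr hx.2
    rw [abs_le]; constructor <;> linarith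
  have hG1 : ∀ x ∈ Set.Icc (0:ℝ) a, |G.eval x| ≤ 1 := by
    intro x hx
    rw [hGeval, abs_mul, abs_pow, abs_pow]
    have h1 := fej_abs_le_one htne ha0 hx.1 hx.2
    have h2 := hlin x hx
    calc |(fej t a).eval x| ^ m * |1 - x / a| ^ N ≤ 1 ^ m * 1 ^ N := by gcongr
      _ = 1 := by simp
  have hFq : ∀ x ∈ Set.Icc (0:ℝ) a, |F.eval x| ≤ |q.eval x| := by
    intro x hx
    rw [hF, eval_mul, abs_mul]
    have := hG1 x hx
    have h1 := abs_nonneg (q.eval x)
    nlinarith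
  refine ⟨F, hFd, hF0, hFq, ?_⟩
  -- the maximum
  have hcont : ContinuousOn (fun x => |F.eval x|) (Set.Icc (0:ℝ) a) :=
    (F.continuous.abs).continuousOn
  obtain ⟨xs, hxs, hmax⟩ := isCompact_Icc.exists_isMaxOn (Set.nonempty_Icc.mpr ha0.le) hcont
  set K : ℝ := |F.eval xs| with hK
  have hKmax : ∀ x ∈ Set.Icc (0:ℝ) a, |F.eval x| ≤ K := fun x hx => hmax hx
  have hK1 : 1 ≤ K := by
    have := hKmax 0 ⟨le_rfl, ha0.le⟩
    rwa [hF0, abs_one] at this
  set Λ : ℝ := 2 * a / (t : ℝ) ^ 2 with hΛ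
  have hΛ0 : 0 < Λ := by positivity
  set B : ℝ := 272 * cD p * (ℓ * E / b) * Λ ^ (1 / p - 1) with hB
  suffices hKB : K ^ 2 ≤ B by
    intro x hx
    rw [← sq_abs]
    exact (pow_le_pow_left₀ (abs_nonneg _) (hKmax x hx) 2).trans hKB
  have hn0 : (0:ℝ) < n := by
    have : 0 < n := by omega
    exact_mod_cast this
  have hn1 : (1:ℝ) ≤ n := by
    have : 1 ≤ n := by omega
    exact_mod_cast this
  have hΛp : 0 ≤ 1 / p - 1 := by
    have : 1 ≤ 1 / p := by rw [le_div_iff₀ hp0]; linarith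
    linarith
  rcases le_or_gt xs (a / 2) with hcase | hcase
  · -- arc case
    obtain ⟨R, k, hR0, hRa, hkn, h1, h2, h3, h4, h5⟩ := arc_node hp0 hp1 hμ hb hgood hE hE0 hℓ hD1
      hκ hn hxs.1 hcase
    have hlk := lam_pos p k
    have h6 := arc_lower hD1 hFd ha0 (by linarith) hKmax hxs.1 hcase rfl hlk.le h1 h2
    have h7 : (K / 2) ^ 2 ≤ (F.eval (lam p k)) ^ 2 := by
      rw [← sq_abs (F.eval (lam p k))]
      exact pow_le_pow_left₀ (by linarith) h6 2
    have hGk : (G.eval (lam p k)) ^ 2 ≤ min 1 ((Λ / R) ^ (2 * m)) := by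
      apply le_min
      · rw [← sq_abs]
        exact pow_le_one₀ (abs_nonneg _) (hG1 _ ⟨hlk.le, h4⟩)
      · rw [hGeval, mul_pow, ← pow_mul, ← pow_mul]
        have h8 := fej_abs_le htne ha0 hlk h4
        have h9 : |(fej t a).eval (lam p k)| ≤ Λ / R := by
          refine h8.trans ?_
          rw [hΛ, div_div]
          rw [div_le_div_iff₀ (by positivity) (by positivity)]
          have h10 : a * ((t : ℝ) ^ 2 * R) = 2 * a * ((t : ℝ) ^ 2 * (R / 2)) := by ring
          rw [h10]; gcongr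
        have h10 : ((fej t a).eval (lam p k)) ^ (m * 2) ≤ (Λ / R) ^ (2 * m) := by
          rw [mul_comm m 2, pow_mul, pow_mul, ← sq_abs]
          gcongr
        have h11 : (1 - lam p k / a) ^ (N * 2) ≤ 1 := by
          rw [mul_comm N 2, pow_mul, ← sq_abs]
          apply pow_le_one₀ (sq_nonneg _)
          exact pow_le_one₀ (abs_nonneg _) (hlin _ ⟨hlk.le, h4⟩)
        have h12 : 0 ≤ (1 - lam p k / a) ^ (N * 2) := by
          rw [mul_comm N 2, pow_mul]; positivity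
        calc ((fej t a).eval (lam p k)) ^ (m * 2) * (1 - lam p k / a) ^ (N * 2)
            ≤ (Λ / R) ^ (2 * m) * 1 := by
              apply mul_le_mul h10 h11 h12 (by positivity)
          _ = _ := mul_one _
    have h8 : (F.eval (lam p k)) ^ 2 = (q.eval (lam p k)) ^ 2 * (G.eval (lam p k)) ^ 2 := by
      rw [hF, eval_mul, mul_pow]
    have hmx : max 1 (12 * (D : ℝ) * Real.sqrt (R / a)) ≤ max 1 (17 * cD p * Real.sqrt (R / Λ)) := by
      apply max_le_max le_rfl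
      have h9 : R / a = (2 / (t : ℝ) ^ 2) * (R / Λ) := by
        rw [hΛ]; field_simp
      rw [h9, Real.sqrt_mul (by positivity), Real.sqrt_div (by norm_num), Real.sqrt_sq (by linarith)]
      have h10 : Real.sqrt 2 ≤ 17 / 12 := by
        apply Real.sqrt_le_iff.mpr; norm_num
      have h11 : (D : ℝ) = cD p * t := by rw [hD]; push_cast; ring
      rw [h11]
      calc 12 * ((cD p : ℝ) * t) * (Real.sqrt 2 / t * Real.sqrt (R / Λ))
          = 12 * cD p * Real.sqrt 2 * Real.sqrt (R / Λ) := by field_simp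
        _ ≤ 12 * cD p * (17 / 12) * Real.sqrt (R / Λ) := by gcongr
        _ = _ := by ring
    have hcomb := combine_ineq hp0 hp1 hR0 hΛ0 (c := 17 * cD p) (by linarith) (m := m)
      (by rw [hm]; exact Nat.le_ceil _)
    have hRp : 0 ≤ R ^ (1 / p - 1) := Real.rpow_nonneg hR0.le _
    have hmin0 : 0 ≤ min 1 ((Λ / R) ^ (2 * m)) := le_min zero_le_one (by positivity)
    have h4ℓ : 0 ≤ 4 * ℓ * E / b := by positivity
    have h9 : (K / 2) ^ 2 ≤ (4 * ℓ * E / b) * (17 * cD p * Λ ^ (1 / p - 1)) := by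
      calc (K / 2) ^ 2 ≤ (q.eval (lam p k)) ^ 2 * (G.eval (lam p k)) ^ 2 := by rw [← h8]; exact h7
        _ ≤ ((4 * ℓ * E / b) * (R ^ (1 / p - 1) * max 1 (12 * D * Real.sqrt (R / a)))) *
              min 1 ((Λ / R) ^ (2 * m)) := by
            apply mul_le_mul h5 hGk (sq_nonneg _)
            apply mul_nonneg h4ℓ
            apply mul_nonneg hRp
            exact le_max_of_le_left zero_le_one
        _ ≤ ((4 * ℓ * E / b) * (R ^ (1 / p - 1) * max 1 (17 * cD p * Real.sqrt (R / Λ)))) *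
              min 1 ((Λ / R) ^ (2 * m)) := by gcongr
        _ = (4 * ℓ * E / b) * (R ^ (1 / p - 1) * max 1 (17 * cD p * Real.sqrt (R / Λ)) *
              min 1 ((Λ / R) ^ (2 * m))) := by ring
        _ ≤ _ := by gcongr
    calc K ^ 2 = 4 * (K / 2) ^ 2 := by ring
      _ ≤ 4 * ((4 * ℓ * E / b) * (17 * cD p * Λ ^ (1 / p - 1))) := by gcongr
      _ = B := by rw [hB]; ring
  · -- crude case
    have hκt : 2 * ℓ * (t + 1) ≤ κ := by
      refine le_trans ?_ hκ
      have h1 : t + 1 ≤ 2 * t := by omega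
      have h2 : 2 * t ≤ 24 * (cD p * t) := by
        have := one_le_cD p
        calc 2 * t = 2 * (1 * t) := by ring
          _ ≤ 2 * (cD p * t) := by gcongr
          _ ≤ 24 * (cD p * t) := by gcongr; norm_num
      calc 2 * ℓ * (t + 1) ≤ 2 * ℓ * (24 * (cD p * t)) := by
            gcongr; omega
        _ = 48 * (cD p * t) * ℓ := by ring
    have hcr := crude_growth hp0 hp1 hμ hb hgood hE hE0 hq hℓ hκt hκn hxs.1 hxs.2
    have h1 : K ≤ |q.eval xs| * (1 / 2) ^ N := by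
      rw [hK, hF, eval_mul, abs_mul, hGeval, abs_mul, abs_pow, abs_pow]
      have h2 := fej_abs_le_one htne ha0 hxs.1 hxs.2
      have h3 : |1 - xs / a| ≤ 1 / 2 := by
        have h4 : xs / a ≤ 1 := (div_le_one ha0).mpr hxs.2
        have h5 : 1 / 2 ≤ xs / a := by rw [le_div_iff₀ ha0]; linarith
        rw [abs_le]; constructor <;> linarith
      calc |q.eval xs| * (|(fej t a).eval xs| ^ m * |1 - xs / a| ^ N)
          ≤ |q.eval xs| * (1 ^ m * (1 / 2) ^ N) := by gcongr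
        _ = _ := by simp
    set Q : ℝ := Real.exp 1 * (32 * Real.exp 1 / p) ^ t with hQ
    have hQ0 : 0 < Q := by positivity
    have h2 : K ≤ Real.sqrt (E / b * n) * Q * (1 / 2) ^ N := h1.trans (by gcongr)
    have hEb : 0 ≤ E / b := by positivity
    have h3 : K ^ 2 ≤ (E / b * n) * (Q ^ 2 * (1 / 4) ^ N) := by
      calc K ^ 2 ≤ (Real.sqrt (E / b * n) * Q * (1 / 2) ^ N) ^ 2 :=
            pow_le_pow_left₀ (by linarith) h2 2
        _ = (Real.sqrt (E / b * n)) ^ 2 * (Q ^ 2 * ((1 / 2) ^ N) ^ 2) := by ring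
        _ = _ := by
            rw [Real.sq_sqrt (by positivity), ← pow_mul, mul_comm N 2, pow_mul]
            norm_num
    refine h3.trans ?_
    -- need n Q² 4^{-N} ≤ Λ^{1/p-1}
    have hκ1n : (κ : ℝ) + 1 ≤ n := by
      have h5 : 1 ≤ κ := le_trans (Nat.one_le_iff_ne_zero.mpr (by positivity)) hκt
      have : κ + 1 ≤ n := by omega
      exact_mod_cast this
    have ha1 : 1 / (n : ℝ) ≤ a := by
      rw [ha]; unfold lam
      have hk1 : (1:ℝ) ≤ (κ : ℝ) + 1 := by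
        have : (0:ℝ) ≤ κ := Nat.cast_nonneg _
        linarith
      calc 1 / (n : ℝ) ≤ 1 / ((κ : ℝ) + 1) := by
            apply one_div_le_one_div_of_le (by linarith) hκ1n
        _ = ((κ : ℝ) + 1) ^ (-1 : ℝ) := by rw [Real.rpow_neg_one, one_div]
        _ ≤ _ := Real.rpow_le_rpow_of_exponent_le hk1 (by linarith)
    have htn' : (t : ℝ) ≤ n := by exact_mod_cast htn
    have hΛn : (n : ℝ) ^ (-3 : ℝ) ≤ Λ := by
      have e1 : (n : ℝ) ^ (-3 : ℝ) = 1 / (n : ℝ) / (n : ℝ) ^ 2 := by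
        rw [Real.rpow_neg hn0.le]
        have : (n : ℝ) ^ (3 : ℝ) = (n : ℝ) ^ (3 : ℕ) := by norm_cast
        rw [this]; field_simp
      rw [e1, hΛ]
      have : 0 < a := ha0
      calc 1 / (n : ℝ) / (n : ℝ) ^ 2 ≤ a / (t : ℝ) ^ 2 := by gcongr
        _ ≤ 2 * a / (t : ℝ) ^ 2 := by gcongr; linarith
    have h4 : (n : ℝ) ^ (-3 * (1 / p - 1)) ≤ Λ ^ (1 / p - 1) := by
      rw [Real.rpow_mul hn0.le]
      exact Real.rpow_le_rpow (by positivity) hΛn hΛp
    have h5 : n * (Q ^ 2 * (1 / 4) ^ N) ≤ (n : ℝ) ^ (-3 * (1 / p - 1)) := by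
      have e1 : (32 * Real.exp 1 / p) ^ t = Real.exp (Real.log (32 * Real.exp 1 / p) * t) := by
        rw [← Real.rpow_natCast, Real.rpow_def_of_pos (by positivity)]
      have e2 : Q ^ 2 = Real.exp (2 + 2 * Real.log (32 * Real.exp 1 / p) * t) := by
        rw [hQ, e1, ← Real.exp_add, ← Real.exp_nat_mul]; congr 1; push_cast; ring
      have e3 : (n : ℝ) = Real.exp (Real.log n) := (Real.exp_log hn0).symm
      have e4 : (n : ℝ) ^ (-3 * (1 / p - 1)) = Real.exp (Real.log n * (-3 * (1 / p - 1))) := by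
        rw [Real.rpow_def_of_pos hn0]
      have e5 : ((1:ℝ) / 4) ^ N ≤ Real.exp (-N) := by
        have : Real.exp (-(N : ℝ)) = (Real.exp (-1)) ^ N := by
          rw [← Real.exp_nat_mul]; congr 1; ring
        rw [this]
        apply pow_le_pow_left₀ (by norm_num)
        rw [Real.exp_neg, one_div]
        apply inv_anti₀ (Real.exp_pos _)
        have := Real.exp_one_lt_d9
        linarith
      rw [e4, e2]
      have h6 : (N : ℝ) ≥ (2 + 2 * Real.log (32 * Real.exp 1 / p) + 3 / p) * t := by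
        rw [hN]; push_cast
        have : 2 + 2 * Real.log (32 * Real.exp 1 / p) + 3 / p ≤ cP p := Nat.le_ceil _
        have ht0' : (0:ℝ) ≤ t := by linarith
        nlinarith
      have h7 : (n : ℝ) * (Real.exp (2 + 2 * Real.log (32 * Real.exp 1 / p) * t) * (1 / 4) ^ N)
          ≤ Real.exp (Real.log n) * (Real.exp (2 + 2 * Real.log (32 * Real.exp 1 / p) * t) * Real.exp (-N)) := by
        rw [← e3]; gcongr
      refine h7.trans ?_
      rw [← Real.exp_add, ← Real.exp_add]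
      apply Real.exp_le_exp.mpr
      have h8 : Real.log n * (3 / p) ≤ 3 / p * t := by
        have : 0 ≤ 3 / p := by positivity
        rw [mul_comm]; gcongr
      have h9 : Real.log n * (-3 * (1 / p - 1)) = 3 * Real.log n - Real.log n * (3 / p) := by ring
      have h10 : 0 ≤ Real.log n := Real.log_nonneg hn1
      rw [h9]
      nlinarith
    calc E / b * n * (Q ^ 2 * (1 / 4) ^ N) = E / b * (n * (Q ^ 2 * (1 / 4) ^ N)) := by ring
      _ ≤ E / b * Λ ^ (1 / p - 1) := by gcongr; exact h5.trans h4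
      _ = 1 * 1 * (1 * E / b) * Λ ^ (1 / p - 1) := by ring
      _ ≤ 272 * cD p * (ℓ * E / b) * Λ ^ (1 / p - 1) := by
          gcongr
          norm_num
      _ = B := by rw [hB]

end Pool.Agent.Hhelper29.CG
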