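import Mathlib

/-!
# Definitions for MP_28e48f_an

`A = U Λ U^*`, the squared `A`-norm, Krylov spaces, conjugate gradient iterates, randomized
coordinate descent iterates, the two stopping times and the random model.
-/

namespace Pool.Agent.Hhelper29.CG

open MeasureTheory Matrix ProbabilityTheory
open scoped ENNReal

variable {n : ℕ}

/-- The eigenvalues: `lam p k = (k+1)^{-p}` for `k = 0, 1, …, n-1`. -/
noncomputable def lam (p : ℝ) (k : ℕ) : ℝ := ((k : ℝ) + 1) ^ (-p)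

/-- `A = U Λ U^*` with `Λ = diag(1^{-p}, …, n^{-p})`. -/
noncomputable def matA (p : ℝ) (U : Matrix (Fin n) (Fin n) ℂ) : Matrix (Fin n) (Fin n) ℂ :=
  U * Matrix.diagonal (fun k : Fin n => ((lam p k : ℝ) : ℂ)) * Uᴴ

/-- The squared `A`-norm `⟨A v, v⟩`. -/
noncomputable def aNormSq (A : Matrix (Fin n) (Fin n) ℂ) (v : Fin n → ℂ) : ℝ :=
  (star v ⬝ᵥ (A *ᵥ v)).re

/-- The Krylov space `span {b, A b, …, A^{t-1} b}`. -/
def krylov (A : Matrix (Fin n) (Fin n) ℂ) (b : Fin n → ℂ) (t : ℕ) : Submodule ℂ (Fin n → ℂ) :=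
  Submodule.span ℂ {v | ∃ j < t, v = (A ^ j) *ᵥ b}

/-- `x` is the `t`-th conjugate gradient iterate for `A x = b` (started at `0`): it minimises
`‖x - A⁻¹ b‖_A` over the Krylov space. -/
def IsCGIterate (A : Matrix (Fin n) (Fin n) ℂ) (b : Fin n → ℂ) (t : ℕ) (x : Fin n → ℂ) : Prop :=
  x ∈ krylov A b t ∧
    ∀ y ∈ krylov A b t, aNormSq A (x - A⁻¹ *ᵥ b) ≤ aNormSq A (y - A⁻¹ *ᵥ b)

/-- The conjugate gradient stopping time
`min {t : ‖x_t - x_⋆‖_A² ≤ ε ‖x_0 - x_⋆‖_A²}`, `x_0 = 0`, `x_⋆ = A⁻¹ b` (`⊤` if there is none). -/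
noncomputable def TCG (A : Matrix (Fin n) (Fin n) ℂ) (b : Fin n → ℂ) (ε : ℝ) : ℕ∞ :=
  ⨅ (t : ℕ) (_ : ∃ x, IsCGIterate A b t x ∧
    aNormSq A (x - A⁻¹ *ᵥ b) ≤ ε * aNormSq A (0 - A⁻¹ *ᵥ b)), (t : ℕ∞)

/-- The randomized coordinate descent iterates driven by the index sequence `i`
(`i t` is the row used in step `t + 1`). -/
noncomputable def rcd (A : Matrix (Fin n) (Fin n) ℂ) (b : Fin n → ℂ) (i : ℕ → Fin n) :
    ℕ → (Fin n → ℂ)
  | 0 => 0
  | t + 1 => rcd A b i t +
      ((b - A *ᵥ rcd A b i t) (i t) / A (i t) (i t)) • Pi.single (i t) 1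

/-- The stopping time of randomized coordinate descent (`⊤` if the accuracy is never reached). -/
noncomputable def TRCD (A : Matrix (Fin n) (Fin n) ℂ) (b : Fin n → ℂ) (i : ℕ → Fin n) (ε : ℝ) :
    ℕ∞ :=
  ⨅ (t : ℕ) (_ : aNormSq A (rcd A b i t - A⁻¹ *ᵥ b) ≤ ε * aNormSq A (0 - A⁻¹ *ᵥ b)), (t : ℕ∞)

/-- Matrices carry the product (= Borel) σ-algebra of their entries. -/
noncomputable instance matrixMeasurableSpace : MeasurableSpace (Matrix (Fin n) (Fin n) ℂ) :=
  inferInstanceAs (MeasurableSpace (Fin n → Fin n → ℂ))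

/-- The random model of the problem on an arbitrary probability space `(Ω, P)`: a Haar
distributed unitary matrix `U`, an independent uniformly distributed unit vector `z`, and row
indices which, given `(U, z)`, are i.i.d. with `P(i) = A(i,i) / tr A`.

Haar measure on the unitary group is the unique probability law invariant under left
multiplication by unitary matrices, and the uniform law on the unit sphere of `ℂ^n` is the
unique probability law on the sphere invariant under all unitary matrices. -/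
structure Model (n : ℕ) (p : ℝ) {Ω : Type*} [MeasurableSpace Ω] (P : Measure Ω) where
  /-- the random unitary matrix -/
  U : Ω → Matrix (Fin n) (Fin n) ℂ
  /-- the random solution vector -/
  z : Ω → Fin n → ℂ
  /-- the random rows: `idx t` is the row used in step `t + 1` -/
  idx : ℕ → Ω → Fin n
  prob : IsProbabilityMeasure P
  measurable_U : Measurable U
  measurable_z : Measurable z
  measurable_idx : ∀ t, Measurable (idx t)
  unitary : ∀ ω, U ω ∈ Matrix.unitaryGroup (Fin n) ℂ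
  haar : ∀ V ∈ Matrix.unitaryGroup (Fin n) ℂ,
    Measure.map (fun ω => V * U ω) P = Measure.map U P
  sphere : ∀ ω, ∑ k, ‖z ω k‖ ^ 2 = 1
  uniform : ∀ V ∈ Matrix.unitaryGroup (Fin n) ℂ,
    Measure.map (fun ω => V *ᵥ z ω) P = Measure.map z P
  indep : IndepFun U z P
  idx_law : ∀ (t : ℕ) (j : Fin t → Fin n) (S : Set (Matrix (Fin n) (Fin n) ℂ × (Fin n → ℂ))),
    MeasurableSet S →
    P {ω | (U ω, z ω) ∈ S ∧ ∀ s : Fin t, idx s ω = j s} =
      ∫⁻ ω in {ω | (U ω, z ω) ∈ S}, ∏ s : Fin t,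
        ENNReal.ofReal ((matA p (U ω) (j s) (j s)).re / (matA p (U ω)).trace.re) ∂P

section stopping

variable {p : ℝ} {Ω : Type*} [MeasurableSpace Ω] {P : Measure Ω}

/-- The stopping time of randomized coordinate descent for the random system
`A = U Λ U^*`, `b = A z`. -/
noncomputable def Model.Trcd (m : Model n p P) (ε : ℝ) (ω : Ω) : ℕ∞ :=
  TRCD (matA p (m.U ω)) (matA p (m.U ω) *ᵥ m.z ω) (fun t => m.idx t ω) ε

/-- The stopping time of the conjugate gradient method for the random system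
`A = U Λ U^*`, `b = A z`. -/
noncomputable def Model.Tcg (m : Model n p P) (ε : ℝ) (ω : Ω) : ℕ∞ :=
  TCG (matA p (m.U ω)) (matA p (m.U ω) *ᵥ m.z ω) ε

/-- The work ratio `(T_RCD / n) / T_CG` (in epochs). -/
noncomputable def Model.ratio (m : Model n p P) (ε : ℝ) (ω : Ω) : ℝ≥0∞ :=
  (m.Trcd ε ω : ℝ≥0∞) / ((n : ℝ≥0∞) * (m.Tcg ε ω : ℝ≥0∞))

end stopping

/-- `lo ≤ x ≤ hi`. -/
def Btw (lo : ℝ) (x : ℝ≥0∞) (hi : ℝ) : Prop := ENNReal.ofReal lo ≤ x ∧ x ≤ ENNReal.ofReal hi

/-- The critical degree: for `0 < p < 1` the largest `d` with `(2d+1) p < 1`. -/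
noncomputable def dcrit (p : ℝ) : ℕ := ⌈(1 - p) / (2 * p)⌉₊ - 1

/-- The critical accuracy `ε_c(p) = ∏_{i < dcrit p} ((i+1) p / (1 - (i+2) p))²`. -/
noncomputable def epsc (p : ℝ) : ℝ :=
  ∏ i ∈ Finset.range (dcrit p), (((i : ℝ) + 1) * p / (1 - ((i : ℝ) + 2) * p)) ^ 2

end Pool.Agent.Hhelper29.CG
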