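import Pool.Agent.Hhelper29.CG.ModelLaw

/-!
The random model exists for every `n ≥ 1` and every `p`.
-/

namespace Pool.Agent.Hhelper29.CG

open MeasureTheory Matrix ProbabilityTheory
open scoped ENNReal

noncomputable section

variable {n : ℕ}

/-- the unitary group -/
abbrev UG (n : ℕ) : Type := ↥(Matrix.unitaryGroup (Fin n) ℂ)

lemma compactSpace_UG : CompactSpace (UG n) := by
  have h : IsCompact ((Matrix.unitaryGroup (Fin n) ℂ : Set (Matrix (Fin n) (Fin n) ℂ))) := by
    have hK : IsCompact (Set.univ.pi (fun _ : Fin n => Set.univ.pi fun _ : Fin n =>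
        Metric.closedBall (0 : ℂ) 1)) :=
      isCompact_univ_pi fun _ => isCompact_univ_pi fun _ => isCompact_closedBall _ _
    have hK' : IsCompact ({M : Matrix (Fin n) (Fin n) ℂ | ∀ i j, M i j ∈ Metric.closedBall (0 : ℂ) 1}) := by
      have e : {M : Matrix (Fin n) (Fin n) ℂ | ∀ i j, M i j ∈ Metric.closedBall (0 : ℂ) 1}
          = (Set.univ.pi (fun _ : Fin n => Set.univ.pi fun _ : Fin n =>
        Metric.closedBall (0 : ℂ) 1)) := by
        ext M
        constructor
        · intro h i _ j _; exact h i j
        · intro h i j; exact h i (Set.mem_univ i) j (Set.mem_univ j)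
      rw [e]; exact hK
    refine hK'.of_isClosed_subset isClosed_unitary ?_
    intro M hM i j
    rw [mem_closedBall_zero_iff]
    exact entry_norm_bound_of_unitary hM i j
  exact isCompact_iff_compactSpace.mp h

lemma borelSpace_mat : BorelSpace (Matrix (Fin n) (Fin n) ℂ) :=
  inferInstanceAs (BorelSpace (Fin n → Fin n → ℂ))

lemma borelSpace_UG : BorelSpace (UG n) := by
  have := borelSpace_mat (n := n)
  infer_instance

/-- a left invariant probability measure on the unitary group exists -/
lemma exists_haar (n : ℕ) : ∃ μ : Measure (UG n), IsProbabilityMeasure μ ∧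
    ∀ g : UG n, Measure.map (fun h => g * h) μ = μ := by
  have := borelSpace_UG (n := n)
  have := compactSpace_UG (n := n)
  let K : TopologicalSpace.PositiveCompacts (UG n) := ⊤
  refine ⟨Measure.haarMeasure K, ⟨?_⟩, ?_⟩
  · have h := Measure.haarMeasure_self (K₀ := K)
    simpa [K] using h
  · intro g
    exact map_mul_left_eq_self _ g

/-- the sampling kernel -/
def samp (p : ℝ) : Kernel (UG n) (Fin n) where
  toFun g := ∑ j, ENNReal.ofReal (pwt p g.1 j) • Measure.dirac j
  measurable' := by
    apply Measure.measurable_of_measurable_coe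
    intro s hs
    simp only [Measure.coe_finsetSum, Finset.sum_apply, Measure.smul_apply, smul_eq_mul]
    apply Finset.measurable_sum
    intro j _
    apply Measurable.mul_const
    apply ENNReal.measurable_ofReal.comp
    have h : Measurable (fun U : Matrix (Fin n) (Fin n) ℂ => pwt p U j) := by
      unfold pwt
      exact (measurable_nsq.comp (measurable_rowv p j)).div_const _
    exact h.comp measurable_subtype_coe

lemma samp_apply (p : ℝ) (g : UG n) (j : Fin n) :
    samp p g {j} = ENNReal.ofReal (pwt p g.1 j) := by
  classical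
  change (∑ i, ENNReal.ofReal (pwt p g.1 i) • Measure.dirac i : Measure (Fin n)) {j} = _
  simp only [Measure.coe_finsetSum, Finset.sum_apply, Measure.smul_apply, smul_eq_mul]
  rw [Finset.sum_eq_single j]
  · simp
  · intro i _ hij
    simp [hij]
  · simp

lemma samp_markov (p : ℝ) (hn : 0 < n) : IsMarkovKernel (samp (n := n) p) := by
  refine ⟨fun g => ⟨?_⟩⟩
  change (∑ i, ENNReal.ofReal (pwt p g.1 i) • Measure.dirac i : Measure (Fin n)) Set.univ = _
  simp only [Measure.coe_finsetSum, Finset.sum_apply, Measure.smul_apply, smul_eq_mul,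
    measure_univ, mul_one]
  rw [← ENNReal.ofReal_sum_of_nonneg (fun i _ => pwt_nonneg p g.1 i), sum_pwt p hn g.2]
  simp

/-- the weights of the model are the weights `pwt` -/
lemma weight_eq (p : ℝ) (g : UG n) (j : Fin n) :
    (matA p g.1 j j).re / (matA p g.1).trace.re = pwt p g.1 j := by
  rw [matA_diag, matA_trace p g.2, Complex.ofReal_re, Complex.ofReal_re, pwt]

/-- The random model exists. -/
theorem exists_model (n : ℕ) (hn : 0 < n) (p : ℝ) :
    ∃ (Ω : Type) (_ : MeasurableSpace Ω) (P : Measure Ω), Nonempty (Model n p P) := by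
  classical
  obtain ⟨μ, hμ, hinv⟩ := exists_haar n
  have : Nonempty (Fin n) := ⟨⟨0, hn⟩⟩
  have := samp_markov (n := n) p hn
  obtain ⟨f, hf, hfmap⟩ := (samp (n := n) p).exists_measurable_map_eq_unitInterval
  let ν : Measure (ℕ → unitInterval) := Measure.infinitePi (fun _ => (volume : Measure unitInterval))
  have hν : IsProbabilityMeasure ν := by infer_instance
  let Ω : Type := (UG n × UG n) × (ℕ → unitInterval)
  let κ : Measure (UG n × UG n) := μ.prod μ
  have hκ : IsProbabilityMeasure κ := by infer_instance
  let P : Measure Ω := κ.prod ν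
  have hP : IsProbabilityMeasure P := by infer_instance
  let X : UG n × UG n → Matrix (Fin n) (Fin n) ℂ := fun q => q.1.1
  let Z : UG n × UG n → (Fin n → ℂ) := fun q => q.2.1 *ᵥ (Pi.single ⟨0, hn⟩ 1)
  have hX : Measurable X := measurable_subtype_coe.comp measurable_fst
  have hZ : Measurable Z :=
    (measurable_mulVec_left _).comp (measurable_subtype_coe.comp measurable_snd)
  have hfst : Measure.map (Prod.fst : Ω → UG n × UG n) P = κ := by
    change Measure.map Prod.fst (κ.prod ν) = κ
    rw [Measure.map_fst_prod, measure_univ, one_smul]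
  have hidxm : ∀ t : ℕ, Measurable (fun ω : Ω => f ω.1.1 (ω.2 t)) := by
    intro t
    have h1 : Measurable (fun ω : Ω => (ω.1.1, ω.2 t)) :=
      (measurable_fst.comp measurable_fst).prodMk ((measurable_pi_apply t).comp measurable_snd)
    exact hf.comp h1
  have hX1 : Measurable (fun ω : Ω => X ω.1) := hX.comp measurable_fst
  have hZ1 : Measurable (fun ω : Ω => Z ω.1) := hZ.comp measurable_fst
  refine ⟨Ω, inferInstance, P, ⟨?_⟩⟩
  refine
    { U := fun ω => X ω.1
      z := fun ω => Z ω.1
      idx := fun t ω => f ω.1.1 (ω.2 t)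
      prob := hP
      measurable_U := hX.comp measurable_fst
      measurable_z := hZ.comp measurable_fst
      measurable_idx := hidxm
      unitary := fun ω => ω.1.1.2
      haar := ?_
      sphere := ?_
      uniform := ?_
      indep := ?_
      idx_law := ?_ }
  · intro V hV
    have h1 : Measure.map (fun ω : Ω => X ω.1) P = Measure.map (fun g : UG n => g.1) μ := by
      have e : (fun ω : Ω => X ω.1) = (fun g : UG n => g.1) ∘ Prod.fst ∘ Prod.fst := rfl
      rw [e, ← Measure.map_map measurable_subtype_coe (measurable_fst.comp measurable_fst),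
        ← Measure.map_map measurable_fst measurable_fst, hfst]
      change Measure.map _ (Measure.map Prod.fst (μ.prod μ)) = _
      rw [Measure.map_fst_prod, measure_univ, one_smul]
    have h2 : Measure.map (fun ω : Ω => V * X ω.1) P
        = Measure.map (fun M => V * M) (Measure.map (fun ω : Ω => X ω.1) P) := by
      rw [Measure.map_map (measurable_mul_left V) hX1]
      rfl
    rw [h2, h1, Measure.map_map (measurable_mul_left V) measurable_subtype_coe]
    have h3 := hinv ⟨V, hV⟩
    have hm : Measurable (fun h : UG n => (⟨V, hV⟩ : UG n) * h) := by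
      apply Measurable.subtype_mk
      exact (measurable_mul_left V).comp measurable_subtype_coe
    conv_rhs => rw [← h3]
    rw [Measure.map_map measurable_subtype_coe hm]
    rfl
  · intro ω
    have h := nsq_mulVec ω.1.2.2 (Pi.single ⟨0, hn⟩ 1 : Fin n → ℂ)
    have h2 : nsq (Pi.single ⟨0, hn⟩ 1 : Fin n → ℂ) = 1 := by
      unfold nsq
      rw [Finset.sum_eq_single ⟨0, hn⟩]
      · simp
      · intro b _ hb
        simp [hb]
      · simp
    rw [h2] at h
    exact h
  · intro V hV
    have h1 : Measure.map (fun ω : Ω => Z ω.1) P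
        = Measure.map (fun g : UG n => g.1 *ᵥ (Pi.single ⟨0, hn⟩ 1 : Fin n → ℂ)) μ := by
      have e : (fun ω : Ω => Z ω.1)
        = (fun g : UG n => g.1 *ᵥ (Pi.single ⟨0, hn⟩ 1 : Fin n → ℂ)) ∘ Prod.snd ∘ Prod.fst := rfl
      have hm : Measurable (fun g : UG n => g.1 *ᵥ (Pi.single ⟨0, hn⟩ 1 : Fin n → ℂ)) :=
        (measurable_mulVec_left _).comp measurable_subtype_coe
      rw [e, ← Measure.map_map hm (measurable_snd.comp measurable_fst),
        ← Measure.map_map measurable_snd measurable_fst, hfst]
      change Measure.map _ (Measure.map Prod.snd (μ.prod μ)) = _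
      rw [Measure.map_snd_prod, measure_univ, one_smul]
    have h2 : Measure.map (fun ω : Ω => V *ᵥ Z ω.1) P
        = Measure.map (fun x => V *ᵥ x) (Measure.map (fun ω : Ω => Z ω.1) P) := by
      rw [Measure.map_map (measurable_mulVec_const V) hZ1]
      rfl
    have hm : Measurable (fun g : UG n => g.1 *ᵥ (Pi.single ⟨0, hn⟩ 1 : Fin n → ℂ)) :=
        (measurable_mulVec_left _).comp measurable_subtype_coe
    rw [h2, h1, Measure.map_map (measurable_mulVec_const V) hm]
    have h3 := hinv ⟨V, hV⟩
    have hm' : Measurable (fun h : UG n => (⟨V, hV⟩ : UG n) * h) := by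
      apply Measurable.subtype_mk
      exact (measurable_mul_left V).comp measurable_subtype_coe
    conv_rhs => rw [← h3]
    rw [Measure.map_map hm hm']
    congr 1
    funext g
    simp only [Function.comp_apply, mulVec_mulVec, Submonoid.coe_mul]
  · have h0 : IndepFun X Z κ := by
      have h := indepFun_prod (μ := μ) (ν := μ) (X := fun g : UG n => g.1)
        (Y := fun g : UG n => g.1 *ᵥ (Pi.single ⟨0, hn⟩ 1 : Fin n → ℂ)) measurable_subtype_coe
        ((measurable_mulVec_left _).comp measurable_subtype_coe)
      exact h
    rw [indepFun_iff_measure_inter_preimage_eq_mul] at h0 ⊢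
    intro s t hs ht
    have h1 := h0 s t hs ht
    rw [← hfst] at h1
    rw [Measure.map_apply measurable_fst ((hX hs).inter (hZ ht)),
      Measure.map_apply measurable_fst (hX hs), Measure.map_apply measurable_fst (hZ ht)] at h1
    exact h1
  · intro t j S hS
    let A : Set (UG n × UG n) := {q | (X q, Z q) ∈ S}
    have hA : MeasurableSet A := (hX.prodMk hZ) hS
    let F : UG n → ℝ≥0∞ := fun g => ∏ s : Fin t, ENNReal.ofReal (pwt p g.1 (j s))
    have hF : Measurable F := by
      apply Finset.measurable_prod
      intro s _
      apply ENNReal.measurable_ofReal.comp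
      have h : Measurable (fun U : Matrix (Fin n) (Fin n) ℂ => pwt p U (j s)) := by
        unfold pwt
        exact (measurable_nsq.comp (measurable_rowv p (j s))).div_const _
      exact h.comp measurable_subtype_coe
    have hE : MeasurableSet {ω : Ω | (X ω.1, Z ω.1) ∈ S ∧ ∀ s : Fin t, f ω.1.1 (ω.2 s) = j s} := by
      have e : {ω : Ω | (X ω.1, Z ω.1) ∈ S ∧ ∀ s : Fin t, f ω.1.1 (ω.2 s) = j s}
          = (Prod.fst ⁻¹' A) ∩ ⋂ s : Fin t, {ω : Ω | f ω.1.1 (ω.2 s) = j s} := by
        ext ω
        constructor
        · rintro ⟨h1, h2⟩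
          exact ⟨h1, Set.mem_iInter.mpr h2⟩
        · rintro ⟨h1, h2⟩
          exact ⟨h1, Set.mem_iInter.mp h2⟩
      rw [e]
      refine (measurable_fst hA).inter (MeasurableSet.iInter fun s => ?_)
      exact (hidxm s) (measurableSet_singleton (j s))
    have hsec : ∀ g : UG n, ν {u : ℕ → unitInterval | ∀ s : Fin t, f g (u s) = j s} = F g := by
      intro g
      let T : ℕ → Set unitInterval := fun i => if h : i < t then {x | f g x = j ⟨i, h⟩} else Set.univ
      have hfg : Measurable (f g) := hf.comp (measurable_const.prodMk measurable_id)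
      have e : {u : ℕ → unitInterval | ∀ s : Fin t, f g (u s) = j s}
          = Set.pi (Finset.range t : Set ℕ) T := by
        ext u
        constructor
        · intro h i hi
          have hi' : i < t := by simpa using hi
          simp only [T, hi', dif_pos]
          exact h ⟨i, hi'⟩
        · intro h s
          have h1 := h s (by simp)
          simp only [T, s.2, dif_pos] at h1
          exact h1
      rw [e]
      change Measure.infinitePi (fun _ => (volume : Measure unitInterval)) _ = _
      rw [Measure.infinitePi_pi, Finset.prod_range]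
      · apply Finset.prod_congr rfl
        intro s _
        simp only [T, s.2, dif_pos]
        rw [← samp_apply, ← hfmap g, Measure.map_apply hfg (measurableSet_singleton _)]
        rfl
      · intro i hi
        have hi' : i < t := by simpa using hi
        simp only [T, hi', dif_pos]
        exact hfg (measurableSet_singleton _)
    have hL : P {ω : Ω | (X ω.1, Z ω.1) ∈ S ∧ ∀ s : Fin t, f ω.1.1 (ω.2 s) = j s}
        = ∫⁻ q in A, F q.1 ∂κ := by
      change (κ.prod ν) _ = _
      rw [Measure.prod_apply hE, ← lintegral_indicator hA]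
      apply lintegral_congr
      intro q
      by_cases hq : q ∈ A
      · rw [Set.indicator_of_mem hq, ← hsec q.1]
        congr 1
        ext u
        constructor
        · intro h; exact h.2
        · intro h; exact ⟨hq, h⟩
      · rw [Set.indicator_of_notMem hq]
        have : (Prod.mk q ⁻¹' {ω : Ω | (X ω.1, Z ω.1) ∈ S ∧ ∀ s : Fin t, f ω.1.1 (ω.2 s) = j s})
            = ∅ := by
          rw [Set.eq_empty_iff_forall_notMem]
          intro u h
          exact hq h.1
        rw [this, measure_empty]
    rw [hL]
    have e2 : ∀ ω : Ω, (∏ s : Fin t,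
        ENNReal.ofReal ((matA p (X ω.1) (j s) (j s)).re / (matA p (X ω.1)).trace.re))
        = F ω.1.1 := by
      intro ω
      apply Finset.prod_congr rfl
      intro s _
      change ENNReal.ofReal ((matA p ω.1.1.1 (j s) (j s)).re / (matA p ω.1.1.1).trace.re) = _
      rw [weight_eq]
    simp only [e2]
    have hmp : MeasurePreserving (Prod.fst : Ω → UG n × UG n) P κ := ⟨measurable_fst, hfst⟩
    have h3 := hmp.setLIntegral_comp_preimage hA (f := fun q => F q.1) (hF.comp measurable_fst)
    exact h3.symm

end

end Pool.Agent.Hhelper29.CG
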