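import Pool.Agent.Hhelper29.CG.RcdLt

/-!
The family version of the RCD chain (all initial vectors `Λ^{1/2} e_l` at once).
-/

namespace Pool.Agent.Hhelper29.CG

open MeasureTheory Matrix ProbabilityTheory
open scoped ENNReal Classical

variable {n : ℕ} {p : ℝ}

/-- step for a family of vectors -/
noncomputable def stF (p : ℝ) (U : Matrix (Fin n) (Fin n) ℂ) (i : Fin n)
    (Y : Fin n → (Fin n → ℂ)) : Fin n → (Fin n → ℂ) := fun l => stp p U i (Y l)

/-- weighted energy of a family -/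
noncomputable def trg (g : Fin n → ℝ) (Y : Fin n → (Fin n → ℂ)) : ℝ :=
  ∑ l, ∑ k, g k * ‖Y l k‖ ^ 2

/-- squared norm of `Y^* a_i` -/
noncomputable def sraw (p : ℝ) (U : Matrix (Fin n) (Fin n) ℂ) (i : Fin n)
    (Y : Fin n → (Fin n → ℂ)) : ℝ := ∑ l, ‖cin (rowv p U i) (Y l)‖ ^ 2

/-- `⟨â_i, g â_i⟩` -/
noncomputable def hrow (p : ℝ) (U : Matrix (Fin n) (Fin n) ℂ) (g : Fin n → ℝ) (i : Fin n) : ℝ :=
  (∑ k, g k * ‖rowv p U i k‖ ^ 2) / nsq (rowv p U i)

/-- the normalised eigenvalues `x_k = λ_k / τ` -/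
noncomputable def xk (n : ℕ) (p : ℝ) (k : ℕ) : ℝ := lam p k / tau n p

/-- initial family `Λ^{1/2} e_l` -/
noncomputable def Y0 (n : ℕ) (p : ℝ) : Fin n → (Fin n → ℂ) := fun l => y0 p (Pi.single l 1)

lemma sum_cin_rowv (p : ℝ) {U : Matrix (Fin n) (Fin n) ℂ}
    (hU : U ∈ unitaryGroup (Fin n) ℂ) (y : Fin n → ℂ) (k : Fin n) :
    ∑ i, cin (rowv p U i) y * rowv p U i k = ((lam p k : ℝ) : ℂ) * y k := by
  have h4 : ∑ i, cin (rowv p U i) y * rowv p U i k
      = (Real.sqrt (lam p k) : ℂ) * (Uᴴ *ᵥ (U *ᵥ (y0 p y))) k := by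
    rw [show (Uᴴ *ᵥ (U *ᵥ (y0 p y))) k = ∑ i, Uᴴ k i * (U *ᵥ (y0 p y)) i from rfl,
      Finset.mul_sum]
    apply Finset.sum_congr rfl
    intro i _
    rw [cin_rowv, conjTranspose_apply]
    simp only [rowv]; ring
  have h5 : Uᴴ * U = 1 := mem_unitaryGroup_iff'.mp hU
  rw [h4, mulVec_mulVec, h5, one_mulVec, y0, ← mul_assoc, ← Complex.ofReal_mul,
    Real.mul_self_sqrt (lam_pos p k).le]

lemma norm_sub_sq_complex (a b : ℂ) :
    ‖a - b‖ ^ 2 = ‖a‖ ^ 2 - 2 * (star a * b).re + ‖b‖ ^ 2 := by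
  rw [← Complex.normSq_eq_norm_sq, ← Complex.normSq_eq_norm_sq, ← Complex.normSq_eq_norm_sq,
    Complex.normSq_apply, Complex.normSq_apply, Complex.normSq_apply]
  simp only [Complex.sub_re, Complex.sub_im, Complex.mul_re, RCLike.star_def, Complex.conj_re,
    Complex.conj_im]
  ring

lemma pop_weight_single (hn : 0 < n) {U : Matrix (Fin n) (Fin n) ℂ}
    (hU : U ∈ unitaryGroup (Fin n) ℂ) (g : Fin n → ℝ) (y : Fin n → ℂ) :
    ∑ i, pwt p U i * ∑ k, g k * ‖stp p U i y k‖ ^ 2
      = ∑ k, g k * (1 - 2 * xk n p k) * ‖y k‖ ^ 2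
        + (1 / tau n p) * ∑ i, ‖cin (rowv p U i) y‖ ^ 2 * hrow p U g i := by
  have hτ := tau_pos (n := n) p hn
  -- expand each term
  have h1 : ∀ i k, pwt p U i * ‖stp p U i y k‖ ^ 2 = pwt p U i * ‖y k‖ ^ 2
      - 2 / tau n p * (star (y k) * (cin (rowv p U i) y * rowv p U i k)).re
      + (1 / tau n p) * (‖cin (rowv p U i) y‖ ^ 2 * (‖rowv p U i k‖ ^ 2 / nsq (rowv p U i))) := by
    intro i k
    have ha := nsq_rowv_pos p hU i
    have e1 : stp p U i y k = y k - (cin (rowv p U i) y / (nsq (rowv p U i) : ℂ)) * rowv p U i k := rfl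
    have e2 : (star (y k) * (cin (rowv p U i) y / (nsq (rowv p U i) : ℂ) * rowv p U i k)).re
        = (star (y k) * (cin (rowv p U i) y * rowv p U i k)).re / nsq (rowv p U i) := by
      rw [← Complex.div_ofReal_re]
      congr 1
      ring
    have e3 : ‖cin (rowv p U i) y / (nsq (rowv p U i) : ℂ) * rowv p U i k‖ ^ 2
        = ‖cin (rowv p U i) y‖ ^ 2 * ‖rowv p U i k‖ ^ 2 / (nsq (rowv p U i)) ^ 2 := by
      rw [norm_mul, norm_div, Complex.norm_real, Real.norm_of_nonneg ha.le, mul_pow, div_pow]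
      ring
    rw [e1, norm_sub_sq_complex, e2, e3, pwt]
    field_simp
  calc ∑ i, pwt p U i * ∑ k, g k * ‖stp p U i y k‖ ^ 2
      = ∑ k, g k * ∑ i, pwt p U i * ‖stp p U i y k‖ ^ 2 := by
        simp only [Finset.mul_sum]
        rw [Finset.sum_comm]
        apply Finset.sum_congr rfl; intro k _
        apply Finset.sum_congr rfl; intro i _; ring
    _ = ∑ k, g k * ((1 - 2 * xk n p k) * ‖y k‖ ^ 2
        + (1 / tau n p) * ∑ i, ‖cin (rowv p U i) y‖ ^ 2 * (‖rowv p U i k‖ ^ 2 / nsq (rowv p U i))) := by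
        apply Finset.sum_congr rfl; intro k _
        congr 1
        rw [Finset.sum_congr rfl (fun i _ => h1 i k), Finset.sum_add_distrib,
          Finset.sum_sub_distrib, ← Finset.sum_mul, sum_pwt p hn hU, ← Finset.mul_sum,
          ← Finset.mul_sum]
        have h2 : ∑ i, (star (y k) * (cin (rowv p U i) y * rowv p U i k)).re
            = lam p k * ‖y k‖ ^ 2 := by
          rw [← Complex.re_sum, ← Finset.mul_sum, sum_cin_rowv p hU]
          have : star (y k) * (((lam p k : ℝ) : ℂ) * y k) = ((lam p k * ‖y k‖ ^ 2 : ℝ) : ℂ) := by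
            rw [← Complex.normSq_eq_norm_sq]
            push_cast
            rw [Complex.normSq_eq_conj_mul_self]
            simp only [RCLike.star_def]
            ring
          rw [this, Complex.ofReal_re]
        rw [h2, xk]
        ring
    _ = _ := by
        simp only [mul_add, Finset.sum_add_distrib]
        congr 1
        · apply Finset.sum_congr rfl; intro k _; ring
        · simp only [hrow, Finset.mul_sum, Finset.sum_div]
          rw [Finset.sum_comm]
          apply Finset.sum_congr rfl; intro i _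
          apply Finset.sum_congr rfl; intro k _; ring

theorem pop_trg (hn : 0 < n) {U : Matrix (Fin n) (Fin n) ℂ}
    (hU : U ∈ unitaryGroup (Fin n) ℂ) (g : Fin n → ℝ) (Y : Fin n → (Fin n → ℂ)) :
    Pop (pwt p U) (stF p U) (trg g) Y
      = trg (fun k => g k * (1 - 2 * xk n p k)) Y
        + (1 / tau n p) * ∑ i, sraw p U i Y * hrow p U g i := by
  unfold Pop
  calc ∑ i, pwt p U i * trg g (stF p U i Y)
      = ∑ l, ∑ i, pwt p U i * ∑ k, g k * ‖stp p U i (Y l) k‖ ^ 2 := by
        rw [Finset.sum_comm]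
        apply Finset.sum_congr rfl; intro i _
        simp only [trg, stF, Finset.mul_sum]
    _ = ∑ l, (∑ k, g k * (1 - 2 * xk n p k) * ‖Y l k‖ ^ 2
        + (1 / tau n p) * ∑ i, ‖cin (rowv p U i) (Y l)‖ ^ 2 * hrow p U g i) :=
        Finset.sum_congr rfl fun l _ => pop_weight_single hn hU g (Y l)
    _ = _ := by
        rw [Finset.sum_add_distrib]
        congr 1
        rw [← Finset.mul_sum]
        congr 1
        simp only [sraw, Finset.sum_mul]
        exact Finset.sum_comm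

lemma sum_sraw {U : Matrix (Fin n) (Fin n) ℂ} (hU : U ∈ unitaryGroup (Fin n) ℂ)
    (Y : Fin n → (Fin n → ℂ)) : ∑ i, sraw p U i Y = trg (fun k => lam p k) Y := by
  simp only [sraw, trg]
  rw [Finset.sum_comm]
  exact Finset.sum_congr rfl fun l _ => parseval_rows p hU (Y l)

lemma sraw_nonneg (p : ℝ) (U : Matrix (Fin n) (Fin n) ℂ) (i : Fin n) (Y : Fin n → (Fin n → ℂ)) :
    0 ≤ sraw p U i Y := Finset.sum_nonneg fun _ _ => by positivity

lemma trg_nonneg {g : Fin n → ℝ} (hg : ∀ k, 0 ≤ g k) (Y : Fin n → (Fin n → ℂ)) : 0 ≤ trg g Y :=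
  Finset.sum_nonneg fun _ _ => Finset.sum_nonneg fun k _ => mul_nonneg (hg k) (by positivity)

lemma trg_mono {g g' : Fin n → ℝ} (h : ∀ k, g k ≤ g' k) (Y : Fin n → (Fin n → ℂ)) :
    trg g Y ≤ trg g' Y :=
  Finset.sum_le_sum fun _ _ => Finset.sum_le_sum fun k _ =>
    mul_le_mul_of_nonneg_right (h k) (by positivity)

lemma trg_smul (c : ℝ) (g : Fin n → ℝ) (Y : Fin n → (Fin n → ℂ)) :
    trg (fun k => c * g k) Y = c * trg g Y := by
  simp only [trg, Finset.mul_sum, mul_assoc]

lemma trg_add (g g' : Fin n → ℝ) (Y : Fin n → (Fin n → ℂ)) :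
    trg (fun k => g k + g' k) Y = trg g Y + trg g' Y := by
  simp only [trg, add_mul, Finset.sum_add_distrib]

lemma hrow_nonneg (p : ℝ) (U : Matrix (Fin n) (Fin n) ℂ) {g : Fin n → ℝ} (hg : ∀ k, 0 ≤ g k)
    (i : Fin n) : 0 ≤ hrow p U g i :=
  div_nonneg (Finset.sum_nonneg fun k _ => mul_nonneg (hg k) (by positivity)) (nsq_nonneg _)

lemma hrow_mono (p : ℝ) (U : Matrix (Fin n) (Fin n) ℂ) {g g' : Fin n → ℝ} (h : ∀ k, g k ≤ g' k)
    (i : Fin n) : hrow p U g i ≤ hrow p U g' i := by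
  unfold hrow
  apply div_le_div_of_nonneg_right _ (nsq_nonneg _)
  exact Finset.sum_le_sum fun k _ => mul_le_mul_of_nonneg_right (h k) (by positivity)

lemma hrow_one {U : Matrix (Fin n) (Fin n) ℂ} (hU : U ∈ unitaryGroup (Fin n) ℂ) (i : Fin n) :
    hrow p U (fun _ => 1) i = 1 := by
  unfold hrow
  simp only [one_mul]
  exact div_self (nsq_rowv_pos p hU i).ne'

/-- self-adjointness of `pr` -/
lemma cin_pr (a v y : Fin n → ℂ) : cin v (pr a y) = cin (pr a v) y := by
  have h1 : cin v (pr a y) = cin v y - cin a y / (nsq a : ℂ) * cin v a := by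
    rw [pr, cin_sub, cin_smul]
  have h2 : cin (pr a v) y = cin v y - star (cin a v) / (nsq a : ℂ) * cin a y := by
    rw [← cin_conj, pr, cin_sub, cin_smul, star_sub, star_mul', star_div₀]
    rw [cin_conj y v, cin_conj y a]
    simp only [RCLike.star_def, Complex.conj_ofReal]
  rw [h1, h2, cin_conj]; ring

/-- contraction property of a family: `∑_l |⟨v, Y_l⟩|² ≤ |v|²` -/
def IsContr (Y : Fin n → (Fin n → ℂ)) : Prop := ∀ v : Fin n → ℂ, ∑ l, ‖cin v (Y l)‖ ^ 2 ≤ nsq v

lemma isContr_Y0 (hp : 0 ≤ p) : IsContr (Y0 n p) := by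
  intro v
  have h : ∀ l, cin v (Y0 n p l) = star (v l) * (Real.sqrt (lam p l) : ℂ) := by
    intro l
    simp only [cin, Y0, y0]
    rw [Finset.sum_eq_single l]
    · simp
    · intro k _ hk; simp [hk]
    · intro h; exact absurd (Finset.mem_univ l) h
  simp only [h, norm_mul, norm_star, mul_pow, Complex.norm_real, Real.norm_eq_abs, sq_abs]
  apply Finset.sum_le_sum
  intro l _
  rw [Real.sq_sqrt (lam_pos p l).le]
  have := lam_le_one hp l
  nlinarith [sq_nonneg ‖v l‖]

lemma isContr_stF {U : Matrix (Fin n) (Fin n) ℂ} {Y : Fin n → (Fin n → ℂ)} (hY : IsContr Y)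
    (i : Fin n) : IsContr (stF p U i Y) := by
  intro v
  simp only [stF, stp, cin_pr]
  exact (hY _).trans (nsq_pr_le _ _)

lemma sraw_le {U : Matrix (Fin n) (Fin n) ℂ} {Y : Fin n → (Fin n → ℂ)} (hY : IsContr Y)
    (i : Fin n) : sraw p U i Y ≤ nsq (rowv p U i) := hY _

lemma trg_Y0 (g : Fin n → ℝ) : trg g (Y0 n p) = ∑ k : Fin n, g k * lam p k := by
  simp only [trg, Y0]
  apply Finset.sum_congr rfl
  intro l _
  rw [Finset.sum_eq_single l]
  · simp [y0, Real.sq_sqrt (lam_pos p l).le]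
  · intro k _ hk; simp [y0, hk]
  · intro h; exact absurd (Finset.mem_univ l) h

/-- energy dissipation for the family -/
lemma pop_trg_one (hn : 0 < n) {U : Matrix (Fin n) (Fin n) ℂ}
    (hU : U ∈ unitaryGroup (Fin n) ℂ) (Y : Fin n → (Fin n → ℂ)) :
    Pop (pwt p U) (stF p U) (trg (fun _ => 1)) Y
      = trg (fun _ => 1) Y - trg (fun k => xk n p k) Y := by
  rw [pop_trg hn hU]
  have h1 : ∑ i, sraw p U i Y * hrow p U (fun _ => 1) i = trg (fun k => lam p k) Y := by
    rw [← sum_sraw hU]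
    exact Finset.sum_congr rfl fun i _ => by rw [hrow_one hU, mul_one]
  rw [h1]
  have h2 : (1 / tau n p) * trg (fun k => lam p k) Y = trg (fun k => xk n p k) Y := by
    rw [← trg_smul]
    congr 1; funext k; rw [xk]; ring
  rw [h2]
  have h3 : trg (fun k : Fin n => 1 * (1 - 2 * xk n p k)) Y
      = trg (fun _ => 1) Y + trg (fun k : Fin n => (-2) * xk n p k) Y := by
    rw [← trg_add]; congr 1; funext k; ring
  rw [h3, trg_smul]; ring

lemma trg_xk_eq {U : Matrix (Fin n) (Fin n) ℂ} (hU : U ∈ unitaryGroup (Fin n) ℂ)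
    (Y : Fin n → (Fin n → ℂ)) :
    trg (fun k => xk n p k) Y = (1 / tau n p) * ∑ i, sraw p U i Y := by
  rw [sum_sraw hU, ← trg_smul]
  congr 1; funext k; rw [xk]; ring

/-- total dissipation is bounded by the initial energy -/
lemma sum_ex_diss_le (hn : 0 < n) {U : Matrix (Fin n) (Fin n) ℂ}
    (hU : U ∈ unitaryGroup (Fin n) ℂ) (T : ℕ) :
    ∑ t ∈ Finset.range T, Ex (pwt p U) (stF p U) t (trg (fun k => xk n p k)) (Y0 n p)
      = tau n p - Ex (pwt p U) (stF p U) T (trg (fun _ => 1)) (Y0 n p) := by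
  induction T with
  | zero =>
    simp only [Finset.range_zero, Finset.sum_empty, Ex_zero, trg_Y0, one_mul]
    rw [tau]; ring
  | succ T ih =>
    rw [Finset.sum_range_succ, ih, Ex_succ]
    have : Pop (pwt p U) (stF p U) (trg (fun _ => 1))
        = fun Y => trg (fun _ => 1) Y - trg (fun k => xk n p k) Y := by
      funext Y; exact pop_trg_one hn hU Y
    rw [this, Ex_sub T (trg (fun _ => 1)) (trg (fun k => xk n p k))]
    ring

/-- linearity of runs -/
lemma runF_add (p : ℝ) (U : Matrix (Fin n) (Fin n) ℂ) (t : ℕ) (j : Fin t → Fin n)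
    (x y : Fin n → ℂ) :
    runF (stp p U) t j (x + y) = runF (stp p U) t j x + runF (stp p U) t j y := by
  induction t with
  | zero => rfl
  | succ t ih => rw [runF_succ, runF_succ, runF_succ, ih, stp, pr_add]

lemma runF_smul (p : ℝ) (U : Matrix (Fin n) (Fin n) ℂ) (t : ℕ) (j : Fin t → Fin n)
    (c : ℂ) (y : Fin n → ℂ) :
    runF (stp p U) t j (c • y) = c • runF (stp p U) t j y := by
  induction t with
  | zero => rfl
  | succ t ih => rw [runF_succ, runF_succ, ih, stp, pr_smul]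

lemma runF_sum (p : ℝ) (U : Matrix (Fin n) (Fin n) ℂ) (t : ℕ) (j : Fin t → Fin n)
    {κ : Type*} (K : Finset κ) (f : κ → (Fin n → ℂ)) :
    runF (stp p U) t j (∑ l ∈ K, f l) = ∑ l ∈ K, runF (stp p U) t j (f l) := by
  induction K using Finset.induction_on with
  | empty =>
    simp only [Finset.sum_empty]
    have := runF_smul p U t j 0 0
    simpa using this
  | insert a K ha ih => rw [Finset.sum_insert ha, Finset.sum_insert ha, runF_add, ih]

lemma runF_fam (p : ℝ) (U : Matrix (Fin n) (Fin n) ℂ) (t : ℕ) (j : Fin t → Fin n)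
    (Y : Fin n → (Fin n → ℂ)) (l : Fin n) :
    runF (stF p U) t j Y l = runF (stp p U) t j (Y l) := by
  induction t with
  | zero => rfl
  | succ t ih => rw [runF_succ, runF_succ, stF, ih]

lemma y0_eq_sum (p : ℝ) (w : Fin n → ℂ) : y0 p w = ∑ l, w l • Y0 n p l := by
  funext k
  rw [Finset.sum_apply, Finset.sum_eq_single k]
  · simp [y0, Y0]; ring
  · intro l _ hl; simp [y0, Y0, hl.symm]
  · intro h; exact absurd (Finset.mem_univ k) h

lemma runF_y0 (p : ℝ) (U : Matrix (Fin n) (Fin n) ℂ) (t : ℕ) (j : Fin t → Fin n)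
    (w : Fin n → ℂ) :
    runF (stp p U) t j (y0 p w) = ∑ l, w l • runF (stF p U) t j (Y0 n p) l := by
  rw [y0_eq_sum, runF_sum]
  exact Finset.sum_congr rfl fun l _ => by rw [runF_smul, runF_fam]

/-- sign flip of one coordinate -/
lemma flip_mem_unitary (a : Fin n) :
    Matrix.diagonal (fun k : Fin n => if k = a then (-1 : ℂ) else 1) ∈ unitaryGroup (Fin n) ℂ := by
  rw [mem_unitaryGroup_iff, star_eq_conjTranspose, diagonal_conjTranspose, diagonal_mul_diagonal]
  have : (fun i => (if i = a then (-1 : ℂ) else 1) * star (fun k : Fin n => if k = a then (-1 : ℂ) else 1) i)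
      = fun _ => 1 := by
    funext i
    simp only [Pi.star_apply]
    split_ifs <;> simp
  rw [this, diagonal_one]

lemma nsq_parallelogram (x y : Fin n → ℂ) :
    nsq (x + y) + nsq (x - y) = 2 * nsq x + 2 * nsq y := by
  simp only [nsq, Pi.add_apply, Pi.sub_apply]
  rw [← Finset.sum_add_distrib, Finset.mul_sum, Finset.mul_sum, ← Finset.sum_add_distrib]
  apply Finset.sum_congr rfl
  intro k _
  have := parallelogram_law_with_norm ℝ (x k) (y k)
  nlinarith

lemma nsq_smul' (c : ℂ) (v : Fin n → ℂ) : nsq (c • v) = ‖c‖ ^ 2 * nsq v := by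
  simp only [nsq, Pi.smul_apply, smul_eq_mul, norm_mul, mul_pow, Finset.mul_sum]

/-- second moments of linear images of a uniform vector -/
theorem unif_quad {σ : Measure (Fin n → ℂ)} (hσ : IsUnif σ) (v : Fin n → (Fin n → ℂ))
    (s : Finset (Fin n)) :
    ∫⁻ w, ENNReal.ofReal (nsq (∑ l ∈ s, w l • v l)) ∂σ
      = ENNReal.ofReal ((∑ l ∈ s, nsq (v l)) / n) := by
  have hmeas : ∀ s : Finset (Fin n), Measurable (fun w : Fin n → ℂ =>
      ENNReal.ofReal (nsq (∑ l ∈ s, w l • v l))) := by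
    intro s
    apply Measurable.ennreal_ofReal
    apply measurable_nsq.comp
    apply Finset.measurable_sum
    intro l _
    fun_prop
  induction s using Finset.induction_on with
  | empty => simp [nsq]
  | insert a s ha ih =>
    have hn : 0 < n := a.pos
    set A : (Fin n → ℂ) → (Fin n → ℂ) := fun w => ∑ l ∈ s, w l • v l with hA
    have h1 := hσ.inv _ (flip_mem_unitary a)
    have hflip : ∀ w : Fin n → ℂ,
        ∑ l ∈ insert a s, (Matrix.diagonal (fun k : Fin n => if k = a then (-1 : ℂ) else 1) *ᵥ w) l • v l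
          = A w - w a • v a := by
      intro w
      rw [Finset.sum_insert ha]
      simp only [mulVec_diagonal, if_true]
      have : ∑ l ∈ s, ((if l = a then (-1 : ℂ) else 1) * w l) • v l = A w := by
        rw [hA]
        apply Finset.sum_congr rfl
        intro l hl
        have : l ≠ a := fun h => ha (h ▸ hl)
        rw [if_neg this, one_mul]
      rw [this]
      simp only [neg_mul, one_mul, neg_smul]
      abel
    have e1 : ∫⁻ w, ENNReal.ofReal (nsq (∑ l ∈ insert a s, w l • v l)) ∂σ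
        = ∫⁻ w, ENNReal.ofReal (nsq (A w - w a • v a)) ∂σ := by
      conv_lhs => rw [← h1]
      rw [lintegral_map (hmeas _) (measurable_mulVec_const _)]
      apply lintegral_congr
      intro w
      rw [hflip]
    have e2 : ∫⁻ w, ENNReal.ofReal (nsq (∑ l ∈ insert a s, w l • v l)) ∂σ
        = ∫⁻ w, ENNReal.ofReal (nsq (A w + w a • v a)) ∂σ := by
      apply lintegral_congr
      intro w
      rw [Finset.sum_insert ha, add_comm]
    have hmA : Measurable (fun w => ENNReal.ofReal (nsq (A w))) := hmeas s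
    have hmp : Measurable (fun w => ENNReal.ofReal (nsq (A w + w a • v a))) := by
      have := hmeas (insert a s)
      simp only [Finset.sum_insert ha] at this
      have e : (fun w : Fin n → ℂ => ENNReal.ofReal (nsq (A w + w a • v a)))
          = fun w => ENNReal.ofReal (nsq (w a • v a + ∑ l ∈ s, w l • v l)) := by
        funext w; rw [add_comm]
      rw [e]; exact this
    have e3 : ∫⁻ w, ENNReal.ofReal (nsq (A w + w a • v a)) ∂σ
        + ∫⁻ w, ENNReal.ofReal (nsq (A w - w a • v a)) ∂σ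
        = 2 * ∫⁻ w, ENNReal.ofReal (nsq (A w)) ∂σ
          + 2 * ∫⁻ w, ENNReal.ofReal (nsq (v a) * ‖w a‖ ^ 2) ∂σ := by
      rw [← lintegral_add_left hmp, ← lintegral_const_mul _ hmA, ← lintegral_const_mul _ (by fun_prop),
        ← lintegral_add_left (hmA.const_mul _)]
      apply lintegral_congr
      intro w
      rw [← ENNReal.ofReal_add (nsq_nonneg _) (nsq_nonneg _), nsq_parallelogram, nsq_smul',
        ENNReal.ofReal_add (by have := nsq_nonneg (A w); positivity)
          (by have := nsq_nonneg (v a); positivity),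
        ENNReal.ofReal_mul two_pos.le, ENNReal.ofReal_mul two_pos.le]
      simp only [ENNReal.ofReal_ofNat]
      rw [mul_comm (nsq (v a))]
    have e4 : ∫⁻ w, ENNReal.ofReal (nsq (v a) * ‖w a‖ ^ 2) ∂σ
        = ENNReal.ofReal (nsq (v a) / n) := by
      have : ∀ w : Fin n → ℂ, ENNReal.ofReal (nsq (v a) * ‖w a‖ ^ 2)
          = ENNReal.ofReal (nsq (v a)) * ENNReal.ofReal (‖w a‖ ^ 2) := fun w =>
        ENNReal.ofReal_mul (nsq_nonneg _)
      rw [lintegral_congr this, lintegral_const_mul _ (by fun_prop), unif_coord hσ a,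
        ← ENNReal.ofReal_mul (nsq_nonneg _)]
      congr 1; ring
    rw [← e2, ← e1] at e3
    rw [show (fun w => ENNReal.ofReal (nsq (A w))) = fun w => ENNReal.ofReal (nsq (∑ l ∈ s, w l • v l))
      from rfl, ih, e4, ← two_mul, ← mul_add] at e3
    have h2 : (2 : ℝ≥0∞) ≠ 0 := two_ne_zero
    have h3 : (2 : ℝ≥0∞) ≠ ∞ := ENNReal.ofNat_ne_top
    have e5 := (ENNReal.mul_right_inj h2 h3).mp e3
    have hn' : (0:ℝ) < n := by exact_mod_cast hn
    rw [e5, ← ENNReal.ofReal_add (div_nonneg (Finset.sum_nonneg fun _ _ => nsq_nonneg _) hn'.le)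
      (div_nonneg (nsq_nonneg _) hn'.le), Finset.sum_insert ha]
    congr 1; ring

/-- averaging the RCD energy over the uniform vector -/
theorem unif_ex_nsq {σ : Measure (Fin n → ℂ)} (hσ : IsUnif σ) (p : ℝ)
    (U : Matrix (Fin n) (Fin n) ℂ) (t : ℕ) :
    ∫⁻ w, ENNReal.ofReal (Ex (pwt p U) (stp p U) t nsq (y0 p w)) ∂σ
      = ENNReal.ofReal (Ex (pwt p U) (stF p U) t (trg (fun _ => 1)) (Y0 n p) / n) := by
  have h1 : ∀ w : Fin n → ℂ, ENNReal.ofReal (Ex (pwt p U) (stp p U) t nsq (y0 p w))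
      = ∑ j : Fin t → Fin n, ENNReal.ofReal (∏ k, pwt p U (j k)) *
        ENNReal.ofReal (nsq (∑ l, w l • runF (stF p U) t j (Y0 n p) l)) := by
    intro w
    rw [Ex_eq_sum, ENNReal.ofReal_sum_of_nonneg]
    · apply Finset.sum_congr rfl
      intro j _
      rw [ENNReal.ofReal_mul (Finset.prod_nonneg fun k _ => pwt_nonneg p U _), runF_y0]
    · intro j _
      exact mul_nonneg (Finset.prod_nonneg fun k _ => pwt_nonneg p U _) (nsq_nonneg _)
  have hmeas : ∀ j : Fin t → Fin n, Measurable (fun w : Fin n → ℂ =>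
      ENNReal.ofReal (nsq (∑ l, w l • runF (stF p U) t j (Y0 n p) l))) := by
    intro j
    apply Measurable.ennreal_ofReal
    apply measurable_nsq.comp
    apply Finset.measurable_sum
    intro l _
    fun_prop
  rw [lintegral_congr h1, lintegral_finsetSum _ (fun j _ => (hmeas j).const_mul _)]
  have h2 : ∀ j : Fin t → Fin n, ∫⁻ w, ENNReal.ofReal (∏ k, pwt p U (j k)) *
        ENNReal.ofReal (nsq (∑ l, w l • runF (stF p U) t j (Y0 n p) l)) ∂σ
      = ENNReal.ofReal ((∏ k, pwt p U (j k)) * (trg (fun _ => 1) (runF (stF p U) t j (Y0 n p)) / n)) := by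
    intro j
    rw [lintegral_const_mul _ (hmeas j), unif_quad hσ, ← ENNReal.ofReal_mul
      (Finset.prod_nonneg fun k _ => pwt_nonneg p U _)]
    congr 3
    simp only [trg, nsq, one_mul]
  rw [Finset.sum_congr rfl (fun j _ => h2 j), ← ENNReal.ofReal_sum_of_nonneg, Ex_eq_sum,
    Finset.sum_div]
  · congr 1
    apply Finset.sum_congr rfl; intro j _; ring
  · intro j _
    exact mul_nonneg (Finset.prod_nonneg fun k _ => pwt_nonneg p U _)
      (div_nonneg (trg_nonneg (fun _ => zero_le_one) _) (Nat.cast_nonneg n))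

end Pool.Agent.Hhelper29.CG
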