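import Mathlib

/-!
The standard complex Gaussian measure on `Fin n → ℂ`: Laplace transform and unitary invariance.
-/

namespace Pool.Agent.Hhelper29.CG

open MeasureTheory Matrix

variable {n : ℕ}

/-- squared Euclidean norm -/
noncomputable def nsq (x : Fin n → ℂ) : ℝ := ∑ k, ‖x k‖ ^ 2

lemma nsq_nonneg (x : Fin n → ℂ) : 0 ≤ nsq x := Finset.sum_nonneg fun _ _ => by positivity

lemma measurable_nsq : Measurable (nsq : (Fin n → ℂ) → ℝ) := by
  unfold nsq; fun_prop

/-- complex standard Gaussian measure -/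
noncomputable def gam (n : ℕ) : Measure (Fin n → ℂ) :=
  volume.withDensity (fun x => ENNReal.ofReal (Real.pi⁻¹ ^ n * Real.exp (-(nsq x))))

lemma one_dim_integral {b : ℝ} (hb : 0 < b) :
    ∫ z : ℂ, Real.pi⁻¹ * Real.exp (-b * ‖z‖ ^ 2) = b⁻¹ := by
  rw [integral_const_mul, GaussianFourier.integral_rexp_neg_mul_sq_norm hb,
    Complex.finrank_real_complex]
  norm_num
  have := Real.pi_pos
  field_simp

lemma one_dim_integrable {b : ℝ} (hb : 0 < b) :
    Integrable (fun z : ℂ => Real.pi⁻¹ * Real.exp (-b * ‖z‖ ^ 2)) := by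
  apply Integrable.of_integral_ne_zero
  rw [one_dim_integral hb]
  positivity

lemma measurable_dens : Measurable (fun x : Fin n → ℂ =>
    ENNReal.ofReal (Real.pi⁻¹ ^ n * Real.exp (-(nsq x)))) := by
  have := measurable_nsq (n := n)
  fun_prop

/-- the Laplace transform of the Gaussian measure -/
theorem lap (c : Fin n → ℝ) (hc : ∀ k, c k < 1) :
    ∫⁻ x, ENNReal.ofReal (Real.exp (∑ k, c k * ‖x k‖ ^ 2)) ∂(gam n)
      = ENNReal.ofReal (∏ k, (1 - c k)⁻¹) := by
  have hm : Measurable (fun x : Fin n → ℂ => ENNReal.ofReal (Real.exp (∑ k, c k * ‖x k‖ ^ 2))) := by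
    fun_prop
  rw [gam, lintegral_withDensity_eq_lintegral_mul _ measurable_dens hm]
  have h1 : ∀ x : Fin n → ℂ,
      ((fun x : Fin n → ℂ => ENNReal.ofReal (Real.pi⁻¹ ^ n * Real.exp (-(nsq x)))) *
        fun x : Fin n → ℂ => ENNReal.ofReal (Real.exp (∑ k, c k * ‖x k‖ ^ 2))) x
      = ENNReal.ofReal (∏ k, (Real.pi⁻¹ * Real.exp (-(1 - c k) * ‖x k‖ ^ 2))) := by
    intro x
    simp only [Pi.mul_apply]
    rw [← ENNReal.ofReal_mul (by positivity), Finset.prod_mul_distrib, Finset.prod_const,
      Finset.card_univ, Fintype.card_fin, ← Real.exp_sum, mul_assoc, ← Real.exp_add]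
    congr 3
    rw [nsq, ← Finset.sum_neg_distrib, ← Finset.sum_add_distrib]
    apply Finset.sum_congr rfl
    intro k _; ring
  rw [lintegral_congr h1, ← ofReal_integral_eq_lintegral_ofReal]
  · congr 1
    rw [integral_fintype_prod_volume_eq_prod
      (f := fun k (z : ℂ) => Real.pi⁻¹ * Real.exp (-(1 - c k) * ‖z‖ ^ 2))]
    apply Finset.prod_congr rfl
    intro k _
    exact one_dim_integral (by linarith [hc k])
  · exact Integrable.fintype_prod
      (f := fun k (z : ℂ) => Real.pi⁻¹ * Real.exp (-(1 - c k) * ‖z‖ ^ 2))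
      (fun k => one_dim_integrable (by linarith [hc k]))
  · exact Filter.Eventually.of_forall fun x => Finset.prod_nonneg fun k _ => by
      have := Real.pi_pos; positivity

instance : IsProbabilityMeasure (gam n) := by
  constructor
  have h := lap (n := n) (fun _ => 0) (fun _ => zero_lt_one)
  simpa using h

lemma nsq_mulVec {V : Matrix (Fin n) (Fin n) ℂ} (hV : V ∈ unitaryGroup (Fin n) ℂ)
    (x : Fin n → ℂ) : nsq (V *ᵥ x) = nsq x := by
  have key : ∀ y : Fin n → ℂ, ((nsq y : ℝ) : ℂ) = star y ⬝ᵥ y := by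
    intro y
    simp only [nsq, dotProduct, Pi.star_apply, Complex.ofReal_sum]
    apply Finset.sum_congr rfl
    intro k _
    rw [← Complex.normSq_eq_norm_sq, Complex.normSq_eq_conj_mul_self]; rfl
  have : ((nsq (V *ᵥ x) : ℝ) : ℂ) = ((nsq x : ℝ) : ℂ) := by
    rw [key, key, star_mulVec, dotProduct_mulVec, vecMul_vecMul]
    have h : Vᴴ * V = 1 := mem_unitaryGroup_iff'.mp hV
    rw [h, vecMul_one]
  exact_mod_cast this

/-- Lebesgue measure is invariant under unitary maps. -/
lemma map_volume_unitary {V : Matrix (Fin n) (Fin n) ℂ} (hV : V ∈ unitaryGroup (Fin n) ℂ) :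
    Measure.map (fun x => V *ᵥ x) (volume : Measure (Fin n → ℂ)) = volume := by
  set L : (Fin n → ℂ) →ₗ[ℝ] (Fin n → ℂ) := (V.mulVecLin).restrictScalars ℝ with hL
  have hdet : |LinearMap.det L| = 1 := by
    rw [hL, LinearMap.det_restrictScalars, Algebra.norm_complex_apply]
    have h1 : LinearMap.det (V.mulVecLin) = V.det := by
      rw [← Matrix.toLin'_apply', LinearMap.det_toLin']
    rw [h1, Complex.normSq_eq_norm_sq]
    have h2 := Matrix.det_of_mem_unitary hV
    have h3 : ‖V.det‖ = 1 := CStarRing.norm_of_mem_unitary h2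
    rw [h3]; norm_num
  have h := Measure.map_linearMap_addHaar_eq_smul_addHaar
    (μ := (volume : Measure (Fin n → ℂ))) (f := L) (by
      intro h0; rw [h0] at hdet; norm_num at hdet)
  have h4 : |(LinearMap.det L)⁻¹| = 1 := by rw [abs_inv, hdet, inv_one]
  rw [h4] at h
  have h5 : (⇑L : (Fin n → ℂ) → (Fin n → ℂ)) = fun x => V *ᵥ x := by
    funext x; simp [hL]
  rw [h5] at h
  simpa using h

lemma measurable_mulVec_const (V : Matrix (Fin n) (Fin n) ℂ) :
    Measurable (fun x : Fin n → ℂ => V *ᵥ x) := by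
  apply measurable_pi_lambda
  intro i
  simp only [mulVec, dotProduct]
  fun_prop

/-- unitary invariance of the Gaussian measure -/
lemma map_gam_unitary {V : Matrix (Fin n) (Fin n) ℂ} (hV : V ∈ unitaryGroup (Fin n) ℂ) :
    Measure.map (fun x => V *ᵥ x) (gam n) = gam n := by
  have hmV := measurable_mulVec_const V
  ext s hs
  rw [Measure.map_apply hmV hs, gam, withDensity_apply _ (hmV hs), withDensity_apply _ hs]
  conv_rhs => rw [← map_volume_unitary hV]
  rw [setLIntegral_map hs measurable_dens hmV]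
  apply lintegral_congr
  intro x
  rw [nsq_mulVec hV]

end Pool.Agent.Hhelper29.CG
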