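import Pool.Agent.Hhelper29.CG.Fam

/-!
Exponential moment bounds for the Gaussian measure and their transfer to the uniform law.
-/

namespace Pool.Agent.Hhelper29.CG

open MeasureTheory Matrix ProbabilityTheory
open scoped ENNReal Classical

variable {n : ℕ} {p : ℝ}

/-- weighted square sum -/
noncomputable def wsq (c : Fin n → ℝ) (x : Fin n → ℂ) : ℝ := ∑ k, c k * ‖x k‖ ^ 2

lemma wsq_nonneg {c : Fin n → ℝ} (hc : ∀ k, 0 ≤ c k) (x : Fin n → ℂ) : 0 ≤ wsq c x :=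
  Finset.sum_nonneg fun k _ => mul_nonneg (hc k) (by positivity)

lemma measurable_wsq (c : Fin n → ℝ) : Measurable (wsq c : (Fin n → ℂ) → ℝ) := by
  unfold wsq; fun_prop

lemma wsq_smul (c : Fin n → ℝ) (r : ℝ) (x : Fin n → ℂ) : wsq c ((r : ℂ) • x) = r ^ 2 * wsq c x := by
  simp only [wsq, Pi.smul_apply, smul_eq_mul, norm_mul, mul_pow, Complex.norm_real,
    Real.norm_eq_abs, sq_abs, Finset.mul_sum]
  apply Finset.sum_congr rfl; intro k _; ring

lemma nsq_eq_wsq (x : Fin n → ℂ) : nsq x = wsq (fun _ => 1) x := by simp [nsq, wsq]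

lemma nsq_smul_real (r : ℝ) (x : Fin n → ℂ) : nsq ((r : ℂ) • x) = r ^ 2 * nsq x := by
  rw [nsq_eq_wsq, nsq_eq_wsq, wsq_smul]

/-- Laplace transform in terms of `wsq` -/
lemma lap_wsq (c : Fin n → ℝ) (hc : ∀ k, c k < 1) :
    ∫⁻ x, ENNReal.ofReal (Real.exp (wsq c x)) ∂(gam n) = ENNReal.ofReal (∏ k, (1 - c k)⁻¹) :=
  lap c hc

lemma inv_one_sub_le_exp {y : ℝ} (h0 : 0 ≤ y) (h1 : y ≤ 1 / 2) : (1 - y)⁻¹ ≤ Real.exp (2 * y) := by
  have h2 : 0 < 1 - y := by linarith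
  rw [inv_le_comm₀ h2 (Real.exp_pos _), ← Real.exp_neg]
  have h3 := Real.one_sub_div_pow_le_exp_neg (n := 1) (t := 2 * y)
  -- use convexity: exp(-2y) ≤ 1 - y on [0,1/2]
  have hconv := convexOn_exp
  have key := hconv.2 (Set.mem_univ (0:ℝ)) (Set.mem_univ (-1 : ℝ))
    (show (0:ℝ) ≤ 1 - 2 * y by linarith) (show (0:ℝ) ≤ 2 * y by linarith) (by ring)
  simp only [smul_eq_mul, mul_zero, zero_add, Real.exp_zero, mul_one, mul_neg] at key
  have he : Real.exp (-1) ≤ 1 / 2 := by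
    have h4 := Real.add_one_le_exp (1 : ℝ)
    rw [Real.exp_neg, one_div]
    exact inv_anti₀ two_pos (by linarith)
  have : Real.exp (-(2 * y)) ≤ 1 - 2 * y + 2 * y * Real.exp (-1) := key
  nlinarith

/-- exponential moment bound -/
lemma lap_le (c : Fin n → ℝ) (hc0 : ∀ k, 0 ≤ c k) (hc : ∀ k, c k ≤ 1 / 2) :
    ∫⁻ x, ENNReal.ofReal (Real.exp (wsq c x)) ∂(gam n)
      ≤ ENNReal.ofReal (Real.exp (2 * ∑ k, c k)) := by
  rw [lap_wsq c (fun k => by linarith [hc k])]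
  apply ENNReal.ofReal_le_ofReal
  rw [Finset.mul_sum, Real.exp_sum]
  apply Finset.prod_le_prod
  · intro k _; have := hc k; exact inv_nonneg.mpr (by linarith)
  · intro k _; exact inv_one_sub_le_exp (hc0 k) (hc k)

/-- Chernoff bound (general form): if `1_E ≤ C exp(wsq c x)` -/
lemma gam_le_of_le_exp {E : Set (Fin n → ℂ)} (c : Fin n → ℝ) (hc : ∀ k, c k < 1) (C : ℝ) (hC : 0 ≤ C)
    (h : ∀ x ∈ E, 1 ≤ C * Real.exp (wsq c x)) :
    gam n E ≤ ENNReal.ofReal (C * ∏ k, (1 - c k)⁻¹) := by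
  have hm : Measurable (fun x : Fin n → ℂ => ENNReal.ofReal (Real.exp (wsq c x))) := by
    have := measurable_wsq c; fun_prop
  calc gam n E ≤ gam n {x | 1 ≤ ENNReal.ofReal C * ENNReal.ofReal (Real.exp (wsq c x))} := by
        apply measure_mono
        intro x hx
        show 1 ≤ ENNReal.ofReal C * ENNReal.ofReal (Real.exp (wsq c x))
        rw [← ENNReal.ofReal_mul hC]
        exact ENNReal.one_le_ofReal.mpr (h x hx)
    _ ≤ ∫⁻ x, ENNReal.ofReal C * ENNReal.ofReal (Real.exp (wsq c x)) ∂(gam n) := by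
        have := mul_meas_ge_le_lintegral (μ := gam n) (hm.const_mul (ENNReal.ofReal C)) 1
        rwa [one_mul] at this
    _ = ENNReal.ofReal C * ENNReal.ofReal (∏ k, (1 - c k)⁻¹) := by
        rw [lintegral_const_mul _ hm, lap_wsq c hc]
    _ = _ := by rw [ENNReal.ofReal_mul hC]

/-- upper tail -/
lemma gam_upper (c : Fin n → ℝ) (hc0 : ∀ k, 0 ≤ c k) {θ : ℝ} (hθ : 0 ≤ θ)
    (hθc : ∀ k, θ * c k ≤ 1 / 2) (v : ℝ) :
    gam n {x | v ≤ wsq c x} ≤ ENNReal.ofReal (Real.exp (2 * θ * (∑ k, c k) - θ * v)) := by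
  have h1 := gam_le_of_le_exp (E := {x | v ≤ wsq c x}) (fun k => θ * c k)
    (fun k => by linarith [hθc k]) (Real.exp (-(θ * v))) (Real.exp_pos _).le (by
      intro x hx
      have hx' : v ≤ wsq c x := hx
      rw [← Real.exp_add]
      apply Real.one_le_exp
      have : wsq (fun k => θ * c k) x = θ * wsq c x := by
        simp only [wsq, Finset.mul_sum, mul_assoc]
      rw [this]
      nlinarith)
  refine h1.trans (ENNReal.ofReal_le_ofReal ?_)
  have h2 : ∏ k, (1 - θ * c k)⁻¹ ≤ Real.exp (2 * θ * ∑ k, c k) := by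
    rw [mul_assoc, Finset.mul_sum, Finset.mul_sum, Real.exp_sum]
    apply Finset.prod_le_prod
    · intro k _; have := hθc k; exact inv_nonneg.mpr (by linarith)
    · intro k _; exact inv_one_sub_le_exp (mul_nonneg hθ (hc0 k)) (hθc k)
  calc Real.exp (-(θ * v)) * ∏ k, (1 - θ * c k)⁻¹
      ≤ Real.exp (-(θ * v)) * Real.exp (2 * θ * ∑ k, c k) := by gcongr
    _ = _ := by rw [← Real.exp_add]; congr 1; ring

/-- lower tail -/
lemma gam_lower (c : Fin n → ℝ) (hc0 : ∀ k, 0 ≤ c k) {θ : ℝ} (hθ : 0 ≤ θ) (v : ℝ) :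
    gam n {x | wsq c x ≤ v} ≤ ENNReal.ofReal (Real.exp (θ * v) * ∏ k, (1 + θ * c k)⁻¹) := by
  have h1 := gam_le_of_le_exp (E := {x | wsq c x ≤ v}) (fun k => -(θ * c k))
    (fun k => by have := mul_nonneg hθ (hc0 k); linarith) (Real.exp (θ * v)) (Real.exp_pos _).le (by
      intro x hx
      have hx' : wsq c x ≤ v := hx
      rw [← Real.exp_add]
      apply Real.one_le_exp
      have : wsq (fun k => -(θ * c k)) x = -(θ * wsq c x) := by
        simp only [wsq, Finset.mul_sum, ← Finset.sum_neg_distrib]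
        apply Finset.sum_congr rfl; intro k _; ring
      rw [this]
      nlinarith)
  simpa [sub_neg_eq_add] using h1

lemma quarter_le_gam_nsq_le (hn : 0 < n) :
    ENNReal.ofReal (1 / 4) ≤ gam n {x | nsq x ≤ 2 * n} := by
  have hn' : (1:ℝ) ≤ n := by exact_mod_cast hn
  -- complement: Chernoff with θ = 1/2
  have h1 := gam_le_of_le_exp (n := n) (E := {x | nsq x ≤ 2 * n}ᶜ) (fun _ => 1 / 2)
    (fun _ => by norm_num) (Real.exp (-n)) (Real.exp_pos _).le (by
      intro x hx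
      have hx' : ¬ nsq x ≤ 2 * n := hx
      rw [← Real.exp_add]
      apply Real.one_le_exp
      have : wsq (fun _ : Fin n => (1 / 2 : ℝ)) x = 1 / 2 * nsq x := by
        simp only [wsq, nsq, Finset.mul_sum]
      rw [this]
      push Not at hx'
      linarith)
  have hm : MeasurableSet {x : Fin n → ℂ | nsq x ≤ 2 * n} :=
    measurableSet_le measurable_nsq measurable_const
  have h2 : Real.exp (-n) * ∏ _k : Fin n, (1 - (1 / 2 : ℝ))⁻¹ ≤ 3 / 4 := by
    have e1 : ∏ _k : Fin n, (1 - (1 / 2 : ℝ))⁻¹ = 2 ^ n := by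
      rw [Finset.prod_const]; norm_num
    rw [e1]
    have e2 : Real.exp (-n) * 2 ^ n = (Real.exp (-1) * 2) ^ n := by
      rw [mul_pow, ← Real.exp_nat_mul]; congr 2; ring
    rw [e2]
    have e3 : Real.exp (-1) * 2 ≤ 3 / 4 := by
      have h4 := Real.exp_one_gt_d9
      rw [Real.exp_neg]
      have h5 : (Real.exp 1)⁻¹ ≤ (2.7182818283)⁻¹ := inv_anti₀ (by norm_num) h4.le
      calc (Real.exp 1)⁻¹ * 2 ≤ (2.7182818283)⁻¹ * 2 := by gcongr
        _ ≤ 3 / 4 := by norm_num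
    calc (Real.exp (-1) * 2) ^ n ≤ (3 / 4) ^ n := pow_le_pow_left₀ (by positivity) e3 n
      _ ≤ (3 / 4) ^ 1 := pow_le_pow_of_le_one (by norm_num) (by norm_num) hn
      _ = 3 / 4 := pow_one _
  have h3 : gam n {x | nsq x ≤ 2 * n}ᶜ ≤ ENNReal.ofReal (3 / 4) :=
    h1.trans (ENNReal.ofReal_le_ofReal h2)
  rw [prob_compl_eq_one_sub hm] at h3
  have h4 : (1 : ℝ≥0∞) ≤ ENNReal.ofReal (3 / 4) + gam n {x | nsq x ≤ 2 * n} :=
    tsub_le_iff_right.mp h3
  have h5 : (1 : ℝ≥0∞) = ENNReal.ofReal (3 / 4) + ENNReal.ofReal (1 / 4) := by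
    rw [← ENNReal.ofReal_add (by norm_num) (by norm_num)]; norm_num
  rw [h5] at h4
  exact (ENNReal.add_le_add_iff_left ENNReal.ofReal_ne_top).mp h4

lemma quarter_le_gam_nsq_ge (hn : 0 < n) :
    ENNReal.ofReal (1 / 4) ≤ gam n {x | (n : ℝ) / 4 ≤ nsq x} := by
  have hn' : (1:ℝ) ≤ n := by exact_mod_cast hn
  have h1 := gam_le_of_le_exp (n := n) (E := {x | (n : ℝ) / 4 ≤ nsq x}ᶜ) (fun _ => -1)
    (fun _ => by norm_num) (Real.exp (n / 4)) (Real.exp_pos _).le (by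
      intro x hx
      have hx' : ¬ (n : ℝ) / 4 ≤ nsq x := hx
      rw [← Real.exp_add]
      apply Real.one_le_exp
      have : wsq (fun _ : Fin n => (-1 : ℝ)) x = - nsq x := by
        simp only [wsq, nsq, neg_mul, one_mul, Finset.sum_neg_distrib]
      rw [this]
      push Not at hx'
      linarith)
  have hm : MeasurableSet {x : Fin n → ℂ | (n : ℝ) / 4 ≤ nsq x} :=
    measurableSet_le measurable_const measurable_nsq
  have h2 : Real.exp (n / 4) * ∏ _k : Fin n, (1 - (-1 : ℝ))⁻¹ ≤ 3 / 4 := by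
    have e1 : ∏ _k : Fin n, (1 - (-1 : ℝ))⁻¹ = (1 / 2) ^ n := by
      rw [Finset.prod_const]; norm_num
    rw [e1]
    have e2 : Real.exp (n / 4) * (1 / 2) ^ n = (Real.exp (1 / 4) * (1 / 2)) ^ n := by
      rw [mul_pow, ← Real.exp_nat_mul]; congr 2; ring
    rw [e2]
    have e3 : Real.exp (1 / 4) * (1 / 2) ≤ 3 / 4 := by
      have h5 : Real.exp (1 / 4) ≤ 3 / 2 := by
        have h6 : Real.exp (1 / 4) ^ 4 = Real.exp 1 := by
          rw [← Real.exp_nat_mul]; congr 1; norm_num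
        have h7 := Real.exp_one_lt_d9
        by_contra hc
        push Not at hc
        have : (3 / 2 : ℝ) ^ 4 < Real.exp (1 / 4) ^ 4 := pow_lt_pow_left₀ hc (by norm_num) (by norm_num)
        rw [h6] at this
        norm_num at this
        linarith
      linarith
    calc (Real.exp (1 / 4) * (1 / 2)) ^ n ≤ (3 / 4) ^ n := pow_le_pow_left₀ (by positivity) e3 n
      _ ≤ (3 / 4) ^ 1 := pow_le_pow_of_le_one (by norm_num) (by norm_num) hn
      _ = 3 / 4 := pow_one _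
  have h3 : gam n {x | (n : ℝ) / 4 ≤ nsq x}ᶜ ≤ ENNReal.ofReal (3 / 4) :=
    h1.trans (ENNReal.ofReal_le_ofReal h2)
  rw [prob_compl_eq_one_sub hm] at h3
  have h4 : (1 : ℝ≥0∞) ≤ ENNReal.ofReal (3 / 4) + gam n {x | (n : ℝ) / 4 ≤ nsq x} :=
    tsub_le_iff_right.mp h3
  have h5 : (1 : ℝ≥0∞) = ENNReal.ofReal (3 / 4) + ENNReal.ofReal (1 / 4) := by
    rw [← ENNReal.ofReal_add (by norm_num) (by norm_num)]; norm_num
  rw [h5] at h4
  exact (ENNReal.add_le_add_iff_left ENNReal.ofReal_ne_top).mp h4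

section transfer

variable {μ : Measure (Matrix (Fin n) (Fin n) ℂ)} {σ : Measure (Fin n → ℂ)}

/-- comparison of small sets: events for `u` that imply `x ∈ G` when `nsq x ≤ 2n`, `x = r u` -/
theorem unif_le_of_imp (hμ : IsHaarU μ) (hσ : IsUnif σ) (hn : 0 < n) {E G : Set (Fin n → ℂ)}
    (hE : MeasurableSet E) (hG : MeasurableSet G)
    (h : ∀ u ∈ E, ∀ r : ℝ, 0 ≤ r → r ^ 2 ≤ 2 * n → (r : ℂ) • u ∈ G) :
    σ E ≤ 4 * gam n G := by
  have hm : MeasurableSet {x : Fin n → ℂ | nsq x ≤ 2 * n} :=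
    measurableSet_le measurable_nsq measurable_const
  have h1 := polar hμ hσ (F := G.indicator 1) (measurable_one.indicator hG)
  rw [lintegral_indicator_one hG] at h1
  have h2 : ENNReal.ofReal (1 / 4) * σ E ≤ gam n G := by
    calc ENNReal.ofReal (1 / 4) * σ E ≤ gam n {x | nsq x ≤ 2 * n} * σ E := by
          gcongr; exact quarter_le_gam_nsq_le hn
      _ = ∫⁻ x in {x | nsq x ≤ 2 * n}, σ E ∂(gam n) := by
          rw [setLIntegral_const, mul_comm]
      _ = ∫⁻ x, {x : Fin n → ℂ | nsq x ≤ 2 * n}.indicator (fun _ => σ E) x ∂(gam n) := by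
          rw [lintegral_indicator hm]
      _ ≤ ∫⁻ x, ∫⁻ u, G.indicator 1 ((Real.sqrt (nsq x) : ℂ) • u) ∂σ ∂(gam n) := by
          apply lintegral_mono
          intro x
          by_cases hx : nsq x ≤ 2 * n
          · rw [Set.indicator_of_mem (show x ∈ {x : Fin n → ℂ | nsq x ≤ 2 * n} from hx),
              ← lintegral_indicator_one hE]
            apply lintegral_mono
            intro u
            by_cases hu : u ∈ E
            · have := h u hu (Real.sqrt (nsq x)) (Real.sqrt_nonneg _)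
                (by rw [Real.sq_sqrt (nsq_nonneg x)]; exact hx)
              have e6 : G.indicator (1 : (Fin n → ℂ) → ℝ≥0∞) ((Real.sqrt (nsq x) : ℂ) • u) = 1 := by
                rw [Set.indicator_of_mem this]; rfl
              rw [Set.indicator_of_mem hu]
              show (1 : ℝ≥0∞) ≤ G.indicator (1 : (Fin n → ℂ) → ℝ≥0∞) ((Real.sqrt (nsq x) : ℂ) • u)
              rw [e6]
            · rw [Set.indicator_of_notMem hu]; exact zero_le
          · rw [Set.indicator_of_notMem (show x ∉ {x : Fin n → ℂ | nsq x ≤ 2 * n} from hx)]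
            exact zero_le
      _ = gam n G := h1.symm
  have h4 : (4 : ℝ≥0∞) * (ENNReal.ofReal (1 / 4) * σ E) = σ E := by
    rw [← mul_assoc]
    have : (4 : ℝ≥0∞) * ENNReal.ofReal (1 / 4) = 1 := by
      rw [show (4 : ℝ≥0∞) = ENNReal.ofReal 4 by simp, ← ENNReal.ofReal_mul (by norm_num)]
      norm_num
    rw [this, one_mul]
  calc σ E = 4 * (ENNReal.ofReal (1 / 4) * σ E) := h4.symm
    _ ≤ 4 * gam n G := by gcongr

/-- quadratic homogeneous functionals -/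
theorem unif_hom_le (hμ : IsHaarU μ) (hσ : IsUnif σ) (hn : 0 < n) {F : (Fin n → ℂ) → ℝ≥0∞}
    (hF : Measurable F) (hhom : ∀ x, ∀ r : ℝ, 0 ≤ r → F ((r : ℂ) • x) = ENNReal.ofReal (r ^ 2) * F x) :
    (n : ℝ≥0∞) * ∫⁻ u, F u ∂σ ≤ 16 * ∫⁻ x, F x ∂(gam n) := by
  have h1 := polar hμ hσ hF
  have h2 : ∀ x : Fin n → ℂ, ∫⁻ u, F ((Real.sqrt (nsq x) : ℂ) • u) ∂σ
      = ENNReal.ofReal (nsq x) * ∫⁻ u, F u ∂σ := by
    intro x
    rw [← lintegral_const_mul _ hF]
    apply lintegral_congr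
    intro u
    rw [hhom u _ (Real.sqrt_nonneg _), Real.sq_sqrt (nsq_nonneg x)]
  have hmn : Measurable (fun x : Fin n → ℂ => ENNReal.ofReal (nsq x)) :=
    measurable_nsq.ennreal_ofReal
  rw [lintegral_congr h2, lintegral_mul_const _ hmn] at h1
  have h3 : ENNReal.ofReal (n / 16) ≤ ∫⁻ x, ENNReal.ofReal (nsq x) ∂(gam n) := by
    calc ENNReal.ofReal (n / 16) = ENNReal.ofReal (n / 4) * ENNReal.ofReal (1 / 4) := by
          rw [← ENNReal.ofReal_mul (by positivity)]; congr 1; ring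
      _ ≤ ENNReal.ofReal (n / 4) * gam n {x | (n : ℝ) / 4 ≤ nsq x} := by
          gcongr; exact quarter_le_gam_nsq_ge hn
      _ ≤ ENNReal.ofReal (n / 4) * gam n {x | ENNReal.ofReal (n / 4) ≤ ENNReal.ofReal (nsq x)} := by
          gcongr with x
          intro hx; exact ENNReal.ofReal_le_ofReal hx
      _ ≤ _ := mul_meas_ge_le_lintegral hmn _
  have h4 : (n : ℝ≥0∞) = 16 * ENNReal.ofReal (n / 16) := by
    rw [show (16 : ℝ≥0∞) = ENNReal.ofReal 16 by simp, ← ENNReal.ofReal_mul (by norm_num),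
      ← ENNReal.ofReal_natCast]
    congr 1; ring
  rw [h1]
  calc (n : ℝ≥0∞) * ∫⁻ u, F u ∂σ = 16 * (ENNReal.ofReal (n / 16) * ∫⁻ u, F u ∂σ) := by
        conv_lhs => rw [h4]
        rw [mul_assoc]
    _ ≤ 16 * ((∫⁻ x, ENNReal.ofReal (nsq x) ∂(gam n)) * ∫⁻ u, F u ∂σ) := by gcongr

end transfer

/-- conjugated rows of a Haar matrix -/
lemma rowv_eq (p : ℝ) (U : Matrix (Fin n) (Fin n) ℂ) (i : Fin n) :
    rowv p U i = y0 p (Uᴴ *ᵥ Pi.single i 1) := by
  funext k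
  rw [mulVec_single_one]
  simp [rowv, y0, conjTranspose_apply]

lemma nsq_single (i : Fin n) : nsq (Pi.single i 1 : Fin n → ℂ) = 1 := by
  rw [nsq, Finset.sum_eq_single i]
  · simp
  · intro k _ hk; simp [hk]
  · intro h; exact absurd (Finset.mem_univ i) h

/-- single coordinate small ball: `P(|w_0|² < κ/n) ≤ 8 e κ` -/
theorem small_ball {μ : Measure (Matrix (Fin n) (Fin n) ℂ)} {σ : Measure (Fin n → ℂ)}
    (hμ : IsHaarU μ) (hσ : IsUnif σ) (hn : 0 < n) {κ : ℝ} (hκ : 0 < κ) :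
    σ {w | ‖w ⟨0, hn⟩‖ ^ 2 < κ / n} ≤ ENNReal.ofReal (8 * Real.exp 1 * κ) := by
  have hn' : (0:ℝ) < n := by exact_mod_cast hn
  set c : Fin n → ℝ := fun k => if k = ⟨0, hn⟩ then 1 else 0 with hc
  have hw : ∀ x : Fin n → ℂ, wsq c x = ‖x ⟨0, hn⟩‖ ^ 2 := by
    intro x
    rw [wsq, Finset.sum_eq_single ⟨0, hn⟩]
    · simp [hc]
    · intro k _ hk; simp [hc, hk]
    · intro h; exact absurd (Finset.mem_univ _) h
  have h1 := unif_le_of_imp hμ hσ hn (E := {w | ‖w ⟨0, hn⟩‖ ^ 2 < κ / n})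
    (G := {x | wsq c x ≤ 2 * κ}) (measurableSet_lt (by fun_prop) measurable_const)
    (measurableSet_le (measurable_wsq c) measurable_const) (by
      intro u hu r hr hr2
      have hu' : ‖u ⟨0, hn⟩‖ ^ 2 < κ / n := hu
      show wsq c ((r : ℂ) • u) ≤ 2 * κ
      rw [wsq_smul, hw]
      have h0 : 0 ≤ ‖u ⟨0, hn⟩‖ ^ 2 := by positivity
      calc r ^ 2 * ‖u ⟨0, hn⟩‖ ^ 2 ≤ (2 * n) * (κ / n) := by gcongr
        _ = 2 * κ := by field_simp)
  have h2 := gam_lower c (fun k => by rw [hc]; beta_reduce; split_ifs <;> norm_num)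
    (θ := 1 / (2 * κ)) (by positivity) (2 * κ)
  have h3 : Real.exp (1 / (2 * κ) * (2 * κ)) * ∏ k, (1 + 1 / (2 * κ) * c k)⁻¹ ≤ Real.exp 1 * (2 * κ) := by
    have e1 : 1 / (2 * κ) * (2 * κ) = 1 := by field_simp
    rw [e1]
    have e2 : ∏ k, (1 + 1 / (2 * κ) * c k)⁻¹ = (1 + 1 / (2 * κ))⁻¹ := by
      rw [Finset.prod_eq_single ⟨0, hn⟩]
      · simp [hc]
      · intro k _ hk; simp [hc, hk]
      · intro h; exact absurd (Finset.mem_univ _) h
    rw [e2]
    have e3 : (1 + 1 / (2 * κ))⁻¹ ≤ 2 * κ := by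
      rw [inv_le_comm₀ (by positivity) (by positivity)]
      rw [one_div]; linarith
    gcongr
  calc σ {w | ‖w ⟨0, hn⟩‖ ^ 2 < κ / n} ≤ 4 * gam n {x | wsq c x ≤ 2 * κ} := h1
    _ ≤ 4 * ENNReal.ofReal (Real.exp 1 * (2 * κ)) := by
        gcongr; exact h2.trans (ENNReal.ofReal_le_ofReal h3)
    _ = ENNReal.ofReal (8 * Real.exp 1 * κ) := by
        rw [show (4 : ℝ≥0∞) = ENNReal.ofReal 4 by simp, ← ENNReal.ofReal_mul (by norm_num)]
        congr 1; ring

end Pool.Agent.Hhelper29.CG
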