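import Pool.Agent.Hhelper29.CG.Core3
import Pool.Agent.Hhelper29.CG.CgSub

/-!
With high probability every block of `ℓ ≥ 3 log n` consecutive indices contains a good index.
-/

namespace Pool.Agent.Hhelper29.CG

open MeasureTheory Matrix ProbabilityTheory Polynomial Filter
open scoped ENNReal Classical Topology

variable {n : ℕ}

/-- extension of `|w_k|²` by zero -/
noncomputable def wn (w : Fin n → ℂ) (k : ℕ) : ℝ := if h : k < n then ‖w ⟨k, h⟩‖ ^ 2 else 0

lemma wn_nonneg (w : Fin n → ℂ) (k : ℕ) : 0 ≤ wn w k := by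
  unfold wn; split_ifs <;> positivity

lemma wn_of_fin (w : Fin n → ℂ) (k : Fin n) : wn w k = ‖w k‖ ^ 2 := by
  unfold wn; rw [dif_pos k.2]

lemma sum_wn (w : Fin n → ℂ) (f : ℕ → ℝ) :
    ∑ k ∈ Finset.range n, f k * wn w k = ∑ k : Fin n, f k * ‖w k‖ ^ 2 := by
  rw [Finset.sum_range]
  apply Finset.sum_congr rfl
  intro k _
  rw [wn_of_fin]

lemma En_eq_range (p : ℝ) (w : Fin n → ℂ) (q : ℝ[X]) :
    En p w q = ∑ k ∈ Finset.range n, lam p k * (q.eval (lam p k)) ^ 2 * wn w k := by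
  rw [sum_wn w (fun k => lam p k * (q.eval (lam p k)) ^ 2)]
  rfl

/-- the constant in the definition of good indices -/
noncomputable def c0 : ℝ := Real.exp (-2) / 2

lemma c0_pos : 0 < c0 := by unfold c0; positivity

/-- block `u` is bad -/
def blockBad (n ℓ u : ℕ) : Set (Fin n → ℂ) :=
  ⋂ k ∈ (Finset.univ.filter fun k : Fin n => u ≤ (k : ℕ) ∧ (k : ℕ) < u + ℓ),
    {w | ‖w k‖ ^ 2 < c0 / n}

lemma measurableSet_blockBad (n ℓ u : ℕ) : MeasurableSet (blockBad n ℓ u) := by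
  unfold blockBad
  apply Finset.measurableSet_biInter
  intro k _
  exact measurableSet_lt (by fun_prop) measurable_const

/-- some block is bad -/
def anyBad (n ℓ : ℕ) : Set (Fin n → ℂ) :=
  ⋃ u ∈ (Finset.range n).filter (fun u => u + ℓ ≤ n), blockBad n ℓ u

lemma measurableSet_anyBad (n ℓ : ℕ) : MeasurableSet (anyBad n ℓ) := by
  unfold anyBad
  apply Finset.measurableSet_biUnion
  intro u _
  exact measurableSet_blockBad n ℓ u

lemma good_of_notMem {ℓ : ℕ} (hℓ : 1 ≤ ℓ) {w : Fin n → ℂ} (h : w ∉ anyBad n ℓ) :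
    ∀ u, u + ℓ ≤ n → ∃ k, u ≤ k ∧ k < u + ℓ ∧ c0 / n ≤ wn w k := by
  intro u hu
  unfold anyBad at h
  simp only [Set.mem_iUnion, not_exists] at h
  have h1 := h u (Finset.mem_filter.mpr ⟨Finset.mem_range.mpr (by omega), hu⟩)
  unfold blockBad at h1
  simp only [Set.mem_iInter, not_forall] at h1
  obtain ⟨k, hk, h2⟩ := h1
  rw [Finset.mem_filter] at hk
  refine ⟨k, hk.2.1, hk.2.2, ?_⟩
  rw [wn_of_fin]
  exact not_lt.mp h2

lemma blockBad_le {μ : Measure (Matrix (Fin n) (Fin n) ℂ)} {σ : Measure (Fin n → ℂ)}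
    (hμ : IsHaarU μ) (hσ : IsUnif σ) (hn : 0 < n) {ℓ u : ℕ} (hℓ : 1 ≤ ℓ) (hu : u + ℓ ≤ n) :
    σ (blockBad n ℓ u) ≤ ENNReal.ofReal (4 * Real.exp (-ℓ)) := by
  have hn0 : (0:ℝ) < n := by exact_mod_cast hn
  have hc0 := c0_pos
  have hℓ0 : (0:ℝ) < ℓ := by exact_mod_cast hℓ
  set s : Finset (Fin n) := Finset.univ.filter fun k : Fin n => u ≤ (k : ℕ) ∧ (k : ℕ) < u + ℓ with hs
  have hcard : s.card = ℓ := by
    have h1 : s.map Fin.valEmbedding = Finset.Ico u (u + ℓ) := by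
      ext k
      simp only [Finset.mem_map, Finset.mem_Ico, hs, Finset.mem_filter, Finset.mem_univ, true_and,
        Fin.valEmbedding_apply]
      constructor
      · rintro ⟨j, hj, rfl⟩; exact hj
      · intro hk; exact ⟨⟨k, by omega⟩, hk, rfl⟩
    rw [← Finset.card_map Fin.valEmbedding, h1, Nat.card_Ico]; omega
  set c : Fin n → ℝ := fun k => if k ∈ s then 1 else 0 with hc
  have hw : ∀ x : Fin n → ℂ, wsq c x = ∑ k ∈ s, ‖x k‖ ^ 2 := by
    intro x
    simp only [wsq, hc, ite_mul, one_mul, zero_mul]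
    rw [Finset.sum_ite_mem, Finset.univ_inter]
  have h1 := unif_le_of_imp hμ hσ hn (E := blockBad n ℓ u) (G := {x | wsq c x ≤ 2 * c0 * ℓ})
    (measurableSet_blockBad n ℓ u) (measurableSet_le (measurable_wsq c) measurable_const) (by
      intro v hv r hr hr2
      show wsq c ((r : ℂ) • v) ≤ 2 * c0 * ℓ
      rw [wsq_smul, hw]
      have h2 : ∑ k ∈ s, ‖v k‖ ^ 2 ≤ ℓ * (c0 / n) := by
        calc ∑ k ∈ s, ‖v k‖ ^ 2 ≤ ∑ _k ∈ s, c0 / n := by
              apply Finset.sum_le_sum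
              intro k hk
              unfold blockBad at hv
              simp only [Set.mem_iInter] at hv
              exact (hv k hk).le
          _ = ℓ * (c0 / n) := by rw [Finset.sum_const, hcard, nsmul_eq_mul]
      have h0 : 0 ≤ ∑ k ∈ s, ‖v k‖ ^ 2 := Finset.sum_nonneg fun _ _ => by positivity
      calc r ^ 2 * ∑ k ∈ s, ‖v k‖ ^ 2 ≤ (2 * n) * (ℓ * (c0 / n)) := by gcongr
        _ = 2 * c0 * ℓ := by field_simp)
  have h2 := gam_lower c (fun k => by rw [hc]; beta_reduce; split_ifs <;> norm_num)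
    (θ := 1 / (2 * c0)) (by positivity) (2 * c0 * ℓ)
  have h3 : Real.exp (1 / (2 * c0) * (2 * c0 * ℓ)) * ∏ k, (1 + 1 / (2 * c0) * c k)⁻¹
      ≤ Real.exp (-ℓ) := by
    have e1 : 1 / (2 * c0) * (2 * c0 * ℓ) = ℓ := by field_simp
    rw [e1]
    have e2 : ∏ k, (1 + 1 / (2 * c0) * c k)⁻¹ = ((1 + 1 / (2 * c0))⁻¹) ^ ℓ := by
      have : ∀ k : Fin n, (1 + 1 / (2 * c0) * c k)⁻¹ = if k ∈ s then (1 + 1 / (2 * c0))⁻¹ else 1 := by
        intro k
        rw [hc]; beta_reduce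
        split_ifs <;> simp
      rw [Finset.prod_congr rfl (fun k _ => this k), Finset.prod_ite_mem, Finset.univ_inter,
        Finset.prod_const, hcard]
    rw [e2]
    have e3 : (1 + 1 / (2 * c0))⁻¹ ≤ 2 * c0 := by
      rw [inv_le_comm₀ (by positivity) (by positivity), one_div]
      linarith
    have e4 : 2 * c0 = Real.exp (-2) := by unfold c0; ring
    rw [e4] at e3 ⊢
    calc Real.exp ℓ * ((1 + 1 / Real.exp (-2))⁻¹) ^ ℓ ≤ Real.exp ℓ * (Real.exp (-2)) ^ ℓ := by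
          gcongr
      _ = Real.exp (-ℓ) := by
          rw [← Real.exp_nat_mul, ← Real.exp_add]; congr 1; ring
  calc σ (blockBad n ℓ u) ≤ 4 * gam n {x | wsq c x ≤ 2 * c0 * ℓ} := h1
    _ ≤ 4 * ENNReal.ofReal (Real.exp (-ℓ)) := by
        gcongr; exact h2.trans (ENNReal.ofReal_le_ofReal h3)
    _ = _ := by
        rw [show (4 : ℝ≥0∞) = ENNReal.ofReal 4 by simp, ← ENNReal.ofReal_mul (by norm_num)]

lemma anyBad_le {μ : Measure (Matrix (Fin n) (Fin n) ℂ)} {σ : Measure (Fin n → ℂ)}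
    (hμ : IsHaarU μ) (hσ : IsUnif σ) (hn : 0 < n) {ℓ : ℕ} (hℓ : 1 ≤ ℓ)
    (hlog : 2 * Real.log n ≤ ℓ) : σ (anyBad n ℓ) ≤ ENNReal.ofReal (4 / n) := by
  have hn0 : (0:ℝ) < n := by exact_mod_cast hn
  unfold anyBad
  refine (measure_biUnion_finset_le _ _).trans ?_
  calc ∑ u ∈ (Finset.range n).filter (fun u => u + ℓ ≤ n), σ (blockBad n ℓ u)
      ≤ ∑ _u ∈ (Finset.range n).filter (fun u => u + ℓ ≤ n), ENNReal.ofReal (4 * Real.exp (-ℓ)) := by
        apply Finset.sum_le_sum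
        intro u hu
        exact blockBad_le hμ hσ hn hℓ (Finset.mem_filter.mp hu).2
    _ ≤ ∑ _u ∈ Finset.range n, ENNReal.ofReal (4 * Real.exp (-ℓ)) :=
        Finset.sum_le_sum_of_subset (Finset.filter_subset _ _)
    _ = ENNReal.ofReal (n * (4 * Real.exp (-ℓ))) := by
        rw [Finset.sum_const, Finset.card_range, nsmul_eq_mul,
          ENNReal.ofReal_mul (p := (n : ℝ)) (Nat.cast_nonneg n), ENNReal.ofReal_natCast]
    _ ≤ ENNReal.ofReal (4 / n) := by
        apply ENNReal.ofReal_le_ofReal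
        have h1 : Real.exp (-ℓ) ≤ 1 / (n : ℝ) ^ 2 := by
          calc Real.exp (-ℓ) ≤ Real.exp (-(2 * Real.log n)) := by
                apply Real.exp_le_exp.mpr; linarith
            _ = 1 / (n : ℝ) ^ 2 := by
                rw [Real.exp_neg, one_div]
                congr 1
                rw [show (2 : ℝ) * Real.log n = ((2 : ℕ) : ℝ) * Real.log n by norm_num,
                  Real.exp_nat_mul, Real.exp_log hn0]
        calc (n : ℝ) * (4 * Real.exp (-ℓ)) ≤ n * (4 * (1 / (n : ℝ) ^ 2)) := by gcongr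
          _ = 4 / n := by field_simp

end Pool.Agent.Hhelper29.CG
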