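import Pool.Agent.Hhelper29.CG.CgKill
import Pool.Agent.Hhelper29.CG.Fejer
import Pool.Agent.Hhelper29.CG.Bern

/-!
Crude growth bound by Lagrange interpolation, and the arc lemma from Bernstein's inequality.
-/

namespace Pool.Agent.Hhelper29.CG

open Polynomial Finset

lemma prod_abs_sub_eq (t i : ℕ) (hi : i ≤ t) :
    ∏ j ∈ (range (t + 1)).erase i, |(i : ℝ) - j| = (i.factorial : ℝ) * ((t - i).factorial : ℝ) := by
  have h1 : (range (t + 1)).erase i = range i ∪ Ico (i + 1) (t + 1) := by
    ext j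
    simp only [mem_erase, mem_range, mem_union, mem_Ico]
    omega
  have hdisj : Disjoint (range i) (Ico (i + 1) (t + 1)) := by
    rw [disjoint_left]
    intro j hj hj'
    simp only [mem_range, mem_Ico] at hj hj'
    omega
  rw [h1, prod_union hdisj]
  congr 1
  · rw [← prod_range_reflect, ← prod_range_add_one_eq_factorial, Nat.cast_prod]
    apply prod_congr rfl
    intro j hj
    have hj' := mem_range.mp hj
    rw [Nat.cast_sub (by omega), Nat.cast_sub (by omega)]
    push_cast
    have h2 : (i : ℝ) - (i - 1 - j) = j + 1 := by ring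
    rw [h2, abs_of_nonneg (by positivity)]
  · rw [prod_Ico_eq_prod_range, ← prod_range_add_one_eq_factorial, Nat.cast_prod]
    have h3 : t + 1 - (i + 1) = t - i := by omega
    rw [h3]
    apply prod_congr rfl
    intro j _
    push_cast
    have h2 : (i : ℝ) - (i + 1 + j) = -(j + 1) := by ring
    rw [h2, abs_neg, abs_of_nonneg (by positivity)]

/-- growth of a polynomial bounded at separated nodes -/
lemma lagrange_growth {t : ℕ} {q : ℝ[X]} (hq : q.natDegree ≤ t) {v : ℕ → ℝ} {s a M x : ℝ}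
    (hs : 0 < s) (ha : 0 ≤ a) (hsep : ∀ i ≤ t, ∀ j ≤ t, s * |(i : ℝ) - j| ≤ |v i - v j|)
    (hM : ∀ i ≤ t, |q.eval (v i)| ≤ M) (hx : ∀ i ≤ t, |x - v i| ≤ a) :
    |q.eval x| ≤ M * ((a / s) ^ t * (2 ^ t / t.factorial)) := by
  have hM0 : 0 ≤ M := (abs_nonneg _).trans (hM 0 (Nat.zero_le t))
  have hinj : Set.InjOn v (range (t + 1)) := by
    intro i hi j hj hij
    have hi' : i ≤ t := Nat.lt_succ_iff.mp (by simpa using hi)
    have hj' : j ≤ t := Nat.lt_succ_iff.mp (by simpa using hj)
    have h1 := hsep i hi' j hj'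
    rw [hij, sub_self, abs_zero] at h1
    have h2 : |(i : ℝ) - j| ≤ 0 := by
      by_contra hc
      push Not at hc
      have := mul_pos hs hc
      linarith
    have h3 : (i : ℝ) - j = 0 := abs_nonpos_iff.mp h2
    have h4 : (i : ℝ) = j := by linarith
    exact_mod_cast h4
  have hdeg : q.degree < (#(range (t + 1)) : ℕ) := by
    rw [card_range]
    refine lt_of_le_of_lt degree_le_natDegree ?_
    exact_mod_cast Nat.lt_succ_of_le hq
  have h1 := Lagrange.eq_interpolate hinj hdeg
  have h2 : q.eval x = ∑ i ∈ range (t + 1), q.eval (v i) *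
      ∏ j ∈ (range (t + 1)).erase i, ((x - v j) / (v i - v j)) := by
    conv_lhs => rw [h1]
    rw [Lagrange.interpolate_apply, eval_finsetSum]
    apply sum_congr rfl
    intro i _
    rw [eval_mul, eval_C, Lagrange.basis]
    congr 1
    rw [eval_prod]
    apply prod_congr rfl
    intro l _
    simp only [Lagrange.basisDivisor, eval_mul, eval_C, eval_sub, eval_X]
    rw [mul_comm, div_eq_mul_inv]
  rw [h2]
  refine (abs_sum_le_sum_abs _ _).trans ?_
  have h3 : ∀ i ∈ range (t + 1), |q.eval (v i) * ∏ j ∈ (range (t + 1)).erase i, ((x - v j) / (v i - v j))|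
      ≤ M * ((a / s) ^ t * (1 / ((i.factorial : ℝ) * ((t - i).factorial : ℝ)))) := by
    intro i hi
    have hi' : i ≤ t := Nat.lt_succ_iff.mp (by simpa using hi)
    rw [abs_mul, abs_prod]
    have h4 : ∏ j ∈ (range (t + 1)).erase i, |(x - v j) / (v i - v j)|
        ≤ ∏ j ∈ (range (t + 1)).erase i, (a / s * (1 / |(i : ℝ) - j|)) := by
      apply prod_le_prod
      · intro j _; exact abs_nonneg _
      · intro j hj
        rw [mem_erase, mem_range] at hj
        have hj' : j ≤ t := by omega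
        have hne : 0 < |(i : ℝ) - j| := by
          rw [abs_pos]
          intro h
          have : (i : ℝ) = j := by linarith
          exact hj.1 (by exact_mod_cast this.symm)
        have h5 := hsep i hi' j hj'
        have h6 := hx j hj'
        rw [abs_div]
        calc |x - v j| / |v i - v j| ≤ a / (s * |(i : ℝ) - j|) := by gcongr
          _ = _ := by field_simp
    have h7 : ∏ j ∈ (range (t + 1)).erase i, (a / s * (1 / |(i : ℝ) - j|))
        = (a / s) ^ t * (1 / ((i.factorial : ℝ) * ((t - i).factorial : ℝ))) := by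
      rw [prod_mul_distrib, prod_const, card_erase_of_mem hi, card_range, Nat.add_sub_cancel]
      congr 1
      rw [← prod_abs_sub_eq t i hi', one_div, ← prod_inv_distrib]
      apply prod_congr rfl; intro j _; rw [one_div]
    rw [h7] at h4
    exact mul_le_mul (hM i hi') h4 (prod_nonneg fun j _ => abs_nonneg _) hM0
  refine (sum_le_sum h3).trans (le_of_eq ?_)
  rw [← mul_sum, ← mul_sum]
  congr 2
  have h8 : ∀ i ∈ range (t + 1), (1 : ℝ) / ((i.factorial : ℝ) * ((t - i).factorial : ℝ))
      = (t.choose i : ℝ) / t.factorial := by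
    intro i hi
    have hi' : i ≤ t := Nat.lt_succ_iff.mp (by simpa using hi)
    have h9 := Nat.choose_mul_factorial_mul_factorial hi'
    have h10 : (t.choose i : ℝ) * (i.factorial : ℝ) * ((t - i).factorial : ℝ) = (t.factorial : ℝ) := by
      exact_mod_cast h9
    have h11 : (0:ℝ) < i.factorial := by exact_mod_cast Nat.factorial_pos i
    have h12 : (0:ℝ) < (t - i).factorial := by exact_mod_cast Nat.factorial_pos _
    have h13 : (0:ℝ) < t.factorial := by exact_mod_cast Nat.factorial_pos t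
    rw [div_eq_div_iff (by positivity) (by positivity), ← h10]
    ring
  rw [sum_congr rfl h8, ← sum_div]
  congr 1
  have := Nat.sum_range_choose t
  exact_mod_cast this

/-- the arcsine is Lipschitz away from the endpoint -/
lemma arcsin_lip {x y : ℝ} (hx : 0 ≤ x) (hxy : x ≤ y) (hy : y ≤ 4 / 5) :
    Real.arcsin y - Real.arcsin x ≤ 3 * (y - x) := by
  set A := Real.arcsin x with hA
  set B := Real.arcsin y with hB
  have hAx : Real.sin A = x := Real.sin_arcsin (by linarith) (by linarith)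
  have hBy : Real.sin B = y := Real.sin_arcsin (by linarith) (by linarith)
  have hA0 : 0 ≤ A := Real.arcsin_nonneg.mpr hx
  have hAB : A ≤ B := Real.monotone_arcsin hxy
  have hBpi : B ≤ Real.pi / 2 := Real.arcsin_le_pi_div_two y
  have hcosB : 3 / 5 ≤ Real.cos B := by
    rw [hB, Real.cos_arcsin]
    apply Real.le_sqrt_of_sq_le
    nlinarith
  have hpi := Real.pi_pos
  have hpi3 := Real.pi_lt_d2
  have h1 : y - x = 2 * Real.cos ((A + B) / 2) * Real.sin ((B - A) / 2) := by
    rw [← hAx, ← hBy, Real.sin_sub_sin]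
    ring_nf
  have h2 : Real.cos B ≤ Real.cos ((A + B) / 2) := by
    apply Real.cos_le_cos_of_nonneg_of_le_pi
    · linarith
    · linarith
    · linarith
  have h3 : 2 / Real.pi * ((B - A) / 2) ≤ Real.sin ((B - A) / 2) :=
    Real.mul_le_sin (by linarith) (by linarith)
  have h4 : 0 ≤ 2 / Real.pi * ((B - A) / 2) := by
    have : 0 ≤ B - A := by linarith
    positivity
  have h5 : 2 * (3 / 5) * (2 / Real.pi * ((B - A) / 2)) ≤ y - x := by
    rw [h1]
    have h6 : 0 < Real.cos ((A + B) / 2) := by linarith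
    have : (3 / 5 : ℝ) ≤ Real.cos ((A + B) / 2) := by linarith
    apply mul_le_mul _ h3 h4 (by positivity)
    linarith
  have h6 : 2 * (3 / 5) * (2 / Real.pi * ((B - A) / 2)) = (6 / 5) / Real.pi * (B - A) := by
    field_simp; ring
  rw [h6, div_mul_eq_mul_div, div_le_iff₀ hpi] at h5
  have h7 : 0 ≤ y - x := by linarith
  nlinarith

/-- lower bound for a polynomial near its maximum, on an arc -/
lemma arc_lower {F : ℝ[X]} {D : ℕ} (hD : 1 ≤ D) (hF : F.natDegree ≤ D) {a K : ℝ} (ha : 0 < a)
    (hK0 : 0 < K) (hK : ∀ x ∈ Set.Icc (0:ℝ) a, |F.eval x| ≤ K) {xs x : ℝ} (hxs0 : 0 ≤ xs)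
    (hxs : xs ≤ a / 2) (hmax : |F.eval xs| = K) (hx0 : 0 ≤ x)
    (h1 : Real.sqrt xs ≤ Real.sqrt x)
    (h2 : Real.sqrt x ≤ Real.sqrt xs + Real.sqrt a / (12 * D)) :
    K / 2 ≤ |F.eval x| := by
  have hD0 : (1:ℝ) ≤ D := by exact_mod_cast hD
  have hsa : 0 < Real.sqrt a := Real.sqrt_pos.mpr ha
  set u : ℝ := Real.sqrt xs / Real.sqrt a with hu
  set v : ℝ := Real.sqrt x / Real.sqrt a with hv
  have hu0 : 0 ≤ u := by positivity
  have huv : u ≤ v := by rw [hu, hv]; gcongr
  have hu2 : u ^ 2 ≤ 1 / 2 := by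
    rw [hu, div_pow, Real.sq_sqrt hxs0, Real.sq_sqrt ha.le, div_le_iff₀ ha]; linarith
  have hu3 : u ≤ 71 / 100 := by nlinarith
  have hvu : v - u ≤ 1 / (12 * D) := by
    rw [hu, hv, ← sub_div, div_le_iff₀ hsa]
    have : 1 / (12 * (D : ℝ)) * Real.sqrt a = Real.sqrt a / (12 * D) := by ring
    rw [this]; linarith
  have hv1 : v ≤ 4 / 5 := by
    have : 1 / (12 * (D : ℝ)) ≤ 1 / 12 := by
      apply one_div_le_one_div_of_le <;> linarith
    linarith
  have hlip := arcsin_lip hu0 huv hv1
  set G : ℝ[X] := F.comp (C (a / 2) * (1 - X)) with hG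
  have hGd : G.natDegree ≤ D := by
    rw [hG, natDegree_comp]
    have : (C (a / 2) * (1 - X) : ℝ[X]).natDegree ≤ 1 := by
      refine (natDegree_C_mul_le _ _).trans ?_
      exact (natDegree_sub_le _ _).trans (max_le (by simp) natDegree_X_le)
    calc F.natDegree * (C (a / 2) * (1 - X) : ℝ[X]).natDegree ≤ D * 1 := Nat.mul_le_mul hF this
      _ = D := mul_one D
  have hGe : ∀ y, G.eval y = F.eval (a / 2 * (1 - y)) := by
    intro y; simp [hG, eval_comp]
  have hGb : ∀ y ∈ Set.Icc (-1:ℝ) 1, |G.eval y| ≤ K := by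
    intro y hy
    rw [hGe]
    apply hK
    constructor
    · nlinarith [hy.2]
    · nlinarith [hy.1]
  have hB := bernstein_lip G D hGd K hK0 hGb (2 * Real.arcsin u) (2 * Real.arcsin v)
  have hcos : ∀ z : ℝ, 0 ≤ z → z ≤ 1 → a / 2 * (1 - Real.cos (2 * Real.arcsin z)) = a * z ^ 2 := by
    intro z hz0 hz1
    rw [Real.cos_two_mul, Real.cos_sq', Real.sin_arcsin (by linarith) hz1]
    ring
  rw [hGe, hGe, hcos u hu0 (by linarith), hcos v (hu0.trans huv) (by linarith)] at hB
  have e1 : a * u ^ 2 = xs := by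
    rw [hu, div_pow, Real.sq_sqrt hxs0, Real.sq_sqrt ha.le]; field_simp
  have e2 : a * v ^ 2 = x := by
    rw [hv, div_pow, Real.sq_sqrt hx0, Real.sq_sqrt ha.le]; field_simp
  rw [e1, e2] at hB
  have h3 : |2 * Real.arcsin u - 2 * Real.arcsin v| ≤ 1 / (2 * D) := by
    have hmono : Real.arcsin u ≤ Real.arcsin v := Real.monotone_arcsin huv
    rw [abs_sub_comm, abs_of_nonneg (by linarith)]
    calc 2 * Real.arcsin v - 2 * Real.arcsin u ≤ 6 * (v - u) := by linarith
      _ ≤ 6 * (1 / (12 * D)) := by gcongr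
      _ = 1 / (2 * D) := by field_simp; norm_num
  have h4 : |F.eval xs - F.eval x| ≤ K / 2 := by
    refine hB.trans ?_
    calc (D : ℝ) * K * |2 * Real.arcsin u - 2 * Real.arcsin v| ≤ D * K * (1 / (2 * D)) := by gcongr
      _ = K / 2 := by field_simp
  have h5 : |F.eval xs| ≤ |F.eval xs - F.eval x| + |F.eval x| := by
    have := abs_add_le (F.eval xs - F.eval x) (F.eval x)
    simpa using this
  rw [hmax] at h5
  linarith

end Pool.Agent.Hhelper29.CG
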