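import Pool.Agent.Hhelper29.CG.RcdDet

/-!
Probability formulas in the random model.
-/

namespace Pool.Agent.Hhelper29.CG

open MeasureTheory Matrix ProbabilityTheory
open scoped ENNReal Classical

variable {n : ℕ} {p : ℝ} {Ω : Type*} [MeasurableSpace Ω] {P : Measure Ω}

lemma Model.haarU (m : Model n p P) : IsHaarU (Measure.map m.U P) := by
  have := m.prob
  refine ⟨Measure.isProbabilityMeasure_map m.measurable_U.aemeasurable, ?_, ?_⟩
  · have h := ae_map_iff (μ := P) (f := m.U) m.measurable_U.aemeasurable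
      (p := fun M => M ∈ unitaryGroup (Fin n) ℂ) (by
        have e : {M : Matrix (Fin n) (Fin n) ℂ | M ∈ unitaryGroup (Fin n) ℂ}
            = ⋂ i, ⋂ j, {M | (M * Mᴴ) i j = (1 : Matrix (Fin n) (Fin n) ℂ) i j} := by
          ext M
          simp only [Set.mem_ofPred_eq, Set.mem_iInter]
          rw [mem_unitaryGroup_iff, star_eq_conjTranspose]
          constructor
          · intro h i j; rw [h]
          · intro h; ext i j; exact h i j
        rw [e]
        refine MeasurableSet.iInter fun i => MeasurableSet.iInter fun j => ?_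
        have hm : Measurable (fun M : Matrix (Fin n) (Fin n) ℂ => (M * Mᴴ) i j) := by
          simp only [mul_apply, conjTranspose_apply]
          have h1 := fun k => measurable_entry (n := n) i k
          have h2 := fun k => Complex.continuous_conj.measurable.comp (measurable_entry (n := n) j k)
          exact Finset.measurable_sum _ fun k _ => (h1 k).mul (h2 k)
        exact measurableSet_eq_fun hm measurable_const)
    exact h.mpr (Filter.Eventually.of_forall m.unitary)
  · intro V hV
    have h := m.haar V hV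
    have hm := measurable_mul_left V
    rw [Measure.map_map hm m.measurable_U]
    exact h

lemma Model.unif (m : Model n p P) : IsUnif (Measure.map m.z P) := by
  have := m.prob
  refine ⟨Measure.isProbabilityMeasure_map m.measurable_z.aemeasurable, ?_, ?_⟩
  · have h := ae_map_iff (μ := P) (f := m.z) m.measurable_z.aemeasurable
      (p := fun x => nsq x = 1) (measurableSet_eq_fun measurable_nsq measurable_const)
    exact h.mpr (Filter.Eventually.of_forall m.sphere)
  · intro V hV
    have h := m.uniform V hV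
    rw [Measure.map_map (measurable_mulVec_const V) m.measurable_z]
    exact h

/-- the joint law of `(U, U^* z)` is a product -/
lemma Model.pair_law (m : Model n p P) {G : Matrix (Fin n) (Fin n) ℂ × (Fin n → ℂ) → ℝ≥0∞}
    (hG : Measurable G) :
    ∫⁻ ω, G (m.U ω, (m.U ω)ᴴ *ᵥ m.z ω) ∂P
      = ∫⁻ M, ∫⁻ w, G (M, w) ∂(Measure.map m.z P) ∂(Measure.map m.U P) := by
  have := m.prob
  have hU := m.haarU
  have hz := m.unif
  have := hU.prob
  have := hz.prob
  have hind := (indepFun_iff_map_prod_eq_prod_map_map m.measurable_U.aemeasurable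
    m.measurable_z.aemeasurable).mp m.indep
  have hG2 : Measurable (fun q : Matrix (Fin n) (Fin n) ℂ × (Fin n → ℂ) => G (q.1, q.1ᴴ *ᵥ q.2)) := by
    have h1 := (measurable_fst : Measurable
      (fun q : Matrix (Fin n) (Fin n) ℂ × (Fin n → ℂ) => q.1)).prodMk
      (measurable_adj_mulVec_pair (n := n))
    exact hG.comp h1
  have e1 : ∫⁻ ω, G (m.U ω, (m.U ω)ᴴ *ᵥ m.z ω) ∂P
      = ∫⁻ q, G (q.1, q.1ᴴ *ᵥ q.2) ∂(Measure.map (fun ω => (m.U ω, m.z ω)) P) := by
    rw [lintegral_map hG2 (m.measurable_U.prodMk m.measurable_z)]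
  rw [e1, hind, lintegral_prod _ hG2.aemeasurable]
  apply lintegral_congr_ae
  filter_upwards [hU.unitary] with M hM
  have h2 := hz.inv Mᴴ (conjTranspose_mem_unitary hM)
  have hGM : Measurable (fun w => G (M, w)) := hG.comp (measurable_const.prodMk measurable_id)
  calc ∫⁻ w, G (M, Mᴴ *ᵥ w) ∂(Measure.map m.z P)
      = ∫⁻ w, G (M, w) ∂(Measure.map (fun x => Mᴴ *ᵥ x) (Measure.map m.z P)) :=
        (lintegral_map hGM (measurable_mulVec_const _)).symm
    _ = ∫⁻ w, G (M, w) ∂(Measure.map m.z P) := by rw [h2]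

/-- events that depend on `w = U^* z` only -/
lemma Model.prob_w (m : Model n p P) {E : Set (Fin n → ℂ)} (hE : MeasurableSet E) :
    P {ω | (m.U ω)ᴴ *ᵥ m.z ω ∈ E} = Measure.map m.z P E := by
  have := m.prob
  have hU := m.haarU
  have := hU.prob
  have hG : Measurable (fun q : Matrix (Fin n) (Fin n) ℂ × (Fin n → ℂ) =>
      E.indicator (1 : (Fin n → ℂ) → ℝ≥0∞) q.2) :=
    (measurable_one.indicator hE).comp measurable_snd
  have h := m.pair_law hG
  have hmeas : MeasurableSet {ω | (m.U ω)ᴴ *ᵥ m.z ω ∈ E} := by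
    have h1 := (measurable_adj_mulVec_pair (n := n)).comp (m.measurable_U.prodMk m.measurable_z)
    exact h1 hE
  have e1 : ∫⁻ ω, E.indicator (1 : (Fin n → ℂ) → ℝ≥0∞) ((m.U ω)ᴴ *ᵥ m.z ω) ∂P
      = P {ω | (m.U ω)ᴴ *ᵥ m.z ω ∈ E} := by
    rw [← lintegral_indicator_one hmeas]
    apply lintegral_congr
    intro ω
    simp [Set.indicator]
  rw [← e1, h]
  simp only [lintegral_indicator_one hE, lintegral_const, measure_univ, mul_one]

/-- sampling weights -/
noncomputable def pwt (p : ℝ) (U : Matrix (Fin n) (Fin n) ℂ) (i : Fin n) : ℝ :=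
  nsq (rowv p U i) / tau n p

/-- the step maps -/
noncomputable def stp (p : ℝ) (U : Matrix (Fin n) (Fin n) ℂ) (i : Fin n) :
    (Fin n → ℂ) → (Fin n → ℂ) := pr (rowv p U i)

lemma tau_nonneg (n : ℕ) (p : ℝ) : 0 ≤ tau n p := Finset.sum_nonneg fun k _ => (lam_pos p k).le

lemma pwt_nonneg (p : ℝ) (U : Matrix (Fin n) (Fin n) ℂ) (i : Fin n) : 0 ≤ pwt p U i :=
  div_nonneg (nsq_nonneg _) (tau_nonneg n p)

lemma tau_pos (p : ℝ) (hn : 0 < n) : 0 < tau n p :=
  Finset.sum_pos (fun k _ => lam_pos p k) ⟨⟨0, hn⟩, Finset.mem_univ _⟩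

lemma sum_pwt (p : ℝ) (hn : 0 < n) {U : Matrix (Fin n) (Fin n) ℂ}
    (hU : U ∈ unitaryGroup (Fin n) ℂ) : ∑ i, pwt p U i = 1 := by
  simp only [pwt, ← Finset.sum_div, sum_nsq_rowv p hU]
  exact div_self (tau_pos p hn).ne'

lemma measurable_rowv_apply (p : ℝ) (i k : Fin n) :
    Measurable (fun U : Matrix (Fin n) (Fin n) ℂ => rowv p U i k) := by
  unfold rowv
  exact measurable_const.mul (Complex.continuous_conj.measurable.comp (measurable_entry i k))

lemma measurable_rowv (p : ℝ) (i : Fin n) :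
    Measurable (fun U : Matrix (Fin n) (Fin n) ℂ => rowv p U i) :=
  measurable_pi_lambda _ fun k => measurable_rowv_apply p i k

lemma measurable_pr_pair : Measurable (fun q : (Fin n → ℂ) × (Fin n → ℂ) => pr q.1 q.2) := by
  unfold pr cin
  have h1 : ∀ k : Fin n, Measurable (fun q : (Fin n → ℂ) × (Fin n → ℂ) => q.1 k) :=
    fun k => (measurable_pi_apply k).comp measurable_fst
  have h2 : ∀ k : Fin n, Measurable (fun q : (Fin n → ℂ) × (Fin n → ℂ) => q.2 k) :=
    fun k => (measurable_pi_apply k).comp measurable_snd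
  have h3 : Measurable (fun q : (Fin n → ℂ) × (Fin n → ℂ) => ∑ k, star (q.1 k) * q.2 k) :=
    Finset.measurable_sum _ fun k _ =>
      (Complex.continuous_conj.measurable.comp (h1 k)).mul (h2 k)
  have h4 : Measurable (fun q : (Fin n → ℂ) × (Fin n → ℂ) => ((nsq q.1 : ℝ) : ℂ)) :=
    Complex.measurable_ofReal.comp (measurable_nsq.comp measurable_fst)
  apply measurable_pi_lambda
  intro k
  simp only [Pi.sub_apply, Pi.smul_apply, smul_eq_mul]
  exact (h2 k).sub ((h3.div h4).mul (h1 k))

lemma measurable_y0 (p : ℝ) : Measurable (y0 p : (Fin n → ℂ) → (Fin n → ℂ)) := by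
  apply measurable_pi_lambda
  intro k
  unfold y0
  exact measurable_const.mul (measurable_pi_apply k)

lemma measurable_runF (p : ℝ) (t : ℕ) (j : Fin t → Fin n) :
    Measurable (fun q : Matrix (Fin n) (Fin n) ℂ × (Fin n → ℂ) =>
      runF (stp p q.1) t j (y0 p q.2)) := by
  induction t with
  | zero =>
    have := (measurable_y0 (n := n) p).comp
      (measurable_snd : Measurable (fun q : Matrix (Fin n) (Fin n) ℂ × (Fin n → ℂ) => q.2))
    exact this
  | succ t ih =>
    have h1 := ih (fun k => j k.castSucc)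
    have h2 := (measurable_rowv (n := n) p (j (Fin.last t))).comp
      (measurable_fst : Measurable (fun q : Matrix (Fin n) (Fin n) ℂ × (Fin n → ℂ) => q.1))
    have h3 := (measurable_pr_pair (n := n)).comp (h2.prodMk h1)
    exact h3

lemma measurable_pwt (p : ℝ) (i : Fin n) :
    Measurable (fun U : Matrix (Fin n) (Fin n) ℂ => pwt p U i) := by
  unfold pwt
  exact (measurable_nsq.comp (measurable_rowv p i)).div_const _

/-- The probability of an event depending on the initial and the `t`-th error vector of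
randomized coordinate descent. -/
theorem Model.prob_rcd (m : Model n p P) (R : Set ((Fin n → ℂ) × (Fin n → ℂ)))
    (hR : MeasurableSet R) (t : ℕ) :
    P {ω | (y0 p ((m.U ω)ᴴ *ᵥ m.z ω),
        runN (stp p (m.U ω)) (fun s => m.idx s ω) t (y0 p ((m.U ω)ᴴ *ᵥ m.z ω))) ∈ R}
      = ∫⁻ M, ∫⁻ w, ENNReal.ofReal (Ex (pwt p M) (stp p M) t
          (fun y => if (y0 p w, y) ∈ R then 1 else 0) (y0 p w)) ∂(Measure.map m.z P)
          ∂(Measure.map m.U P) := by
  have := m.prob
  -- the sets `S_j`
  set S : (Fin t → Fin n) → Set (Matrix (Fin n) (Fin n) ℂ × (Fin n → ℂ)) := fun j =>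
    {q | (y0 p (q.1ᴴ *ᵥ q.2), runF (stp p q.1) t j (y0 p (q.1ᴴ *ᵥ q.2))) ∈ R} with hS
  have hSm : ∀ j, MeasurableSet (S j) := by
    intro j
    have h1 : Measurable (fun q : Matrix (Fin n) (Fin n) ℂ × (Fin n → ℂ) =>
        (q.1, q.1ᴴ *ᵥ q.2)) := measurable_fst.prodMk measurable_adj_mulVec_pair
    have h2 := (measurable_runF (n := n) p t j).comp h1
    have h3 := (measurable_y0 (n := n) p).comp (measurable_adj_mulVec_pair (n := n))
    exact (h3.prodMk h2) hR
  have hset : {ω | (y0 p ((m.U ω)ᴴ *ᵥ m.z ω),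
        runN (stp p (m.U ω)) (fun s => m.idx s ω) t (y0 p ((m.U ω)ᴴ *ᵥ m.z ω))) ∈ R}
      = ⋃ j ∈ (Finset.univ : Finset (Fin t → Fin n)),
        {ω | (m.U ω, m.z ω) ∈ S j ∧ ∀ s : Fin t, m.idx s ω = j s} := by
    ext ω
    simp only [Set.mem_ofPred_eq, Set.mem_iUnion, Finset.mem_univ, exists_prop, true_and, hS]
    constructor
    · intro h
      refine ⟨fun s => m.idx s ω, ?_, fun s => rfl⟩
      rw [← runN_eq_runF (fun s => m.idx s ω) t _ (fun k => rfl)]
      exact h
    · rintro ⟨j, h1, h2⟩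
      rw [runN_eq_runF (fun s => m.idx s ω) t j h2]
      exact h1
  have hmeasj : ∀ j : Fin t → Fin n,
      MeasurableSet {ω | (m.U ω, m.z ω) ∈ S j ∧ ∀ s : Fin t, m.idx s ω = j s} := by
    intro j
    have h1 : MeasurableSet {ω | (m.U ω, m.z ω) ∈ S j} :=
      (m.measurable_U.prodMk m.measurable_z) (hSm j)
    have h2 : MeasurableSet {ω | ∀ s : Fin t, m.idx s ω = j s} := by
      have : {ω | ∀ s : Fin t, m.idx s ω = j s} = ⋂ s : Fin t, {ω | m.idx s ω = j s} := by
        ext ω; simp
      rw [this]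
      exact MeasurableSet.iInter fun s => m.measurable_idx s (measurableSet_singleton (j s))
    exact h1.inter h2
  rw [hset, measure_biUnion_finset ?_ (fun j _ => hmeasj j)]
  · have hsum : ∀ j : Fin t → Fin n,
        P {ω | (m.U ω, m.z ω) ∈ S j ∧ ∀ s : Fin t, m.idx s ω = j s}
        = ∫⁻ ω, ENNReal.ofReal ((∏ k, pwt p (m.U ω) (j k)) *
            (if (y0 p ((m.U ω)ᴴ *ᵥ m.z ω), runF (stp p (m.U ω)) t j
              (y0 p ((m.U ω)ᴴ *ᵥ m.z ω))) ∈ R then 1 else 0)) ∂P := by
      intro j
      rw [m.idx_law t j (S j) (hSm j)]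
      have h1 : MeasurableSet {ω | (m.U ω, m.z ω) ∈ S j} :=
        (m.measurable_U.prodMk m.measurable_z) (hSm j)
      rw [← lintegral_indicator h1]
      apply lintegral_congr
      intro ω
      have hw : ∀ i, (matA p (m.U ω) i i).re / (matA p (m.U ω)).trace.re = pwt p (m.U ω) i := by
        intro i
        rw [matA_diag, matA_trace p (m.unitary ω), pwt, Complex.ofReal_re, Complex.ofReal_re]
      by_cases h : (m.U ω, m.z ω) ∈ S j
      · have h' : (y0 p ((m.U ω)ᴴ *ᵥ m.z ω), runF (stp p (m.U ω)) t j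
              (y0 p ((m.U ω)ᴴ *ᵥ m.z ω))) ∈ R := h
        rw [Set.indicator_of_mem (show ω ∈ {ω | (m.U ω, m.z ω) ∈ S j} from h), if_pos h', mul_one,
          ENNReal.ofReal_prod_of_nonneg (fun k _ => pwt_nonneg p _ _)]
        simp only [hw]
      · have h' : ¬ (y0 p ((m.U ω)ᴴ *ᵥ m.z ω), runF (stp p (m.U ω)) t j
              (y0 p ((m.U ω)ᴴ *ᵥ m.z ω))) ∈ R := h
        rw [Set.indicator_of_notMem (show ω ∉ {ω | (m.U ω, m.z ω) ∈ S j} from h), if_neg h',
          mul_zero, ENNReal.ofReal_zero]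
    simp only [hsum]
    -- use the pair law
    have hG : ∀ j : Fin t → Fin n, Measurable (fun q : Matrix (Fin n) (Fin n) ℂ × (Fin n → ℂ) =>
        ENNReal.ofReal ((∏ k, pwt p q.1 (j k)) *
            (if (y0 p q.2, runF (stp p q.1) t j (y0 p q.2)) ∈ R then (1:ℝ) else 0))) := by
      intro j
      have h1 : Measurable (fun q : Matrix (Fin n) (Fin n) ℂ × (Fin n → ℂ) =>
          ∏ k, pwt p q.1 (j k)) :=
        Finset.measurable_prod _ fun k _ => (measurable_pwt p (j k)).comp measurable_fst
      have h2 := measurable_runF (n := n) p t j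
      have h3 := (measurable_y0 (n := n) p).comp
        (measurable_snd : Measurable (fun q : Matrix (Fin n) (Fin n) ℂ × (Fin n → ℂ) => q.2))
      have h4 : MeasurableSet {q : Matrix (Fin n) (Fin n) ℂ × (Fin n → ℂ) |
          (y0 p q.2, runF (stp p q.1) t j (y0 p q.2)) ∈ R} := (h3.prodMk h2) hR
      have h5 : Measurable (fun q : Matrix (Fin n) (Fin n) ℂ × (Fin n → ℂ) =>
          (if (y0 p q.2, runF (stp p q.1) t j (y0 p q.2)) ∈ R then (1:ℝ) else 0)) :=
        Measurable.ite h4 measurable_const measurable_const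
      exact (h1.mul h5).ennreal_ofReal
    have hpl := fun j => m.pair_law (hG j)
    calc ∑ j : Fin t → Fin n, ∫⁻ ω, ENNReal.ofReal ((∏ k, pwt p (m.U ω) (j k)) *
            (if (y0 p ((m.U ω)ᴴ *ᵥ m.z ω), runF (stp p (m.U ω)) t j
              (y0 p ((m.U ω)ᴴ *ᵥ m.z ω))) ∈ R then 1 else 0)) ∂P
        = ∑ j : Fin t → Fin n, ∫⁻ M, ∫⁻ w, ENNReal.ofReal ((∏ k, pwt p M (j k)) *
            (if (y0 p w, runF (stp p M) t j (y0 p w)) ∈ R then (1:ℝ) else 0))
              ∂(Measure.map m.z P) ∂(Measure.map m.U P) :=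
          Finset.sum_congr rfl fun j _ => hpl j
      _ = ∫⁻ M, ∫⁻ w, ∑ j : Fin t → Fin n, ENNReal.ofReal ((∏ k, pwt p M (j k)) *
            (if (y0 p w, runF (stp p M) t j (y0 p w)) ∈ R then (1:ℝ) else 0))
              ∂(Measure.map m.z P) ∂(Measure.map m.U P) := by
          have hz := m.unif.prob
          rw [← lintegral_finsetSum _ (fun j _ => (hG j).lintegral_prod_right')]
          apply lintegral_congr
          intro M
          have hGM : ∀ j ∈ (Finset.univ : Finset (Fin t → Fin n)), Measurable (fun w : Fin n → ℂ =>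
              ENNReal.ofReal ((∏ k, pwt p M (j k)) *
            (if (y0 p w, runF (stp p M) t j (y0 p w)) ∈ R then (1:ℝ) else 0))) := by
            intro j _
            have h6 := (hG j).comp (measurable_const.prodMk measurable_id :
              Measurable (fun w : Fin n → ℂ => (M, w)))
            exact h6
          exact (lintegral_finsetSum _ hGM).symm
      _ = _ := by
          apply lintegral_congr
          intro M
          apply lintegral_congr
          intro w
          rw [Ex_eq_sum, ENNReal.ofReal_sum_of_nonneg]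
          intro j _
          apply mul_nonneg (Finset.prod_nonneg fun k _ => pwt_nonneg p M _)
          split_ifs <;> norm_num
  · intro j _ j' _ hjj
    apply Set.disjoint_left.mpr
    rintro ω ⟨_, h1⟩ ⟨_, h2⟩
    exact hjj (funext fun s => (h1 s).symm.trans (h2 s))

end Pool.Agent.Hhelper29.CG
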