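import Pool.Agent.Hhelper29.CG.CgOneUpper

/-!
Concentration of the moments `∑ ((k+1)/n)^{-β} |w_k|²` under the uniform law.
-/

namespace Pool.Agent.Hhelper29.CG

open MeasureTheory Matrix ProbabilityTheory Polynomial Filter
open scoped ENNReal Classical Topology

variable {n : ℕ}

lemma rpow_step_lt_one' {s : ℝ} (hs0 : 0 ≤ s) (hs1 : s < 1) (k : ℕ) :
    ((k : ℝ) + 2) ^ (1 - s) - ((k : ℝ) + 1) ^ (1 - s) ≤ (1 - s) * ((k : ℝ) + 1) ^ (-s) := by
  have hk : (0:ℝ) < (k : ℝ) + 1 := by positivity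
  have h1 : (1 + 1 / ((k : ℝ) + 1)) ^ (1 - s) ≤ 1 + (1 - s) * (1 / ((k : ℝ) + 1)) := by
    apply rpow_one_add_le_one_add_mul_self
    · have : 0 ≤ 1 / ((k : ℝ) + 1) := by positivity
      linarith
    · linarith
    · linarith
  have h2 : 1 + 1 / ((k : ℝ) + 1) = ((k : ℝ) + 2) / ((k : ℝ) + 1) := by field_simp; ring
  rw [h2, Real.div_rpow (by positivity) hk.le] at h1
  have h3 : ((k : ℝ) + 1) ^ (1 - s) = ((k : ℝ) + 1) * ((k : ℝ) + 1) ^ (-s) := by
    rw [sub_eq_add_neg, Real.rpow_add hk, Real.rpow_one]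
  have hpos : 0 < ((k : ℝ) + 1) ^ (1 - s) := Real.rpow_pos_of_pos hk _
  rw [div_le_iff₀ hpos] at h1
  have h4 : (1 + (1 - s) * (1 / ((k : ℝ) + 1))) * ((k : ℝ) + 1) ^ (1 - s)
      = ((k : ℝ) + 1) ^ (1 - s) + (1 - s) * ((k : ℝ) + 1) ^ (-s) := by
    rw [h3]; field_simp
  rw [h4] at h1
  linarith

lemma le_sum_rpow {s : ℝ} (hs0 : 0 ≤ s) (hs1 : s < 1) (n : ℕ) :
    (((n : ℝ) + 1) ^ (1 - s) - 1) / (1 - s) ≤ ∑ k ∈ Finset.range n, ((k : ℝ) + 1) ^ (-s) := by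
  have h1s : 0 < 1 - s := by linarith
  rw [div_le_iff₀ h1s]
  induction n with
  | zero => simp
  | succ n ih =>
    rw [Finset.sum_range_succ]
    have h := rpow_step_lt_one' hs0 hs1 n
    push_cast
    have h2 : (n : ℝ) + 1 + 1 = (n : ℝ) + 2 := by ring
    rw [h2]
    nlinarith

/-- the normalised index -/
noncomputable def sx (n k : ℕ) : ℝ := ((k : ℝ) + 1) / n

lemma sx_pos {n : ℕ} (hn : 0 < n) (k : ℕ) : 0 < sx n k := by
  unfold sx
  have : (0:ℝ) < n := by exact_mod_cast hn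
  positivity

lemma sx_le_one {n k : ℕ} (hk : k < n) : sx n k ≤ 1 := by
  unfold sx
  have h0 : (0:ℝ) < n := by
    have : 0 < n := by omega
    exact_mod_cast this
  rw [div_le_one h0]
  exact_mod_cast hk

lemma sx_rpow {n : ℕ} (hn : 0 < n) (k : ℕ) (β : ℝ) :
    sx n k ^ (-β) = (n : ℝ) ^ β * ((k : ℝ) + 1) ^ (-β) := by
  have h0 : (0:ℝ) < n := by exact_mod_cast hn
  unfold sx
  rw [Real.div_rpow (by positivity) h0.le, Real.rpow_neg h0.le β, div_inv_eq_mul, mul_comm]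

lemma riemann_upper {β : ℝ} (h0 : 0 ≤ β) (h1 : β < 1) {n : ℕ} (hn : 0 < n) (K : ℕ) :
    (∑ k ∈ Finset.range K, sx n k ^ (-β)) / n ≤ ((K : ℝ) / n) ^ (1 - β) / (1 - β) := by
  have hn0 : (0:ℝ) < n := by exact_mod_cast hn
  have h2 : ∑ k ∈ Finset.range K, sx n k ^ (-β)
      = (n : ℝ) ^ β * ∑ k ∈ Finset.range K, ((k : ℝ) + 1) ^ (-β) := by
    rw [Finset.mul_sum]
    apply Finset.sum_congr rfl
    intro k _; exact sx_rpow hn k β
  rw [h2]
  have h3 := sum_rpow_le h0 h1 K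
  have h4 : 0 < (n : ℝ) ^ β := Real.rpow_pos_of_pos hn0 _
  have h5 : ((K : ℝ) / n) ^ (1 - β) = (n : ℝ) ^ β * (K : ℝ) ^ (1 - β) / n := by
    rw [Real.div_rpow (Nat.cast_nonneg K) hn0.le, Real.rpow_sub hn0, Real.rpow_one]
    field_simp
  rw [h5]
  calc (n : ℝ) ^ β * (∑ k ∈ Finset.range K, ((k : ℝ) + 1) ^ (-β)) / n
      ≤ (n : ℝ) ^ β * ((K : ℝ) ^ (1 - β) / (1 - β)) / n := by gcongr
    _ = _ := by ring

lemma riemann_lower {β : ℝ} (h0 : 0 ≤ β) (h1 : β < 1) {n : ℕ} (hn : 0 < n) :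
    (1 - (n : ℝ) ^ (-(1 - β))) / (1 - β) ≤ (∑ k ∈ Finset.range n, sx n k ^ (-β)) / n := by
  have hn0 : (0:ℝ) < n := by exact_mod_cast hn
  have h1b : 0 < 1 - β := by linarith
  have h2 : ∑ k ∈ Finset.range n, sx n k ^ (-β)
      = (n : ℝ) ^ β * ∑ k ∈ Finset.range n, ((k : ℝ) + 1) ^ (-β) := by
    rw [Finset.mul_sum]
    apply Finset.sum_congr rfl
    intro k _; exact sx_rpow hn k β
  rw [h2]
  have h3 := le_sum_rpow h0 h1 n
  have h4 : 0 < (n : ℝ) ^ β := Real.rpow_pos_of_pos hn0 _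
  have h6 : (n : ℝ) ^ (1 - β) ≤ ((n : ℝ) + 1) ^ (1 - β) := by
    apply Real.rpow_le_rpow hn0.le _ h1b.le; linarith
  have h7 : (n : ℝ) ^ β * (n : ℝ) ^ (1 - β) = n := by
    rw [← Real.rpow_add hn0]; simp
  have h8 : (n : ℝ) ^ (-(1 - β)) * (n : ℝ) = (n : ℝ) ^ β := by
    conv_lhs => rw [← Real.rpow_one (n : ℝ)]
    rw [Real.rpow_one, ← Real.rpow_add_one hn0.ne']
    congr 1; ring
  rw [le_div_iff₀ hn0]
  calc (1 - (n : ℝ) ^ (-(1 - β))) / (1 - β) * n
      = (n - (n : ℝ) ^ (-(1 - β)) * n) / (1 - β) := by ring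
    _ = ((n : ℝ) ^ β * (n : ℝ) ^ (1 - β) - (n : ℝ) ^ β) / (1 - β) := by rw [h7, h8]
    _ = (n : ℝ) ^ β * (((n : ℝ) ^ (1 - β) - 1) / (1 - β)) := by ring
    _ ≤ (n : ℝ) ^ β * ((((n : ℝ) + 1) ^ (1 - β) - 1) / (1 - β)) := by gcongr
    _ ≤ _ := by gcongr

/-- the moments -/
noncomputable def mom (n : ℕ) (β : ℝ) (w : Fin n → ℂ) : ℝ := ∑ k : Fin n, sx n k ^ (-β) * ‖w k‖ ^ 2

/-- truncated moments -/
noncomputable def momK (n : ℕ) (β : ℝ) (K : ℕ) (w : Fin n → ℂ) : ℝ :=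
  ∑ k : Fin n, (if (k : ℕ) < K then sx n k ^ (-β) else 0) * ‖w k‖ ^ 2

/-- deviation bound with negative mean -/
lemma unif_neg_mean {μ : Measure (Matrix (Fin n) (Fin n) ℂ)} {σ : Measure (Fin n → ℂ)}
    (hμ : IsHaarU μ) (hσ : IsUnif σ) (hn : 0 < n) (c : Fin n → ℝ) {A B v : ℝ} (hB : 0 < B)
    (hv : 0 < v) (hcB : ∀ k, |c k| ≤ B) (hcA : ∑ k, |c k| ≤ A) (hcv : ∑ k, c k ≤ -v) :
    σ {w | 0 < wsq c w} ≤ ENNReal.ofReal (Real.exp (-(v ^ 2 / (8 * A * B)))) := by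
  have hvA : v ≤ A := by
    have h1 : -∑ k, c k ≤ ∑ k, |c k| := by
      rw [← Finset.sum_neg_distrib]
      exact Finset.sum_le_sum fun k _ => neg_le_abs (c k)
    linarith
  have hA : 0 < A := by linarith
  set θ : ℝ := v / (4 * A * B) with hθ
  have hθ0 : 0 < θ := by positivity
  have hθB : θ * B = v / (4 * A) := by rw [hθ]; field_simp
  have hθB' : θ * B ≤ 1 / 2 := by
    rw [hθB, div_le_div_iff₀ (by positivity) (by norm_num)]; linarith
  have h1 := unif_cone_dev hμ hσ hn c hθ0.le (fun k => by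
    have := mul_le_mul_of_nonneg_left (hcB k) hθ0.le
    linarith)
  refine h1.trans (ENNReal.ofReal_le_ofReal (Real.exp_le_exp.mpr ?_))
  have h2 : ∑ k, c k ^ 2 ≤ B * A := by
    calc ∑ k, c k ^ 2 ≤ ∑ k, B * |c k| := by
          apply Finset.sum_le_sum
          intro k _
          rw [← sq_abs, sq]
          exact mul_le_mul_of_nonneg_right (hcB k) (abs_nonneg _)
      _ = B * ∑ k, |c k| := by rw [Finset.mul_sum]
      _ ≤ B * A := by gcongr
  calc θ * (∑ k, c k) + 2 * θ ^ 2 * (∑ k, c k ^ 2) ≤ θ * (-v) + 2 * θ ^ 2 * (B * A) := by gcongr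
    _ = -(v ^ 2 / (8 * A * B)) := by rw [hθ]; field_simp; ring

lemma tendsto_exp_neg_rpow {A v c : ℝ} (hA : 0 < A) (hv : 0 < v) (hc : 0 < c) :
    Tendsto (fun n : ℕ => Real.exp (-(v ^ 2 / (8 * A * (A * (n : ℝ) ^ (-c)))))) atTop (𝓝 0) := by
  have h1 : Tendsto (fun n : ℕ => v ^ 2 / (8 * A * A) * (n : ℝ) ^ c) atTop atTop :=
    ((tendsto_rpow_atTop hc).comp tendsto_natCast_atTop_atTop).const_mul_atTop (by positivity)
  have h2 := Real.tendsto_exp_neg_atTop_nhds_zero.comp h1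
  refine h2.congr' ?_
  filter_upwards [eventually_gt_atTop 0] with n hn
  have hn0 : (0:ℝ) < n := by exact_mod_cast hn
  show Real.exp (-(v ^ 2 / (8 * A * A) * (n : ℝ) ^ c)) = _
  congr 2
  rw [Real.rpow_neg hn0.le]
  field_simp

/-- general concentration for `∑ f(k)|w_k|²` with `|f k| ≤ A s_k^{-β}` and normalised mean
`≤ -v` -/
lemma unif_neg_mean' {β : ℝ} (hβ0 : 0 ≤ β) (hβ1 : β < 1) {A v η : ℝ} (hA : 0 < A) (hv : 0 < v)
    (hη : 0 < η) :
    ∃ n₀ : ℕ, ∀ n ≥ n₀, 0 < n → ∀ (μ : Measure (Matrix (Fin n) (Fin n) ℂ)) (σ : Measure (Fin n → ℂ)),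
      IsHaarU μ → IsUnif σ → ∀ f : Fin n → ℝ, (∀ k : Fin n, |f k| ≤ A * sx n k ^ (-β)) →
        (∑ k, f k) / n ≤ -v → σ {w | 0 < wsq f w} ≤ ENNReal.ofReal η := by
  have h1b : 0 < 1 - β := by linarith
  set A' : ℝ := A / (1 - β) + A with hA'
  have hA'0 : 0 < A' := by positivity
  have hlim := tendsto_exp_neg_rpow hA'0 hv h1b
  obtain ⟨n₀, hn₀⟩ := eventually_atTop.mp (hlim.eventually_le_const hη)
  refine ⟨n₀, fun n hn hnpos μ σ hμ hσ f hf hmean => ?_⟩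
  have hn0 : (0:ℝ) < n := by exact_mod_cast hnpos
  set c : Fin n → ℝ := fun k => f k / n with hc
  have hset : {w : Fin n → ℂ | 0 < wsq f w} = {w | 0 < wsq c w} := by
    ext w
    show 0 < wsq f w ↔ 0 < wsq c w
    have : wsq c w = wsq f w / n := by
      simp only [wsq, hc, Finset.sum_div]
      apply Finset.sum_congr rfl; intro k _; ring
    rw [this]
    constructor
    · intro h; positivity
    · intro h
      have := mul_pos h hn0
      rwa [div_mul_cancel₀ _ hn0.ne'] at this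
  rw [hset]
  have hB : ∀ k, |c k| ≤ A' * (n : ℝ) ^ (-(1 - β)) := by
    intro k
    rw [hc]; beta_reduce
    rw [abs_div, abs_of_pos hn0, div_le_iff₀ hn0]
    have h2 : sx n k ^ (-β) ≤ (n : ℝ) ^ β := by
      rw [sx_rpow hnpos]
      have h3 : ((k : ℝ) + 1) ^ (-β) ≤ 1 := by
        apply Real.rpow_le_one_of_one_le_of_nonpos _ (by linarith)
        have : (0:ℝ) ≤ (k : ℕ) := Nat.cast_nonneg _
        linarith
      have h4 : 0 < (n : ℝ) ^ β := Real.rpow_pos_of_pos hn0 _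
      nlinarith
    have h5 : (n : ℝ) ^ (-(1 - β)) * (n : ℝ) = (n : ℝ) ^ β := by
      rw [← Real.rpow_add_one hn0.ne']; congr 1; ring
    calc |f k| ≤ A * sx n k ^ (-β) := hf k
      _ ≤ A * (n : ℝ) ^ β := by gcongr
      _ ≤ A' * (n : ℝ) ^ β := by
          gcongr
          rw [hA']
          have : 0 < A / (1 - β) := by positivity
          linarith
      _ = A' * (n : ℝ) ^ (-(1 - β)) * n := by rw [mul_assoc, h5]
  have hsum : ∑ k, |c k| ≤ A' := by
    have h2 : ∑ k, |c k| ≤ A * ((∑ k ∈ Finset.range n, sx n k ^ (-β)) / n) := by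
      rw [← Fin.sum_univ_eq_sum_range (fun k : ℕ => sx n k ^ (-β)) n, Finset.sum_div,
        Finset.mul_sum]
      apply Finset.sum_le_sum
      intro k _
      rw [hc]; beta_reduce
      rw [abs_div, abs_of_pos hn0, ← mul_div_assoc]
      exact div_le_div_of_nonneg_right (hf k) hn0.le
    have h3 := riemann_upper hβ0 hβ1 hnpos n
    rw [div_self hn0.ne', Real.one_rpow] at h3
    calc ∑ k, |c k| ≤ A * (1 / (1 - β)) := h2.trans (mul_le_mul_of_nonneg_left h3 hA.le)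
      _ = A / (1 - β) := by ring
      _ ≤ A' := by rw [hA']; linarith
  have hmean' : ∑ k, c k ≤ -v := by
    simp only [hc, ← Finset.sum_div]; exact hmean
  have hBpos : 0 < A' * (n : ℝ) ^ (-(1 - β)) := by
    have := Real.rpow_pos_of_pos hn0 (-(1 - β)); positivity
  exact (unif_neg_mean hμ hσ hnpos c hBpos hv hB hsum hmean').trans
    (ENNReal.ofReal_le_ofReal (hn₀ n hn))

lemma one_le_sx_rpow {n : ℕ} {β : ℝ} (hβ : 0 ≤ β) (k : Fin n) : 1 ≤ sx n k ^ (-β) := by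
  have hn : 0 < n := k.pos
  exact Real.one_le_rpow_of_pos_of_le_one_of_nonpos (sx_pos hn _) (sx_le_one k.2) (by linarith)

/-- concentration of the moments from above -/
lemma mom_upper {β : ℝ} (hβ0 : 0 ≤ β) (hβ1 : β < 1) {ι η : ℝ} (hι : 0 < ι) (hη : 0 < η) :
    ∃ n₀ : ℕ, ∀ n ≥ n₀, 0 < n → ∀ (μ : Measure (Matrix (Fin n) (Fin n) ℂ)) (σ : Measure (Fin n → ℂ)),
      IsHaarU μ → IsUnif σ →
        σ {w | (1 / (1 - β) + ι) * nsq w < mom n β w} ≤ ENNReal.ofReal η := by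
  have h1b : 0 < 1 - β := by linarith
  set A : ℝ := 1 + (1 / (1 - β) + ι) with hA
  have hA0 : 0 < A := by positivity
  obtain ⟨n₀, hn₀⟩ := unif_neg_mean' hβ0 hβ1 hA0 hι hη
  refine ⟨n₀, fun n hn hnpos μ σ hμ hσ => ?_⟩
  have hn0 : (0:ℝ) < n := by exact_mod_cast hnpos
  have h := hn₀ n hn hnpos μ σ hμ hσ (fun k => sx n k ^ (-β) - (1 / (1 - β) + ι)) (by
    intro k
    have h2 := one_le_sx_rpow hβ0 k
    have h3 : 0 < 1 / (1 - β) + ι := by positivity
    rw [abs_le, hA]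
    constructor <;> nlinarith) (by
    rw [Finset.sum_sub_distrib, Fin.sum_univ_eq_sum_range (fun k : ℕ => sx n k ^ (-β)) n]
    simp only [Finset.sum_const, Finset.card_univ, Fintype.card_fin, nsmul_eq_mul]
    rw [sub_div, mul_div_cancel_left₀ _ hn0.ne']
    have h3 := riemann_upper hβ0 hβ1 hnpos n
    rw [div_self hn0.ne', Real.one_rpow] at h3
    linarith)
  refine le_trans (measure_mono ?_) h
  intro w hw
  have hw' : (1 / (1 - β) + ι) * nsq w < mom n β w := hw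
  show 0 < wsq _ w
  have : wsq (fun k : Fin n => sx n k ^ (-β) - (1 / (1 - β) + ι)) w
      = mom n β w - (1 / (1 - β) + ι) * nsq w := by
    rw [wsq, mom, nsq, Finset.mul_sum, ← Finset.sum_sub_distrib]
    apply Finset.sum_congr rfl; intro k _; ring
  rw [this]; linarith

/-- concentration of the moments from below -/
lemma mom_lower {β : ℝ} (hβ0 : 0 ≤ β) (hβ1 : β < 1) {ι η : ℝ} (hι : 0 < ι) (hη : 0 < η) :
    ∃ n₀ : ℕ, ∀ n ≥ n₀, 0 < n → ∀ (μ : Measure (Matrix (Fin n) (Fin n) ℂ)) (σ : Measure (Fin n → ℂ)),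
      IsHaarU μ → IsUnif σ →
        σ {w | mom n β w < (1 / (1 - β) - ι) * nsq w} ≤ ENNReal.ofReal η := by
  have h1b : 0 < 1 - β := by linarith
  set A : ℝ := 1 + (1 / (1 - β) + ι) with hA
  have hA0 : 0 < A := by positivity
  obtain ⟨n₀, hn₀⟩ := unif_neg_mean' hβ0 hβ1 hA0 (show 0 < ι / 2 by positivity) hη
  have hlim : Tendsto (fun n : ℕ => (n : ℝ) ^ (-(1 - β)) / (1 - β)) atTop (𝓝 (0 / (1 - β))) :=
    (tendsto_natCast_rpow_neg h1b).div_const _
  rw [zero_div] at hlim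
  obtain ⟨n₁, hn₁⟩ := eventually_atTop.mp (hlim.eventually_le_const (show 0 < ι / 2 by positivity))
  refine ⟨max n₀ n₁, fun n hn hnpos μ σ hμ hσ => ?_⟩
  have hn0 : (0:ℝ) < n := by exact_mod_cast hnpos
  have h := hn₀ n (le_of_max_le_left hn) hnpos μ σ hμ hσ (fun k => (1 / (1 - β) - ι) - sx n k ^ (-β)) (by
    intro k
    have h2 := one_le_sx_rpow hβ0 k
    have h3 : 0 < 1 / (1 - β) := by positivity
    rw [abs_le, hA]
    constructor <;> nlinarith) (by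
    rw [Finset.sum_sub_distrib, Fin.sum_univ_eq_sum_range (fun k : ℕ => sx n k ^ (-β)) n]
    simp only [Finset.sum_const, Finset.card_univ, Fintype.card_fin, nsmul_eq_mul]
    rw [sub_div, mul_div_cancel_left₀ _ hn0.ne']
    have h3 := riemann_lower hβ0 hβ1 hnpos
    have h4 := hn₁ n (le_of_max_le_right hn)
    rw [sub_div] at h3
    linarith)
  refine le_trans (measure_mono ?_) h
  intro w hw
  have hw' : mom n β w < (1 / (1 - β) - ι) * nsq w := hw
  show 0 < wsq _ w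
  have : wsq (fun k : Fin n => (1 / (1 - β) - ι) - sx n k ^ (-β)) w
      = (1 / (1 - β) - ι) * nsq w - mom n β w := by
    rw [wsq, mom, nsq, Finset.mul_sum, ← Finset.sum_sub_distrib]
    apply Finset.sum_congr rfl; intro k _; ring
  rw [this]; linarith

/-- concentration of truncated moments from above -/
lemma momK_upper {β : ℝ} (hβ0 : 0 ≤ β) (hβ1 : β < 1) {ι η δ : ℝ} (hι : 0 < ι) (hη : 0 < η)
    (hδι : δ ^ (1 - β) / (1 - β) ≤ ι / 2) :
    ∃ n₀ : ℕ, ∀ n ≥ n₀, 0 < n → ∀ (μ : Measure (Matrix (Fin n) (Fin n) ℂ)) (σ : Measure (Fin n → ℂ)),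
      IsHaarU μ → IsUnif σ → ∀ K : ℕ, (K : ℝ) ≤ δ * n → K ≤ n →
        σ {w | ι * nsq w < momK n β K w} ≤ ENNReal.ofReal η := by
  have h1b : 0 < 1 - β := by linarith
  set A : ℝ := 1 + ι with hA
  have hA0 : 0 < A := by positivity
  obtain ⟨n₀, hn₀⟩ := unif_neg_mean' hβ0 hβ1 hA0 (show 0 < ι / 2 by positivity) hη
  refine ⟨n₀, fun n hn hnpos μ σ hμ hσ K hK hKn => ?_⟩
  have hn0 : (0:ℝ) < n := by exact_mod_cast hnpos
  have h := hn₀ n hn hnpos μ σ hμ hσ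
    (fun k => (if (k : ℕ) < K then sx n k ^ (-β) else 0) - ι) (by
    intro k
    have h2 := one_le_sx_rpow hβ0 k
    beta_reduce
    rw [abs_le, hA]
    split_ifs <;> constructor <;> nlinarith) (by
    rw [Finset.sum_sub_distrib,
      Fin.sum_univ_eq_sum_range (fun k : ℕ => if k < K then sx n k ^ (-β) else 0) n]
    simp only [Finset.sum_const, Finset.card_univ, Fintype.card_fin, nsmul_eq_mul]
    rw [sub_div, mul_div_cancel_left₀ _ hn0.ne']
    have h2 : ∑ k ∈ Finset.range n, (if k < K then sx n k ^ (-β) else 0)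
        = ∑ k ∈ Finset.range K, sx n k ^ (-β) := by
      rw [← Finset.sum_filter]
      congr 1
      ext k
      simp only [Finset.mem_filter, Finset.mem_range]
      omega
    rw [h2]
    have h3 := riemann_upper hβ0 hβ1 hnpos K
    have h4 : ((K : ℝ) / n) ^ (1 - β) / (1 - β) ≤ δ ^ (1 - β) / (1 - β) := by
      gcongr
      rw [div_le_iff₀ hn0]; exact hK
    linarith)
  refine le_trans (measure_mono ?_) h
  intro w hw
  have hw' : ι * nsq w < momK n β K w := hw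
  show 0 < wsq _ w
  have : wsq (fun k : Fin n => (if (k : ℕ) < K then sx n k ^ (-β) else 0) - ι) w
      = momK n β K w - ι * nsq w := by
    rw [wsq, momK, nsq, Finset.mul_sum, ← Finset.sum_sub_distrib]
    apply Finset.sum_congr rfl; intro k _; ring
  rw [this]; linarith

end Pool.Agent.Hhelper29.CG
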