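import Pool.Agent.Hhelper29.CG.Defs
import Pool.Agent.Hhelper29.CG.Gauss

/-!
Haar unitary matrices, uniform unit vectors and the comparison with the Gaussian measure.
-/

namespace Pool.Agent.Hhelper29.CG

open MeasureTheory Matrix
open scoped ENNReal

variable {n : ℕ}

/-- a unitarily invariant probability measure on the unit sphere -/
structure IsUnif (σ : Measure (Fin n → ℂ)) : Prop where
  prob : IsProbabilityMeasure σ
  sphere : ∀ᵐ x ∂σ, nsq x = 1
  inv : ∀ V ∈ unitaryGroup (Fin n) ℂ, Measure.map (fun x => V *ᵥ x) σ = σ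

/-- a left invariant probability measure on the unitary group -/
structure IsHaarU (μ : Measure (Matrix (Fin n) (Fin n) ℂ)) : Prop where
  prob : IsProbabilityMeasure μ
  unitary : ∀ᵐ M ∂μ, M ∈ unitaryGroup (Fin n) ℂ
  inv : ∀ V ∈ unitaryGroup (Fin n) ℂ, Measure.map (fun M => V * M) μ = μ

lemma measurable_entry (i j : Fin n) :
    Measurable (fun M : Matrix (Fin n) (Fin n) ℂ => M i j) :=
  (measurable_pi_apply j).comp (measurable_pi_apply i)

lemma measurable_of_entries {α : Type*} [MeasurableSpace α] {f : α → Matrix (Fin n) (Fin n) ℂ}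
    (h : ∀ i j, Measurable fun a => f a i j) : Measurable f :=
  measurable_pi_lambda _ fun i => measurable_pi_lambda _ fun j => h i j

lemma measurable_mul_left (V : Matrix (Fin n) (Fin n) ℂ) :
    Measurable (fun M : Matrix (Fin n) (Fin n) ℂ => V * M) := by
  apply measurable_of_entries
  intro i j
  simp only [mul_apply]
  have := fun k => measurable_entry (n := n) k j
  fun_prop

lemma measurable_conjTranspose :
    Measurable (fun M : Matrix (Fin n) (Fin n) ℂ => Mᴴ) := by
  apply measurable_of_entries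
  intro i j
  simp only [conjTranspose_apply]
  exact Complex.continuous_conj.measurable.comp (measurable_entry j i)

lemma measurable_mulVec_pair :
    Measurable (fun q : Matrix (Fin n) (Fin n) ℂ × (Fin n → ℂ) => q.1 *ᵥ q.2) := by
  apply measurable_pi_lambda
  intro i
  simp only [mulVec, dotProduct]
  have h1 := fun k => (measurable_entry (n := n) i k).comp
    (measurable_fst : Measurable (fun q : Matrix (Fin n) (Fin n) ℂ × (Fin n → ℂ) => q.1))
  have h2 := fun k : Fin n => (measurable_pi_apply k).comp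
    (measurable_snd : Measurable (fun q : Matrix (Fin n) (Fin n) ℂ × (Fin n → ℂ) => q.2))
  apply Finset.measurable_sum
  intro k _
  exact (h1 k).mul (h2 k)

lemma measurable_adj_mulVec_pair :
    Measurable (fun q : Matrix (Fin n) (Fin n) ℂ × (Fin n → ℂ) => q.1ᴴ *ᵥ q.2) :=
  measurable_mulVec_pair.comp
    ((measurable_conjTranspose.comp measurable_fst).prodMk measurable_snd)

lemma measurable_swap_pair :
    Measurable (fun q : (Fin n → ℂ) × Matrix (Fin n) (Fin n) ℂ => (q.2, q.1)) := by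
  exact measurable_snd.prodMk measurable_fst

lemma measurable_adj_mulVec_pair' :
    Measurable (fun q : (Fin n → ℂ) × Matrix (Fin n) (Fin n) ℂ => q.2ᴴ *ᵥ q.1) := by
  have h := (measurable_adj_mulVec_pair (n := n)).comp (measurable_swap_pair (n := n))
  exact h

lemma measurable_mulVec_left (e : Fin n → ℂ) :
    Measurable (fun M : Matrix (Fin n) (Fin n) ℂ => M *ᵥ e) := by
  apply measurable_pi_lambda
  intro i
  simp only [mulVec, dotProduct]
  have h1 := fun k => measurable_entry (n := n) i k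
  apply Finset.measurable_sum
  intro k _
  exact (h1 k).mul measurable_const

lemma measurable_adj_mulVec_left (e : Fin n → ℂ) :
    Measurable (fun M : Matrix (Fin n) (Fin n) ℂ => Mᴴ *ᵥ e) :=
  (measurable_mulVec_left e).comp measurable_conjTranspose

lemma conjTranspose_mem_unitary {V : Matrix (Fin n) (Fin n) ℂ} (hV : V ∈ unitaryGroup (Fin n) ℂ) :
    Vᴴ ∈ unitaryGroup (Fin n) ℂ := by
  rw [← star_eq_conjTranspose]; exact Unitary.star_mem hV

/-- every unit vector is the image of a fixed basis vector under a unitary matrix -/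
lemma exists_unitary_map (i₀ : Fin n) (e : Fin n → ℂ) (he : nsq e = 1) :
    ∃ V ∈ unitaryGroup (Fin n) ℂ, V *ᵥ (Pi.single i₀ 1) = e := by
  classical
  set e' : EuclideanSpace ℂ (Fin n) := WithLp.toLp 2 e with he'
  have hnorm : ‖e'‖ = 1 := by
    rw [EuclideanSpace.norm_eq]
    have : ∑ i, ‖e'.ofLp i‖ ^ 2 = nsq e := rfl
    rw [this, he, Real.sqrt_one]
  have horth : Orthonormal ℂ (({i₀} : Set (Fin n)).domRestrict (fun _ => e')) := by
    constructor
    · intro i; exact hnorm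
    · intro i j hij
      exact absurd (Subsingleton.elim i j) hij
  obtain ⟨b, hb⟩ := horth.exists_orthonormalBasis_extension_of_card_eq
    (ι := Fin n) (by simp)
  set a : OrthonormalBasis (Fin n) ℂ (EuclideanSpace ℂ (Fin n)) := EuclideanSpace.basisFun (Fin n) ℂ
  refine ⟨a.toBasis.toMatrix b, a.toMatrix_orthonormalBasis_mem_unitary b, ?_⟩
  funext k
  rw [mulVec_single_one]
  have h1 : b i₀ = e' := hb i₀ (Set.mem_singleton i₀)
  simp only [col_apply, Module.Basis.toMatrix_apply, OrthonormalBasis.coe_toBasis_repr_apply]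
  rw [h1]
  simp [a, he']

lemma exists_unitary_map' (e e' : Fin n → ℂ) (he : nsq e = 1) (he' : nsq e' = 1) :
    ∃ V ∈ unitaryGroup (Fin n) ℂ, V *ᵥ e = e' := by
  have hn : 0 < n := by
    rcases Nat.eq_zero_or_pos n with h | h
    · subst h; simp [nsq] at he
    · exact h
  obtain ⟨V, hV, h1⟩ := exists_unitary_map ⟨0, hn⟩ e he
  obtain ⟨W, hW, h2⟩ := exists_unitary_map ⟨0, hn⟩ e' he'
  refine ⟨W * Vᴴ, mul_mem hW (conjTranspose_mem_unitary hV), ?_⟩
  have h3 : Vᴴ *ᵥ e = Pi.single ⟨0, hn⟩ 1 := by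
    rw [← h1, mulVec_mulVec]
    have : Vᴴ * V = 1 := mem_unitaryGroup_iff'.mp hV
    rw [this, one_mulVec]
  rw [← mulVec_mulVec, h3, h2]

section

variable {μ : Measure (Matrix (Fin n) (Fin n) ℂ)} {σ : Measure (Fin n → ℂ)}

lemma haar_const (hμ : IsHaarU μ) {f : (Fin n → ℂ) → ℝ≥0∞} (hf : Measurable f)
    (e e' : Fin n → ℂ) (he : nsq e = 1) (he' : nsq e' = 1) :
    ∫⁻ M, f (Mᴴ *ᵥ e) ∂μ = ∫⁻ M, f (Mᴴ *ᵥ e') ∂μ := by
  obtain ⟨V, hV, hVe⟩ := exists_unitary_map' e e' he he'
  have h1 := hμ.inv Vᴴ (conjTranspose_mem_unitary hV)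
  have hm : Measurable (fun M : Matrix (Fin n) (Fin n) ℂ => f (Mᴴ *ᵥ e)) :=
    hf.comp (measurable_adj_mulVec_left e)
  have h2 : ∫⁻ M, f (Mᴴ *ᵥ e) ∂(Measure.map (fun M => Vᴴ * M) μ)
      = ∫⁻ M, f ((Vᴴ * M)ᴴ *ᵥ e) ∂μ := lintegral_map hm (measurable_mul_left _)
  rw [h1] at h2
  rw [h2]
  apply lintegral_congr
  intro M
  rw [conjTranspose_mul, conjTranspose_conjTranspose, ← mulVec_mulVec, hVe]

/-- The law of `M^* e` for Haar `M` and any unit vector `e` is the uniform law. -/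
lemma haar_adj_eq (hμ : IsHaarU μ) (hσ : IsUnif σ) {f : (Fin n → ℂ) → ℝ≥0∞}
    (hf : Measurable f) (e : Fin n → ℂ) (he : nsq e = 1) :
    ∫⁻ M, f (Mᴴ *ᵥ e) ∂μ = ∫⁻ x, f x ∂σ := by
  have := hμ.prob
  have := hσ.prob
  have h1 : ∫⁻ x, ∫⁻ M, f (Mᴴ *ᵥ x) ∂μ ∂σ = ∫⁻ M, f (Mᴴ *ᵥ e) ∂μ := by
    have : ∫⁻ x, ∫⁻ M, f (Mᴴ *ᵥ x) ∂μ ∂σ = ∫⁻ _x, ∫⁻ M, f (Mᴴ *ᵥ e) ∂μ ∂σ := by
      apply lintegral_congr_ae
      filter_upwards [hσ.sphere] with x hx
      exact haar_const hμ hf x e hx he
    rw [this, lintegral_const, measure_univ, mul_one]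
  have hmeas : Measurable (fun q : (Fin n → ℂ) × Matrix (Fin n) (Fin n) ℂ => f (q.2ᴴ *ᵥ q.1)) :=
    hf.comp measurable_adj_mulVec_pair'
  rw [← h1, lintegral_lintegral_swap (f := fun x M => f (Mᴴ *ᵥ x)) hmeas.aemeasurable]
  have : ∫⁻ M, ∫⁻ x, f (Mᴴ *ᵥ x) ∂σ ∂μ = ∫⁻ _M, ∫⁻ x, f x ∂σ ∂μ := by
    apply lintegral_congr_ae
    filter_upwards [hμ.unitary] with M hM
    have h2 := hσ.inv Mᴴ (conjTranspose_mem_unitary hM)
    conv_rhs => rw [← h2]
    rw [lintegral_map hf (measurable_mulVec_const _)]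
  rw [this, lintegral_const, measure_univ, mul_one]

/-- polar decomposition of the Gaussian measure -/
theorem polar (hμ : IsHaarU μ) (hσ : IsUnif σ) {F : (Fin n → ℂ) → ℝ≥0∞} (hF : Measurable F) :
    ∫⁻ x, F x ∂(gam n) = ∫⁻ x, ∫⁻ u, F ((Real.sqrt (nsq x) : ℂ) • u) ∂σ ∂(gam n) := by
  have := hμ.prob
  have := hσ.prob
  have h1 : ∫⁻ M, ∫⁻ x, F (Mᴴ *ᵥ x) ∂(gam n) ∂μ = ∫⁻ x, F x ∂(gam n) := by
    have : ∫⁻ M, ∫⁻ x, F (Mᴴ *ᵥ x) ∂(gam n) ∂μ = ∫⁻ _M, ∫⁻ x, F x ∂(gam n) ∂μ := by
      apply lintegral_congr_ae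
      filter_upwards [hμ.unitary] with M hM
      have h2 := map_gam_unitary (conjTranspose_mem_unitary hM)
      conv_rhs => rw [← h2]
      rw [lintegral_map hF (measurable_mulVec_const _)]
    rw [this, lintegral_const, measure_univ, mul_one]
  have hmeas : Measurable (fun q : Matrix (Fin n) (Fin n) ℂ × (Fin n → ℂ) => F (q.1ᴴ *ᵥ q.2)) :=
    hF.comp measurable_adj_mulVec_pair
  rw [← h1, lintegral_lintegral_swap (f := fun M x => F (Mᴴ *ᵥ x)) hmeas.aemeasurable]
  apply lintegral_congr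
  intro x
  by_cases hx : nsq x = 0
  · have hx0 : x = 0 := by
      funext k
      have h3 : ∑ k, ‖x k‖ ^ 2 = 0 := hx
      rw [Finset.sum_eq_zero_iff_of_nonneg (fun _ _ => by positivity)] at h3
      have := h3 k (Finset.mem_univ k)
      simpa using this
    subst hx0
    simp [hx]
  · have hpos : 0 < nsq x := lt_of_le_of_ne (nsq_nonneg x) (Ne.symm hx)
    set r : ℝ := Real.sqrt (nsq x) with hr
    have hrpos : 0 < r := Real.sqrt_pos.mpr hpos
    set e : Fin n → ℂ := ((r⁻¹ : ℝ) : ℂ) • x with he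
    have hne : nsq e = 1 := by
      simp only [nsq, he, Pi.smul_apply, smul_eq_mul, norm_mul, mul_pow, Complex.norm_real,
        Real.norm_eq_abs, sq_abs]
      rw [← Finset.mul_sum]
      have : ∑ k, ‖x k‖ ^ 2 = r ^ 2 := by
        rw [hr, Real.sq_sqrt hpos.le]; rfl
      rw [this]; field_simp
    have hxe : x = (r : ℂ) • e := by
      rw [he, smul_smul, ← Complex.ofReal_mul, mul_inv_cancel₀ hrpos.ne']; simp
    have hf : Measurable (fun u : Fin n → ℂ => F ((r : ℂ) • u)) := by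
      apply hF.comp
      fun_prop
    have := haar_adj_eq hμ hσ hf e hne
    rw [← this]
    apply lintegral_congr
    intro M
    conv_lhs => rw [hxe]
    rw [mulVec_smul]

/-- scale invariant events have the same probability under the uniform and the Gaussian law -/
theorem cone_prob (hμ : IsHaarU μ) (hσ : IsUnif σ) {E : Set (Fin n → ℂ)} (hE : MeasurableSet E)
    (hcone : ∀ x, ∀ r : ℝ, 0 < r → ((r : ℂ) • x ∈ E ↔ x ∈ E)) (hn : 0 < n) :
    σ E = gam n E := by
  have := hσ.prob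
  have h := polar hμ hσ (F := E.indicator 1) (measurable_one.indicator hE)
  rw [lintegral_indicator_one hE] at h
  rw [h]
  have h2 : ∀ᵐ x ∂(gam n), ∫⁻ u, E.indicator 1 ((Real.sqrt (nsq x) : ℂ) • u) ∂σ = σ E := by
    have h0 : ∀ᵐ x ∂(gam n), nsq x ≠ 0 := by
      have hac : gam n ≪ volume := withDensity_absolutelyContinuous _ _
      have hsub : {x : Fin n → ℂ | ¬ nsq x ≠ 0} ⊆ {0} := by
        intro x hx
        simp only [ne_eq, not_not, Set.mem_ofPred_eq] at hx
        rw [Set.mem_singleton_iff]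
        funext k
        have h3 : ∑ k, ‖x k‖ ^ 2 = 0 := hx
        rw [Finset.sum_eq_zero_iff_of_nonneg (fun _ _ => by positivity)] at h3
        have := h3 k (Finset.mem_univ k)
        simpa using this
      have : Nonempty (Fin n) := ⟨⟨0, hn⟩⟩
      have h4 : ∀ᵐ x ∂(volume : Measure (Fin n → ℂ)), nsq x ≠ 0 := by
        rw [ae_iff]
        refine measure_mono_null hsub ?_
        exact measure_singleton 0
      exact hac.ae_le h4
    filter_upwards [h0] with x hx
    have hpos : 0 < nsq x := lt_of_le_of_ne (nsq_nonneg x) (Ne.symm hx)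
    have hr : 0 < Real.sqrt (nsq x) := Real.sqrt_pos.mpr hpos
    have : ∀ u, E.indicator (1 : (Fin n → ℂ) → ℝ≥0∞) ((Real.sqrt (nsq x) : ℂ) • u)
        = E.indicator 1 u := by
      intro u
      by_cases hu : u ∈ E
      · rw [Set.indicator_of_mem hu, Set.indicator_of_mem ((hcone u _ hr).mpr hu)]; rfl
      · rw [Set.indicator_of_notMem hu, Set.indicator_of_notMem (fun h => hu ((hcone u _ hr).mp h))]
    rw [lintegral_congr this, lintegral_indicator_one hE]
  rw [lintegral_congr_ae h2, lintegral_const, measure_univ, mul_one]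

end

end Pool.Agent.Hhelper29.CG
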