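import Pool.Agent.Hhelper29.CG.RcdOneB
import Pool.Agent.Hhelper29.CG.CgOneLower

/-!
Deviation bounds for differences of two quadratic forms of a uniform vector.
-/

namespace Pool.Agent.Hhelper29.CG

open MeasureTheory Matrix ProbabilityTheory
open scoped ENNReal Classical

variable {n : ℕ} {p : ℝ}

lemma nsq_cast (y : Fin n → ℂ) : ((nsq y : ℝ) : ℂ) = star y ⬝ᵥ y := by
  simp only [nsq, dotProduct, Pi.star_apply, Complex.ofReal_sum]
  apply Finset.sum_congr rfl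
  intro k _
  rw [← Complex.normSq_eq_norm_sq, Complex.normSq_eq_conj_mul_self]; rfl

lemma nsq_mulVec_cast (M : Matrix (Fin n) (Fin n) ℂ) (w : Fin n → ℂ) :
    ((nsq (M *ᵥ w) : ℝ) : ℂ) = star w ⬝ᵥ ((Mᴴ * M) *ᵥ w) := by
  rw [nsq_cast, star_mulVec, ← mulVec_mulVec, dotProduct_mulVec, dotProduct_mulVec, vecMul_vecMul,
    dotProduct_mulVec, vecMul_vecMul]

/-- simultaneous diagonalisation of the difference of two quadratic forms -/
lemma diag_forms (A B : Matrix (Fin n) (Fin n) ℂ) :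
    ∃ V ∈ unitaryGroup (Fin n) ℂ, ∃ μ : Fin n → ℝ, ∀ w : Fin n → ℂ,
      nsq (A *ᵥ w) - nsq (B *ᵥ w) = wsq μ (Vᴴ *ᵥ w) := by
  set H : Matrix (Fin n) (Fin n) ℂ := Aᴴ * A - Bᴴ * B with hH
  have hHerm : H.IsHermitian := by
    rw [hH]
    exact (isHermitian_conjTranspose_mul_self A).sub (isHermitian_conjTranspose_mul_self B)
  refine ⟨hHerm.eigenvectorUnitary, hHerm.eigenvectorUnitary.2, hHerm.eigenvalues, fun w => ?_⟩
  have hspec := hHerm.spectral_theorem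
  rw [Unitary.conjStarAlgAut_apply] at hspec
  set V : Matrix (Fin n) (Fin n) ℂ := (hHerm.eigenvectorUnitary : Matrix (Fin n) (Fin n) ℂ) with hV
  have h1 : ((nsq (A *ᵥ w) - nsq (B *ᵥ w) : ℝ) : ℂ) = star w ⬝ᵥ (H *ᵥ w) := by
    push_cast
    rw [nsq_mulVec_cast, nsq_mulVec_cast, hH, sub_mulVec, dotProduct_sub]
  have h2 : star w ⬝ᵥ (H *ᵥ w)
      = ((wsq hHerm.eigenvalues (Vᴴ *ᵥ w) : ℝ) : ℂ) := by
    conv_lhs => rw [hspec]
    rw [← mulVec_mulVec, ← mulVec_mulVec, dotProduct_mulVec]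
    have e1 : star w ᵥ* V = star (Vᴴ *ᵥ w) := by
      rw [star_mulVec, conjTranspose_conjTranspose]
    rw [e1]
    have e2 : (star V : Matrix (Fin n) (Fin n) ℂ) = Vᴴ := star_eq_conjTranspose V
    rw [e2]
    simp only [wsq, dotProduct, Complex.ofReal_sum]
    apply Finset.sum_congr rfl
    intro k _
    rw [mulVec_diagonal]
    simp only [Function.comp, Pi.star_apply]
    push_cast
    rw [← Complex.ofReal_pow, ← Complex.normSq_eq_norm_sq, Complex.normSq_eq_conj_mul_self]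
    simp only [RCLike.star_def]
    have : ((RCLike.ofReal (hHerm.eigenvalues k) : ℂ)) = ((hHerm.eigenvalues k : ℝ) : ℂ) := rfl
    rw [this]
    ring
  rw [h2] at h1
  exact_mod_cast h1

lemma sum_nsq_cols (M : Matrix (Fin n) (Fin n) ℂ) :
    ((∑ k, nsq (M *ᵥ Pi.single k 1) : ℝ) : ℂ) = (Mᴴ * M).trace := by
  rw [Complex.ofReal_sum, trace]
  apply Finset.sum_congr rfl
  intro k _
  rw [mulVec_single_one, nsq_cast]
  simp only [diag_apply, mul_apply, dotProduct, Pi.star_apply, col_apply, conjTranspose_apply]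

lemma sum_nsq_unitary (M : Matrix (Fin n) (Fin n) ℂ) {V : Matrix (Fin n) (Fin n) ℂ}
    (hV : V ∈ unitaryGroup (Fin n) ℂ) :
    ∑ k, nsq (M *ᵥ (V *ᵥ Pi.single k 1)) = ∑ k, nsq (M *ᵥ Pi.single k 1) := by
  have h1 : ((∑ k, nsq (M *ᵥ (V *ᵥ Pi.single k 1)) : ℝ) : ℂ)
      = ((∑ k, nsq (M *ᵥ Pi.single k 1) : ℝ) : ℂ) := by
    have e1 : ∀ k, M *ᵥ (V *ᵥ (Pi.single k 1 : Fin n → ℂ)) = (M * V) *ᵥ Pi.single k 1 := by
      intro k; rw [mulVec_mulVec]
    simp only [e1]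
    rw [sum_nsq_cols, sum_nsq_cols, conjTranspose_mul, Matrix.mul_assoc, trace_mul_comm,
      Matrix.mul_assoc, Matrix.mul_assoc]
    have h2 : V * Vᴴ = 1 := mem_unitaryGroup_iff.mp hV
    rw [h2, Matrix.mul_one]
  exact_mod_cast h1

/-- deviation bound -/
theorem quad_dev {μ' : Measure (Matrix (Fin n) (Fin n) ℂ)} {σ : Measure (Fin n → ℂ)}
    (hμ : IsHaarU μ') (hσ : IsUnif σ) (hn : 0 < n) (A B : Matrix (Fin n) (Fin n) ℂ)
    (hA : ∀ w, nsq (A *ᵥ w) ≤ nsq w) (hB : ∀ w, nsq (B *ᵥ w) ≤ nsq w) {v S : ℝ} (hv : 0 < v)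
    (hAB : ∑ k, nsq (A *ᵥ Pi.single k 1) + v ≤ ∑ k, nsq (B *ᵥ Pi.single k 1))
    (hS : ∑ k, nsq (A *ᵥ Pi.single k 1) + ∑ k, nsq (B *ᵥ Pi.single k 1) ≤ S) :
    σ {w | nsq (B *ᵥ w) ≤ nsq (A *ᵥ w)} ≤ ENNReal.ofReal (Real.exp (-(v ^ 2 / (8 * S)))) := by
  obtain ⟨V, hV, c, hc⟩ := diag_forms A B
  have hVs : Vᴴ * V = 1 := mem_unitaryGroup_iff'.mp hV
  have hck : ∀ k, c k = nsq (A *ᵥ (V *ᵥ Pi.single k 1)) - nsq (B *ᵥ (V *ᵥ Pi.single k 1)) := by
    intro k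
    rw [hc, mulVec_mulVec, hVs, one_mulVec, wsq, Finset.sum_eq_single k]
    · simp
    · intro j _ hj; simp [hj]
    · intro h; exact absurd (Finset.mem_univ k) h
  have hunit : ∀ k, nsq (V *ᵥ (Pi.single k 1 : Fin n → ℂ)) = 1 := by
    intro k; rw [nsq_mulVec hV]; exact nsq_single k
  have hcabs : ∀ k, |c k| ≤ 1 := by
    intro k
    rw [hck]
    have h1 := hA (V *ᵥ Pi.single k 1)
    have h2 := hB (V *ᵥ Pi.single k 1)
    rw [hunit] at h1 h2
    have h3 := nsq_nonneg (A *ᵥ (V *ᵥ Pi.single k 1))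
    have h4 := nsq_nonneg (B *ᵥ (V *ᵥ Pi.single k 1))
    rw [abs_le]; constructor <;> linarith
  have hcsum : ∑ k, c k ≤ -v := by
    simp only [hck]
    rw [Finset.sum_sub_distrib, sum_nsq_unitary A hV, sum_nsq_unitary B hV]
    linarith
  have hcabsum : ∑ k, |c k| ≤ S := by
    calc ∑ k, |c k| ≤ ∑ k, (nsq (A *ᵥ (V *ᵥ Pi.single k 1)) + nsq (B *ᵥ (V *ᵥ Pi.single k 1))) := by
          apply Finset.sum_le_sum
          intro k _
          rw [hck]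
          have h3 := nsq_nonneg (A *ᵥ (V *ᵥ Pi.single k 1))
          have h4 := nsq_nonneg (B *ᵥ (V *ᵥ Pi.single k 1))
          rw [abs_le]; constructor <;> linarith
      _ = ∑ k, nsq (A *ᵥ Pi.single k 1) + ∑ k, nsq (B *ᵥ Pi.single k 1) := by
          rw [Finset.sum_add_distrib, sum_nsq_unitary A hV, sum_nsq_unitary B hV]
      _ ≤ S := hS
  have hvS : v ≤ S := by
    have h1 : -∑ k, c k ≤ ∑ k, |c k| := by
      rw [← Finset.sum_neg_distrib]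
      exact Finset.sum_le_sum fun k _ => neg_le_abs (c k)
    linarith
  have hS0 : 0 < S := by linarith
  set θ : ℝ := v / (4 * S) with hθ
  have hθ0 : 0 < θ := by positivity
  have hθ1 : θ ≤ 1 / 2 := by
    rw [hθ, div_le_div_iff₀ (by positivity) (by norm_num)]; linarith
  have h1 := unif_cone_dev_le hμ hσ hn c hθ0.le (fun k => by
    have := mul_le_mul_of_nonneg_left (hcabs k) hθ0.le
    linarith)
  have hinv := hσ.inv Vᴴ (conjTranspose_mem_unitary hV)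
  have hm : MeasurableSet {w : Fin n → ℂ | 0 ≤ wsq c w} :=
    measurableSet_le measurable_const (measurable_wsq c)
  have hset : {w : Fin n → ℂ | nsq (B *ᵥ w) ≤ nsq (A *ᵥ w)}
      = (fun w => Vᴴ *ᵥ w) ⁻¹' {w | 0 ≤ wsq c w} := by
    ext w
    show nsq (B *ᵥ w) ≤ nsq (A *ᵥ w) ↔ 0 ≤ wsq c (Vᴴ *ᵥ w)
    rw [← hc, sub_nonneg]
  rw [hset, ← Measure.map_apply (measurable_mulVec_const _) hm, hinv]
  refine h1.trans (ENNReal.ofReal_le_ofReal (Real.exp_le_exp.mpr ?_))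
  have h2 : ∑ k, c k ^ 2 ≤ S := by
    calc ∑ k, c k ^ 2 ≤ ∑ k, |c k| := by
          apply Finset.sum_le_sum
          intro k _
          rw [← sq_abs]
          have := hcabs k
          have := abs_nonneg (c k)
          nlinarith
      _ ≤ S := hcabsum
  calc θ * (∑ k, c k) + 2 * θ ^ 2 * (∑ k, c k ^ 2) ≤ θ * (-v) + 2 * θ ^ 2 * S := by gcongr
    _ = -(v ^ 2 / (8 * S)) := by rw [hθ]; field_simp; ring

/-- the matrix of a family -/
def famM (Y : Fin n → (Fin n → ℂ)) : Matrix (Fin n) (Fin n) ℂ := fun k l => Y l k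

lemma famM_mulVec (Y : Fin n → (Fin n → ℂ)) (w : Fin n → ℂ) :
    famM Y *ᵥ w = ∑ l, w l • Y l := by
  funext k
  simp only [mulVec, dotProduct, famM, Finset.sum_apply, Pi.smul_apply, smul_eq_mul]
  apply Finset.sum_congr rfl; intro l _; ring

lemma famM_single (Y : Fin n → (Fin n → ℂ)) (k : Fin n) : famM Y *ᵥ Pi.single k 1 = Y k := by
  rw [mulVec_single_one]; rfl

lemma sum_famM (Y : Fin n → (Fin n → ℂ)) :
    ∑ k, nsq (famM Y *ᵥ Pi.single k 1) = trg (fun _ => 1) Y := by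
  simp only [famM_single, trg, nsq, one_mul]

lemma y0_famM (p : ℝ) (w : Fin n → ℂ) : famM (Y0 n p) *ᵥ w = y0 p w := by
  rw [famM_mulVec, y0_eq_sum]

lemma trg_one_Y0 : trg (fun _ => 1) (Y0 n p) = tau n p := by
  rw [trg_Y0]; simp [tau]

section path

variable {μ' : Measure (Matrix (Fin n) (Fin n) ℂ)} {σ : Measure (Fin n → ℂ)}

lemma scaled_facts (p : ℝ) (hp : 0 ≤ p) {ε : ℝ} (hε0 : 0 ≤ ε) (hε1 : ε ≤ 1) :
    (∀ w : Fin n → ℂ, nsq ((((Real.sqrt ε : ℝ) : ℂ) • famM (Y0 n p)) *ᵥ w) = ε * nsq (y0 p w)) ∧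
    (∀ w : Fin n → ℂ, nsq ((((Real.sqrt ε : ℝ) : ℂ) • famM (Y0 n p)) *ᵥ w) ≤ nsq w) ∧
    ∑ k, nsq ((((Real.sqrt ε : ℝ) : ℂ) • famM (Y0 n p)) *ᵥ (Pi.single k 1 : Fin n → ℂ)) = ε * tau n p := by
  have h1 : ∀ w : Fin n → ℂ, nsq ((((Real.sqrt ε : ℝ) : ℂ) • famM (Y0 n p)) *ᵥ w) = ε * nsq (y0 p w) := by
    intro w
    rw [smul_mulVec, nsq_smul_real, Real.sq_sqrt hε0, y0_famM]
  refine ⟨h1, ?_, ?_⟩
  · intro w
    rw [h1]
    have h2 : nsq (y0 p w) ≤ nsq w := by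
      rw [← y0_famM, famM_mulVec]
      exact nsq_comb_le (isContr_Y0 hp) w
    have h3 := nsq_nonneg (y0 p w)
    nlinarith
  · simp only [h1]
    rw [← Finset.mul_sum]
    congr 1
    have := sum_famM (Y0 n p)
    rw [trg_one_Y0] at this
    rw [← this]
    simp only [y0_famM]

lemma path_lower (hμ : IsHaarU μ') (hσ : IsUnif σ) (hn : 0 < n) (hp : 0 ≤ p) {ε c : ℝ} (hε0 : 0 ≤ ε)
    (hε1 : ε ≤ 1) (hc : 0 < c) {Y : Fin n → (Fin n → ℂ)} (hY : IsContr Y)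
    (h1 : (ε + c) * tau n p ≤ trg (fun _ => 1) Y) (h2 : trg (fun _ => 1) Y ≤ tau n p) :
    σ {w | nsq (∑ l, w l • Y l) ≤ ε * nsq (y0 p w)} ≤
      ENNReal.ofReal (Real.exp (-(c ^ 2 * tau n p / 16))) := by
  have hτ := tau_pos (n := n) p hn
  obtain ⟨e1, e2, e3⟩ := scaled_facts (n := n) p hp hε0 hε1
  have h := quad_dev hμ hσ hn (((Real.sqrt ε : ℝ) : ℂ) • famM (Y0 n p)) (famM Y) e2
    (fun w => by rw [famM_mulVec]; exact nsq_comb_le hY w) (v := c * tau n p) (S := 2 * tau n p)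
    (by positivity) (by rw [e3, sum_famM]; linarith) (by rw [e3, sum_famM]; nlinarith)
  simp only [e1, famM_mulVec] at h
  refine h.trans (ENNReal.ofReal_le_ofReal (Real.exp_le_exp.mpr (le_of_eq ?_)))
  field_simp; norm_num

lemma path_upper (hμ : IsHaarU μ') (hσ : IsUnif σ) (hn : 0 < n) (hp : 0 ≤ p) {ε c : ℝ} (hε0 : 0 ≤ ε)
    (hε1 : ε ≤ 1) (hc : 0 < c) {Y : Fin n → (Fin n → ℂ)} (hY : IsContr Y)
    (h1 : trg (fun _ => 1) Y ≤ (ε - c) * tau n p) :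
    σ {w | ε * nsq (y0 p w) < nsq (∑ l, w l • Y l)} ≤
      ENNReal.ofReal (Real.exp (-(c ^ 2 * tau n p / 16))) := by
  have hτ := tau_pos (n := n) p hn
  obtain ⟨e1, e2, e3⟩ := scaled_facts (n := n) p hp hε0 hε1
  have h := quad_dev hμ hσ hn (famM Y) (((Real.sqrt ε : ℝ) : ℂ) • famM (Y0 n p))
    (fun w => by rw [famM_mulVec]; exact nsq_comb_le hY w) e2 (v := c * tau n p) (S := 2 * tau n p)
    (by positivity) (by rw [e3, sum_famM]; linarith) (by rw [e3, sum_famM]; nlinarith)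
  simp only [e1, famM_mulVec] at h
  refine (measure_mono ?_).trans (h.trans
    (ENNReal.ofReal_le_ofReal (Real.exp_le_exp.mpr (le_of_eq ?_))))
  · intro w hw
    have hw' : ε * nsq (y0 p w) < nsq (∑ l, w l • Y l) := hw
    exact hw'.le
  · field_simp; norm_num

end path

end Pool.Agent.Hhelper29.CG
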