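import Pool.Agent.Hhelper29.CG.ModelLaw

/-!
Basic facts on randomized coordinate descent.
-/

namespace Pool.Agent.Hhelper29.CG

open MeasureTheory Matrix ProbabilityTheory
open scoped ENNReal Classical

variable {n : ℕ} {p : ℝ}

lemma cin_rowv (p : ℝ) (U : Matrix (Fin n) (Fin n) ℂ) (i : Fin n) (y : Fin n → ℂ) :
    cin (rowv p U i) y = (U *ᵥ (y0 p y)) i := by
  simp only [cin, rowv, mulVec, dotProduct, y0]
  apply Finset.sum_congr rfl
  intro k _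
  simp only [star_mul', RCLike.star_def, Complex.conj_ofReal, Complex.conj_conj]
  ring

lemma parseval_rows (p : ℝ) {U : Matrix (Fin n) (Fin n) ℂ} (hU : U ∈ unitaryGroup (Fin n) ℂ)
    (y : Fin n → ℂ) :
    ∑ i, ‖cin (rowv p U i) y‖ ^ 2 = ∑ k : Fin n, lam p k * ‖y k‖ ^ 2 := by
  rw [← nsq_y0, ← nsq_mulVec hU (y0 p y), nsq]
  simp only [cin_rowv]

lemma row_sum_one {U : Matrix (Fin n) (Fin n) ℂ} (hU : U ∈ unitaryGroup (Fin n) ℂ) (i : Fin n) :
    ∑ k, ‖U i k‖ ^ 2 = 1 := by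
  have h : U * Uᴴ = 1 := mem_unitaryGroup_iff.mp hU
  have h2 := congrFun (congrFun h i) i
  rw [mul_apply, one_apply_eq] at h2
  have h3 : ((∑ k, ‖U i k‖ ^ 2 : ℝ) : ℂ) = 1 := by
    rw [← h2]
    push_cast
    apply Finset.sum_congr rfl
    intro k _
    rw [conjTranspose_apply, ← Complex.ofReal_pow, ← Complex.normSq_eq_norm_sq,
      Complex.normSq_eq_conj_mul_self, mul_comm]
    rfl
  exact_mod_cast h3

lemma nsq_rowv (p : ℝ) (U : Matrix (Fin n) (Fin n) ℂ) (i : Fin n) :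
    nsq (rowv p U i) = ∑ k : Fin n, lam p k * ‖U i k‖ ^ 2 := by
  simp only [nsq, rowv]
  apply Finset.sum_congr rfl
  intro k _
  rw [norm_mul, mul_pow, Complex.norm_real, Real.norm_eq_abs, sq_abs,
    Real.sq_sqrt (lam_pos p k).le, norm_star]

lemma nsq_rowv_pos (p : ℝ) {U : Matrix (Fin n) (Fin n) ℂ} (hU : U ∈ unitaryGroup (Fin n) ℂ)
    (i : Fin n) : 0 < nsq (rowv p U i) := by
  rw [nsq_rowv]
  have h := row_sum_one hU i
  have h1 : ∃ k ∈ (Finset.univ : Finset (Fin n)), 0 < ‖U i k‖ ^ 2 := by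
    apply Finset.exists_lt_of_sum_lt
    rw [h]; simp
  obtain ⟨k, _, hk⟩ := h1
  exact Finset.sum_pos' (fun k _ => mul_nonneg (lam_pos p k).le (by positivity))
    ⟨k, Finset.mem_univ _, mul_pos (lam_pos p k) hk⟩

lemma pop_nsq (p : ℝ) (hn : 0 < n) {U : Matrix (Fin n) (Fin n) ℂ}
    (hU : U ∈ unitaryGroup (Fin n) ℂ) (y : Fin n → ℂ) :
    Pop (pwt p U) (stp p U) nsq y
      = nsq y - (∑ k : Fin n, lam p k * ‖y k‖ ^ 2) / tau n p := by
  have hτ := tau_pos p hn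
  have h1 : ∀ i, pwt p U i * nsq (stp p U i y)
      = pwt p U i * nsq y - ‖cin (rowv p U i) y‖ ^ 2 / tau n p := by
    intro i
    have ha := nsq_rowv_pos p hU i
    rw [stp, nsq_pr _ _ ha.ne', pwt]
    field_simp
  simp only [Pop]
  rw [Finset.sum_congr rfl (fun i _ => h1 i), Finset.sum_sub_distrib, ← Finset.sum_mul,
    sum_pwt p hn hU, one_mul, ← Finset.sum_div, parseval_rows p hU]

/-- the averaged step `(I - C) y` -/
noncomputable def avg (p : ℝ) (y : Fin n → ℂ) : Fin n → ℂ :=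
  fun k => ((1 - lam p k / tau n p : ℝ) : ℂ) * y k

lemma sum_pwt_stp (p : ℝ) (hn : 0 < n) {U : Matrix (Fin n) (Fin n) ℂ}
    (hU : U ∈ unitaryGroup (Fin n) ℂ) (y : Fin n → ℂ) (k : Fin n) :
    ∑ i, (pwt p U i : ℂ) * stp p U i y k = avg p y k := by
  have hτ := tau_pos p hn
  have hτc : (tau n p : ℂ) ≠ 0 := by exact_mod_cast hτ.ne'
  have h1 : ∀ i, (pwt p U i : ℂ) * stp p U i y k
      = (pwt p U i : ℂ) * y k - (U *ᵥ (y0 p y)) i * rowv p U i k / (tau n p : ℂ) := by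
    intro i
    have ha := nsq_rowv_pos p hU i
    have hac : (nsq (rowv p U i) : ℂ) ≠ 0 := by exact_mod_cast ha.ne'
    simp only [stp, pr, Pi.sub_apply, Pi.smul_apply, smul_eq_mul, pwt, cin_rowv]
    push_cast
    field_simp
  rw [Finset.sum_congr rfl (fun i _ => h1 i), Finset.sum_sub_distrib, ← Finset.sum_mul,
    ← Finset.sum_div]
  have h2 : ∑ i, (pwt p U i : ℂ) = 1 := by
    rw [← Complex.ofReal_sum, sum_pwt p hn hU, Complex.ofReal_one]
  have h3 : ∑ i, (U *ᵥ (y0 p y)) i * rowv p U i k = ((lam p k : ℝ) : ℂ) * y k := by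
    have h4 : ∑ i, (U *ᵥ (y0 p y)) i * rowv p U i k
        = (Real.sqrt (lam p k) : ℂ) * (Uᴴ *ᵥ (U *ᵥ (y0 p y))) k := by
      simp only [rowv]
      rw [show (Uᴴ *ᵥ (U *ᵥ (y0 p y))) k = ∑ i, Uᴴ k i * (U *ᵥ (y0 p y)) i from rfl,
        Finset.mul_sum]
      apply Finset.sum_congr rfl
      intro i _
      rw [conjTranspose_apply]; ring
    have h5 : Uᴴ * U = 1 := mem_unitaryGroup_iff'.mp hU
    rw [h4, mulVec_mulVec, h5, one_mulVec, y0, ← mul_assoc, ← Complex.ofReal_mul,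
      Real.mul_self_sqrt (lam_pos p k).le]
  rw [h2, h3, one_mul, avg]
  push_cast
  field_simp

/-- the smallest eigenvalue -/
lemma lam_ge (hp : 0 ≤ p) (k : Fin n) : (n : ℝ) ^ (-p) ≤ lam p k := by
  unfold lam
  apply Real.rpow_le_rpow_of_nonpos (by positivity) _ (by linarith)
  have := k.2
  exact_mod_cast this

lemma lam_le_one (hp : 0 ≤ p) (k : ℕ) : lam p k ≤ 1 := by
  unfold lam
  apply Real.rpow_le_one_of_one_le_of_nonpos _ (by linarith)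
  have : (0:ℝ) ≤ k := Nat.cast_nonneg k
  linarith

lemma lam_le_tau (p : ℝ) (k : Fin n) : lam p k ≤ tau n p :=
  Finset.single_le_sum (f := fun k : Fin n => lam p k) (fun k _ => (lam_pos p k).le)
    (Finset.mem_univ k)

lemma ex_nsq_le (hp : 0 ≤ p) (hn : 0 < n) {U : Matrix (Fin n) (Fin n) ℂ}
    (hU : U ∈ unitaryGroup (Fin n) ℂ) (t : ℕ) (y : Fin n → ℂ) :
    Ex (pwt p U) (stp p U) t nsq y ≤ (1 - (n : ℝ) ^ (-p) / tau n p) ^ t * nsq y := by
  have hτ := tau_pos p hn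
  have hc : 0 ≤ 1 - (n : ℝ) ^ (-p) / tau n p := by
    have h1 : (n : ℝ) ^ (-p) ≤ tau n p := (lam_ge hp ⟨0, hn⟩).trans (lam_le_tau p ⟨0, hn⟩)
    have : (n : ℝ) ^ (-p) / tau n p ≤ 1 := (div_le_one hτ).mpr h1
    linarith
  induction t generalizing y with
  | zero => simp
  | succ t ih =>
    rw [Ex_succ', Pop]
    have hstep : Pop (pwt p U) (stp p U) nsq y ≤ (1 - (n : ℝ) ^ (-p) / tau n p) * nsq y := by
      rw [pop_nsq p hn hU]
      have h2 : (n : ℝ) ^ (-p) * nsq y ≤ ∑ k : Fin n, lam p k * ‖y k‖ ^ 2 := by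
        rw [nsq, Finset.mul_sum]
        exact Finset.sum_le_sum fun k _ => mul_le_mul_of_nonneg_right (lam_ge hp k) (by positivity)
      have h3 : (n : ℝ) ^ (-p) * nsq y / tau n p ≤ (∑ k : Fin n, lam p k * ‖y k‖ ^ 2) / tau n p := by
        gcongr
      have h4 : (1 - (n : ℝ) ^ (-p) / tau n p) * nsq y
          = nsq y - (n : ℝ) ^ (-p) * nsq y / tau n p := by ring
      rw [h4]; linarith
    calc ∑ i, pwt p U i * Ex (pwt p U) (stp p U) t nsq (stp p U i y)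
        ≤ ∑ i, pwt p U i * ((1 - (n : ℝ) ^ (-p) / tau n p) ^ t * nsq (stp p U i y)) :=
          Finset.sum_le_sum fun i _ => mul_le_mul_of_nonneg_left (ih _) (pwt_nonneg p U i)
      _ = (1 - (n : ℝ) ^ (-p) / tau n p) ^ t * Pop (pwt p U) (stp p U) nsq y := by
          rw [Pop, Finset.mul_sum]; apply Finset.sum_congr rfl; intro i _; ring
      _ ≤ (1 - (n : ℝ) ^ (-p) / tau n p) ^ t * ((1 - (n : ℝ) ^ (-p) / tau n p) * nsq y) :=
          mul_le_mul_of_nonneg_left hstep (pow_nonneg hc t)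
      _ = _ := by rw [pow_succ]; ring

lemma nsq_runN_antitone (p : ℝ) (U : Matrix (Fin n) (Fin n) ℂ) (i : ℕ → Fin n)
    (y : Fin n → ℂ) : Antitone (fun t => nsq (runN (stp p U) i t y)) :=
  antitone_nat_of_succ_le fun t => by
    simp only [runN]
    exact nsq_pr_le _ _

section stopping

variable {Ω : Type*} [MeasurableSpace Ω] {P : Measure Ω}

lemma Model.trcd_cond (m : Model n p P) (ε : ℝ) (ω : Ω) (t : ℕ) :
    (aNormSq (matA p (m.U ω)) (rcd (matA p (m.U ω)) (matA p (m.U ω) *ᵥ m.z ω)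
        (fun t => m.idx t ω) t - (matA p (m.U ω))⁻¹ *ᵥ (matA p (m.U ω) *ᵥ m.z ω))
      ≤ ε * aNormSq (matA p (m.U ω)) (0 - (matA p (m.U ω))⁻¹ *ᵥ (matA p (m.U ω) *ᵥ m.z ω)))
    ↔ nsq (runN (stp p (m.U ω)) (fun s => m.idx s ω) t (y0 p ((m.U ω)ᴴ *ᵥ m.z ω)))
      ≤ ε * nsq (y0 p ((m.U ω)ᴴ *ᵥ m.z ω)) := by
  rw [aNormSq_rcd p (m.unitary ω), aNormSq_zero_sub p (m.unitary ω)]
  rfl

lemma Model.not_cond_of_lt_trcd (m : Model n p P) {ε : ℝ} {ω : Ω} {t : ℕ}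
    (h : (t : ℕ∞) < m.Trcd ε ω) :
    ε * nsq (y0 p ((m.U ω)ᴴ *ᵥ m.z ω))
      < nsq (runN (stp p (m.U ω)) (fun s => m.idx s ω) t (y0 p ((m.U ω)ᴴ *ᵥ m.z ω))) := by
  by_contra hc
  rw [not_lt, ← m.trcd_cond] at hc
  have : m.Trcd ε ω ≤ t := iInf₂_le t hc
  exact absurd h (not_lt.mpr this)

lemma Model.cond_of_trcd_le (m : Model n p P) {ε : ℝ} {ω : Ω} {t : ℕ}
    (h : m.Trcd ε ω ≤ t) :
    nsq (runN (stp p (m.U ω)) (fun s => m.idx s ω) t (y0 p ((m.U ω)ᴴ *ᵥ m.z ω)))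
      ≤ ε * nsq (y0 p ((m.U ω)ᴴ *ᵥ m.z ω)) := by
  by_contra hc
  have h1 : ((t + 1 : ℕ) : ℕ∞) ≤ m.Trcd ε ω := by
    unfold Model.Trcd TRCD
    refine le_iInf₂ fun s hs => ?_
    rw [m.trcd_cond] at hs
    by_contra hlt
    rw [not_le] at hlt
    have hst : s ≤ t := by
      have : s < t + 1 := by exact_mod_cast hlt
      omega
    have := nsq_runN_antitone p (m.U ω) (fun s => m.idx s ω) (y0 p ((m.U ω)ᴴ *ᵥ m.z ω)) hst
    exact hc (this.trans hs)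
  have h2 : ((t + 1 : ℕ) : ℕ∞) ≤ (t : ℕ∞) := h1.trans h
  have h3 : t + 1 ≤ t := by exact_mod_cast h2
  omega

end stopping

end Pool.Agent.Hhelper29.CG
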