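import Pool.Agent.Hhelper29.CG.Polar
import Pool.Agent.Hhelper29.CG.Chain

/-!
Deterministic reformulation of `A`, the `A`-norm and randomized coordinate descent in the
eigenbasis coordinates.
-/

namespace Pool.Agent.Hhelper29.CG

open MeasureTheory Matrix

variable {n : ℕ}

lemma lam_pos (p : ℝ) (k : ℕ) : 0 < lam p k := by
  unfold lam; positivity

/-- rows of `U Λ^{1/2}`, conjugated: `a_i(k) = √λ_k conj(U i k)` -/
noncomputable def rowv (p : ℝ) (U : Matrix (Fin n) (Fin n) ℂ) (i : Fin n) : Fin n → ℂ :=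
  fun k => (Real.sqrt (lam p k) : ℂ) * star (U i k)

/-- the inner product, conjugate linear in the first variable -/
noncomputable def cin (a y : Fin n → ℂ) : ℂ := ∑ k, star (a k) * y k

/-- projection of `y` to the orthogonal complement of `a` -/
noncomputable def pr (a y : Fin n → ℂ) : Fin n → ℂ := y - (cin a y / (nsq a : ℂ)) • a

/-- multiplication by `Λ^{1/2}` -/
noncomputable def y0 (p : ℝ) (w : Fin n → ℂ) : Fin n → ℂ :=
  fun k => (Real.sqrt (lam p k) : ℂ) * w k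

lemma cin_add (a x y : Fin n → ℂ) : cin a (x + y) = cin a x + cin a y := by
  simp [cin, mul_add, Finset.sum_add_distrib]

lemma cin_smul (a : Fin n → ℂ) (c : ℂ) (y : Fin n → ℂ) : cin a (c • y) = c * cin a y := by
  simp only [cin, Pi.smul_apply, smul_eq_mul, Finset.mul_sum]
  apply Finset.sum_congr rfl; intro k _; ring

lemma cin_sub (a x y : Fin n → ℂ) : cin a (x - y) = cin a x - cin a y := by
  simp [cin, mul_sub, Finset.sum_sub_distrib]

lemma cin_self (a : Fin n → ℂ) : cin a a = (nsq a : ℂ) := by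
  simp only [cin, nsq, Complex.ofReal_sum]
  apply Finset.sum_congr rfl
  intro k _
  rw [← Complex.normSq_eq_norm_sq, Complex.normSq_eq_conj_mul_self]; rfl

lemma cin_conj (a y : Fin n → ℂ) : star (cin a y) = cin y a := by
  simp only [cin, star_sum, star_mul', star_star]
  apply Finset.sum_congr rfl; intro k _; ring

lemma pr_add (a x y : Fin n → ℂ) : pr a (x + y) = pr a x + pr a y := by
  simp only [pr, cin_add, add_div, add_smul]; abel

lemma pr_smul (a : Fin n → ℂ) (c : ℂ) (y : Fin n → ℂ) : pr a (c • y) = c • pr a y := by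
  simp only [pr, cin_smul, smul_sub, smul_smul, mul_div_assoc]

lemma y0_add (p : ℝ) (x y : Fin n → ℂ) : y0 p (x + y) = y0 p x + y0 p y := by
  funext k; simp [y0, mul_add]

lemma y0_sub (p : ℝ) (x y : Fin n → ℂ) : y0 p (x - y) = y0 p x - y0 p y := by
  funext k; simp [y0, mul_sub]

lemma y0_smul (p : ℝ) (c : ℂ) (y : Fin n → ℂ) : y0 p (c • y) = c • y0 p y := by
  funext k; simp only [y0, Pi.smul_apply, smul_eq_mul]; ring

lemma nsq_y0 (p : ℝ) (w : Fin n → ℂ) : nsq (y0 p w) = ∑ k : Fin n, lam p k * ‖w k‖ ^ 2 := by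
  simp only [nsq, y0]
  apply Finset.sum_congr rfl
  intro k _
  rw [norm_mul, mul_pow, Complex.norm_real, Real.norm_eq_abs, sq_abs,
    Real.sq_sqrt (lam_pos p k).le]

lemma matA_mulVec (p : ℝ) (U : Matrix (Fin n) (Fin n) ℂ) (v : Fin n → ℂ) :
    matA p U *ᵥ v = U *ᵥ (fun k => ((lam p k : ℝ) : ℂ) * (Uᴴ *ᵥ v) k) := by
  rw [matA, ← mulVec_mulVec, ← mulVec_mulVec]
  congr 1
  funext k
  rw [mulVec_diagonal]

lemma aNormSq_eq (p : ℝ) (U : Matrix (Fin n) (Fin n) ℂ) (v : Fin n → ℂ) :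
    aNormSq (matA p U) v = nsq (y0 p (Uᴴ *ᵥ v)) := by
  rw [nsq_y0, aNormSq, matA_mulVec, dotProduct_mulVec]
  have h : star v ᵥ* U = star (Uᴴ *ᵥ v) := by
    rw [star_mulVec, conjTranspose_conjTranspose]
  rw [h]
  simp only [dotProduct, Complex.re_sum]
  apply Finset.sum_congr rfl
  intro k _
  have : star (Uᴴ *ᵥ v) k * (((lam p k : ℝ) : ℂ) * (Uᴴ *ᵥ v) k)
      = ((lam p k * ‖(Uᴴ *ᵥ v) k‖ ^ 2 : ℝ) : ℂ) := by
    rw [← Complex.normSq_eq_norm_sq]
    push_cast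
    rw [Complex.normSq_eq_conj_mul_self]
    simp only [Pi.star_apply, RCLike.star_def]
    ring
  rw [this, Complex.ofReal_re]

lemma matA_mulVec_apply (p : ℝ) (U : Matrix (Fin n) (Fin n) ℂ) (v : Fin n → ℂ) (i : Fin n) :
    (matA p U *ᵥ v) i = cin (rowv p U i) (y0 p (Uᴴ *ᵥ v)) := by
  rw [matA_mulVec]
  simp only [mulVec, dotProduct, cin, rowv, y0]
  apply Finset.sum_congr rfl
  intro k _
  have h : ((lam p k : ℝ) : ℂ) = (Real.sqrt (lam p k) : ℂ) * (Real.sqrt (lam p k) : ℂ) := by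
    rw [← Complex.ofReal_mul, Real.mul_self_sqrt (lam_pos p k).le]
  rw [h]
  simp only [star_mul', RCLike.star_def, Complex.conj_ofReal, Complex.conj_conj]
  ring

lemma matA_diag (p : ℝ) (U : Matrix (Fin n) (Fin n) ℂ) (i : Fin n) :
    matA p U i i = (nsq (rowv p U i) : ℂ) := by
  rw [← cin_self, matA, mul_apply]
  simp only [mul_diagonal, conjTranspose_apply, cin, rowv]
  apply Finset.sum_congr rfl
  intro k _
  have h : ((lam p k : ℝ) : ℂ) = (Real.sqrt (lam p k) : ℂ) * (Real.sqrt (lam p k) : ℂ) := by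
    rw [← Complex.ofReal_mul, Real.mul_self_sqrt (lam_pos p k).le]
  rw [h]
  simp only [star_mul', RCLike.star_def, Complex.conj_ofReal, Complex.conj_conj]
  ring

/-- `tr A = ∑ λ_k` -/
noncomputable def tau (n : ℕ) (p : ℝ) : ℝ := ∑ k : Fin n, lam p k

lemma matA_trace (p : ℝ) {U : Matrix (Fin n) (Fin n) ℂ} (hU : U ∈ unitaryGroup (Fin n) ℂ) :
    (matA p U).trace = (tau n p : ℂ) := by
  rw [matA, Matrix.mul_assoc, trace_mul_comm, Matrix.mul_assoc]
  have h : Uᴴ * U = 1 := mem_unitaryGroup_iff'.mp hU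
  rw [h, Matrix.mul_one, trace_diagonal, tau]
  push_cast; rfl

lemma sum_nsq_rowv (p : ℝ) {U : Matrix (Fin n) (Fin n) ℂ} (hU : U ∈ unitaryGroup (Fin n) ℂ) :
    ∑ i, nsq (rowv p U i) = tau n p := by
  have h := matA_trace p hU
  simp only [Matrix.trace, diag_apply, matA_diag] at h
  exact_mod_cast h

lemma matA_inv_mulVec (p : ℝ) {U : Matrix (Fin n) (Fin n) ℂ} (hU : U ∈ unitaryGroup (Fin n) ℂ)
    (z : Fin n → ℂ) : (matA p U)⁻¹ *ᵥ (matA p U *ᵥ z) = z := by
  have h1 : Uᴴ * U = 1 := mem_unitaryGroup_iff'.mp hU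
  have h2 : U * Uᴴ = 1 := mem_unitaryGroup_iff.mp hU
  have hB : (U * Matrix.diagonal (fun k : Fin n => ((lam p k : ℝ) : ℂ)⁻¹) * Uᴴ) * matA p U = 1 := by
    rw [matA]
    calc _ = U * (Matrix.diagonal (fun k : Fin n => ((lam p k : ℝ) : ℂ)⁻¹) * (Uᴴ * U) *
        Matrix.diagonal (fun k : Fin n => ((lam p k : ℝ) : ℂ))) * Uᴴ := by
          simp only [Matrix.mul_assoc]
      _ = U * (Matrix.diagonal (fun k : Fin n => ((lam p k : ℝ) : ℂ)⁻¹) *
        Matrix.diagonal (fun k : Fin n => ((lam p k : ℝ) : ℂ))) * Uᴴ := by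
          rw [h1, Matrix.mul_one]
      _ = 1 := by
          rw [diagonal_mul_diagonal]
          have : (fun k : Fin n => (((lam p k : ℝ) : ℂ))⁻¹ * ((lam p k : ℝ) : ℂ)) = fun _ => 1 := by
            funext k
            have : ((lam p k : ℝ) : ℂ) ≠ 0 := by exact_mod_cast (lam_pos p k).ne'
            exact inv_mul_cancel₀ this
          rw [this, diagonal_one, Matrix.mul_one, h2]
  rw [Matrix.inv_eq_left_inv hB, mulVec_mulVec, hB, one_mulVec]

/-- RCD in eigen-coordinates -/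
lemma rcd_eq_run (p : ℝ) {U : Matrix (Fin n) (Fin n) ℂ} (z : Fin n → ℂ)
    (i : ℕ → Fin n) (t : ℕ) :
    y0 p (Uᴴ *ᵥ (z - rcd (matA p U) (matA p U *ᵥ z) i t))
      = runN (fun i => pr (rowv p U i)) i t (y0 p (Uᴴ *ᵥ z)) := by
  induction t with
  | zero => simp [rcd, runN]
  | succ t ih =>
    rw [runN, ← ih, rcd]
    set x := rcd (matA p U) (matA p U *ᵥ z) i t with hx
    set a := rowv p U (i t) with ha
    have h1 : (matA p U *ᵥ z - matA p U *ᵥ x) (i t) = cin a (y0 p (Uᴴ *ᵥ (z - x))) := by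
      rw [← mulVec_sub, matA_mulVec_apply]
    rw [h1, matA_diag]
    set c := cin a (y0 p (Uᴴ *ᵥ (z - x))) / (nsq (rowv p U (i t)) : ℂ) with hc
    have h2 : y0 p (Uᴴ *ᵥ (Pi.single (i t) 1 : Fin n → ℂ)) = a := by
      funext k
      rw [mulVec_single_one]
      simp [y0, ha, rowv, conjTranspose_apply]
    have h3 : z - (x + c • (Pi.single (i t) 1 : Fin n → ℂ)) = (z - x) - c • Pi.single (i t) 1 := by
      abel
    rw [h3, mulVec_sub, y0_sub, mulVec_smul, y0_smul, h2, pr]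

lemma aNormSq_neg (A : Matrix (Fin n) (Fin n) ℂ) (v : Fin n → ℂ) :
    aNormSq A (-v) = aNormSq A v := by
  simp [aNormSq, mulVec_neg]

lemma aNormSq_rcd (p : ℝ) {U : Matrix (Fin n) (Fin n) ℂ} (hU : U ∈ unitaryGroup (Fin n) ℂ)
    (z : Fin n → ℂ) (i : ℕ → Fin n) (t : ℕ) :
    aNormSq (matA p U) (rcd (matA p U) (matA p U *ᵥ z) i t - (matA p U)⁻¹ *ᵥ (matA p U *ᵥ z))
      = nsq (runN (fun i => pr (rowv p U i)) i t (y0 p (Uᴴ *ᵥ z))) := by
  rw [matA_inv_mulVec p hU, ← neg_sub, aNormSq_neg, aNormSq_eq, rcd_eq_run]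

lemma aNormSq_zero_sub (p : ℝ) {U : Matrix (Fin n) (Fin n) ℂ} (hU : U ∈ unitaryGroup (Fin n) ℂ)
    (z : Fin n → ℂ) :
    aNormSq (matA p U) (0 - (matA p U)⁻¹ *ᵥ (matA p U *ᵥ z)) = nsq (y0 p (Uᴴ *ᵥ z)) := by
  rw [matA_inv_mulVec p hU, zero_sub, aNormSq_neg, aNormSq_eq]

lemma nsq_pr (a y : Fin n → ℂ) (ha : nsq a ≠ 0) :
    nsq (pr a y) = nsq y - ‖cin a y‖ ^ 2 / nsq a := by
  have hac : (nsq a : ℂ) ≠ 0 := by exact_mod_cast ha
  have h : ((nsq (pr a y) : ℝ) : ℂ) = ((nsq y - ‖cin a y‖ ^ 2 / nsq a : ℝ) : ℂ) := by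
    rw [← cin_self]
    have e1 : cin (pr a y) (pr a y) = cin (pr a y) y - (cin a y / (nsq a : ℂ)) * cin (pr a y) a := by
      conv_lhs => rw [show cin (pr a y) (pr a y) = cin (pr a y) (y - (cin a y / (nsq a : ℂ)) • a)
        from rfl]
      rw [cin_sub, cin_smul]
    have e2 : cin (pr a y) a = 0 := by
      rw [← cin_conj, pr, cin_sub, cin_smul, cin_self, div_mul_cancel₀ _ hac, sub_self, star_zero]
    have e3 : cin (pr a y) y = (nsq y : ℂ) - star (cin a y) / (nsq a : ℂ) * cin a y := by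
      rw [← cin_conj, pr, cin_sub, cin_smul, cin_self, star_sub, star_mul', star_div₀]
      simp only [RCLike.star_def, Complex.conj_ofReal]
      rw [← RCLike.star_def, cin_conj y a]
    rw [e1, e2, e3, mul_zero, sub_zero]
    push_cast
    have e4 : star (cin a y) * cin a y = ((‖cin a y‖ : ℂ)) ^ 2 := by
      rw [← Complex.ofReal_pow, ← Complex.normSq_eq_norm_sq, Complex.normSq_eq_conj_mul_self]; rfl
    rw [← e4]; ring
  exact_mod_cast h

lemma nsq_pr_le (a y : Fin n → ℂ) : nsq (pr a y) ≤ nsq y := by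
  by_cases ha : nsq a = 0
  · simp [pr, ha]
  · rw [nsq_pr a y ha]
    have : 0 ≤ ‖cin a y‖ ^ 2 / nsq a := div_nonneg (by positivity) (nsq_nonneg a)
    linarith

end Pool.Agent.Hhelper29.CG
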