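import Pool.Agent.Hhelper29.CG.GaussTail

/-!
Randomized coordinate descent for `p > 1`: the stopping time is tight.
-/

namespace Pool.Agent.Hhelper29.CG

open MeasureTheory Matrix ProbabilityTheory
open scoped ENNReal Classical

variable {n : ℕ} {p : ℝ}

/-- indicator of the high frequencies -/
noncomputable def gK (n K : ℕ) : Fin n → ℝ := fun k => if K ≤ (k : ℕ) then 1 else 0

lemma gK_nonneg (n K : ℕ) (k : Fin n) : 0 ≤ gK n K k := by unfold gK; split_ifs <;> norm_num

lemma gK_le_one (n K : ℕ) (k : Fin n) : gK n K k ≤ 1 := by unfold gK; split_ifs <;> norm_num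

/-- mass of the bad rows (not normalised) -/
noncomputable def badmass (p : ℝ) (U : Matrix (Fin n) (Fin n) ℂ) (K : ℕ) (η : ℝ) : ℝ :=
  ∑ i, if η < hrow p U (gK n K) i then nsq (rowv p U i) else 0

lemma badmass_nonneg (p : ℝ) (U : Matrix (Fin n) (Fin n) ℂ) (K : ℕ) (η : ℝ) :
    0 ≤ badmass p U K η :=
  Finset.sum_nonneg fun i _ => by split_ifs; exacts [nsq_nonneg _, le_refl _]

lemma hrow_le_one {U : Matrix (Fin n) (Fin n) ℂ} (hU : U ∈ unitaryGroup (Fin n) ℂ)
    {g : Fin n → ℝ} (hg : ∀ k, g k ≤ 1) (i : Fin n) : hrow p U g i ≤ 1 := by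
  rw [← hrow_one (p := p) hU i]
  exact hrow_mono p U hg i

lemma xk_nonneg (n : ℕ) (p : ℝ) (k : ℕ) : 0 ≤ xk n p k :=
  div_nonneg (lam_pos p k).le (tau_nonneg n p)

section quenched

variable {U : Matrix (Fin n) (Fin n) ℂ}

lemma high_step (hn : 0 < n) (hU : U ∈ unitaryGroup (Fin n) ℂ) (K : ℕ) {η : ℝ} (hη : 0 ≤ η)
    {Y : Fin n → (Fin n → ℂ)} (hY : IsContr Y) :
    Pop (pwt p U) (stF p U) (trg (gK n K)) Y
      ≤ trg (gK n K) Y + η * trg (fun k => xk n p k) Y + badmass p U K η / tau n p := by
  have hτ := tau_pos (n := n) p hn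
  rw [pop_trg hn hU]
  have h1 : trg (fun k => gK n K k * (1 - 2 * xk n p k)) Y ≤ trg (gK n K) Y := by
    apply trg_mono
    intro k
    have := gK_nonneg n K k
    have := xk_nonneg n p k
    nlinarith
  have h2 : ∑ i, sraw p U i Y * hrow p U (gK n K) i
      ≤ η * ∑ i, sraw p U i Y + badmass p U K η := by
    rw [Finset.mul_sum, badmass, ← Finset.sum_add_distrib]
    apply Finset.sum_le_sum
    intro i _
    have hs := sraw_nonneg p U i Y
    split_ifs with h
    · have h3 := hrow_le_one (p := p) hU (gK_le_one n K) i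
      have h4 := sraw_le (p := p) (U := U) hY i
      have h5 : sraw p U i Y * hrow p U (gK n K) i ≤ sraw p U i Y := mul_le_of_le_one_right hs h3
      have h6 : 0 ≤ η * sraw p U i Y := mul_nonneg hη hs
      linarith
    · have h3 : hrow p U (gK n K) i ≤ η := not_lt.mp h
      nlinarith
  have h3 : (1 / tau n p) * ∑ i, sraw p U i Y * hrow p U (gK n K) i
      ≤ η * trg (fun k => xk n p k) Y + badmass p U K η / tau n p := by
    rw [trg_xk_eq hU]
    calc (1 / tau n p) * ∑ i, sraw p U i Y * hrow p U (gK n K) i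
        ≤ (1 / tau n p) * (η * ∑ i, sraw p U i Y + badmass p U K η) := by gcongr
      _ = _ := by ring
  linarith

lemma high_bound (hp : 0 ≤ p) (hn : 0 < n) (hU : U ∈ unitaryGroup (Fin n) ℂ) (K : ℕ) {η : ℝ}
    (hη : 0 ≤ η) (t : ℕ) :
    Ex (pwt p U) (stF p U) t (trg (gK n K)) (Y0 n p)
      ≤ ∑ k : Fin n, gK n K k * lam p k
        + η * ∑ s ∈ Finset.range t, Ex (pwt p U) (stF p U) s (trg (fun k => xk n p k)) (Y0 n p)
        + t * (badmass p U K η / tau n p) := by
  induction t with
  | zero => simp [trg_Y0]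
  | succ t ih =>
    rw [Ex_succ, Finset.sum_range_succ]
    have h1 := Ex_mono_on (st := stF p U) (pwt_nonneg p U) (A := {Y | IsContr Y})
      (fun i Y hY => isContr_stF hY i)
      (f := Pop (pwt p U) (stF p U) (trg (gK n K)))
      (g := fun Y => (trg (gK n K) Y + η * trg (fun k => xk n p k) Y) + badmass p U K η / tau n p)
      (fun Y hY => high_step hn hU K hη hY) t (Y0 n p) (isContr_Y0 hp)
    rw [Ex_add t (fun Y => trg (gK n K) Y + η * trg (fun k => xk n p k) Y)
        (fun _ => badmass p U K η / tau n p),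
      Ex_add t (trg (gK n K)) (fun Y => η * trg (fun k => xk n p k) Y), Ex_smul,
      Ex_const (sum_pwt p hn hU)] at h1
    beta_reduce at h1
    refine h1.trans ?_
    push_cast
    have e1 : η * (∑ s ∈ Finset.range t, Ex (pwt p U) (stF p U) s (trg (fun k => xk n p k)) (Y0 n p)
          + Ex (pwt p U) (stF p U) t (trg (fun k => xk n p k)) (Y0 n p))
        = η * ∑ s ∈ Finset.range t, Ex (pwt p U) (stF p U) s (trg (fun k => xk n p k)) (Y0 n p)
          + η * Ex (pwt p U) (stF p U) t (trg (fun k => xk n p k)) (Y0 n p) := by ring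
    rw [e1]
    linarith

lemma ex_energy_antitone (hn : 0 < n) (hU : U ∈ unitaryGroup (Fin n) ℂ) :
    Antitone (fun t => Ex (pwt p U) (stF p U) t (trg (fun _ => 1)) (Y0 n p)) := by
  apply antitone_nat_of_succ_le
  intro t
  have h1 := sum_ex_diss_le (p := p) hn hU (t + 1)
  have h2 := sum_ex_diss_le (p := p) hn hU t
  rw [Finset.sum_range_succ, h2] at h1
  have h3 : 0 ≤ Ex (pwt p U) (stF p U) t (trg (fun k => xk n p k)) (Y0 n p) :=
    Ex_nonneg (pwt_nonneg p U) (fun Y => trg_nonneg (fun k => xk_nonneg n p k) Y) t _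
  linarith

theorem energy_bound (hp : 0 ≤ p) (hn : 0 < n) (hU : U ∈ unitaryGroup (Fin n) ℂ) {K : ℕ}
    (hK : 1 ≤ K) {η : ℝ} (hη : 0 ≤ η) {T : ℕ} (hT : 1 ≤ T) :
    Ex (pwt p U) (stF p U) T (trg (fun _ => 1)) (Y0 n p)
      ≤ (tau n p) ^ 2 * (K : ℝ) ^ p / T + ∑ k : Fin n, gK n K k * lam p k + η * tau n p
        + T * (badmass p U K η / tau n p) := by
  have hτ := tau_pos (n := n) p hn
  have hTpos : (0:ℝ) < T := by exact_mod_cast hT
  set a : ℕ → ℝ := fun t => Ex (pwt p U) (stF p U) t (trg (fun _ => 1)) (Y0 n p) with ha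
  set d : ℕ → ℝ := fun t => Ex (pwt p U) (stF p U) t (trg (fun k => xk n p k)) (Y0 n p) with hd
  have hd0 : ∀ t, 0 ≤ d t := fun t =>
    Ex_nonneg (pwt_nonneg p U) (fun Y => trg_nonneg (fun k => xk_nonneg n p k) Y) t _
  have hsum : ∀ t, ∑ s ∈ Finset.range t, d s ≤ tau n p := by
    intro t
    have h1 := sum_ex_diss_le (p := p) hn hU t
    have h2 : 0 ≤ Ex (pwt p U) (stF p U) t (trg (fun _ => 1)) (Y0 n p) :=
      Ex_nonneg (pwt_nonneg p U) (fun Y => trg_nonneg (fun _ => zero_le_one) Y) t _
    rw [hd]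
    linarith
  have hsplit : ∀ t, a t ≤ (K : ℝ) ^ p * tau n p * d t
      + Ex (pwt p U) (stF p U) t (trg (gK n K)) (Y0 n p) := by
    intro t
    have h1 := Ex_mono (st := stF p U) (pwt_nonneg p U) (f := trg (fun _ => 1))
      (g := fun Y => ((K : ℝ) ^ p * tau n p) * trg (fun k => xk n p k) Y + trg (gK n K) Y) (by
        intro Y
        rw [← trg_smul, ← trg_add]
        apply trg_mono
        intro k
        unfold gK
        split_ifs with h
        · have := xk_nonneg n p k
          have : 0 ≤ (K : ℝ) ^ p * tau n p * xk n p k := by positivity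
          linarith
        · have h2 : (K : ℝ) ^ (-p) ≤ lam p k := by
            unfold lam
            apply Real.rpow_le_rpow_of_nonpos (by positivity) _ (by linarith)
            have : (k : ℕ) < K := not_le.mp h
            exact_mod_cast this
          have hKpos : (0:ℝ) < K := by exact_mod_cast hK
          have h3 : (K : ℝ) ^ p * tau n p * xk n p k = (K : ℝ) ^ p * lam p k := by
            rw [xk]; field_simp
          rw [h3, add_zero]
          calc (1:ℝ) = (K : ℝ) ^ p * (K : ℝ) ^ (-p) := by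
                rw [← Real.rpow_add hKpos]; simp
            _ ≤ _ := by gcongr) t (Y0 n p)
    rw [Ex_add t (fun Y => ((K : ℝ) ^ p * tau n p) * trg (fun k => xk n p k) Y) (trg (gK n K)),
      Ex_smul] at h1
    exact h1
  have hTa : (T : ℝ) * a T ≤ ∑ t ∈ Finset.range T, a t := by
    calc (T : ℝ) * a T = ∑ _t ∈ Finset.range T, a T := by
          rw [Finset.sum_const, Finset.card_range, nsmul_eq_mul]
      _ ≤ _ := Finset.sum_le_sum fun t ht =>
          ex_energy_antitone hn hU (Finset.mem_range.mp ht).le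
  set R : ℝ := ∑ k : Fin n, gK n K k * lam p k + η * tau n p + T * (badmass p U K η / tau n p)
    with hR
  have hb0 := badmass_nonneg p U K η
  have hhigh : ∀ t ∈ Finset.range T, Ex (pwt p U) (stF p U) t (trg (gK n K)) (Y0 n p) ≤ R := by
    intro t ht
    have h1 := high_bound (p := p) hp hn hU K hη t
    have h2 : η * ∑ s ∈ Finset.range t, d s ≤ η * tau n p :=
      mul_le_mul_of_nonneg_left (hsum t) hη
    have h3 : (t : ℝ) * (badmass p U K η / tau n p) ≤ T * (badmass p U K η / tau n p) := by
      apply mul_le_mul_of_nonneg_right _ (by positivity)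
      exact_mod_cast (Finset.mem_range.mp ht).le
    rw [hR]
    linarith
  have hfin : (T : ℝ) * a T ≤ (K : ℝ) ^ p * tau n p * tau n p + T * R := by
    calc (T : ℝ) * a T ≤ ∑ t ∈ Finset.range T, a t := hTa
      _ ≤ ∑ t ∈ Finset.range T, ((K : ℝ) ^ p * tau n p * d t + R) :=
          Finset.sum_le_sum fun t ht => (hsplit t).trans (by linarith [hhigh t ht])
      _ = (K : ℝ) ^ p * tau n p * ∑ t ∈ Finset.range T, d t + T * R := by
          rw [Finset.sum_add_distrib, ← Finset.mul_sum, Finset.sum_const, Finset.card_range,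
            nsmul_eq_mul]
      _ ≤ _ := by
          have := hsum T
          gcongr
  have : a T ≤ (tau n p) ^ 2 * (K : ℝ) ^ p / T + R := by
    rw [← sub_nonneg]
    have h4 : (tau n p) ^ 2 * (K : ℝ) ^ p / T + R - a T
        = ((K : ℝ) ^ p * tau n p * tau n p + T * R - T * a T) / T := by field_simp
    rw [h4]
    exact div_nonneg (by linarith) hTpos.le
  rw [hR] at this
  linarith

end quenched

/-- the weights `λ` and `λ 1_{k ≥ K}` -/
noncomputable def lamF (n : ℕ) (p : ℝ) : Fin n → ℝ := fun k => lam p k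
noncomputable def lamK (n : ℕ) (p : ℝ) (K : ℕ) : Fin n → ℝ := fun k => gK n K k * lam p k

lemma nsq_y0_wsq (x : Fin n → ℂ) : nsq (y0 p x) = wsq (lamF n p) x := nsq_y0 p x

/-- bound of the Gaussian integral of `S 1_bad` -/
theorem gauss_bad (hp : 1 < p) (hn : 0 < n) {K : ℕ} (hK : 2 ≤ K) {η : ℝ} (hη : 0 < η) {κ : ℝ}
    (hκ : 0 < κ) (m : ℕ) (hm : m ≤ K) :
    ∫⁻ x, ENNReal.ofReal (wsq (lamF n p) x *
        if η * wsq (lamF n p) x < wsq (lamK n p K) x then 1 else 0) ∂(gam n)
      ≤ ENNReal.ofReal (2 / η * (K : ℝ) ^ (1 - p) * Real.exp (2 / (p - 1))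
          * Real.exp (-((K : ℝ) ^ (p - 1) * κ / 2))
        + (κ / η) * Real.exp 1 * ((κ / η) ^ m * ∏ k ∈ Finset.range m, ((k : ℝ) + 1) ^ p)) := by
  have hKpos : (0:ℝ) < K := by exact_mod_cast (by omega : 0 < K)
  have hp1 : 0 < p - 1 := by linarith
  set θ : ℝ := (K : ℝ) ^ (p - 1) with hθ
  have hθpos : 0 < θ := Real.rpow_pos_of_pos hKpos _
  have hlF : ∀ k, 0 ≤ lamF n p k := fun k => (lam_pos p k).le
  have hlK : ∀ k, 0 ≤ lamK n p K k := fun k => mul_nonneg (gK_nonneg n K k) (lam_pos p k).le
  by_cases hnK : n ≤ K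
  · -- no high frequencies
    have h0 : ∀ x : Fin n → ℂ, wsq (lamK n p K) x = 0 := by
      intro x
      unfold wsq lamK gK
      apply Finset.sum_eq_zero
      intro k _
      have := k.2
      rw [if_neg (by omega)]; ring
    have h1 : ∀ x : Fin n → ℂ, ENNReal.ofReal (wsq (lamF n p) x *
        if η * wsq (lamF n p) x < wsq (lamK n p K) x then 1 else 0) = 0 := by
      intro x
      rw [h0 x, if_neg (not_lt.mpr (mul_nonneg hη.le (wsq_nonneg hlF x))), mul_zero,
        ENNReal.ofReal_zero]
    rw [lintegral_congr h1, lintegral_zero]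
    exact zero_le
  · have hKn : K < n := not_le.mp hnK
    have hpt : ∀ x : Fin n → ℂ, wsq (lamF n p) x *
        (if η * wsq (lamF n p) x < wsq (lamK n p K) x then 1 else 0)
        ≤ (2 / (η * θ) * Real.exp (-(θ * κ / 2))) * Real.exp (wsq (fun k => θ * lamK n p K k) x)
          + ((κ / η) * Real.exp 1) * Real.exp (wsq (fun k => -(η / κ * lamF n p k)) x) := by
      intro x
      have e1 : wsq (fun k => θ * lamK n p K k) x = θ * wsq (lamK n p K) x := by
        simp only [wsq, Finset.mul_sum, mul_assoc]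
      have e2 : wsq (fun k => -(η / κ * lamF n p k)) x = -(η / κ * wsq (lamF n p) x) := by
        simp only [wsq, Finset.mul_sum, ← Finset.sum_neg_distrib]
        apply Finset.sum_congr rfl; intro k _; ring
      rw [e1, e2]
      set S := wsq (lamF n p) x with hS
      set SK := wsq (lamK n p K) x with hSK
      have hS0 : 0 ≤ S := wsq_nonneg hlF x
      have hSK0 : 0 ≤ SK := wsq_nonneg hlK x
      split_ifs with h
      · rw [mul_one]
        by_cases hc : κ ≤ SK
        · have h3 : S ≤ SK / η := by rw [le_div_iff₀ hη]; linarith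
          have h4 : SK ≤ 2 / θ * Real.exp (θ * SK / 2) := by
            have := Real.add_one_le_exp (θ * SK / 2)
            rw [div_mul_eq_mul_div, le_div_iff₀ hθpos]
            linarith
          have h5 : 1 ≤ Real.exp (θ * (SK - κ) / 2) := by
            apply Real.one_le_exp
            have : 0 ≤ SK - κ := by linarith
            positivity
          have h6 : S ≤ (2 / (η * θ) * Real.exp (-(θ * κ / 2))) * Real.exp (θ * SK) := by
            calc S ≤ SK / η := h3
              _ ≤ (2 / θ * Real.exp (θ * SK / 2)) / η := by gcongr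
              _ ≤ (2 / θ * Real.exp (θ * SK / 2)) / η * Real.exp (θ * (SK - κ) / 2) :=
                  le_mul_of_one_le_right (by positivity) h5
              _ = 2 / (η * θ) * (Real.exp (θ * SK / 2) * Real.exp (θ * (SK - κ) / 2)) := by
                  field_simp
              _ = 2 / (η * θ) * Real.exp (-(θ * κ / 2) + θ * SK) := by
                  rw [← Real.exp_add]; congr 2; ring
              _ = _ := by rw [Real.exp_add]; ring
          have h7 : 0 ≤ ((κ / η) * Real.exp 1) * Real.exp (-(η / κ * S)) := by positivity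
          linarith
        · have hc' : SK < κ := not_le.mp hc
          have h3 : S ≤ κ / η := by rw [le_div_iff₀ hη]; nlinarith
          have h4 : 1 ≤ Real.exp 1 * Real.exp (-(η / κ * S)) := by
            rw [← Real.exp_add]
            apply Real.one_le_exp
            have : η / κ * S ≤ 1 := by
              calc η / κ * S ≤ η / κ * (κ / η) := by gcongr
                _ = 1 := by field_simp
            linarith
          have h5 : S ≤ ((κ / η) * Real.exp 1) * Real.exp (-(η / κ * S)) := by
            calc S ≤ κ / η := h3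
              _ ≤ κ / η * (Real.exp 1 * Real.exp (-(η / κ * S))) :=
                  le_mul_of_one_le_right (by positivity) h4
              _ = _ := by ring
          have h6 : 0 ≤ (2 / (η * θ) * Real.exp (-(θ * κ / 2))) * Real.exp (θ * SK) := by positivity
          linarith
      · rw [mul_zero]; positivity
    have hm1 : Measurable (fun x : Fin n → ℂ =>
        ENNReal.ofReal (Real.exp (wsq (fun k => θ * lamK n p K k) x))) := by
      have := measurable_wsq (fun k : Fin n => θ * lamK n p K k); fun_prop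
    have hm2 : Measurable (fun x : Fin n → ℂ =>
        ENNReal.ofReal (Real.exp (wsq (fun k => -(η / κ * lamF n p k)) x))) := by
      have := measurable_wsq (fun k : Fin n => -(η / κ * lamF n p k)); fun_prop
    have hθc : ∀ k, θ * lamK n p K k ≤ 1 / 2 := by
      intro k
      unfold lamK gK
      split_ifs with h
      · rw [one_mul]
        have h1 : lam p k ≤ (K : ℝ) ^ (-p) := by
          unfold lam
          apply Real.rpow_le_rpow_of_nonpos hKpos _ (by linarith)
          have : (K : ℝ) ≤ (k : ℕ) := by exact_mod_cast h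
          linarith
        calc θ * lam p k ≤ θ * (K : ℝ) ^ (-p) := by gcongr
          _ = (K : ℝ) ^ (-1 : ℝ) := by
              rw [hθ, ← Real.rpow_add hKpos]; congr 1; ring
          _ = 1 / K := by rw [Real.rpow_neg_one, one_div]
          _ ≤ 1 / 2 := by
              apply one_div_le_one_div_of_le two_pos
              exact_mod_cast hK
      · simp
    have hsumK : ∑ k, lamK n p K k ≤ (K : ℝ) ^ (1 - p) / (p - 1) := by
      have h1 : ∑ k, lamK n p K k = ∑ k ∈ Finset.Ico K n, ((k : ℝ) + 1) ^ (-p) := by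
        unfold lamK gK lam
        rw [Fin.sum_univ_eq_sum_range (fun k : ℕ => (if K ≤ k then (1:ℝ) else 0) * ((k : ℝ) + 1) ^ (-p)) n]
        rw [Finset.range_eq_Ico, ← Finset.sum_Ico_consecutive _ (Nat.zero_le K) hKn.le]
        have h2 : ∑ k ∈ Finset.Ico 0 K, (if K ≤ k then (1:ℝ) else 0) * ((k : ℝ) + 1) ^ (-p) = 0 := by
          apply Finset.sum_eq_zero
          intro k hk
          rw [Finset.mem_Ico] at hk
          rw [if_neg (by omega), zero_mul]
        rw [h2, zero_add]
        apply Finset.sum_congr rfl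
        intro k hk
        rw [Finset.mem_Ico] at hk
        rw [if_pos hk.1, one_mul]
      rw [h1]
      exact sum_Ico_rpow_le hp (by omega) n
    have hI1 : ∫⁻ x, ENNReal.ofReal (Real.exp (wsq (fun k => θ * lamK n p K k) x)) ∂(gam n)
        ≤ ENNReal.ofReal (Real.exp (2 / (p - 1))) := by
      refine (lap_le _ (fun k => mul_nonneg hθpos.le (hlK k)) hθc).trans ?_
      apply ENNReal.ofReal_le_ofReal
      apply Real.exp_le_exp.mpr
      rw [← Finset.mul_sum]
      calc 2 * (θ * ∑ k, lamK n p K k) ≤ 2 * (θ * ((K : ℝ) ^ (1 - p) / (p - 1))) := by gcongr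
        _ = 2 * (θ * (K : ℝ) ^ (1 - p)) / (p - 1) := by ring
        _ = 2 / (p - 1) := by
            have : θ * (K : ℝ) ^ (1 - p) = 1 := by
              rw [hθ, ← Real.rpow_add hKpos]; simp
            rw [this, mul_one]
    have hI2 : ∫⁻ x, ENNReal.ofReal (Real.exp (wsq (fun k => -(η / κ * lamF n p k)) x)) ∂(gam n)
        ≤ ENNReal.ofReal ((κ / η) ^ m * ∏ k ∈ Finset.range m, ((k : ℝ) + 1) ^ p) := by
      rw [lap_wsq _ (fun k => by
        have : 0 ≤ η / κ * lamF n p k := mul_nonneg (by positivity) (hlF k)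
        linarith)]
      apply ENNReal.ofReal_le_ofReal
      -- restrict the product to k < m
      have e1 : ∏ k : Fin n, (1 - -(η / κ * lamF n p k))⁻¹
          = ∏ k ∈ Finset.range n, (1 + η / κ * ((k : ℝ) + 1) ^ (-p))⁻¹ := by
        rw [← Fin.prod_univ_eq_prod_range (fun k : ℕ => (1 + η / κ * ((k : ℝ) + 1) ^ (-p))⁻¹) n]
        apply Finset.prod_congr rfl
        intro k _
        unfold lamF lam
        rw [sub_neg_eq_add]
      have hmn : m ≤ n := by omega
      rw [e1, Finset.range_eq_Ico, ← Finset.prod_Ico_consecutive _ (Nat.zero_le m) hmn,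
        ← Finset.range_eq_Ico]
      have h1 : ∏ k ∈ Finset.Ico m n, (1 + η / κ * ((k : ℝ) + 1) ^ (-p))⁻¹ ≤ 1 := by
        apply Finset.prod_le_one
        · intro k _; positivity
        · intro k _
          apply inv_le_one_of_one_le₀
          have : 0 ≤ η / κ * ((k : ℝ) + 1) ^ (-p) := by positivity
          linarith
      have h2 : ∏ k ∈ Finset.range m, (1 + η / κ * ((k : ℝ) + 1) ^ (-p))⁻¹
          ≤ (κ / η) ^ m * ∏ k ∈ Finset.range m, ((k : ℝ) + 1) ^ p := by
        have e2 : (κ / η) ^ m * ∏ k ∈ Finset.range m, ((k : ℝ) + 1) ^ p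
            = ∏ k ∈ Finset.range m, (κ / η * ((k : ℝ) + 1) ^ p) := by
          rw [Finset.prod_mul_distrib, Finset.prod_const, Finset.card_range]
        rw [e2]
        apply Finset.prod_le_prod
        · intro k _; positivity
        · intro k _
          have hk : (0:ℝ) < (k : ℝ) + 1 := by positivity
          have h3 : κ / η * ((k : ℝ) + 1) ^ p = (η / κ * ((k : ℝ) + 1) ^ (-p))⁻¹ := by
            rw [Real.rpow_neg hk.le]
            field_simp
          rw [h3]
          apply inv_anti₀ (by positivity)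
          linarith
      calc (∏ k ∈ Finset.range m, (1 + η / κ * ((k : ℝ) + 1) ^ (-p))⁻¹)
            * ∏ k ∈ Finset.Ico m n, (1 + η / κ * ((k : ℝ) + 1) ^ (-p))⁻¹
          ≤ (∏ k ∈ Finset.range m, (1 + η / κ * ((k : ℝ) + 1) ^ (-p))⁻¹) * 1 := by
            apply mul_le_mul_of_nonneg_left h1
            exact Finset.prod_nonneg fun k _ => by positivity
        _ ≤ _ := by rw [mul_one]; exact h2
    calc ∫⁻ x, ENNReal.ofReal (wsq (lamF n p) x *
        if η * wsq (lamF n p) x < wsq (lamK n p K) x then 1 else 0) ∂(gam n)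
        ≤ ∫⁻ x, (ENNReal.ofReal (2 / (η * θ) * Real.exp (-(θ * κ / 2)))
              * ENNReal.ofReal (Real.exp (wsq (fun k => θ * lamK n p K k) x))
            + ENNReal.ofReal ((κ / η) * Real.exp 1)
              * ENNReal.ofReal (Real.exp (wsq (fun k => -(η / κ * lamF n p k)) x))) ∂(gam n) := by
          apply lintegral_mono
          intro x
          beta_reduce
          rw [← ENNReal.ofReal_mul (by positivity), ← ENNReal.ofReal_mul (by positivity),
            ← ENNReal.ofReal_add (by positivity) (by positivity)]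
          exact ENNReal.ofReal_le_ofReal (hpt x)
      _ = ENNReal.ofReal (2 / (η * θ) * Real.exp (-(θ * κ / 2)))
              * ∫⁻ x, ENNReal.ofReal (Real.exp (wsq (fun k => θ * lamK n p K k) x)) ∂(gam n)
            + ENNReal.ofReal ((κ / η) * Real.exp 1)
              * ∫⁻ x, ENNReal.ofReal (Real.exp (wsq (fun k => -(η / κ * lamF n p k)) x)) ∂(gam n) := by
          rw [lintegral_add_left (hm1.const_mul _), lintegral_const_mul _ hm1,
            lintegral_const_mul _ hm2]
      _ ≤ ENNReal.ofReal (2 / (η * θ) * Real.exp (-(θ * κ / 2)))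
              * ENNReal.ofReal (Real.exp (2 / (p - 1)))
            + ENNReal.ofReal ((κ / η) * Real.exp 1)
              * ENNReal.ofReal ((κ / η) ^ m * ∏ k ∈ Finset.range m, ((k : ℝ) + 1) ^ p) := by
          gcongr
      _ = _ := by
          rw [← ENNReal.ofReal_mul (by positivity), ← ENNReal.ofReal_mul (by positivity),
            ← ENNReal.ofReal_add (by positivity) (by positivity)]
          congr 2
          have : (K : ℝ) ^ (1 - p) = θ⁻¹ := by
            rw [hθ, ← Real.rpow_neg hKpos.le]; congr 1; ring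
          rw [this]
          field_simp

/-- expected mass of the bad rows -/
theorem haar_badmass {μ : Measure (Matrix (Fin n) (Fin n) ℂ)} {σ : Measure (Fin n → ℂ)}
    (hμ : IsHaarU μ) (hσ : IsUnif σ) (hn : 0 < n) (K : ℕ) (η : ℝ) :
    ∫⁻ U, ENNReal.ofReal (badmass p U K η) ∂μ
      ≤ 16 * ∫⁻ x, ENNReal.ofReal (wsq (lamF n p) x *
        if η * wsq (lamF n p) x < wsq (lamK n p K) x then 1 else 0) ∂(gam n) := by
  set F : (Fin n → ℂ) → ℝ≥0∞ := fun x => ENNReal.ofReal (wsq (lamF n p) x *
        if η * wsq (lamF n p) x < wsq (lamK n p K) x then 1 else 0) with hF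
  have hm1 := measurable_wsq (lamF n p)
  have hm2 := measurable_wsq (lamK n p K)
  have hFm : Measurable F := by
    apply Measurable.ennreal_ofReal
    apply hm1.mul
    exact Measurable.ite (measurableSet_lt (hm1.const_mul η) hm2) measurable_const measurable_const
  have hlF : ∀ k, 0 ≤ lamF n p k := fun k => (lam_pos p k).le
  have hhom : ∀ x, ∀ r : ℝ, 0 ≤ r → F ((r : ℂ) • x) = ENNReal.ofReal (r ^ 2) * F x := by
    intro x r hr
    simp only [hF]
    rw [← ENNReal.ofReal_mul (by positivity), wsq_smul, wsq_smul]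
    congr 1
    rcases eq_or_lt_of_le hr with h0 | h0
    · rw [← h0]; simp
    · have : (η * (r ^ 2 * wsq (lamF n p) x) < r ^ 2 * wsq (lamK n p K) x)
          ↔ (η * wsq (lamF n p) x < wsq (lamK n p K) x) := by
        constructor
        · intro h
          have h1 : r ^ 2 * (η * wsq (lamF n p) x) < r ^ 2 * wsq (lamK n p K) x := by linarith
          exact lt_of_mul_lt_mul_left h1 (by positivity)
        · intro h
          have h1 : r ^ 2 * (η * wsq (lamF n p) x) < r ^ 2 * wsq (lamK n p K) x :=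
            mul_lt_mul_of_pos_left h (by positivity)
          linarith
      simp only [this]
      ring
  have hrow_eq : ∀ U ∈ unitaryGroup (Fin n) ℂ, ∀ i : Fin n,
      ENNReal.ofReal (if η < hrow p U (gK n K) i then nsq (rowv p U i) else 0)
        = F (Uᴴ *ᵥ Pi.single i 1) := by
    intro U hU i
    simp only [hF]
    congr 1
    have hpos := nsq_rowv_pos p hU i
    have e1 : wsq (lamF n p) (Uᴴ *ᵥ Pi.single i 1) = nsq (rowv p U i) := by
      rw [rowv_eq, nsq_y0_wsq]
    have e2 : wsq (lamK n p K) (Uᴴ *ᵥ Pi.single i 1) = ∑ k, gK n K k * ‖rowv p U i k‖ ^ 2 := by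
      rw [rowv_eq]
      simp only [wsq, lamK, y0, norm_mul, mul_pow, Complex.norm_real, Real.norm_eq_abs, sq_abs]
      apply Finset.sum_congr rfl
      intro k _
      rw [Real.sq_sqrt (lam_pos p k).le]; ring
    rw [e1, e2]
    have e3 : (η < hrow p U (gK n K) i) ↔ (η * nsq (rowv p U i) < ∑ k, gK n K k * ‖rowv p U i k‖ ^ 2) := by
      rw [hrow, lt_div_iff₀ hpos]
    simp only [e3]
    split_ifs <;> ring
  have h1 : ∫⁻ U, ENNReal.ofReal (badmass p U K η) ∂μ
      = ∑ i : Fin n, ∫⁻ U, F (Uᴴ *ᵥ Pi.single i 1) ∂μ := by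
    have hmi : ∀ i ∈ (Finset.univ : Finset (Fin n)),
        Measurable (fun U : Matrix (Fin n) (Fin n) ℂ => F (Uᴴ *ᵥ Pi.single i 1)) :=
      fun i _ => hFm.comp (measurable_adj_mulVec_left _)
    rw [← lintegral_finsetSum _ hmi]
    apply lintegral_congr_ae
    filter_upwards [hμ.unitary] with U hU
    rw [badmass, ENNReal.ofReal_sum_of_nonneg]
    · exact Finset.sum_congr rfl fun i _ => hrow_eq U hU i
    · intro i _
      split_ifs
      exacts [nsq_nonneg _, le_refl _]
  have h2 : ∀ i : Fin n, ∫⁻ U, F (Uᴴ *ᵥ Pi.single i 1) ∂μ = ∫⁻ x, F x ∂σ := fun i =>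
    haar_adj_eq hμ hσ hFm _ (nsq_single i)
  rw [h1, Finset.sum_congr rfl (fun i _ => h2 i), Finset.sum_const, Finset.card_univ,
    Fintype.card_fin, nsmul_eq_mul]
  exact unif_hom_le hμ hσ hn hFm hhom

lemma one_le_tau (p : ℝ) (hn : 0 < n) : 1 ≤ tau n p := by
  have h := lam_le_tau (n := n) p ⟨0, hn⟩
  have : lam p ((⟨0, hn⟩ : Fin n) : ℕ) = 1 := by simp [lam]
  rwa [this] at h

lemma tau_le_gt_one (hp : 1 < p) (n : ℕ) : tau n p ≤ p / (p - 1) := by
  rw [tau_eq_range]; exact sum_range_rpow_le hp n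

section final

variable {Ω : Type*} [MeasurableSpace Ω] {P : Measure Ω}

/-- probability that RCD needs more than `T` steps in terms of the mean energy -/
theorem Model.prob_lt_trcd_le' (m : Model n p P) {ε κ : ℝ} (hε : 0 < ε) (hκ : 0 < κ)
    (T : ℕ) {B : ℝ≥0∞}
    (hB : ∫⁻ M, ENNReal.ofReal (Ex (pwt p M) (stF p M) T (trg (fun _ => 1)) (Y0 n p))
      ∂(Measure.map m.U P) ≤ B) :
    P {ω | (T : ℕ∞) < m.Trcd ε ω}
      ≤ ENNReal.ofReal (8 * Real.exp 1 * κ) + ENNReal.ofReal (1 / (ε * κ)) * B := by
  have hn := m.n_pos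
  have hn' : (0:ℝ) < n := by exact_mod_cast hn
  have hU := m.haarU
  have hz := m.unif
  have := hU.prob
  have := hz.prob
  refine (m.prob_lt_trcd_le ε T).trans ?_
  have h1 : ∀ M ∈ unitaryGroup (Fin n) ℂ, ∫⁻ w, ENNReal.ofReal (Ex (pwt p M) (stp p M) T
          (fun y => if (y0 p w, y) ∈ {q : (Fin n → ℂ) × (Fin n → ℂ) | ε * nsq q.1 < nsq q.2}
            then 1 else 0) (y0 p w)) ∂(Measure.map m.z P)
      ≤ ENNReal.ofReal (8 * Real.exp 1 * κ) + ENNReal.ofReal (1 / (ε * κ)) *
        ENNReal.ofReal (Ex (pwt p M) (stF p M) T (trg (fun _ => 1)) (Y0 n p)) := by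
    intro M hM
    set Eb : Set (Fin n → ℂ) := {w | ‖w ⟨0, hn⟩‖ ^ 2 < κ / n} with hEb
    have hEm : MeasurableSet Eb := measurableSet_lt (by fun_prop) measurable_const
    have hpt : ∀ w, ENNReal.ofReal (Ex (pwt p M) (stp p M) T
          (fun y => if (y0 p w, y) ∈ {q : (Fin n → ℂ) × (Fin n → ℂ) | ε * nsq q.1 < nsq q.2}
            then 1 else 0) (y0 p w))
        ≤ Eb.indicator 1 w + ENNReal.ofReal (n / (ε * κ)) *
          ENNReal.ofReal (Ex (pwt p M) (stp p M) T nsq (y0 p w)) := by
      intro w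
      by_cases hw : w ∈ Eb
      · rw [Set.indicator_of_mem hw]
        have h2 := Ex_mono (st := stp p M) (pwt_nonneg p M)
          (f := fun y => if (y0 p w, y) ∈ {q : (Fin n → ℂ) × (Fin n → ℂ) | ε * nsq q.1 < nsq q.2}
            then (1:ℝ) else 0) (g := fun _ => 1) (fun y => by split_ifs <;> norm_num) T (y0 p w)
        rw [Ex_const (sum_pwt p hn hM)] at h2
        calc _ ≤ ENNReal.ofReal 1 := ENNReal.ofReal_le_ofReal h2
          _ = 1 := ENNReal.ofReal_one
          _ ≤ _ := le_self_add
      · rw [Set.indicator_of_notMem hw, zero_add, ← ENNReal.ofReal_mul (by positivity)]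
        apply ENNReal.ofReal_le_ofReal
        have hw' : κ / n ≤ ‖w ⟨0, hn⟩‖ ^ 2 := not_lt.mp hw
        have hge : κ / n ≤ nsq (y0 p w) := by
          refine hw'.trans ?_
          rw [nsq_y0]
          have := Finset.single_le_sum (f := fun k : Fin n => lam p k * ‖w k‖ ^ 2)
            (fun k _ => mul_nonneg (lam_pos p k).le (by positivity)) (Finset.mem_univ ⟨0, hn⟩)
          refine le_trans (le_of_eq ?_) this
          simp [lam]
        have h2 := Ex_mono (st := stp p M) (pwt_nonneg p M)
          (f := fun y => if (y0 p w, y) ∈ {q : (Fin n → ℂ) × (Fin n → ℂ) | ε * nsq q.1 < nsq q.2}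
            then (1:ℝ) else 0) (g := fun y => n / (ε * κ) * nsq y) (by
              intro y
              split_ifs with h
              · have h' : ε * nsq (y0 p w) < nsq y := h
                rw [div_mul_eq_mul_div, le_div_iff₀ (by positivity), one_mul]
                have : ε * (κ / n) ≤ ε * nsq (y0 p w) := by gcongr
                have h3 : ε * (κ / n) ≤ nsq y := by linarith
                calc ε * κ = (ε * (κ / n)) * n := by field_simp
                  _ ≤ nsq y * n := by gcongr
                  _ = n * nsq y := mul_comm _ _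
              · exact mul_nonneg (by positivity) (nsq_nonneg y)) T (y0 p w)
        rw [Ex_smul] at h2
        exact h2
    have hEx := unif_ex_nsq hz p M T
    calc _ ≤ ∫⁻ w, (Eb.indicator 1 w + ENNReal.ofReal (n / (ε * κ)) *
          ENNReal.ofReal (Ex (pwt p M) (stp p M) T nsq (y0 p w))) ∂(Measure.map m.z P) :=
          lintegral_mono hpt
      _ = Measure.map m.z P Eb + ENNReal.ofReal (n / (ε * κ)) *
          ∫⁻ w, ENNReal.ofReal (Ex (pwt p M) (stp p M) T nsq (y0 p w)) ∂(Measure.map m.z P) := by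
          rw [lintegral_add_left (measurable_one.indicator hEm), lintegral_indicator_one hEm,
            lintegral_const_mul']
          exact ENNReal.ofReal_ne_top
      _ ≤ ENNReal.ofReal (8 * Real.exp 1 * κ) + ENNReal.ofReal (1 / (ε * κ)) *
        ENNReal.ofReal (Ex (pwt p M) (stF p M) T (trg (fun _ => 1)) (Y0 n p)) := by
          rw [hEx]
          apply add_le_add (small_ball hU hz hn hκ)
          rw [← ENNReal.ofReal_mul (by positivity), ← ENNReal.ofReal_mul (by positivity)]
          apply le_of_eq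
          congr 1
          field_simp
  calc _ ≤ ∫⁻ M, (ENNReal.ofReal (8 * Real.exp 1 * κ) + ENNReal.ofReal (1 / (ε * κ)) *
        ENNReal.ofReal (Ex (pwt p M) (stF p M) T (trg (fun _ => 1)) (Y0 n p))) ∂(Measure.map m.U P) := by
        apply lintegral_mono_ae
        filter_upwards [hU.unitary] with M hM
        exact h1 M hM
    _ = ENNReal.ofReal (8 * Real.exp 1 * κ) + ENNReal.ofReal (1 / (ε * κ)) *
        ∫⁻ M, ENNReal.ofReal (Ex (pwt p M) (stF p M) T (trg (fun _ => 1)) (Y0 n p))
          ∂(Measure.map m.U P) := by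
        rw [lintegral_add_left measurable_const, lintegral_const, measure_univ, mul_one,
          lintegral_const_mul']
        exact ENNReal.ofReal_ne_top
    _ ≤ _ := by gcongr

/-- mean energy bound for `p > 1`, explicit -/
theorem Model.mean_energy_gt (m : Model n p P) (hp : 1 < p) {K : ℕ} (hK : 2 ≤ K) {η κ : ℝ}
    (hη : 0 < η) (hκ : 0 < κ) (k₀ : ℕ) (hk₀ : k₀ ≤ K) {T : ℕ} (hT : 1 ≤ T) :
    ∫⁻ M, ENNReal.ofReal (Ex (pwt p M) (stF p M) T (trg (fun _ => 1)) (Y0 n p))
      ∂(Measure.map m.U P) ≤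
    ENNReal.ofReal ((p / (p - 1)) ^ 2 * (K : ℝ) ^ p / T + (K : ℝ) ^ (1 - p) / (p - 1)
      + η * (p / (p - 1)) + T * (16 * (2 / η * (K : ℝ) ^ (1 - p) * Real.exp (2 / (p - 1))
          * Real.exp (-((K : ℝ) ^ (p - 1) * κ / 2))
        + (κ / η) * Real.exp 1 * ((κ / η) ^ k₀ * ∏ k ∈ Finset.range k₀, ((k : ℝ) + 1) ^ p)))) := by
  have hn := m.n_pos
  have hU := m.haarU
  have hz := m.unif
  have := hU.prob
  have hτ := tau_pos (n := n) p hn
  have hτ1 := one_le_tau (n := n) p hn
  have hτ2 := tau_le_gt_one hp n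
  have hKpos : (0:ℝ) < K := by exact_mod_cast (by omega : 0 < K)
  have hTpos : (0:ℝ) < T := by exact_mod_cast hT
  have hp1 : 0 < p - 1 := by linarith
  set Q : ℝ := 2 / η * (K : ℝ) ^ (1 - p) * Real.exp (2 / (p - 1))
          * Real.exp (-((K : ℝ) ^ (p - 1) * κ / 2))
        + (κ / η) * Real.exp 1 * ((κ / η) ^ k₀ * ∏ k ∈ Finset.range k₀, ((k : ℝ) + 1) ^ p) with hQ
  have hQ0 : 0 ≤ Q := by
    rw [hQ]
    have : 0 ≤ ∏ k ∈ Finset.range k₀, ((k : ℝ) + 1) ^ p := Finset.prod_nonneg fun k _ => by positivity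
    positivity
  set D : ℝ := (p / (p - 1)) ^ 2 * (K : ℝ) ^ p / T + (K : ℝ) ^ (1 - p) / (p - 1)
      + η * (p / (p - 1)) with hD
  have hD0 : 0 ≤ D := by rw [hD]; positivity
  have hpt : ∀ M ∈ unitaryGroup (Fin n) ℂ,
      ENNReal.ofReal (Ex (pwt p M) (stF p M) T (trg (fun _ => 1)) (Y0 n p))
      ≤ ENNReal.ofReal D + ENNReal.ofReal T * ENNReal.ofReal (badmass p M K η) := by
    intro M hM
    have hb := badmass_nonneg p M K η
    rw [← ENNReal.ofReal_mul hTpos.le, ← ENNReal.ofReal_add hD0 (by positivity)]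
    apply ENNReal.ofReal_le_ofReal
    refine (energy_bound (K := K) (by linarith) hn hM (by omega) hη.le hT).trans ?_
    have h1 : (tau n p) ^ 2 * (K : ℝ) ^ p / T ≤ (p / (p - 1)) ^ 2 * (K : ℝ) ^ p / T := by
      gcongr
    have h2 : ∑ k : Fin n, gK n K k * lam p k ≤ (K : ℝ) ^ (1 - p) / (p - 1) := by
      by_cases hnK : n ≤ K
      · have : ∑ k : Fin n, gK n K k * lam p k = 0 := by
          apply Finset.sum_eq_zero
          intro k _
          unfold gK
          have := k.2
          rw [if_neg (by omega), zero_mul]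
        rw [this]; positivity
      · have hKn : K < n := not_le.mp hnK
        have h1 : ∑ k : Fin n, gK n K k * lam p k = ∑ k ∈ Finset.Ico K n, ((k : ℝ) + 1) ^ (-p) := by
          unfold gK lam
          rw [Fin.sum_univ_eq_sum_range (fun k : ℕ => (if K ≤ k then (1:ℝ) else 0) * ((k : ℝ) + 1) ^ (-p)) n]
          rw [Finset.range_eq_Ico, ← Finset.sum_Ico_consecutive _ (Nat.zero_le K) hKn.le]
          have h2 : ∑ k ∈ Finset.Ico 0 K, (if K ≤ k then (1:ℝ) else 0) * ((k : ℝ) + 1) ^ (-p) = 0 := by
            apply Finset.sum_eq_zero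
            intro k hk
            rw [Finset.mem_Ico] at hk
            rw [if_neg (by omega), zero_mul]
          rw [h2, zero_add]
          apply Finset.sum_congr rfl
          intro k hk
          rw [Finset.mem_Ico] at hk
          rw [if_pos hk.1, one_mul]
        rw [h1]
        exact sum_Ico_rpow_le hp (by omega) n
    have h3 : η * tau n p ≤ η * (p / (p - 1)) := by gcongr
    have h4 : (T : ℝ) * (badmass p M K η / tau n p) ≤ T * badmass p M K η := by
      apply mul_le_mul_of_nonneg_left _ hTpos.le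
      exact div_le_self hb hτ1
    rw [hD]; linarith
  have hbad := (haar_badmass (p := p) hU hz hn K η).trans
    (mul_le_mul_right (gauss_bad hp hn hK hη hκ k₀ hk₀) 16)
  calc _ ≤ ∫⁻ M, (ENNReal.ofReal D + ENNReal.ofReal T * ENNReal.ofReal (badmass p M K η))
          ∂(Measure.map m.U P) := by
        apply lintegral_mono_ae
        filter_upwards [hU.unitary] with M hM
        exact hpt M hM
    _ = ENNReal.ofReal D + ENNReal.ofReal T *
          ∫⁻ M, ENNReal.ofReal (badmass p M K η) ∂(Measure.map m.U P) := by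
        rw [lintegral_add_left measurable_const, lintegral_const, measure_univ, mul_one,
          lintegral_const_mul']
        exact ENNReal.ofReal_ne_top
    _ ≤ ENNReal.ofReal D + ENNReal.ofReal T * (16 * ENNReal.ofReal Q) := by
        gcongr
    _ = ENNReal.ofReal (D + T * (16 * Q)) := by
        rw [show (16 : ℝ≥0∞) = ENNReal.ofReal 16 by simp, ← ENNReal.ofReal_mul (by norm_num),
          ← ENNReal.ofReal_mul hTpos.le, ← ENNReal.ofReal_add hD0 (by positivity)]

end final

end Pool.Agent.Hhelper29.CG
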