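import Pool.Agent.Hhelper29.CG.UnifCoord

/-!
Randomized coordinate descent for `0 < p < 1`: the stopping time is of exact order `n`.
-/

namespace Pool.Agent.Hhelper29.CG

open MeasureTheory Matrix ProbabilityTheory
open scoped ENNReal Classical

variable {n : ℕ} {p : ℝ}

lemma nsq_y0_ge (hp : 0 ≤ p) (w : Fin n → ℂ) : (n : ℝ) ^ (-p) * nsq w ≤ nsq (y0 p w) := by
  rw [nsq_y0, nsq, Finset.mul_sum]
  exact Finset.sum_le_sum fun k _ => mul_le_mul_of_nonneg_right (lam_ge hp k) (by positivity)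

lemma nsq_y0_pos {w : Fin n → ℂ} (hw : nsq w = 1) : 0 < nsq (y0 p w) := by
  rw [nsq_y0]
  have h1 : ∃ k ∈ (Finset.univ : Finset (Fin n)), 0 < ‖w k‖ ^ 2 := by
    apply Finset.exists_lt_of_sum_lt
    have : ∑ k, ‖w k‖ ^ 2 = 1 := hw
    rw [this]; simp
  obtain ⟨k, _, hk⟩ := h1
  exact Finset.sum_pos' (fun k _ => mul_nonneg (lam_pos p k).le (by positivity))
    ⟨k, Finset.mem_univ _, mul_pos (lam_pos p k) hk⟩

section det

variable {U : Matrix (Fin n) (Fin n) ℂ}

/-- Markov bound for the error after `t` steps -/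
lemma ex_indicator_gt_le (hn : 0 < n) {ε : ℝ} (hε : 0 < ε) (t : ℕ) {w : Fin n → ℂ} (hw : nsq w = 1) :
    Ex (pwt p U) (stp p U) t
        (fun y => if (y0 p w, y) ∈ {q : (Fin n → ℂ) × (Fin n → ℂ) | ε * nsq q.1 < nsq q.2}
          then 1 else 0) (y0 p w)
      ≤ Ex (pwt p U) (stp p U) t nsq (y0 p w) / (ε * nsq (y0 p w)) := by
  have hpos : 0 < nsq (y0 p w) := nsq_y0_pos hw
  have h := Ex_mono (st := stp p U) (pwt_nonneg p U)
    (f := fun y => if (y0 p w, y) ∈ {q : (Fin n → ℂ) × (Fin n → ℂ) | ε * nsq q.1 < nsq q.2}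
          then (1:ℝ) else 0)
    (g := fun y => (1 / (ε * nsq (y0 p w))) * nsq y) (by
      intro y
      split_ifs with h
      · have h' : ε * nsq (y0 p w) < nsq y := h
        rw [one_div, inv_mul_eq_div, le_div_iff₀ (by positivity)]; linarith
      · exact mul_nonneg (by positivity) (nsq_nonneg y)) t (y0 p w)
  rw [Ex_smul] at h
  refine h.trans (le_of_eq ?_)
  beta_reduce
  rw [one_div, inv_mul_eq_div]

lemma jensen_nsq (hn : 0 < n) (hU : U ∈ unitaryGroup (Fin n) ℂ) (y : Fin n → ℂ)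
    (c : Fin n → ℝ) (hc : ∀ k, 0 ≤ c k) :
    ∑ k, c k * ‖avg p y k‖ ^ 2 ≤ ∑ i, pwt p U i * ∑ k, c k * ‖stp p U i y k‖ ^ 2 := by
  have h1 : ∀ k, ‖avg p y k‖ ^ 2 ≤ ∑ i, pwt p U i * ‖stp p U i y k‖ ^ 2 := by
    intro k
    rw [← sum_pwt_stp p hn hU y k]
    have h2 : ‖∑ i, (pwt p U i : ℂ) * stp p U i y k‖ ≤ ∑ i, pwt p U i * ‖stp p U i y k‖ := by
      refine (norm_sum_le _ _).trans (le_of_eq ?_)
      apply Finset.sum_congr rfl
      intro i _
      rw [norm_mul, Complex.norm_real, Real.norm_of_nonneg (pwt_nonneg p U i)]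
    have h3 : (∑ i, pwt p U i * ‖stp p U i y k‖) ^ 2 ≤ ∑ i, pwt p U i * ‖stp p U i y k‖ ^ 2 := by
      have h4 := Finset.sum_mul_sq_le_sq_mul_sq Finset.univ (fun i => Real.sqrt (pwt p U i))
        (fun i => Real.sqrt (pwt p U i) * ‖stp p U i y k‖)
      have e1 : ∀ i, Real.sqrt (pwt p U i) * (Real.sqrt (pwt p U i) * ‖stp p U i y k‖)
          = pwt p U i * ‖stp p U i y k‖ := by
        intro i; rw [← mul_assoc, Real.mul_self_sqrt (pwt_nonneg p U i)]
      have e2 : ∀ i, (Real.sqrt (pwt p U i)) ^ 2 = pwt p U i :=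
        fun i => Real.sq_sqrt (pwt_nonneg p U i)
      simp only [e1, mul_pow, e2, sum_pwt p hn hU, one_mul] at h4
      exact h4
    exact (pow_le_pow_left₀ (norm_nonneg _) h2 2).trans h3
  calc ∑ k, c k * ‖avg p y k‖ ^ 2 ≤ ∑ k, c k * ∑ i, pwt p U i * ‖stp p U i y k‖ ^ 2 :=
        Finset.sum_le_sum fun k _ => mul_le_mul_of_nonneg_left (h1 k) (hc k)
    _ = _ := by
        simp only [Finset.mul_sum]
        rw [Finset.sum_comm]
        apply Finset.sum_congr rfl; intro i _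
        apply Finset.sum_congr rfl; intro k _
        ring

lemma ex_nsq_ge (hn : 0 < n) (hU : U ∈ unitaryGroup (Fin n) ℂ) (t : ℕ) (y : Fin n → ℂ) :
    ∑ k : Fin n, (1 - lam p k / tau n p) ^ (2 * t) * ‖y k‖ ^ 2
      ≤ Ex (pwt p U) (stp p U) t nsq y := by
  induction t generalizing y with
  | zero => simp [nsq]
  | succ t ih =>
    rw [Ex_succ', Pop]
    calc ∑ k : Fin n, (1 - lam p k / tau n p) ^ (2 * (t + 1)) * ‖y k‖ ^ 2
        = ∑ k : Fin n, (1 - lam p k / tau n p) ^ (2 * t) * ‖avg p y k‖ ^ 2 := by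
          apply Finset.sum_congr rfl; intro k _
          rw [avg, norm_mul, Complex.norm_real, mul_pow, Real.norm_eq_abs, sq_abs]; ring
      _ ≤ ∑ i, pwt p U i * ∑ k : Fin n, (1 - lam p k / tau n p) ^ (2 * t) * ‖stp p U i y k‖ ^ 2 :=
          jensen_nsq hn hU y _ (fun k => by rw [pow_mul]; positivity)
      _ ≤ _ := Finset.sum_le_sum fun i _ => mul_le_mul_of_nonneg_left (ih _) (pwt_nonneg p U i)

lemma ex_indicator_le_le (hn : 0 < n) (hU : U ∈ unitaryGroup (Fin n) ℂ) {ε : ℝ} (hε1 : ε < 1)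
    (t : ℕ) {w : Fin n → ℂ} (hw : nsq w = 1) :
    Ex (pwt p U) (stp p U) t
        (fun y => if (y0 p w, y) ∈ {q : (Fin n → ℂ) × (Fin n → ℂ) | nsq q.2 ≤ ε * nsq q.1}
          then 1 else 0) (y0 p w)
      ≤ (1 - Ex (pwt p U) (stp p U) t nsq (y0 p w) / nsq (y0 p w)) / (1 - ε) := by
  have hpos : 0 < nsq (y0 p w) := nsq_y0_pos hw
  have h1ε : 0 < 1 - ε := by linarith
  have h := Ex_mono_on (st := stp p U) (pwt_nonneg p U)
    (A := {y | nsq y ≤ nsq (y0 p w)})
    (fun i y hy => (nsq_pr_le _ y).trans hy)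
    (f := fun y => if (y0 p w, y) ∈ {q : (Fin n → ℂ) × (Fin n → ℂ) | nsq q.2 ≤ ε * nsq q.1}
          then (1:ℝ) else 0)
    (g := fun y => (1 / (1 - ε)) - (1 / ((1 - ε) * nsq (y0 p w))) * nsq y) (by
      intro y hy
      have hy' : nsq y ≤ nsq (y0 p w) := hy
      have e1 : (1 / (1 - ε)) - (1 / ((1 - ε) * nsq (y0 p w))) * nsq y
          = (nsq (y0 p w) - nsq y) / ((1 - ε) * nsq (y0 p w)) := by field_simp
      split_ifs with h
      · have h' : nsq y ≤ ε * nsq (y0 p w) := h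
        rw [e1, le_div_iff₀ (by positivity)]; linarith
      · rw [e1]
        exact div_nonneg (by linarith) (by positivity)) t (y0 p w)
      (show nsq (y0 p w) ≤ nsq (y0 p w) from le_rfl)
  rw [Ex_sub t (fun _ => 1 / (1 - ε)) (fun y => (1 / ((1 - ε) * nsq (y0 p w))) * nsq y),
    Ex_const (sum_pwt p hn hU), Ex_smul] at h
  refine h.trans (le_of_eq ?_)
  field_simp

end det

variable {Ω : Type*} [MeasurableSpace Ω] {P : Measure Ω}

lemma measurableSet_gt (ε : ℝ) :
    MeasurableSet {q : (Fin n → ℂ) × (Fin n → ℂ) | ε * nsq q.1 < nsq q.2} :=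
  measurableSet_lt (measurable_const.mul (measurable_nsq.comp measurable_fst))
    (measurable_nsq.comp measurable_snd)

lemma measurableSet_le' (ε : ℝ) :
    MeasurableSet {q : (Fin n → ℂ) × (Fin n → ℂ) | nsq q.2 ≤ ε * nsq q.1} :=
  measurableSet_le (measurable_nsq.comp measurable_snd)
    (measurable_const.mul (measurable_nsq.comp measurable_fst))

/-- general upper tail bound: probability that RCD needs more than `t` steps -/
lemma Model.prob_lt_trcd_le (m : Model n p P) (ε : ℝ) (t : ℕ) :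
    P {ω | (t : ℕ∞) < m.Trcd ε ω}
      ≤ ∫⁻ M, ∫⁻ w, ENNReal.ofReal (Ex (pwt p M) (stp p M) t
          (fun y => if (y0 p w, y) ∈ {q : (Fin n → ℂ) × (Fin n → ℂ) | ε * nsq q.1 < nsq q.2}
            then 1 else 0) (y0 p w)) ∂(Measure.map m.z P) ∂(Measure.map m.U P) := by
  rw [← m.prob_rcd _ (measurableSet_gt ε) t]
  exact measure_mono fun ω hω => m.not_cond_of_lt_trcd hω

/-- general lower tail bound: probability that RCD needs at most `t` steps -/
lemma Model.prob_trcd_le_le (m : Model n p P) (ε : ℝ) (t : ℕ) :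
    P {ω | m.Trcd ε ω ≤ t}
      ≤ ∫⁻ M, ∫⁻ w, ENNReal.ofReal (Ex (pwt p M) (stp p M) t
          (fun y => if (y0 p w, y) ∈ {q : (Fin n → ℂ) × (Fin n → ℂ) | nsq q.2 ≤ ε * nsq q.1}
            then 1 else 0) (y0 p w)) ∂(Measure.map m.z P) ∂(Measure.map m.U P) := by
  rw [← m.prob_rcd _ (measurableSet_le' ε) t]
  exact measure_mono fun ω hω => m.cond_of_trcd_le hω

lemma Model.n_pos (m : Model n p P) : 0 < n := by
  have := m.prob
  have hne : Nonempty Ω := by
    by_contra h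
    rw [not_nonempty_iff] at h
    have h1 : P Set.univ = 1 := measure_univ
    rw [Set.univ_eq_empty_iff.mpr h, measure_empty] at h1
    exact zero_ne_one h1
  obtain ⟨ω⟩ := hne
  rcases Nat.eq_zero_or_pos n with h | h
  · subst h
    have := m.sphere ω
    simp at this
  · exact h

lemma tau_eq_range (n : ℕ) (p : ℝ) : tau n p = ∑ k ∈ Finset.range n, ((k : ℝ) + 1) ^ (-p) := by
  rw [tau, Finset.sum_range]; rfl

lemma tau_le_lt_one (hp0 : 0 ≤ p) (hp1 : p < 1) : tau n p ≤ (n : ℝ) ^ (1 - p) / (1 - p) := by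
  rw [tau_eq_range]; exact sum_rpow_le hp0 hp1 n

lemma tau_ge (hp0 : 0 ≤ p) (hn : 0 < n) : (n : ℝ) ^ (1 - p) ≤ tau n p := by
  have h : ∑ _k : Fin n, (n : ℝ) ^ (-p) ≤ tau n p := Finset.sum_le_sum fun k _ => lam_ge hp0 k
  simp only [Finset.sum_const, Finset.card_univ, Fintype.card_fin, nsmul_eq_mul] at h
  have hn' : (0:ℝ) < n := by exact_mod_cast hn
  rw [sub_eq_add_neg, Real.rpow_add hn', Real.rpow_one]
  exact h

/-- upper tail for `0 < p < 1` -/
theorem Model.rcd_lt_upper (m : Model n p P) (hp0 : 0 < p) (hp1 : p < 1) {ε : ℝ} (hε : 0 < ε)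
    (t : ℕ) :
    P {ω | (t : ℕ∞) < m.Trcd ε ω} ≤ ENNReal.ofReal (Real.exp (-((1 - p) * t / n)) / ε) := by
  have hn := m.n_pos
  have hn' : (0:ℝ) < n := by exact_mod_cast hn
  have hτ := tau_pos (n := n) p hn
  refine (m.prob_lt_trcd_le ε t).trans (m.dbl_le (b := fun _ => _) ?_ (fun _ _ => le_refl _))
  intro M hM
  refine lintegral_le_of_ae m.unif fun w hw => ?_
  apply ENNReal.ofReal_le_ofReal
  refine (ex_indicator_gt_le hn hε t hw).trans ?_
  have hpos : 0 < nsq (y0 p w) := nsq_y0_pos hw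
  have h1 := ex_nsq_le hp0.le hn hM t (y0 p w)
  have h2 : (1 - p) / n ≤ (n : ℝ) ^ (-p) / tau n p := by
    rw [div_le_div_iff₀ hn' hτ]
    have h3 := tau_le_lt_one (n := n) hp0.le hp1
    have h4 : (n : ℝ) ^ (-p) * n = (n : ℝ) ^ (1 - p) := by
      rw [sub_eq_neg_add, Real.rpow_add hn', Real.rpow_one]
    rw [h4]
    calc (1 - p) * tau n p ≤ (1 - p) * ((n : ℝ) ^ (1 - p) / (1 - p)) := by
          apply mul_le_mul_of_nonneg_left h3; linarith
      _ = (n : ℝ) ^ (1 - p) := by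
          have : 1 - p ≠ 0 := by linarith
          field_simp
  have hc : 0 ≤ 1 - (n : ℝ) ^ (-p) / tau n p := by
    have h1 : (n : ℝ) ^ (-p) ≤ tau n p := (lam_ge hp0.le ⟨0, hn⟩).trans (lam_le_tau p ⟨0, hn⟩)
    have : (n : ℝ) ^ (-p) / tau n p ≤ 1 := (div_le_one hτ).mpr h1
    linarith
  have h3 : (1 - (n : ℝ) ^ (-p) / tau n p) ^ t ≤ Real.exp (-((1 - p) * t / n)) := by
    have h4 : 1 - (n : ℝ) ^ (-p) / tau n p ≤ Real.exp (-((1 - p) / n)) := by
      have := Real.add_one_le_exp (-((1 - p) / n))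
      linarith
    calc (1 - (n : ℝ) ^ (-p) / tau n p) ^ t ≤ (Real.exp (-((1 - p) / n))) ^ t :=
          pow_le_pow_left₀ hc h4 t
      _ = Real.exp (-((1 - p) * t / n)) := by
          rw [← Real.exp_nat_mul]; congr 1; ring
  calc Ex (pwt p M) (stp p M) t nsq (y0 p w) / (ε * nsq (y0 p w))
      ≤ ((1 - (n : ℝ) ^ (-p) / tau n p) ^ t * nsq (y0 p w)) / (ε * nsq (y0 p w)) := by gcongr
    _ = (1 - (n : ℝ) ^ (-p) / tau n p) ^ t / ε := by field_simp
    _ ≤ _ := by gcongr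

/-- lower tail for `0 < p < 1` -/
theorem Model.rcd_lt_lower (m : Model n p P) (hp0 : 0 < p) (hp1 : p < 1) {ε : ℝ}
    (hε1 : ε < 1) (t : ℕ) :
    P {ω | m.Trcd ε ω ≤ t} ≤ ENNReal.ofReal
      ((2 * t / n) ^ ((1 - p) / 2) / ((1 - ε) * (1 - p * (1 + (1 - p) / 2)))) := by
  have hn := m.n_pos
  have hn' : (0:ℝ) < n := by exact_mod_cast hn
  have hτ := tau_pos (n := n) p hn
  set κ := (1 - p) / 2 with hκ
  have hκ0 : 0 < κ := by rw [hκ]; linarith
  have hκ1 : κ ≤ 1 := by rw [hκ]; linarith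
  have hs1 : p * (1 + κ) < 1 := by rw [hκ]; nlinarith
  have h1ε : 0 < 1 - ε := by linarith
  refine (m.prob_trcd_le_le ε t).trans (m.dbl_le (b := fun _ => _) ?_ (fun _ _ => le_refl _))
  intro M hM
  -- pointwise bound
  set c : Fin n → ℝ := fun k => (n : ℝ) ^ p / (1 - ε) * (lam p k * (2 * t * (lam p k / tau n p)) ^ κ)
    with hc
  have hc0 : ∀ k, 0 ≤ c k := fun k => by
    have := lam_pos p k
    rw [hc]; positivity
  have hpt : ∀ w, nsq w = 1 → ENNReal.ofReal (Ex (pwt p M) (stp p M) t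
          (fun y => if (y0 p w, y) ∈ {q : (Fin n → ℂ) × (Fin n → ℂ) | nsq q.2 ≤ ε * nsq q.1}
            then 1 else 0) (y0 p w)) ≤ ENNReal.ofReal (∑ k, c k * ‖w k‖ ^ 2) := by
    intro w hw
    apply ENNReal.ofReal_le_ofReal
    refine (ex_indicator_le_le hn hM hε1 t hw).trans ?_
    have hpos : 0 < nsq (y0 p w) := nsq_y0_pos hw
    have hge : (n : ℝ) ^ (-p) ≤ nsq (y0 p w) := by
      have := nsq_y0_ge hp0.le w
      rwa [hw, mul_one] at this
    have h1 := ex_nsq_ge (p := p) hn hM t (y0 p w)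
    have h2 : nsq (y0 p w) - Ex (pwt p M) (stp p M) t nsq (y0 p w)
        ≤ ∑ k : Fin n, lam p k * (2 * t * (lam p k / tau n p)) ^ κ * ‖w k‖ ^ 2 := by
      have h3 : nsq (y0 p w) - ∑ k : Fin n, (1 - lam p k / tau n p) ^ (2 * t) * ‖y0 p w k‖ ^ 2
          ≤ ∑ k : Fin n, lam p k * (2 * t * (lam p k / tau n p)) ^ κ * ‖w k‖ ^ 2 := by
        rw [nsq, ← Finset.sum_sub_distrib]
        apply Finset.sum_le_sum
        intro k _
        have hl := lam_pos p k
        have hx0 : 0 ≤ lam p k / tau n p := by positivity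
        have hx1 : lam p k / tau n p ≤ 1 := (div_le_one hτ).mpr (lam_le_tau p k)
        have e1 : ‖y0 p w k‖ ^ 2 = lam p k * ‖w k‖ ^ 2 := by
          rw [y0, norm_mul, mul_pow, Complex.norm_real, Real.norm_eq_abs, sq_abs,
            Real.sq_sqrt hl.le]
        rw [e1]
        have h4 : 1 - (1 - lam p k / tau n p) ^ (2 * t) ≤ (2 * t * (lam p k / tau n p)) ^ κ := by
          have hb : 1 - (1 - lam p k / tau n p) ^ (2 * t) ≤ 2 * t * (lam p k / tau n p) := by
            have := one_add_mul_le_pow (a := -(lam p k / tau n p)) (by linarith) (2 * t)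
            push_cast at this
            have e2 : 1 + -(lam p k / tau n p) = 1 - lam p k / tau n p := by ring
            rw [e2] at this
            linarith
          have hb1 : 1 - (1 - lam p k / tau n p) ^ (2 * t) ≤ 1 := by
            have : 0 ≤ (1 - lam p k / tau n p) ^ (2 * t) := by rw [pow_mul]; positivity
            linarith
          by_cases hlt : 2 * t * (lam p k / tau n p) ≤ 1
          · refine hb.trans ?_
            have h0 : 0 ≤ 2 * t * (lam p k / tau n p) := by positivity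
            calc 2 * t * (lam p k / tau n p) = (2 * t * (lam p k / tau n p)) ^ (1:ℝ) := by
                  rw [Real.rpow_one]
              _ ≤ _ := by
                  rcases eq_or_lt_of_le h0 with h00 | h00
                  · rw [← h00, Real.zero_rpow one_ne_zero, Real.zero_rpow hκ0.ne']
                  · exact Real.rpow_le_rpow_of_exponent_ge h00 hlt hκ1
          · refine hb1.trans ?_
            exact Real.one_le_rpow (not_le.mp hlt).le hκ0.le
        calc lam p k * ‖w k‖ ^ 2 - (1 - lam p k / tau n p) ^ (2 * t) * (lam p k * ‖w k‖ ^ 2)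
            = (1 - (1 - lam p k / tau n p) ^ (2 * t)) * (lam p k * ‖w k‖ ^ 2) := by ring
          _ ≤ (2 * t * (lam p k / tau n p)) ^ κ * (lam p k * ‖w k‖ ^ 2) := by gcongr
          _ = _ := by ring
      linarith
    have h5 : 1 - Ex (pwt p M) (stp p M) t nsq (y0 p w) / nsq (y0 p w)
        ≤ (n : ℝ) ^ p * ∑ k : Fin n, lam p k * (2 * t * (lam p k / tau n p)) ^ κ * ‖w k‖ ^ 2 := by
      have e3 : 1 - Ex (pwt p M) (stp p M) t nsq (y0 p w) / nsq (y0 p w)
          = (nsq (y0 p w) - Ex (pwt p M) (stp p M) t nsq (y0 p w)) / nsq (y0 p w) := by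
        field_simp
      rw [e3, div_le_iff₀ hpos]
      have hS0 : 0 ≤ ∑ k : Fin n, lam p k * (2 * t * (lam p k / tau n p)) ^ κ * ‖w k‖ ^ 2 :=
        Finset.sum_nonneg fun k _ => by have := lam_pos p k; positivity
      have h6 : 1 ≤ (n : ℝ) ^ p * nsq (y0 p w) := by
        calc (1:ℝ) = (n : ℝ) ^ p * (n : ℝ) ^ (-p) := by
              rw [← Real.rpow_add hn']; simp
          _ ≤ _ := by gcongr
      calc nsq (y0 p w) - Ex (pwt p M) (stp p M) t nsq (y0 p w)
          ≤ ∑ k : Fin n, lam p k * (2 * t * (lam p k / tau n p)) ^ κ * ‖w k‖ ^ 2 := h2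
        _ ≤ (∑ k : Fin n, lam p k * (2 * t * (lam p k / tau n p)) ^ κ * ‖w k‖ ^ 2)
            * ((n : ℝ) ^ p * nsq (y0 p w)) := le_mul_of_one_le_right hS0 h6
        _ = _ := by ring
    calc (1 - Ex (pwt p M) (stp p M) t nsq (y0 p w) / nsq (y0 p w)) / (1 - ε)
        ≤ ((n : ℝ) ^ p * ∑ k : Fin n, lam p k * (2 * t * (lam p k / tau n p)) ^ κ * ‖w k‖ ^ 2)
          / (1 - ε) := by gcongr
      _ = ∑ k, c k * ‖w k‖ ^ 2 := by
          rw [hc, Finset.mul_sum, Finset.sum_div]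
          apply Finset.sum_congr rfl; intro k _; ring
  have hint : ∫⁻ w, ENNReal.ofReal (Ex (pwt p M) (stp p M) t
          (fun y => if (y0 p w, y) ∈ {q : (Fin n → ℂ) × (Fin n → ℂ) | nsq q.2 ≤ ε * nsq q.1}
            then 1 else 0) (y0 p w)) ∂(Measure.map m.z P)
      ≤ ENNReal.ofReal ((∑ k, c k) / n) := by
    rw [← unif_weighted m.unif c hc0]
    apply lintegral_mono_ae
    filter_upwards [m.unif.sphere] with w hw
    exact hpt w hw
  refine hint.trans (ENNReal.ofReal_le_ofReal ?_)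
  -- numeric estimate
  have hτge := tau_ge (n := n) hp0.le hn
  have h7 : ∑ k : Fin n, lam p k * (lam p k) ^ κ ≤ (n : ℝ) ^ (1 - p * (1 + κ)) / (1 - p * (1 + κ)) := by
    have h8 := sum_rpow_le (s := p * (1 + κ)) (by positivity) hs1 n
    rw [Finset.sum_range] at h8
    refine le_trans (le_of_eq ?_) h8
    apply Finset.sum_congr rfl
    intro k _
    unfold lam
    have hk : (0:ℝ) < (k : ℝ) + 1 := by positivity
    rw [← Real.rpow_mul hk.le, ← Real.rpow_add hk]
    congr 1; ring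
  have h9 : ∑ k, c k ≤ (n : ℝ) ^ p / (1 - ε) * ((2 * t / (n : ℝ) ^ (1 - p)) ^ κ *
      ((n : ℝ) ^ (1 - p * (1 + κ)) / (1 - p * (1 + κ)))) := by
    rw [hc, ← Finset.mul_sum]
    apply mul_le_mul_of_nonneg_left _ (by positivity)
    calc ∑ k : Fin n, lam p k * (2 * t * (lam p k / tau n p)) ^ κ
        ≤ ∑ k : Fin n, (2 * t / (n : ℝ) ^ (1 - p)) ^ κ * (lam p k * (lam p k) ^ κ) := by
          apply Finset.sum_le_sum
          intro k _
          have hl := lam_pos p k
          have e4 : (2 * t / (n : ℝ) ^ (1 - p)) ^ κ * (lam p k * (lam p k) ^ κ)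
              = lam p k * (2 * t / (n : ℝ) ^ (1 - p) * lam p k) ^ κ := by
            rw [Real.mul_rpow (by positivity) hl.le]; ring
          rw [e4]
          apply mul_le_mul_of_nonneg_left _ hl.le
          apply Real.rpow_le_rpow (by positivity) _ hκ0.le
          rw [div_mul_eq_mul_div, mul_div_assoc']
          gcongr
      _ = (2 * t / (n : ℝ) ^ (1 - p)) ^ κ * ∑ k : Fin n, (lam p k * (lam p k) ^ κ) := by
          rw [Finset.mul_sum]
      _ ≤ _ := by gcongr
  calc (∑ k, c k) / n ≤ ((n : ℝ) ^ p / (1 - ε) * ((2 * t / (n : ℝ) ^ (1 - p)) ^ κ *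
      ((n : ℝ) ^ (1 - p * (1 + κ)) / (1 - p * (1 + κ))))) / n := by gcongr
    _ = (2 * t / n) ^ κ / ((1 - ε) * (1 - p * (1 + κ))) := by
        have h1s : 1 - p * (1 + κ) ≠ 0 := by linarith
        rw [Real.div_rpow (by positivity) (by positivity), Real.div_rpow (by positivity) hn'.le,
          ← Real.rpow_mul hn'.le]
        have e5 : (n : ℝ) ^ p * (n : ℝ) ^ (1 - p * (1 + κ)) * (n : ℝ) ^ κ
            = (n : ℝ) ^ ((1 - p) * κ) * n := by
          rw [← Real.rpow_add hn', ← Real.rpow_add hn', ← Real.rpow_add_one hn'.ne']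
          congr 1; ring
        have hA : (n : ℝ) ^ ((1 - p) * κ) ≠ 0 := (Real.rpow_pos_of_pos hn' _).ne'
        have hB : (n : ℝ) ^ κ ≠ 0 := (Real.rpow_pos_of_pos hn' _).ne'
        field_simp
        linear_combination ((2 * (t : ℝ)) ^ κ) * e5

end Pool.Agent.Hhelper29.CG
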