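import Pool.Agent.Hhelper29.CG.RcdGtFinal

/-!
Duality, total hits of a direction, and the variance bound for the family energy.
-/

namespace Pool.Agent.Hhelper29.CG

open MeasureTheory Matrix ProbabilityTheory
open scoped ENNReal Classical

variable {n : ℕ} {p : ℝ}

/-- squared length of the projection of the family on `v` -/
noncomputable def rv (v : Fin n → ℂ) (Y : Fin n → (Fin n → ℂ)) : ℝ := ∑ l, ‖cin v (Y l)‖ ^ 2

lemma sraw_eq_rv (p : ℝ) (U : Matrix (Fin n) (Fin n) ℂ) (i : Fin n) (Y : Fin n → (Fin n → ℂ)) :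
    sraw p U i Y = rv (rowv p U i) Y := rfl

lemma rv_nonneg (v : Fin n → ℂ) (Y : Fin n → (Fin n → ℂ)) : 0 ≤ rv v Y :=
  Finset.sum_nonneg fun _ _ => by positivity

lemma rv_stF (U : Matrix (Fin n) (Fin n) ℂ) (i : Fin n) (v : Fin n → ℂ)
    (Y : Fin n → (Fin n → ℂ)) : rv v (stF p U i Y) = rv (stp p U i v) Y := by
  simp only [rv, stF, stp, cin_pr]

/-- duality between the family chain and the vector chain -/
lemma dual_ex (U : Matrix (Fin n) (Fin n) ℂ) (s : ℕ) (v : Fin n → ℂ) (Y : Fin n → (Fin n → ℂ)) :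
    Ex (pwt p U) (stF p U) s (rv v) Y = Ex (pwt p U) (stp p U) s (fun v => rv v Y) v := by
  induction s generalizing v with
  | zero => rfl
  | succ s ih =>
    rw [Ex_succ, Ex_succ', Pop]
    have h1 : Pop (pwt p U) (stF p U) (rv v) = fun Y => ∑ i, pwt p U i * rv (stp p U i v) Y := by
      funext Y
      simp only [Pop, rv_stF]
    rw [h1, Ex_sum Finset.univ s (fun i Y => pwt p U i * rv (stp p U i v) Y)]
    apply Finset.sum_congr rfl
    intro i _
    rw [Ex_smul]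
    beta_reduce
    rw [ih]

lemma rv_Y0 (v : Fin n → ℂ) : rv v (Y0 n p) = ∑ k : Fin n, lam p k * ‖v k‖ ^ 2 := by
  have h : ∀ l, cin v (Y0 n p l) = star (v l) * (Real.sqrt (lam p l) : ℂ) := by
    intro l
    simp only [cin, Y0, y0]
    rw [Finset.sum_eq_single l]
    · simp
    · intro k _ hk; simp [hk]
    · intro h; exact absurd (Finset.mem_univ l) h
  simp only [rv, h, norm_mul, norm_star, mul_pow, Complex.norm_real, Real.norm_eq_abs, sq_abs]
  apply Finset.sum_congr rfl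
  intro l _
  rw [Real.sq_sqrt (lam_pos p l).le]; ring

lemma sum_ex_vec (hn : 0 < n) {U : Matrix (Fin n) (Fin n) ℂ} (hU : U ∈ unitaryGroup (Fin n) ℂ)
    (v : Fin n → ℂ) (t : ℕ) :
    ∑ s ∈ Finset.range t, Ex (pwt p U) (stp p U) s (fun y => ∑ k : Fin n, lam p k * ‖y k‖ ^ 2) v
      = tau n p * (nsq v - Ex (pwt p U) (stp p U) t nsq v) := by
  have hτ := tau_pos (n := n) p hn
  induction t with
  | zero => simp
  | succ t ih =>
    rw [Finset.sum_range_succ, ih, Ex_succ (pw := pwt p U) t nsq]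
    have : Pop (pwt p U) (stp p U) nsq
        = fun y => nsq y - (1 / tau n p) * ∑ k : Fin n, lam p k * ‖y k‖ ^ 2 := by
      funext y; rw [pop_nsq p hn hU]; ring
    rw [this, Ex_sub t nsq (fun y => (1 / tau n p) * ∑ k : Fin n, lam p k * ‖y k‖ ^ 2), Ex_smul]
    beta_reduce
    field_simp
    ring

/-- the total number of hits of a direction is bounded -/
lemma sum_ex_rv_le (hn : 0 < n) {U : Matrix (Fin n) (Fin n) ℂ} (hU : U ∈ unitaryGroup (Fin n) ℂ)
    (v : Fin n → ℂ) (t : ℕ) :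
    ∑ s ∈ Finset.range t, Ex (pwt p U) (stF p U) s (rv v) (Y0 n p) ≤ tau n p * nsq v := by
  have hτ := tau_pos (n := n) p hn
  have h1 : ∀ s ∈ Finset.range t, Ex (pwt p U) (stF p U) s (rv v) (Y0 n p)
      = Ex (pwt p U) (stp p U) s (fun y => ∑ k : Fin n, lam p k * ‖y k‖ ^ 2) v := by
    intro s _
    rw [dual_ex]
    congr 1
    funext y
    exact rv_Y0 y
  rw [Finset.sum_congr rfl h1, sum_ex_vec hn hU]
  have h2 : 0 ≤ Ex (pwt p U) (stp p U) t nsq v := Ex_nonneg (pwt_nonneg p U) nsq_nonneg t v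
  nlinarith

/-! ### variance -/

lemma cin_smul_left (c : ℂ) (a y : Fin n → ℂ) : cin (c • a) y = star c * cin a y := by
  simp only [cin, Pi.smul_apply, smul_eq_mul, star_mul', Finset.mul_sum]
  apply Finset.sum_congr rfl; intro k _; ring

lemma cin_sum_left {κ : Type*} (K : Finset κ) (f : κ → (Fin n → ℂ)) (y : Fin n → ℂ) :
    cin (∑ l ∈ K, f l) y = ∑ l ∈ K, cin (f l) y := by
  simp only [cin, Finset.sum_apply, star_sum, Finset.sum_mul]
  rw [Finset.sum_comm]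

lemma cin_sum_right {κ : Type*} (K : Finset κ) (f : κ → (Fin n → ℂ)) (y : Fin n → ℂ) :
    cin y (∑ l ∈ K, f l) = ∑ l ∈ K, cin y (f l) := by
  simp only [cin, Finset.sum_apply, Finset.mul_sum]
  rw [Finset.sum_comm]

lemma norm_cin_sq_le (a y : Fin n → ℂ) : ‖cin a y‖ ^ 2 ≤ nsq a * nsq y := by
  have h1 : ‖cin a y‖ ≤ ∑ k, ‖a k‖ * ‖y k‖ := by
    refine (norm_sum_le _ _).trans (le_of_eq ?_)
    apply Finset.sum_congr rfl; intro k _
    rw [norm_mul, norm_star]
  calc ‖cin a y‖ ^ 2 ≤ (∑ k, ‖a k‖ * ‖y k‖) ^ 2 := pow_le_pow_left₀ (norm_nonneg _) h1 2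
    _ ≤ (∑ k, ‖a k‖ ^ 2) * (∑ k, ‖y k‖ ^ 2) := Finset.sum_mul_sq_le_sq_mul_sq _ _ _
    _ = _ := rfl

/-- dual contraction property -/
lemma nsq_comb_le {Y : Fin n → (Fin n → ℂ)} (hY : IsContr Y) (c : Fin n → ℂ) :
    nsq (∑ l, c l • Y l) ≤ nsq c := by
  set u := ∑ l, c l • Y l with hu
  have h1 : (nsq u : ℂ) = ∑ l, c l * cin u (Y l) := by
    rw [← cin_self]
    conv_lhs => rw [hu, cin_sum_right]
    apply Finset.sum_congr rfl; intro l _
    rw [cin_smul]
  have h2 : nsq u ≤ ∑ l, ‖c l‖ * ‖cin u (Y l)‖ := by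
    have h3 : ‖(nsq u : ℂ)‖ = nsq u := by
      rw [Complex.norm_real, Real.norm_of_nonneg (nsq_nonneg u)]
    rw [← h3, h1]
    refine (norm_sum_le _ _).trans (le_of_eq ?_)
    apply Finset.sum_congr rfl; intro l _; rw [norm_mul]
  have h4 : (nsq u) ^ 2 ≤ nsq c * nsq u := by
    calc (nsq u) ^ 2 ≤ (∑ l, ‖c l‖ * ‖cin u (Y l)‖) ^ 2 := pow_le_pow_left₀ (nsq_nonneg u) h2 2
      _ ≤ (∑ l, ‖c l‖ ^ 2) * (∑ l, ‖cin u (Y l)‖ ^ 2) := Finset.sum_mul_sq_le_sq_mul_sq _ _ _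
      _ ≤ nsq c * nsq u := mul_le_mul_of_nonneg_left (hY u) (nsq_nonneg c)
  rcases (nsq_nonneg u).eq_or_lt with h | h
  · rw [← h]; exact nsq_nonneg c
  · rw [sq] at h4
    exact le_of_mul_le_mul_right h4 h

lemma nsq_sub_smul (x z : Fin n → ℂ) (c : ℂ) :
    nsq (x - c • z) = nsq x - 2 * (c * cin x z).re + ‖c‖ ^ 2 * nsq z := by
  have h1 : ∀ k, ‖(x - c • z) k‖ ^ 2 = ‖x k‖ ^ 2 - 2 * (star (x k) * (c * z k)).re + ‖c‖ ^ 2 * ‖z k‖ ^ 2 := by
    intro k
    rw [Pi.sub_apply, Pi.smul_apply, smul_eq_mul, norm_sub_sq_complex, norm_mul, mul_pow]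
  simp only [nsq, h1]
  rw [Finset.sum_add_distrib, Finset.sum_sub_distrib, ← Finset.mul_sum, ← Finset.mul_sum,
    ← Complex.re_sum]
  congr 4
  rw [cin, Finset.mul_sum]
  apply Finset.sum_congr rfl; intro k _; ring

lemma nsq_runF_le (p : ℝ) (U : Matrix (Fin n) (Fin n) ℂ) (t : ℕ) (j : Fin t → Fin n)
    (y : Fin n → ℂ) : nsq (runF (stp p U) t j y) ≤ nsq y := by
  induction t with
  | zero => exact le_rfl
  | succ t ih => rw [runF_succ]; exact (nsq_pr_le _ _).trans (ih _)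

/-- increment of a transported family energy under one projection -/
lemma fam_incr (U : Matrix (Fin n) (Fin n) ℂ) (r : ℕ) (j : Fin r → Fin n)
    {Y : Fin n → (Fin n → ℂ)} (hY : IsContr Y) {a : Fin n → ℂ} (ha : 0 < nsq a) :
    |∑ l, nsq (runF (stp p U) r j (pr a (Y l))) - ∑ l, nsq (runF (stp p U) r j (Y l))|
      ≤ 3 * Real.sqrt (rv a Y / nsq a) := by
  set L : (Fin n → ℂ) → (Fin n → ℂ) := runF (stp p U) r j with hL
  have hLadd : ∀ x y, L (x + y) = L x + L y := runF_add p U r j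
  have hLsmul : ∀ (c : ℂ) y, L (c • y) = c • L y := runF_smul p U r j
  have hLc : ∀ y, nsq (L y) ≤ nsq y := nsq_runF_le p U r j
  set c : Fin n → ℂ := fun l => cin a (Y l) / (nsq a : ℂ) with hc
  set ξ : ℝ := rv a Y / nsq a with hξ
  have hξ0 : 0 ≤ ξ := div_nonneg (rv_nonneg _ _) ha.le
  have hξ1 : ξ ≤ 1 := (div_le_one ha).mpr (hY a)
  have hpr : ∀ l, L (pr a (Y l)) = L (Y l) - c l • L a := by
    intro l
    have e1 : pr a (Y l) = Y l + (-(c l)) • a := by
      rw [pr, neg_smul, sub_eq_add_neg]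
    rw [e1, hLadd, hLsmul, neg_smul, sub_eq_add_neg]
  have hcn : nsq c = ξ / nsq a := by
    have : ∀ l, ‖c l‖ ^ 2 = ‖cin a (Y l)‖ ^ 2 / (nsq a) ^ 2 := by
      intro l
      rw [hc]; beta_reduce
      rw [norm_div, Complex.norm_real, Real.norm_of_nonneg ha.le, div_pow]
    simp only [nsq, this, ← Finset.sum_div]
    rw [hξ, rv]
    simp only [nsq]
    rw [div_div, sq]
  have hdiff : ∑ l, nsq (L (pr a (Y l))) - ∑ l, nsq (L (Y l))
      = -2 * (cin (L (∑ l, star (c l) • Y l)) (L a)).re + nsq c * nsq (L a) := by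
    rw [← Finset.sum_sub_distrib]
    have e1 : ∀ l, nsq (L (pr a (Y l))) - nsq (L (Y l))
        = -2 * (c l * cin (L (Y l)) (L a)).re + ‖c l‖ ^ 2 * nsq (L a) := by
      intro l
      rw [hpr, nsq_sub_smul]; ring
    rw [Finset.sum_congr rfl (fun l _ => e1 l), Finset.sum_add_distrib, ← Finset.mul_sum,
      ← Finset.sum_mul, ← Complex.re_sum]
    have e2 : L (∑ l, star (c l) • Y l) = ∑ l, star (c l) • L (Y l) := by
      rw [hL, runF_sum]
      apply Finset.sum_congr rfl; intro l _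
      exact runF_smul p U r j _ _
    rw [e2, cin_sum_left]
    have e3 : ∀ l, cin (star (c l) • L (Y l)) (L a) = c l * cin (L (Y l)) (L a) := by
      intro l; rw [cin_smul_left, star_star]
    rw [Finset.sum_congr rfl (fun l _ => e3 l)]
    rfl
  rw [hdiff]
  have hB : ‖cin (L (∑ l, star (c l) • Y l)) (L a)‖ ^ 2 ≤ ξ := by
    refine (norm_cin_sq_le _ _).trans ?_
    have h1 : nsq (L (∑ l, star (c l) • Y l)) ≤ ξ / nsq a := by
      refine (hLc _).trans ((nsq_comb_le hY _).trans (le_of_eq ?_))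
      rw [← hcn]
      simp only [nsq, norm_star]
    calc nsq (L (∑ l, star (c l) • Y l)) * nsq (L a) ≤ (ξ / nsq a) * nsq a :=
          mul_le_mul h1 (hLc a) (nsq_nonneg _) (by positivity)
      _ = ξ := by field_simp
  have hB' : ‖cin (L (∑ l, star (c l) • Y l)) (L a)‖ ≤ Real.sqrt ξ := Real.le_sqrt_of_sq_le hB
  have hre := Complex.abs_re_le_norm (cin (L (∑ l, star (c l) • Y l)) (L a))
  have h2 : nsq c * nsq (L a) ≤ ξ := by
    rw [hcn]
    calc ξ / nsq a * nsq (L a) ≤ ξ / nsq a * nsq a := by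
          apply mul_le_mul_of_nonneg_left (hLc a) (by positivity)
      _ = ξ := by field_simp
  have h3 : 0 ≤ nsq c * nsq (L a) := mul_nonneg (nsq_nonneg _) (nsq_nonneg _)
  have h4 : ξ ≤ Real.sqrt ξ := by
    apply Real.le_sqrt_of_sq_le
    nlinarith
  have h5 := abs_le.mp (hre.trans hB')
  rw [abs_le]
  constructor <;> linarith

lemma ex_trg_incr (U : Matrix (Fin n) (Fin n) ℂ) (hn : 0 < n) (hU : U ∈ unitaryGroup (Fin n) ℂ)
    (r : ℕ) {Y : Fin n → (Fin n → ℂ)} (hY : IsContr Y) (i : Fin n) :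
    |Ex (pwt p U) (stF p U) r (trg (fun _ => 1)) (stF p U i Y)
      - Ex (pwt p U) (stF p U) r (trg (fun _ => 1)) Y|
      ≤ 3 * Real.sqrt (sraw p U i Y / nsq (rowv p U i)) := by
  have ha := nsq_rowv_pos p hU i
  have hw1 : ∑ j : Fin r → Fin n, ∏ k, pwt p U (j k) = 1 := by
    have h := Ex_eq_sum (pw := pwt p U) (st := stF p U) r (fun _ => 1) Y
    rw [Ex_const (sum_pwt p hn hU)] at h
    simpa using h.symm
  have hform : ∀ Z : Fin n → (Fin n → ℂ), Ex (pwt p U) (stF p U) r (trg (fun _ => 1)) Z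
      = ∑ j : Fin r → Fin n, (∏ k, pwt p U (j k)) * ∑ l, nsq (runF (stp p U) r j (Z l)) := by
    intro Z
    rw [Ex_eq_sum]
    apply Finset.sum_congr rfl; intro j _
    congr 1
    simp only [trg, one_mul, nsq, runF_fam]
  rw [hform, hform, ← Finset.sum_sub_distrib]
  calc |∑ j : Fin r → Fin n, ((∏ k, pwt p U (j k)) * ∑ l, nsq (runF (stp p U) r j (stF p U i Y l))
        - (∏ k, pwt p U (j k)) * ∑ l, nsq (runF (stp p U) r j (Y l)))|
      ≤ ∑ j : Fin r → Fin n, (∏ k, pwt p U (j k)) * (3 * Real.sqrt (sraw p U i Y / nsq (rowv p U i))) := by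
        refine (Finset.abs_sum_le_sum_abs _ _).trans (Finset.sum_le_sum fun j _ => ?_)
        have hp0 : 0 ≤ ∏ k, pwt p U (j k) := Finset.prod_nonneg fun k _ => pwt_nonneg p U _
        rw [← mul_sub, abs_mul, abs_of_nonneg hp0]
        apply mul_le_mul_of_nonneg_left _ hp0
        exact fam_incr U r j hY ha
    _ = 3 * Real.sqrt (sraw p U i Y / nsq (rowv p U i)) := by
        rw [← Finset.sum_mul, hw1, one_mul]

lemma pop_sq_le (hn : 0 < n) {U : Matrix (Fin n) (Fin n) ℂ} (hU : U ∈ unitaryGroup (Fin n) ℂ)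
    (r : ℕ) {Y : Fin n → (Fin n → ℂ)} (hY : IsContr Y) :
    Pop (pwt p U) (stF p U) (fun Y => (Ex (pwt p U) (stF p U) r (trg (fun _ => 1)) Y) ^ 2) Y
      ≤ (Ex (pwt p U) (stF p U) (r + 1) (trg (fun _ => 1)) Y) ^ 2 + 9 * trg (fun k => xk n p k) Y := by
  set f : (Fin n → (Fin n → ℂ)) → ℝ := Ex (pwt p U) (stF p U) r (trg (fun _ => 1)) with hf
  have hτ := tau_pos (n := n) p hn
  have h1 : Ex (pwt p U) (stF p U) (r + 1) (trg (fun _ => 1)) Y = ∑ i, pwt p U i * f (stF p U i Y) := by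
    rw [Ex_succ']; rfl
  have hsum := sum_pwt p hn hU
  have h2 : ∑ i, pwt p U i * (f (stF p U i Y) - f Y) ^ 2 ≤ 9 * trg (fun k => xk n p k) Y := by
    rw [trg_xk_eq hU, Finset.mul_sum, Finset.mul_sum]
    apply Finset.sum_le_sum
    intro i _
    have ha := nsq_rowv_pos p hU i
    have h3 := ex_trg_incr (p := p) U hn hU r hY i
    have h4 : (f (stF p U i Y) - f Y) ^ 2 ≤ 9 * (sraw p U i Y / nsq (rowv p U i)) := by
      rw [← sq_abs]
      calc |f (stF p U i Y) - f Y| ^ 2 ≤ (3 * Real.sqrt (sraw p U i Y / nsq (rowv p U i))) ^ 2 :=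
            pow_le_pow_left₀ (abs_nonneg _) h3 2
        _ = 9 * (sraw p U i Y / nsq (rowv p U i)) := by
            rw [mul_pow, Real.sq_sqrt (div_nonneg (sraw_nonneg _ _ _ _) ha.le)]; norm_num
    calc pwt p U i * (f (stF p U i Y) - f Y) ^ 2
        ≤ pwt p U i * (9 * (sraw p U i Y / nsq (rowv p U i))) :=
          mul_le_mul_of_nonneg_left h4 (pwt_nonneg p U i)
      _ = 9 * (1 / tau n p * sraw p U i Y) := by rw [pwt]; field_simp
  have h5 : Pop (pwt p U) (stF p U) (fun Y => (f Y) ^ 2) Y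
      = ∑ i, pwt p U i * (f (stF p U i Y) - f Y) ^ 2
        + 2 * f Y * (∑ i, pwt p U i * f (stF p U i Y)) - (f Y) ^ 2 := by
    have e1 : ∀ i, pwt p U i * (f (stF p U i Y)) ^ 2
        = pwt p U i * (f (stF p U i Y) - f Y) ^ 2 + 2 * f Y * (pwt p U i * f (stF p U i Y))
          - pwt p U i * (f Y) ^ 2 := by intro i; ring
    simp only [Pop]
    rw [Finset.sum_congr rfl (fun i _ => e1 i), Finset.sum_sub_distrib, Finset.sum_add_distrib,
      ← Finset.mul_sum, ← Finset.sum_mul, hsum, one_mul]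
  rw [h5, h1]
  nlinarith [sq_nonneg ((∑ i, pwt p U i * f (stF p U i Y)) - f Y)]

/-- variance bound for the family energy -/
theorem ex_sq_le (hn : 0 < n) {U : Matrix (Fin n) (Fin n) ℂ} (hU : U ∈ unitaryGroup (Fin n) ℂ)
    (t : ℕ) : ∀ (r : ℕ) {Y : Fin n → (Fin n → ℂ)}, IsContr Y →
    Ex (pwt p U) (stF p U) t
        (fun Y => (Ex (pwt p U) (stF p U) r (trg (fun _ => 1)) Y) ^ 2) Y
      ≤ (Ex (pwt p U) (stF p U) (r + t) (trg (fun _ => 1)) Y) ^ 2
        + 9 * ∑ s ∈ Finset.range t, Ex (pwt p U) (stF p U) s (trg (fun k => xk n p k)) Y := by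
  induction t with
  | zero => intro r Y _; simp
  | succ t ih =>
    intro r Y hY
    rw [Ex_succ]
    have h1 := Ex_mono_on (st := stF p U) (pwt_nonneg p U) (A := {Y | IsContr Y})
      (fun i Y hY => isContr_stF hY i)
      (f := Pop (pwt p U) (stF p U) (fun Y => (Ex (pwt p U) (stF p U) r (trg (fun _ => 1)) Y) ^ 2))
      (g := fun Y => (Ex (pwt p U) (stF p U) (r + 1) (trg (fun _ => 1)) Y) ^ 2
        + 9 * trg (fun k => xk n p k) Y) (fun Y hY => pop_sq_le hn hU r hY) t Y hY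
    rw [Ex_add t (fun Y => (Ex (pwt p U) (stF p U) (r + 1) (trg (fun _ => 1)) Y) ^ 2)
      (fun Y => 9 * trg (fun k => xk n p k) Y), Ex_smul] at h1
    beta_reduce at h1
    have h2 := ih (r + 1) hY
    rw [Finset.sum_range_succ, mul_add]
    have h3 : r + 1 + t = r + (t + 1) := by ring
    rw [h3] at h2
    linarith

theorem ex_trg_sq_le (hp : 0 ≤ p) (hn : 0 < n) {U : Matrix (Fin n) (Fin n) ℂ}
    (hU : U ∈ unitaryGroup (Fin n) ℂ) (t : ℕ) :
    Ex (pwt p U) (stF p U) t (fun Y => (trg (fun _ => 1) Y) ^ 2) (Y0 n p)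
      ≤ (Ex (pwt p U) (stF p U) t (trg (fun _ => 1)) (Y0 n p)) ^ 2 + 9 * tau n p := by
  have h := ex_sq_le (p := p) hn hU t 0 (isContr_Y0 hp)
  simp only [Ex_zero, zero_add] at h
  rw [sum_ex_diss_le hn hU] at h
  have h0 : 0 ≤ Ex (pwt p U) (stF p U) t (trg (fun _ => 1)) (Y0 n p) :=
    Ex_nonneg (pwt_nonneg p U) (fun Y => trg_nonneg (fun _ => zero_le_one) Y) t _
  linarith

end Pool.Agent.Hhelper29.CG
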