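import Pool.Agent.Hhelper29.CG.RcdOneA

/-!
Quenched energy estimates: head and tail recursions.
-/

namespace Pool.Agent.Hhelper29.CG

open MeasureTheory Matrix ProbabilityTheory
open scoped ENNReal Classical

variable {n : ℕ} {p : ℝ}

/-- quenched expected family energy -/
noncomputable def EE (p : ℝ) (U : Matrix (Fin n) (Fin n) ℂ) (t : ℕ) : ℝ :=
  Ex (pwt p U) (stF p U) t (trg (fun _ => 1)) (Y0 n p)

/-- quenched expected dissipation -/
noncomputable def DD (p : ℝ) (U : Matrix (Fin n) (Fin n) ℂ) (t : ℕ) : ℝ :=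
  Ex (pwt p U) (stF p U) t (trg (fun k => xk n p k)) (Y0 n p)

/-- tail and head indicators -/
def gT (n K : ℕ) (k : Fin n) : ℝ := if K ≤ (k : ℕ) then 1 else 0
def gH (n K : ℕ) (k : Fin n) : ℝ := if (k : ℕ) < K then 1 else 0

lemma gT_nonneg (K : ℕ) (k : Fin n) : 0 ≤ gT n K k := by unfold gT; split_ifs <;> norm_num
lemma gH_nonneg (K : ℕ) (k : Fin n) : 0 ≤ gH n K k := by unfold gH; split_ifs <;> norm_num
lemma gT_le_one (K : ℕ) (k : Fin n) : gT n K k ≤ 1 := by unfold gT; split_ifs <;> norm_num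
lemma gH_le_one (K : ℕ) (k : Fin n) : gH n K k ≤ 1 := by unfold gH; split_ifs <;> norm_num

lemma gT_add_gH (K : ℕ) (k : Fin n) : gT n K k + gH n K k = 1 := by
  unfold gT gH
  by_cases h : K ≤ (k : ℕ)
  · rw [if_pos h, if_neg (not_lt.mpr h)]; norm_num
  · rw [if_neg h, if_pos (not_le.mp h)]; norm_num

lemma xk_nonneg1 (hn : 0 < n) (k : ℕ) : 0 ≤ xk n p k :=
  div_nonneg (lam_pos p k).le (tau_pos (n := n) p hn).le

section det

variable {U : Matrix (Fin n) (Fin n) ℂ}

lemma sum_DD (hn : 0 < n) (hU : U ∈ unitaryGroup (Fin n) ℂ) (T : ℕ) :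
    ∑ t ∈ Finset.range T, DD p U t = tau n p - EE p U T := sum_ex_diss_le hn hU T

lemma DD_nonneg (hn : 0 < n) (t : ℕ) : 0 ≤ DD p U t :=
  Ex_nonneg (pwt_nonneg p U) (fun Y => trg_nonneg (fun k => xk_nonneg1 hn k) Y) t _

lemma EE_nonneg (t : ℕ) : 0 ≤ EE p U t :=
  Ex_nonneg (pwt_nonneg p U) (fun Y => trg_nonneg (fun _ => zero_le_one) Y) t _

lemma EE_le_tau (hn : 0 < n) (hU : U ∈ unitaryGroup (Fin n) ℂ) (t : ℕ) : EE p U t ≤ tau n p := by
  have h := sum_DD (p := p) hn hU t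
  have h1 : 0 ≤ ∑ t ∈ Finset.range t, DD p U t := Finset.sum_nonneg fun _ _ => DD_nonneg hn _
  linarith

lemma EE_antitone (hn : 0 < n) (hU : U ∈ unitaryGroup (Fin n) ℂ) {s t : ℕ} (h : s ≤ t) :
    EE p U t ≤ EE p U s := by
  have h1 := sum_DD (p := p) hn hU s
  have h2 := sum_DD (p := p) hn hU t
  have h3 : ∑ r ∈ Finset.range s, DD p U r ≤ ∑ r ∈ Finset.range t, DD p U r :=
    Finset.sum_le_sum_of_subset_of_nonneg (Finset.range_subset_range.mpr h)
      (fun _ _ _ => DD_nonneg hn _)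
  linarith

/-- lower bound for the tail energy -/
lemma tail_lower (hn : 0 < n) (hU : U ∈ unitaryGroup (Fin n) ℂ) {K : ℕ} {S : Finset (Fin n)}
    {b h₁ xK : ℝ} (hS : ∑ i ∈ S, nsq (rowv p U i) ≤ b * tau n p) (h₁0 : 0 ≤ h₁)
    (hrow₁ : ∀ i, i ∉ S → h₁ ≤ hrow p U (gT n K) i) (hxK0 : 0 ≤ xK)
    (hxK : ∀ k : Fin n, K ≤ (k : ℕ) → xk n p k ≤ xK) (T : ℕ) :
    trg (gT n K) (Y0 n p) - 2 * xK * tau n p * T + h₁ * (tau n p - EE p U T)
      - h₁ * (b * tau n p)
      ≤ Ex (pwt p U) (stF p U) T (trg (gT n K)) (Y0 n p) := by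
  have hτ := tau_pos (n := n) p hn
  have hpop : ∀ Y, trg (gT n K) Y - 2 * xK * trg (fun _ => 1) Y
      + h₁ * trg (fun k => xk n p k) Y - (h₁ / tau n p) * ∑ i ∈ S, sraw p U i Y
      ≤ Pop (pwt p U) (stF p U) (trg (gT n K)) Y := by
    intro Y
    rw [pop_trg hn hU]
    have e1 : trg (gT n K) Y - 2 * xK * trg (fun _ => 1) Y
        ≤ trg (fun k => gT n K k * (1 - 2 * xk n p k)) Y := by
      have e2 : trg (gT n K) Y - 2 * xK * trg (fun _ => 1) Y
          = trg (fun k => gT n K k + (-(2 * xK)) * 1) Y := by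
        rw [trg_add, trg_smul]; ring
      rw [e2]
      apply trg_mono
      intro k
      unfold gT
      split_ifs with h
      · have := hxK k h; linarith
      · linarith
    have e3 : (h₁ * trg (fun k => xk n p k) Y - (h₁ / tau n p) * ∑ i ∈ S, sraw p U i Y)
        ≤ (1 / tau n p) * ∑ i, sraw p U i Y * hrow p U (gT n K) i := by
      rw [trg_xk_eq hU]
      have e4 : ∑ i, sraw p U i Y = ∑ i ∈ S, sraw p U i Y + ∑ i ∈ Sᶜ, sraw p U i Y :=
        (Finset.sum_add_sum_compl S _).symm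
      have e5 : h₁ * ∑ i ∈ Sᶜ, sraw p U i Y ≤ ∑ i, sraw p U i Y * hrow p U (gT n K) i := by
        calc h₁ * ∑ i ∈ Sᶜ, sraw p U i Y = ∑ i ∈ Sᶜ, sraw p U i Y * h₁ := by
              rw [Finset.mul_sum]; apply Finset.sum_congr rfl; intro i _; ring
          _ ≤ ∑ i ∈ Sᶜ, sraw p U i Y * hrow p U (gT n K) i := by
              apply Finset.sum_le_sum
              intro i hi
              exact mul_le_mul_of_nonneg_left (hrow₁ i (Finset.mem_compl.mp hi))
                (sraw_nonneg _ _ _ _)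
          _ ≤ _ := by
              apply Finset.sum_le_sum_of_subset_of_nonneg (Finset.subset_univ _)
              intro i _ _
              exact mul_nonneg (sraw_nonneg _ _ _ _) (hrow_nonneg _ _ (gT_nonneg K) i)
      rw [e4]
      have e6 : h₁ * (1 / tau n p * (∑ i ∈ S, sraw p U i Y + ∑ i ∈ Sᶜ, sraw p U i Y))
          - h₁ / tau n p * ∑ i ∈ S, sraw p U i Y = (1 / tau n p) * (h₁ * ∑ i ∈ Sᶜ, sraw p U i Y) := by
        ring
      rw [e6]
      exact mul_le_mul_of_nonneg_left e5 (by positivity)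
    linarith
  -- one step in expectation
  have hstep : ∀ s, Ex (pwt p U) (stF p U) s (trg (gT n K)) (Y0 n p) - 2 * xK * tau n p
      + h₁ * DD p U s - (h₁ / tau n p) * ∑ i ∈ S, Ex (pwt p U) (stF p U) s (sraw p U i) (Y0 n p)
      ≤ Ex (pwt p U) (stF p U) (s + 1) (trg (gT n K)) (Y0 n p) := by
    intro s
    rw [Ex_succ]
    have h1 := Ex_mono (st := stF p U) (pwt_nonneg p U) hpop s (Y0 n p)
    have h2 : Ex (pwt p U) (stF p U) s (fun Y => trg (gT n K) Y - 2 * xK * trg (fun _ => 1) Y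
        + h₁ * trg (fun k => xk n p k) Y - (h₁ / tau n p) * ∑ i ∈ S, sraw p U i Y) (Y0 n p)
        = Ex (pwt p U) (stF p U) s (trg (gT n K)) (Y0 n p) - 2 * xK * EE p U s
          + h₁ * DD p U s - (h₁ / tau n p) * ∑ i ∈ S, Ex (pwt p U) (stF p U) s (sraw p U i) (Y0 n p) := by
      rw [Ex_sub s (fun Y => trg (gT n K) Y - 2 * xK * trg (fun _ => 1) Y
        + h₁ * trg (fun k => xk n p k) Y) (fun Y => (h₁ / tau n p) * ∑ i ∈ S, sraw p U i Y),
        Ex_add s (fun Y => trg (gT n K) Y - 2 * xK * trg (fun _ => 1) Y)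
        (fun Y => h₁ * trg (fun k => xk n p k) Y),
        Ex_sub s (trg (gT n K)) (fun Y => 2 * xK * trg (fun _ => 1) Y), Ex_smul, Ex_smul, Ex_smul,
        Ex_sum S s (fun i => sraw p U i)]
      rfl
    rw [h2] at h1
    have h3 := EE_le_tau (p := p) hn hU s
    have h4 : 2 * xK * EE p U s ≤ 2 * xK * tau n p := mul_le_mul_of_nonneg_left h3 (by linarith)
    linarith
  have hsum : ∀ T : ℕ, trg (gT n K) (Y0 n p) - 2 * xK * tau n p * T
      + h₁ * ∑ s ∈ Finset.range T, DD p U s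
      - (h₁ / tau n p) * ∑ s ∈ Finset.range T, ∑ i ∈ S, Ex (pwt p U) (stF p U) s (sraw p U i) (Y0 n p)
      ≤ Ex (pwt p U) (stF p U) T (trg (gT n K)) (Y0 n p) := by
    intro T
    induction T with
    | zero => simp
    | succ T ih =>
      have h1 := hstep T
      rw [Finset.sum_range_succ, Finset.sum_range_succ]
      push_cast
      rw [mul_add h₁, mul_add (h₁ / tau n p), mul_add (2 * xK * tau n p)]
      linarith
  have h1 := hsum T
  rw [sum_DD hn hU] at h1
  have h2 : ∑ s ∈ Finset.range T, ∑ i ∈ S, Ex (pwt p U) (stF p U) s (sraw p U i) (Y0 n p)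
      ≤ tau n p * (b * tau n p) := by
    rw [Finset.sum_comm]
    calc ∑ i ∈ S, ∑ s ∈ Finset.range T, Ex (pwt p U) (stF p U) s (sraw p U i) (Y0 n p)
        ≤ ∑ i ∈ S, tau n p * nsq (rowv p U i) :=
          Finset.sum_le_sum fun i _ => sum_ex_rv_le hn hU (rowv p U i) T
      _ = tau n p * ∑ i ∈ S, nsq (rowv p U i) := by rw [Finset.mul_sum]
      _ ≤ _ := by gcongr
  have h3 : (h₁ / tau n p) * ∑ s ∈ Finset.range T, ∑ i ∈ S, Ex (pwt p U) (stF p U) s (sraw p U i) (Y0 n p)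
      ≤ h₁ * (b * tau n p) := by
    calc (h₁ / tau n p) * ∑ s ∈ Finset.range T, ∑ i ∈ S, Ex (pwt p U) (stF p U) s (sraw p U i) (Y0 n p)
        ≤ (h₁ / tau n p) * (tau n p * (b * tau n p)) := by gcongr
      _ = _ := by field_simp
  linarith

/-- upper bound for the tail energy -/
lemma tail_upper (hn : 0 < n) (hU : U ∈ unitaryGroup (Fin n) ℂ) {K : ℕ} {h₂ : ℝ}
    (hrow₂ : ∀ i, hrow p U (gT n K) i ≤ h₂) (T : ℕ) :
    Ex (pwt p U) (stF p U) T (trg (gT n K)) (Y0 n p) ≤
      trg (gT n K) (Y0 n p) + h₂ * (tau n p - EE p U T) := by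
  have hτ := tau_pos (n := n) p hn
  have hpop : ∀ Y, Pop (pwt p U) (stF p U) (trg (gT n K)) Y
      ≤ trg (gT n K) Y + h₂ * trg (fun k => xk n p k) Y := by
    intro Y
    rw [pop_trg hn hU]
    have e1 : trg (fun k => gT n K k * (1 - 2 * xk n p k)) Y ≤ trg (gT n K) Y := by
      apply trg_mono
      intro k
      have h1 := gT_nonneg (n := n) K k
      have h2 := xk_nonneg1 (p := p) hn k
      nlinarith
    have e2 : (1 / tau n p) * ∑ i, sraw p U i Y * hrow p U (gT n K) i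
        ≤ h₂ * trg (fun k => xk n p k) Y := by
      rw [trg_xk_eq hU]
      calc (1 / tau n p) * ∑ i, sraw p U i Y * hrow p U (gT n K) i
          ≤ (1 / tau n p) * ∑ i, sraw p U i Y * h₂ := by
            gcongr with i _
            · exact sraw_nonneg _ _ _ _
            · exact hrow₂ i
        _ = _ := by rw [← Finset.sum_mul]; ring
    linarith
  induction T with
  | zero =>
    have h1 := sum_DD (p := p) hn hU 0
    simp only [Finset.range_zero, Finset.sum_empty] at h1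
    rw [← h1]; simp
  | succ T ih =>
    rw [Ex_succ]
    have h1 := Ex_mono (st := stF p U) (pwt_nonneg p U) hpop T (Y0 n p)
    rw [Ex_add T (trg (gT n K)) (fun Y => h₂ * trg (fun k => xk n p k) Y), Ex_smul] at h1
    beta_reduce at h1
    have h2 := sum_DD (p := p) hn hU T
    have h3 := sum_DD (p := p) hn hU (T + 1)
    rw [Finset.sum_range_succ, h2] at h3
    have h4 : EE p U (T + 1) = EE p U T - DD p U T := by linarith
    rw [h4]
    have h5 : Ex (pwt p U) (stF p U) T (trg (fun k => xk n p k)) (Y0 n p) = DD p U T := rfl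
    rw [h5] at h1
    nlinarith

/-- head recursion -/
lemma head_upper (hn : 0 < n) (hU : U ∈ unitaryGroup (Fin n) ℂ) {K : ℕ} {q : ℝ} (hq0 : 0 ≤ q)
    (hq1 : q ≤ 1) (hqx : ∀ k : Fin n, (k : ℕ) < K → q ≤ 2 * xk n p k) (s m : ℕ) :
    Ex (pwt p U) (stF p U) (s + m) (trg (gH n K)) (Y0 n p) ≤
      (1 - q) ^ m * tau n p + ∑ r ∈ Finset.Ico s (s + m), DD p U r := by
  have hτ := tau_pos (n := n) p hn
  have hpop : ∀ Y, Pop (pwt p U) (stF p U) (trg (gH n K)) Y
      ≤ (1 - q) * trg (gH n K) Y + trg (fun k => xk n p k) Y := by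
    intro Y
    rw [pop_trg hn hU]
    have e1 : trg (fun k => gH n K k * (1 - 2 * xk n p k)) Y ≤ (1 - q) * trg (gH n K) Y := by
      rw [← trg_smul]
      apply trg_mono
      intro k
      unfold gH
      split_ifs with h
      · have := hqx k h; linarith
      · simp
    have e2 : (1 / tau n p) * ∑ i, sraw p U i Y * hrow p U (gH n K) i
        ≤ trg (fun k => xk n p k) Y := by
      rw [trg_xk_eq hU]
      gcongr with i _
      have h1 : hrow p U (gH n K) i ≤ 1 := by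
        rw [← hrow_one (p := p) hU i]
        exact hrow_mono p U (gH_le_one K) i
      have h2 := sraw_nonneg p U i Y
      nlinarith
    linarith
  induction m with
  | zero =>
    simp only [add_zero, pow_zero, one_mul, Finset.Ico_self, Finset.sum_empty]
    refine le_trans ?_ (EE_le_tau (p := p) hn hU s)
    exact Ex_mono (st := stF p U) (pwt_nonneg p U) (fun Y => trg_mono (gH_le_one K) Y) s _
  | succ m ih =>
    rw [← add_assoc, Ex_succ]
    have h1 := Ex_mono (st := stF p U) (pwt_nonneg p U) hpop (s + m) (Y0 n p)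
    rw [Ex_add (s + m) (fun Y => (1 - q) * trg (gH n K) Y) (trg (fun k => xk n p k)), Ex_smul] at h1
    beta_reduce at h1
    have h5 : Ex (pwt p U) (stF p U) (s + m) (trg (fun k => xk n p k)) (Y0 n p) = DD p U (s + m) := rfl
    rw [h5] at h1
    rw [Finset.sum_Ico_succ_top (Nat.le_add_right s m)]
    have h6 : 0 ≤ 1 - q := by linarith
    have h7 := mul_le_mul_of_nonneg_left ih h6
    have h8 : 0 ≤ ∑ r ∈ Finset.Ico s (s + m), DD p U r := Finset.sum_nonneg fun _ _ => DD_nonneg hn _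
    have h9 : (1 - q) * ∑ r ∈ Finset.Ico s (s + m), DD p U r ≤ ∑ r ∈ Finset.Ico s (s + m), DD p U r := by
      nlinarith
    rw [pow_succ]
    nlinarith

/-- some window has small dissipation -/
lemma exists_window (hn : 0 < n) (hU : U ∈ unitaryGroup (Fin n) ℂ) {N m : ℕ} (hN : 1 ≤ N) :
    ∃ j < N, ∑ r ∈ Finset.Ico (j * m) (j * m + m), DD p U r ≤ tau n p / N := by
  by_contra hc
  push Not at hc
  have hN0 : (0:ℝ) < N := by exact_mod_cast hN
  have h1 : tau n p < ∑ j ∈ Finset.range N, ∑ r ∈ Finset.Ico (j * m) (j * m + m), DD p U r := by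
    calc tau n p = ∑ _j ∈ Finset.range N, tau n p / N := by
          rw [Finset.sum_const, Finset.card_range, nsmul_eq_mul]; field_simp
      _ < _ := Finset.sum_lt_sum_of_nonempty ⟨0, Finset.mem_range.mpr hN⟩
          (fun j hj => hc j (Finset.mem_range.mp hj))
  have h2 : ∑ j ∈ Finset.range N, ∑ r ∈ Finset.Ico (j * m) (j * m + m), DD p U r
      = ∑ r ∈ Finset.range (N * m), DD p U r := by
    clear hc h1 hN hN0
    induction N with
    | zero => simp
    | succ N ih =>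
      rw [Finset.sum_range_succ, ih, Finset.range_eq_Ico, Finset.range_eq_Ico,
        Finset.sum_Ico_consecutive _ (Nat.zero_le _) (Nat.le_add_right _ _)]
      congr 2; ring
  have h3 := sum_DD (p := p) hn hU (N * m)
  have h4 := EE_nonneg (p := p) (U := U) (N * m)
  linarith

/-- quenched upper bound -/
theorem EE_upper (hn : 0 < n) (hU : U ∈ unitaryGroup (Fin n) ℂ) {K : ℕ} {h₂ q : ℝ}
    (h₂0 : 0 ≤ h₂) (hrow₂ : ∀ i, hrow p U (gT n K) i ≤ h₂) (hq0 : 0 ≤ q)
    (hq1 : q ≤ 1) (hqx : ∀ k : Fin n, (k : ℕ) < K → q ≤ 2 * xk n p k) {N m T : ℕ} (hN : 1 ≤ N)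
    (hT : N * m ≤ T) :
    (1 + h₂) * EE p U T ≤ trg (gT n K) (Y0 n p) + h₂ * tau n p + (1 - q) ^ m * tau n p
      + tau n p / N := by
  obtain ⟨j, hj, hw⟩ := exists_window (p := p) (m := m) hn hU hN
  set T' : ℕ := j * m + m with hT'
  have hT'T : T' ≤ T := by
    refine le_trans ?_ hT
    calc j * m + m = (j + 1) * m := by ring
      _ ≤ N * m := Nat.mul_le_mul_right m hj
  have h1 := EE_antitone (p := p) hn hU hT'T
  have h2 := tail_upper hn hU hrow₂ T'
  have h3 := head_upper hn hU hq0 hq1 hqx (j * m) m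
  have h4 : EE p U T' = Ex (pwt p U) (stF p U) T' (trg (gT n K)) (Y0 n p)
      + Ex (pwt p U) (stF p U) T' (trg (gH n K)) (Y0 n p) := by
    have e1 : (fun Y : Fin n → (Fin n → ℂ) => trg (gT n K) Y + trg (gH n K) Y) = trg (fun _ => 1) := by
      funext Y
      rw [← trg_add]
      congr 1; funext k; exact gT_add_gH K k
    have e2 := Ex_add (pw := pwt p U) (st := stF p U) T' (trg (gT n K)) (trg (gH n K))
    rw [e1] at e2
    rw [EE, e2]
  have h5 : (1 + h₂) * EE p U T' ≤ trg (gT n K) (Y0 n p) + h₂ * tau n p + (1 - q) ^ m * tau n p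
      + tau n p / N := by
    rw [← hT'] at h3
    nlinarith
  have h6 : (1 + h₂) * EE p U T ≤ (1 + h₂) * EE p U T' := mul_le_mul_of_nonneg_left h1 (by linarith)
  linarith

/-- quenched lower bound -/
theorem EE_lower (hn : 0 < n) (hU : U ∈ unitaryGroup (Fin n) ℂ) {K : ℕ} {S : Finset (Fin n)}
    {b h₁ xK : ℝ} (hS : ∑ i ∈ S, nsq (rowv p U i) ≤ b * tau n p) (h₁0 : 0 ≤ h₁)
    (hrow₁ : ∀ i, i ∉ S → h₁ ≤ hrow p U (gT n K) i) (hxK0 : 0 ≤ xK)
    (hxK : ∀ k : Fin n, K ≤ (k : ℕ) → xk n p k ≤ xK) (T : ℕ) :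
    trg (gT n K) (Y0 n p) - 2 * xK * tau n p * T + h₁ * tau n p - h₁ * (b * tau n p)
      ≤ (1 + h₁) * EE p U T := by
  have h1 := tail_lower hn hU hS h₁0 hrow₁ hxK0 hxK T
  have h2 : Ex (pwt p U) (stF p U) T (trg (gT n K)) (Y0 n p) ≤ EE p U T :=
    Ex_mono (st := stF p U) (pwt_nonneg p U) (fun Y => trg_mono (gT_le_one K) Y) T _
  nlinarith

end det

end Pool.Agent.Hhelper29.CG
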