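import Pool.Agent.Hhelper29.CG.QuadDev

/-!
Quenched probability estimates for RCD in terms of the expected family energy.
-/

namespace Pool.Agent.Hhelper29.CG

open MeasureTheory Matrix ProbabilityTheory
open scoped ENNReal Classical

variable {n : ℕ} {p : ℝ}

lemma isContr_runF (U : Matrix (Fin n) (Fin n) ℂ) (t : ℕ) (j : Fin t → Fin n)
    {Y : Fin n → (Fin n → ℂ)} (hY : IsContr Y) : IsContr (runF (stF p U) t j Y) := by
  induction t with
  | zero => exact hY
  | succ t ih => rw [runF_succ]; exact isContr_stF (ih _) _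

lemma trg_one_runF_le (U : Matrix (Fin n) (Fin n) ℂ) (t : ℕ) (j : Fin t → Fin n)
    (Y : Fin n → (Fin n → ℂ)) : trg (fun _ => 1) (runF (stF p U) t j Y) ≤ trg (fun _ => 1) Y := by
  have h : ∀ Z : Fin n → (Fin n → ℂ), trg (fun _ => 1) Z = ∑ l, nsq (Z l) := by
    intro Z; simp only [trg, nsq, one_mul]
  rw [h, h]
  apply Finset.sum_le_sum
  intro l _
  rw [runF_fam]
  exact nsq_runF_le p U t j _

section

variable {μ' : Measure (Matrix (Fin n) (Fin n) ℂ)} {σ : Measure (Fin n → ℂ)}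

/-- Chebyshev inequality for the family energy -/
lemma ex_var_le (hp : 0 ≤ p) (hn : 0 < n) {U : Matrix (Fin n) (Fin n) ℂ}
    (hU : U ∈ unitaryGroup (Fin n) ℂ) (t : ℕ) :
    Ex (pwt p U) (stF p U) t (fun Y => (trg (fun _ => 1) Y - EE p U t) ^ 2) (Y0 n p)
      ≤ 9 * tau n p := by
  have h1 := ex_trg_sq_le hp hn hU t
  set e : ℝ := EE p U t with he
  have h2 : (fun Y : Fin n → (Fin n → ℂ) => (trg (fun _ => 1) Y - e) ^ 2)
      = fun Y => ((trg (fun _ => 1) Y) ^ 2 + (-(2 * e)) * trg (fun _ => 1) Y) + e ^ 2 := by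
    funext Y; ring
  rw [h2, Ex_add t (fun Y => (trg (fun _ => 1) Y) ^ 2 + (-(2 * e)) * trg (fun _ => 1) Y)
    (fun _ => e ^ 2), Ex_add t (fun Y => (trg (fun _ => 1) Y) ^ 2)
    (fun Y => (-(2 * e)) * trg (fun _ => 1) Y), Ex_smul, Ex_const (sum_pwt p hn hU)]
  beta_reduce
  have h3 : Ex (pwt p U) (stF p U) t (trg (fun _ => 1)) (Y0 n p) = e := rfl
  rw [h3] at h1 ⊢
  nlinarith

/-- the average over `w` of a path functional -/
lemma int_paths (U : Matrix (Fin n) (Fin n) ℂ) (hn : 0 < n) (hU : U ∈ unitaryGroup (Fin n) ℂ) (t : ℕ)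
    (R : Set ((Fin n → ℂ) × (Fin n → ℂ))) (hR : MeasurableSet R)
    {G : (Fin n → (Fin n → ℂ)) → ℝ} {δ : ℝ} (hδ : 0 ≤ δ) (hG : ∀ Y, 0 ≤ G Y)
    (h : ∀ j : Fin t → Fin n,
      σ {w | (y0 p w, ∑ l, w l • runF (stF p U) t j (Y0 n p) l) ∈ R} ≤
        ENNReal.ofReal (G (runF (stF p U) t j (Y0 n p)) + δ)) :
    ∫⁻ w, ENNReal.ofReal (Ex (pwt p U) (stp p U) t
        (fun y => if (y0 p w, y) ∈ R then 1 else 0) (y0 p w)) ∂σ
      ≤ ENNReal.ofReal (Ex (pwt p U) (stF p U) t G (Y0 n p) + δ) := by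
  have hset : ∀ j : Fin t → Fin n,
      MeasurableSet {w : Fin n → ℂ | (y0 p w, ∑ l, w l • runF (stF p U) t j (Y0 n p) l) ∈ R} := by
    intro j
    have hm : Measurable (fun w : Fin n → ℂ => ∑ l, w l • runF (stF p U) t j (Y0 n p) l) := by
      apply Finset.measurable_sum
      intro l _
      fun_prop
    exact ((measurable_y0 (n := n) p).prodMk hm) hR
  have h1 : ∀ w : Fin n → ℂ, ENNReal.ofReal (Ex (pwt p U) (stp p U) t
        (fun y => if (y0 p w, y) ∈ R then 1 else 0) (y0 p w))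
      = ∑ j : Fin t → Fin n, ENNReal.ofReal (∏ k, pwt p U (j k)) *
        ({w : Fin n → ℂ | (y0 p w, ∑ l, w l • runF (stF p U) t j (Y0 n p) l) ∈ R}.indicator 1 w) := by
    intro w
    rw [Ex_eq_sum, ENNReal.ofReal_sum_of_nonneg]
    · apply Finset.sum_congr rfl
      intro j _
      rw [ENNReal.ofReal_mul (Finset.prod_nonneg fun k _ => pwt_nonneg p U _), runF_y0]
      congr 1
      by_cases hw : (y0 p w, ∑ l, w l • runF (stF p U) t j (Y0 n p) l) ∈ R
      · rw [if_pos hw, Set.indicator_of_mem (show w ∈ {w : Fin n → ℂ | (y0 p w, ∑ l, w l • runF (stF p U) t j (Y0 n p) l) ∈ R} from hw)]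
        simp
      · rw [if_neg hw, Set.indicator_of_notMem (show w ∉ {w : Fin n → ℂ | (y0 p w, ∑ l, w l • runF (stF p U) t j (Y0 n p) l) ∈ R} from hw)]
        simp
    · intro j _
      exact mul_nonneg (Finset.prod_nonneg fun k _ => pwt_nonneg p U _) (by split_ifs <;> norm_num)
  rw [lintegral_congr h1, lintegral_finsetSum _ (fun j _ => (measurable_one.indicator (hset j)).const_mul _)]
  have hw1 : ∑ j : Fin t → Fin n, ∏ k, pwt p U (j k) = 1 := by
    have h := Ex_eq_sum (pw := pwt p U) (st := stF p U) t (fun _ => 1) (Y0 n p)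
    rw [Ex_const (sum_pwt p hn hU)] at h
    simpa using h.symm
  calc ∑ j : Fin t → Fin n, ∫⁻ w, ENNReal.ofReal (∏ k, pwt p U (j k)) *
        ({w : Fin n → ℂ | (y0 p w, ∑ l, w l • runF (stF p U) t j (Y0 n p) l) ∈ R}.indicator 1 w) ∂σ
      ≤ ∑ j : Fin t → Fin n, ENNReal.ofReal ((∏ k, pwt p U (j k)) *
          (G (runF (stF p U) t j (Y0 n p)) + δ)) := by
        apply Finset.sum_le_sum
        intro j _
        rw [lintegral_const_mul _ (measurable_one.indicator (hset j)), lintegral_indicator_one (hset j),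
          ENNReal.ofReal_mul (Finset.prod_nonneg fun k _ => pwt_nonneg p U _)]
        exact mul_le_mul_right (h j) _
    _ = ENNReal.ofReal (∑ j : Fin t → Fin n, (∏ k, pwt p U (j k)) *
          (G (runF (stF p U) t j (Y0 n p)) + δ)) := by
        rw [ENNReal.ofReal_sum_of_nonneg]
        intro j _
        exact mul_nonneg (Finset.prod_nonneg fun k _ => pwt_nonneg p U _) (add_nonneg (hG _) hδ)
    _ = _ := by
        congr 1
        simp only [mul_add, Finset.sum_add_distrib]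
        rw [← Finset.sum_mul, hw1, one_mul, ← Ex_eq_sum]

/-- quenched lower tail -/
theorem int_lower (hμ : IsHaarU μ') (hσ : IsUnif σ) (hn : 0 < n) (hp : 0 ≤ p) {ε c : ℝ} (hε0 : 0 ≤ ε)
    (hε1 : ε ≤ 1) (hc : 0 < c) {U : Matrix (Fin n) (Fin n) ℂ} (hU : U ∈ unitaryGroup (Fin n) ℂ)
    {t : ℕ} (hE : (ε + 2 * c) * tau n p ≤ EE p U t) :
    ∫⁻ w, ENNReal.ofReal (Ex (pwt p U) (stp p U) t
        (fun y => if (y0 p w, y) ∈ {q : (Fin n → ℂ) × (Fin n → ℂ) | nsq q.2 ≤ ε * nsq q.1}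
          then 1 else 0) (y0 p w)) ∂σ
      ≤ ENNReal.ofReal (9 / (c ^ 2 * tau n p) + Real.exp (-(c ^ 2 * tau n p / 16))) := by
  have := hσ.prob
  have hτ := tau_pos (n := n) p hn
  set δ : ℝ := Real.exp (-(c ^ 2 * tau n p / 16)) with hδ
  have hδ0 : 0 < δ := Real.exp_pos _
  set e : ℝ := EE p U t with he
  set G : (Fin n → (Fin n → ℂ)) → ℝ := fun Y => (1 / (c * tau n p) ^ 2) * (trg (fun _ => 1) Y - e) ^ 2 with hG
  have h1 := int_paths (σ := σ) U hn hU t _ (measurableSet_le' ε) (G := G) hδ0.le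
    (fun Y => by rw [hG]; positivity) (by
      intro j
      set Y := runF (stF p U) t j (Y0 n p) with hY
      have hYc : IsContr Y := isContr_runF U t j (isContr_Y0 hp)
      have hYt : trg (fun _ => 1) Y ≤ tau n p := by
        rw [← trg_one_Y0]; exact trg_one_runF_le U t j _
      by_cases hcase : (ε + c) * tau n p ≤ trg (fun _ => 1) Y
      · refine (path_lower hμ hσ hn hp hε0 hε1 hc hYc hcase hYt).trans
          (ENNReal.ofReal_le_ofReal ?_)
        have : 0 ≤ G Y := by rw [hG]; positivity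
        linarith
      · refine prob_le_one.trans ?_
        rw [← ENNReal.ofReal_one]
        apply ENNReal.ofReal_le_ofReal
        have h2 : c * tau n p ≤ e - trg (fun _ => 1) Y := by
          push Not at hcase
          linarith
        have h3 : (c * tau n p) ^ 2 ≤ (trg (fun _ => 1) Y - e) ^ 2 := by
          have : (trg (fun _ => 1) Y - e) ^ 2 = (e - trg (fun _ => 1) Y) ^ 2 := by ring
          rw [this]
          exact pow_le_pow_left₀ (by positivity) h2 2
        have h4 : 1 ≤ G Y := by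
          rw [hG]; beta_reduce
          rw [one_div, inv_mul_eq_div, le_div_iff₀ (by positivity), one_mul]
          exact h3
        linarith)
  refine h1.trans (ENNReal.ofReal_le_ofReal ?_)
  have h2 := ex_var_le hp hn hU t
  rw [hG, Ex_smul]
  beta_reduce
  have h3 : 1 / (c * tau n p) ^ 2 * Ex (pwt p U) (stF p U) t
      (fun Y => (trg (fun _ => 1) Y - e) ^ 2) (Y0 n p) ≤ 9 / (c ^ 2 * tau n p) := by
    calc 1 / (c * tau n p) ^ 2 * Ex (pwt p U) (stF p U) t (fun Y => (trg (fun _ => 1) Y - e) ^ 2) (Y0 n p)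
        ≤ 1 / (c * tau n p) ^ 2 * (9 * tau n p) := by gcongr
      _ = 9 / (c ^ 2 * tau n p) := by field_simp
  linarith

/-- quenched upper tail -/
theorem int_upper (hμ : IsHaarU μ') (hσ : IsUnif σ) (hn : 0 < n) (hp : 0 ≤ p) {ε c : ℝ} (hε0 : 0 ≤ ε)
    (hε1 : ε ≤ 1) (hc : 0 < c) {U : Matrix (Fin n) (Fin n) ℂ} (hU : U ∈ unitaryGroup (Fin n) ℂ)
    {t : ℕ} (hE : EE p U t ≤ (ε - 2 * c) * tau n p) :
    ∫⁻ w, ENNReal.ofReal (Ex (pwt p U) (stp p U) t
        (fun y => if (y0 p w, y) ∈ {q : (Fin n → ℂ) × (Fin n → ℂ) | ε * nsq q.1 < nsq q.2}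
          then 1 else 0) (y0 p w)) ∂σ
      ≤ ENNReal.ofReal (9 / (c ^ 2 * tau n p) + Real.exp (-(c ^ 2 * tau n p / 16))) := by
  have := hσ.prob
  have hτ := tau_pos (n := n) p hn
  set δ : ℝ := Real.exp (-(c ^ 2 * tau n p / 16)) with hδ
  have hδ0 : 0 < δ := Real.exp_pos _
  set e : ℝ := EE p U t with he
  set G : (Fin n → (Fin n → ℂ)) → ℝ := fun Y => (1 / (c * tau n p) ^ 2) * (trg (fun _ => 1) Y - e) ^ 2 with hG
  have h1 := int_paths (σ := σ) U hn hU t _ (measurableSet_gt ε) (G := G) hδ0.le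
    (fun Y => by rw [hG]; positivity) (by
      intro j
      set Y := runF (stF p U) t j (Y0 n p) with hY
      have hYc : IsContr Y := isContr_runF U t j (isContr_Y0 hp)
      by_cases hcase : trg (fun _ => 1) Y ≤ (ε - c) * tau n p
      · refine (path_upper hμ hσ hn hp hε0 hε1 hc hYc hcase).trans
          (ENNReal.ofReal_le_ofReal ?_)
        have : 0 ≤ G Y := by rw [hG]; positivity
        linarith
      · refine prob_le_one.trans ?_
        rw [← ENNReal.ofReal_one]
        apply ENNReal.ofReal_le_ofReal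
        have h2 : c * tau n p ≤ trg (fun _ => 1) Y - e := by
          push Not at hcase
          linarith
        have h3 : (c * tau n p) ^ 2 ≤ (trg (fun _ => 1) Y - e) ^ 2 :=
          pow_le_pow_left₀ (by positivity) h2 2
        have h4 : 1 ≤ G Y := by
          rw [hG]; beta_reduce
          rw [one_div, inv_mul_eq_div, le_div_iff₀ (by positivity), one_mul]
          exact h3
        linarith)
  refine h1.trans (ENNReal.ofReal_le_ofReal ?_)
  have h2 := ex_var_le hp hn hU t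
  rw [hG, Ex_smul]
  beta_reduce
  have h3 : 1 / (c * tau n p) ^ 2 * Ex (pwt p U) (stF p U) t
      (fun Y => (trg (fun _ => 1) Y - e) ^ 2) (Y0 n p) ≤ 9 / (c ^ 2 * tau n p) := by
    calc 1 / (c * tau n p) ^ 2 * Ex (pwt p U) (stF p U) t (fun Y => (trg (fun _ => 1) Y - e) ^ 2) (Y0 n p)
        ≤ 1 / (c * tau n p) ^ 2 * (9 * tau n p) := by gcongr
      _ = 9 / (c ^ 2 * tau n p) := by field_simp
  linarith

end

end Pool.Agent.Hhelper29.CG
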