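import Pool.Agent.Hhelper29.CG.RcdOneC

/-!
Row statistics of Haar unitary matrices, `p = 1`.
-/

namespace Pool.Agent.Hhelper29.CG

open MeasureTheory Matrix ProbabilityTheory
open scoped ENNReal Classical

variable {n : ℕ} {p : ℝ}

/-- the vector of the `i`-th row -/
noncomputable def ru (U : Matrix (Fin n) (Fin n) ℂ) (i : Fin n) : Fin n → ℂ := Uᴴ *ᵥ Pi.single i 1

lemma nsq_ru {U : Matrix (Fin n) (Fin n) ℂ} (hU : U ∈ unitaryGroup (Fin n) ℂ) (i : Fin n) :
    nsq (ru U i) = 1 := by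
  rw [ru, nsq_mulVec (conjTranspose_mem_unitary hU)]; exact nsq_single i

lemma nsq_rowv_ru (p : ℝ) (U : Matrix (Fin n) (Fin n) ℂ) (i : Fin n) :
    nsq (rowv p U i) = wsq (lamF n p) (ru U i) := by
  rw [rowv_eq, nsq_y0_wsq]; rfl

lemma norm_y0_sq (p : ℝ) (u : Fin n → ℂ) (k : Fin n) : ‖y0 p u k‖ ^ 2 = lam p k * ‖u k‖ ^ 2 := by
  rw [y0, norm_mul, mul_pow, Complex.norm_real, Real.norm_eq_abs, sq_abs,
    Real.sq_sqrt (lam_pos p k).le]

lemma hrow_ru (p : ℝ) (U : Matrix (Fin n) (Fin n) ℂ) (K : ℕ) (i : Fin n) :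
    hrow p U (gT n K) i = wsq (lamK n p K) (ru U i) / wsq (lamF n p) (ru U i) := by
  rw [hrow, nsq_rowv_ru]
  congr 1
  rw [wsq]
  apply Finset.sum_congr rfl
  intro k _
  rw [rowv_eq, norm_y0_sq]
  show gT n K k * (lam p k * ‖ru U i k‖ ^ 2) = gK n K k * lam p k * ‖ru U i k‖ ^ 2
  have : gT n K k = gK n K k := rfl
  rw [this]; ring

/-- tail sums of the eigenvalues -/
noncomputable def HK (n K : ℕ) (p : ℝ) : ℝ := ∑ k, lamK n p K k

lemma HK_nonneg (n K : ℕ) (p : ℝ) : 0 ≤ HK n K p :=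
  Finset.sum_nonneg fun k _ => mul_nonneg (gK_nonneg n K k) (lam_pos p k).le

lemma HK_le_tau (n K : ℕ) (p : ℝ) : HK n K p ≤ tau n p := by
  unfold HK tau lamK
  apply Finset.sum_le_sum
  intro k _
  have h1 := gK_le_one n K k
  have h2 := lam_pos p k
  nlinarith

lemma trg_gT_Y0 (K : ℕ) : trg (gT n K) (Y0 n p) = HK n K p := by
  rw [trg_Y0]; rfl

lemma lamK_nonneg (p : ℝ) (K : ℕ) (k : Fin n) : 0 ≤ lamK n p K k :=
  mul_nonneg (gK_nonneg n K k) (lam_pos p k).le

lemma lamK_one_le (K : ℕ) (hK : 1 ≤ K) (k : Fin n) : lamK n 1 K k ≤ 1 / K := by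
  have hK0 : (0:ℝ) < K := by exact_mod_cast hK
  unfold lamK gK
  split_ifs with h
  · rw [one_mul, lam_one]
    apply one_div_le_one_div_of_le hK0
    have : (K : ℝ) ≤ (k : ℕ) := by exact_mod_cast h
    linarith
  · rw [zero_mul]; positivity

lemma one_le_tau_one (hn : 0 < n) : 1 ≤ tau n 1 := by
  have h1 : lam 1 ((⟨0, hn⟩ : Fin n) : ℕ) ≤ tau n 1 := lam_le_tau 1 ⟨0, hn⟩
  simpa [lam] using h1

section

variable {μ : Measure (Matrix (Fin n) (Fin n) ℂ)} {σ : Measure (Fin n → ℂ)}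

lemma row_lower_dev (hμ : IsHaarU μ) (hσ : IsUnif σ) (hn : 0 < n) {K : ℕ} (hK : 1 ≤ K) (hKn : K ≤ n)
    {ι : ℝ} (hι : 0 < ι) (hι1 : ι ≤ 1) :
    σ {u | wsq (lamK n 1 K) u < (HK n K 1 - ι * tau n 1) / n * nsq u} ≤
      ENNReal.ofReal (Real.exp (-(ι ^ 2 * K / 72))) := by
  have hn0 : (0:ℝ) < n := by exact_mod_cast hn
  have hK0 : (0:ℝ) < K := by exact_mod_cast hK
  have hKn' : (K : ℝ) ≤ n := by exact_mod_cast hKn
  have hτ1 := one_le_tau_one hn
  set τ : ℝ := tau n 1 with hτ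
  set H : ℝ := HK n K 1 with hH
  have hH0 : 0 ≤ H := HK_nonneg n K 1
  have hHτ : H ≤ τ := HK_le_tau n K 1
  set c : Fin n → ℝ := fun k => (H - ι * τ) / n - lamK n 1 K k with hc
  have hset : {u : Fin n → ℂ | wsq (lamK n 1 K) u < (H - ι * τ) / n * nsq u} = {u | 0 < wsq c u} := by
    ext u
    show wsq (lamK n 1 K) u < (H - ι * τ) / n * nsq u ↔ 0 < wsq c u
    have : wsq c u = (H - ι * τ) / n * nsq u - wsq (lamK n 1 K) u := by
      simp only [wsq, nsq, hc]
      rw [Finset.mul_sum, ← Finset.sum_sub_distrib]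
      apply Finset.sum_congr rfl; intro k _; ring
    rw [this, sub_pos]
  rw [hset]
  have habs1 : |H - ι * τ| ≤ 2 * τ := by
    rw [abs_le]; constructor <;> nlinarith
  have hτK : τ / n ≤ τ / K := by gcongr
  have h1K : 1 / (K : ℝ) ≤ τ / K := by gcongr
  have hcB : ∀ k, |c k| ≤ 3 * τ / K := by
    intro k
    have h1 := lamK_one_le (n := n) K hK k
    have h2 := lamK_nonneg (n := n) 1 K k
    have h3 : |(H - ι * τ) / n| ≤ 2 * (τ / n) := by
      rw [abs_div, abs_of_pos hn0, ← mul_div_assoc]; gcongr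
    have h4 := abs_sub (( H - ι * τ) / n) (lamK n 1 K k)
    rw [abs_of_nonneg h2] at h4
    calc |c k| ≤ |(H - ι * τ) / n| + lamK n 1 K k := h4
      _ ≤ 2 * (τ / K) + τ / K := by linarith
      _ = 3 * τ / K := by ring
  have hcA : ∑ k, |c k| ≤ 3 * τ := by
    calc ∑ k, |c k| ≤ ∑ k, (|H - ι * τ| / n + lamK n 1 K k) := by
          apply Finset.sum_le_sum
          intro k _
          have h2 := lamK_nonneg (n := n) 1 K k
          have h4 := abs_sub (( H - ι * τ) / n) (lamK n 1 K k)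
          rw [abs_of_nonneg h2, abs_div, abs_of_pos hn0] at h4
          exact h4
      _ = |H - ι * τ| + H := by
          rw [Finset.sum_add_distrib, Finset.sum_const, Finset.card_univ, Fintype.card_fin,
            nsmul_eq_mul]
          rw [hH]; unfold HK; field_simp
      _ ≤ 3 * τ := by linarith
  have hcv : ∑ k, c k ≤ -(ι * τ) := by
    simp only [hc]
    rw [Finset.sum_sub_distrib, Finset.sum_const, Finset.card_univ, Fintype.card_fin, nsmul_eq_mul]
    have : ∑ k, lamK n 1 K k = H := rfl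
    rw [this, mul_div_cancel₀ _ hn0.ne']; linarith
  have h := unif_neg_mean hμ hσ hn c (show 0 < 3 * τ / K by positivity)
    (show 0 < ι * τ by positivity) hcB hcA hcv
  refine h.trans (ENNReal.ofReal_le_ofReal (Real.exp_le_exp.mpr (le_of_eq ?_)))
  field_simp; norm_num

lemma row_upper_dev (hμ : IsHaarU μ) (hσ : IsUnif σ) (hn : 0 < n) {K : ℕ} (hK : 1 ≤ K) (hKn : K ≤ n)
    {ι : ℝ} (hι : 0 < ι) (hι1 : ι ≤ 1) :
    σ {u | (HK n K 1 + ι * tau n 1) / n * nsq u < wsq (lamK n 1 K) u} ≤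
      ENNReal.ofReal (Real.exp (-(ι ^ 2 * K / 72))) := by
  have hn0 : (0:ℝ) < n := by exact_mod_cast hn
  have hK0 : (0:ℝ) < K := by exact_mod_cast hK
  have hKn' : (K : ℝ) ≤ n := by exact_mod_cast hKn
  have hτ1 := one_le_tau_one hn
  set τ : ℝ := tau n 1 with hτ
  set H : ℝ := HK n K 1 with hH
  have hH0 : 0 ≤ H := HK_nonneg n K 1
  have hHτ : H ≤ τ := HK_le_tau n K 1
  set c : Fin n → ℝ := fun k => lamK n 1 K k - (H + ι * τ) / n with hc
  have hset : {u : Fin n → ℂ | (H + ι * τ) / n * nsq u < wsq (lamK n 1 K) u} = {u | 0 < wsq c u} := by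
    ext u
    show (H + ι * τ) / n * nsq u < wsq (lamK n 1 K) u ↔ 0 < wsq c u
    have : wsq c u = wsq (lamK n 1 K) u - (H + ι * τ) / n * nsq u := by
      simp only [wsq, nsq, hc]
      rw [Finset.mul_sum, ← Finset.sum_sub_distrib]
      apply Finset.sum_congr rfl; intro k _; ring
    rw [this, sub_pos]
  rw [hset]
  have habs0 : 0 ≤ H + ι * τ := by positivity
  have habs1 : H + ι * τ ≤ 2 * τ := by nlinarith
  have hτK : τ / n ≤ τ / K := by gcongr
  have h1K : 1 / (K : ℝ) ≤ τ / K := by gcongr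
  have hcB : ∀ k, |c k| ≤ 3 * τ / K := by
    intro k
    have h1 := lamK_one_le (n := n) K hK k
    have h2 := lamK_nonneg (n := n) 1 K k
    have h3 : (H + ι * τ) / n ≤ 2 * (τ / n) := by rw [← mul_div_assoc]; gcongr
    have h3' : 0 ≤ (H + ι * τ) / n := by positivity
    have h4 : |c k| ≤ lamK n 1 K k + (H + ι * τ) / n := by
      rw [hc]; beta_reduce
      rw [abs_le]; constructor <;> linarith
    calc |c k| ≤ lamK n 1 K k + (H + ι * τ) / n := h4
      _ ≤ τ / K + 2 * (τ / K) := by linarith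
      _ = 3 * τ / K := by ring
  have hcA : ∑ k, |c k| ≤ 3 * τ := by
    calc ∑ k, |c k| ≤ ∑ k, (lamK n 1 K k + (H + ι * τ) / n) := by
          apply Finset.sum_le_sum
          intro k _
          have h2 := lamK_nonneg (n := n) 1 K k
          have h3' : 0 ≤ (H + ι * τ) / n := by positivity
          rw [hc]; beta_reduce
          rw [abs_le]; constructor <;> linarith
      _ = H + (H + ι * τ) := by
          rw [Finset.sum_add_distrib, Finset.sum_const, Finset.card_univ, Fintype.card_fin,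
            nsmul_eq_mul]
          rw [hH]; unfold HK; field_simp
      _ ≤ 3 * τ := by linarith
  have hcv : ∑ k, c k ≤ -(ι * τ) := by
    simp only [hc]
    rw [Finset.sum_sub_distrib, Finset.sum_const, Finset.card_univ, Fintype.card_fin, nsmul_eq_mul]
    have : ∑ k, lamK n 1 K k = H := rfl
    rw [this, mul_div_cancel₀ _ hn0.ne']; linarith
  have h := unif_neg_mean hμ hσ hn c (show 0 < 3 * τ / K by positivity)
    (show 0 < ι * τ by positivity) hcB hcA hcv
  refine h.trans (ENNReal.ofReal_le_ofReal (Real.exp_le_exp.mpr (le_of_eq ?_)))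
  field_simp; norm_num

lemma row_total_dev (hμ : IsHaarU μ) (hσ : IsUnif σ) (hn : 0 < n) {v : ℝ} (hv0 : 0 ≤ v)
    (hvn : v ≤ n) :
    σ {u | v / n * nsq u < wsq (lamF n 1) u} ≤
      ENNReal.ofReal (Real.exp ((tau n 1 - v) / 2 + 1 + v ^ 2 / (2 * n))) := by
  have hn0 : (0:ℝ) < n := by exact_mod_cast hn
  set τ : ℝ := tau n 1 with hτ
  set c : Fin n → ℝ := fun k => lamF n 1 k - v / n with hc
  have hset : {u : Fin n → ℂ | v / n * nsq u < wsq (lamF n 1) u} = {u | 0 < wsq c u} := by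
    ext u
    show v / n * nsq u < wsq (lamF n 1) u ↔ 0 < wsq c u
    have : wsq c u = wsq (lamF n 1) u - v / n * nsq u := by
      simp only [wsq, nsq, hc]
      rw [Finset.mul_sum, ← Finset.sum_sub_distrib]
      apply Finset.sum_congr rfl; intro k _; ring
    rw [this, sub_pos]
  rw [hset]
  have hvn' : v / n ≤ 1 := by rw [div_le_one hn0]; exact hvn
  have hv0' : 0 ≤ v / n := by positivity
  have hcabs : ∀ k, |c k| ≤ 1 := by
    intro k
    have h1 : lamF n 1 k ≤ 1 := lam_le_one zero_le_one k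
    have h2 : 0 < lamF n 1 k := lam_pos 1 k
    rw [hc]; beta_reduce
    rw [abs_le]; constructor <;> linarith
  have h := unif_cone_dev hμ hσ hn c (θ := 1 / 2) (by norm_num) (fun k => by
    have := hcabs k; linarith)
  refine h.trans (ENNReal.ofReal_le_ofReal (Real.exp_le_exp.mpr ?_))
  have h1 : ∑ k, c k = τ - v := by
    simp only [hc]
    rw [Finset.sum_sub_distrib, Finset.sum_const, Finset.card_univ, Fintype.card_fin, nsmul_eq_mul,
      mul_div_cancel₀ _ hn0.ne']
    rfl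
  have h2 : ∑ k, c k ^ 2 ≤ 2 + v ^ 2 / n := by
    calc ∑ k, c k ^ 2 ≤ ∑ k : Fin n, (lam 1 k ^ 2 + (v / n) ^ 2) := by
          apply Finset.sum_le_sum
          intro k _
          have h3 : 0 < lam 1 k := lam_pos 1 k
          have : c k = lam 1 k - v / n := rfl
          rw [this]
          nlinarith [mul_nonneg h3.le hv0']
      _ = ∑ k : Fin n, lam 1 k ^ 2 + v ^ 2 / n := by
          rw [Finset.sum_add_distrib, Finset.sum_const, Finset.card_univ, Fintype.card_fin,
            nsmul_eq_mul]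
          field_simp
      _ ≤ 2 + v ^ 2 / n := by
          have := sum_lam_one_sq_le n
          linarith
  rw [h1]
  have h3 : v ^ 2 / (2 * n) = v ^ 2 / n / 2 := by rw [div_div]; congr 1; ring
  rw [h3]
  nlinarith

/-- law of one row -/
lemma haar_row_prob (hμ : IsHaarU μ) (hσ : IsUnif σ) (i : Fin n) {E : Set (Fin n → ℂ)}
    (hE : MeasurableSet E) : μ {M | ru M i ∈ E} = σ E := by
  have h := haar_adj_eq hμ hσ (f := E.indicator 1) (measurable_one.indicator hE) (Pi.single i 1)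
    (nsq_single i)
  rw [lintegral_indicator_one hE] at h
  rw [← h]
  have hm : MeasurableSet {M : Matrix (Fin n) (Fin n) ℂ | ru M i ∈ E} :=
    measurable_adj_mulVec_left (Pi.single i 1) hE
  rw [← lintegral_indicator_one hm]
  rfl

lemma haar_rows_union (hμ : IsHaarU μ) (hσ : IsUnif σ) {E : Set (Fin n → ℂ)}
    (hE : MeasurableSet E) : μ (⋃ i : Fin n, {M | ru M i ∈ E}) ≤ n * σ E := by
  calc μ (⋃ i : Fin n, {M | ru M i ∈ E}) ≤ ∑ i : Fin n, μ {M | ru M i ∈ E} :=
        measure_iUnion_fintype_le _ _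
    _ = ∑ _i : Fin n, σ E := Finset.sum_congr rfl fun i _ => haar_row_prob hμ hσ i hE
    _ = n * σ E := by simp

/-- Markov inequality for the number of rows in a set -/
lemma haar_rows_count (hμ : IsHaarU μ) (hσ : IsUnif σ) {E : Set (Fin n → ℂ)}
    (hE : MeasurableSet E) {x : ℝ} (hx : 0 < x) :
    μ {M | x ≤ ((Finset.univ.filter fun i : Fin n => ru M i ∈ E).card : ℝ)} ≤
      n * σ E / ENNReal.ofReal x := by
  have hm : ∀ i : Fin n, MeasurableSet {M : Matrix (Fin n) (Fin n) ℂ | ru M i ∈ E} := fun i =>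
    measurable_adj_mulVec_left (Pi.single i 1) hE
  set f : Matrix (Fin n) (Fin n) ℂ → ℝ≥0∞ := fun M =>
    ∑ i : Fin n, {M : Matrix (Fin n) (Fin n) ℂ | ru M i ∈ E}.indicator 1 M with hf
  have hfm : Measurable f := Finset.measurable_sum _ fun i _ => measurable_one.indicator (hm i)
  have hfint : ∫⁻ M, f M ∂μ = n * σ E := by
    rw [hf, lintegral_finsetSum _ (fun i _ => measurable_one.indicator (hm i))]
    calc ∑ i : Fin n, ∫⁻ M, {M : Matrix (Fin n) (Fin n) ℂ | ru M i ∈ E}.indicator 1 M ∂μ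
        = ∑ _i : Fin n, σ E := by
          apply Finset.sum_congr rfl
          intro i _
          rw [lintegral_indicator_one (hm i), haar_row_prob hμ hσ i hE]
      _ = n * σ E := by simp
  have hfc : ∀ M, f M = ((Finset.univ.filter fun i : Fin n => ru M i ∈ E).card : ℝ≥0∞) := by
    intro M
    rw [hf, Finset.card_filter]
    push_cast
    apply Finset.sum_congr rfl
    intro i _
    by_cases h : ru M i ∈ E
    · rw [if_pos h, Set.indicator_of_mem (show M ∈ {M : Matrix (Fin n) (Fin n) ℂ | ru M i ∈ E} from h)]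
      rfl
    · rw [if_neg h, Set.indicator_of_notMem (show M ∉ {M : Matrix (Fin n) (Fin n) ℂ | ru M i ∈ E} from h)]
  have h1 := mul_meas_ge_le_lintegral (μ := μ) hfm (ENNReal.ofReal x)
  rw [hfint] at h1
  rw [ENNReal.le_div_iff_mul_le (Or.inl (by simpa using hx)) (Or.inl ENNReal.ofReal_ne_top), mul_comm]
  refine le_trans ?_ h1
  apply mul_le_mul_right
  apply measure_mono
  intro M hM
  have hM' : x ≤ ((Finset.univ.filter fun i : Fin n => ru M i ∈ E).card : ℝ) := hM
  show ENNReal.ofReal x ≤ f M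
  rw [hfc, ← ENNReal.ofReal_natCast]
  exact ENNReal.ofReal_le_ofReal hM'

end

end Pool.Agent.Hhelper29.CG
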