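import Pool.Agent.Hhelper29.CG.RcdOneD

/-!
Preparations for the RCD stopping time at `p = 1`.
-/

namespace Pool.Agent.Hhelper29.CG

open MeasureTheory Matrix ProbabilityTheory Filter
open scoped ENNReal Classical Topology

variable {n : ℕ} {p : ℝ}

lemma HK_one_eq {K : ℕ} (hKn : K ≤ n) : HK n K 1 = ∑ k ∈ Finset.Ico K n, 1 / ((k : ℝ) + 1) := by
  unfold HK lamK gK
  rw [Fin.sum_univ_eq_sum_range (fun k : ℕ => (if K ≤ k then (1:ℝ) else 0) * lam 1 k) n,
    Finset.range_eq_Ico, ← Finset.sum_Ico_consecutive _ (Nat.zero_le K) hKn]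
  have h2 : ∑ k ∈ Finset.Ico 0 K, (if K ≤ k then (1:ℝ) else 0) * lam 1 k = 0 := by
    apply Finset.sum_eq_zero
    intro k hk
    rw [Finset.mem_Ico] at hk
    rw [if_neg (by omega), zero_mul]
  rw [h2, zero_add]
  apply Finset.sum_congr rfl
  intro k hk
  rw [Finset.mem_Ico] at hk
  rw [if_pos hk.1, one_mul, lam_one]

lemma HK_one_ge {K : ℕ} (hKn : K ≤ n) : Real.log (((n : ℝ) + 1) / (K + 1)) ≤ HK n K 1 := by
  rw [HK_one_eq hKn]; exact le_sum_Ico_inv hKn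

lemma HK_one_le {K : ℕ} (hK : 1 ≤ K) (hKn : K ≤ n) : HK n K 1 ≤ Real.log (n / K) := by
  rw [HK_one_eq hKn]; exact sum_Ico_inv_le hK hKn

lemma tau_one_ge (n : ℕ) : Real.log ((n : ℝ) + 1) ≤ tau n 1 := log_le_tau_one n

lemma tau_one_le' (hn : 0 < n) : tau n 1 ≤ 1 + Real.log n := tau_one_le hn

/-- lower bound of the tail sum when `K ≤ n^θ` -/
lemma HK_ge_of_le {K : ℕ} (hK1 : 1 ≤ K) (hKn : K ≤ n) {θ : ℝ} (hK : (K : ℝ) ≤ (n : ℝ) ^ θ) (hn : 0 < n) :
    (1 - θ) * Real.log n - 1 ≤ HK n K 1 := by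
  have hn0 : (0:ℝ) < n := by exact_mod_cast hn
  have hK0 : (1:ℝ) ≤ K := by exact_mod_cast hK1
  refine le_trans ?_ (HK_one_ge hKn)
  have h1 : (n : ℝ) / (2 * (n : ℝ) ^ θ) ≤ ((n : ℝ) + 1) / (K + 1) := by
    rw [div_le_div_iff₀ (by positivity) (by positivity)]
    have : (K : ℝ) + 1 ≤ 2 * (n : ℝ) ^ θ := by linarith
    calc (n : ℝ) * (K + 1) ≤ n * (2 * (n : ℝ) ^ θ) := by gcongr
      _ ≤ (n + 1) * (2 * (n : ℝ) ^ θ) := by gcongr; linarith
  have h2 := Real.log_le_log (by positivity) h1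
  have h3 : Real.log ((n : ℝ) / (2 * (n : ℝ) ^ θ)) = (1 - θ) * Real.log n - Real.log 2 := by
    rw [Real.log_div (by positivity) (by positivity), Real.log_mul (by norm_num) (by positivity),
      Real.log_rpow hn0]
    ring
  have h4 : Real.log 2 ≤ 1 := by
    have := Real.log_two_lt_d9; linarith
  linarith

/-- upper bound of the tail sum when `n^θ ≤ 2 K` -/
lemma HK_le_of_ge {K : ℕ} (hK1 : 1 ≤ K) (hKn : K ≤ n) {θ : ℝ} (hK : (n : ℝ) ^ θ ≤ 2 * K) (hn : 0 < n) :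
    HK n K 1 ≤ (1 - θ) * Real.log n + 1 := by
  have hn0 : (0:ℝ) < n := by exact_mod_cast hn
  have hK0 : (1:ℝ) ≤ K := by exact_mod_cast hK1
  refine (HK_one_le hK1 hKn).trans ?_
  have h1 : (n : ℝ) / K ≤ 2 * n / (n : ℝ) ^ θ := by
    rw [div_le_div_iff₀ (by positivity) (by positivity)]
    calc (n : ℝ) * (n : ℝ) ^ θ ≤ n * (2 * K) := by gcongr
      _ = 2 * n * K := by ring
  have h2 := Real.log_le_log (by positivity) h1
  have h3 : Real.log (2 * (n : ℝ) / (n : ℝ) ^ θ) = (1 - θ) * Real.log n + Real.log 2 := by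
    rw [Real.log_div (by positivity) (by positivity), Real.log_mul (by norm_num) (by positivity),
      Real.log_rpow hn0]
    ring
  have h4 : Real.log 2 ≤ 1 := by
    have := Real.log_two_lt_d9; linarith
  linarith

/-- quantitative smallness of `n exp(-ι² K / 72)` -/
lemma exp_floor_small {θ ι η : ℝ} (hθ : 0 < θ) (hι : 0 < ι) (hη : 0 < η) :
    ∀ᶠ n : ℕ in atTop, (n : ℝ) * Real.exp (-(ι ^ 2 * (⌊(n : ℝ) ^ θ⌋₊ : ℝ) / 72)) ≤ η := by
  have e1 : ∀ᶠ n : ℕ in atTop, 288 / ι ^ 2 * (Real.log n) ^ 1 ≤ (n : ℝ) ^ θ := polylog_le _ 1 hθ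
  have e2 : ∀ᶠ n : ℕ in atTop, (2:ℝ) ≤ (n : ℝ) ^ θ :=
    ((tendsto_rpow_atTop hθ).comp tendsto_natCast_atTop_atTop).eventually_ge_atTop 2
  have e3 : ∀ᶠ n : ℕ in atTop, max 1 (1 / η) ≤ (n : ℝ) :=
    tendsto_natCast_atTop_atTop.eventually_ge_atTop _
  filter_upwards [e1, e2, e3] with n h1 h2 h3
  have hn1 : 1 ≤ (n : ℝ) := (le_max_left _ _).trans h3
  have hn2 : 1 / η ≤ (n : ℝ) := (le_max_right _ _).trans h3
  have hn0 : 0 < (n : ℝ) := by linarith
  rw [pow_one] at h1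
  have h4 : (n : ℝ) ^ θ / 2 ≤ (⌊(n : ℝ) ^ θ⌋₊ : ℝ) := by
    have := Nat.sub_one_lt_floor ((n : ℝ) ^ θ)
    linarith
  have h5 : 2 * Real.log n ≤ ι ^ 2 * (⌊(n : ℝ) ^ θ⌋₊ : ℝ) / 72 := by
    have h6 : 144 / ι ^ 2 * Real.log n ≤ (⌊(n : ℝ) ^ θ⌋₊ : ℝ) := by
      refine le_trans ?_ h4
      have : 144 / ι ^ 2 * Real.log n = (288 / ι ^ 2 * Real.log n) / 2 := by ring
      rw [this]; linarith
    calc 2 * Real.log n = ι ^ 2 * (144 / ι ^ 2 * Real.log n) / 72 := by field_simp; ring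
      _ ≤ _ := by gcongr
  calc (n : ℝ) * Real.exp (-(ι ^ 2 * (⌊(n : ℝ) ^ θ⌋₊ : ℝ) / 72))
      ≤ n * Real.exp (-(2 * Real.log n)) := by
        apply mul_le_mul_of_nonneg_left _ hn0.le
        exact Real.exp_le_exp.mpr (by linarith)
    _ = 1 / n := by
        rw [Real.exp_neg, two_mul, Real.exp_add, Real.exp_log hn0]
        field_simp
    _ ≤ η := by
        rw [div_le_iff₀ hn0]
        rw [div_le_iff₀ hη] at hn2
        linarith

/-- splitting of the double integral according to a bad set of unitary matrices -/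
lemma Model.dbl_split {Ω : Type*} [MeasurableSpace Ω] {P : Measure Ω} (m : Model n p P)
    {G : Matrix (Fin n) (Fin n) ℂ → (Fin n → ℂ) → ℝ≥0∞} {B : Set (Matrix (Fin n) (Fin n) ℂ)}
    {b : ℝ≥0∞} (h1 : ∀ M ∈ unitaryGroup (Fin n) ℂ, ∀ w, G M w ≤ 1)
    (h : ∀ M ∈ unitaryGroup (Fin n) ℂ, M ∉ B → ∫⁻ w, G M w ∂(Measure.map m.z P) ≤ b) :
    ∫⁻ M, ∫⁻ w, G M w ∂(Measure.map m.z P) ∂(Measure.map m.U P) ≤ Measure.map m.U P B + b := by
  have := m.haarU.prob
  have := m.unif.prob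
  set μ := Measure.map m.U P with hμ
  calc ∫⁻ M, ∫⁻ w, G M w ∂(Measure.map m.z P) ∂μ
      ≤ ∫⁻ M, ((toMeasurable μ B).indicator 1 M + b) ∂μ := by
        apply lintegral_mono_ae
        filter_upwards [m.haarU.unitary] with M hM
        by_cases hB : M ∈ toMeasurable μ B
        · rw [Set.indicator_of_mem hB]
          calc ∫⁻ w, G M w ∂(Measure.map m.z P) ≤ ∫⁻ _w, 1 ∂(Measure.map m.z P) :=
                lintegral_mono fun w => h1 M hM w
            _ = 1 := by rw [lintegral_const, measure_univ, mul_one]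
            _ ≤ _ := le_self_add
        · have hB' : M ∉ B := fun h' => hB (subset_toMeasurable μ B h')
          exact (h M hM hB').trans le_add_self
    _ = μ B + b := by
        rw [lintegral_add_right _ measurable_const, lintegral_const, measure_univ, mul_one,
          lintegral_indicator_one (measurableSet_toMeasurable μ B), measure_toMeasurable]

lemma ex_ind_le_one (hn : 0 < n) {M : Matrix (Fin n) (Fin n) ℂ} (hM : M ∈ unitaryGroup (Fin n) ℂ)
    (t : ℕ) (q : (Fin n → ℂ) → Prop) (y : Fin n → ℂ) :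
    ENNReal.ofReal (Ex (pwt p M) (stp p M) t (fun y => if q y then 1 else 0) y) ≤ 1 := by
  rw [← ENNReal.ofReal_one]
  apply ENNReal.ofReal_le_ofReal
  have h1 : Ex (pwt p M) (stp p M) t (fun y => if q y then 1 else 0) y
      ≤ Ex (pwt p M) (stp p M) t (fun _ => 1) y :=
    Ex_mono (st := stp p M) (pwt_nonneg p M) (fun y => by split_ifs <;> norm_num) t y
  rwa [Ex_const (sum_pwt p hn hM)] at h1

end Pool.Agent.Hhelper29.CG
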