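import Pool.Agent.Hhelper29.CG.RcdOneE

/-!
Deterministic bounds of the expected family energy at `p = 1` for good unitary matrices.
-/

namespace Pool.Agent.Hhelper29.CG

open MeasureTheory Matrix ProbabilityTheory Filter
open scoped ENNReal Classical Topology

variable {n : ℕ} {p : ℝ}

lemma wsq_lamF_pos {U : Matrix (Fin n) (Fin n) ℂ} (hU : U ∈ unitaryGroup (Fin n) ℂ) (i : Fin n) :
    0 < wsq (lamF n p) (ru U i) := by
  rw [← nsq_rowv_ru]; exact nsq_rowv_pos p hU i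

lemma wsq_lamK_le (K : ℕ) (u : Fin n → ℂ) : wsq (lamK n p K) u ≤ wsq (lamF n p) u := by
  unfold wsq
  apply Finset.sum_le_sum
  intro k _
  apply mul_le_mul_of_nonneg_right _ (by positivity)
  unfold lamK lamF
  have h1 := gK_le_one n K k
  have h2 := lam_pos p k
  nlinarith

lemma EE_lower_one (hn : 0 < n) {U : Matrix (Fin n) (Fin n) ℂ} (hU : U ∈ unitaryGroup (Fin n) ℂ)
    {K : ℕ} (T : ℕ) {ι b h₁ : ℝ} (h₁0 : 0 ≤ h₁)
    (h₁le : h₁ * ((1 + ι) * tau n 1) ≤ HK n K 1 - ι * tau n 1)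
    (g1 : ∀ i, (HK n K 1 - ι * tau n 1) / n ≤ wsq (lamK n 1 K) (ru U i))
    (g2 : ∀ i, wsq (lamF n 1) (ru U i) ≤ 5 * tau n 1 / n)
    (g3 : ((Finset.univ.filter fun i : Fin n =>
      (1 + ι) * tau n 1 / n < wsq (lamF n 1) (ru U i)).card : ℝ) ≤ b * n / 5) :
    HK n K 1 - 2 * T / (K + 1) + h₁ * tau n 1 - h₁ * (b * tau n 1) ≤ (1 + h₁) * EE 1 U T := by
  have hn0 : (0:ℝ) < n := by exact_mod_cast hn
  have hτ := tau_pos (n := n) 1 hn
  set τ : ℝ := tau n 1 with hτd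
  set S : Finset (Fin n) := Finset.univ.filter fun i : Fin n =>
      (1 + ι) * τ / n < wsq (lamF n 1) (ru U i) with hS
  have hK0 : (0:ℝ) < (K : ℝ) + 1 := by positivity
  have hSb : ∑ i ∈ S, nsq (rowv 1 U i) ≤ b * tau n 1 := by
    calc ∑ i ∈ S, nsq (rowv 1 U i) ≤ ∑ _i ∈ S, 5 * τ / n := by
          apply Finset.sum_le_sum
          intro i _
          rw [nsq_rowv_ru]; exact g2 i
      _ = S.card * (5 * τ / n) := by rw [Finset.sum_const, nsmul_eq_mul]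
      _ ≤ (b * n / 5) * (5 * τ / n) := by
          apply mul_le_mul_of_nonneg_right g3; positivity
      _ = b * τ := by field_simp
  have hrow : ∀ i, i ∉ S → h₁ ≤ hrow 1 U (gT n K) i := by
    intro i hi
    have h1 : wsq (lamF n 1) (ru U i) ≤ (1 + ι) * τ / n := by
      by_contra hc
      exact hi (Finset.mem_filter.mpr ⟨Finset.mem_univ _, not_le.mp hc⟩)
    rw [hrow_ru, le_div_iff₀ (wsq_lamF_pos hU i)]
    calc h₁ * wsq (lamF n 1) (ru U i) ≤ h₁ * ((1 + ι) * τ / n) :=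
          mul_le_mul_of_nonneg_left h1 h₁0
      _ = h₁ * ((1 + ι) * τ) / n := by ring
      _ ≤ (HK n K 1 - ι * τ) / n := by gcongr
      _ ≤ _ := g1 i
  have hxK : ∀ k : Fin n, K ≤ (k : ℕ) → xk n 1 k ≤ 1 / (((K : ℝ) + 1) * τ) := by
    intro k hk
    unfold xk
    rw [lam_one, div_div]
    apply one_div_le_one_div_of_le (by positivity)
    have : (K : ℝ) ≤ (k : ℕ) := by exact_mod_cast hk
    gcongr
  have h := EE_lower hn hU hSb h₁0 hrow (by positivity) hxK T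
  rw [trg_gT_Y0] at h
  have e1 : 2 * (1 / (((K : ℝ) + 1) * τ)) * tau n 1 * T = 2 * T / (K + 1) := by
    rw [← hτd]; field_simp
  rw [e1] at h
  exact h

lemma EE_upper_one (hn : 0 < n) {U : Matrix (Fin n) (Fin n) ℂ} (hU : U ∈ unitaryGroup (Fin n) ℂ)
    {K J N m T : ℕ} (hK : 2 ≤ K) {ι h₂ : ℝ} (h₂0 : 0 ≤ h₂)
    (h₂le : HK n K 1 + ι * tau n 1 ≤ h₂ * (HK n J 1 - ι * tau n 1))
    (g1 : ∀ i, wsq (lamK n 1 K) (ru U i) ≤ (HK n K 1 + ι * tau n 1) / n)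
    (g2 : ∀ i, (HK n J 1 - ι * tau n 1) / n ≤ wsq (lamK n 1 J) (ru U i))
    (hN : 1 ≤ N) (hT : N * m ≤ T) :
    (1 + h₂) * EE 1 U T ≤ HK n K 1 + h₂ * tau n 1 + (1 - 2 / (K * tau n 1)) ^ m * tau n 1
      + tau n 1 / N := by
  have hn0 : (0:ℝ) < n := by exact_mod_cast hn
  have hτ1 := one_le_tau_one hn
  have hτ : 0 < tau n 1 := by linarith
  have hK2 : (2:ℝ) ≤ K := by exact_mod_cast hK
  set τ : ℝ := tau n 1 with hτd
  have hrow : ∀ i, hrow 1 U (gT n K) i ≤ h₂ := by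
    intro i
    rw [hrow_ru, div_le_iff₀ (wsq_lamF_pos hU i)]
    calc wsq (lamK n 1 K) (ru U i) ≤ (HK n K 1 + ι * τ) / n := g1 i
      _ ≤ h₂ * (HK n J 1 - ι * τ) / n := by gcongr
      _ = h₂ * ((HK n J 1 - ι * τ) / n) := by ring
      _ ≤ h₂ * wsq (lamK n 1 J) (ru U i) := mul_le_mul_of_nonneg_left (g2 i) h₂0
      _ ≤ _ := mul_le_mul_of_nonneg_left (wsq_lamK_le J _) h₂0
  have hKτ : 2 ≤ (K : ℝ) * τ := by nlinarith
  have hq1 : 2 / ((K : ℝ) * τ) ≤ 1 := by rw [div_le_one (by linarith)]; exact hKτ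
  have hqx : ∀ k : Fin n, (k : ℕ) < K → 2 / ((K : ℝ) * τ) ≤ 2 * xk n 1 k := by
    intro k hk
    unfold xk
    rw [lam_one, div_div]
    have h1 : ((k : ℕ) : ℝ) + 1 ≤ K := by exact_mod_cast hk
    have h2 : 1 / ((K : ℝ) * τ) ≤ 1 / ((((k : ℕ) : ℝ) + 1) * τ) := by
      apply one_div_le_one_div_of_le (by positivity)
      gcongr
    calc 2 / ((K : ℝ) * τ) = 2 * (1 / ((K : ℝ) * τ)) := by ring
      _ ≤ _ := by gcongr
  have h := EE_upper hn hU h₂0 hrow (by positivity) hq1 hqx hN hT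
  rw [trg_gT_Y0] at h
  exact h

/-- numeric conclusion, lower bound -/
lemma numeric_rcd_lower {ε δ h τ H X E b h₁ c : ℝ} (hε0 : 0 < ε) (hε1 : ε < 1) (hδ : 0 < δ) (hδ1 : δ ≤ 1)
    (hh : h = ε / (2 - ε)) (hτ : 0 < τ) (hh₁ : h₁ = h + δ / 8) (hb : b = δ / 32) (hc : c = δ / 48)
    (hH : (h + δ / 4) * τ ≤ H) (hX : X ≤ δ / 16 * τ)
    (hE : H - X + h₁ * τ - h₁ * (b * τ) ≤ (1 + h₁) * E) : (ε + 2 * c) * τ ≤ E := by
  have h2ε : 0 < 2 - ε := by linarith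
  have hh0 : 0 < h := by rw [hh]; positivity
  have hh1 : h ≤ 1 := by rw [hh, div_le_one h2ε]; linarith
  have hhe : (2 - ε) * h = ε := by rw [hh]; field_simp
  have h₁0 : 0 < h₁ := by rw [hh₁]; linarith
  have h₁2 : h₁ ≤ 2 := by rw [hh₁]; linarith
  have k1 : h₁ * (b * τ) ≤ δ / 16 * τ := by
    rw [hb]
    calc h₁ * (δ / 32 * τ) ≤ 2 * (δ / 32 * τ) := by gcongr
      _ = δ / 16 * τ := by ring
  have k2 : 2 * h₁ * τ ≤ (1 + h₁) * E := by
    have : (h + δ / 4) * τ = h₁ * τ + δ / 8 * τ := by rw [hh₁]; ring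
    rw [this] at hH
    have : δ / 8 * τ = δ / 16 * τ + δ / 16 * τ := by ring
    linarith
  have k3 : (ε + 2 * c) * (1 + h₁) ≤ 2 * h₁ := by
    have e1 : 2 * h₁ - ε * (1 + h₁) = (2 - ε) * (δ / 8) := by
      have : (2 - ε) * h₁ = ε + (2 - ε) * (δ / 8) := by rw [hh₁, mul_add, hhe]
      linarith
    have e2 : δ / 8 ≤ (2 - ε) * (δ / 8) := by
      have : 1 * (δ / 8) ≤ (2 - ε) * (δ / 8) := by gcongr; linarith
      linarith
    have e3 : 2 * c * (1 + h₁) ≤ δ / 8 := by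
      rw [hc]
      calc 2 * (δ / 48) * (1 + h₁) ≤ 2 * (δ / 48) * 3 := by gcongr; linarith
        _ = δ / 8 := by ring
    have e4 : (ε + 2 * c) * (1 + h₁) = ε * (1 + h₁) + 2 * c * (1 + h₁) := by ring
    linarith
  have k4 : (1 + h₁) * ((ε + 2 * c) * τ) ≤ (1 + h₁) * E := by
    calc (1 + h₁) * ((ε + 2 * c) * τ) = ((ε + 2 * c) * (1 + h₁)) * τ := by ring
      _ ≤ 2 * h₁ * τ := by gcongr
      _ ≤ _ := k2
  exact le_of_mul_le_mul_left k4 (by linarith)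

/-- numeric conclusion, upper bound -/
lemma numeric_rcd_upper {ε δ h τ H X Y E h₂ c : ℝ} (hε0 : 0 < ε) (hε1 : ε < 1) (hδ : 0 < δ)
    (hδh : δ ≤ h)
    (hh : h = ε / (2 - ε)) (hτ : 0 < τ) (hh₂ : h₂ = h - δ / 8) (hc : c = δ / 48)
    (hH : H ≤ (h - δ / 4) * τ) (hX : X ≤ δ / 16) (hY : Y ≤ δ / 16 * τ)
    (hE : (1 + h₂) * E ≤ H + h₂ * τ + X * τ + Y) : E ≤ (ε - 2 * c) * τ := by
  have h2ε : 0 < 2 - ε := by linarith
  have hh0 : 0 < h := by rw [hh]; positivity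
  have hh1 : h ≤ 1 := by rw [hh, div_le_one h2ε]; linarith
  have hhe : (2 - ε) * h = ε := by rw [hh]; field_simp
  have h₂0 : 0 < h₂ := by rw [hh₂]; linarith
  have h₂1 : h₂ ≤ 1 := by rw [hh₂]; linarith
  have k2 : (1 + h₂) * E ≤ 2 * h₂ * τ := by
    have e1 : (h - δ / 4) * τ = h₂ * τ - δ / 8 * τ := by rw [hh₂]; ring
    rw [e1] at hH
    have e2 : X * τ ≤ δ / 16 * τ := by gcongr
    have e3 : δ / 8 * τ = δ / 16 * τ + δ / 16 * τ := by ring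
    linarith
  have k3 : 2 * h₂ ≤ (ε - 2 * c) * (1 + h₂) := by
    have e1 : ε * (1 + h₂) - 2 * h₂ = (2 - ε) * (δ / 8) := by
      have : (2 - ε) * h₂ = ε - (2 - ε) * (δ / 8) := by rw [hh₂, mul_sub, hhe]
      linarith
    have e2 : δ / 8 ≤ (2 - ε) * (δ / 8) := by
      have : 1 * (δ / 8) ≤ (2 - ε) * (δ / 8) := by gcongr; linarith
      linarith
    have e3 : 2 * c * (1 + h₂) ≤ δ / 8 := by
      rw [hc]
      calc 2 * (δ / 48) * (1 + h₂) ≤ 2 * (δ / 48) * 3 := by gcongr; linarith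
        _ = δ / 8 := by ring
    have e4 : (ε - 2 * c) * (1 + h₂) = ε * (1 + h₂) - 2 * c * (1 + h₂) := by ring
    linarith
  have k4 : (1 + h₂) * E ≤ (1 + h₂) * ((ε - 2 * c) * τ) := by
    calc (1 + h₂) * E ≤ 2 * h₂ * τ := k2
      _ ≤ ((ε - 2 * c) * (1 + h₂)) * τ := by gcongr
      _ = _ := by ring
  exact le_of_mul_le_mul_left k4 (by linarith)

end Pool.Agent.Hhelper29.CG
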