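import Pool.Agent.Hhelper29.CG.RcdOneF

/-!
The lower bound for the RCD stopping time at `p = 1`.
-/

namespace Pool.Agent.Hhelper29.CG

open MeasureTheory Matrix ProbabilityTheory Filter
open scoped ENNReal Classical Topology

variable {n : ℕ} {p : ℝ}

section

variable {μ : Measure (Matrix (Fin n) (Fin n) ℂ)} {σ : Measure (Fin n → ℂ)}

/-- probability of the bad set of unitary matrices (lower bound) -/
lemma bad_lower (hμ : IsHaarU μ) (hσ : IsUnif σ) (hn : 0 < n) {K : ℕ} (hK : 1 ≤ K) (hKn : K ≤ n)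
    {ι b η L : ℝ} (hι : 0 < ι) (hι1 : ι ≤ 1) (hb : 0 < b) (hη : 0 < η) (hL : L = Real.log n)
    (hL1 : 1 ≤ L)
    (a1 : (n : ℝ) * Real.exp (-(ι ^ 2 * K / 72)) ≤ η)
    (a2 : 100 * L ^ 2 ≤ n) (a3 : Real.exp 2 / η ≤ n)
    (a4 : 2 / ι * (2 + 5 / (b * η)) ≤ L) :
    μ {M | ¬ ((∀ i, (HK n K 1 - ι * tau n 1) / n * nsq (ru M i) ≤ wsq (lamK n 1 K) (ru M i)) ∧
      (∀ i, wsq (lamF n 1) (ru M i) ≤ 5 * tau n 1 / n * nsq (ru M i)) ∧
      ((Finset.univ.filter fun i : Fin n =>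
        (1 + ι) * tau n 1 / n * nsq (ru M i) < wsq (lamF n 1) (ru M i)).card : ℝ) ≤ b * n / 5)}
      ≤ ENNReal.ofReal (3 * η) := by
  have := hμ.prob
  have := hσ.prob
  have hn0 : (0:ℝ) < n := by exact_mod_cast hn
  have hn1 : (1:ℝ) ≤ n := by exact_mod_cast hn
  have hτ1 := one_le_tau_one hn
  have hτL : tau n 1 ≤ 1 + L := by rw [hL]; exact tau_one_le' hn
  have hLτ : L ≤ tau n 1 := by
    refine le_trans ?_ (tau_one_ge n)
    rw [hL]
    exact Real.log_le_log hn0 (by linarith)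
  set τ : ℝ := tau n 1 with hτd
  have hτ2 : τ ≤ 2 * L := by linarith
  set E₁ : Set (Fin n → ℂ) := {u | wsq (lamK n 1 K) u < (HK n K 1 - ι * τ) / n * nsq u} with hE₁
  set E₂ : Set (Fin n → ℂ) := {u | 5 * τ / n * nsq u < wsq (lamF n 1) u} with hE₂
  set E₃ : Set (Fin n → ℂ) := {u | (1 + ι) * τ / n * nsq u < wsq (lamF n 1) u} with hE₃
  have m₁ : MeasurableSet E₁ := measurableSet_lt (measurable_wsq _) (measurable_nsq.const_mul _)
  have m₂ : MeasurableSet E₂ := measurableSet_lt (measurable_nsq.const_mul _) (measurable_wsq _)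
  have m₃ : MeasurableSet E₃ := measurableSet_lt (measurable_nsq.const_mul _) (measurable_wsq _)
  have hsub : {M | ¬ ((∀ i, (HK n K 1 - ι * τ) / n * nsq (ru M i) ≤ wsq (lamK n 1 K) (ru M i)) ∧
      (∀ i, wsq (lamF n 1) (ru M i) ≤ 5 * τ / n * nsq (ru M i)) ∧
      ((Finset.univ.filter fun i : Fin n =>
        (1 + ι) * τ / n * nsq (ru M i) < wsq (lamF n 1) (ru M i)).card : ℝ) ≤ b * n / 5)}
      ⊆ (⋃ i : Fin n, {M | ru M i ∈ E₁}) ∪ ((⋃ i : Fin n, {M | ru M i ∈ E₂}) ∪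
        {M | b * n / 5 ≤ ((Finset.univ.filter fun i : Fin n => ru M i ∈ E₃).card : ℝ)}) := by
    intro M hM
    by_contra hc
    simp only [Set.mem_union, Set.mem_iUnion, not_or, not_exists] at hc
    obtain ⟨c1, c2, c3⟩ := hc
    apply hM
    refine ⟨fun i => not_lt.mp (c1 i), fun i => not_lt.mp (c2 i), ?_⟩
    have c3' : ¬ (b * n / 5 ≤ ((Finset.univ.filter fun i : Fin n => ru M i ∈ E₃).card : ℝ)) := c3
    exact (not_le.mp c3').le
  refine (measure_mono hsub).trans ((measure_union_le _ _).trans ?_)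
  have b1 : μ (⋃ i : Fin n, {M | ru M i ∈ E₁}) ≤ ENNReal.ofReal η := by
    refine (haar_rows_union hμ hσ m₁).trans ?_
    have h := row_lower_dev hμ hσ hn hK hKn hι hι1
    calc (n : ℝ≥0∞) * σ E₁ ≤ n * ENNReal.ofReal (Real.exp (-(ι ^ 2 * K / 72))) := by gcongr
      _ = ENNReal.ofReal (n * Real.exp (-(ι ^ 2 * K / 72))) := by
          rw [ENNReal.ofReal_mul hn0.le, ENNReal.ofReal_natCast]
      _ ≤ ENNReal.ofReal η := ENNReal.ofReal_le_ofReal a1
  have hL0 : 0 < L := by linarith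
  have h10 : 10 * L ≤ n := by
    have : 10 * L ≤ 100 * L ^ 2 := by nlinarith
    linarith
  have b2 : μ (⋃ i : Fin n, {M | ru M i ∈ E₂}) ≤ ENNReal.ofReal η := by
    refine (haar_rows_union hμ hσ m₂).trans ?_
    have h := row_total_dev hμ hσ hn (v := 5 * τ) (by linarith) (by linarith)
    have e1 : (τ - 5 * τ) / 2 + 1 + (5 * τ) ^ 2 / (2 * n) ≤ -(2 * L) + 2 := by
      have e2 : (5 * τ) ^ 2 / (2 * n) ≤ 1 := by
        rw [div_le_one (by positivity)]
        have : τ ^ 2 ≤ (2 * L) ^ 2 := pow_le_pow_left₀ (by linarith) hτ2 2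
        nlinarith
      linarith
    have e3 : (n : ℝ) * Real.exp (-(2 * L) + 2) ≤ η := by
      rw [Real.exp_add, Real.exp_neg, two_mul, Real.exp_add, hL, Real.exp_log hn0]
      have e4 : (n : ℝ) * ((n * n : ℝ)⁻¹ * Real.exp 2) = Real.exp 2 / n := by field_simp
      rw [e4, div_le_iff₀ hn0]
      rw [div_le_iff₀ hη] at a3
      linarith
    calc (n : ℝ≥0∞) * σ E₂ ≤ n * ENNReal.ofReal (Real.exp (-(2 * L) + 2)) := by
          gcongr
          exact h.trans (ENNReal.ofReal_le_ofReal (Real.exp_le_exp.mpr e1))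
      _ = ENNReal.ofReal (n * Real.exp (-(2 * L) + 2)) := by
          rw [ENNReal.ofReal_mul hn0.le, ENNReal.ofReal_natCast]
      _ ≤ ENNReal.ofReal η := ENNReal.ofReal_le_ofReal e3
  have b3 : μ {M | b * n / 5 ≤ ((Finset.univ.filter fun i : Fin n => ru M i ∈ E₃).card : ℝ)}
      ≤ ENNReal.ofReal η := by
    refine (haar_rows_count hμ hσ m₃ (by positivity)).trans ?_
    have h := row_total_dev hμ hσ hn (v := (1 + ι) * τ) (by positivity) (by
      calc (1 + ι) * τ ≤ 2 * (2 * L) := by gcongr; linarith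
        _ ≤ n := by linarith)
    have e1 : (τ - (1 + ι) * τ) / 2 + 1 + ((1 + ι) * τ) ^ 2 / (2 * n) ≤ -(ι * L / 2) + 2 := by
      have e2 : ((1 + ι) * τ) ^ 2 / (2 * n) ≤ 1 := by
        rw [div_le_one (by positivity)]
        have : ((1 + ι) * τ) ^ 2 ≤ (2 * (2 * L)) ^ 2 := by gcongr; linarith
        nlinarith
      have e3 : ι * L ≤ ι * τ := by gcongr
      have e4 : (τ - (1 + ι) * τ) / 2 = -(ι * τ / 2) := by ring
      rw [e4]; linarith
    have e5 : 2 + 5 / (b * η) ≤ ι * L / 2 := by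
      have : ι / 2 * (2 / ι * (2 + 5 / (b * η))) ≤ ι / 2 * L := by gcongr
      have e6 : ι / 2 * (2 / ι * (2 + 5 / (b * η))) = 2 + 5 / (b * η) := by field_simp
      rw [e6] at this
      linarith
    have e7 : Real.exp (-(ι * L / 2) + 2) ≤ b * η / 5 := by
      have e8 : -(ι * L / 2) + 2 ≤ -(5 / (b * η)) := by linarith
      have e9 : Real.exp (-(5 / (b * η))) ≤ b * η / 5 := by
        rw [Real.exp_neg]
        have e10 : 5 / (b * η) ≤ Real.exp (5 / (b * η)) := by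
          have := Real.add_one_le_exp (5 / (b * η)); linarith
        calc (Real.exp (5 / (b * η)))⁻¹ ≤ (5 / (b * η))⁻¹ := inv_anti₀ (by positivity) e10
          _ = b * η / 5 := by rw [inv_div]
      exact (Real.exp_le_exp.mpr e8).trans e9
    have hx : 0 < b * n / 5 := by positivity
    calc (n : ℝ≥0∞) * σ E₃ / ENNReal.ofReal (b * n / 5)
        ≤ n * ENNReal.ofReal (b * η / 5) / ENNReal.ofReal (b * n / 5) := by
          gcongr
          exact h.trans (ENNReal.ofReal_le_ofReal ((Real.exp_le_exp.mpr e1).trans e7))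
      _ = ENNReal.ofReal (n * (b * η / 5) / (b * n / 5)) := by
          rw [ENNReal.ofReal_div_of_pos hx, ENNReal.ofReal_mul hn0.le, ENNReal.ofReal_natCast]
      _ = ENNReal.ofReal η := by congr 1; field_simp
  calc μ (⋃ i : Fin n, {M | ru M i ∈ E₁}) + μ ((⋃ i : Fin n, {M | ru M i ∈ E₂}) ∪
        {M | b * n / 5 ≤ ((Finset.univ.filter fun i : Fin n => ru M i ∈ E₃).card : ℝ)})
      ≤ ENNReal.ofReal η + (ENNReal.ofReal η + ENNReal.ofReal η) := by
        gcongr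
        exact (measure_union_le _ _).trans (add_le_add b2 b3)
    _ = ENNReal.ofReal (3 * η) := by
        rw [← ENNReal.ofReal_add hη.le hη.le, ← ENNReal.ofReal_add hη.le (by linarith)]
        congr 1; ring

end

theorem rcd_one_lower_aux {ε : ℝ} (hε : 0 < ε) (hε1 : ε < 1) {δ : ℝ} (hδ : 0 < δ)
    (hδε : δ ≤ (1 - ε) / (2 - ε)) {η : ℝ} (hη : 0 < η) :
    ∃ n₀ : ℕ, ∀ n ≥ n₀, ∀ {Ω : Type*} [MeasurableSpace Ω] (P : Measure Ω) (m : Model n 1 P),
      P {ω | (m.Trcd ε ω : ℝ≥0∞) < ENNReal.ofReal ((n : ℝ) ^ (2 * (1 - ε) / (2 - ε) - δ))} ≤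
        ENNReal.ofReal η := by
  have h2ε : 0 < 2 - ε := by linarith
  set h : ℝ := ε / (2 - ε) with hh
  have hh0 : 0 < h := by positivity
  have hθh : 2 * (1 - ε) / (2 - ε) = 1 - h := by rw [hh]; field_simp; ring
  have hδh : δ ≤ (1 - h) / 2 := by
    rw [← hθh]; refine hδε.trans (le_of_eq ?_); ring
  have hδ1 : δ ≤ 1 := by linarith
  set θ : ℝ := 1 - h - δ / 2 with hθ
  have hθ0 : 0 < θ := by rw [hθ]; linarith
  have hθ1 : θ ≤ 1 := by rw [hθ]; linarith
  set ι : ℝ := δ / 32 with hι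
  have hι0 : 0 < ι := by positivity
  have hι1 : ι ≤ 1 := by rw [hι]; linarith
  set c : ℝ := δ / 48 with hc
  have hc0 : 0 < c := by positivity
  set η₁ : ℝ := η / 8 with hη₁
  have hη₁0 : 0 < η₁ := by positivity
  have hlogt : Tendsto (fun n : ℕ => Real.log (n : ℝ)) atTop atTop :=
    Real.tendsto_log_atTop.comp tendsto_natCast_atTop_atTop
  have e1 := exp_floor_small hθ0 hι0 hη₁0
  have e2 : ∀ᶠ n : ℕ in atTop, 100 * (Real.log n) ^ 2 ≤ (n : ℝ) ^ (1:ℝ) := polylog_le 100 2 one_pos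
  have e3 : ∀ᶠ n : ℕ in atTop, Real.exp 2 / η₁ ≤ (n : ℝ) :=
    tendsto_natCast_atTop_atTop.eventually_ge_atTop _
  have e4 : ∀ᶠ n : ℕ in atTop, 2 / ι * (2 + 5 / (ι * η₁)) ≤ Real.log (n : ℝ) :=
    hlogt.eventually_ge_atTop _
  have e5 : ∀ᶠ n : ℕ in atTop, max 1 (12 / δ) ≤ Real.log (n : ℝ) := hlogt.eventually_ge_atTop _
  have e6 : ∀ᶠ n : ℕ in atTop, 64 / (c ^ 2 * η) ≤ Real.log (n : ℝ) := hlogt.eventually_ge_atTop _
  have e7 : ∀ᶠ n : ℕ in atTop, (2:ℝ) ≤ (n : ℝ) ^ θ :=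
    ((tendsto_rpow_atTop hθ0).comp tendsto_natCast_atTop_atTop).eventually_ge_atTop 2
  have e8 : ∀ᶠ n : ℕ in atTop, 32 / δ ≤ (n : ℝ) ^ (δ / 2) :=
    ((tendsto_rpow_atTop (by positivity : 0 < δ / 2)).comp
      tendsto_natCast_atTop_atTop).eventually_ge_atTop _
  obtain ⟨n₀, hn₀⟩ := eventually_atTop.mp
    (e1.and (e2.and (e3.and (e4.and (e5.and (e6.and (e7.and e8)))))))
  refine ⟨n₀, fun n hn Ω _ P mo => ?_⟩
  obtain ⟨h1, h2, h3, h4, h5, h6, h7, h8⟩ := hn₀ n hn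
  rw [Real.rpow_one] at h2
  have hnpos := mo.n_pos
  have hn1 : (1:ℝ) ≤ n := by exact_mod_cast hnpos
  have hn0 : (0:ℝ) < n := by linarith
  set L : ℝ := Real.log n with hL
  have hL1 : 1 ≤ L := (le_max_left _ _).trans h5
  have hL2 : 12 / δ ≤ L := (le_max_right _ _).trans h5
  have hL0 : 0 < L := by linarith
  set K : ℕ := ⌊(n : ℝ) ^ θ⌋₊ with hK
  have hKle : (K : ℝ) ≤ (n : ℝ) ^ θ := Nat.floor_le (by positivity)
  have hKge : (n : ℝ) ^ θ < K + 1 := Nat.lt_floor_add_one _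
  have hK1 : 1 ≤ K := by
    have : (0:ℝ) < K := by linarith
    exact_mod_cast this
  have hKn : K ≤ n := by
    have : (K : ℝ) ≤ n := hKle.trans (by
      calc (n : ℝ) ^ θ ≤ (n : ℝ) ^ (1:ℝ) := Real.rpow_le_rpow_of_exponent_le hn1 hθ1
        _ = n := Real.rpow_one _)
    exact_mod_cast this
  set T : ℕ := ⌊(n : ℝ) ^ (2 * (1 - ε) / (2 - ε) - δ)⌋₊ with hT
  have hTle : (T : ℝ) ≤ (n : ℝ) ^ (θ - δ / 2) := by
    have : 2 * (1 - ε) / (2 - ε) - δ = θ - δ / 2 := by rw [hθh, hθ]; ring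
    rw [← this]
    exact Nat.floor_le (by positivity)
  have hτ1 := one_le_tau_one hnpos
  have hτL : tau n 1 ≤ 1 + L := tau_one_le' hnpos
  have hLτ : L ≤ tau n 1 := by
    refine le_trans ?_ (tau_one_ge n)
    exact Real.log_le_log hn0 (by linarith)
  have hτ0 : 0 < tau n 1 := by linarith
  -- lower bound of the tail sum
  have hHK : (h + δ / 4) * tau n 1 ≤ HK n K 1 := by
    have k1 := HK_ge_of_le hK1 hKn hKle hnpos
    have k2 : (1 - θ) = h + δ / 2 := by rw [hθ]; ring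
    rw [k2] at k1
    have k3 : 3 ≤ δ / 4 * L := by
      have : δ / 4 * (12 / δ) ≤ δ / 4 * L := by gcongr
      have e : δ / 4 * (12 / δ) = 3 := by field_simp; norm_num
      rwa [e] at this
    have k4 : (h + δ / 4) * tau n 1 ≤ (h + δ / 4) * (1 + L) := by gcongr
    have k5 : (h + δ / 2) * L = (h + δ / 4) * L + δ / 4 * L := by ring
    have k6 : h ≤ 1 := by linarith
    have k7 : (h + δ / 4) * (1 + L) = (h + δ / 4) + (h + δ / 4) * L := by ring
    linarith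
  -- the comparison of time scales
  have hX : 2 * (T : ℝ) / (K + 1) ≤ δ / 16 * tau n 1 := by
    have k1 : 2 * (T : ℝ) / (K + 1) ≤ 2 * (n : ℝ) ^ (θ - δ / 2) / (n : ℝ) ^ θ := by
      gcongr
    have k2 : 2 * (n : ℝ) ^ (θ - δ / 2) / (n : ℝ) ^ θ = 2 / (n : ℝ) ^ (δ / 2) := by
      have : (n : ℝ) ^ θ = (n : ℝ) ^ (θ - δ / 2) * (n : ℝ) ^ (δ / 2) := by
        rw [← Real.rpow_add hn0]; congr 1; ring
      rw [this]
      have hp : (n : ℝ) ^ (θ - δ / 2) ≠ 0 := by positivity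
      field_simp
    have k3 : 2 / (n : ℝ) ^ (δ / 2) ≤ δ / 16 := by
      rw [div_le_iff₀ (by positivity)]
      rw [div_le_iff₀ hδ] at h8
      linarith
    have k4 : δ / 16 ≤ δ / 16 * tau n 1 := by
      have : δ / 16 * 1 ≤ δ / 16 * tau n 1 := by gcongr
      linarith
    rw [k2] at k1
    linarith
  have hbad := bad_lower mo.haarU mo.unif hnpos hK1 hKn (L := L) hι0 hι1 hι0 hη₁0 rfl hL1 h1 h2 h3 h4
  set B : Set (Matrix (Fin n) (Fin n) ℂ) := {M |
      ¬ ((∀ i, (HK n K 1 - ι * tau n 1) / n * nsq (ru M i) ≤ wsq (lamK n 1 K) (ru M i)) ∧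
      (∀ i, wsq (lamF n 1) (ru M i) ≤ 5 * tau n 1 / n * nsq (ru M i)) ∧
      ((Finset.univ.filter fun i : Fin n =>
        (1 + ι) * tau n 1 / n * nsq (ru M i) < wsq (lamF n 1) (ru M i)).card : ℝ) ≤ ι * n / 5)} with hB
  have hsub : {ω | (mo.Trcd ε ω : ℝ≥0∞) < ENNReal.ofReal ((n : ℝ) ^ (2 * (1 - ε) / (2 - ε) - δ))}
      ⊆ {ω | mo.Trcd ε ω ≤ T} := by
    intro ω hω
    exact le_natCast_of_lt_ofReal hω
  have hsplit := mo.dbl_split (B := B) (b := ENNReal.ofReal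
      (9 / (c ^ 2 * tau n 1) + Real.exp (-(c ^ 2 * tau n 1 / 16))))
    (G := fun M w => ENNReal.ofReal (Ex (pwt 1 M) (stp 1 M) T
          (fun y => if (y0 1 w, y) ∈ {q : (Fin n → ℂ) × (Fin n → ℂ) | nsq q.2 ≤ ε * nsq q.1}
            then 1 else 0) (y0 1 w)))
    (fun M hM w => ex_ind_le_one hnpos hM T _ _) (by
      intro M hM hMB
      have hg := not_not.mp hMB
      simp only [nsq_ru hM, mul_one] at hg
      obtain ⟨g1, g2, g3⟩ := hg
      have h₁0 : 0 ≤ h + δ / 8 := by linarith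
      have h₁le : (h + δ / 8) * ((1 + ι) * tau n 1) ≤ HK n K 1 - ι * tau n 1 := by
        have k1 : (h + δ / 8) * (1 + ι) + ι ≤ h + δ / 4 := by
          have k2 : ι * (h + δ / 8) ≤ ι * 2 := by gcongr; linarith
          have k3 : (h + δ / 8) * (1 + ι) + ι = h + δ / 8 + ι * (h + δ / 8) + ι := by ring
          rw [k3]
          have k4 : ι * 2 + ι ≤ δ / 8 := by rw [hι]; linarith
          linarith
        have k5 : ((h + δ / 8) * (1 + ι) + ι) * tau n 1 ≤ (h + δ / 4) * tau n 1 := by gcongr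
        have k6 : ((h + δ / 8) * (1 + ι) + ι) * tau n 1
            = (h + δ / 8) * ((1 + ι) * tau n 1) + ι * tau n 1 := by ring
        linarith
      have hE := EE_lower_one hnpos hM T h₁0 h₁le g1 g2 g3
      have hE2 := numeric_rcd_lower hε hε1 hδ hδ1 hh hτ0 rfl hι hc hHK hX hE
      exact int_lower mo.haarU mo.unif hnpos zero_le_one hε.le hε1.le hc0 hM hE2)
  refine (measure_mono hsub).trans ((mo.prob_trcd_le_le ε T).trans (hsplit.trans ?_))
  have hfin : 9 / (c ^ 2 * tau n 1) + Real.exp (-(c ^ 2 * tau n 1 / 16)) ≤ η / 2 := by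
    have k0 : 64 / (c ^ 2 * η) ≤ tau n 1 := h6.trans hLτ
    have k1 : 64 / η ≤ c ^ 2 * tau n 1 := by
      have : c ^ 2 * (64 / (c ^ 2 * η)) ≤ c ^ 2 * tau n 1 := by gcongr
      have e : c ^ 2 * (64 / (c ^ 2 * η)) = 64 / η := by field_simp
      rwa [e] at this
    set x : ℝ := c ^ 2 * tau n 1 with hx
    have hx0 : 0 < x := by positivity
    have k2 : 64 ≤ x * η := by rwa [div_le_iff₀ hη] at k1
    have k3 : 9 / x ≤ η / 4 := by
      rw [div_le_iff₀ hx0]; linarith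
    have k4 : Real.exp (-(x / 16)) ≤ η / 4 := by
      rw [Real.exp_neg]
      have k5 : x / 16 ≤ Real.exp (x / 16) := by
        have := Real.add_one_le_exp (x / 16); linarith
      calc (Real.exp (x / 16))⁻¹ ≤ (x / 16)⁻¹ := inv_anti₀ (by positivity) k5
        _ = 16 / x := by rw [inv_div]
        _ ≤ η / 4 := by rw [div_le_iff₀ hx0]; linarith
    linarith
  calc Measure.map mo.U P B + ENNReal.ofReal (9 / (c ^ 2 * tau n 1)
        + Real.exp (-(c ^ 2 * tau n 1 / 16)))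
      ≤ ENNReal.ofReal (3 * η₁) + ENNReal.ofReal (η / 2) := by
        gcongr
    _ = ENNReal.ofReal (3 * η₁ + η / 2) := (ENNReal.ofReal_add (by positivity) (by positivity)).symm
    _ ≤ ENNReal.ofReal η := by
        apply ENNReal.ofReal_le_ofReal
        rw [hη₁]; linarith

end Pool.Agent.Hhelper29.CG
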