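import Pool.Agent.Hhelper29.CG.RcdOneLower

/-!
The upper bound for the RCD stopping time at `p = 1`.
-/

namespace Pool.Agent.Hhelper29.CG

open MeasureTheory Matrix ProbabilityTheory Filter
open scoped ENNReal Classical Topology

variable {n : ℕ} {p : ℝ}

section

variable {μ : Measure (Matrix (Fin n) (Fin n) ℂ)} {σ : Measure (Fin n → ℂ)}

/-- probability of the bad set of unitary matrices (upper bound) -/
lemma bad_upper (hμ : IsHaarU μ) (hσ : IsUnif σ) (hn : 0 < n) {K J : ℕ} (hK : 1 ≤ K) (hKn : K ≤ n)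
    (hJ : 1 ≤ J) (hJn : J ≤ n)
    {ι η : ℝ} (hι : 0 < ι) (hι1 : ι ≤ 1) (hη : 0 < η)
    (a1 : (n : ℝ) * Real.exp (-(ι ^ 2 * K / 72)) ≤ η)
    (a2 : (n : ℝ) * Real.exp (-(ι ^ 2 * J / 72)) ≤ η) :
    μ {M | ¬ ((∀ i, wsq (lamK n 1 K) (ru M i) ≤ (HK n K 1 + ι * tau n 1) / n * nsq (ru M i)) ∧
      (∀ i, (HK n J 1 - ι * tau n 1) / n * nsq (ru M i) ≤ wsq (lamK n 1 J) (ru M i)))}
      ≤ ENNReal.ofReal (2 * η) := by
  have := hμ.prob
  have := hσ.prob
  have hn0 : (0:ℝ) < n := by exact_mod_cast hn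
  set τ : ℝ := tau n 1 with hτd
  set E₁ : Set (Fin n → ℂ) := {u | (HK n K 1 + ι * τ) / n * nsq u < wsq (lamK n 1 K) u} with hE₁
  set E₂ : Set (Fin n → ℂ) := {u | wsq (lamK n 1 J) u < (HK n J 1 - ι * τ) / n * nsq u} with hE₂
  have m₁ : MeasurableSet E₁ := measurableSet_lt (measurable_nsq.const_mul _) (measurable_wsq _)
  have m₂ : MeasurableSet E₂ := measurableSet_lt (measurable_wsq _) (measurable_nsq.const_mul _)
  have hsub : {M | ¬ ((∀ i, wsq (lamK n 1 K) (ru M i) ≤ (HK n K 1 + ι * τ) / n * nsq (ru M i)) ∧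
      (∀ i, (HK n J 1 - ι * τ) / n * nsq (ru M i) ≤ wsq (lamK n 1 J) (ru M i)))}
      ⊆ (⋃ i : Fin n, {M | ru M i ∈ E₁}) ∪ (⋃ i : Fin n, {M | ru M i ∈ E₂}) := by
    intro M hM
    by_contra hc
    simp only [Set.mem_union, Set.mem_iUnion, not_or, not_exists] at hc
    obtain ⟨c1, c2⟩ := hc
    apply hM
    exact ⟨fun i => not_lt.mp (c1 i), fun i => not_lt.mp (c2 i)⟩
  refine (measure_mono hsub).trans ((measure_union_le _ _).trans ?_)
  have b1 : μ (⋃ i : Fin n, {M | ru M i ∈ E₁}) ≤ ENNReal.ofReal η := by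
    refine (haar_rows_union hμ hσ m₁).trans ?_
    have h := row_upper_dev hμ hσ hn hK hKn hι hι1
    calc (n : ℝ≥0∞) * σ E₁ ≤ n * ENNReal.ofReal (Real.exp (-(ι ^ 2 * K / 72))) := by gcongr
      _ = ENNReal.ofReal (n * Real.exp (-(ι ^ 2 * K / 72))) := by
          rw [ENNReal.ofReal_mul hn0.le, ENNReal.ofReal_natCast]
      _ ≤ ENNReal.ofReal η := ENNReal.ofReal_le_ofReal a1
  have b2 : μ (⋃ i : Fin n, {M | ru M i ∈ E₂}) ≤ ENNReal.ofReal η := by
    refine (haar_rows_union hμ hσ m₂).trans ?_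
    have h := row_lower_dev hμ hσ hn hJ hJn hι hι1
    calc (n : ℝ≥0∞) * σ E₂ ≤ n * ENNReal.ofReal (Real.exp (-(ι ^ 2 * J / 72))) := by gcongr
      _ = ENNReal.ofReal (n * Real.exp (-(ι ^ 2 * J / 72))) := by
          rw [ENNReal.ofReal_mul hn0.le, ENNReal.ofReal_natCast]
      _ ≤ ENNReal.ofReal η := ENNReal.ofReal_le_ofReal a2
  calc μ (⋃ i : Fin n, {M | ru M i ∈ E₁}) + μ (⋃ i : Fin n, {M | ru M i ∈ E₂})
      ≤ ENNReal.ofReal η + ENNReal.ofReal η := add_le_add b1 b2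
    _ = ENNReal.ofReal (2 * η) := by
        rw [← ENNReal.ofReal_add hη.le hη.le]
        congr 1; ring

end

theorem rcd_one_upper_aux {ε : ℝ} (hε : 0 < ε) (hε1 : ε < 1) {δ : ℝ} (hδ : 0 < δ)
    (hδε : δ ≤ ε / (2 - ε)) {η : ℝ} (hη : 0 < η) :
    ∃ n₀ : ℕ, ∀ n ≥ n₀, ∀ {Ω : Type*} [MeasurableSpace Ω] (P : Measure Ω) (m : Model n 1 P),
      P {ω | ENNReal.ofReal ((n : ℝ) ^ (2 * (1 - ε) / (2 - ε) + δ)) < (m.Trcd ε ω : ℝ≥0∞)} ≤
        ENNReal.ofReal η := by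
  have h2ε : 0 < 2 - ε := by linarith
  set h : ℝ := ε / (2 - ε) with hh
  have hh0 : 0 < h := by positivity
  have hh1 : h ≤ 1 := by rw [hh, div_le_one h2ε]; linarith
  have hθh : 2 * (1 - ε) / (2 - ε) = 1 - h := by rw [hh]; field_simp; ring
  have hδ1 : δ ≤ 1 := hδε.trans hh1
  set θ : ℝ := 1 - h + δ / 2 with hθ
  have hθ0 : 0 < θ := by rw [hθ]; linarith
  have hθ1 : θ ≤ 1 := by rw [hθ]; linarith
  set ι : ℝ := δ / 32 with hι
  have hι0 : 0 < ι := by positivity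
  have hι1 : ι ≤ 1 := by rw [hι]; linarith
  set c : ℝ := δ / 48 with hc
  have hc0 : 0 < c := by positivity
  set η₁ : ℝ := η / 8 with hη₁
  have hη₁0 : 0 < η₁ := by positivity
  set N : ℕ := ⌈16 / δ⌉₊ with hN
  have hN16 : 16 / δ ≤ N := Nat.le_ceil _
  have hN0 : (0:ℝ) < N := lt_of_lt_of_le (by positivity) hN16
  have hN1 : 1 ≤ N := by exact_mod_cast hN0
  have hlogt : Tendsto (fun n : ℕ => Real.log (n : ℝ)) atTop atTop :=
    Real.tendsto_log_atTop.comp tendsto_natCast_atTop_atTop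
  have e1 := exp_floor_small hθ0 hι0 hη₁0
  have e2 := exp_floor_small hι0 hι0 hη₁0
  have e3 : ∀ᶠ n : ℕ in atTop, (2 * N * (16 / δ + 1)) * (Real.log n) ^ 1 ≤ (n : ℝ) ^ (δ / 2) :=
    polylog_le _ 1 (by positivity)
  have e5 : ∀ᶠ n : ℕ in atTop, max 1 (64 / δ) ≤ Real.log (n : ℝ) := hlogt.eventually_ge_atTop _
  have e6 : ∀ᶠ n : ℕ in atTop, 64 / (c ^ 2 * η) ≤ Real.log (n : ℝ) := hlogt.eventually_ge_atTop _
  have e7 : ∀ᶠ n : ℕ in atTop, (3:ℝ) ≤ (n : ℝ) ^ θ :=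
    ((tendsto_rpow_atTop hθ0).comp tendsto_natCast_atTop_atTop).eventually_ge_atTop 3
  obtain ⟨n₀, hn₀⟩ := eventually_atTop.mp
    (e1.and (e2.and (e3.and (e5.and (e6.and e7)))))
  refine ⟨n₀, fun n hn Ω _ P mo => ?_⟩
  obtain ⟨h1, h2, h3, h5, h6, h7⟩ := hn₀ n hn
  rw [pow_one] at h3
  have hnpos := mo.n_pos
  have hn1 : (1:ℝ) ≤ n := by exact_mod_cast hnpos
  have hn0 : (0:ℝ) < n := by linarith
  set L : ℝ := Real.log n with hL
  have hL1 : 1 ≤ L := (le_max_left _ _).trans h5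
  have hL2 : 64 / δ ≤ L := (le_max_right _ _).trans h5
  have hL0 : 0 < L := by linarith
  have hδL : 64 ≤ δ * L := by rw [div_le_iff₀ hδ] at hL2; linarith
  set K : ℕ := ⌊(n : ℝ) ^ θ⌋₊ with hK
  have hKle : (K : ℝ) ≤ (n : ℝ) ^ θ := Nat.floor_le (by positivity)
  have hKge : (n : ℝ) ^ θ < K + 1 := Nat.lt_floor_add_one _
  have hK2 : 2 ≤ K := by
    have : (2:ℝ) < K := by linarith
    exact_mod_cast this.le
  have hK1 : 1 ≤ K := by omega
  have hK0 : (0:ℝ) < K := by exact_mod_cast hK1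
  have hKn : K ≤ n := by
    have : (K : ℝ) ≤ n := hKle.trans (by
      calc (n : ℝ) ^ θ ≤ (n : ℝ) ^ (1:ℝ) := Real.rpow_le_rpow_of_exponent_le hn1 hθ1
        _ = n := Real.rpow_one _)
    exact_mod_cast this
  set J : ℕ := ⌊(n : ℝ) ^ ι⌋₊ with hJ
  have hJle : (J : ℝ) ≤ (n : ℝ) ^ ι := Nat.floor_le (by positivity)
  have hJ1 : 1 ≤ J := by
    rw [hJ]
    apply Nat.le_floor
    rw [Nat.cast_one]
    exact Real.one_le_rpow hn1 hι0.le
  have hJn : J ≤ n := by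
    have : (J : ℝ) ≤ n := hJle.trans (by
      calc (n : ℝ) ^ ι ≤ (n : ℝ) ^ (1:ℝ) := Real.rpow_le_rpow_of_exponent_le hn1 hι1
        _ = n := Real.rpow_one _)
    exact_mod_cast this
  set T : ℕ := ⌊(n : ℝ) ^ (2 * (1 - ε) / (2 - ε) + δ)⌋₊ with hT
  have hTge : (n : ℝ) ^ (θ + δ / 2) < T + 1 := by
    have : 2 * (1 - ε) / (2 - ε) + δ = θ + δ / 2 := by rw [hθh, hθ]; ring
    rw [← this]
    exact Nat.lt_floor_add_one _
  set m : ℕ := T / N with hm
  have hNm : N * m ≤ T := Nat.mul_div_le T N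
  have hmge : (T : ℝ) + 1 ≤ (m + 1) * N := by
    have : T < (m + 1) * N := by
      rw [mul_comm]
      exact Nat.lt_mul_div_succ T hN1
    exact_mod_cast this
  have hτ1 := one_le_tau_one hnpos
  have hτL : tau n 1 ≤ 1 + L := tau_one_le' hnpos
  have hLτ : L ≤ tau n 1 := by
    refine le_trans ?_ (tau_one_ge n)
    exact Real.log_le_log hn0 (by linarith)
  have hτ0 : 0 < tau n 1 := by linarith
  -- upper bound of the tail sum
  have hHK : HK n K 1 ≤ (h - δ / 4) * tau n 1 := by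
    have k1 := HK_le_of_ge (θ := θ) hK1 hKn (by linarith) hnpos
    have k2 : (1 - θ) = h - δ / 2 := by rw [hθ]; ring
    rw [k2] at k1
    have k4 : (h - δ / 4) * L ≤ (h - δ / 4) * tau n 1 := by
      apply mul_le_mul_of_nonneg_left hLτ; linarith
    have k5 : (h - δ / 4) * L = (h - δ / 2) * L + δ * L / 4 := by ring
    linarith
  have hHJ : (1 - 2 * ι) * tau n 1 ≤ HK n J 1 := by
    have k1 := HK_ge_of_le hJ1 hJn hJle hnpos
    have k2 : (1 - 2 * ι) * tau n 1 ≤ (1 - 2 * ι) * (1 + L) := by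
      apply mul_le_mul_of_nonneg_left hτL; rw [hι]; linarith
    have k3 : ι * L = δ * L / 32 := by rw [hι]; ring
    have k4 : (1 - 2 * ι) * (1 + L) = (1 - ι) * L - ι * L + 1 - 2 * ι := by ring
    linarith
  -- the power
  have hX : (1 - 2 / (K * tau n 1)) ^ m ≤ δ / 16 := by
    set q : ℝ := 2 / (K * tau n 1) with hq
    have hKτ : 2 ≤ (K : ℝ) * tau n 1 := by
      have : (2:ℝ) ≤ K := by exact_mod_cast hK2
      nlinarith
    have hq0 : 0 < q := by positivity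
    have hq1 : q ≤ 1 := by rw [hq, div_le_one (by linarith)]; exact hKτ
    have k1 : 1 - q ≤ Real.exp (-q) := by
      have := Real.add_one_le_exp (-q); linarith
    have k2 : (1 - q) ^ m ≤ Real.exp (-(q * m)) := by
      calc (1 - q) ^ m ≤ (Real.exp (-q)) ^ m := pow_le_pow_left₀ (by linarith) k1 m
        _ = Real.exp (-(q * m)) := by rw [← Real.exp_nat_mul]; congr 1; ring
    have k3 : 16 / δ + 1 ≤ q * (m + 1) := by
      have k4 : (n : ℝ) ^ (θ + δ / 2) ≤ (m + 1) * N := by linarith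
      have k5 : (n : ℝ) ^ (θ + δ / 2) = (n : ℝ) ^ θ * (n : ℝ) ^ (δ / 2) := Real.rpow_add hn0 _ _
      have k6 : (K : ℝ) * (2 * N * (16 / δ + 1) * L) ≤ (m + 1) * N := by
        calc (K : ℝ) * (2 * N * (16 / δ + 1) * L) ≤ (n : ℝ) ^ θ * (n : ℝ) ^ (δ / 2) := by gcongr
          _ ≤ _ := by rw [← k5]; exact k4
      have k7 : (K : ℝ) * (2 * (16 / δ + 1) * L) ≤ m + 1 := by
        have : (K : ℝ) * (2 * N * (16 / δ + 1) * L) = (K : ℝ) * (2 * (16 / δ + 1) * L) * N := by ring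
        rw [this] at k6
        exact le_of_mul_le_mul_right k6 hN0
      rw [hq, div_mul_eq_mul_div, le_div_iff₀ (by linarith)]
      have hτ2 : tau n 1 ≤ 2 * L := by linarith
      calc (16 / δ + 1) * (K * tau n 1) ≤ (16 / δ + 1) * (K * (2 * L)) := by gcongr
        _ = (K : ℝ) * (2 * (16 / δ + 1) * L) := by ring
        _ ≤ 2 * (m + 1) := by
            have : (0:ℝ) ≤ m := Nat.cast_nonneg m
            linarith
    have k8 : 16 / δ ≤ q * m := by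
      have : q * (m + 1) = q * m + q := by ring
      linarith
    refine k2.trans ?_
    rw [Real.exp_neg]
    have k9 : 16 / δ ≤ Real.exp (q * m) := by
      have := Real.add_one_le_exp (q * m); linarith
    calc (Real.exp (q * m))⁻¹ ≤ (16 / δ)⁻¹ := inv_anti₀ (by positivity) k9
      _ = δ / 16 := by rw [inv_div]
  have hY : tau n 1 / N ≤ δ / 16 * tau n 1 := by
    rw [div_le_iff₀ hN0]
    have k1 : δ / 16 * (16 / δ) ≤ δ / 16 * N := by gcongr
    have k2 : δ / 16 * (16 / δ) = 1 := by field_simp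
    rw [k2] at k1
    calc tau n 1 = 1 * tau n 1 := by ring
      _ ≤ (δ / 16 * N) * tau n 1 := by gcongr
      _ = _ := by ring
  have hbad := bad_upper mo.haarU mo.unif hnpos hK1 hKn hJ1 hJn hι0 hι1 hη₁0 h1 h2
  set B : Set (Matrix (Fin n) (Fin n) ℂ) := {M |
      ¬ ((∀ i, wsq (lamK n 1 K) (ru M i) ≤ (HK n K 1 + ι * tau n 1) / n * nsq (ru M i)) ∧
      (∀ i, (HK n J 1 - ι * tau n 1) / n * nsq (ru M i) ≤ wsq (lamK n 1 J) (ru M i)))} with hB
  have hsub : {ω | ENNReal.ofReal ((n : ℝ) ^ (2 * (1 - ε) / (2 - ε) + δ)) < (mo.Trcd ε ω : ℝ≥0∞)}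
      ⊆ {ω | (T : ℕ∞) < mo.Trcd ε ω} := by
    intro ω hω
    exact natCast_lt_of_ofReal_lt hω
  have hsplit := mo.dbl_split (B := B) (b := ENNReal.ofReal
      (9 / (c ^ 2 * tau n 1) + Real.exp (-(c ^ 2 * tau n 1 / 16))))
    (G := fun M w => ENNReal.ofReal (Ex (pwt 1 M) (stp 1 M) T
          (fun y => if (y0 1 w, y) ∈ {q : (Fin n → ℂ) × (Fin n → ℂ) | ε * nsq q.1 < nsq q.2}
            then 1 else 0) (y0 1 w)))
    (fun M hM w => ex_ind_le_one hnpos hM T _ _) (by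
      intro M hM hMB
      have hg := not_not.mp hMB
      simp only [nsq_ru hM, mul_one] at hg
      obtain ⟨g1, g2⟩ := hg
      have h₂0 : 0 ≤ h - δ / 8 := by linarith
      have h₂le : HK n K 1 + ι * tau n 1 ≤ (h - δ / 8) * (HK n J 1 - ι * tau n 1) := by
        have k1 : (h - δ / 4) + ι ≤ (h - δ / 8) * (1 - 3 * ι) := by
          have k2 : (h - δ / 8) * ι ≤ 1 * ι := by gcongr; linarith
          have k3 : (h - δ / 8) * (1 - 3 * ι) = h - δ / 8 - 3 * ((h - δ / 8) * ι) := by ring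
          rw [k3, hι]
          rw [hι] at k2
          linarith
        have k4 : ((h - δ / 4) + ι) * tau n 1 ≤ ((h - δ / 8) * (1 - 3 * ι)) * tau n 1 := by gcongr
        have k5 : ((h - δ / 8) * (1 - 3 * ι)) * tau n 1
            = (h - δ / 8) * ((1 - 2 * ι) * tau n 1 - ι * tau n 1) := by ring
        have k6 : (h - δ / 8) * ((1 - 2 * ι) * tau n 1 - ι * tau n 1)
            ≤ (h - δ / 8) * (HK n J 1 - ι * tau n 1) := by gcongr
        have k7 : ((h - δ / 4) + ι) * tau n 1 = (h - δ / 4) * tau n 1 + ι * tau n 1 := by ring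
        linarith
      have hE := EE_upper_one hnpos hM hK2 h₂0 h₂le g1 g2 hN1 hNm
      have hE2 := numeric_rcd_upper hε hε1 hδ hδε hh hτ0 rfl hc hHK hX hY hE
      exact int_upper mo.haarU mo.unif hnpos zero_le_one hε.le hε1.le hc0 hM hE2)
  refine (measure_mono hsub).trans ((mo.prob_lt_trcd_le ε T).trans (hsplit.trans ?_))
  have hfin : 9 / (c ^ 2 * tau n 1) + Real.exp (-(c ^ 2 * tau n 1 / 16)) ≤ η / 2 := by
    have k0 : 64 / (c ^ 2 * η) ≤ tau n 1 := h6.trans hLτ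
    have k1 : 64 / η ≤ c ^ 2 * tau n 1 := by
      have : c ^ 2 * (64 / (c ^ 2 * η)) ≤ c ^ 2 * tau n 1 := by gcongr
      have e : c ^ 2 * (64 / (c ^ 2 * η)) = 64 / η := by field_simp
      rwa [e] at this
    set x : ℝ := c ^ 2 * tau n 1 with hx
    have hx0 : 0 < x := by positivity
    have k2 : 64 ≤ x * η := by rwa [div_le_iff₀ hη] at k1
    have k3 : 9 / x ≤ η / 4 := by
      rw [div_le_iff₀ hx0]; linarith
    have k4 : Real.exp (-(x / 16)) ≤ η / 4 := by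
      rw [Real.exp_neg]
      have k5 : x / 16 ≤ Real.exp (x / 16) := by
        have := Real.add_one_le_exp (x / 16); linarith
      calc (Real.exp (x / 16))⁻¹ ≤ (x / 16)⁻¹ := inv_anti₀ (by positivity) k5
        _ = 16 / x := by rw [inv_div]
        _ ≤ η / 4 := by rw [div_le_iff₀ hx0]; linarith
    linarith
  calc Measure.map mo.U P B + ENNReal.ofReal (9 / (c ^ 2 * tau n 1)
        + Real.exp (-(c ^ 2 * tau n 1 / 16)))
      ≤ ENNReal.ofReal (2 * η₁) + ENNReal.ofReal (η / 2) := by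
        gcongr
    _ = ENNReal.ofReal (2 * η₁ + η / 2) := (ENNReal.ofReal_add (by positivity) (by positivity)).symm
    _ ≤ ENNReal.ofReal η := by
        apply ENNReal.ofReal_le_ofReal
        rw [hη₁]; linarith

/-- RCD at `p = 1`: lower bound -/
theorem rcd_one_lower {ε : ℝ} (hε : 0 < ε) (hε1 : ε < 1) {δ : ℝ} (hδ : 0 < δ) {η : ℝ} (hη : 0 < η) :
    ∃ n₀ : ℕ, ∀ n ≥ n₀, ∀ {Ω : Type*} [MeasurableSpace Ω] (P : Measure Ω) (m : Model n 1 P),
      P {ω | (m.Trcd ε ω : ℝ≥0∞) < ENNReal.ofReal ((n : ℝ) ^ (2 * (1 - ε) / (2 - ε) - δ))} ≤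
        ENNReal.ofReal η := by
  have h2ε : 0 < 2 - ε := by linarith
  have h1ε : 0 < 1 - ε := by linarith
  set δ' : ℝ := min δ ((1 - ε) / (2 - ε)) with hδ'
  have hδ'0 : 0 < δ' := lt_min hδ (by positivity)
  obtain ⟨n₀, hn₀⟩ := rcd_one_lower_aux hε hε1 hδ'0 (min_le_right _ _) hη
  refine ⟨n₀, fun n hn Ω _ P m => ?_⟩
  refine le_trans (measure_mono ?_) (hn₀ n hn P m)
  intro ω hω
  have hω' : (m.Trcd ε ω : ℝ≥0∞) < ENNReal.ofReal ((n : ℝ) ^ (2 * (1 - ε) / (2 - ε) - δ)) := hω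
  refine lt_of_lt_of_le hω' (ENNReal.ofReal_le_ofReal ?_)
  have hn1 : (1:ℝ) ≤ n := by exact_mod_cast m.n_pos
  apply Real.rpow_le_rpow_of_exponent_le hn1
  have := min_le_left δ ((1 - ε) / (2 - ε))
  linarith

/-- RCD at `p = 1`: upper bound -/
theorem rcd_one_upper {ε : ℝ} (hε : 0 < ε) (hε1 : ε < 1) {δ : ℝ} (hδ : 0 < δ) {η : ℝ} (hη : 0 < η) :
    ∃ n₀ : ℕ, ∀ n ≥ n₀, ∀ {Ω : Type*} [MeasurableSpace Ω] (P : Measure Ω) (m : Model n 1 P),
      P {ω | ENNReal.ofReal ((n : ℝ) ^ (2 * (1 - ε) / (2 - ε) + δ)) < (m.Trcd ε ω : ℝ≥0∞)} ≤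
        ENNReal.ofReal η := by
  have h2ε : 0 < 2 - ε := by linarith
  set δ' : ℝ := min δ (ε / (2 - ε)) with hδ'
  have hδ'0 : 0 < δ' := lt_min hδ (by positivity)
  obtain ⟨n₀, hn₀⟩ := rcd_one_upper_aux hε hε1 hδ'0 (min_le_right _ _) hη
  refine ⟨n₀, fun n hn Ω _ P m => ?_⟩
  refine le_trans (measure_mono ?_) (hn₀ n hn P m)
  intro ω hω
  have hω' : ENNReal.ofReal ((n : ℝ) ^ (2 * (1 - ε) / (2 - ε) + δ)) < (m.Trcd ε ω : ℝ≥0∞) := hω
  refine lt_of_le_of_lt (ENNReal.ofReal_le_ofReal ?_) hω'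
  have hn1 : (1:ℝ) ≤ n := by exact_mod_cast m.n_pos
  apply Real.rpow_le_rpow_of_exponent_le hn1
  have := min_le_left δ (ε / (2 - ε))
  linarith

end Pool.Agent.Hhelper29.CG
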