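import Mathlib

/-!
Elementary bounds for `∑ k^{-s}`.
-/

namespace Pool.Agent.Hhelper29.CG

open Finset

lemma rpow_step_lt_one {s : ℝ} (hs0 : 0 ≤ s) (hs1 : s < 1) (k : ℕ) :
    (1 - s) * ((k : ℝ) + 1) ^ (-s) ≤ ((k : ℝ) + 1) ^ (1 - s) - (k : ℝ) ^ (1 - s) := by
  have hk : (0:ℝ) < (k : ℝ) + 1 := by positivity
  have h1 : (1 + (-(1 / ((k : ℝ) + 1)))) ^ (1 - s) ≤ 1 + (1 - s) * (-(1 / ((k : ℝ) + 1))) := by
    apply rpow_one_add_le_one_add_mul_self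
    · have : 1 / ((k : ℝ) + 1) ≤ 1 := by
        rw [div_le_one hk]; have : (0:ℝ) ≤ k := Nat.cast_nonneg k; linarith
      linarith
    · linarith
    · linarith
  have h2 : 1 + (-(1 / ((k : ℝ) + 1))) = (k : ℝ) / ((k : ℝ) + 1) := by field_simp; ring
  rw [h2, Real.div_rpow (Nat.cast_nonneg k) hk.le] at h1
  have h3 : ((k : ℝ) + 1) ^ (1 - s) = ((k : ℝ) + 1) * ((k : ℝ) + 1) ^ (-s) := by
    rw [sub_eq_add_neg, Real.rpow_add hk, Real.rpow_one]
  have hpos : 0 < ((k : ℝ) + 1) ^ (1 - s) := Real.rpow_pos_of_pos hk _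
  rw [div_le_iff₀ hpos] at h1
  have h4 : (1 + (1 - s) * (-(1 / ((k : ℝ) + 1)))) * ((k : ℝ) + 1) ^ (1 - s)
      = ((k : ℝ) + 1) ^ (1 - s) - (1 - s) * ((k : ℝ) + 1) ^ (-s) := by
    rw [h3]; field_simp; ring
  rw [h4] at h1
  linarith

/-- `∑_{k ≤ n} k^{-s} ≤ n^{1-s}/(1-s)` for `0 ≤ s < 1` -/
lemma sum_rpow_le {s : ℝ} (hs0 : 0 ≤ s) (hs1 : s < 1) (n : ℕ) :
    ∑ k ∈ range n, ((k : ℝ) + 1) ^ (-s) ≤ (n : ℝ) ^ (1 - s) / (1 - s) := by
  have h1s : 0 < 1 - s := by linarith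
  induction n with
  | zero => simp; positivity
  | succ n ih =>
    rw [sum_range_succ]
    have h := rpow_step_lt_one hs0 hs1 n
    have h2 : ((n : ℝ) + 1) ^ (-s) ≤ (((n : ℝ) + 1) ^ (1 - s) - (n : ℝ) ^ (1 - s)) / (1 - s) := by
      rw [le_div_iff₀ h1s]; linarith
    push_cast
    have h3 : ((n : ℝ) + 1) ^ (1 - s) / (1 - s)
      = (n : ℝ) ^ (1 - s) / (1 - s) + (((n : ℝ) + 1) ^ (1 - s) - (n : ℝ) ^ (1 - s)) / (1 - s) := by
      field_simp; ring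
    rw [h3]
    linarith

lemma rpow_step_gt_one {s : ℝ} (hs1 : 1 < s) (k : ℕ) (hk0 : 1 ≤ k) :
    (s - 1) * ((k : ℝ) + 1) ^ (-s) ≤ (k : ℝ) ^ (1 - s) - ((k : ℝ) + 1) ^ (1 - s) := by
  have hk : (0:ℝ) < (k : ℝ) + 1 := by positivity
  have hk' : (0:ℝ) < (k : ℝ) := by exact_mod_cast hk0
  set x : ℝ := (k : ℝ) / ((k : ℝ) + 1) with hx
  have hx0 : 0 < x := by positivity
  have h1 : 1 + (s - 1) / ((k : ℝ) + 1) ≤ x ^ (1 - s) := by
    rw [Real.rpow_def_of_pos hx0]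
    have h2 := Real.add_one_le_exp (Real.log x * (1 - s))
    have h3 := Real.log_le_sub_one_of_pos hx0
    have h4 : x - 1 = -(1 / ((k : ℝ) + 1)) := by rw [hx]; field_simp; ring
    have h5 : (s - 1) / ((k : ℝ) + 1) ≤ Real.log x * (1 - s) := by
      rw [h4] at h3
      have : (s - 1) * (1 / ((k : ℝ) + 1)) ≤ (s - 1) * (- Real.log x) :=
        mul_le_mul_of_nonneg_left (by linarith) (by linarith)
      calc (s - 1) / ((k : ℝ) + 1) = (s - 1) * (1 / ((k : ℝ) + 1)) := by ring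
        _ ≤ _ := this
        _ = _ := by ring
    linarith
  have hpos : 0 < ((k : ℝ) + 1) ^ (1 - s) := Real.rpow_pos_of_pos hk _
  rw [hx, Real.div_rpow hk'.le hk.le, le_div_iff₀ hpos] at h1
  have h3 : ((k : ℝ) + 1) ^ (1 - s) = ((k : ℝ) + 1) * ((k : ℝ) + 1) ^ (-s) := by
    rw [sub_eq_add_neg, Real.rpow_add hk, Real.rpow_one]
  have h4 : (1 + (s - 1) / ((k : ℝ) + 1)) * ((k : ℝ) + 1) ^ (1 - s)
      = ((k : ℝ) + 1) ^ (1 - s) + (s - 1) * ((k : ℝ) + 1) ^ (-s) := by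
    rw [h3]; field_simp
  rw [h4] at h1
  linarith

/-- `∑_{K < k ≤ n} k^{-s} ≤ K^{1-s}/(s-1)` for `s > 1`, `K ≥ 1` -/
lemma sum_Ico_rpow_le {s : ℝ} (hs1 : 1 < s) {K : ℕ} (hK : 1 ≤ K) (n : ℕ) :
    ∑ k ∈ Ico K n, ((k : ℝ) + 1) ^ (-s) ≤ (K : ℝ) ^ (1 - s) / (s - 1) := by
  have h1s : 0 < s - 1 := by linarith
  have hKpos : (0:ℝ) < K := by exact_mod_cast hK
  by_cases hKn : K ≤ n
  · have key : ∑ k ∈ Ico K n, ((k : ℝ) + 1) ^ (-s)
        ≤ ((K : ℝ) ^ (1 - s) - (n : ℝ) ^ (1 - s)) / (s - 1) := by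
      induction n, hKn using Nat.le_induction with
      | base => simp
      | succ n hn ih =>
        rw [sum_Ico_succ_top hn]
        have h := rpow_step_gt_one hs1 n (hK.trans hn)
        have h2 : ((n : ℝ) + 1) ^ (-s) ≤ ((n : ℝ) ^ (1 - s) - ((n : ℝ) + 1) ^ (1 - s)) / (s - 1) := by
          rw [le_div_iff₀ h1s]; linarith
        push_cast
        have h3 : ((K : ℝ) ^ (1 - s) - ((n : ℝ) + 1) ^ (1 - s)) / (s - 1)
          = ((K : ℝ) ^ (1 - s) - (n : ℝ) ^ (1 - s)) / (s - 1)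
            + ((n : ℝ) ^ (1 - s) - ((n : ℝ) + 1) ^ (1 - s)) / (s - 1) := by
          field_simp; ring
        rw [h3]
        linarith
    refine key.trans ?_
    gcongr
    have : 0 ≤ (n : ℝ) ^ (1 - s) := Real.rpow_nonneg (Nat.cast_nonneg n) _
    linarith
  · rw [Ico_eq_empty (by omega), sum_empty]
    positivity

/-- `∑_{k ≤ n} k^{-s} ≤ s/(s-1)` for `s > 1` -/
lemma sum_range_rpow_le {s : ℝ} (hs1 : 1 < s) (n : ℕ) :
    ∑ k ∈ range n, ((k : ℝ) + 1) ^ (-s) ≤ s / (s - 1) := by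
  have h1s : 0 < s - 1 := by linarith
  rcases Nat.eq_zero_or_pos n with h | h
  · subst h; simp; positivity
  · rw [range_eq_Ico, ← Finset.sum_Ico_consecutive _ (Nat.zero_le 1) h]
    have h1 := sum_Ico_rpow_le hs1 (le_refl 1) n
    have h2 : ∑ k ∈ Ico (0:ℕ) 1, ((k : ℝ) + 1) ^ (-s) = 1 := by simp
    rw [h2]
    have h3 : s / (s - 1) = 1 + ((1 : ℕ) : ℝ) ^ (1 - s) / (s - 1) := by
      simp only [Nat.cast_one, Real.one_rpow]; field_simp; ring
    rw [h3]; linarith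

/-- harmonic sums from above -/
lemma sum_Ico_inv_le {K : ℕ} (hK : 1 ≤ K) {n : ℕ} (hKn : K ≤ n) :
    ∑ k ∈ Ico K n, 1 / ((k : ℝ) + 1) ≤ Real.log (n / K) := by
  have hKpos : (0:ℝ) < K := by exact_mod_cast hK
  induction n, hKn using Nat.le_induction with
  | base => simp
  | succ n hn ih =>
    rw [sum_Ico_succ_top hn]
    have hnpos : (0:ℝ) < n := by exact_mod_cast (hK.trans hn)
    have h1 : Real.log (((n + 1 : ℕ) : ℝ) / K) = Real.log (n / K) + Real.log (((n : ℝ) + 1) / n) := by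
      rw [← Real.log_mul (by positivity) (by positivity)]
      congr 1; push_cast; field_simp
    rw [h1]
    have h2 : 1 / ((n : ℝ) + 1) ≤ Real.log (((n : ℝ) + 1) / n) := by
      have h3 := Real.log_le_sub_one_of_pos (show (0:ℝ) < (n : ℝ) / ((n : ℝ) + 1) by positivity)
      have h4 : Real.log ((n : ℝ) / ((n : ℝ) + 1)) = - Real.log (((n : ℝ) + 1) / n) := by
        rw [← Real.log_inv]; congr 1; field_simp
      rw [h4] at h3
      have h5 : (n : ℝ) / ((n : ℝ) + 1) - 1 = -(1 / ((n : ℝ) + 1)) := by field_simp; ring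
      linarith
    linarith

/-- harmonic sums from below -/
lemma le_sum_Ico_inv {K n : ℕ} (hKn : K ≤ n) :
    Real.log (((n : ℝ) + 1) / (K + 1)) ≤ ∑ k ∈ Ico K n, 1 / ((k : ℝ) + 1) := by
  induction n, hKn using Nat.le_induction with
  | base => simp [div_self (show (K : ℝ) + 1 ≠ 0 by positivity)]
  | succ n hn ih =>
    rw [sum_Ico_succ_top hn]
    have h1 : Real.log (((n + 1 : ℕ) + 1 : ℝ) / (K + 1))
        = Real.log (((n : ℝ) + 1) / (K + 1)) + Real.log (((n : ℝ) + 2) / (n + 1)) := by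
      rw [← Real.log_mul (by positivity) (by positivity)]
      congr 1; push_cast; field_simp; ring
    rw [h1]
    have h2 : Real.log (((n : ℝ) + 2) / (n + 1)) ≤ 1 / ((n : ℝ) + 1) := by
      have h3 := Real.log_le_sub_one_of_pos (show (0:ℝ) < ((n : ℝ) + 2) / (n + 1) by positivity)
      have h5 : ((n : ℝ) + 2) / (n + 1) - 1 = 1 / ((n : ℝ) + 1) := by field_simp; ring
      linarith
    linarith

end Pool.Agent.Hhelper29.CG
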