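import Pool.Agent.Hhelper29.CG.RcdBasic
import Pool.Agent.Hhelper29.CG.Sums

/-!
First moments of the coordinates of a uniform unit vector, conversion lemmas for `ℕ∞`, and a
general bound for double integrals in the model.
-/

namespace Pool.Agent.Hhelper29.CG

open MeasureTheory Matrix ProbabilityTheory
open scoped ENNReal Classical

variable {n : ℕ} {p : ℝ}

lemma swap_mem_unitary (k l : Fin n) : Matrix.swap ℂ k l ∈ unitaryGroup (Fin n) ℂ := by
  rw [mem_unitaryGroup_iff, star_eq_conjTranspose, conjTranspose_swap, swap_mul_self]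

lemma unif_coord_eq {σ : Measure (Fin n → ℂ)} (hσ : IsUnif σ) (k l : Fin n) :
    ∫⁻ w, ENNReal.ofReal (‖w k‖ ^ 2) ∂σ = ∫⁻ w, ENNReal.ofReal (‖w l‖ ^ 2) ∂σ := by
  have h := hσ.inv (Matrix.swap ℂ k l) (swap_mem_unitary k l)
  have hm : Measurable (fun w : Fin n → ℂ => ENNReal.ofReal (‖w k‖ ^ 2)) := by fun_prop
  conv_lhs => rw [← h]
  rw [lintegral_map hm (measurable_mulVec_const _)]
  apply lintegral_congr
  intro w
  rw [swap_mulVec_apply]

lemma unif_coord {σ : Measure (Fin n → ℂ)} (hσ : IsUnif σ) (k : Fin n) :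
    ∫⁻ w, ENNReal.ofReal (‖w k‖ ^ 2) ∂σ = ENNReal.ofReal (1 / n) := by
  have := hσ.prob
  have hn : 0 < n := k.pos
  have h1 : ∫⁻ w, ENNReal.ofReal (nsq w) ∂σ = 1 := by
    have : ∫⁻ w, ENNReal.ofReal (nsq w) ∂σ = ∫⁻ _w, 1 ∂σ := by
      apply lintegral_congr_ae
      filter_upwards [hσ.sphere] with w hw
      rw [hw, ENNReal.ofReal_one]
    rw [this, lintegral_const, measure_univ, mul_one]
  have h2 : ∫⁻ w, ENNReal.ofReal (nsq w) ∂σ = ∑ l : Fin n, ∫⁻ w, ENNReal.ofReal (‖w l‖ ^ 2) ∂σ := by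
    rw [← lintegral_finsetSum _ (fun l _ => by fun_prop)]
    apply lintegral_congr
    intro w
    rw [nsq, ENNReal.ofReal_sum_of_nonneg (fun _ _ => by positivity)]
  rw [h1] at h2
  rw [Finset.sum_congr rfl (fun l _ => unif_coord_eq hσ l k)] at h2
  simp only [Finset.sum_const, Finset.card_univ, Fintype.card_fin, nsmul_eq_mul] at h2
  have hn0 : (n : ℝ≥0∞) ≠ 0 := by exact_mod_cast hn.ne'
  have hnt : (n : ℝ≥0∞) ≠ ∞ := ENNReal.natCast_ne_top n
  have h3 : ∫⁻ w, ENNReal.ofReal (‖w k‖ ^ 2) ∂σ = 1 / n := by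
    rw [ENNReal.eq_div_iff hn0 hnt]; exact h2.symm
  rw [h3, ENNReal.ofReal_div_of_pos (by exact_mod_cast hn), ENNReal.ofReal_one,
    ENNReal.ofReal_natCast]

lemma unif_weighted {σ : Measure (Fin n → ℂ)} (hσ : IsUnif σ) (c : Fin n → ℝ)
    (hc : ∀ k, 0 ≤ c k) :
    ∫⁻ w, ENNReal.ofReal (∑ k, c k * ‖w k‖ ^ 2) ∂σ = ENNReal.ofReal ((∑ k, c k) / n) := by
  have e1 : ∀ w : Fin n → ℂ, ENNReal.ofReal (∑ k, c k * ‖w k‖ ^ 2)
      = ∑ k, ENNReal.ofReal (c k) * ENNReal.ofReal (‖w k‖ ^ 2) := by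
    intro w
    rw [ENNReal.ofReal_sum_of_nonneg (fun k _ => mul_nonneg (hc k) (by positivity))]
    apply Finset.sum_congr rfl
    intro k _
    rw [ENNReal.ofReal_mul (hc k)]
  rw [lintegral_congr e1, lintegral_finsetSum _ (fun k _ => by fun_prop)]
  have e2 : ∀ k : Fin n, ∫⁻ w, ENNReal.ofReal (c k) * ENNReal.ofReal (‖w k‖ ^ 2) ∂σ
      = ENNReal.ofReal (c k * (1 / n)) := by
    intro k
    rw [lintegral_const_mul _ (by fun_prop), unif_coord hσ k, ENNReal.ofReal_mul (hc k)]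
  rw [Finset.sum_congr rfl (fun k _ => e2 k), ← ENNReal.ofReal_sum_of_nonneg
    (fun k _ => mul_nonneg (hc k) (by positivity)), ← Finset.sum_mul]
  congr 1; ring

lemma natCast_lt_of_ofReal_lt {x : ℝ} {T : ℕ∞} (h : ENNReal.ofReal x < (T : ℝ≥0∞)) :
    ((⌊x⌋₊ : ℕ) : ℕ∞) < T := by
  rw [← ENat.toENNReal_lt]
  refine lt_of_le_of_lt ?_ h
  rw [ENat.toENNReal_coe]
  by_cases hx : 0 ≤ x
  · rw [← ENNReal.ofReal_natCast]
    exact ENNReal.ofReal_le_ofReal (Nat.floor_le hx)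
  · rw [Nat.floor_of_nonpos (by linarith)]; simp

lemma le_natCast_of_lt_ofReal {x : ℝ} {T : ℕ∞} (h : (T : ℝ≥0∞) < ENNReal.ofReal x) :
    T ≤ ((⌊x⌋₊ : ℕ) : ℕ∞) := by
  have hx : 0 < x := by
    by_contra hx
    rw [ENNReal.ofReal_of_nonpos (not_lt.mp hx)] at h
    exact absurd h (not_lt.mpr (zero_le))
  induction T using ENat.recTopCoe with
  | top => exact absurd h (by simp)
  | coe m =>
    rw [ENat.toENNReal_coe, ← ENNReal.ofReal_natCast,
      ENNReal.ofReal_lt_ofReal_iff hx] at h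
    exact_mod_cast Nat.le_floor h.le

variable {Ω : Type*} [MeasurableSpace Ω] {P : Measure Ω}

lemma Model.dbl_le (m : Model n p P) {G : Matrix (Fin n) (Fin n) ℂ → (Fin n → ℂ) → ℝ≥0∞}
    {b : Matrix (Fin n) (Fin n) ℂ → ℝ≥0∞} {B : ℝ≥0∞}
    (h : ∀ M ∈ unitaryGroup (Fin n) ℂ, ∫⁻ w, G M w ∂(Measure.map m.z P) ≤ b M)
    (hb : ∀ M ∈ unitaryGroup (Fin n) ℂ, b M ≤ B) :
    ∫⁻ M, ∫⁻ w, G M w ∂(Measure.map m.z P) ∂(Measure.map m.U P) ≤ B := by
  have := m.haarU.prob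
  calc ∫⁻ M, ∫⁻ w, G M w ∂(Measure.map m.z P) ∂(Measure.map m.U P)
      ≤ ∫⁻ _M, B ∂(Measure.map m.U P) := by
        apply lintegral_mono_ae
        filter_upwards [m.haarU.unitary] with M hM
        exact (h M hM).trans (hb M hM)
    _ = B := by rw [lintegral_const, measure_univ, mul_one]

lemma lintegral_le_of_ae {σ : Measure (Fin n → ℂ)} (hσ : IsUnif σ) {g : (Fin n → ℂ) → ℝ≥0∞}
    {B : ℝ≥0∞} (h : ∀ w, nsq w = 1 → g w ≤ B) : ∫⁻ w, g w ∂σ ≤ B := by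
  have := hσ.prob
  calc ∫⁻ w, g w ∂σ ≤ ∫⁻ _w, B ∂σ := by
        apply lintegral_mono_ae
        filter_upwards [hσ.sphere] with w hw
        exact h w hw
    _ = B := by rw [lintegral_const, measure_univ, mul_one]

end Pool.Agent.Hhelper29.CG
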